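import Mathlib

/-!
# Artin-Schreier extensions of `k(t)` ordered by the conductor
-/

namespace Pool.Agent.ASel

open scoped IntermediateField Classical

variable {k : Type} [Field k]

/-- the sum of `(order + 1) * degree` over the poles of `d`, including infinity -/
noncomputable def ht (d : RatFunc k) : ℕ :=
  d.denom.natDegree + (UniqueFactorizationMonoid.radical d.denom).natDegree +
    if 0 < d.intDegree then d.intDegree.toNat + 1 else 0

/-- the degree of the conductor of `x ^ p - x = d` -/
noncomputable def cond (p : ℕ) (d : RatFunc k) : ℕ := sInf {n | ∃ y, ht (d + (y ^ p - y)) = n}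

variable (k) in
/-- the Artin-Schreier extensions inside `Ω` whose conductor has degree `N` -/
def ASx (p : ℕ) (Ω : Type) [Field Ω] [Algebra (RatFunc k) Ω] (N : ℕ) :
    Set (IntermediateField (RatFunc k) Ω) :=
  {L | ∃ (d : RatFunc k) (δ : Ω), δ ^ p - δ = algebraMap (RatFunc k) Ω d ∧ cond p d = N ∧
    L = (RatFunc k)⟮δ⟯}

end Pool.Agent.ASel
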