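import Pool.Agent.Work.MP_60d5ce_nt.AS.SFam
import Pool.Agent.Lib.Dwork.Curve

-- merged part: Pool.Agent.Work.MP_60d5ce_nt.AS.STk
section
/-!
# First and second moments of the number of prime factors  (AS, section 5)

Plan.  `om_le`: Markov, `∑ b, om b = ∑ P, q ^ (N - deg P) ≤ q ^ N * ∑ n ∈ Icc 1 N, 1 / n` (`ncard_dvd`, `prm_upper`), harmonic sum `≤ 1 + log N`.
`few_le`: `X b = card {P ∈ S | P ∣ b}`; mean `μ`, and `∑ b, (X b - μ) ^ 2 ≤ μ q ^ N` (for `P ≠ P'` the product is monic of degree `≤ N`);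
`X b < K ≤ μ / 2` gives `(X b - μ) ^ 2 ≥ μ ^ 2 / 4`.
-/

set_option linter.unusedSectionVars false

namespace Pool.Agent.ASW

open Polynomial

variable {k : Type} [Field k] [Fintype k]

open Classical in
lemma STk_card (N : ℕ) (p : k[X] → Prop) : {b : k[X] | b.Monic ∧ b.natDegree = N ∧ p b}.ncard =
    ((fin_mon N).toFinset.filter p).card := by
  rw [← Set.ncard_coe_finset]
  exact congrArg _ (Set.ext fun b => by simp [and_assoc])

lemma STk_markov (N : ℕ) (p : k[X] → Prop) {c : ℝ} {F : k[X] → ℝ} (h0 : ∀ b, 0 ≤ F b)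
    (h : ∀ b, b.Monic → b.natDegree = N → p b → c ≤ F b) :
    c * {b : k[X] | b.Monic ∧ b.natDegree = N ∧ p b}.ncard ≤ ∑ b ∈ (fin_mon N).toFinset, F b := by
  classical
  rw [STk_card, mul_comm, ← nsmul_eq_mul]
  refine (Finset.card_nsmul_le_sum _ F c fun b hb => ?_).trans
    (Finset.sum_le_sum_of_subset_of_nonneg (Finset.filter_subset _ _) fun b _ _ => h0 b)
  simp only [Finset.mem_filter, Set.Finite.mem_toFinset, Set.mem_ofPred_eq] at hb
  exact h b hb.1.1 hb.1.2 hb.2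

open Classical in
lemma STk_cnt {g : k[X]} (hg : g.Monic) {N : ℕ} (h : g.natDegree ≤ N) :
    ∑ b ∈ (fin_mon N).toFinset, (if g ∣ b then 1 else 0 : ℝ) =
      (Fintype.card k : ℝ) ^ N * ((Fintype.card k : ℝ) ^ g.natDegree)⁻¹ := by
  rw [Finset.sum_boole, ← STk_card, ncard_dvd hg h, Nat.cast_pow,
    pow_sub₀ _ (Nat.cast_ne_zero.2 Fintype.card_ne_zero) h]

theorem om_le (N m : ℕ) : (m : ℝ) * {b : k[X] | b.Monic ∧ b.natDegree = N ∧ m < om b}.ncard ≤
    (1 + Real.log N) * (Fintype.card k : ℝ) ^ N := by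
  classical
  have q0 : (0 : ℝ) < Fintype.card k := Nat.cast_pos.2 Fintype.card_pos
  refine (STk_markov N _ (F := fun b => ∑ n ∈ Finset.Icc 1 N,
    ∑ P ∈ (fin_mon n).toFinset.filter Irreducible, (if P ∣ b then 1 else 0 : ℝ))
    (fun b => by positivity) fun b b1 b2 b3 => ?_).trans ?_
  · simp only [Finset.sum_boole]
    rw [← Nat.cast_sum, Nat.cast_le]
    refine b3.le.trans (le_trans ?_ Finset.card_biUnion_le)
    rw [← Set.ncard_coe_finset]
    refine Set.ncard_le_ncard (fun P hP => ?_) (Finset.finite_toSet _)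
    simp only [Finset.mem_coe, Finset.mem_biUnion, Finset.mem_filter, Set.Finite.mem_toFinset,
      Set.mem_ofPred_eq, Finset.mem_Icc]
    exact ⟨_, ⟨hP.1.2.natDegree_pos, b2 ▸ natDegree_le_of_dvd hP.2 b1.ne_zero⟩,
      ⟨⟨hP.1.1, rfl⟩, hP.1.2⟩, hP.2⟩
  have hl := harmonic_le_one_add_log N
  rw [harmonic_eq_sum_Icc] at hl
  push_cast at hl
  rw [Finset.sum_comm]
  refine le_trans (Finset.sum_le_sum fun n hn => ?_) ((Finset.sum_mul _ _ _).symm.trans_le
    (mul_le_mul_of_nonneg_right hl (by positivity)))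
  have n1 := Finset.mem_Icc.1 hn
  have e : {P : k[X] | Prm P ∧ P.natDegree = n} =
      {P : k[X] | P.Monic ∧ P.natDegree = n ∧ Irreducible P} :=
    Set.ext fun P => by simp only [Prm, Set.mem_ofPred_eq]; tauto
  have u := prm_upper (k := k) n
  rw [e, STk_card] at u
  rw [Finset.sum_comm, Finset.sum_congr rfl (g := fun _ =>
    (Fintype.card k : ℝ) ^ N * ((Fintype.card k : ℝ) ^ n)⁻¹) fun P hP => ?_, Finset.sum_const,
    nsmul_eq_mul, mul_left_comm, mul_comm]
  · refine mul_le_mul_of_nonneg_right ?_ (by positivity)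
    rw [← div_eq_mul_inv, div_le_iff₀ (by positivity), le_inv_mul_iff₀ (Nat.cast_pos.2 n1.1)]
    exact_mod_cast u
  · simp only [Finset.mem_filter, Set.Finite.mem_toFinset, Set.mem_ofPred_eq] at hP
    rw [STk_cnt hP.1.1 (hP.1.2.trans_le n1.2), hP.1.2]

theorem few_le (N K : ℕ) (S : Finset k[X]) (hS : ∀ P ∈ S, Prm P ∧ 2 * P.natDegree ≤ N) {μ : ℝ}
    (hμ : μ = ∑ P ∈ S, ((Fintype.card k : ℝ) ^ P.natDegree)⁻¹) (hK : 2 * K ≤ μ) :
    μ * {b : k[X] | b.Monic ∧ b.natDegree = N ∧ {P | P ∈ S ∧ P ∣ b}.ncard < K}.ncard ≤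
      4 * (Fintype.card k : ℝ) ^ N := by
  classical
  have q0 : (0 : ℝ) < Fintype.card k := Nat.cast_pos.2 Fintype.card_pos
  rcases (le_trans (by positivity) hK : 0 ≤ μ).eq_or_lt with rfl | μ0
  · rw [zero_mul]
    positivity
  set X : k[X] → ℝ := fun b => ∑ P ∈ S, if P ∣ b then 1 else 0 with hX
  have c : ∀ P ∈ S, _ := fun P hP => STk_cnt (hS P hP).1.1 (N := N) (by linarith only [hS, hP, (hS P hP).2])
  have m0 : ((fin_mon (k := k) N).toFinset.card : ℝ) = (Fintype.card k : ℝ) ^ N := by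
    rw [← Set.ncard_eq_toFinset_card _ (fin_mon N), ncard_mon, Nat.cast_pow]
  have m1 : ∑ b ∈ (fin_mon N).toFinset, X b = (Fintype.card k : ℝ) ^ N * μ := by
    rw [Finset.sum_comm, hμ, Finset.mul_sum]
    exact Finset.sum_congr rfl c
  have m2 : ∑ b ∈ (fin_mon N).toFinset, X b * X b ≤
      (Fintype.card k : ℝ) ^ N * μ * μ + (Fintype.card k : ℝ) ^ N * μ := by
    have e : (Fintype.card k : ℝ) ^ N * μ =
      ∑ P ∈ S, (Fintype.card k : ℝ) ^ N * ((Fintype.card k : ℝ) ^ P.natDegree)⁻¹ := by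
      rw [hμ, Finset.mul_sum]
    simp only [hX, Finset.sum_mul_sum]
    rw [Finset.sum_comm, e, hμ, Finset.sum_mul_sum, ← Finset.sum_add_distrib]
    refine Finset.sum_le_sum fun P hP => ?_
    rw [Finset.sum_comm, ← Finset.add_sum_erase _ _ hP, add_comm]
    refine add_le_add (le_trans (Finset.sum_le_sum fun Q hQ => ?_)
      (Finset.sum_le_sum_of_subset_of_nonneg (Finset.erase_subset P S) fun _ _ _ => by positivity))
      (le_of_eq_of_le (Finset.sum_congr rfl fun b _ => by split_ifs <;> simp) (c P hP).le)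
    obtain ⟨Q1, Q2⟩ := Finset.mem_erase.1 hQ
    obtain ⟨⟨p1, p2⟩, p3⟩ := hS P hP
    obtain ⟨⟨r1, r2⟩, r3⟩ := hS Q Q2
    have co : IsCoprime P Q := p2.coprime_iff_not_dvd.2 fun h =>
      Q1 (eq_of_monic_of_associated p1 r1 (p2.associated_of_dvd r2 h)).symm
    have d := p1.natDegree_mul r1
    have e := STk_cnt (p1.mul r1) (N := N) (by omega)
    rw [d, pow_add, mul_inv, ← mul_assoc] at e
    refine le_of_le_of_eq (Finset.sum_le_sum fun b _ => ?_) e
    by_cases h1 : P ∣ b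
    · by_cases h2 : Q ∣ b
      · simp [h1, h2, co.mul_dvd h1 h2]
      · simp only [h2, if_false, mul_zero]
        positivity
    · simp only [h1, if_false, zero_mul]
      positivity
  have m := STk_markov N (fun b => {P | P ∈ S ∧ P ∣ b}.ncard < K) (c := μ * μ / 4)
    (F := fun b => X b * X b - 2 * μ * X b + μ * μ) (fun b => by linarith only [sq_nonneg (X b - μ), sq_nonneg (X b - μ)])
    fun b _ _ h => by
      have e : {P | P ∈ S ∧ P ∣ b} = S.filter (· ∣ b) := Set.ext fun P => by simp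
      rw [e, Set.ncard_coe_finset] at h
      have x : X b ≤ K := (Finset.sum_boole _ _).trans_le (by exact_mod_cast h.le)
      linarith only [hK, x, μ0, mul_nonneg (show 0 ≤ μ / 2 - X b by linarith) (show 0 ≤ 3 * μ / 2 - X b by linarith)]
  rw [Finset.sum_add_distrib, Finset.sum_sub_distrib, ← Finset.mul_sum, m1, Finset.sum_const,
    nsmul_eq_mul, m0] at m
  refine le_of_mul_le_mul_left ?_ μ0
  linarith only [m2, m]

end Pool.Agent.ASW
end

-- merged part: Pool.Agent.Work.MP_60d5ce_nt.AG.SStr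
section
/-!
# Almost all `b` have the prime factors that are needed  (AS, section 5)

Plan.  Three bad events.  `om_le` with `log N ≤ 4 a log (m + 1)`.  `few_le` for the primes with `A P` of degree in `(m ^ a, m ^ (2 a)]`
(`2 m ^ (2 a) ≤ m ^ (4 a) ≤ N`) and in `(m ^ (3 a), m ^ (4 a) / 2]`; by `Dns` the mass of such primes with degree in `(Y, Y']` is at least
`∑ 1 / (4 n)` over the multiples `n` of `d0` in `(Y, Y']`, which tends to infinity when `Y' / Y` and `Y` do
(for instance by dyadic blocks: the multiples of `d0` in `(Z, 2 Z]` give at least `1 / (16 d0)` when `Z ≥ 2 d0`).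
-/

set_option linter.unusedSectionVars false

namespace Pool.Agent.ASW

open Polynomial

variable {k : Type} [Field k]

/-- few prime factors, `K` of medium size and one large, all with the property `A` -/
def Str (A : k[X] → Prop) (K a m : ℕ) (b : k[X]) : Prop :=
  om b ≤ m ∧ (∃ v : Fin K → k[X], Function.Injective v ∧ ∀ i, Prm (v i) ∧ v i ∣ b ∧ A (v i) ∧
    m ^ a < (v i).natDegree ∧ (v i).natDegree ≤ m ^ (2 * a)) ∧
  ∃ P, Prm P ∧ P ∣ b ∧ A P ∧ m ^ (3 * a) < P.natDegree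

variable [Fintype k]

/-- many primes in an arithmetic progression of degrees have the property `A` -/
def Dns (A : k[X] → Prop) : Prop := ∃ d0 r n0 : ℕ, 0 < d0 ∧ r ≤ d0 ∧ ∀ j ≥ n0,
  Fintype.card k ^ (d0 * j + r) ≤
    4 * (d0 * j + r) * {P : k[X] | Prm P ∧ A P ∧ P.natDegree = d0 * j + r}.ncard

theorem SStr_harm {Y : ℕ} (hY : 0 < Y) (t : ℕ) :
    (t : ℝ) / 2 ≤ ∑ j ∈ Finset.Ioc Y (2 ^ t * Y), (j : ℝ)⁻¹ := by
  induction t with
  | zero => simp
  | succ t ih =>
    have h0 : 0 < 2 ^ t * Y := by positivity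
    have h1 : Y ≤ 2 ^ t * Y := Nat.le_mul_of_pos_left _ (by positivity)
    rw [pow_succ', mul_assoc]
    generalize 2 ^ t * Y = Z at *
    have h2 := Finset.card_nsmul_le_sum (Finset.Ioc Z (2 * Z)) (fun j => (j : ℝ)⁻¹) (2 * Z : ℝ)⁻¹
      fun j hj => by
        obtain ⟨h3, h4⟩ := Finset.mem_Ioc.1 hj
        exact inv_anti₀ (by exact_mod_cast h0.trans h3) (by exact_mod_cast h4)
    have h3 : (0 : ℝ) < Z := by exact_mod_cast h0
    rw [Nat.card_Ioc, show 2 * Z - Z = Z by omega, nsmul_eq_mul,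
      show (Z : ℝ) * (2 * Z : ℝ)⁻¹ = 1 / 2 by field_simp] at h2
    rw [← Finset.sum_Ioc_consecutive _ h1 (by omega : Z ≤ 2 * Z)]
    push_cast
    linarith only [ih, h2]

theorem SStr_mass {p : k[X] → Prop} (h : Dns p) (R : ℝ) :
    ∃ L Y0 : ℕ, ∀ Y ≥ Y0, ∀ Y' ≥ L * Y, ∃ S : Finset k[X],
      (∀ P ∈ S, Prm P ∧ p P ∧ Y < P.natDegree ∧ P.natDegree ≤ Y') ∧
        R ≤ ∑ P ∈ S, ((Fintype.card k : ℝ) ^ P.natDegree)⁻¹ := by
  classical
  obtain ⟨d0, r, n0, hd, hr, h⟩ := h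
  obtain ⟨t, ht⟩ := exists_nat_ge (16 * d0 * R)
  refine ⟨d0 * 2 ^ t + d0, n0 + 1, fun Y hY Y' hY' => ?_⟩
  have hf : ∀ n, {P : k[X] | Prm P ∧ p P ∧ P.natDegree = n}.Finite := fun n =>
    (fin_mon n).subset fun P hP => ⟨hP.1.1, hP.2.2⟩
  have hd' : (0 : ℝ) < d0 := by exact_mod_cast hd
  refine ⟨(Finset.Ioc Y (2 ^ t * Y)).biUnion fun j => (hf (d0 * j + r)).toFinset, fun P hP => ?_, ?_⟩
  · obtain ⟨j, hj, hP⟩ := Finset.mem_biUnion.1 hP
    obtain ⟨h1, h2, h3⟩ := (Set.Finite.mem_toFinset _).1 hP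
    obtain ⟨h4, h5⟩ := Finset.mem_Ioc.1 hj
    have h6 := Nat.le_mul_of_pos_left j hd
    have h7 := Nat.mul_le_mul_left d0 h5
    have h8 := Nat.le_mul_of_pos_right d0 (show 0 < Y by omega)
    rw [add_mul, mul_assoc] at hY'
    exact ⟨h1, h2, by omega, by omega⟩
  rw [Finset.sum_biUnion fun i _ j _ hij => Finset.disjoint_left.2 fun P h1 h2 => hij
    (Nat.eq_of_mul_eq_mul_left hd (add_right_cancel (((Set.Finite.mem_toFinset _).1 h1).2.2.symm.trans
      ((Set.Finite.mem_toFinset _).1 h2).2.2)))]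
  have h1 := mul_le_mul_of_nonneg_left (SStr_harm (show 0 < Y by omega) t)
    (show (0 : ℝ) ≤ (8 * d0 : ℝ)⁻¹ by positivity)
  rw [Finset.mul_sum] at h1
  refine le_trans ?_ (h1.trans (Finset.sum_le_sum fun j hj => ?_))
  · rw [le_inv_mul_iff₀ (by positivity)]
    linarith only [ht]
  have h2 := (Finset.mem_Ioc.1 hj).1
  have h6 : 4 * (d0 * j + r) ≤ 8 * (d0 * j) := by
    have := Nat.le_mul_of_pos_right d0 (show 0 < j by omega)
    omega
  have h3 : ((Fintype.card k : ℝ)) ^ (d0 * j + r) ≤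
      8 * (d0 * j) * {P : k[X] | Prm P ∧ p P ∧ P.natDegree = d0 * j + r}.ncard := by
    exact_mod_cast (h j (by omega)).trans (Nat.mul_le_mul_right _ h6)
  have h4 : (0 : ℝ) < j := by exact_mod_cast (show 0 < j by omega)
  have h5 : (0 : ℝ) < Fintype.card k := by exact_mod_cast Fintype.card_pos
  rw [Finset.sum_congr rfl fun P hP => by rw [((Set.Finite.mem_toFinset _).1 hP).2.2],
    Finset.sum_const, ← Set.ncard_eq_toFinset_card _ (hf _), nsmul_eq_mul, ← mul_inv, ← div_eq_mul_inv,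
    le_div_iff₀ (by positivity), inv_mul_le_iff₀ (by positivity), mul_assoc 8]
  exact h3

theorem SStr_few {p : k[X] → Prop} (h : Dns p) (K : ℕ) {ε : ℝ}
    (hε : 0 < ε) : ∃ L Y0 : ℕ, ∀ Y ≥ Y0, ∀ Y' ≥ L * Y, ∀ N ≥ 2 * Y',
      ({b : k[X] | b.Monic ∧ b.natDegree = N ∧ ¬ ∃ v : Fin K → k[X], Function.Injective v ∧
        ∀ i, Prm (v i) ∧ v i ∣ b ∧ p (v i) ∧ Y < (v i).natDegree ∧
          (v i).natDegree ≤ Y'}.ncard : ℝ) ≤ ε * (Fintype.card k : ℝ) ^ N := by
  classical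
  obtain ⟨L, Y0, h1⟩ := SStr_mass h (max (2 * K) (4 / ε))
  refine ⟨L, Y0, fun Y hY Y' hY' N hN => ?_⟩
  obtain ⟨S, hS, hR⟩ := h1 Y hY Y' hY'
  have h2 := few_le N K S (fun P hP => ⟨(hS P hP).1, by have := (hS P hP).2.2.2; omega⟩) rfl
    ((le_max_left _ _).trans hR)
  have h3 := (mul_le_mul_of_nonneg_right ((le_max_right _ _).trans hR) (Nat.cast_nonneg _)).trans h2
  rw [div_mul_eq_mul_div, div_le_iff₀ hε] at h3
  refine le_trans (Nat.cast_le.2 (Set.ncard_le_ncard (fun b hb => ?_) ((fin_mon N).subset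
    fun b hb => ⟨hb.1, hb.2.1⟩) (t := {b : k[X] | b.Monic ∧ b.natDegree = N ∧
      {P | P ∈ S ∧ P ∣ b}.ncard < K}))) (by linarith only [h3])
  refine ⟨hb.1, hb.2.1, not_le.1 fun hK => hb.2.2 ?_⟩
  rw [← Finset.coe_filter, Set.ncard_coe_finset] at hK
  refine ⟨fun i => ((S.filter (· ∣ b)).equivFin.symm (Fin.castLE hK i)).1, fun i j e =>
    Fin.castLE_injective hK ((Equiv.injective _) (Subtype.ext e)), fun i => ?_⟩
  obtain ⟨h4, h5⟩ := Finset.mem_filter.1 ((S.filter (· ∣ b)).equivFin.symm (Fin.castLE hK i)).2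
  exact ⟨(hS _ h4).1, h5, (hS _ h4).2⟩

theorem SStr_om (a : ℕ) {ε : ℝ} (hε : 0 < ε) : ∃ m0 : ℕ, ∀ m ≥ m0, ∀ N, 0 < N → N < (m + 1) ^ a →
    ({b : k[X] | b.Monic ∧ b.natDegree = N ∧ m < om b}.ncard : ℝ) ≤
      ε * (Fintype.card k : ℝ) ^ N := by
  obtain ⟨x, hx⟩ := Filter.eventually_atTop.1
    (Real.isLittleO_log_id_atTop.bound (show 0 < ε / (4 * (a + 1)) by positivity))
  obtain ⟨m0, h0⟩ := exists_nat_ge (max x (2 / ε))
  refine ⟨m0 + 1, fun m hm N hN hN' => ?_⟩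
  have h1 : (m0 + 1 : ℝ) ≤ m := by exact_mod_cast hm
  have h2 : (0 : ℝ) ≤ m0 := Nat.cast_nonneg _
  have h3 := (le_abs_self _).trans (hx (m + 1) (by linarith only [h0, h1, le_max_left x (2 / ε)]))
  rw [id, Real.norm_of_nonneg (by linarith only [h1]), div_mul_eq_mul_div, le_div_iff₀ (by positivity)] at h3
  have h4 : Real.log N ≤ a * Real.log (m + 1) := by
    rw [← Real.log_pow]
    exact Real.log_le_log (by exact_mod_cast hN) (by exact_mod_cast hN'.le)
  have h5 : 2 ≤ m * ε := (div_le_iff₀ hε).1 (by linarith only [h0, h1, le_max_right x (2 / ε)])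
  have h6 : 0 ≤ Real.log (m + 1) := Real.log_nonneg (by linarith only [h1])
  have h7 : 1 + Real.log N ≤ m * ε := by linarith only [h3, h4, h5, h6, hε, h1, mul_nonneg_of_nonpos_of_nonpos (Mathlib.Tactic.Linarith.sub_nonpos_of_le (Mathlib.Tactic.Linarith.natCast_nonneg ℝ m0)) (le_of_lt (Mathlib.Tactic.Linarith.sub_neg_of_lt hε)), mul_nonneg_of_nonpos_of_nonpos (le_of_lt (Mathlib.Tactic.Linarith.sub_neg_of_lt hε)) (Mathlib.Tactic.Linarith.sub_nonpos_of_le h1)]
  refine le_of_mul_le_mul_left ((om_le N m).trans ?_) (show (0 : ℝ) < m by linarith only [h1])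
  rw [← mul_assoc]
  exact mul_le_mul_of_nonneg_right h7 (by positivity)

theorem str_most {A : k[X] → Prop} (h : Dns A) (K a : ℕ) (ha : 1 ≤ a) {ε : ℝ} (hε : 0 < ε) :
    ∃ m0 : ℕ, ∀ m ≥ m0, ∀ N, m ^ (4 * a) ≤ N → N < (m + 1) ^ (4 * a) →
      ({b : k[X] | b.Monic ∧ b.natDegree = N ∧ ¬ Str A K a m b}.ncard : ℝ) ≤
        ε * (Fintype.card k : ℝ) ^ N := by
  have h3 : 0 < ε / 3 := by positivity
  obtain ⟨m1, e1⟩ := SStr_om (k := k) (4 * a) h3
  obtain ⟨L2, Y2, e2⟩ := SStr_few h K h3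
  obtain ⟨L3, Y3, e3⟩ := SStr_few h 1 h3
  refine ⟨m1 + L2 + Y2 + 2 * L3 + Y3 + 2, fun m hm N hN hN' => ?_⟩
  have hp : ∀ j, 1 ≤ j → m ≤ m ^ (j * a) := fun j hj =>
    Nat.le_self_pow (Nat.mul_pos hj ha).ne' m
  have p1 := hp 1 le_rfl
  have p2 := hp 2 one_le_two
  have p3 := hp 3 (by norm_num)
  have p4 := hp 4 (by norm_num)
  rw [one_mul] at p1
  have b1 := e1 m (by omega) N (by omega) hN'
  have b2 := e2 (m ^ a) (by omega) (m ^ (2 * a))
    (by rw [two_mul, pow_add]; exact Nat.mul_le_mul_right _ (by omega)) N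
    (le_trans (by rw [show 4 * a = 2 * a + 2 * a by ring, pow_add]
                  exact Nat.mul_le_mul_right _ (by omega)) hN)
  have b3 := e3 (m ^ (3 * a)) (by omega) _ le_rfl N
    (le_trans (by rw [show 4 * a = a + 3 * a by ring, pow_add, ← mul_assoc]
                  exact Nat.mul_le_mul_right _ (by omega)) hN)
  have hf : ∀ p : k[X] → Prop, {b : k[X] | b.Monic ∧ b.natDegree = N ∧ p b}.Finite := fun p =>
    (fin_mon N).subset fun b hb => ⟨hb.1, hb.2.1⟩
  refine le_trans ?_ ((add_le_add (add_le_add b1 b2) b3).trans_eq (by ring))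
  rw [← Nat.cast_add, ← Nat.cast_add, Nat.cast_le]
  refine (Set.ncard_le_ncard (fun b hb => ?_) (((hf _).union (hf _)).union (hf _))).trans
    ((Set.ncard_union_le _ _).trans (Nat.add_le_add_right (Set.ncard_union_le _ _) _))
  by_contra hc
  simp only [Set.mem_union, Set.mem_ofPred_eq, hb.1, hb.2.1, true_and, not_or, not_not, not_lt] at hc
  obtain ⟨v, -, hv⟩ := hc.2
  exact hb.2.2 ⟨hc.1.1, hc.1.2, v 0, (hv 0).1, (hv 0).2.1, (hv 0).2.2.1, (hv 0).2.2.2.1⟩

end Pool.Agent.ASW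
end

-- merged part: Pool.Agent.Work.MP_60d5ce_nt.AG.SMain
section
/-!
# From cosets to the density  (AS, section 5)

Plan.  Fix `ε`; `m` with `m ^ (4 a) ≤ N < (m + 1) ^ (4 a)` (`Nat.find`, or `Nat.nthRoot`).  For `b'` choose (as a function of `b'` only) `v` and `Bad b'` when they exist.
A pair `(a, b)` of the family with `Grow a b` is of one of three kinds.  (1) `¬ Str A K a m b`: at most `ε q ^ N * q ^ N` (`str_most`).  Otherwise choose `P = P b`,
`b = b' * P` (`P` is none of the `v i` since `m ^ (2 a) ≤ m ^ (3 a)`, so `b'` has the medium primes, `om b' ≤ m`), and write `a = a' * P + a'' * b'` with small degrees.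
(2) `P ∈ Bad b' a'`: the triples `(b', a', P, a'')` with `deg P = n > m ^ (3 a)` number at most
`∑ n, q ^ (N - n) * q ^ (N - n) * q ^ (C m ^ (2 a)) * (N + 1) * q ^ n`, which is `o (q ^ (2 N))`.
(3) otherwise: for fixed `b` the set of such `a` meets each coset of `E` in the group of polynomials of degree `< N` in at most `ε * card E` points
(if it is not empty take `a0` in it), so has at most `ε q ^ N` points.
-/

set_option linter.unusedSectionVars false

namespace Pool.Agent.ASW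

open Polynomial Filter Topology

variable {k : Type} [Field k] [Fintype k]

/-- the hypothesis on cosets -/
def Cos (A : k[X] → Prop) (Δ : k[X]) (Grow : k[X] → k[X] → Prop) (ε : ℝ) (K a C m L : ℕ) : Prop :=
  ∀ (b' : k[X]) (v : Fin K → k[X]), b'.Monic → Squarefree b' → IsCoprime b' Δ → om b' ≤ m →
    Function.Injective v → (∀ i, Prm (v i) ∧ v i ∣ b' ∧ A (v i) ∧
      m ^ a < (v i).natDegree ∧ (v i).natDegree ≤ m ^ (2 * a)) →
    ∃ Bad : k[X] → Set k[X], (∀ a', (Bad a').Finite ∧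
        (Bad a').ncard ≤ Fintype.card k ^ (C * m ^ (2 * a)) * (b'.natDegree + L + 1)) ∧
      ∀ P, Prm P → ¬ P ∣ b' → IsCoprime P Δ → A P →
        ∃ E : AddSubgroup k[X], (∀ e ∈ E, e.degree < (b' * P).degree) ∧
          ∀ a' a'' : k[X], a'.degree < b'.degree → a''.degree < P.degree →
            IsCoprime (a' * P + a'' * b') (b' * P) → P ∉ Bad a' →
            ({e | e ∈ E ∧ IsCoprime (a' * P + a'' * b' + e) (b' * P) ∧
              Grow (a' * P + a'' * b' + e) (b' * P)}.ncard : ℝ) ≤ ε * Nat.card E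

theorem SMain_card {α : Type} {s : Set α} (hs : s.Finite) : hs.toFinset.card = s.ncard :=
  (Set.ncard_eq_toFinset_card s hs).symm

/-- A set that is thin in every coset is thin. -/
theorem SMain_coset {G : Type} [AddCommGroup G] {V T : Set G} (hV : V.Finite) (E : AddSubgroup G)
    (hE : (E : Set G).Finite) (hVE : ∀ v ∈ V, ∀ e ∈ E, v + e ∈ V) (hT : T ⊆ V) {ε : ℝ}
    (hε : 0 ≤ ε) (h : ∀ a ∈ T, ({e | e ∈ E ∧ a + e ∈ T}.ncard : ℝ) ≤ ε * Nat.card E) :
    (T.ncard : ℝ) ≤ ε * V.ncard := by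
  classical
  have hT' := hV.subset hT
  have e0 : Nat.card E = (E : Set G).ncard := rfl
  have p0 : (0 : ℝ) < Nat.card E := by
    rw [e0]
    exact_mod_cast (Set.ncard_pos hE).2 ⟨0, E.zero_mem⟩
  have key := Finset.card_nsmul_le_card_nsmul (fun t v : G => v - t ∈ E) (s := hT'.toFinset)
    (t := hV.toFinset) (m := (Nat.card E : ℝ)) (n := ε * Nat.card E) (fun a ha => ?_) fun v hv => ?_
  · rw [nsmul_eq_mul, nsmul_eq_mul, SMain_card, SMain_card,
      ← mul_assoc, mul_comm _ ε] at key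
    exact le_of_mul_le_mul_right key p0
  · rw [e0, ← Set.ncard_coe_finset, Nat.cast_le]
    refine Set.ncard_le_ncard_of_injOn (fun e => a + e) (fun e he => ?_)
      (add_right_injective a).injOn (Finset.finite_toSet _)
    rw [Finset.mem_coe, Finset.mem_bipartiteAbove, Set.Finite.mem_toFinset, add_sub_cancel_left]
    exact ⟨hVE a (hT (hT'.mem_toFinset.1 ha)) e he, he⟩
  · rcases (Finset.bipartiteBelow (fun t v : G => v - t ∈ E) hT'.toFinset v).eq_empty_or_nonempty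
      with h0 | ⟨a, ha⟩
    · rw [h0, Finset.card_empty, Nat.cast_zero]
      positivity
    rw [Finset.mem_bipartiteBelow, Set.Finite.mem_toFinset] at ha
    refine le_trans ?_ (h a ha.1)
    rw [← Set.ncard_coe_finset, Nat.cast_le]
    refine Set.ncard_le_ncard_of_injOn (fun t => t - a) (fun t ht => ?_)
      (sub_left_injective).injOn (hE.subset fun e he => he.1)
    rw [Finset.mem_coe, Finset.mem_bipartiteBelow, Set.Finite.mem_toFinset] at ht
    refine ⟨?_, by rw [add_sub_cancel]; exact ht.1⟩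
    have := E.sub_mem ha.2 ht.2
    rwa [sub_sub_sub_cancel_left] at this

theorem SMain_fiber {α β : Type} {S : Set (α × β)} (hS : S.Finite) (M : Finset β)
    (hM : ∀ d ∈ S, d.2 ∈ M) : S.ncard ≤ ∑ b ∈ M, {a | (a, b) ∈ S}.ncard := by
  classical
  rw [Set.ncard_eq_toFinset_card S hS, Finset.card_eq_sum_card_fiberwise (f := Prod.snd) (t := M)
    fun d hd => hM d (hS.mem_toFinset.1 hd)]
  refine Finset.sum_le_sum fun b _ => ?_
  rw [← Set.ncard_coe_finset]
  refine Set.ncard_le_ncard_of_injOn Prod.fst (fun d hd => ?_) (fun d hd d' hd' e => ?_)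
    (hS.preimage (f := fun a => (a, b)) (Prod.mk_left_injective b).injOn)
  · obtain ⟨h1, rfl⟩ := Finset.mem_filter.1 (Finset.mem_coe.1 hd)
    exact hS.mem_toFinset.1 h1
  · exact Prod.ext e ((Finset.mem_filter.1 (Finset.mem_coe.1 hd)).2.trans
      (Finset.mem_filter.1 (Finset.mem_coe.1 hd')).2.symm)

theorem SMain_split {b P a : k[X]} (hb : b.Monic) (hP : P.Monic) (hc : IsCoprime P b)
    (ha : a.degree < (b * P).degree) :
    ∃ a' a'' : k[X], a'.degree < b.degree ∧ a''.degree < P.degree ∧ a = a' * P + a'' * b := by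
  obtain ⟨u, w, e⟩ := hc
  have e1 := modByMonic_add_div (a * u) b
  have d1 := degree_modByMonic_lt (a * u) hb
  have e2 : b * (a * w + (a * u) /ₘ b * P) = a - (a * u) %ₘ b * P := by
    linear_combination a * e + P * e1
  refine ⟨(a * u) %ₘ b, a * w + (a * u) /ₘ b * P, d1, ?_, by linear_combination -e2⟩
  rw [← WithBot.add_lt_add_iff_left (degree_ne_bot.2 hb.ne_zero), ← degree_mul, ← degree_mul, e2]
  refine (degree_sub_le _ _).trans_lt (max_lt ha ?_)
  rw [degree_mul, degree_mul]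
  exact WithBot.add_lt_add_right (degree_ne_bot.2 hP.ne_zero) d1

/-- The pairs with a bad large prime are few. -/
theorem SMain_bad (Bad : k[X] → k[X] → Set k[X]) (B L N L' : ℕ)
    (hB : ∀ b a, (Bad b a).Finite ∧ (Bad b a).ncard ≤ B * (b.natDegree + L' + 1)) :
    ∃ S : Finset (k[X] × k[X]),
      S.card ≤ N * (Fintype.card k ^ (N - L) * Fintype.card k ^ N * (B * (N + L' + 1))) ∧
      ∀ b P a' a'' : k[X], b.Monic → P.Monic → L < P.natDegree → (b * P).natDegree = N →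
        a'.degree < b.degree → a''.degree < P.degree → P ∈ Bad b a' →
        (a' * P + a'' * b, b * P) ∈ S := by
  classical
  have q0 : 0 < Fintype.card k := Fintype.card_pos
  refine ⟨(Finset.Ioc L N).biUnion fun n => (fin_mon (k := k) (N - n)).toFinset.biUnion fun b =>
    (fin_lt (k := k) (N - n)).toFinset.biUnion fun a' => (hB b a').1.toFinset.biUnion fun P =>
      (fin_lt (k := k) n).toFinset.image fun a'' => (a' * P + a'' * b, b * P), ?_, ?_⟩
  · refine (Finset.card_biUnion_le_card_mul _ _ _ fun n hn => ?_).trans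
      (Nat.mul_le_mul_right _ (by simp))
    obtain ⟨n1, n2⟩ := Finset.mem_Ioc.1 hn
    refine (Finset.card_biUnion_le_card_mul _ _
      (Fintype.card k ^ (N - n) * (B * (N + L' + 1) * Fintype.card k ^ n)) fun b hb => ?_).trans ?_
    · refine (Finset.card_biUnion_le_card_mul _ _ (B * (N + L' + 1) * Fintype.card k ^ n)
        fun a' _ => ?_).trans_eq (by rw [SMain_card, ncard_lt])
      refine (Finset.card_biUnion_le_card_mul _ _ (Fintype.card k ^ n) fun P _ => ?_).trans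
        (Nat.mul_le_mul_right _ ?_)
      · exact Finset.card_image_le.trans_eq (by rw [SMain_card, ncard_lt])
      · rw [SMain_card]
        refine (hB b a').2.trans (Nat.mul_le_mul_left _ ?_)
        have := ((fin_mon (k := k) (N - n)).mem_toFinset.1 hb).2
        omega
    · rw [SMain_card, ncard_mon]
      have e : Fintype.card k ^ N = Fintype.card k ^ (N - n) * Fintype.card k ^ n := by
        rw [← pow_add, Nat.sub_add_cancel n2]
      rw [e]
      refine (Nat.mul_le_mul_right _ (Nat.pow_le_pow_right q0 (by omega : N - n ≤ N - L))).trans_eq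
        (by ring)
  · intro b P a' a'' hb hP h1 h2 h3 h4 h5
    rw [hb.natDegree_mul hP] at h2
    simp only [Finset.mem_biUnion, Finset.mem_image, Set.Finite.mem_toFinset, Finset.mem_Ioc,
      Set.mem_ofPred_eq]
    refine ⟨P.natDegree, ⟨h1, by omega⟩, b, ⟨hb, by omega⟩, a', ?_, P, h5, a'', ?_, rfl⟩
    · rwa [show N - P.natDegree = b.natDegree by omega, ← degree_eq_natDegree hb.ne_zero]
    · rwa [← degree_eq_natDegree hP.ne_zero]

/-- The count for given `m` and `N`. -/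
theorem SMain_count {A : k[X] → Prop} {Δ : k[X]} {Grow : k[X] → k[X] → Prop} {ε : ℝ} (hε : 0 ≤ ε)
    {K a C m L : ℕ} (hm : 1 ≤ m) (H : Cos A Δ Grow ε K a C m L) (N : ℕ) :
    ({d | d ∈ Fam Δ N ∧ Grow d.1 d.2}.ncard : ℝ) ≤
      (N * (Fintype.card k ^ (N - m ^ (3 * a)) * Fintype.card k ^ N *
        (Fintype.card k ^ (C * m ^ (2 * a)) * (N + L + 1))) : ℕ) +
      ((Fintype.card k : ℝ) ^ N * (ε * (Fintype.card k : ℝ) ^ N) +
        {b : k[X] | b.Monic ∧ b.natDegree = N ∧ ¬ Str A K a m b}.ncard *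
          (Fintype.card k : ℝ) ^ N) := by
  classical
  have hC : ∀ b' : k[X], ∃ Bad : k[X] → Set k[X], (∀ a', (Bad a').Finite ∧
      (Bad a').ncard ≤ Fintype.card k ^ (C * m ^ (2 * a)) * (b'.natDegree + L + 1)) ∧
      ((b'.Monic ∧ Squarefree b' ∧ IsCoprime b' Δ ∧ om b' ≤ m ∧ ∃ v : Fin K → k[X],
        Function.Injective v ∧ ∀ i, Prm (v i) ∧ v i ∣ b' ∧ A (v i) ∧
          m ^ a < (v i).natDegree ∧ (v i).natDegree ≤ m ^ (2 * a)) →
      ∀ P, Prm P → ¬ P ∣ b' → IsCoprime P Δ → A P →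
        ∃ E : AddSubgroup k[X], (∀ e ∈ E, e.degree < (b' * P).degree) ∧
          ∀ a' a'' : k[X], a'.degree < b'.degree → a''.degree < P.degree →
            IsCoprime (a' * P + a'' * b') (b' * P) → P ∉ Bad a' →
            ({e | e ∈ E ∧ IsCoprime (a' * P + a'' * b' + e) (b' * P) ∧
              Grow (a' * P + a'' * b' + e) (b' * P)}.ncard : ℝ) ≤ ε * Nat.card E) := fun b' => by
    by_cases h : b'.Monic ∧ Squarefree b' ∧ IsCoprime b' Δ ∧ om b' ≤ m ∧ ∃ v : Fin K → k[X],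
        Function.Injective v ∧ ∀ i, Prm (v i) ∧ v i ∣ b' ∧ A (v i) ∧
          m ^ a < (v i).natDegree ∧ (v i).natDegree ≤ m ^ (2 * a)
    · obtain ⟨h1, h2, h3, h4, v, h5, h6⟩ := h
      obtain ⟨Bad, k1, k2⟩ := H b' v h1 h2 h3 h4 h5 h6
      exact ⟨Bad, k1, fun _ => k2⟩
    · exact ⟨fun _ => ∅, fun _ => ⟨Set.finite_empty, by simp⟩, fun h' => absurd h' h⟩
  choose Bad hB hE using hC
  obtain ⟨S, hS, hS'⟩ := SMain_bad Bad _ (m ^ (3 * a)) N L hB
  set G := {d | d ∈ Fam Δ N ∧ Grow d.1 d.2} with hG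
  have fG : G.Finite := (fin_fam Δ N).subset fun d hd => hd.1
  have s1 : G.ncard ≤ S.card + (G \ S).ncard := by
    rw [← Set.ncard_inter_add_ncard_sdiff_eq_ncard G S fG, ← Set.ncard_coe_finset]
    exact Nat.add_le_add_right (Set.ncard_le_ncard Set.inter_subset_right S.finite_toSet) _
  have s2 := SMain_fiber (fG.subset Set.sdiff_subset : (G \ S).Finite) (fin_mon (k := k) N).toFinset
    fun d hd => (fin_mon N).mem_toFinset.2 ⟨hd.1.1.1, hd.1.1.2.2.1⟩
  have sub : ∀ b, {x | (x, b) ∈ G \ S} ⊆ {x : k[X] | x.degree < N} := fun b x hx =>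
    hx.1.1.2.2.2.2.2
  have s3 : ∀ b, ({x | (x, b) ∈ G \ S}.ncard : ℝ) ≤ ε * (Fintype.card k : ℝ) ^ N +
      if Str A K a m b then 0 else (Fintype.card k : ℝ) ^ N := fun b => by
    split_ifs with h
    swap
    · refine le_add_of_nonneg_of_le (by positivity) ?_
      exact_mod_cast (Set.ncard_le_ncard (sub b) (fin_lt N)).trans_eq (ncard_lt N)
    rcases Set.eq_empty_or_nonempty {x | (x, b) ∈ G \ S} with h0 | ⟨x, hx⟩
    · rw [h0, Set.ncard_empty, Nat.cast_zero]
      positivity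
    obtain ⟨b1, b2, b3, b4, -, -⟩ := hx.1.1
    obtain ⟨h1, ⟨v, h2, h3⟩, P, h4, ⟨b', rfl⟩, h5, h6⟩ := h
    dsimp only at b1 b2 b3 b4
    have c1 : b'.Monic := h4.1.of_mul_monic_left b1
    have c2 : ¬ P ∣ b' := fun c => h4.2.not_isUnit (b2 P (mul_dvd_mul_left P c))
    have c0 : om b' ≤ om (P * b') := by
      refine Set.ncard_le_ncard (fun Q hQ => ?_) (fin_prm b1.ne_zero)
      exact ⟨hQ.1, hQ.2.mul_left P⟩
    have dN : (b' * P).degree = N := by rw [mul_comm, degree_eq_natDegree b1.ne_zero, b3]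
    obtain ⟨E, e1, e2⟩ := hE b' ⟨c1, b2.of_mul_right, b4.of_mul_left_right,
      c0.trans h1,
      v, h2, fun i => ⟨(h3 i).1, ((h3 i).1.2.prime.dvd_or_dvd (h3 i).2.1).resolve_left fun c => by
        have c3 := natDegree_eq_of_degree_eq (degree_eq_degree_of_associated
          ((h3 i).1.2.associated_of_dvd h4.2 c))
        have c4 : m ^ (2 * a) ≤ m ^ (3 * a) := Nat.pow_le_pow_right hm (by omega)
        have := (h3 i).2.2.2.2
        omega, (h3 i).2.2⟩⟩ P h4 c2 b4.of_mul_left_left h5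
    rw [dN] at e1
    have fE : (E : Set k[X]).Finite := (fin_lt N).subset e1
    have := SMain_coset (fin_lt N) E fE
      (fun y hy e he => (degree_add_le _ _).trans_lt (max_lt hy (e1 e he))) (sub (P * b')) hε
      fun y hy => ?_
    · rw [ncard_lt, Nat.cast_pow] at this
      rwa [add_zero]
    obtain ⟨a', a'', d1, d2, rfl⟩ := SMain_split c1 h4.1 (h4.2.coprime_iff_not_dvd.2 c2)
      (dN ▸ sub _ hy : y.degree < (b' * P).degree)
    rw [mul_comm P b'] at hy b3 ⊢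
    refine le_trans ?_ (e2 a' a'' d1 d2 hy.1.1.2.2.2.2.1
      fun c => hy.2 (hS' b' P a' a'' c1 h4.1 h6 b3 d1 d2 c))
    rw [Nat.cast_le]
    refine Set.ncard_le_ncard (fun e he => ?_) (fE.subset fun e he => he.1)
    exact ⟨he.1, he.2.1.1.2.2.2.2.1, he.2.1.2⟩
  have s4 : ((G \ S).ncard : ℝ) ≤ ∑ b ∈ (fin_mon (k := k) N).toFinset,
      (ε * (Fintype.card k : ℝ) ^ N + if Str A K a m b then 0 else (Fintype.card k : ℝ) ^ N) :=
    le_trans (by exact_mod_cast s2) (Finset.sum_le_sum fun b _ => s3 b)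
  rw [Finset.sum_add_distrib, Finset.sum_const, Finset.sum_ite, Finset.sum_const_zero, zero_add,
    Finset.sum_const, SMain_card, ncard_mon, nsmul_eq_mul, nsmul_eq_mul,
    Nat.cast_pow, ← Set.ncard_coe_finset] at s4
  have e : (((fin_mon (k := k) N).toFinset.filter fun b => ¬ Str A K a m b : Finset k[X]) :
      Set k[X]) = {b : k[X] | b.Monic ∧ b.natDegree = N ∧ ¬ Str A K a m b} := by
    ext b
    simp only [Finset.coe_filter, Set.Finite.mem_toFinset, Set.mem_ofPred_eq, and_assoc]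
  rw [e] at s4
  refine le_trans (by exact_mod_cast s1.trans (Nat.add_le_add_right hS _)) (add_le_add le_rfl s4)

theorem SMain_small {q : ℕ} (hq : 2 ≤ q) (C a : ℕ) (ha : 1 ≤ a) {ε : ℝ} (hε : 0 < ε) :
    ∃ m0 : ℕ, ∀ m ≥ m0, ∀ N L, L ≤ N ^ 2 → m ^ (4 * a) ≤ N → N < (m + 1) ^ (4 * a) →
      ((N * (q ^ (N - m ^ (3 * a)) * q ^ N * (q ^ (C * m ^ (2 * a)) * (N + L + 1))) : ℕ) : ℝ) ≤
        ε * (q : ℝ) ^ N * (q : ℝ) ^ N := by
  have q1 : (1 : ℝ) < q := by exact_mod_cast hq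
  have t := ((tendsto_pow_const_div_const_pow_of_one_lt (12 * a) q1).comp
    (tendsto_add_atTop_nat 1)).eventually (gt_mem_nhds (show 0 < ε / q by positivity))
  obtain ⟨m0, h0⟩ := eventually_atTop.1 t
  refine ⟨max m0 (C + 1), fun m hm N L hL h1 h2 => ?_⟩
  have m1 : C + 1 ≤ m := le_of_max_le_right hm
  have a1 := h0 m (le_of_max_le_left hm)
  simp only [Function.comp] at a1
  rw [div_lt_div_iff₀ (by positivity) (by positivity), pow_succ, ← mul_assoc] at a1
  have a2 : (((m + 1) ^ (12 * a) : ℕ) : ℝ) ≤ ε * q ^ m := by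
    rw [Nat.cast_pow]
    exact (lt_of_mul_lt_mul_right a1 (by positivity)).le
  have a3 : N * (N + L + 1) ≤ (m + 1) ^ (12 * a) := by
    rw [show 12 * a = 4 * a * 3 by ring, pow_mul]
    refine le_trans ?_ (Nat.pow_le_pow_left h2 3)
    rw [Nat.succ_eq_add_one]
    linarith only [hL, Nat.mul_le_mul_left N hL, sq_nonneg ↑N]
  have a4 : C * m ^ (2 * a) + m ≤ m ^ (3 * a) := by
    have b1 : m ≤ m ^ (2 * a) := Nat.le_self_pow (by omega) m
    have b2 : C + 1 ≤ m ^ a := m1.trans (Nat.le_self_pow (by omega) m)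
    calc _ ≤ (C + 1) * m ^ (2 * a) := by rw [add_mul, one_mul]; omega
      _ ≤ m ^ a * m ^ (2 * a) := Nat.mul_le_mul_right _ b2
      _ = _ := by rw [← pow_add]; ring_nf
  have a5 : m ^ (3 * a) ≤ N := (Nat.pow_le_pow_right (by omega) (by omega)).trans h1
  have a6 : (q : ℝ) ^ m * (q ^ (N - m ^ (3 * a)) * q ^ (C * m ^ (2 * a))) ≤ q ^ N := by
    rw [← pow_add, ← pow_add]
    exact pow_le_pow_right₀ q1.le (by omega)
  have a7 : ((N * (N + L + 1) : ℕ) : ℝ) ≤ ε * q ^ m := le_trans (by exact_mod_cast a3) a2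
  calc _ = ((N * (N + L + 1) : ℕ) : ℝ) * (q ^ (N - m ^ (3 * a)) * q ^ (C * m ^ (2 * a))) * q ^ N := by
        push_cast; ring
    _ ≤ ε * q ^ m * (q ^ (N - m ^ (3 * a)) * q ^ (C * m ^ (2 * a))) * q ^ N := by gcongr
    _ ≤ _ := by rw [mul_assoc ε]; gcongr

theorem stat_unif {A : k[X] → Prop} (hA : Dns A) (K a C m0 : ℕ) (ha : 1 ≤ a) {ε : ℝ} (hε : 0 < ε) :
    ∃ N0 : ℕ, ∀ N ≥ N0, ∀ (Δ : k[X]) (Grow : k[X] → k[X] → Prop) (L : ℕ), L ≤ N ^ 2 →
      (∀ m ≥ m0, N < (m + 1) ^ (4 * a) → Cos A Δ Grow ε K a C m L) →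
      ({d | d ∈ Fam Δ N ∧ Grow d.1 d.2}.ncard : ℝ) ≤ 3 * ε * (Fintype.card k : ℝ) ^ (2 * N) := by
  have q0 : (0 : ℝ) < Fintype.card k := by exact_mod_cast Fintype.card_pos
  obtain ⟨m1, h1⟩ := str_most hA K a ha hε
  obtain ⟨m2, h3⟩ := SMain_small (Fintype.one_lt_card (α := k)) C a ha hε
  refine ⟨(m0 + m1 + m2 + 1) ^ (4 * a), fun N hN Δ Grow L hL h0 => ?_⟩
  have n1 : Nat.nthRoot (4 * a) N ^ (4 * a) ≤ N := Nat.pow_nthRoot_le (Or.inl (by omega))
  have n2 := Nat.lt_pow_nthRoot_add_one (show 4 * a ≠ 0 by omega) N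
  generalize Nat.nthRoot (4 * a) N = m at n1 n2
  have n3 := lt_of_pow_lt_pow_left₀ _ (Nat.zero_le _) (hN.trans_lt n2)
  refine (SMain_count hε.le (by omega) (h0 m (by omega) n2) N).trans ?_
  have a1 := mul_le_mul_of_nonneg_right (h1 m (by omega) N n1 n2) (pow_pos q0 N).le
  have a2 := h3 m (by omega) N L hL n1 n2
  rw [two_mul N, pow_add _ N N]
  linarith only [a1, a2]

end Pool.Agent.ASW
end

-- merged part: Pool.Agent.Work.MP_60d5ce_nt.AS.SNs
section
/-!
# Many primes modulo which `A` is not a square  (AS, section 5)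

Plan.  `d0 = deg P0`, `d0 ∣ n`, `E` a field with `q ^ n` elements over `k` (`FiniteField.Extension`, or a splitting field of
`X ^ q ^ n - X`).  If `deg A` is odd apply `Pool.Agent.Lib.Dwork.curve_count` (`m = 2`) to `A` mapped to `E`.  If it is even take a root `α` of `P0` in `E`
(`natDegree_dvd_iff_dvd_X_pow_card_pow_sub_X`); `P0` is separable, so `α` has odd multiplicity `μ` in `A`, and
`f = reverse (taylor α A)` (that is `u ^ deg A * A (α + 1 / u)`, up to the even power conventions) has odd degree `deg A - μ ≤ deg A`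
(take the maximum of the bounds `Q` over all odd degrees `≤ deg A`).  So at least `q ^ n / 3` elements `x` have `A x` a non square
(at most two points above each `x`, none above a non square... count: points `≤ (1 + ε) Q`, each `x` with `f x` a nonzero square has two).
Remove the at most `2 q ^ (n / 2)` elements whose minimal polynomial has degree `< n` (it divides `n`; `prm_upper`); each `P` has at most `n` roots;
`P ∣ y ^ 2 - A` gives `A x = (y x) ^ 2`.
-/

set_option linter.unusedSectionVars false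

namespace Pool.Agent.ASW

open Polynomial

variable {k : Type} [Field k] [Fintype k]

theorem SNs_one (n : ℕ) : ∃ Q : ℕ, ∀ (E : Type) [Field E] [Fintype E], (2 : E) ≠ 0 →
    Q ≤ Fintype.card E → ∀ f : E[X], f ≠ 0 → f.natDegree = n → Odd n →
      2 * Fintype.card E + 5 ≤ 5 * {x | ¬ IsSquare (f.eval x)}.ncard := by
  classical
  by_cases hn : Odd n
  swap
  · exact ⟨0, fun _ _ _ _ _ _ _ _ h => absurd h hn⟩
  obtain ⟨Q, hQ⟩ := Pool.Agent.Lib.Dwork.curve_count 2 n (Nat.coprime_two_right.2 hn)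
    (ε := 1 / 10) (by norm_num)
  refine ⟨2 * Q + 20 * (n + 1), fun E _ _ h2 hE f hf hd _ => ?_⟩
  have ho := FiniteField.odd_card_of_char_ne_two (F := E) fun h => h2 (by
    have := ringChar.Nat.cast_ringChar (R := E)
    rw [h] at this
    exact_mod_cast this)
  have h1 := (abs_le.1 (hQ E (Fintype.card E / 2) (by omega) (by omega) f hf hd)).2
  have h3 : 2 * {x | f.eval x ≠ 0 ∧ IsSquare (f.eval x)}.ncard ≤
      Nat.card {v : E × E // v.2 ^ 2 = f.eval v.1} := by
    rw [Nat.card_eq_fintype_card, Fintype.card_subtype, Set.ncard_eq_toFinset_card']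
    refine (Finset.mul_card_image_le_card_of_maps_to (f := Prod.fst)
      (s := Finset.univ.filter fun v : E × E => v.2 ^ 2 = f.eval v.1 ∧ f.eval v.1 ≠ 0) ?_ 2 ?_).trans
      (Finset.card_le_card fun v hv => ?_)
    · intro v hv
      obtain ⟨a, b⟩ := (Finset.mem_filter.1 hv).2
      exact Set.mem_toFinset.2 ⟨b, v.2, by rw [← a, sq]⟩
    · intro x hx
      obtain ⟨a, r, hr⟩ := Set.mem_toFinset.1 hx
      refine Finset.one_lt_card.2 ⟨(x, r), by simp [a, ← hr, sq], (x, -r), by simp [a, ← hr, sq],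
        fun e => a ?_⟩
      have : 2 * r = 0 := by linear_combination (Prod.ext_iff.1 e).2
      rw [hr, (mul_eq_zero.1 this).resolve_left h2, mul_zero]
    · exact Finset.mem_filter.2 ⟨Finset.mem_univ _, (Finset.mem_filter.1 hv).2.1⟩
  have h4 : {x | f.eval x = 0}.ncard ≤ n := by
    rw [Set.ncard_eq_toFinset_card', ← hd]
    refine (Finset.card_le_card (t := f.roots.toFinset) fun x hx => ?_).trans
      ((Multiset.toFinset_card_le _).trans (card_roots' f))
    exact Multiset.mem_toFinset.2 ((mem_roots hf).2 (by simpa using hx))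
  have h5 : Fintype.card E ≤ {x | ¬ IsSquare (f.eval x)}.ncard +
      ({x | f.eval x ≠ 0 ∧ IsSquare (f.eval x)}.ncard + {x | f.eval x = 0}.ncard) := by
    rw [← Nat.card_eq_fintype_card, ← Set.ncard_univ]
    refine le_trans (Set.ncard_le_ncard fun x _ => ?_) ((Set.ncard_union_le _ _).trans
      (Nat.add_le_add_left (Set.ncard_union_le _ _) _))
    simp only [Set.mem_union, Set.mem_ofPred_eq]
    tauto
  have h6 : 10 * Nat.card {v : E × E // v.2 ^ 2 = f.eval v.1} ≤ 11 * Fintype.card E := by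
    have : (10 : ℝ) * Nat.card {v : E × E // v.2 ^ 2 = f.eval v.1} ≤ 11 * Fintype.card E := by
      linarith only [h1]
    exact_mod_cast this
  omega

theorem SNs_red {E : Type} [Field E] [Fintype E] {A : E[X]} (hA : A ≠ 0) {α : E}
    (h : Odd (A.rootMultiplicity α)) : ∃ f : E[X], f ≠ 0 ∧ Odd f.natDegree ∧
      f.natDegree ≤ A.natDegree ∧
      {u | ¬ IsSquare (f.eval u)}.ncard ≤ {x | ¬ IsSquare (A.eval x)}.ncard + 1 := by
  rcases Nat.even_or_odd A.natDegree with ⟨e, he⟩ | ho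
  swap
  · exact ⟨A, hA, ho, le_rfl, Nat.le_succ _⟩
  have hB : (A.comp (X + C α)).natDegree = e + e := by
    rw [natDegree_comp, natDegree_X_add_C, mul_one, he]
  have hl := natTrailingDegree_le_natDegree (A.comp (X + C α))
  rw [rootMultiplicity_eq_natTrailingDegree] at h
  refine ⟨(A.comp (X + C α)).reverse, ?_, ?_, ?_, ?_⟩
  · rwa [Ne, reverse_eq_zero, comp_X_add_C_eq_zero_iff]
  · obtain ⟨c, hc⟩ := h
    exact ⟨e - c - 1, by rw [reverse_natDegree]; omega⟩
  · exact (reverse_natDegree_le _).trans (hB.trans he.symm).le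
  refine le_trans (Set.ncard_le_ncard_of_injOn (fun u => u⁻¹ + α) (fun u hu => ?_)
    fun u _ v _ e => inv_injective (add_right_cancel e)) (Set.ncard_insert_le α _)
  rcases eq_or_ne u 0 with rfl | h0
  · exact Or.inl (by simp)
  refine Or.inr fun ⟨s, hs⟩ => hu ⟨s * u ^ e, ?_⟩
  let _ : Invertible u⁻¹ := invertibleOfNonzero (inv_ne_zero h0)
  have h1 := eval₂_reverse_mul_pow (RingHom.id E) u⁻¹ (A.comp (X + C α))
  rw [invOf_eq_inv, inv_inv, eval₂_id, eval₂_id, eval_comp, eval_add, eval_X, eval_C, hs, hB,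
    inv_pow, mul_inv_eq_iff_eq_mul₀ (pow_ne_zero _ h0)] at h1
  rw [h1]
  ring

theorem SNs_mult {E : Type} [Field E] [Fintype E] [Algebra k E] {A P0 : k[X]} (hA : A ≠ 0)
    (hP : Irreducible P0) (hm : Odd (multiplicity P0 A)) (hd : P0.natDegree ∣ Module.finrank k E) :
    ∃ α : E, Odd ((A.map (algebraMap k E)).rootMultiplicity α) := by
  have := Fact.mk hP
  obtain ⟨φ⟩ := FiniteField.nonempty_algHom_of_finrank_dvd (F := k) (K := AdjoinRoot P0) (L := E)
    (by rwa [(AdjoinRoot.powerBasis hP.ne_zero).finrank, AdjoinRoot.powerBasis_dim])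
  obtain ⟨α, hα⟩ : ∃ α : E, aeval α P0 = 0 := ⟨φ (AdjoinRoot.root P0), by
    rw [aeval_algHom_apply, AdjoinRoot.aeval_eq, AdjoinRoot.mk_self, map_zero]⟩
  obtain ⟨R, hR, hn⟩ := (FiniteMultiplicity.of_prime_left hP.prime hA).exists_eq_pow_mul_and_not_dvd
  obtain ⟨G, hG⟩ : X - C α ∣ P0.map (algebraMap k E) :=
    dvd_iff_isRoot.2 (by rwa [IsRoot, eval_map_algebraMap])
  have h1 : G.eval α ≠ 0 := fun e => by
    have := ((PerfectField.separable_of_irreducible hP).map (f := algebraMap k E)).squarefree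
      (X - C α) (hG ▸ mul_dvd_mul_left _ (dvd_iff_isRoot.2 e))
    exact not_isUnit_X_sub_C α this
  have h2 : aeval α R ≠ 0 := fun e => by
    obtain ⟨a, b, c⟩ := hP.coprime_iff_not_dvd.2 hn
    have := congrArg (aeval α) c
    simp [hα, e] at this
  have h3 : ¬ (G ^ multiplicity P0 A * R.map (algebraMap k E)).IsRoot α := by
    rw [IsRoot, eval_mul, eval_pow, eval_map_algebraMap]
    exact mul_ne_zero (pow_ne_zero _ h1) h2
  have h4 : A.map (algebraMap k E) =
      G ^ multiplicity P0 A * R.map (algebraMap k E) * (X - C α) ^ multiplicity P0 A := by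
    conv_lhs => rw [hR, Polynomial.map_mul, Polynomial.map_pow, hG, mul_pow]
    ring
  refine ⟨α, ?_⟩
  rw [h4, rootMultiplicity_mul_X_sub_C_pow, rootMultiplicity_eq_zero h3, zero_add]
  exacts [hm, fun e => h3 (by rw [e]; exact eval_zero)]

theorem SNs_fib {E : Type} [Field E] [Fintype E] [Algebra k E] {T : Set k[X]} (hT : T.Finite)
    {d : ℕ} (hd : ∀ P ∈ T, P.natDegree = d) : {x : E | minpoly k x ∈ T}.ncard ≤ d * T.ncard := by
  classical
  rw [Set.ncard_eq_toFinset_card _ hT, Set.ncard_eq_toFinset_card']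
  refine Finset.card_le_mul_card_image_of_maps_to (f := minpoly k) (by simp) d fun P hP => ?_
  refine (Finset.card_le_card (t := (P.aroots E).toFinset) fun x hx => ?_).trans
    ((Multiset.toFinset_card_le _).trans ((card_roots' _).trans
      (natDegree_map_le.trans (hd P (hT.mem_toFinset.1 hP)).le)))
  rw [Multiset.mem_toFinset, mem_aroots, ← (Finset.mem_filter.1 hx).2]
  exact ⟨minpoly.ne_zero (Algebra.IsIntegral.isIntegral x), minpoly.aeval k x⟩

theorem SNs_low {E : Type} [Field E] [Fintype E] [Algebra k E] (m : ℕ) :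
    {x : E | (minpoly k x).natDegree < m}.ncard ≤ Fintype.card k ^ m := by
  have h1 : 1 < Fintype.card k := Fintype.one_lt_card
  induction m with
  | zero => simp
  | succ m ih =>
    have h2 : {x : E | (minpoly k x).natDegree < m + 1} ⊆ {x : E | (minpoly k x).natDegree < m} ∪
        {x : E | minpoly k x ∈ {P : k[X] | Prm P ∧ P.natDegree = m}} := fun x hx =>
      (Nat.lt_succ_iff_lt_or_eq.1 hx).imp id fun e =>
        ⟨⟨minpoly.monic (Algebra.IsIntegral.isIntegral x),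
          minpoly.irreducible (Algebra.IsIntegral.isIntegral x)⟩, e⟩
    refine (Set.ncard_le_ncard h2).trans ((Set.ncard_union_le _ _).trans ((add_le_add ih
      ((SNs_fib ((fin_mon m).subset fun P h => ⟨h.1.1, h.2⟩) fun P h => h.2).trans
        (prm_upper m))).trans ?_))
    rw [pow_succ, ← mul_two]
    exact Nat.mul_le_mul_left _ h1

theorem ns_lower (h2 : (2 : k) ≠ 0) {A P0 : k[X]} (hA : A ≠ 0) (hP : Irreducible P0)
    (hm : Odd (multiplicity P0 A)) : ∃ d0 n0 : ℕ, 0 < d0 ∧ ∀ n ≥ n0, d0 ∣ n →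
      Fintype.card k ^ n ≤ 4 * n * {P : k[X] | Prm P ∧ NS A P ∧ P.natDegree = n}.ncard := by
  classical
  choose Q hQ using SNs_one
  refine ⟨P0.natDegree, 10 + ∑ i ∈ Finset.range (A.natDegree + 1), Q i, hP.natDegree_pos,
    fun n hn hd => ?_⟩
  obtain ⟨p, hp⟩ := CharP.exists k
  have : Fact p.Prime := ⟨CharP.char_is_prime k p⟩
  have : NeZero n := ⟨by omega⟩
  obtain ⟨E, _, _, _, hr⟩ : ∃ (E : Type) (_ : Field E) (_ : Fintype E) (_ : Algebra k E),
      Module.finrank k E = n := ⟨FiniteField.Extension k p n, inferInstance, Fintype.ofFinite _,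
    inferInstance, FiniteField.finrank_extension k p n⟩
  have hE : Fintype.card E = Fintype.card k ^ n := by rw [Module.card_eq_pow_finrank (K := k), hr]
  have h1 : 1 < Fintype.card k := Fintype.one_lt_card
  obtain ⟨α, hα⟩ := SNs_mult (E := E) hA hP hm (hr ▸ hd)
  obtain ⟨f, f0, f1, f2, f3⟩ := SNs_red (Polynomial.map_ne_zero hA) hα
  rw [natDegree_map] at f2
  have h3 := hQ _ E (by rw [← map_ofNat (algebraMap k E)]; exact (_root_.map_ne_zero _).2 h2)
    ((Finset.single_le_sum (f := Q) (fun _ _ => Nat.zero_le _)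
      (Finset.mem_range.2 (Nat.lt_add_one_of_le f2))).trans
      (by rw [hE]; exact le_trans (by omega) (Nat.lt_pow_self h1).le)) f f0 rfl f1
  have h4 : {x : E | ¬ IsSquare ((A.map (algebraMap k E)).eval x)} ⊆
      {x : E | minpoly k x ∈ {P : k[X] | Prm P ∧ NS A P ∧ P.natDegree = n}} ∪
        {x : E | (minpoly k x).natDegree < n / 2 + 1} := by
    intro x hx
    have hi : IsIntegral k x := Algebra.IsIntegral.isIntegral x
    by_cases e : (minpoly k x).natDegree = n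
    · refine Or.inl ⟨⟨minpoly.monic hi, minpoly.irreducible hi⟩, fun ⟨y, hy⟩ => hx ⟨aeval x y, ?_⟩, e⟩
      have := (minpoly.dvd_iff).1 hy
      rw [map_sub, map_pow, sub_eq_zero] at this
      rw [eval_map_algebraMap, ← this, sq]
    · obtain ⟨c, hc⟩ := minpoly.degree_dvd hi
      refine Or.inr (Nat.lt_succ_of_le ((Nat.le_div_iff_mul_le two_pos).2 ?_))
      rw [hr] at hc
      have : 2 ≤ c := by
        rcases c with _ | _ | c <;> omega
      exact hc ▸ Nat.mul_le_mul_left _ this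
  have h5 := (Set.ncard_le_ncard h4).trans ((Set.ncard_union_le _ _).trans (add_le_add
    (SNs_fib ((fin_mon n).subset fun P h => ⟨h.1.1, h.2.2⟩) fun P h => h.2.2)
    (SNs_low (k := k) (E := E) (n / 2 + 1))))
  have h6 : Fintype.card k ^ (n / 2 + 1) * 16 ≤ Fintype.card k ^ n :=
    (Nat.mul_le_mul_left _ (Nat.pow_le_pow_left (show 2 ≤ _ from h1) 4)).trans
      (by rw [← pow_add]; exact Nat.pow_le_pow_right h1.le (by omega))
  rw [mul_assoc]
  omega

end Pool.Agent.ASW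
end

-- merged part: Pool.Agent.Work.MP_60d5ce_nt.AG.SNa
section
/-!
# Many primes are not anomalous

PLAN (compare `AS/SNs.lean`, reuse `SNs_fib`, `SNs_low` and the end of `ns_lower`).  `m = p - 1`.  It is enough to find `d0, r` such that
in the field `E` with `q ^ n` elements, `n = d0 j + r` large, at least `2 / 5` of the `x ∈ E` have `A(x)` not an `m`-th power.
Case 1: `m` divides the multiplicity of every prime in `A`, `A = c B ^ m`, `c ∈ k` not an `m`-th power, `ζ = c ^ ((q-1)/m) ≠ 1` has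
`ζ ^ m = 1`, `ζ ^ p = ζ`.  For `n = m j + 1`, `c ^ ((q ^ n - 1) / m) = ζ ^ (1 + q + … + q ^ (n-1)) = ζ ^ n = ζ ≠ 1`, so `c` is not an `m`-th power in
`E`: all `x` with `A(x) ≠ 0` work.  Case 2: there are a prime `l` and `s` with `l ^ (s+1) ∣ m`, `A = c B ^ l ^ s` and a prime `P0` whose
multiplicity in `B` is prime to `l` (take `l, s` with `l ^ (s+1) ∣ m` not dividing some multiplicity, `s` minimal for this `l`); `d0 = deg P0`,
`r = 0`.  If `A(x) = y ^ m ≠ 0` then `c` is an `l ^ s`-th power in `E`; if it is not we are done, otherwise fix `γ ^ l ^ s = c`; then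
`γ B(x) / z ^ l` is an `l ^ s`-th root of unity (`z = y ^ (m / l ^ (s+1))`), so an `l`-th power (`l ^ (s+1) ∣ card E - 1`, the unit group
is cyclic), so `γ B(x)` is an `l`-th power.  `curve_count l` for `γ B` if `l ∤ deg B`, otherwise for the reverse of `γ B(X + α)`, `α` a
root of `P0` (`SNs_red`, `SNs_mult` with `l` for `2`): every nonzero `l`-th power has `l ≥ 2` roots.
-/

namespace Pool.Agent.ASel

open Polynomial

open ASW

set_option linter.unusedSectionVars false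

section aux

variable {k E : Type} [Field k] [Fintype k] [Field E] [Fintype E]

theorem SNa_root {l d : ℕ} (hE : Fintype.card E = l * d + 1) {a : E} (h0 : a ≠ 0)
    (ha : a ^ d = 1) : ∃ b, b ^ l = a := by
  classical
  have h := Pool.Agent.Lib.Dwork.card_pow_eq hE h0
  have hl : l ≠ 0 := fun e => Fintype.one_lt_card.ne' (by rw [hE, e, zero_mul])
  rw [if_pos ha] at h
  obtain ⟨b, hb⟩ := (Nat.card_pos_iff.1 (h ▸ Nat.pos_of_ne_zero hl)).1
  exact ⟨b, hb⟩

theorem SNa_zero {f : E[X]} (hf : f ≠ 0) : {x | f.eval x = 0}.ncard ≤ f.natDegree := by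
  classical
  rw [Set.ncard_eq_toFinset_card']
  refine (Finset.card_le_card (t := f.roots.toFinset) fun x hx => ?_).trans
    ((Multiset.toFinset_card_le _).trans (card_roots' f))
  exact Multiset.mem_toFinset.2 ((mem_roots hf).2 (by simpa using hx))

theorem SNa_one {l : ℕ} (hl : l.Prime) (n : ℕ) : ∃ Q : ℕ, ∀ (E : Type) [Field E] [Fintype E]
    (d : ℕ), Fintype.card E = l * d + 1 → Q ≤ Fintype.card E → ∀ f : E[X], f ≠ 0 →
      f.natDegree = n → ¬ l ∣ n →
      2 * Fintype.card E + 5 ≤ 5 * {x | ¬ ∃ y, y ^ l = f.eval x}.ncard := by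
  classical
  by_cases hn : l ∣ n
  · exact ⟨0, fun _ _ _ _ _ _ _ _ _ h => absurd hn h⟩
  obtain ⟨Q, hQ⟩ := Pool.Agent.Lib.Dwork.curve_count l n (hl.coprime_iff_not_dvd.2 hn).symm
    (ε := 1 / 10) (by norm_num)
  refine ⟨l * Q + 1 + 20 * (n + 1), fun E _ _ d hd hE f hf hf' _ => ?_⟩
  have h1 := (abs_le.1 (hQ E d hd (Nat.le_of_mul_le_mul_left (by omega) hl.pos) f hf hf')).2
  have h3 : 2 * {x | f.eval x ≠ 0 ∧ ∃ y, y ^ l = f.eval x}.ncard ≤
      Nat.card {v : E × E // v.2 ^ l = f.eval v.1} := by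
    rw [Nat.card_eq_fintype_card, Fintype.card_subtype, Set.ncard_eq_toFinset_card']
    refine (Finset.mul_card_image_le_card_of_maps_to (f := Prod.fst)
      (s := Finset.univ.filter fun v : E × E => v.2 ^ l = f.eval v.1 ∧ f.eval v.1 ≠ 0) ?_ 2 ?_).trans
      (Finset.card_le_card fun v hv => ?_)
    · intro v hv
      obtain ⟨a, b⟩ := (Finset.mem_filter.1 hv).2
      exact Set.mem_toFinset.2 ⟨b, v.2, a⟩
    · intro x hx
      obtain ⟨a, r, hr⟩ := Set.mem_toFinset.1 hx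
      have h2 := Pool.Agent.Lib.Dwork.card_pow_eq hd a
      have h3 : 0 < Nat.card {z // z ^ l = f.eval x} := Nat.card_pos_iff.2 ⟨⟨⟨r, hr⟩⟩, inferInstance⟩
      have h4 : 1 < Nat.card {z // z ^ l = f.eval x} := by
        split_ifs at h2
        · exact hl.one_lt.trans_eq h2.symm
        · omega
      obtain ⟨⟨u, hu⟩, ⟨v, hv⟩, huv⟩ := Finite.one_lt_card_iff_nontrivial.1 h4
      exact Finset.one_lt_card.2 ⟨(x, u), by simp [a, hu], (x, v), by simp [a, hv],
        fun e => huv (Subtype.ext (Prod.ext_iff.1 e).2)⟩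
    · exact Finset.mem_filter.2 ⟨Finset.mem_univ _, (Finset.mem_filter.1 hv).2.1⟩
  have h4 := SNa_zero hf
  have h5 : Fintype.card E ≤ {x | ¬ ∃ y, y ^ l = f.eval x}.ncard +
      ({x | f.eval x ≠ 0 ∧ ∃ y, y ^ l = f.eval x}.ncard + {x | f.eval x = 0}.ncard) := by
    rw [← Nat.card_eq_fintype_card, ← Set.ncard_univ]
    refine le_trans (Set.ncard_le_ncard fun x _ => ?_) ((Set.ncard_union_le _ _).trans
      (Nat.add_le_add_left (Set.ncard_union_le _ _) _))
    simp only [Set.mem_union, Set.mem_ofPred_eq]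
    tauto
  have h6 : 10 * Nat.card {v : E × E // v.2 ^ l = f.eval v.1} ≤ 11 * Fintype.card E := by
    have : (10 : ℝ) * Nat.card {v : E × E // v.2 ^ l = f.eval v.1} ≤ 11 * Fintype.card E := by
      linarith only [h1]
    exact_mod_cast this
  omega

theorem SNa_red {l : ℕ} {A : E[X]} (hA : A ≠ 0) {α : E} (h : ¬ l ∣ A.rootMultiplicity α) :
    ∃ f : E[X], f ≠ 0 ∧ ¬ l ∣ f.natDegree ∧ f.natDegree ≤ A.natDegree ∧
      {u | ¬ ∃ y, y ^ l = f.eval u}.ncard ≤ {x | ¬ ∃ y, y ^ l = A.eval x}.ncard + 1 := by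
  by_cases he : l ∣ A.natDegree
  swap
  · exact ⟨A, hA, he, le_rfl, Nat.le_succ _⟩
  obtain ⟨e, he⟩ := he
  have hB : (A.comp (X + C α)).natDegree = l * e := by
    rw [natDegree_comp, natDegree_X_add_C, mul_one, he]
  have hl := natTrailingDegree_le_natDegree (A.comp (X + C α))
  rw [rootMultiplicity_eq_natTrailingDegree] at h
  refine ⟨(A.comp (X + C α)).reverse, ?_, fun h1 => h ?_, ?_, ?_⟩
  · rwa [Ne, reverse_eq_zero, comp_X_add_C_eq_zero_iff]
  · rw [reverse_natDegree] at h1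
    exact (Nat.dvd_sub_iff_right hl (hB ▸ Dvd.intro _ rfl)).1 h1
  · exact (reverse_natDegree_le _).trans (hB.trans he.symm).le
  refine le_trans (Set.ncard_le_ncard_of_injOn (fun u => u⁻¹ + α) (fun u hu => ?_)
    fun u _ v _ e => inv_injective (add_right_cancel e)) (Set.ncard_insert_le α _)
  rcases eq_or_ne u 0 with rfl | h0
  · exact Or.inl (by simp)
  refine Or.inr fun ⟨s, hs⟩ => hu ⟨s * u ^ e, ?_⟩
  let _ : Invertible u⁻¹ := invertibleOfNonzero (inv_ne_zero h0)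
  have h1 := eval₂_reverse_mul_pow (RingHom.id E) u⁻¹ (A.comp (X + C α))
  rw [invOf_eq_inv, inv_inv, eval₂_id, eval₂_id, eval_comp, eval_add, eval_X, eval_C, ← hs, hB,
    inv_pow, mul_inv_eq_iff_eq_mul₀ (pow_ne_zero _ h0)] at h1
  rw [h1, mul_pow, pow_mul']

theorem SNa_mult [Algebra k E] {A P0 : k[X]} (hA : A ≠ 0) (hP : Irreducible P0)
    (hd : P0.natDegree ∣ Module.finrank k E) :
    ∃ α : E, (A.map (algebraMap k E)).rootMultiplicity α = multiplicity P0 A := by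
  have := Fact.mk hP
  obtain ⟨φ⟩ := FiniteField.nonempty_algHom_of_finrank_dvd (F := k) (K := AdjoinRoot P0) (L := E)
    (by rwa [(AdjoinRoot.powerBasis hP.ne_zero).finrank, AdjoinRoot.powerBasis_dim])
  obtain ⟨α, hα⟩ : ∃ α : E, aeval α P0 = 0 := ⟨φ (AdjoinRoot.root P0), by
    rw [aeval_algHom_apply, AdjoinRoot.aeval_eq, AdjoinRoot.mk_self, map_zero]⟩
  obtain ⟨R, hR, hn⟩ := (FiniteMultiplicity.of_prime_left hP.prime hA).exists_eq_pow_mul_and_not_dvd
  obtain ⟨G, hG⟩ : X - C α ∣ P0.map (algebraMap k E) :=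
    dvd_iff_isRoot.2 (by rwa [IsRoot, eval_map_algebraMap])
  have h1 : G.eval α ≠ 0 := fun e => by
    have := ((PerfectField.separable_of_irreducible hP).map (f := algebraMap k E)).squarefree
      (X - C α) (hG ▸ mul_dvd_mul_left _ (dvd_iff_isRoot.2 e))
    exact not_isUnit_X_sub_C α this
  have h2 : aeval α R ≠ 0 := fun e => by
    obtain ⟨a, b, c⟩ := hP.coprime_iff_not_dvd.2 hn
    have := congrArg (aeval α) c
    simp [hα, e] at this
  have h3 : ¬ (G ^ multiplicity P0 A * R.map (algebraMap k E)).IsRoot α := by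
    rw [IsRoot, eval_mul, eval_pow, eval_map_algebraMap]
    exact mul_ne_zero (pow_ne_zero _ h1) h2
  have h4 : A.map (algebraMap k E) =
      G ^ multiplicity P0 A * R.map (algebraMap k E) * (X - C α) ^ multiplicity P0 A := by
    conv_lhs => rw [hR, Polynomial.map_mul, Polynomial.map_pow, hG, mul_pow]
    ring
  refine ⟨α, ?_⟩
  rw [h4, rootMultiplicity_mul_X_sub_C_pow, rootMultiplicity_eq_zero h3, zero_add]
  exact fun e => h3 (by rw [e]; exact eval_zero)

theorem SNa_good {g : ℕ} {A : k[X]} (hA : A ≠ 0)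
    (h : ∀ P, Irreducible P → g ∣ multiplicity P A) : ∃ c B, A = C c * B ^ g := by
  classical
  obtain ⟨u, hu⟩ := Multiset.exists_smul_of_dvd_count
    (UniqueFactorizationMonoid.normalizedFactors A) (k := g) fun a ha => by
      have hi := UniqueFactorizationMonoid.irreducible_of_normalized_factor a ha
      have := h a hi
      rwa [UniqueFactorizationMonoid.multiplicity_eq_count_normalizedFactors hi hA,
        UniqueFactorizationMonoid.normalize_normalized_factor a ha] at this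
  obtain ⟨v, hv⟩ := UniqueFactorizationMonoid.prod_normalizedFactors hA
  obtain ⟨c, -, hc⟩ := Polynomial.isUnit_iff.1 v.isUnit
  exact ⟨c, u.prod, by rw [← hv, hu, Multiset.prod_nsmul, hc, mul_comm]⟩

theorem SNa_all [Algebra k E] {m : ℕ} {A : k[X]} (hA : A ≠ 0)
    (h : ∀ x y : E, aeval x A ≠ 0 → y ^ m ≠ aeval x A) (hE : 2 * A.natDegree ≤ Fintype.card E) :
    2 * Fintype.card E ≤ 5 * {x : E | ¬ ∃ y, y ^ m = aeval x A}.ncard := by
  have h1 := SNa_zero (Polynomial.map_ne_zero (f := algebraMap k E) hA)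
  have h2 : Fintype.card E ≤ {x : E | ¬ ∃ y, y ^ m = aeval x A}.ncard +
      {x | (A.map (algebraMap k E)).eval x = 0}.ncard := by
    rw [← Nat.card_eq_fintype_card, ← Set.ncard_univ]
    refine le_trans (Set.ncard_le_ncard fun x _ => ?_) (Set.ncard_union_le _ _)
    by_cases hx : aeval x A = 0
    · exact Or.inr ((eval_map_algebraMap _ _).trans hx)
    · exact Or.inl fun ⟨y, hy⟩ => h x y hx hy
  rw [natDegree_map] at h1
  omega

theorem SNa_fin {p : ℕ} [Fact p.Prime] [CharP k p] {A : k[X]} {d0 r n0 : ℕ} (hd : 0 < d0)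
    (hr : r ≤ d0) (h : ∀ j ≥ n0, ∀ (E : Type) [Field E] [Fintype E] [Algebra k E],
      Module.finrank k E = d0 * j + r → j ≤ Fintype.card E →
        2 * Fintype.card E ≤ 5 * {x : E | ¬ ∃ y, y ^ (p - 1) = aeval x A}.ncard) :
    Dns fun P : k[X] => ¬ Anom p A P := by
  refine ⟨d0, r, n0 + 10, hd, hr, fun j hj => ?_⟩
  have h3 := h j (by omega)
  have hn : j ≤ d0 * j + r := (Nat.le_mul_of_pos_left j hd).trans (Nat.le_add_right _ _)
  generalize d0 * j + r = n at *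
  have : NeZero n := ⟨by omega⟩
  obtain ⟨E, _, _, _, hr⟩ : ∃ (E : Type) (_ : Field E) (_ : Fintype E) (_ : Algebra k E),
      Module.finrank k E = n := ⟨FiniteField.Extension k p n, inferInstance, Fintype.ofFinite _,
    inferInstance, FiniteField.finrank_extension k p n⟩
  have hE : Fintype.card E = Fintype.card k ^ n := by rw [Module.card_eq_pow_finrank (K := k), hr]
  have h1 : 1 < Fintype.card k := Fintype.one_lt_card
  replace h3 := h3 E hr (by rw [hE]; exact hn.trans (Nat.lt_pow_self h1).le)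
  have h4 : {x : E | ¬ ∃ y, y ^ (p - 1) = aeval x A} ⊆
      {x : E | minpoly k x ∈ {P : k[X] | Prm P ∧ ¬ Anom p A P ∧ P.natDegree = n}} ∪
        {x : E | (minpoly k x).natDegree < n / 2 + 1} := by
    intro x hx
    have hi : IsIntegral k x := Algebra.IsIntegral.isIntegral x
    by_cases e : (minpoly k x).natDegree = n
    · refine Or.inl ⟨⟨minpoly.monic hi, minpoly.irreducible hi⟩, fun ⟨y, hy⟩ => hx ⟨aeval x y, ?_⟩, e⟩
      have := (minpoly.dvd_iff).1 hy
      rwa [map_sub, map_pow, sub_eq_zero] at this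
    · obtain ⟨c, hc⟩ := minpoly.degree_dvd hi
      refine Or.inr (Nat.lt_succ_of_le ((Nat.le_div_iff_mul_le two_pos).2 ?_))
      rw [hr] at hc
      have : 2 ≤ c := by
        rcases c with _ | _ | c <;> omega
      exact hc ▸ Nat.mul_le_mul_left _ this
  have h5 := (Set.ncard_le_ncard h4).trans ((Set.ncard_union_le _ _).trans (add_le_add
    (SNs_fib ((fin_mon n).subset fun P h => ⟨h.1.1, h.2.2⟩) fun P h => h.2.2)
    (SNs_low (k := k) (E := E) (n / 2 + 1))))
  have h6 : Fintype.card k ^ (n / 2 + 1) * 16 ≤ Fintype.card k ^ n :=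
    (Nat.mul_le_mul_left _ (Nat.pow_le_pow_left (show 2 ≤ _ from h1) 4)).trans
      (by rw [← pow_add]; exact Nat.pow_le_pow_right h1.le (by omega))
  beta_reduce
  rw [mul_assoc]
  omega

end aux

theorem na_lower {k : Type} [Field k] [Fintype k] {p : ℕ} [Fact p.Prime] [CharP k p] {A : k[X]}
    (h : ∀ y : RatFunc k, y ^ (p - 1) ≠ algebraMap k[X] (RatFunc k) A) :
    ASW.Dns fun P : k[X] => ¬ Anom p A P := by
  classical
  have hp : p.Prime := Fact.out
  have hm : 0 < p - 1 := Nat.sub_pos_of_lt hp.one_lt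
  have hA : A ≠ 0 := fun e => h 0 (by rw [e, map_zero, zero_pow hm.ne'])
  let S : ℕ → Prop := fun g => g ∣ p - 1 ∧ ∃ c B, A = C c * B ^ g
  have h1 : S 1 := ⟨one_dvd _, 1, A, by simp⟩
  obtain ⟨⟨e, he⟩, c, B, hB⟩ := Nat.findGreatest_spec (P := S) hm h1
  have hmax := fun g' => Nat.findGreatest_is_greatest (P := S) (n := p - 1) (k := g')
  generalize Nat.findGreatest S (p - 1) = g at he hB hmax
  have hB0 : B ≠ 0 := fun e0 => hA (by
    rw [hB, e0, zero_pow (left_ne_zero_of_mul (he ▸ hm.ne')), mul_zero])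
  have hev : ∀ (E : Type) [Field E] [Algebra k E] (x : E),
      aeval x A = algebraMap k E c * aeval x B ^ g := fun E _ _ x => by
    rw [hB, map_mul, map_pow, aeval_C]
  by_cases he1 : e = 1
  · rw [he1, mul_one] at he
    have hc : c ≠ 0 := fun e0 => hA (by rw [hB, e0, C_0, zero_mul])
    refine SNa_fin (n0 := 2 * A.natDegree) hm hm fun j hj E _ _ _ hr hE => SNa_all hA ?_ (by omega)
    intro x y hx hy
    have h3 : aeval x B ≠ 0 := fun e0 => hx (by rw [hev, e0, ← he, zero_pow hm.ne', mul_zero])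
    have h4 : (y / aeval x B) ^ g = algebraMap k E c := by
      rw [div_pow, ← he, hy, hev, he, mul_div_cancel_right₀ _ (pow_ne_zero _ h3)]
    have h5 := congrArg (Algebra.norm k) h4
    rw [map_pow, Algebra.norm_algebraMap, hr, he, pow_succ, pow_mul'] at h5
    refine h (algebraMap k[X] _ (C (Algebra.norm k (y / aeval x B) / c ^ j) * B)) ?_
    rw [← map_pow, mul_pow, ← C_pow, div_pow, he, h5,
      mul_div_cancel_left₀ _ (pow_ne_zero _ (pow_ne_zero _ hc)), ← hB]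
  obtain ⟨l, hl, e', rfl⟩ := Nat.exists_prime_and_dvd he1
  have hg : 0 < g := Nat.pos_of_ne_zero (left_ne_zero_of_mul (he ▸ hm.ne'))
  have hgl : g * l ∣ p - 1 := ⟨e', by rw [he, mul_assoc]⟩
  obtain ⟨P0, hP, hmul⟩ : ∃ P0, Irreducible P0 ∧ ¬ l ∣ multiplicity P0 B := by
    by_contra h2
    obtain ⟨c', B', h3⟩ := SNa_good hB0 fun P hP => not_not.1 fun h4 => h2 ⟨P, hP, h4⟩
    refine hmax (g * l) (by nlinarith only [hg, hl, hl.one_lt]) (Nat.le_of_dvd hm hgl)
      ⟨hgl, c * c' ^ g, B', ?_⟩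
    rw [hB, h3, mul_pow, ← pow_mul, C_mul, C_pow, mul_assoc, mul_comm l]
  choose Q hQ using SNa_one hl
  refine SNa_fin (n0 := 2 * A.natDegree + ∑ i ∈ Finset.range (B.natDegree + 1), Q i) (r := 0)
    hP.natDegree_pos (Nat.zero_le _) fun j hj E _ _ _ hr hE => ?_
  by_cases hγ : ∃ γ : E, γ ^ g = algebraMap k E c
  swap
  · refine SNa_all hA (fun x y hx hy => hγ ⟨y ^ (l * e') / aeval x B, ?_⟩) (by omega)
    have h3 : aeval x B ^ g ≠ 0 := fun e0 => hx (by rw [hev, e0, mul_zero])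
    rw [div_pow, ← pow_mul, mul_comm _ g, ← he, hy, hev, mul_div_cancel_right₀ _ h3]
  obtain ⟨γ, hγ⟩ := hγ
  have hγ0 : γ ≠ 0 := fun e0 => hA (by
    rw [e0, zero_pow hg.ne', eq_comm, map_eq_zero] at hγ
    rw [hB, hγ, C_0, zero_mul])
  obtain ⟨d, hd⟩ : ∃ d, Fintype.card E = l * (g * d) + 1 := by
    have := charP_of_injective_algebraMap (algebraMap k E).injective p
    obtain ⟨a, -, ha⟩ := FiniteField.card E p
    obtain ⟨d, hd⟩ := hgl.trans (Nat.sub_one_dvd_pow_sub_one p a)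
    have := Fintype.card_pos (α := E)
    exact ⟨d, by rw [← mul_assoc, mul_comm l, ← hd, ← ha]; omega⟩
  obtain ⟨α, hα⟩ := SNa_mult (E := E) hB0 hP (by rw [hr]; exact Dvd.intro _ rfl)
  have hB1 : B.map (algebraMap k E) ≠ 0 := Polynomial.map_ne_zero hB0
  have hB2 : C γ * B.map (algebraMap k E) ≠ 0 := mul_ne_zero (C_ne_zero.2 hγ0) hB1
  obtain ⟨f, f0, f1, f2, f3⟩ := SNa_red (l := l) (α := α) hB2 (by
    rwa [rootMultiplicity_mul hB2, rootMultiplicity_C, zero_add, hα])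
  rw [natDegree_C_mul hγ0, natDegree_map] at f2
  have h3 := hQ _ E _ hd ((Finset.single_le_sum (f := Q) (fun _ _ => Nat.zero_le _)
    (Finset.mem_range.2 (Nat.lt_add_one_of_le f2))).trans (by omega)) f f0 rfl f1
  have h4 : {x : E | ¬ ∃ y, y ^ l = (C γ * B.map (algebraMap k E)).eval x}.ncard ≤
      {x : E | ¬ ∃ y, y ^ (p - 1) = aeval x A}.ncard := by
    refine Set.ncard_le_ncard fun x hx ⟨y, hy⟩ => hx ?_
    rw [eval_mul, eval_C, eval_map_algebraMap]
    rcases eq_or_ne (γ * aeval x B) 0 with h0 | h0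
    · exact ⟨0, by rw [h0, zero_pow hl.ne_zero]⟩
    have h5 : (γ * aeval x B) ^ g = ((y ^ e') ^ l) ^ g := by
      rw [mul_pow, hγ, ← hev, ← hy, he, ← pow_mul, ← pow_mul]
      exact congrArg (y ^ ·) (by ring)
    have h6 : (y ^ e') ^ l ≠ 0 := fun e0 => pow_ne_zero g h0 (by rw [h5, e0, zero_pow hg.ne'])
    obtain ⟨b, hb⟩ := SNa_root hd (div_ne_zero h0 h6)
      (by rw [pow_mul, div_pow, h5, div_self (pow_ne_zero _ h6), one_pow])
    exact ⟨b * y ^ e', by rw [mul_pow, hb, div_mul_cancel₀ _ h6]⟩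
  omega

end Pool.Agent.ASel
end

-- merged part: Pool.Agent.Work.MP_60d5ce_nt.AG.CStep
section
/-!
# One step of the count of the classes

PLAN.  `cov_frac`: the additive group `V` of the `a / b ^ e`, `deg a < e i`, has at most `q ^ (e i)` elements (`ncard_lt`) and
contains the `y ^ p - y` for `y = c / b ^ s`, `s = e / p`, `deg c < s i`; these are `q ^ (s i)` different elements (if `y ^ p = y`
then `y` is a natural number, `Wp_fix`, and it vanishes at infinity).  So each fibre of `V → K / wpK` has at least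
`q ^ (s i)` elements (`Finset.mul_card_image_le_card`).  `cov_poly`: the same with the polynomials of degree `≤ m` and
`y = X c`, `deg c < m / p`.  `dn_step`: by `ht_add` a class on the left is the sum of the class of some `a / b ^ e` and of a class
counted by `dn T' (n - (e+1) i)`; union over `i`, `b`.
-/

namespace Pool.Agent.ASel

open Polynomial Pool.Agent.Smith Pool.Agent.ASW

variable {k : Type} [Field k] [Fintype k] {p : ℕ} [hp : Fact p.Prime] [CharP k p]

omit hp [CharP k p] in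
theorem CStep_cov {Q : Type} (φ : k[X] → Q) (ψ : k[X] → k[X]) (N M : ℕ)
    (h1 : ∀ c : k[X], c.degree < M → (ψ c).degree < N)
    (h2 : ∀ c c' : k[X], c.degree < M → c'.degree < M → ψ c = ψ c' → c = c')
    (h3 : ∀ a c, φ (a + ψ c) = φ a) :
    (φ '' {a | a.degree < N}).ncard ≤ Fintype.card k ^ (N - M) := by
  have h4 : ∀ z ∈ φ '' {a : k[X] | a.degree < N}, ∃ a : k[X], a.degree < N ∧ φ a = z :=
    fun z hz => hz
  choose! r hr1 hr2 using h4
  have h5 := Set.ncard_le_ncard_of_injOn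
    (s := (φ '' {a : k[X] | a.degree < N}) ×ˢ {c : k[X] | c.degree < M})
    (t := {a : k[X] | a.degree < N}) (fun x => r x.1 + ψ x.2)
    (fun x hx => (degree_add_le _ _).trans_lt (max_lt (hr1 _ hx.1) (h1 _ hx.2)))
    (fun x hx y hy h => by
      have e1 : x.1 = y.1 := by
        rw [← hr2 _ hx.1, ← hr2 _ hy.1, ← h3 _ x.2, ← h3 (r y.1) y.2]
        exact congrArg φ h
      have e2 : r x.1 + ψ x.2 = r y.1 + ψ y.2 := h
      rw [e1] at e2
      exact Prod.ext e1 (h2 _ _ hx.2 hy.2 (add_left_cancel e2))) (fin_lt N)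
  rw [Set.ncard_prod, ncard_lt, ncard_lt] at h5
  have hq : 0 < Fintype.card k := Fintype.card_pos
  refine Nat.le_of_mul_le_mul_right (h5.trans ?_) (pow_pos hq M)
  rw [← pow_add]
  exact Nat.pow_le_pow_right hq (by omega)

omit [Fintype k] hp [CharP k p] in
theorem CStep_deg {f g : k[X]} {N : ℕ} (h1 : f.natDegree < N) (h2 : g.natDegree < N) :
    (f - g).degree < N := by
  refine (degree_sub_le _ _).trans_lt (max_lt (degree_le_natDegree.trans_lt ?_)
    (degree_le_natDegree.trans_lt ?_)) <;> exact_mod_cast ‹_›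

theorem cov_frac (e : ℕ) {b : k[X]} (hb : b.Monic) :
    ((fun a : k[X] => ((fr e (a, b) : RatFunc k) : RatFunc k ⧸ wpK k p)) ''
      {a | a.degree < (e * b.natDegree : ℕ)}).ncard ≤
        Fintype.card k ^ ((e - e / p) * b.natDegree) := by
  obtain ⟨p', hp'⟩ : ∃ p', p = p' + 1 := ⟨p - 1, by have := hp.out.pos; omega⟩
  have hp0 : 0 < p' := by have := hp.out.one_lt; omega
  obtain ⟨s, hs⟩ : ∃ s, s = e / p := ⟨_, rfl⟩
  obtain ⟨r, hr⟩ : ∃ r, e = s * p + r := ⟨e % p, by rw [hs, Nat.div_add_mod']⟩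
  have hes : e - s = s * p' + r := by rw [hr, hp', Nat.mul_succ]; omega
  have hb0 := hb.ne_zero
  have d1 : ∀ c : k[X], c ≠ 0 → (c ^ p * b ^ r).natDegree = p * c.natDegree + r * b.natDegree :=
    fun c hc => by
      rw [natDegree_mul (pow_ne_zero _ hc) (pow_ne_zero _ hb0), natDegree_pow, natDegree_pow]
  have d2 : ∀ c : k[X], c ≠ 0 →
      (c * b ^ (s * p' + r)).natDegree = c.natDegree + (s * p' + r) * b.natDegree :=
    fun c hc => by rw [natDegree_mul hc (pow_ne_zero _ hb0), natDegree_pow]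
  rw [← hs, Nat.sub_mul]
  refine CStep_cov _ (fun c => c ^ p * b ^ r - c * b ^ (s * p' + r)) _ _ (fun c hc => ?_)
    (fun c c' hc hc' h => ?_) (fun a c => ?_)
  · rcases eq_or_ne c 0 with rfl | h0
    · simp only [zero_pow hp.out.ne_zero, zero_mul, sub_self, degree_zero, WithBot.bot_lt_coe,
        Nat.cast_withBot]
    · have h1 := (natDegree_lt_iff_degree_lt h0).2 hc
      refine CStep_deg ?_ ?_
      · rw [d1 c h0, hr]
        have := Nat.mul_lt_mul_of_pos_left h1 hp.out.pos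
        linarith only [this]
      · rw [d2 c h0, hr, hp']
        linarith only [h1]
  · by_contra hne
    have h0 := sub_ne_zero.2 hne
    have h1 := (natDegree_lt_iff_degree_lt h0).2 ((degree_sub_le c c').trans_lt (max_lt hc hc'))
    have h2 : (c - c') ^ p * b ^ r = (c - c') * b ^ (s * p' + r) := by
      rw [sub_pow_char]
      linear_combination h
    have h3 := congrArg natDegree h2
    rw [d1 _ h0, d2 _ h0, hp'] at h3
    have := Nat.mul_lt_mul_of_pos_left h1 hp0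
    linarith only [h3, this]
  · refine (mk_eq.2 ⟨algebraMap k[X] (RatFunc k) c / algebraMap k[X] (RatFunc k) b ^ s, ?_⟩).symm
    have hB : algebraMap k[X] (RatFunc k) b ≠ 0 := RatFunc.algebraMap_ne_zero hb0
    simp only [fr, map_add, map_sub, map_mul, map_pow]
    generalize algebraMap k[X] (RatFunc k) b = B at hB
    have e1 : B ^ e = (B ^ s) ^ p * B ^ r := by rw [hr, pow_add, pow_mul]
    have e2 : B ^ e = B ^ s * B ^ (s * p' + r) := by
      rw [← pow_add, hr, hp', Nat.mul_succ]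
      exact congrArg _ (by omega)
    rw [add_div, sub_div, div_pow]
    refine congrArg _ (congrArg₂ _ ?_ ?_)
    · rw [e1, mul_div_mul_right _ _ (pow_ne_zero _ hB)]
    · rw [e2, mul_div_mul_right _ _ (pow_ne_zero _ hB)]

theorem cov_poly (m : ℕ) :
    ((fun a : k[X] => ((algebraMap k[X] (RatFunc k) a : RatFunc k) : RatFunc k ⧸ wpK k p)) ''
      {a | a.degree < (m + 1 : ℕ)}).ncard ≤ Fintype.card k ^ (m + 1 - m / p) := by
  have hp1 := hp.out.one_lt
  have d1 : ∀ c : k[X], c ≠ 0 → (X * c).natDegree = c.natDegree + 1 := fun c hc =>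
    natDegree_X_mul hc
  refine CStep_cov _ (fun c => (X * c) ^ p - X * c) _ _ (fun c hc => ?_)
    (fun c c' hc hc' h => ?_) (fun a c => ?_)
  · rcases eq_or_ne c 0 with rfl | h0
    · simp only [mul_zero, zero_pow hp.out.ne_zero, sub_self, degree_zero, WithBot.bot_lt_coe,
        Nat.cast_withBot]
    · have h1 := (natDegree_lt_iff_degree_lt h0).2 hc
      have h2 := Nat.mul_div_le m p
      have h3 := Nat.mul_le_mul_left p (Nat.succ_le_of_lt h1)
      have h4 := Nat.div_le_self m p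
      refine CStep_deg ?_ ?_
      · rw [natDegree_pow, d1 c h0]
        exact Nat.lt_succ_of_le (h3.trans h2)
      · rw [d1 c h0]
        omega
  · by_contra hne
    have h0 := sub_ne_zero.2 hne
    have h2 : (X * (c - c')) ^ p = X * (c - c') := by
      rw [mul_sub, sub_pow_char]
      linear_combination h
    have h3 := congrArg natDegree h2
    rw [natDegree_pow, d1 _ h0] at h3
    nlinarith only [hp1, h3]
  · refine (mk_eq.2 ⟨algebraMap k[X] (RatFunc k) (X * c), ?_⟩).symm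
    rw [map_add, map_sub, map_pow]

theorem dn_nonneg (T : RatFunc k → Prop) (n : ℕ) : 0 ≤ dn p T n :=
  div_nonneg (Nat.cast_nonneg _) (pow_nonneg (Nat.cast_nonneg _) _)

theorem dn_mono {T T' : RatFunc k → Prop} {n : ℕ} (h : ∀ d, T d → ht d = n → T' d) :
    dn p T n ≤ dn p T' n := by
  refine div_le_div_of_nonneg_right (Nat.cast_le.2 (Set.ncard_le_ncard (Set.image_mono ?_)
    (((fin_ht n).subset fun d hd => hd.2).image _))) (pow_nonneg (Nat.cast_nonneg _) _)
  exact fun d hd => ⟨h d hd.1 hd.2, hd.2⟩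

theorem dn_or (T T' : RatFunc k → Prop) (n : ℕ) :
    dn p (fun d => T d ∨ T' d) n ≤ dn p T n + dn p T' n := by
  unfold dn
  rw [← add_div]
  refine div_le_div_of_nonneg_right ?_ (pow_nonneg (Nat.cast_nonneg _) _)
  have e : {d | (T d ∨ T' d) ∧ ht d = n} = {d | T d ∧ ht d = n} ∪ {d | T' d ∧ ht d = n} :=
    Set.ext fun d => or_and_right
  rw [e, Set.image_union]
  exact_mod_cast Set.ncard_union_le _ _

theorem dn_step {e : ℕ} (he : 1 ≤ e) {T T' : RatFunc k → Prop} {B : k[X] → Prop} {β : ℕ → ℝ} {n : ℕ}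
    (hβ : ∀ i ≤ n, ({b : k[X] | b.Monic ∧ b.natDegree = i ∧ B b}.ncard : ℝ) ≤
      β i * (Fintype.card k : ℝ) ^ i)
    (h : ∀ d, T d → ht d = n → ∃ (i : ℕ) (x : k[X] × k[X]) (d' : RatFunc k), x ∈ Lay e i ∧
      IsCoprime x.2 d'.denom ∧ d = fr e x + d' ∧ B x.2 ∧ T' d') :
    dn p T n ≤ ∑ i ∈ Finset.range (n + 1) with (e + 1) * i ≤ n,
      β i * ((Fintype.card k : ℝ) ^ (e / p * i))⁻¹ * dn p T' (n - (e + 1) * i) := by
  classical
  have hq : (0 : ℝ) < Fintype.card k := Nat.cast_pos.2 Fintype.card_pos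
  obtain ⟨D, hD⟩ : ∃ D : ℕ → Set (RatFunc k ⧸ wpK k p), ∀ i, D i =
      ((↑) : RatFunc k → RatFunc k ⧸ wpK k p) '' {d | T' d ∧ ht d = n - (e + 1) * i} :=
    ⟨_, fun _ => rfl⟩
  obtain ⟨C, hC⟩ : ∃ C : k[X] → Set (RatFunc k ⧸ wpK k p), ∀ b, C b =
      (fun a : k[X] => ((fr e (a, b) : RatFunc k) : RatFunc k ⧸ wpK k p)) ''
        {a | a.degree < (e * b.natDegree : ℕ)} := ⟨_, fun _ => rfl⟩
  have fD : ∀ i, (D i).Finite := fun i => by
    rw [hD]; exact ((fin_ht _).subset fun d hd => hd.2).image _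
  have fC : ∀ b, (C b).Finite := fun b => by rw [hC]; exact (fin_lt _).image _
  have fB : ∀ i, {b : k[X] | b.Monic ∧ b.natDegree = i ∧ B b}.Finite :=
    fun i => (fin_mon i).subset fun b hb => ⟨hb.1, hb.2.1⟩
  have h1 : ((↑) : RatFunc k → RatFunc k ⧸ wpK k p) '' {d | T d ∧ ht d = n} ⊆
      ⋃ i ∈ (Finset.range (n + 1)).filter (fun i => (e + 1) * i ≤ n), ⋃ b ∈ (fB i).toFinset,
        (fun z => z.1 + z.2) '' (C b ×ˢ D i) := by
    rintro _ ⟨d, ⟨hT, hn⟩, rfl⟩
    obtain ⟨i, x, d', hx, hc, rfl, hB, hT'⟩ := h d hT hn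
    rw [ht_add he hx hc] at hn
    have hi : i ≤ (e + 1) * i := Nat.le_mul_of_pos_left _ (Nat.succ_pos _)
    simp only [Set.mem_iUnion]
    refine ⟨i, Finset.mem_filter.2 ⟨Finset.mem_range.2 (by omega), by omega⟩, x.2,
      (Set.Finite.mem_toFinset _).2 ⟨hx.1, hx.2.2.1, hB⟩,
      (((fr e x : RatFunc k) : RatFunc k ⧸ wpK k p), ((d' : RatFunc k) : RatFunc k ⧸ wpK k p)),
      ⟨?_, ?_⟩, (QuotientAddGroup.mk_add _ _ _).symm⟩
    · rw [hC, hx.2.2.1]
      exact ⟨x.1, hx.2.2.2.2, rfl⟩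
    · rw [hD]
      exact ⟨d', ⟨hT', by omega⟩, rfl⟩
  have h2 := (Set.ncard_le_ncard h1 (Set.Finite.biUnion (Finset.finite_toSet _) fun i _ =>
    Set.Finite.biUnion (Finset.finite_toSet _) fun b _ => ((fC b).prod (fD i)).image _)).trans
    (Finset.set_ncard_biUnion_le _ _)
  unfold dn
  rw [div_le_iff₀ (pow_pos hq n), Finset.sum_mul]
  refine (Nat.cast_le.2 h2).trans ?_
  rw [Nat.cast_sum]
  refine Finset.sum_le_sum fun i hi => ?_
  obtain ⟨hi1, hi2⟩ := Finset.mem_filter.1 hi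
  have h3 : (⋃ b ∈ (fB i).toFinset, (fun z => z.1 + z.2) '' (C b ×ˢ D i)).ncard ≤
      {b : k[X] | b.Monic ∧ b.natDegree = i ∧ B b}.ncard *
        (Fintype.card k ^ ((e - e / p) * i) * (D i).ncard) := by
    refine (Finset.set_ncard_biUnion_le _ _).trans ?_
    rw [Set.ncard_eq_toFinset_card _ (fB i), ← smul_eq_mul]
    refine Finset.sum_le_card_nsmul _ _ _ fun b hb => ?_
    obtain ⟨hb1, hb2, -⟩ := (Set.Finite.mem_toFinset _).1 hb
    refine (Set.ncard_image_le ((fC b).prod (fD i))).trans ?_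
    rw [Set.ncard_prod, hC, ← hb2]
    exact Nat.mul_le_mul_right _ (cov_frac e hb1)
  refine (Nat.cast_le.2 h3).trans ?_
  rw [← hD]
  push_cast
  refine (mul_le_mul_of_nonneg_right (hβ i (Nat.lt_succ_iff.1 (Finset.mem_range.1 hi1)))
    (by positivity)).trans (le_of_eq ?_)
  have h4 : n = n - (e + 1) * i + (i + (e - e / p) * i + e / p * i) := by
    have h5 := Nat.mul_le_mul_right i (Nat.div_le_self e p)
    rw [Nat.sub_mul]
    rw [Nat.succ_mul] at hi2 ⊢
    omega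
  have h5 : (Fintype.card k : ℝ) ^ n = (Fintype.card k : ℝ) ^ (n - (e + 1) * i) *
      ((Fintype.card k : ℝ) ^ i * (Fintype.card k : ℝ) ^ ((e - e / p) * i) *
        (Fintype.card k : ℝ) ^ (e / p * i)) := by
    rw [← pow_add, ← pow_add, ← pow_add, ← h4]
  rw [h5]
  field_simp

end Pool.Agent.ASel
end

-- merged part: Pool.Agent.Work.MP_60d5ce_nt.AG.CRest
section
/-!
# The poles of order at least `p` and the pole at infinity contribute a convergent series

PLAN.  `poly_sum`: a polynomial of height `n` has degree `< n` (`n ≥ 2`) or is constant (`n = 0`); `cov_poly` gives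
`dn ≤ q ^ (-((n-1) / p))`, resp. `≤ q`; `∑_m 2 ^ (-(m / p)) ≤ 2 p`.  `rest_sum`: put `S e = ∑_{n ≤ N} dn (Hi e) n`.  For `e ≥ N` and
`ht d ≤ N`, `Hi e d` forces `denom = 1` (`ht_ge`).  For `e ≥ p`, `dn_step` (`B = True`, `β = 1`, `ncard_mon`, `split_lev`) and an
exchange of the sums give `S e ≤ (∑_i x ^ i) S (e+1) ≤ exp (2 x) S (e+1)`, `x = q ^ (-(e / p)) ≤ 1 / 2`; downward induction on `e`.
`rest_tail`: a series with nonnegative terms and bounded finite sums is summable (`summable_of_sum_range_le`), its tails tend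
to `0`.
-/

namespace Pool.Agent.ASel

open Polynomial Pool.Agent.Smith Pool.Agent.ASW

variable {k : Type} [Field k] [Fintype k] {p : ℕ} [hp : Fact p.Prime] [CharP k p]

theorem CRest_geo {x : ℝ} (h0 : 0 ≤ x) (h1 : x ≤ 1 / 2) (M : ℕ) :
    ∑ i ∈ Finset.range M, x ^ i ≤ 1 + 2 * x := by
  have h2 := geom_sum_mul_neg x M
  have h3 : 0 ≤ x ^ M := pow_nonneg h0 M
  have h4 : 0 < 1 - x := by linarith only [h1]
  refine le_of_mul_le_mul_right ?_ h4
  rw [h2]
  linarith only [h3, h0, h1, mul_nonneg_of_nonpos_of_nonpos (Mathlib.Tactic.Linarith.sub_nonpos_of_le h0) (Mathlib.Tactic.Linarith.sub_nonpos_of_le h1)]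

theorem CRest_div {p : ℕ} (hp : 0 < p) (N : ℕ) :
    ∑ m ∈ Finset.range N, (1 / 2 : ℝ) ^ (m / p) ≤ 2 * p := by
  have h1 : ∀ M : ℕ, ∑ m ∈ Finset.range (p * M), (1 / 2 : ℝ) ^ (m / p) =
      p * ∑ j ∈ Finset.range M, (1 / 2 : ℝ) ^ j := by
    intro M
    induction M with
    | zero => simp
    | succ M ih =>
      rw [Nat.mul_succ, Finset.sum_range_add, ih, Finset.sum_range_succ, mul_add]
      have : ∑ i ∈ Finset.range p, (1 / 2 : ℝ) ^ ((p * M + i) / p) =
          ∑ _i ∈ Finset.range p, (1 / 2 : ℝ) ^ M := by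
        refine Finset.sum_congr rfl fun i hi => ?_
        rw [Nat.mul_add_div hp, Nat.div_eq_of_lt (Finset.mem_range.1 hi), add_zero]
      rw [this, Finset.sum_const, Finset.card_range, nsmul_eq_mul]
  have h2 := CRest_geo (x := 1 / 2) (by norm_num) le_rfl N
  have h3 : (0 : ℝ) ≤ p := Nat.cast_nonneg p
  calc ∑ m ∈ Finset.range N, (1 / 2 : ℝ) ^ (m / p)
      ≤ ∑ m ∈ Finset.range (p * N), (1 / 2 : ℝ) ^ (m / p) :=
        Finset.sum_le_sum_of_subset_of_nonneg
          (Finset.range_subset_range.2 (Nat.le_mul_of_pos_left N hp)) fun _ _ _ => by positivity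
    _ ≤ 2 * p := by
        rw [h1]
        linarith only [h2, mul_nonneg_of_nonpos_of_nonpos (Mathlib.Tactic.Linarith.sub_nonpos_of_le (Mathlib.Tactic.Linarith.natCast_nonneg ℝ p)) (Mathlib.Tactic.Linarith.sub_nonpos_of_le h2)]

theorem CRest_swap {a f : ℕ → ℝ} (ha : ∀ i, 0 ≤ a i) (hf : ∀ i, 0 ≤ f i) (c N : ℕ) :
    ∑ n ∈ Finset.range (N + 1), ∑ i ∈ Finset.range (n + 1) with c * i ≤ n, a i * f (n - c * i) ≤
      (∑ i ∈ Finset.range (N + 1), a i) * ∑ m ∈ Finset.range (N + 1), f m := by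
  calc ∑ n ∈ Finset.range (N + 1), ∑ i ∈ Finset.range (n + 1) with c * i ≤ n, a i * f (n - c * i)
      ≤ ∑ n ∈ Finset.range (N + 1), ∑ i ∈ Finset.range (N + 1) with c * i ≤ n,
          a i * f (n - c * i) := by
        refine Finset.sum_le_sum fun n hn => Finset.sum_le_sum_of_subset_of_nonneg
          (Finset.filter_subset_filter _ (Finset.range_subset_range.2 ?_))
          fun i _ _ => mul_nonneg (ha _) (hf _)
        exact Finset.mem_range.1 hn
    _ = ∑ i ∈ Finset.range (N + 1), ∑ n ∈ Finset.range (N + 1) with c * i ≤ n,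
          a i * f (n - c * i) := by
        simp only [Finset.sum_filter]
        exact Finset.sum_comm
    _ ≤ _ := by
        rw [Finset.sum_mul]
        refine Finset.sum_le_sum fun i _ => ?_
        rw [← Finset.mul_sum]
        refine mul_le_mul_of_nonneg_left ?_ (ha i)
        have e : (Finset.range (N + 1)).filter (fun n => c * i ≤ n) = Finset.Ico (c * i) (N + 1) := by
          ext n
          simp only [Finset.mem_filter, Finset.mem_range, Finset.mem_Ico]
          exact and_comm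
        rw [e, Finset.sum_Ico_eq_sum_range]
        simp only [Nat.add_sub_cancel_left]
        exact Finset.sum_le_sum_of_subset_of_nonneg
          (Finset.range_subset_range.2 (Nat.sub_le _ _)) fun _ _ _ => hf _

theorem CRest_inv (j : ℕ) : ((Fintype.card k : ℝ) ^ j)⁻¹ ≤ (1 / 2) ^ j := by
  have h : (2 : ℝ) ≤ Fintype.card k := by exact_mod_cast Fintype.one_lt_card
  rw [one_div, inv_pow]
  exact inv_anti₀ (by positivity) (pow_le_pow_left₀ (by norm_num) h j)

theorem CRest_poly {n m : ℕ} (h : n ≤ m + 1) :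
    dn p (fun d : RatFunc k => d.denom = 1) n ≤
      (Fintype.card k : ℝ) ^ (m + 1 - m / p) / (Fintype.card k : ℝ) ^ n := by
  unfold dn
  refine div_le_div_of_nonneg_right ?_ (by positivity)
  have h1 : (((↑) : RatFunc k → RatFunc k ⧸ wpK k p) '' {d | d.denom = 1 ∧ ht d = n}) ⊆
      (fun a : k[X] => ((algebraMap k[X] (RatFunc k) a : RatFunc k) : RatFunc k ⧸ wpK k p)) ''
        {a | a.degree < (m + 1 : ℕ)} := by
    rintro _ ⟨d, ⟨h1, h2⟩, rfl⟩
    have h3 : algebraMap k[X] (RatFunc k) d.num = d := by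
      have := RatFunc.num_div_denom d
      rwa [h1, map_one, div_one] at this
    refine ⟨d.num, ?_, by simp only [h3]⟩
    have h4 : d.intDegree = d.num.natDegree := by
      simp [RatFunc.intDegree, h1]
    have h5 : d.num.natDegree ≤ m := by
      unfold ht at h2
      rw [h4] at h2
      split_ifs at h2 with h6 <;> omega
    exact degree_le_natDegree.trans_lt (by exact_mod_cast Nat.lt_succ_of_le h5)
  exact_mod_cast (Set.ncard_le_ncard h1 ((fin_lt _).image _)).trans (cov_poly m)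

theorem poly_sum (N : ℕ) : ∑ n ∈ Finset.range (N + 1), dn p (fun d : RatFunc k => d.denom = 1) n ≤
    Fintype.card k + 2 * p := by
  have hq : (0 : ℝ) < Fintype.card k := by exact_mod_cast Fintype.card_pos
  rw [Finset.sum_range_succ', add_comm]
  refine add_le_add ?_ ((Finset.sum_le_sum fun m _ => ?_).trans (CRest_div hp.out.pos N))
  · simpa using CRest_poly (k := k) (p := p) (n := 0) (m := 0) (by omega)
  · refine (CRest_poly (m := m) le_rfl).trans (le_trans (le_of_eq ?_) (CRest_inv (k := k) (m / p)))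
    have h1 : m / p ≤ m + 1 := (Nat.div_le_self _ _).trans (Nat.le_succ _)
    rw [pow_sub₀ _ hq.ne' h1]
    field_simp

theorem CRest_step {e : ℕ} (he : p ≤ e) (N : ℕ) :
    ∑ n ∈ Finset.range (N + 1), dn p (Hi (k := k) e) n ≤ Real.exp (2 * (1 / 2) ^ (e / p)) *
      ∑ n ∈ Finset.range (N + 1), dn p (Hi (k := k) (e + 1)) n := by
  have he1 : 1 ≤ e := hp.out.pos.trans_le he
  have h1 : ∀ n, dn p (Hi (k := k) e) n ≤ ∑ i ∈ Finset.range (n + 1) with (e + 1) * i ≤ n,
      ((1 / 2 : ℝ) ^ (e / p)) ^ i * dn p (Hi (k := k) (e + 1)) (n - (e + 1) * i) := by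
    intro n
    refine (dn_step (p := p) he1 (T := Hi e) (T' := Hi (e + 1)) (B := fun _ => True)
      (β := fun _ => 1) (n := n) (fun i _ => ?_) fun d hd _ => ?_).trans
      (Finset.sum_le_sum fun i _ => ?_)
    · simp only [and_true, ncard_mon, one_mul]
      exact le_of_eq (by push_cast; rfl)
    · obtain ⟨i, x, d', h1, h2, h3, h4⟩ := split_lev he1 hd
      exact ⟨i, x, d', h1, h2, h3, trivial, h4⟩
    · rw [one_mul, ← pow_mul]
      exact mul_le_mul_of_nonneg_right (CRest_inv _) (dn_nonneg _ _)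
  refine (Finset.sum_le_sum fun n _ => h1 n).trans ((CRest_swap
    (a := fun i => ((1 / 2 : ℝ) ^ (e / p)) ^ i) (f := dn p (Hi (k := k) (e + 1)))
    (fun i => by positivity) (dn_nonneg _) (e + 1) N).trans ?_)
  refine mul_le_mul_of_nonneg_right ?_ (Finset.sum_nonneg fun n _ => dn_nonneg _ _)
  have h2 : (1 / 2 : ℝ) ^ (e / p) ≤ 1 / 2 :=
    pow_le_of_le_one (by norm_num) (by norm_num) (Nat.div_pos he hp.out.pos).ne'
  refine (CRest_geo (by positivity) h2 _).trans ?_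
  rw [add_comm]
  exact Real.add_one_le_exp _

variable (k p) in
theorem rest_sum : ∃ W : ℝ, 0 < W ∧ ∀ N, ∑ n ∈ Finset.range (N + 1), dn p (Hi (k := k) p) n ≤ W :=
  by
  have hq : (0 : ℝ) < Fintype.card k := by exact_mod_cast Fintype.card_pos
  refine ⟨Real.exp (2 * (2 * p)) * (Fintype.card k + 2 * p), by positivity, fun N => ?_⟩
  have h1 : ∀ j, ∑ n ∈ Finset.range (N + 1), dn p (Hi (k := k) p) n ≤
      Real.exp (2 * ∑ i ∈ Finset.range j, (1 / 2) ^ (i / p)) *
        ∑ n ∈ Finset.range (N + 1), dn p (Hi (k := k) (p + j)) n := by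
    intro j
    induction j with
    | zero => simp
    | succ j ih =>
      refine ih.trans ?_
      rw [Finset.sum_range_succ (fun i => (1 / 2 : ℝ) ^ (i / p)), mul_add, Real.exp_add, mul_assoc]
      refine mul_le_mul_of_nonneg_left ((CRest_step (Nat.le_add_right p j) N).trans ?_)
        (Real.exp_pos _).le
      refine mul_le_mul_of_nonneg_right (Real.exp_le_exp.2 ?_)
        (Finset.sum_nonneg fun n _ => dn_nonneg _ _)
      exact mul_le_mul_of_nonneg_left (pow_le_pow_of_le_one (by norm_num) (by norm_num)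
        (Nat.div_le_div_right (Nat.le_add_left j p))) (by norm_num)
  refine (h1 N).trans (mul_le_mul (Real.exp_le_exp.2 ?_) (le_trans ?_ (poly_sum N))
    (Finset.sum_nonneg fun n _ => dn_nonneg _ _) (Real.exp_pos _).le)
  · exact mul_le_mul_of_nonneg_left (CRest_div hp.out.pos N) (by norm_num)
  · refine Finset.sum_le_sum fun n hn => dn_mono fun d hd hn' => ?_
    by_contra hne
    obtain ⟨P, hP1, hP2, hP3⟩ := exists_monic_irreducible_factor d.denom
      fun hu => hne ((RatFunc.monic_denom d).isUnit_iff.1 hu)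
    have hP : Prm P := ⟨hP1, hP2⟩
    have h2 := ht_ge hP (hp.out.pos.trans_le (Nat.le_add_right p N)) (hd P hP hP3)
    have h3 : 0 < P.natDegree := hP2.natDegree_pos
    have h4 := Finset.mem_range.1 hn
    have h5 : p + N + 1 ≤ (p + N + 1) * P.natDegree := Nat.le_mul_of_pos_right _ h3
    omega

variable (k p) in
theorem rest_tail {η : ℝ} (hη : 0 < η) : ∃ r : ℕ, ∀ N,
    ∑ n ∈ Finset.range (N + 1) with r < n, dn p (Hi (k := k) p) n ≤ η := by
  obtain ⟨W, -, hW⟩ := rest_sum k p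
  have h1 : Summable (dn p (Hi (k := k) p)) := by
    refine summable_of_sum_range_le (c := W) (dn_nonneg _) fun n => le_trans ?_ (hW n)
    rw [Finset.sum_range_succ]
    exact le_add_of_nonneg_right (dn_nonneg _ _)
  obtain ⟨s, hs⟩ := summable_iff_vanishing_norm.1 h1 η hη
  refine ⟨s.sup id, fun N => (le_abs_self _).trans (hs _ ?_).le⟩
  refine Finset.disjoint_left.2 fun n hn hn' => ?_
  exact absurd (Finset.le_sup (f := id) hn') (not_le.2 (Finset.mem_filter.1 hn).2)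

end Pool.Agent.ASel
end

-- merged part: Pool.Agent.Work.MP_60d5ce_nt.AG.CExc
section
/-!
# The number of all classes and of the exceptional classes

PLAN.  Downward induction on `e` from `p - 1` to `1` with `dn_step` and `split_lev` (`e / p = 0`).  For `e = p - 1` the map
`i ↦ n - p i` is injective, so the sum is at most the sum of `rest_sum`; later there are at most `N + 1` terms.
If `d = fr e x + d'` is exceptional of level `e < p` then `m < om b` or `d'` is exceptional of level `e + 1` (`den_add`: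
`P ^ p ∣ b ^ e * denom d'` forces `P ∤ b`; `fr_inf`; `om_mul_le`), use `dn_mono`, `dn_or`, and `om_le` for the proportion
`β = (1 + log N) / m` of the `b` with `m < om b`.  An exceptional `d` of level `p` has `r < ht d` (`ht_ge`, `ht_inf`,
`om_le_deg`, `den_le_ht`), `rest_tail`.  Invariant: `≤ (η + (p - e) W β) (N+1) ^ (p-1-e)`.
-/

namespace Pool.Agent.ASel

open Polynomial Pool.Agent.Smith Pool.Agent.ASW

variable {k : Type} [Field k]

/-- a large pole of order at least `p`, a large pole at infinity, or many poles -/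
def Exc (p r m e : ℕ) (d : RatFunc k) : Prop :=
  (∃ P, Prm P ∧ P ^ p ∣ d.denom ∧ (r < P.natDegree ∨ P ^ (r + 1) ∣ d.denom)) ∨
    2 ^ r < av (none : Pl k) d ∨ (p - e) * m + r < om d.denom

theorem CExc_top {p r m : ℕ} (hp : 1 ≤ p) {d : RatFunc k} (h : Exc p r m p d) : r < ht d := by
  rcases h with ⟨P, hP, h1, h2 | h2⟩ | h | h
  · have := ht_ge hP hp h1
    linarith only [h2, this, mul_nonneg_of_nonpos_of_nonpos (Mathlib.Tactic.Linarith.sub_nonpos_of_le (Mathlib.Tactic.Linarith.natCast_nonneg ℤ p)) (Mathlib.Tactic.Linarith.sub_nonpos_of_le (Mathlib.Tactic.Linarith.natCast_nonneg ℤ P.natDegree))]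
  · have := ht_ge hP (Nat.le_add_left 1 r) h2
    have := hP.2.natDegree_pos
    nlinarith
  · exact (pow_lt_pow_iff_right₀ one_lt_two).1 (h.trans_le ht_inf)
  · have := om_le_deg (RatFunc.denom_ne_zero d)
    have := den_le_ht (d := d)
    rw [Nat.sub_self, zero_mul, zero_add] at h
    omega

theorem CExc_step {p r m e i : ℕ} (he : e < p) {x : k[X] × k[X]} {d : RatFunc k} (hx : x ∈ Lay e i)
    (hc : IsCoprime x.2 d.denom) (h : Exc p r m e (fr e x + d)) (hm : ¬ m < om x.2) :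
    Exc p r m (e + 1) d := by
  rcases h with ⟨P, hP, h1, h2⟩ | h | h
  · rw [den_add hx hc] at h1 h2
    have h3 : ¬ P ∣ x.2 := by
      rintro ⟨c, hc'⟩
      have c1 : IsCoprime P d.denom := by
        rw [hc'] at hc
        exact hc.of_mul_left_left
      have c2 := (pow_dvd_pow P he).trans (c1.pow_left.dvd_of_dvd_mul_right h1)
      rw [hc', mul_pow, pow_succ, mul_dvd_mul_iff_left (pow_ne_zero _ hP.2.ne_zero)] at c2
      refine hP.2.not_isUnit (hx.2.1 P ?_)
      rw [hc']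
      exact mul_dvd_mul_left _ (hP.2.prime.dvd_of_dvd_pow c2)
    have c3 : IsCoprime P x.2 := hP.2.coprime_iff_not_dvd.2 h3
    exact Or.inl ⟨P, hP, c3.pow.dvd_of_dvd_mul_left h1,
      h2.imp_right fun h => c3.pow.dvd_of_dvd_mul_left h⟩
  · refine Or.inr (Or.inl ?_)
    rcases lt_max_iff.1 (h.trans_le (av_na none _ _)) with h | h
    · exact absurd (h.trans (fr_inf hx)) (not_lt.2 (one_le_pow₀ one_le_two))
    · exact h
  · rw [den_add hx hc] at h
    have h1 := om_mul_le hx.1.ne_zero (RatFunc.denom_ne_zero d) e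
    rw [show p - e = p - (e + 1) + 1 by omega, Nat.succ_mul] at h
    exact Or.inr (Or.inr (by omega))

theorem CExc_inj {f : ℕ → ℝ} (hf : ∀ n, 0 ≤ f n) (e : ℕ) {n N : ℕ} (hn : n ≤ N) :
    ∑ i ∈ Finset.range (n + 1) with (e + 1) * i ≤ n, f (n - (e + 1) * i) ≤
      ∑ j ∈ Finset.range (N + 1), f j := by
  rw [← Finset.sum_image (g := fun i => n - (e + 1) * i) (f := f) fun i hi j hj h => by
    rw [Finset.mem_coe, Finset.mem_filter] at hi hj
    exact Nat.eq_of_mul_eq_mul_left (show 0 < e + 1 by omega) (by dsimp only at h; omega)]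
  refine Finset.sum_le_sum_of_subset_of_nonneg (fun j hj => ?_) fun j _ _ => hf j
  obtain ⟨i, -, rfl⟩ := Finset.mem_image.1 hj
  rw [Finset.mem_range]
  omega

theorem CExc_dn [Fintype k] {p : ℕ} [Fact p.Prime] [CharP k p] {e n N : ℕ} (he : 1 ≤ e) (hep : e < p)
    (hn : n ≤ N) {T T' : RatFunc k → Prop} {B : k[X] → Prop} {β : ℝ} (h0 : 0 ≤ β)
    (hβ : ∀ i ≤ n, ({b : k[X] | b.Monic ∧ b.natDegree = i ∧ B b}.ncard : ℝ) ≤
      β * (Fintype.card k : ℝ) ^ i)
    (h : ∀ d, T d → ∃ (i : ℕ) (x : k[X] × k[X]) (d' : RatFunc k), x ∈ Lay e i ∧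
      IsCoprime x.2 d'.denom ∧ d = fr e x + d' ∧ B x.2 ∧ T' d') :
    dn p T n ≤ β * ∑ j ∈ Finset.range (N + 1), dn p T' j := by
  refine (dn_step he (β := fun _ => β) hβ fun d hd _ => h d hd).trans ?_
  simp only [Nat.div_eq_of_lt hep, zero_mul, pow_zero, inv_one, mul_one]
  rw [← Finset.mul_sum]
  exact mul_le_mul_of_nonneg_left (CExc_inj (dn_nonneg T') e hn) h0

theorem CExc_one [Fintype k] (i : ℕ) : ({b : k[X] | b.Monic ∧ b.natDegree = i ∧ True}.ncard : ℝ) ≤
    1 * (Fintype.card k : ℝ) ^ i := by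
  simp only [and_true, ncard_mon, one_mul, Nat.cast_pow, le_refl]

theorem CExc_sum {f : ℕ → ℝ} {N : ℕ} {c : ℝ} (h : ∀ n ≤ N, f n ≤ c) :
    ∑ j ∈ Finset.range (N + 1), f j ≤ c * (N + 1) := by
  have := Finset.sum_le_card_nsmul (Finset.range (N + 1)) f c fun n hn =>
    h n (Nat.lt_succ_iff.1 (Finset.mem_range.1 hn))
  rwa [Finset.card_range, nsmul_eq_mul, Nat.cast_succ, mul_comm] at this

variable (k) [Fintype k] (p : ℕ) [hp : Fact p.Prime] [CharP k p]

theorem exc_le : ∃ W : ℝ, 0 < W ∧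
    (∀ N e, 1 ≤ e → e < p → ∀ n ≤ N, dn p (Hi (k := k) e) n ≤ W * (N + 1) ^ (p - 1 - e)) ∧
    ∀ η : ℝ, 0 < η → ∃ r : ℕ, ∀ N m : ℕ, 1 ≤ N → 1 ≤ m → ∀ n ≤ N,
      dn p (Exc (k := k) p r m 1) n ≤ (η + p * W * (1 + Real.log N) / m) * (N + 1) ^ (p - 2) := by
  obtain ⟨W, hW, hs⟩ := rest_sum k p
  have h2 := hp.out.two_le
  have s1 : ∀ N e, 1 ≤ e → e < p → ∀ n ≤ N, dn p (Hi (k := k) e) n ≤
      ∑ j ∈ Finset.range (N + 1), dn p (Hi (k := k) (e + 1)) j := fun N e he hep n hn => by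
    refine (CExc_dn he hep hn zero_le_one (fun i _ => CExc_one i) fun d hd => ?_).trans_eq (one_mul _)
    obtain ⟨i, x, d', a, b, c, f⟩ := split_lev he hd
    exact ⟨i, x, d', a, b, c, trivial, f⟩
  have A : ∀ N j e, 1 ≤ e → e + j = p →
      ∑ n ∈ Finset.range (N + 1), dn p (Hi (k := k) e) n ≤ W * (N + 1) ^ j := fun N j => by
    induction j with
    | zero => intro e _ h; rw [add_zero] at h; rw [h, pow_zero, mul_one]; exact hs N
    | succ j ih =>
      intro e he h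
      rw [pow_succ, ← mul_assoc]
      exact CExc_sum fun n hn => (s1 N e he (by omega) n hn).trans (ih _ (by omega) (by omega))
  refine ⟨W, hW, fun N e he hep n hn => (s1 N e he hep n hn).trans (A N _ _ (by omega) (by omega)),
    fun η hη => ?_⟩
  obtain ⟨r, hr⟩ := rest_tail k p hη
  refine ⟨r, fun N m hN hm => ?_⟩
  have hm' : (0 : ℝ) < m := by exact_mod_cast hm
  obtain ⟨β, hβ⟩ : ∃ β : ℝ, β = (1 + Real.log N) / m := ⟨_, rfl⟩
  have b0 : 0 ≤ β := by
    have := Real.log_natCast_nonneg N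
    rw [hβ]
    positivity
  have b1 : ∀ i ≤ N, ({b : k[X] | b.Monic ∧ b.natDegree = i ∧ m < om b}.ncard : ℝ) ≤
      β * (Fintype.card k : ℝ) ^ i := fun i hi => by
    have l : Real.log i ≤ Real.log N := by
      rcases Nat.eq_zero_or_pos i with rfl | h
      · rw [Nat.cast_zero, Real.log_zero]
        exact Real.log_natCast_nonneg N
      · exact Real.log_le_log (by exact_mod_cast h) (by exact_mod_cast hi)
    rw [hβ, div_mul_eq_mul_div, le_div_iff₀ hm', mul_comm]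
    exact (om_le i m).trans (mul_le_mul_of_nonneg_right (by linarith only [l]) (by positivity))
  have s2 : ∀ e, 1 ≤ e → e < p → ∀ n ≤ N, dn p (fun d => Hi (k := k) e d ∧ Exc p r m e d) n ≤
      β * ∑ j ∈ Finset.range (N + 1), dn p (Hi (k := k) (e + 1)) j +
      ∑ j ∈ Finset.range (N + 1), dn p (fun d => Hi (k := k) (e + 1) d ∧ Exc p r m (e + 1) d) j :=
    fun e he hep n hn => by
    refine (dn_mono fun d hd _ => ?_).trans ((dn_or _ _ n).trans (add_le_add
      (CExc_dn he hep hn b0 (fun i hi => b1 i (hi.trans hn)) fun d hd => hd)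
      ((CExc_dn he hep hn zero_le_one (fun i _ => CExc_one i) fun d hd => hd).trans_eq (one_mul _))))
    obtain ⟨i, x, d', a, b, c, f⟩ := split_lev he hd.1
    by_cases g : m < om x.2
    · exact Or.inl ⟨i, x, d', a, b, c, g, f⟩
    · exact Or.inr ⟨i, x, d', a, b, c, trivial, f, CExc_step hep a b (c ▸ hd.2) g⟩
  have B : ∀ j e, 1 ≤ e → e + j = p →
      ∑ n ∈ Finset.range (N + 1), dn p (fun d => Hi (k := k) e d ∧ Exc p r m e d) n ≤
        (η + j * W * β) * (N + 1) ^ j := fun j => by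
    induction j with
    | zero =>
      intro e _ h
      rw [add_zero] at h
      rw [h, pow_zero, mul_one, Nat.cast_zero, zero_mul, zero_mul, add_zero]
      refine le_trans ?_ (hr N)
      rw [Finset.sum_filter]
      refine Finset.sum_le_sum fun n _ => ?_
      split_ifs with g
      · exact dn_mono fun d hd _ => hd.1
      · refine (dn_mono (n := n) (T' := fun _ => False) fun d hd e =>
          g ((CExc_top (by omega) hd.2).trans_eq e)).trans ?_
        simp [dn]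
    | succ j ih =>
      intro e he h
      rw [pow_succ, ← mul_assoc]
      refine CExc_sum fun n hn => (s2 e he (by omega) n hn).trans ?_
      have a := mul_le_mul_of_nonneg_left (A N j (e + 1) (by omega) (by omega)) b0
      have b := ih (e + 1) (by omega) (by omega)
      push_cast
      linarith
  intro n hn
  have c := (dn_mono (T := Exc (k := k) p r m 1) fun d hd _ =>
    And.intro (fun P _ h => by rwa [pow_one]) hd).trans (s2 1 le_rfl (by omega) n hn)
  have a := mul_le_mul_of_nonneg_left (A N (p - 2) 2 (by omega) (by omega)) b0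
  have b := B (p - 2) 2 (by omega) (by omega)
  have d : 0 ≤ W * β * ((N : ℝ) + 1) ^ (p - 2) := by positivity
  rw [Nat.cast_sub h2] at b
  rw [mul_div_assoc, ← hβ]
  push_cast at b
  linarith

end Pool.Agent.ASel
end

-- merged part: Pool.Agent.Work.MP_60d5ce_nt.AG.CUp
section
/-!
# The upper bound for the number of bad classes

PLAN.  `good_cnt`: choose for each class counted by `dn T n` a representative `d*`; if `c` is the class of `fr 1 x + d` and
`d*` represents the class of `d`, then `c` is the class of `fr 1 x + d*`, so this element is bad, and `x ∈ Fam (F * denom d*) i`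
(`pole_eq` for the primes of `x.2`, they do not divide `F`).  `upper`: take `W`, then `r` from `exc_le` for a small `η`, and
`F ≠ 0` divisible by `G` and by all primes of degree `≤ r`, of degree `≥ r + p`.  Let `T2 d` say that `P ∣ denom d`, `P ∤ F` imply
`P ^ 2 ∣ denom d`; `dn T2 n ≤ (deg F + 1) W (N+1) ^ (p-3)` for `n ≤ N` (`dn_step` with `e = 1`, `B b = b ∣ F`,
`β i = if i ≤ deg F then 1 else 0`, `split_lev`: the primes of `x.2` divide `F`, so does the squarefree `x.2`).  Take `a, N0`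
from `Unif` for a small `ε'`, and `m, s` from `num_ms`.  A representative `d` of height `N` is exceptional (`exc_le`), or
`d = fr 1 x + d2` by `split_pred` with `S P = ¬ P ∣ F`, `x ∈ Lay 1 i`, `2 i + ht d2 = N`, `T2 d2`.  The `i < s` contribute at most
`s (deg F + 1) W (N+1) ^ (p-3) q ^ N` (`dn_step` with `B b = natDegree b < s`); for `i ≥ s` use `good_cnt` with `T` = `T2` and the
hypotheses of `Unif` (`av_den`; they follow from `¬ Exc p r m 1 d` and `den_add`, `fr_inf`).  `(N+1) ^ (p-2) ≤ 2 ^ p N ^ (p-2)`.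
-/

namespace Pool.Agent.ASel

open Polynomial Pool.Agent.Smith Pool.Agent.ASW

theorem num_ms (c a r N0 : ℕ) (ha : 1 ≤ a) {η : ℝ} (hη : 0 < η) : ∃ N1 : ℕ, ∀ N ≥ N1, ∃ m s : ℕ,
    1 ≤ m ∧ (c * m + r) ^ a ≤ s ∧ N ≤ s ^ 2 ∧ N0 ≤ s ∧ (s : ℝ) ≤ η * N ∧
      1 + Real.log N ≤ η * m := by
  have h1 := (Real.isLittleO_pow_log_id_atTop (n := a)).const_mul_left
    ((c * (2 / η + 1) + r) ^ a) |>.bound hη
  have h2 := Real.tendsto_log_atTop.eventually_ge_atTop 1
  obtain ⟨N1, h⟩ := Filter.eventually_atTop.1 (tendsto_natCast_atTop_atTop.eventually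
    (h1.and (h2.and ((Filter.eventually_ge_atTop ((N0 + 1) / η)).and
      (Filter.eventually_ge_atTop (4 / η ^ 2))))))
  refine ⟨N1, fun N hN => ?_⟩
  obtain ⟨k1, k2, k3, k4⟩ := h N hN
  rw [div_le_iff₀' (by positivity)] at k3 k4
  have k5 : 0 < (1 + Real.log N) / η := by positivity
  have k6 := Nat.ceil_lt_add_one k5.le
  have k7 := Nat.lt_floor_add_one (η * N)
  have k8 : 1 ≤ ⌊η * N⌋₊ := Nat.le_floor (by push_cast; linarith only [k3, N0.cast_nonneg (α := ℝ)])
  refine ⟨⌈(1 + Real.log N) / η⌉₊, ⌊η * N⌋₊, Nat.ceil_pos.2 k5, Nat.le_floor ?_, ?_,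
    Nat.le_floor (by linarith only [k3]), Nat.floor_le (by positivity),
    (div_le_iff₀' hη).1 (Nat.le_ceil _)⟩
  · rw [← mul_pow, id, Real.norm_natCast] at k1
    refine le_trans ?_ ((le_abs_self _).trans k1)
    push_cast
    refine pow_le_pow_left₀ (by positivity) ?_ a
    have e1 : (1 + Real.log N) / η ≤ 2 / η * Real.log N := by
      rw [div_mul_eq_mul_div]
      exact div_le_div_of_nonneg_right (by linarith only [k2]) hη.le
    rw [add_mul, mul_assoc, add_mul]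
    exact add_le_add (mul_le_mul_of_nonneg_left (by linarith only [k2, k6, e1]) c.cast_nonneg)
      (le_mul_of_one_le_right r.cast_nonneg k2)
  · have e1 : (1 : ℝ) ≤ ⌊η * N⌋₊ := by exact_mod_cast k8
    have e2 := pow_le_pow_left₀ (by positivity) (show η * N ≤ 2 * ⌊η * N⌋₊ by linarith only [k7, e1]) 2
    have e3 := mul_le_mul_of_nonneg_right k4 (N.cast_nonneg (α := ℝ))
    exact_mod_cast (by linarith only [e2, e3] : (N : ℝ) ≤ (⌊η * N⌋₊ : ℝ) ^ 2)

theorem CUp_cov {A B : Type} (I : Finset A) {S : Set B} {f : A → Set B} {Y : ℝ}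
    (hf : ∀ a ∈ I, (f a).Finite ∧ ((f a).ncard : ℝ) ≤ Y) (h : ∀ b ∈ S, ∃ a ∈ I, b ∈ f a) :
    (S.ncard : ℝ) ≤ I.card * Y := by
  have h1 := (Set.ncard_le_ncard (t := ⋃ a ∈ I, f a) (fun b hb => by simpa using h b hb)
    (I.finite_toSet.biUnion fun a ha => (hf a ha).1)).trans (I.set_ncard_biUnion_le f)
  rw [← nsmul_eq_mul]
  refine le_trans ?_ (Finset.sum_le_card_nsmul I _ _ fun a ha => (hf a ha).2)
  exact_mod_cast h1

section

variable {k : Type} [Field k]

theorem CUp_prm {z : k[X]} (hz : Irreducible z) : ∃ P, Prm P ∧ Associated z P := by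
  classical
  exact ⟨normalize z, ⟨monic_normalize hz.ne_zero, (associated_normalize z).irreducible hz⟩,
    associated_normalize z⟩

theorem CUp_cop {b c : k[X]} (hb : b ≠ 0) (h : ∀ P, Prm P → P ∣ b → ¬ P ∣ c) : IsCoprime b c :=
  isCoprime_of_irreducible_dvd (fun e => hb e.1) fun z hz h1 h2 =>
    let ⟨P, h3, h4⟩ := CUp_prm hz
    h P h3 (h4.symm.dvd.trans h1) (h4.symm.dvd.trans h2)

theorem CUp_not {b c P : k[X]} (h : IsCoprime b c) (hP : Prm P) (h1 : P ∣ b) : ¬ P ∣ c :=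
  fun h2 => hP.2.not_isUnit (h.isUnit_of_dvd' h1 h2)

theorem CUp_dvd {b F : k[X]} (hb : Squarefree b) (h : ∀ P, Prm P → P ∣ b → P ∣ F) : b ∣ F := by
  induction b using UniqueFactorizationMonoid.induction_on_prime with
  | h₁ => exact absurd rfl hb.ne_zero
  | h₂ x hx => exact hx.dvd
  | h₃ a z _ hz ih =>
    obtain ⟨P, h1, h2⟩ := CUp_prm hz.irreducible
    exact (IsRelPrime.of_squarefree_mul hb).isCoprime.mul_dvd
      (h2.dvd.trans (h P h1 (h2.symm.dvd.mul_right _)))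
      (ih hb.of_mul_right fun Q h3 h4 => h Q h3 (h4.mul_left _))

end

variable {k : Type} [Field k] [Fintype k] {p : ℕ} [hp : Fact p.Prime] [CharP k p]

theorem good_cnt {F : k[X]} {Bad T : RatFunc k → Prop} {i n : ℕ} {Y : ℝ} (hY : 0 ≤ Y)
    (h1 : ∀ d, T d → ∀ P, Prm P → ¬ P ∣ F → ¬ P ^ p ∣ d.denom)
    (h2 : ∀ d, T d → ht d = n →
      ({x | x ∈ Fam (F * d.denom) i ∧ Bad (fr 1 x + d)}.ncard : ℝ) ≤ Y) :
    ({c : RatFunc k ⧸ wpK k p | (∃ d x, T d ∧ ht d = n ∧ x ∈ Fam (F * d.denom) i ∧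
      ((fr 1 x + d : RatFunc k) : RatFunc k ⧸ wpK k p) = c) ∧
        ∀ d : RatFunc k, (d : RatFunc k ⧸ wpK k p) = c → Bad d}.ncard : ℝ) ≤
      dn p T n * (Fintype.card k : ℝ) ^ n * Y := by
  have hI : (((↑) : RatFunc k → RatFunc k ⧸ wpK k p) '' {d | T d ∧ ht d = n}).Finite :=
    ((fin_ht n).subset fun d hd => hd.2).image _
  have h3 : ∀ c : RatFunc k ⧸ wpK k p, ∃ d : RatFunc k, c ∈ hI.toFinset →
      T d ∧ ht d = n ∧ (d : RatFunc k ⧸ wpK k p) = c := fun c => by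
    by_cases hc : c ∈ hI.toFinset
    · obtain ⟨d, k1, k2⟩ := hI.mem_toFinset.1 hc
      exact ⟨d, fun _ => ⟨k1.1, k1.2, k2⟩⟩
    · exact ⟨0, fun h => absurd h hc⟩
  choose σ hσ using h3
  rw [dn, div_mul_cancel₀ _ (by positivity), Set.ncard_eq_toFinset_card _ hI]
  refine CUp_cov _ (f := fun c => (fun x => ((fr 1 x + σ c : RatFunc k) : RatFunc k ⧸ wpK k p)) ''
    {x | x ∈ Fam (F * (σ c).denom) i ∧ Bad (fr 1 x + σ c)}) (fun c hc => ?_) ?_
  · have k1 : {x | x ∈ Fam (F * (σ c).denom) i ∧ Bad (fr 1 x + σ c)}.Finite :=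
      (fin_fam _ _).subset fun x hx => hx.1
    exact ⟨k1.image _, (Nat.cast_le.2 (Set.ncard_image_le k1)).trans
      (h2 _ (hσ c hc).1 (hσ c hc).2.1)⟩
  · rintro c ⟨⟨d, x, k1, k2, k3, rfl⟩, k4⟩
    have k5 : (d : RatFunc k ⧸ wpK k p) ∈ hI.toFinset := hI.mem_toFinset.2 ⟨d, ⟨k1, k2⟩, rfl⟩
    obtain ⟨q1, -, q2⟩ := hσ _ k5
    have k6 : ((fr 1 x + σ d : RatFunc k) : RatFunc k ⧸ wpK k p) = (fr 1 x + d : RatFunc k) := by
      rw [QuotientAddGroup.mk_add, q2, QuotientAddGroup.mk_add]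
    refine ⟨_, k5, x, ⟨⟨k3.1, k3.2.1, k3.2.2.1, CUp_cop k3.1.ne_zero fun P hP e1 e2 => ?_,
      k3.2.2.2.2⟩, k4 _ k6⟩, k6⟩
    have e3 := CUp_not k3.2.2.2.1.of_mul_right_left hP e1
    obtain ⟨y, hy⟩ := mk_eq.1 q2.symm
    exact CUp_not k3.2.2.2.1.of_mul_right_right hP e1
      ((pole_eq hP (h1 d k1 P hP e3) (hy ▸ h1 _ q1 P hP e3)).2
        (hy ▸ (hP.2.prime.dvd_or_dvd e2).resolve_left e3))

theorem CUp_step {T T' : RatFunc k → Prop} {n t : ℕ} {K : ℝ} (hK : 0 ≤ K)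
    (h' : ∀ j ≤ n, dn p T' j ≤ K)
    (h : ∀ d, T d → ∃ (i : ℕ) (x : k[X] × k[X]) (d' : RatFunc k), x ∈ Lay 1 i ∧
      IsCoprime x.2 d'.denom ∧ d = fr 1 x + d' ∧ x.2.natDegree < t ∧ T' d') :
    dn p T n ≤ t * K := by
  refine (dn_step (B := fun b => b.natDegree < t) (β := fun i => if i < t then 1 else 0) le_rfl
    (fun i _ => ?_) fun d hd _ => h d hd).trans ?_
  · split_ifs with hi
    · rw [one_mul, ← Nat.cast_pow, ← ncard_mon, Nat.cast_le]
      exact Set.ncard_le_ncard (fun b hb => ⟨hb.1, hb.2.1⟩) (fin_mon i)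
    · rw [zero_mul, Set.eq_empty_of_forall_notMem (s := {b : k[X] | b.Monic ∧ b.natDegree = i ∧
        b.natDegree < t}) fun b hb => hi (hb.2.1 ▸ hb.2.2), Set.ncard_empty, Nat.cast_zero]
  · simp only [Nat.div_eq_of_lt hp.out.one_lt, zero_mul, pow_zero, inv_one, mul_one, ite_mul,
      one_mul, ← Finset.sum_filter]
    refine (Finset.sum_le_card_nsmul _ _ K fun i _ => h' _ (Nat.sub_le _ _)).trans ?_
    rw [nsmul_eq_mul]
    refine mul_le_mul_of_nonneg_right (Nat.cast_le.2 ?_) hK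
    exact (Finset.card_le_card fun i hi => Finset.mem_range.2 (Finset.mem_filter.1 hi).2).trans_eq
      (Finset.card_range t)

theorem CUp_F {G : k[X]} (hG : G ≠ 0) (r t : ℕ) : ∃ F : k[X], F ≠ 0 ∧ G ∣ F ∧ t ≤ F.natDegree ∧
    ∀ P, Prm P → P.natDegree ≤ r → P ∣ F := by
  classical
  have h : G * X ^ t * ∏ b ∈ (fin_lt (k := k) (r + 1)).toFinset.erase 0, b ≠ 0 :=
    mul_ne_zero (mul_ne_zero hG (pow_ne_zero _ X_ne_zero))
      (Finset.prod_ne_zero_iff.2 fun b hb => Finset.ne_of_mem_erase hb)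
  refine ⟨_, h, (dvd_mul_right _ _).mul_right _, ?_, fun P hP h1 => Dvd.dvd.mul_left
    (Finset.dvd_prod_of_mem _ (Finset.mem_erase.2 ⟨hP.1.ne_zero, (Set.Finite.mem_toFinset _).2
      ((natDegree_lt_iff_degree_lt hP.1.ne_zero).1 (Nat.lt_succ_of_le h1))⟩)) _⟩
  simpa using natDegree_le_of_dvd ((dvd_mul_left (X ^ t) G).mul_right _) h

theorem upper (h3 : 3 ≤ p) {G : k[X]} (hG : G ≠ 0) {Bad : RatFunc k → Prop} (h : Unif p G Bad)
    {ε : ℝ} (hε : 0 < ε) : ∃ N0 : ℕ, ∀ N ≥ N0,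
      ({c : RatFunc k ⧸ wpK k p | (∃ d : RatFunc k, ht d = N ∧ (d : RatFunc k ⧸ wpK k p) = c) ∧
        ∀ d : RatFunc k, (d : RatFunc k ⧸ wpK k p) = c → Bad d}.ncard : ℝ) ≤
      ε * ((Fintype.card k : ℝ) ^ N * (N : ℝ) ^ (p - 2)) := by
  obtain ⟨W, W0, hW, hE⟩ := exc_le k p
  obtain ⟨η, η0, hη⟩ : ∃ η : ℝ, 0 < η ∧ η * (2 * 2 ^ (p - 2)) = ε :=
    ⟨ε / (2 * 2 ^ (p - 2)), by positivity, div_mul_cancel₀ _ (by positivity)⟩
  obtain ⟨r, hr⟩ := hE η η0
  obtain ⟨F, F0, F1, F2, F3⟩ := CUp_F hG r (r + p)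
  obtain ⟨D, hD⟩ : ∃ D : ℝ, D = (F.natDegree + 1 : ℕ) * W := ⟨_, rfl⟩
  have D0 : 0 < D := by
    rw [hD]
    positivity
  obtain ⟨δ, δ0, hδ⟩ : ∃ δ : ℝ, 0 < δ ∧ δ * (p * W + 2 * D) = η :=
    ⟨η / (p * W + 2 * D), by positivity, div_mul_cancel₀ _ (by positivity)⟩
  obtain ⟨a, N0, ha, hU⟩ := h F F0 F1 (by omega) δ δ0
  obtain ⟨N1, hN1⟩ := num_ms (p - 1) (4 * a) r N0 (by omega) δ0
  refine ⟨N1 + 1, fun N hN => ?_⟩
  obtain ⟨m, s, m1, m2, m3, m4, m5, m6⟩ := hN1 N (by omega)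
  obtain ⟨T2, hT2⟩ : ∃ T2 : RatFunc k → Prop, ∀ d, T2 d ↔
    ∀ P, Prm P → ¬ P ∣ F → P ^ 1 ∣ d.denom → P ^ (1 + 1) ∣ d.denom := ⟨_, fun _ => Iff.rfl⟩
  have a1 : ∀ n ≤ N, dn p T2 n ≤ D * (N + 1) ^ (p - 1 - 2) := fun n hn => by
    rw [hD, mul_assoc]
    refine CUp_step (by positivity) (fun j hj => hW N 2 (by omega) (by omega) j (hj.trans hn))
      fun d hd => ?_
    obtain ⟨i, x, d', k1, k2, k3, k4⟩ := split_lev le_rfl (d := d) fun P _ e => by rwa [pow_one]
    refine ⟨i, x, d', k1, k2, k3, Nat.lt_succ_of_le (natDegree_le_of_dvd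
      (CUp_dvd k1.2.1 fun P hP e1 => by_contra fun e2 => CUp_not k2 hP e1 ?_) F0), k4⟩
    have e3 := (hT2 d).1 hd P hP e2
    rw [k3, den_add k1 k2, pow_one, pow_one, pow_succ, pow_one] at e3
    exact k1.2.1.dvd_of_squarefree_of_mul_dvd_mul_right (e3 (e1.mul_right _))
  obtain ⟨T3, hT3⟩ : ∃ T3 : RatFunc k → Prop, ∀ d, T3 d ↔ ∃ (i : ℕ) (x : k[X] × k[X])
    (d' : RatFunc k), x ∈ Lay 1 i ∧ IsCoprime x.2 d'.denom ∧ d = fr 1 x + d' ∧
      x.2.natDegree < s ∧ T2 d' := ⟨_, fun _ => Iff.rfl⟩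
  have a2 := (dn_or _ T3 N).trans (add_le_add (hr N m (by omega) m1 N le_rfl)
    (CUp_step (by positivity) a1 fun d => (hT3 d).1))
  obtain ⟨T4, hT4⟩ : ∃ T4 : RatFunc k → Prop, ∀ d, T4 d ↔ T2 d ∧
    (∀ v, av v d ≤ 2 ^ F.natDegree) ∧ (∀ P, Prm P → ¬ P ∣ F → ¬ P ^ p ∣ d.denom) ∧
      om d.denom ≤ (p - 1) * m + r := ⟨_, fun _ => Iff.rfl⟩
  have q0 : (0 : ℝ) < Fintype.card k := by positivity
  have a3 := CUp_cov ((Finset.range (N + 1)).filter fun i => s ≤ i ∧ 2 * i ≤ N)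
    (Y := D * (N + 1) ^ (p - 1 - 2) * (δ * (Fintype.card k : ℝ) ^ N))
    (S := {c : RatFunc k ⧸ wpK k p | (∃ d : RatFunc k, ht d = N ∧ ¬ Exc p r m 1 d ∧ ¬ T3 d ∧
      (d : RatFunc k ⧸ wpK k p) = c) ∧ ∀ d : RatFunc k, (d : RatFunc k ⧸ wpK k p) = c → Bad d})
    (f := fun i => {c : RatFunc k ⧸ wpK k p | (∃ d x, T4 d ∧ ht d = N - 2 * i ∧
      x ∈ Fam (F * d.denom) i ∧ ((fr 1 x + d : RatFunc k) : RatFunc k ⧸ wpK k p) = c) ∧
        ∀ d : RatFunc k, (d : RatFunc k ⧸ wpK k p) = c → Bad d}) (fun i hi => ?_) ?_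
  · have b1 : (((↑) : RatFunc k → RatFunc k ⧸ wpK k p) ''
        {d | (Exc p r m 1 d ∨ T3 d) ∧ ht d = N}).Finite :=
      ((fin_ht N).subset fun d hd => hd.2).image _
    refine (Nat.cast_le.2 ((Set.ncard_le_ncard ?_ (b1.union (((fin_ht N).image _).subset
      (t := {c : RatFunc k ⧸ wpK k p | (∃ d : RatFunc k, ht d = N ∧ ¬ Exc p r m 1 d ∧ ¬ T3 d ∧
        (d : RatFunc k ⧸ wpK k p) = c) ∧ ∀ d : RatFunc k, (d : RatFunc k ⧸ wpK k p) = c → Bad d})
      fun c ⟨⟨d, e1, _, _, e2⟩, _⟩ => ⟨d, e1, e2⟩))).trans (Set.ncard_union_le _ _))).trans ?_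
    · rintro c ⟨⟨d, e1, e2⟩, e3⟩
      by_cases e4 : Exc p r m 1 d ∨ T3 d
      · exact Or.inl ⟨d, ⟨e4, e1⟩, e2⟩
      · exact Or.inr ⟨⟨d, e1, fun e => e4 (Or.inl e), fun e => e4 (Or.inr e), e2⟩, e3⟩
    rw [dn, div_le_iff₀ (by positivity)] at a2
    have b2 : (((Finset.range (N + 1)).filter fun i => s ≤ i ∧ 2 * i ≤ N).card : ℝ) ≤ N + 1 := by
      exact_mod_cast (Finset.card_filter_le _ _).trans_eq (Finset.card_range _)
    have b3 : p * W * (1 + Real.log N) / m ≤ p * W * δ := by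
      rw [mul_div_assoc]
      exact mul_le_mul_of_nonneg_left ((div_le_iff₀ (by positivity)).2 m6) (by positivity)
    have b4 : ((N : ℝ) + 1) ^ (p - 2) = (N + 1) * (N + 1) ^ (p - 1 - 2) := by
      rw [← pow_succ', show p - 1 - 2 + 1 = p - 2 by omega]
    have b5 : ((N : ℝ) + 1) ^ (p - 2) ≤ 2 ^ (p - 2) * N ^ (p - 2) := by
      have : (1 : ℝ) ≤ N := by exact_mod_cast (by omega : 1 ≤ N)
      rw [← mul_pow]
      exact pow_le_pow_left₀ (by positivity) (by linarith only [this]) _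
    have b6 : (s : ℝ) * (D * (N + 1) ^ (p - 1 - 2)) ≤ δ * (N + 1) * (D * (N + 1) ^ (p - 1 - 2)) :=
      mul_le_mul_of_nonneg_right (by linarith only [δ0, m5]) (by positivity)
    have b7 := mul_le_mul_of_nonneg_right (add_le_add (mul_le_mul_of_nonneg_right
      (add_le_add_right b3 η) (by positivity : 0 ≤ ((N : ℝ) + 1) ^ (p - 2))) b6)
      (pow_pos q0 N).le
    have b8 := mul_le_mul_of_nonneg_left b5 (by positivity : 0 ≤ 2 * η * (Fintype.card k : ℝ) ^ N)
    have b9 := a3.trans (mul_le_mul_of_nonneg_right b2 (by positivity))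
    rw [Nat.cast_add]
    refine (add_le_add (a2.trans b7) b9).trans (le_of_eq_of_le ?_ (b8.trans_eq ?_))
    · rw [b4, two_mul η]
      nth_rw 3 [← hδ]
      ring
    · rw [← hη]
      ring
  · obtain ⟨i1, i2⟩ := (Finset.mem_filter.1 hi).2
    refine ⟨(((fin_ht (N - 2 * i)).prod (fin_fam 1 i)).image fun z =>
      ((fr 1 z.2 + z.1 : RatFunc k) : RatFunc k ⧸ wpK k p)).subset ?_, ?_⟩
    · rintro c ⟨⟨d, x, -, e1, e2, e3⟩, -⟩
      exact ⟨(d, x), ⟨e1, e2.1, e2.2.1, e2.2.2.1, isCoprime_one_right, e2.2.2.2.2⟩, e3⟩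
    refine (good_cnt (Y := δ * (Fintype.card k : ℝ) ^ (2 * i)) (by positivity)
      (fun d hd => ((hT4 d).1 hd).2.2.1) fun d hd e => ?_).trans ?_
    · obtain ⟨-, e1, e2, e3⟩ := (hT4 d).1 hd
      exact hU i (m4.trans i1) d e1 e2 ((Nat.pow_le_pow_left e3 _).trans (m2.trans i1))
        (den_le_ht.trans (e ▸ (Nat.sub_le _ _).trans (m3.trans (Nat.pow_le_pow_left i1 2))))
    · rw [mul_assoc, mul_left_comm _ δ, ← pow_add, Nat.sub_add_cancel i2]
      exact mul_le_mul_of_nonneg_right ((dn_mono fun d hd _ => ((hT4 d).1 hd).1).trans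
        (a1 _ (Nat.sub_le _ _))) (by positivity)
  · rintro c ⟨⟨d, e1, e2, e3, rfl⟩, e4⟩
    obtain ⟨i, x, d', k1, k2, rfl, k3, k4⟩ := split_pred le_rfl (fun P => ¬ P ∣ F) d
    have k5 := ht_add le_rfl k1 k2
    have k6 : d'.denom ∣ (fr 1 x + d').denom := den_add k1 k2 ▸ dvd_mul_left _ _
    have k7 : s ≤ i := not_lt.1 fun e =>
      e3 ((hT3 _).2 ⟨i, x, d', k1, k2, rfl, k1.2.2.1 ▸ e, (hT2 _).2 k4⟩)
    simp only [Exc, not_or, not_exists, not_and, not_lt] at e2
    obtain ⟨x1, x2, x3⟩ := e2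
    refine ⟨i, Finset.mem_filter.2 ⟨Finset.mem_range.2 (by omega), k7, by omega⟩,
      ⟨d', x, (hT4 _).2 ⟨(hT2 _).2 k4, fun v => ?_,
        fun P hP e e' => e (F3 P hP (x1 P hP (e'.trans k6)).1), le_trans ?_ x3⟩, by omega,
        ⟨k1.1, k1.2.1, k1.2.2.1, (CUp_cop k1.1.ne_zero k3).mul_right k2, k1.2.2.2.1,
          one_mul i ▸ k1.2.2.2.2⟩, rfl⟩, e4⟩
    · by_cases hv : v = none
      · subst hv
        rw [← add_sub_cancel_left (fr 1 x) d']
        exact PF_sub' (x2.trans (pow_le_pow_right₀ one_le_two (by omega)))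
          ((fr_inf k1).le.trans (one_le_pow₀ one_le_two))
      · exact (av_den hv _ _).2 fun e => (x1 _ (pl_prm hv)
          ((pow_dvd_pow _ (by omega)).trans (e.trans k6))).2
            ((pow_dvd_pow _ (by omega)).trans (e.trans k6))
    · exact Set.ncard_le_ncard (fun P hP => ⟨hP.1, hP.2.trans k6⟩)
        (fin_prm (RatFunc.denom_ne_zero _))

end Pool.Agent.ASel
end

-- merged part: Pool.Agent.Work.MP_60d5ce_nt.AG.CLev
section
/-!
# A positive proportion of each layer avoids a given polynomial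

Take the monic `b ≡ 1` modulo all polynomials of degree `< L`.  A union bound over the primes shows that a quarter of them
are squarefree, prime to `R` and have `sg b ≤ min s (1 / 2)`; for these half of the numerators are prime to `b`.
-/

namespace Pool.Agent.ASel

open Polynomial Pool.Agent.Smith Pool.Agent.ASW

variable {k : Type} [Field k] [Fintype k]

theorem CLev_sg {b : k[X]} (hb : b ≠ 0) :
    sg b = ∑ P ∈ (fin_prm hb).toFinset, ((Fintype.card k : ℝ) ^ P.natDegree)⁻¹ :=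
  finsum_mem_eq_finite_toFinset_sum _ _

theorem sg_nonneg (b : k[X]) : 0 ≤ sg b :=
  finsum_nonneg fun _ => finsum_nonneg fun _ => by positivity

theorem sg_one : sg (1 : k[X]) = 0 := by
  rw [CLev_sg one_ne_zero]
  refine Finset.sum_eq_zero fun P hP => ?_
  obtain ⟨h1, h2⟩ := (Set.Finite.mem_toFinset _).1 hP
  exact absurd (isUnit_of_dvd_one h2) h1.2.not_isUnit

theorem sg_mul_le {b c : k[X]} (hb : b ≠ 0) (hc : c ≠ 0) (e : ℕ) :
    sg (b ^ e * c) ≤ sg b + sg c := by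
  classical
  rw [CLev_sg (mul_ne_zero (pow_ne_zero e hb) hc), CLev_sg hb, CLev_sg hc, ← Finset.sum_union_inter]
  refine le_add_of_le_of_nonneg (Finset.sum_le_sum_of_subset_of_nonneg (fun P hP => ?_)
    fun _ _ _ => by positivity) (Finset.sum_nonneg fun _ _ => by positivity)
  simp only [Finset.mem_union, Set.Finite.mem_toFinset, Set.mem_ofPred_eq] at hP ⊢
  exact (hP.1.2.prime.dvd_or_dvd hP.2).imp (fun h => ⟨hP.1, hP.1.2.prime.dvd_of_dvd_pow h⟩)
    fun h => ⟨hP.1, h⟩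

omit [Fintype k] in
theorem CLev_ex {a b : k[X]} (h : ¬ IsCoprime a b) : ∃ P, Prm P ∧ P ∣ a ∧ P ∣ b := by
  rw [← isRelPrime_iff_isCoprime] at h
  simp only [IsRelPrime, not_forall] at h
  obtain ⟨x, x1, x2, x3⟩ := h
  obtain ⟨P, p1, p2, p3⟩ := exists_monic_irreducible_factor x x3
  exact ⟨P, ⟨p1, p2⟩, p3.trans x1, p3.trans x2⟩

theorem CLev_cop {b : k[X]} (hb : b ≠ 0) {N : ℕ} (hN : b.natDegree ≤ N) :
    ({a : k[X] | a.degree < N ∧ ¬ IsCoprime a b}.ncard : ℝ) ≤
      (Fintype.card k : ℝ) ^ N * sg b := by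
  have h0 : (0 : ℝ) < Fintype.card k := Nat.cast_pos.2 Fintype.card_pos
  have h1 : {a : k[X] | a.degree < N ∧ ¬ IsCoprime a b}.ncard ≤ _ := (Set.ncard_le_ncard
    (t := ⋃ P ∈ (fin_prm hb).toFinset, {a : k[X] | a.degree < N ∧ P ∣ a}) (fun a ha => by
      obtain ⟨P, p1, p2, p3⟩ := CLev_ex ha.2
      simp only [Set.mem_iUnion, Set.Finite.mem_toFinset]
      exact ⟨P, ⟨p1, p3⟩, ha.1, p2⟩)
    ((fin_lt N).subset (Set.iUnion₂_subset fun _ _ _ h => h.1))).trans (SFam_un _ _)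
  refine (Nat.cast_le.2 h1).trans ?_
  rw [CLev_sg hb, Finset.mul_sum, Nat.cast_sum]
  refine Finset.sum_le_sum fun P hP => ?_
  obtain ⟨p1, p2⟩ := (Set.Finite.mem_toFinset _).1 hP
  rw [ncard_dvd_lt p1.1.ne_zero, Nat.cast_pow,
    pow_sub₀ _ h0.ne' ((natDegree_le_of_dvd p2 hb).trans hN)]

theorem CLev_deg {S : Finset k[X]} {T : Finset ℕ} (h : ∀ P ∈ S, P.Monic ∧ P.natDegree ∈ T)
    {f : ℕ → ℝ} (hf : ∀ n, 0 ≤ f n) :
    ∑ P ∈ S, f P.natDegree ≤ ∑ n ∈ T, (Fintype.card k : ℝ) ^ n * f n := by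
  rw [← Finset.sum_fiberwise_of_maps_to fun P hP => (h P hP).2]
  refine Finset.sum_le_sum fun n _ => ?_
  rw [Finset.sum_congr rfl fun P hP => congrArg f (Finset.mem_filter.1 hP).2, Finset.sum_const,
    nsmul_eq_mul, ← Nat.cast_pow, ← ncard_mon, ← Set.ncard_coe_finset]
  refine mul_le_mul_of_nonneg_right (Nat.cast_le.2 (Set.ncard_le_ncard (fun P hP => ?_)
    (fin_mon n))) (hf n)
  obtain ⟨h1, h2⟩ := Finset.mem_filter.1 (Finset.mem_coe.1 hP)
  exact ⟨(h P h1).1, h2⟩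

open Classical in
theorem CLev_crt {Δ g : k[X]} (hΔ : Δ ≠ 0) (hg : g ≠ 0) {i : ℕ} {B : Finset k[X]}
    (hB : ∀ b ∈ B, b.Monic ∧ b.natDegree = i ∧ Δ ∣ b - 1) {w : ℝ} (hw : 0 ≤ w) :
    ∑ b ∈ B, (if g ∣ b then w else 0) ≤ w * ((Fintype.card k : ℝ) ^ (i - Δ.natDegree) *
      ((Fintype.card k : ℝ) ^ g.natDegree)⁻¹ + if g.natDegree ≤ i then 1 else 0) := by
  have h0 : (0 : ℝ) < Fintype.card k := Nat.cast_pos.2 Fintype.card_pos
  rw [← Finset.sum_filter, Finset.sum_const, nsmul_eq_mul, mul_comm]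
  refine mul_le_mul_of_nonneg_left ?_ hw
  split_ifs with h
  · rw [← Set.ncard_coe_finset]
    refine (Nat.cast_le.2 ((Set.ncard_le_ncard (fun b hb => ?_) ((fin_mon i).subset
      fun b hb => ⟨hb.1.1, hb.1.2.1⟩)).trans (SFam_crt hΔ hg i))).trans ?_
    · obtain ⟨h1, h2⟩ := Finset.mem_filter.1 (Finset.mem_coe.1 hb)
      exact ⟨hB b h1, h2⟩
    · rw [Nat.cast_pow, ← Nat.sub_sub]
      rcases le_total g.natDegree (i - Δ.natDegree) with h1 | h1
      · rw [pow_sub₀ _ h0.ne' h1]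
        exact le_add_of_nonneg_right zero_le_one
      · rw [Nat.sub_eq_zero_of_le h1, pow_zero]
        exact le_add_of_nonneg_left (by positivity)
  · rw [Finset.filter_eq_empty_iff.2 fun b hb h1 => h
      ((hB b hb).2.1 ▸ natDegree_le_of_dvd h1 (hB b hb).1.ne_zero), Finset.card_empty,
      Nat.cast_zero]
    positivity

theorem CLev_bad {Δ R : k[X]} (hΔ : Δ ≠ 0) (hR : R ≠ 0) {L i : ℕ} {t r τ : ℝ} (ht : 0 < t)
    (hL : ∀ P : k[X], P ≠ 0 → P.natDegree < L → P ∣ Δ) (hr : 1 ≤ r)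
    (hq : (Fintype.card k : ℝ) = r ^ 2)
    (hτ : ∑ n ∈ Finset.Ico L (i + 1), ((Fintype.card k : ℝ) ^ n)⁻¹ ≤ τ) :
    ({b : k[X] | (b.Monic ∧ b.natDegree = i ∧ Δ ∣ b - 1) ∧
      ¬ (Squarefree b ∧ IsCoprime b R ∧ sg b ≤ t)}.ncard : ℝ) ≤
      (Fintype.card k : ℝ) ^ (i - Δ.natDegree) * (τ * (t⁻¹ + 1) + sg R) +
        ((i + 1) * (t⁻¹ + r ^ i) + R.natDegree) := by
  classical
  have h0 : (0 : ℝ) < Fintype.card k := Nat.cast_pos.2 Fintype.card_pos
  have fB : {b : k[X] | (b.Monic ∧ b.natDegree = i ∧ Δ ∣ b - 1) ∧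
      ¬ (Squarefree b ∧ IsCoprime b R ∧ sg b ≤ t)}.Finite :=
    (fin_mon i).subset fun b hb => ⟨hb.1.1, hb.1.2.1⟩
  have fS : {P : k[X] | Prm P ∧ P.natDegree ∈ Finset.Ico L (i + 1)}.Finite :=
    (fin_lt (i + 1)).subset fun P hP =>
      (natDegree_lt_iff_degree_lt hP.1.1.ne_zero).1 (Finset.mem_Ico.1 hP.2).2
  have hB : ∀ b ∈ fB.toFinset, b.Monic ∧ b.natDegree = i ∧ Δ ∣ b - 1 :=
    fun b hb => (fB.mem_toFinset.1 hb).1
  set q : ℝ := (Fintype.card k : ℝ)
  set M := q ^ (i - Δ.natDegree)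
  have hM : 0 ≤ M := by positivity
  have h1 : ∀ b ∈ fB.toFinset, (1 : ℝ) ≤
      ∑ P ∈ fS.toFinset, (if P ∣ b then t⁻¹ * (q ^ P.natDegree)⁻¹ else 0) +
      ∑ P ∈ fS.toFinset, (if P ^ 2 ∣ b then (1 : ℝ) else 0) +
      ∑ P ∈ (fin_prm hR).toFinset, (if P ∣ b then (1 : ℝ) else 0) := by
    intro b hb
    obtain ⟨⟨b1, b2, b3⟩, b4⟩ := fB.mem_toFinset.1 hb
    have hS : ∀ P, Prm P → P ∣ b → P ∈ fS.toFinset := fun P p1 p2 => by
      have := natDegree_le_of_dvd p2 b1.ne_zero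
      refine fS.mem_toFinset.2 ⟨p1, Finset.mem_Ico.2 ⟨not_lt.1 fun h => p1.2.not_isUnit
        (isUnit_of_dvd_one ?_), by omega⟩⟩
      simpa using dvd_sub p2 ((hL P p1.1.ne_zero h).trans b3)
    have n1 : ∀ P ∈ fS.toFinset, 0 ≤ if P ∣ b then t⁻¹ * (q ^ P.natDegree)⁻¹ else 0 :=
      fun _ _ => by positivity
    have n2 : ∀ P ∈ fS.toFinset, 0 ≤ if P ^ 2 ∣ b then (1 : ℝ) else 0 := fun _ _ => by positivity
    have n3 : ∀ P ∈ (fin_prm hR).toFinset, 0 ≤ if P ∣ b then (1 : ℝ) else 0 :=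
      fun _ _ => by positivity
    have m1 := Finset.sum_nonneg n1
    have m2 := Finset.sum_nonneg n2
    have m3 := Finset.sum_nonneg n3
    by_cases c1 : Squarefree b
    · by_cases c2 : IsCoprime b R
      · have c3 : t < sg b := not_le.1 fun h => b4 ⟨c1, c2, h⟩
        have c4 : t⁻¹ * sg b ≤
            ∑ P ∈ fS.toFinset, (if P ∣ b then t⁻¹ * (q ^ P.natDegree)⁻¹ else 0) := by
          rw [CLev_sg b1.ne_zero, Finset.mul_sum, ← Finset.sum_filter]
          refine Finset.sum_le_sum_of_subset_of_nonneg (fun P hP => ?_) fun _ _ _ => by positivity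
          obtain ⟨p1, p2⟩ := (Set.Finite.mem_toFinset _).1 hP
          exact Finset.mem_filter.2 ⟨hS P p1 p2, p2⟩
        have c5 := (one_le_inv_mul₀ ht).2 c3.le
        linarith only [fS, hR, m2, m3, c4, c5]
      · obtain ⟨P, p1, p2, p3⟩ := CLev_ex c2
        have := Finset.single_le_sum n3 ((fin_prm hR).mem_toFinset.2 ⟨p1, p3⟩)
        rw [if_pos p2] at this
        linarith only [fS, hR, m1, m2, this]
    · simp only [Squarefree, not_forall] at c1
      obtain ⟨x, x1, x2⟩ := c1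
      obtain ⟨P, p1, p2, p3⟩ := exists_monic_irreducible_factor x x2
      have p4 : P ^ 2 ∣ b := by
        rw [sq]
        exact (mul_dvd_mul p3 p3).trans x1
      have := Finset.single_le_sum n2 (hS P ⟨p1, p2⟩ ((dvd_pow_self P two_ne_zero).trans p4))
      rw [if_pos p4] at this
      linarith only [fS, hR, m1, m3, this]
  have h2 := Finset.card_nsmul_le_sum _ _ _ h1
  rw [nsmul_eq_mul, mul_one, Finset.sum_add_distrib, Finset.sum_add_distrib, Finset.sum_comm,
    Finset.sum_comm (t := fS.toFinset), Finset.sum_comm (t := (fin_prm hR).toFinset)] at h2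
  have hS : ∀ P ∈ fS.toFinset, P.Monic ∧ P.natDegree ∈ Finset.Ico L (i + 1) := fun P hP =>
    ⟨(fS.mem_toFinset.1 hP).1.1, (fS.mem_toFinset.1 hP).2⟩
  have hc : ∀ {c d : ℝ}, 0 ≤ c → 0 ≤ d → ∑ n ∈ Finset.Ico L (i + 1), (c * (q ^ n)⁻¹ + d) ≤
      c * τ + (i + 1) * d := fun {c d} hc hd => by
    rw [Finset.sum_add_distrib, ← Finset.mul_sum, Finset.sum_const, nsmul_eq_mul, Nat.card_Ico]
    exact add_le_add (mul_le_mul_of_nonneg_left hτ hc)
      (mul_le_mul_of_nonneg_right (by exact_mod_cast Nat.sub_le _ _) hd)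
  have k1 := ((Finset.sum_le_sum fun P hP => CLev_crt hΔ (hS P hP).1.ne_zero hB
    (w := t⁻¹ * (q ^ P.natDegree)⁻¹) (by positivity)).trans (CLev_deg hS
      (f := fun n => t⁻¹ * (q ^ n)⁻¹ * (M * (q ^ n)⁻¹ + if n ≤ i then 1 else 0))
      fun _ => by positivity)).trans ((Finset.sum_le_sum fun n hn => by
        rw [if_pos (Nat.lt_succ_iff.1 (Finset.mem_Ico.1 hn).2)]
        exact le_of_eq (by change q ^ n * _ = _; field_simp)).trans
        (hc (c := t⁻¹ * M) (d := t⁻¹) (by positivity) (by positivity)))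
  have k2 := ((Finset.sum_le_sum fun P hP => (CLev_crt hΔ (pow_ne_zero 2 (hS P hP).1.ne_zero) hB
    zero_le_one).trans_eq (by rw [natDegree_pow])).trans (CLev_deg hS
      (f := fun n => 1 * (M * (q ^ (2 * n))⁻¹ + if 2 * n ≤ i then 1 else 0))
      fun _ => by positivity)).trans ((Finset.sum_le_sum fun n _ => by
        change q ^ n * _ ≤ _
        rw [one_mul, mul_add]
        refine add_le_add (le_of_eq (by rw [two_mul, pow_add]; field_simp)) ?_
        split_ifs with h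
        · rw [mul_one, hq, ← pow_mul]
          exact pow_le_pow_right₀ hr h
        · rw [mul_zero]
          positivity).trans (hc (c := M) (d := r ^ i) hM (by positivity)))
  have k3 : ∑ P ∈ (fin_prm hR).toFinset, ∑ b ∈ fB.toFinset, (if P ∣ b then (1 : ℝ) else 0) ≤
      M * sg R + R.natDegree := by
    refine (Finset.sum_le_sum fun P hP => (CLev_crt hΔ
      ((Set.Finite.mem_toFinset _).1 hP).1.1.ne_zero hB zero_le_one).trans
      (b := _) (c := M * (q ^ P.natDegree)⁻¹ + 1) ?_).trans ?_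
    · rw [one_mul]
      refine add_le_add le_rfl ?_
      split_ifs
      exacts [le_rfl, zero_le_one]
    · rw [Finset.sum_add_distrib, ← Finset.mul_sum, ← CLev_sg hR, Finset.sum_const, nsmul_eq_mul,
        mul_one, ← Set.ncard_eq_toFinset_card _ (fin_prm hR)]
      exact add_le_add le_rfl (Nat.cast_le.2 (om_le_deg hR))
  rw [Set.ncard_eq_toFinset_card _ fB]
  linarith only [fB, fS, hR, h2, k1, k2, k3]

theorem CLev_pair {R : k[X]} {e i : ℕ} (he : 1 ≤ e) {s : ℝ} {G : Finset k[X]}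
    (hG : ∀ b ∈ G, b.Monic ∧ b.natDegree = i ∧ Squarefree b ∧ IsCoprime b R ∧
      sg b ≤ min s (1 / 2)) : (Fintype.card k : ℝ) ^ (e * i) * G.card ≤
      2 * {x | x ∈ Lay e i ∧ IsCoprime x.2 R ∧ sg x.2 ≤ s}.ncard := by
  have h1 : {a : k[X] | a.degree < (e * i : ℕ)} ×ˢ (G : Set k[X]) ⊆
      {x | x ∈ Lay e i ∧ IsCoprime x.2 R ∧ sg x.2 ≤ s} ∪
        ⋃ b ∈ G, {a : k[X] | a.degree < (e * i : ℕ) ∧ ¬ IsCoprime a b} ×ˢ {b} := fun x hx => by
    obtain ⟨b1, b2, b3, b4, b5⟩ := hG _ hx.2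
    by_cases h : IsCoprime x.1 x.2
    · exact Or.inl ⟨⟨b1, b3, b2, h, hx.1⟩, b4, b5.trans (min_le_left _ _)⟩
    · exact Or.inr (Set.mem_biUnion hx.2 ⟨⟨hx.1, h⟩, rfl⟩)
  have h2 := (Set.ncard_le_ncard h1 (((fin_lay e i).subset fun _ h => h.1).union
    (G.finite_toSet.biUnion fun b _ => ((fin_lt _).subset fun _ h => h.1).prod
      (Set.finite_singleton b)))).trans
    ((Set.ncard_union_le _ _).trans (Nat.add_le_add_left (SFam_un _ _) _))
  have h3 := Finset.sum_le_card_nsmul G (fun b => (({a : k[X] | a.degree < (e * i : ℕ) ∧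
      ¬ IsCoprime a b} ×ˢ ({b} : Set k[X])).ncard : ℝ))
      ((Fintype.card k : ℝ) ^ (e * i) * (1 / 2)) fun b hb => by
    obtain ⟨b1, b2, -, -, b5⟩ := hG b hb
    rw [Set.ncard_prod, Set.ncard_singleton, mul_one]
    exact (CLev_cop b1.ne_zero (b2 ▸ Nat.le_mul_of_pos_left _ he)).trans
      (mul_le_mul_of_nonneg_left (b5.trans (min_le_right _ _)) (by positivity))
  rw [Set.ncard_prod, ncard_lt, Set.ncard_coe_finset] at h2
  have h4 := (Nat.cast_le (α := ℝ)).2 h2
  rw [Nat.cast_mul, Nat.cast_pow, Nat.cast_add, Nat.cast_sum] at h4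
  rw [nsmul_eq_mul] at h3
  linarith only [h3, h4]

variable (k) in
theorem lev_lower {s : ℝ} (hs : 0 < s) : ∃ c : ℝ, 0 < c ∧ ∃ i0 : ℕ, ∀ e, 1 ≤ e → ∀ i ≥ i0,
    ∀ R : k[X], R ≠ 0 → sg R ≤ 1 / 4 → R.natDegree ≤ i ^ 2 →
      c * (Fintype.card k : ℝ) ^ ((e + 1) * i) ≤
        {x | x ∈ Lay e i ∧ IsCoprime x.2 R ∧ sg x.2 ≤ s}.ncard := by
  classical
  have h1 : (1 : ℝ) < Fintype.card k := Nat.one_lt_cast.2 Fintype.one_lt_card
  have h0 : (0 : ℝ) < Fintype.card k := zero_lt_one.trans h1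
  have ht : 0 < min s (1 / 2) := lt_min hs (by norm_num)
  have hx : (Fintype.card k : ℝ)⁻¹ < 1 := inv_lt_one_of_one_lt₀ h1
  have hy := sub_pos.2 hx
  obtain ⟨L, hL⟩ := exists_pow_lt_of_lt_one (x := (1 / 4) / ((min s (1 / 2))⁻¹ + 1) *
    (1 - (Fintype.card k : ℝ)⁻¹)) (by positivity) hx
  obtain ⟨Δ, hΔ, hd⟩ : ∃ Δ : k[X], Δ ≠ 0 ∧ ∀ P : k[X], P ≠ 0 → P.natDegree < L → P ∣ Δ :=
    ⟨∏ P ∈ (fin_lt L).toFinset.erase 0, P, Finset.prod_ne_zero_iff.2 fun _ => Finset.ne_of_mem_erase,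
      fun P h2 h3 => Finset.dvd_prod_of_mem _ (Finset.mem_erase.2 ⟨h2,
        (Set.Finite.mem_toFinset _).2 ((natDegree_lt_iff_degree_lt h2).1 h3)⟩)⟩
  obtain ⟨r, hr, hq⟩ : ∃ r : ℝ, 1 < r ∧ (Fintype.card k : ℝ) = r ^ 2 :=
    ⟨_, Real.lt_sqrt_of_sq_lt (by rwa [one_pow]), (Real.sq_sqrt h0.le).symm⟩
  obtain ⟨i0, hi⟩ := Filter.eventually_atTop.1 ((tendsto_pow_const_div_const_pow_of_one_lt 2
    hr).eventually_le_const (u := (4 * (2 * (min s (1 / 2))⁻¹ + 3) *
      (Fintype.card k : ℝ) ^ Δ.natDegree)⁻¹) (by positivity))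
  refine ⟨(8 * (Fintype.card k : ℝ) ^ Δ.natDegree)⁻¹, by positivity, i0 + Δ.natDegree + 1,
    fun e he i h2 R hR h3 h4 => ?_⟩
  have h5 := CLev_bad hΔ hR (i := i) ht hd hr.le hq
    (τ := (1 / 4) / ((min s (1 / 2))⁻¹ + 1)) (by
      simp only [← inv_pow]
      exact (geom_sum_Ico_le_of_lt_one (by positivity) hx).trans ((div_le_iff₀ hy).2 hL.le))
  have fG : {b : k[X] | (b.Monic ∧ b.natDegree = i ∧ Δ ∣ b - 1) ∧
      (Squarefree b ∧ IsCoprime b R ∧ sg b ≤ min s (1 / 2))}.Finite :=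
    (fin_mon i).subset fun b hb => ⟨hb.1.1, hb.1.2.1⟩
  have h6 := CLev_pair (R := R) (s := s) (i := i) he (G := fG.toFinset) fun b hb =>
    let ⟨⟨b1, b2, _⟩, b3⟩ := fG.mem_toFinset.1 hb
    ⟨b1, b2, b3⟩
  have h12 := (Nat.cast_le (α := ℝ)).2 ((ncard_cong_eq hΔ 1 (N := i) (by omega)).ge.trans
    ((Set.ncard_le_ncard (t := fG.toFinset ∪ {b : k[X] | (b.Monic ∧ b.natDegree = i ∧ Δ ∣ b - 1) ∧
      ¬ (Squarefree b ∧ IsCoprime b R ∧ sg b ≤ min s (1 / 2))})
      (fun b hb => (em _).imp (fun h => fG.mem_toFinset.2 ⟨hb, h⟩) (And.intro hb))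
      ((Finset.finite_toSet _).union ((fin_mon i).subset fun b hb => ⟨hb.1.1, hb.1.2.1⟩))).trans
      (Set.ncard_union_le _ _)))
  rw [Nat.cast_pow, Nat.cast_add, Set.ncard_coe_finset] at h12
  have h7 := hi i (by omega)
  have h8 : (1 : ℝ) ≤ i := Nat.one_le_cast.2 (by omega)
  have h9 : 1 ≤ r ^ i := one_le_pow₀ hr.le
  have h10 : (R.natDegree : ℝ) ≤ i ^ 2 := by exact_mod_cast h4
  have h11 : (Fintype.card k : ℝ) ^ i = r ^ i * r ^ i := by rw [hq, ← pow_mul, two_mul, pow_add]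
  rw [div_mul_cancel₀ _ (by positivity)] at h5
  rw [pow_sub₀ _ h0.ne' (by omega), h11] at h5 h12
  rw [add_mul, one_mul, pow_add, h11, mul_inv]
  rw [mul_inv, div_le_iff₀ (by positivity), mul_assoc, le_inv_mul_iff₀ (by positivity)] at h7
  have hu : 0 < (min s (1 / 2))⁻¹ := inv_pos.2 ht
  have hD : 0 < ((Fintype.card k : ℝ) ^ Δ.natDegree)⁻¹ := by positivity
  have hE : 0 < (Fintype.card k : ℝ) ^ (e * i) := by positivity
  generalize (min s (1 / 2))⁻¹ = u, ((Fintype.card k : ℝ) ^ Δ.natDegree)⁻¹ = D, r ^ i = z,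
    (Fintype.card k : ℝ) ^ (e * i) = E at *
  have h13 : ((i : ℝ) + 1) * (u + z) + i ^ 2 ≤ (2 * u + 3) * i ^ 2 * z := by
    have h13 : (i : ℝ) + 1 ≤ 2 * i ^ 2 := by linarith only [h8, mul_nonneg_of_nonpos_of_nonpos (Mathlib.Tactic.Linarith.sub_nonpos_of_le (Mathlib.Tactic.Linarith.natCast_nonneg ℝ i)) (Mathlib.Tactic.Linarith.sub_nonpos_of_le h8)]
    have h14 := mul_le_mul h13 (add_le_add_left (le_mul_of_one_le_right hu.le h9) z)
      (by positivity) (by positivity)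
    have h15 := le_mul_of_one_le_right (sq_nonneg (i : ℝ)) h9
    linarith only [h14, h15]
  have h14 := mul_le_mul_of_nonneg_right h7 (zero_le_one.trans h9)
  have h15 := mul_le_mul_of_nonneg_left h3 (show 0 ≤ z * z * D by positivity)
  have h16 := mul_le_mul_of_nonneg_left (show z * z * D / 4 ≤ fG.toFinset.card by linarith only [fG, h10, h5, h12, h13, h14, h15]) hE.le
  linarith only [fG, h6, h16]

end Pool.Agent.ASel
end

-- merged part: Pool.Agent.Work.MP_60d5ce_nt.AG.CLow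
section
/-!
# The lower bound for the number of reduced functions of height `N`

PLAN.  `low_step`: `A'` is the set of the `fr e x + d`, `d ∈ A`, `i ∈ I (ht d)`, `x ∈ Lay e i` prime to `denom d` with `sg x.2 ≤ s`;
`fr_inj` shows that the union is disjoint, `den_add`, `ht_add`, `fr_inf`, `sg_mul_le`, `den_le_ht`.  `lower`: `s = 1 / (4 p)`,
`t = N / (8 p ^ 2)`.  Start with `A = {0}` at the level `p` (`denom 0 = 1`).  For the levels `e = p - 1, …, 3` take `I = [t, 2 t)`,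
`κ = t`, invariant `ht ≤ (p - e) * 2 p t`, `σ = (p - e) s`, weighted sum `≥ (c t) ^ (p - e)`.  For `e = 2` take
`I n = {2 j + (N - n) % 2 : t ≤ 2 j < 2 t}` or similar so that `N - ht` becomes even, `κ ≥ t / 2 - 1`; for `e = 1` take
`I n = {(N - n) / 2}`, `κ = 1`; then all elements have height `N`.  Finally `t ≥ N / (16 p ^ 2)` for large `N`.
-/

namespace Pool.Agent.ASel

open Polynomial Pool.Agent.Smith Pool.Agent.ASW

variable {k : Type} [Field k] [Fintype k] {p : ℕ}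

omit [Fintype k] in
theorem CLow_red {e i : ℕ} (hp : e < p) {x : k[X] × k[X]} {d : RatFunc k} (hx : x ∈ Lay e i)
    (hc : IsCoprime x.2 d.denom) (hd : Red p d) : Red p (fr e x + d) := by
  refine ⟨fun P hP h => ?_, lt_of_le_of_lt (av_na _ _ _) (max_lt (fr_inf hx) hd.2)⟩
  rw [den_add hx hc] at h
  have hpr : Prime P := hP.2.prime
  by_cases hb : P ∣ x.2
  · have h1 : IsCoprime (P ^ p) d.denom := (hc.of_isCoprime_of_dvd_left hb).pow_left
    have h2 := h1.dvd_of_dvd_mul_right h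
    obtain ⟨m, hm⟩ := hb
    rw [hm, mul_pow] at h2
    have h3 : P ^ e * P ∣ P ^ e * m ^ e := by
      rw [← pow_succ]
      exact (pow_dvd_pow P hp).trans h2
    have h4 := hpr.dvd_of_dvd_pow ((mul_dvd_mul_iff_left (pow_ne_zero e hpr.ne_zero)).1 h3)
    exact hpr.not_unit (hx.2.1 P (hm ▸ mul_dvd_mul_left P h4))
  · have h1 : IsCoprime (P ^ p) (x.2 ^ e) := ((hP.2.coprime_iff_not_dvd).2 hb).pow
    exact hd.1 P hP (h1.dvd_of_dvd_mul_left h)

omit [Fintype k] in
theorem CLow_hi {e i : ℕ} {x : k[X] × k[X]} {d : RatFunc k} (hx : x ∈ Lay e i)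
    (hc : IsCoprime x.2 d.denom) (hd : Hi (e + 1) d) : Hi e (fr e x + d) := by
  intro P hP h
  rw [den_add hx hc] at h ⊢
  rcases hP.2.prime.dvd_or_dvd h with h1 | h1
  · exact (pow_dvd_pow_of_dvd (hP.2.prime.dvd_of_dvd_pow h1) e).mul_right _
  · exact ((pow_dvd_pow P e.le_succ).trans (hd P hP h1)).mul_left _

theorem low_step {s c : ℝ} (hc : 0 ≤ c) {i0 e : ℕ} (he : 1 ≤ e) (hp : e < p)
    (H : ∀ i ≥ i0, ∀ R : k[X], R ≠ 0 → sg R ≤ 1 / 4 → R.natDegree ≤ i ^ 2 →
      c * (Fintype.card k : ℝ) ^ ((e + 1) * i) ≤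
        {x | x ∈ Lay e i ∧ IsCoprime x.2 R ∧ sg x.2 ≤ s}.ncard)
    {σ : ℝ} (hσ : σ ≤ 1 / 4) (A : Finset (RatFunc k)) (I : ℕ → Finset ℕ) (κ : ℕ)
    (hA : ∀ d ∈ A, Red p d ∧ Hi (e + 1) d ∧ sg d.denom ≤ σ ∧ κ ≤ (I (ht d)).card ∧
      ∀ i ∈ I (ht d), i0 ≤ i ∧ ht d ≤ i ^ 2) :
    ∃ A' : Finset (RatFunc k), (∀ d ∈ A', Red p d ∧ Hi e d ∧ sg d.denom ≤ σ + s ∧
      ∃ d' ∈ A, ∃ i ∈ I (ht d'), ht d = (e + 1) * i + ht d') ∧
      c * κ * ∑ d ∈ A, ((Fintype.card k : ℝ) ^ ht d)⁻¹ ≤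
        ∑ d ∈ A', ((Fintype.card k : ℝ) ^ ht d)⁻¹ := by
  classical
  have hfin : ∀ (d : RatFunc k) (i : ℕ),
      {x | x ∈ Lay e i ∧ IsCoprime x.2 d.denom ∧ sg x.2 ≤ s}.Finite :=
    fun d i => (fin_lay e i).subset fun x hx => hx.1
  let T : Finset (Σ _ : RatFunc k, Σ _ : ℕ, k[X] × k[X]) :=
    A.sigma fun d => (I (ht d)).sigma fun i => (hfin d i).toFinset
  have hT : ∀ z ∈ T, z.1 ∈ A ∧ z.2.1 ∈ I (ht z.1) ∧ z.2.2 ∈ Lay e z.2.1 ∧
      IsCoprime z.2.2.2 z.1.denom ∧ sg z.2.2.2 ≤ s := by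
    intro z hz
    obtain ⟨h1, h2⟩ := Finset.mem_sigma.1 hz
    obtain ⟨h3, h4⟩ := Finset.mem_sigma.1 h2
    exact ⟨h1, h3, (hfin _ _).mem_toFinset.1 h4⟩
  have hq : (0 : ℝ) < Fintype.card k := by exact_mod_cast Fintype.card_pos
  refine ⟨T.image fun z => fr e z.2.2 + z.1, fun d hd => ?_, ?_⟩
  · obtain ⟨z, hz, rfl⟩ := Finset.mem_image.1 hd
    obtain ⟨h1, h2, h3, h4, h5⟩ := hT z hz
    obtain ⟨a1, a2, a3, -⟩ := hA _ h1
    refine ⟨CLow_red hp h3 h4 a1, CLow_hi h3 h4 a2, ?_, _, h1, _, h2, ht_add he h3 h4⟩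
    rw [den_add h3 h4]
    have := sg_mul_le h3.1.ne_zero (RatFunc.denom_ne_zero z.1) e
    linarith only [h5, a3, this]
  · rw [Finset.sum_image]
    · rw [Finset.sum_congr (s₁ := T) rfl (g := fun z =>
        ((Fintype.card k : ℝ) ^ ((e + 1) * z.2.1))⁻¹ * ((Fintype.card k : ℝ) ^ ht z.1)⁻¹),
        Finset.sum_sigma, Finset.mul_sum]
      · refine Finset.sum_le_sum fun d hd => ?_
        obtain ⟨-, -, a3, a4, a5⟩ := hA d hd
        have hw : (0 : ℝ) ≤ ((Fintype.card k : ℝ) ^ ht d)⁻¹ := by positivity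
        rw [Finset.sum_sigma]
        calc c * κ * ((Fintype.card k : ℝ) ^ ht d)⁻¹
            ≤ ∑ _i ∈ I (ht d), c * ((Fintype.card k : ℝ) ^ ht d)⁻¹ := by
              rw [Finset.sum_const, nsmul_eq_mul, ← mul_assoc, mul_comm _ c]
              exact mul_le_mul_of_nonneg_right
                (mul_le_mul_of_nonneg_left (by exact_mod_cast a4) hc) hw
          _ ≤ _ := by
              refine Finset.sum_le_sum fun i hi => ?_
              have h1 := H i (a5 i hi).1 d.denom (RatFunc.denom_ne_zero d) (a3.trans hσ)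
                (den_le_ht.trans (a5 i hi).2)
              rw [Set.ncard_eq_toFinset_card _ (hfin d i)] at h1
              dsimp only
              rw [Finset.sum_const, nsmul_eq_mul, ← mul_assoc]
              refine mul_le_mul_of_nonneg_right ?_ hw
              rwa [← div_eq_mul_inv, le_div_iff₀ (by positivity)]
      · intro z hz
        obtain ⟨-, -, h3, h4, -⟩ := hT z hz
        rw [ht_add he h3 h4, pow_add, mul_inv]
    · rintro ⟨d, i, x⟩ hz ⟨d', i', x'⟩ hz' h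
      obtain ⟨h1, -, h3, h4, -⟩ := hT _ hz
      obtain ⟨h1', -, h3', h4', -⟩ := hT _ hz'
      obtain ⟨rfl, rfl⟩ := fr_inj he h3 h3' h4 h4' (hA _ h1).2.1 (hA _ h1').2.1 h
      obtain rfl : i = i' := h3.2.2.1.symm.trans h3'.2.2.1
      rfl

theorem CLow_ind (h3 : 3 ≤ p) {c : ℝ} (hc : 0 ≤ c) {i0 : ℕ}
    (H : ∀ e, 1 ≤ e → ∀ i ≥ i0, ∀ R : k[X], R ≠ 0 → sg R ≤ 1 / 4 → R.natDegree ≤ i ^ 2 →
      c * (Fintype.card k : ℝ) ^ ((e + 1) * i) ≤
        {x | x ∈ Lay e i ∧ IsCoprime x.2 R ∧ sg x.2 ≤ 1 / (4 * (p : ℝ))}.ncard)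
    (N u : ℕ) (hu : i0 + p ^ 2 ≤ u) (j : ℕ) (hj : j + 2 ≤ p) :
    ∃ A : Finset (RatFunc k), (∀ d ∈ A, Red p d ∧ Hi (p - j) d ∧
      sg d.denom ≤ j * (1 / (4 * (p : ℝ))) ∧ ht d ≤ j * (4 * p * u) ∧
        (j + 2 = p → (ht d + N) % 2 = 0)) ∧
      (c * u) ^ j ≤ ∑ d ∈ A, ((Fintype.card k : ℝ) ^ ht d)⁻¹ := by
  induction j with
  | zero =>
    refine ⟨{0}, fun d hd => ?_, by simp [ht_zero]⟩
    obtain rfl := Finset.mem_singleton.1 hd
    refine ⟨⟨fun P hP h => ?_, by simp⟩, fun P hP h => ?_, by simp [sg_one], by simp [ht_zero],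
      fun h => by omega⟩
    · rw [RatFunc.denom_zero] at h
      exact hP.2.not_isUnit (isUnit_of_dvd_one ((dvd_pow_self P (by omega)).trans h))
    · rw [RatFunc.denom_zero] at h
      exact absurd (isUnit_of_dvd_one h) hP.2.not_isUnit
  | succ j ih =>
    obtain ⟨A, hA, hS⟩ := ih (by omega)
    have hp0 : (0 : ℝ) < p := by exact_mod_cast (by omega : 0 < p)
    have hσ : (j : ℝ) * (1 / (4 * (p : ℝ))) ≤ 1 / 4 := by
      have : (j : ℝ) ≤ p := by exact_mod_cast (by omega : j ≤ p)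
      rw [mul_one_div, div_le_div_iff₀ (by positivity) (by norm_num)]
      linarith only [this]
    have hm : ∀ n i, i ∈ (Finset.Ico u (2 * u)).image (fun m => 2 * m + (n + N) % 2) →
        2 * u ≤ i ∧ i ≤ 4 * u ∧ (i + n + N) % 2 = 0 := by
      intro n i hi
      obtain ⟨m, hm, rfl⟩ := Finset.mem_image.1 hi
      rw [Finset.mem_Ico] at hm
      omega
    obtain ⟨A', hA', hS'⟩ := low_step (p := p) hc (e := p - (j + 1)) (by omega) (by omega)
      (H _ (by omega)) hσ A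
      (fun n => (Finset.Ico u (2 * u)).image fun m => 2 * m + (n + N) % 2) u (by
        intro d hd
        obtain ⟨a1, a2, a3, a4, -⟩ := hA d hd
        refine ⟨a1, by rwa [show p - (j + 1) + 1 = p - j by omega], a3, ?_, fun i hi => ?_⟩
        · rw [Finset.card_image_of_injective _ fun a b h => by simpa using h, Nat.card_Ico]
          omega
        · obtain ⟨b1, -, -⟩ := hm _ _ hi
          refine ⟨by omega, a4.trans ?_⟩
          calc j * (4 * p * u) ≤ p * (4 * p * u) := Nat.mul_le_mul_right _ (by omega)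
            _ = 4 * u * p ^ 2 := by ring
            _ ≤ 4 * u * u := Nat.mul_le_mul_left _ (by omega)
            _ = (2 * u) ^ 2 := by ring
            _ ≤ i ^ 2 := Nat.pow_le_pow_left b1 2)
    refine ⟨A', fun d hd => ?_, ?_⟩
    · obtain ⟨a1, a2, a3, d', hd', i, hi, a4⟩ := hA' d hd
      obtain ⟨-, b2, b3⟩ := hm _ _ hi
      refine ⟨a1, a2, a3.trans_eq (by push_cast; ring), ?_, fun h => ?_⟩
      · have h1 : (p - (j + 1) + 1) * i ≤ p * (4 * u) := Nat.mul_le_mul (by omega) b2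
        have h2 := (hA d' hd').2.2.2.1
        calc ht d ≤ p * (4 * u) + j * (4 * p * u) := a4 ▸ Nat.add_le_add h1 h2
          _ = (j + 1) * (4 * p * u) := by ring
      · rw [show p - (j + 1) + 1 = 3 by omega] at a4
        omega
    · refine le_trans ?_ hS'
      rw [pow_succ']
      exact mul_le_mul_of_nonneg_left hS (by positivity)

variable (k) in
theorem lower (h3 : 3 ≤ p) : ∃ c : ℝ, 0 < c ∧ ∃ N0 : ℕ, ∀ N ≥ N0,
    c * ((Fintype.card k : ℝ) ^ N * (N : ℝ) ^ (p - 2)) ≤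
      {d : RatFunc k | Red p d ∧ ht d = N}.ncard := by
  have hp0 : (0 : ℝ) < p := by exact_mod_cast (by omega : 0 < p)
  have hq : (0 : ℝ) < Fintype.card k := by exact_mod_cast Fintype.card_pos
  obtain ⟨c, hc, i0, H⟩ := lev_lower k (s := 1 / (4 * (p : ℝ))) (by positivity)
  refine ⟨c * (c / (16 * p ^ 2)) ^ (p - 2), by positivity, (i0 + p ^ 2) * (8 * p ^ 2),
    fun N hN => ?_⟩
  have hpp : 9 ≤ p ^ 2 := by nlinarith only [h3]
  obtain ⟨u, hu⟩ : ∃ u, u = N / (8 * p ^ 2) := ⟨_, rfl⟩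
  have h1 : i0 + p ^ 2 ≤ u := hu ▸ (Nat.le_div_iff_mul_le (by omega)).2 hN
  have h2 : u * (8 * p ^ 2) ≤ N := hu ▸ Nat.div_mul_le_self _ _
  have h4 : N < (u + 1) * (8 * p ^ 2) :=
    (Nat.div_lt_iff_lt_mul (by omega)).1 (by omega)
  obtain ⟨A, hA, hS⟩ := CLow_ind h3 hc.le H N u h1 (p - 2) (by omega)
  have hb : ∀ d ∈ A, 2 * ht d ≤ N := by
    intro d hd
    calc 2 * ht d ≤ 2 * (p * (4 * p * u)) := Nat.mul_le_mul_left _
          ((hA d hd).2.2.2.1.trans (Nat.mul_le_mul_right _ (by omega)))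
      _ = u * (8 * p ^ 2) := by ring
      _ ≤ N := h2
  have h5 : 8 * u ≤ N := by nlinarith only [hN, hpp, h2]
  have hσ : ((p - 2 : ℕ) : ℝ) * (1 / (4 * (p : ℝ))) ≤ 1 / 4 := by
    have : ((p - 2 : ℕ) : ℝ) ≤ p := by exact_mod_cast Nat.sub_le p 2
    rw [mul_one_div, div_le_div_iff₀ (by positivity) (by norm_num)]
    linarith only [this]
  obtain ⟨A', hA', hS'⟩ := low_step (p := p) hc.le (e := 1) le_rfl (by omega) (H 1 le_rfl) hσ A
    (fun n => {(N - n) / 2}) 1 (by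
      intro d hd
      obtain ⟨a1, a2, a3, -, a5⟩ := hA d hd
      refine ⟨a1, by rwa [show p - (p - 2) = 1 + 1 by omega] at a2, a3, by simp, fun i hi => ?_⟩
      have b1 := Finset.mem_singleton.1 hi
      have b2 := hb d hd
      have b3 := a5 (by omega)
      have b4 : ht d ≤ 2 * i ∧ u ≤ i := by omega
      exact ⟨by omega, by nlinarith only [hpp, h1, b4, b4.1, b4.2]⟩)
  have hN' : ∀ d ∈ A', ht d = N := by
    intro d hd
    obtain ⟨-, -, -, d', hd', i, hi, a4⟩ := hA' d hd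
    have b1 := Finset.mem_singleton.1 hi
    have b2 := hb d' hd'
    have b3 := (hA d' hd').2.2.2.2 (by omega)
    omega
  have hcard : A'.card ≤ {d : RatFunc k | Red p d ∧ ht d = N}.ncard := by
    rw [← Set.ncard_coe_finset]
    exact Set.ncard_le_ncard (fun d hd => ⟨(hA' d hd).1, hN' d hd⟩)
      ((fin_ht N).subset fun d hd => hd.2)
  have hsum : ∑ d ∈ A', ((Fintype.card k : ℝ) ^ ht d)⁻¹ = A'.card / (Fintype.card k : ℝ) ^ N := by
    rw [Finset.sum_congr rfl fun d hd => by rw [hN' d hd], Finset.sum_const, nsmul_eq_mul,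
      div_eq_mul_inv]
  rw [hsum, Nat.cast_one, mul_one, le_div_iff₀ (by positivity)] at hS'
  have h6 : c / (16 * p ^ 2) * N ≤ c * u := by
    have : (N : ℝ) ≤ u * (16 * p ^ 2) := by
      exact_mod_cast (by nlinarith only [hN, hpp, h4] : N ≤ u * (16 * p ^ 2))
    rw [div_mul_eq_mul_div, div_le_iff₀ (by positivity), mul_assoc]
    exact mul_le_mul_of_nonneg_left this hc.le
  have h7 := (pow_le_pow_left₀ (by positivity) h6 (p - 2)).trans hS
  calc c * (c / (16 * p ^ 2)) ^ (p - 2) * ((Fintype.card k : ℝ) ^ N * (N : ℝ) ^ (p - 2))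
      = c * (c / (16 * p ^ 2) * N) ^ (p - 2) * (Fintype.card k : ℝ) ^ N := by
        rw [mul_pow]
        ring
    _ ≤ (A'.card : ℝ) := le_trans (mul_le_mul_of_nonneg_right
        (mul_le_mul_of_nonneg_left h7 hc.le) (by positivity)) hS'
    _ ≤ _ := by exact_mod_cast hcard

end Pool.Agent.ASel
end

-- merged part: Pool.Agent.Work.MP_60d5ce_nt.AG.CFld
section
/-!
# From classes to fields

PLAN.  `as_field`: every `σ` moves `δ`, `δ'` by natural numbers (`Wp_fix`).  If all `σ` fix `δ` they fix `δ' ∈ K(δ)`, so `δ' ∈ K`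
(`InfiniteGalois.mem_range_algebraMap_iff_fixed`), `m = 0`.  Otherwise a power `σ0` of some `σ` has `σ0 δ = δ + 1`, `σ0 δ' = δ' + m`,
and `δ' - m δ` is fixed by `σ0` and by the stabiliser of `δ`, so by everything (compare `LatE_one`, `LatT_fix` in `AS`).
`asx_fin`, `asx_upper`: the infimum in `cond` is attained (`Nat.sInf_mem`); choose for `L` a pair `(d, δ)`; the class of `d`
determines `L` (`δ - δ' - y` is a natural number), and `d + y ^ p - y` has the root `δ + y`, that generates the same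
field; `cond p d = 0` if `d = y ^ p - y` (`ht_zero`, take `-y`).  `asx_lower`: each `d` has a root `δ` in the separably closed `Ω`,
`red_cond`; by `as_field` and `red_inj` a fibre of `d ↦ K(δ)` lies in `{m d : m < p}`.
`as_count`: `1 - ratio = #bad / #all ≤ ε q ^ N N ^ (p-2) / (c q ^ N N ^ (p-2) / p)`.
-/

namespace Pool.Agent.ASel

open Polynomial Filter Pool.Agent.Smith Pool.Agent.ASW
open scoped IntermediateField Topology

variable {k : Type} [Field k] {p : ℕ} [hp : Fact p.Prime] [CharP k p] {Ω : Type} [Field Ω]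
  [Algebra (RatFunc k) Ω] [IsSepClosure (RatFunc k) Ω]

section gen

variable {K M : Type} [Field K] [Field M] [Algebra K M]

omit hp in
theorem CFld_same {σ τ : M ≃ₐ[K] M} {δ x : M} (h : σ δ = τ δ) (hx : x ∈ K⟮δ⟯) : σ x = τ x := by
  induction hx using IntermediateField.adjoin_induction with
  | mem x hx => rwa [Set.mem_singleton_iff.1 hx]
  | algebraMap x => simp
  | add x y _ _ a b => simp [a, b]
  | inv x _ a => simp [a]
  | mul x y _ _ a b => simp [a, b]

theorem CFld_mv [CharP M p] {x : M} {c : K} (h : x ^ p - x = algebraMap K M c) (τ : M ≃ₐ[K] M) :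
    (τ x - x) ^ p = τ x - x := by
  have h1 := congrArg τ h
  rw [map_sub, map_pow, AlgEquiv.commutes, ← h] at h1
  rw [sub_pow_char]
  linear_combination h1

omit hp in
theorem CFld_it {τ : M ≃ₐ[K] M} {x : M} {c : ℕ} (h : τ x - x = c) (n : ℕ) :
    (τ ^ n) x = x + n * c := by
  induction n with
  | zero => simp
  | succ n ih =>
    rw [pow_succ', AlgEquiv.mul_apply, ih, map_add, map_mul, map_natCast, map_natCast]
    push_cast
    linear_combination h

omit hp in
theorem CFld_add (δ : M) (y : K) : K⟮δ + algebraMap K M y⟯ = K⟮δ⟯ := by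
  have key : ∀ (δ : M) (y : K), K⟮δ + algebraMap K M y⟯ ≤ K⟮δ⟯ := fun δ y =>
    IntermediateField.adjoin_simple_le_iff.2
      (add_mem (IntermediateField.mem_adjoin_simple_self K δ) (IntermediateField.algebraMap_mem _ y))
  exact le_antisymm (key δ y) (by simpa using key (δ + algebraMap K M y) (-y))

end gen

theorem as_field {d d' : RatFunc k} {δ δ' : Ω} (h : δ ^ p - δ = algebraMap _ _ d)
    (h' : δ' ^ p - δ' = algebraMap _ _ d') (hm : δ' ∈ (RatFunc k)⟮δ⟯) :
    ∃ (m : ℕ) (y : RatFunc k), m < p ∧ d' = m * d + (y ^ p - y) := by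
  have := charP_of_injective_algebraMap (algebraMap (RatFunc k) Ω).injective p
  obtain ⟨m, h1⟩ : ∃ m : ℕ, ∀ σ : Ω ≃ₐ[RatFunc k] Ω, σ δ' - δ' = m * (σ δ - δ) := by
    by_cases h0 : ∀ σ : Ω ≃ₐ[RatFunc k] Ω, σ δ = δ
    · exact ⟨0, fun σ => by rw [CFld_same (τ := 1) (h0 σ) hm]; simp⟩
    obtain ⟨τ, h0⟩ := not_forall.1 h0
    obtain ⟨a, ha⟩ := Wp_fix (CFld_mv h τ)
    obtain ⟨b, hb⟩ := Wp_fix (CFld_mv h' τ)
    have a0 : τ δ - δ ≠ 0 := sub_ne_zero.2 h0
    obtain ⟨m, e⟩ := Wp_fix (p := p) (x := (τ δ' - δ') / (τ δ - δ))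
      (by rw [div_pow, CFld_mv h, CFld_mv h'])
    refine ⟨m, fun σ => ?_⟩
    obtain ⟨n, e'⟩ := Wp_fix (p := p) (x := (σ δ - δ) / (τ δ - δ))
      (by rw [div_pow, CFld_mv h, CFld_mv h])
    rw [div_eq_iff a0] at e e'
    rw [CFld_same (τ := τ ^ n) (by rw [CFld_it ha, ← ha, ← e', add_sub_cancel]) hm, CFld_it hb,
      ← hb, e, e']
    ring
  obtain ⟨y, hy⟩ := (InfiniteGalois.mem_range_algebraMap_iff_fixed (k := RatFunc k)
    (δ' - m * δ)).2 fun σ => by
      rw [map_sub, map_mul, map_natCast]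
      linear_combination h1 σ
  refine ⟨m % p, y, Nat.mod_lt _ hp.out.pos, (algebraMap (RatFunc k) Ω).injective ?_⟩
  have e : (m : Ω) ^ p = m := by rw [← frobenius_def, map_natCast]
  rw [← CharP.cast_eq_mod, map_add, map_mul, map_sub, map_pow, map_natCast, hy, ← h, ← h',
    sub_pow_char, mul_pow, e]
  ring

variable [Fintype k]

omit [Fintype k] in
theorem CFld_cls {d d' : RatFunc k} {δ δ' : Ω} (h : δ ^ p - δ = algebraMap _ _ d)
    (h' : δ' ^ p - δ' = algebraMap _ _ d') (e : (d : RatFunc k ⧸ wpK k p) = d') :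
    (RatFunc k)⟮δ'⟯ = (RatFunc k)⟮δ⟯ := by
  have := charP_of_injective_algebraMap (algebraMap (RatFunc k) Ω).injective p
  obtain ⟨y, rfl⟩ := mk_eq.1 e
  obtain ⟨m, hm⟩ := Wp_fix (p := p) (x := δ' - δ - algebraMap _ Ω y) (by
    rw [map_add, map_sub, map_pow] at h'
    rw [sub_pow_char, sub_pow_char]
    linear_combination h' - h)
  rw [← CFld_add δ (y + m), map_add, map_natCast, ← hm]
  congr 2
  ring

omit [Fintype k] in
variable (k p Ω) in
theorem CFld_root : ∃ r : RatFunc k → Ω, ∀ d, r d ^ p - r d = algebraMap _ _ d := by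
  have := charP_of_injective_algebraMap (algebraMap (RatFunc k) Ω).injective p
  have := IsSepClosure.sep_closed (RatFunc k) (K := Ω)
  refine Classical.skolem (p := fun d δ => δ ^ p - δ = algebraMap (RatFunc k) Ω d).1 fun d => ?_
  obtain ⟨x, hx⟩ := IsSepClosed.exists_root_C_mul_X_pow_add_C_mul_X_add_C' p p (1 : Ω) (-1)
    (-algebraMap _ _ d) dvd_rfl hp.out.two_le (by simp)
  exact ⟨x, by linear_combination hx⟩

omit [Fintype k] in
theorem CFld_ht (d : RatFunc k) :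
    ∃ d' : RatFunc k, ht d' = cond p d ∧ (d' : RatFunc k ⧸ wpK k p) = d := by
  obtain ⟨y, hy⟩ := Nat.sInf_mem (s := {n | ∃ y, ht (d + (y ^ p - y)) = n}) ⟨_, 0, rfl⟩
  exact ⟨_, hy, (mk_eq.2 ⟨y, rfl⟩).symm⟩

theorem asx_fin (N : ℕ) : (ASx k p Ω N).Finite := by
  obtain ⟨r, hr⟩ := CFld_root k p Ω
  refine ((fin_ht N).image fun d => (RatFunc k)⟮r d⟯).subset ?_
  rintro _ ⟨d, δ, h, rfl, rfl⟩
  obtain ⟨d', h1, h2⟩ := CFld_ht (p := p) d
  exact ⟨d', h1, CFld_cls h (hr d') h2.symm⟩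

theorem asx_lower (N : ℕ) :
    {d : RatFunc k | Red p d ∧ ht d = N}.ncard ≤ p * (ASx k p Ω N).ncard := by
  classical
  obtain ⟨r, hr⟩ := CFld_root k p Ω
  have hf : {d : RatFunc k | Red p d ∧ ht d = N}.Finite := (fin_ht N).subset fun _ h => h.2
  rw [Set.ncard_eq_toFinset_card _ hf, Set.ncard_eq_toFinset_card _ (asx_fin N)]
  refine Finset.card_le_mul_card_image_of_maps_to (f := fun d => (RatFunc k)⟮r d⟯)
    (fun d hd => ?_) p fun L _ => ?_
  · rw [Set.Finite.mem_toFinset] at hd ⊢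
    exact ⟨d, r d, hr d, (red_cond hd.1).trans hd.2, rfl⟩
  · rcases (hf.toFinset.filter fun d => (RatFunc k)⟮r d⟯ = L).eq_empty_or_nonempty with e | ⟨d, hd⟩
    · simp [e]
    refine (Finset.card_le_card (t := (Finset.range p).image fun m : ℕ => m * d) fun d' hd' => ?_).trans
      (Finset.card_image_le.trans (Finset.card_range p).le)
    rw [Finset.mem_filter, Set.Finite.mem_toFinset] at hd hd'
    obtain ⟨m, y, h1, h2⟩ := as_field (hr d) (hr d')
      ((hd'.2.trans hd.2.symm).le (IntermediateField.mem_adjoin_simple_self _ _))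
    exact Finset.mem_image.2 ⟨m, Finset.mem_range.2 h1, (red_inj hd.1.1 hd'.1.1 h2).symm⟩

theorem asx_upper {Bad : RatFunc k → Prop} {Good : IntermediateField (RatFunc k) Ω → Prop}
    (h : ∀ (d : RatFunc k) (δ : Ω), (∀ y, y ^ p - y ≠ d) → ¬ Bad d →
      δ ^ p - δ = algebraMap _ _ d → Good (RatFunc k)⟮δ⟯) {N : ℕ} (hN : 1 ≤ N) :
    {L | L ∈ ASx k p Ω N ∧ ¬ Good L}.ncard ≤
      {c : RatFunc k ⧸ wpK k p | (∃ d : RatFunc k, ht d = N ∧ (d : RatFunc k ⧸ wpK k p) = c) ∧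
        ∀ d : RatFunc k, (d : RatFunc k ⧸ wpK k p) = c → Bad d}.ncard := by
  obtain ⟨r, hr⟩ := CFld_root k p Ω
  have hf : {c : RatFunc k ⧸ wpK k p | (∃ d : RatFunc k, ht d = N ∧
      (d : RatFunc k ⧸ wpK k p) = c) ∧
        ∀ d : RatFunc k, (d : RatFunc k ⧸ wpK k p) = c → Bad d}.Finite :=
    ((fin_ht N).image _).subset fun _ h => h.1
  refine (Set.ncard_le_ncard ?_ (hf.image fun c => (RatFunc k)⟮r c.out⟯)).trans
    (Set.ncard_image_le hf)
  rintro _ ⟨⟨d, δ, h1, rfl, rfl⟩, h2⟩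
  refine ⟨d, ⟨CFld_ht d, fun d' e => by_contra fun hb => h2 ?_⟩,
    CFld_cls h1 (hr _) (QuotientAddGroup.out_eq' _).symm⟩
  rw [CFld_cls (hr d') h1 e]
  refine h d' _ (fun y hy => ?_) hb (hr d')
  obtain ⟨w, hw⟩ := mk_eq.1 (e.symm.trans
    ((mk_eq (d := 0)).2 ⟨y, by rw [zero_add, hy]⟩).symm)
  exact hN.not_gt (Nat.lt_succ_of_le (Nat.sInf_le ⟨w, by rw [← hw, ht_zero]⟩))

theorem as_count (h3 : 3 ≤ p) {G : k[X]} (hG : G ≠ 0) {Bad : RatFunc k → Prop} (hU : Unif p G Bad)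
    {Good : IntermediateField (RatFunc k) Ω → Prop}
    (h : ∀ (d : RatFunc k) (δ : Ω), (∀ y, y ^ p - y ≠ d) → ¬ Bad d →
      δ ^ p - δ = algebraMap _ _ d → Good (RatFunc k)⟮δ⟯) :
    Tendsto (fun N : ℕ => ({L | L ∈ ASx k p Ω N ∧ Good L}.ncard : ℝ) / ((ASx k p Ω N).ncard : ℝ))
      atTop (𝓝 1) := by
  obtain ⟨c, hc, N1, h1⟩ := lower k h3
  have p0 : (0 : ℝ) < p := Nat.cast_pos.2 hp.out.pos
  refine Metric.tendsto_atTop.2 fun ε hε => ?_
  obtain ⟨N2, h2⟩ := upper h3 hG hU (ε := ε * c / (2 * p)) (by positivity)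
  refine ⟨max 1 (max N1 N2), fun N hN => ?_⟩
  simp only [ge_iff_le, max_le_iff] at hN
  have a1 := (h1 N hN.2.1).trans (Nat.cast_le.2 (asx_lower (Ω := Ω) N))
  have a2 := (Nat.cast_le.2 (asx_upper h hN.1)).trans (h2 N hN.2.2)
  have a3 : ({L | L ∈ ASx k p Ω N ∧ Good L}.ncard : ℝ) +
      {L | L ∈ ASx k p Ω N ∧ ¬ Good L}.ncard = (ASx k p Ω N).ncard := by
    exact_mod_cast Set.ncard_inter_add_ncard_sdiff_eq_ncard _ {L | Good L} (asx_fin N)
  have a4 : (0 : ℝ) < (Fintype.card k : ℝ) ^ N * (N : ℝ) ^ (p - 2) := by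
    have : (0 : ℝ) < N := Nat.cast_pos.2 hN.1
    positivity
  generalize (Fintype.card k : ℝ) ^ N * (N : ℝ) ^ (p - 2) = X at a1 a2 a4
  rw [Nat.cast_mul] at a1
  have a5 : (0 : ℝ) < (ASx k p Ω N).ncard := pos_of_mul_pos_right ((mul_pos hc a4).trans_le a1) p0.le
  rw [Real.dist_eq, div_sub_one a5.ne', eq_sub_of_add_eq a3,
    sub_sub_cancel_left, neg_div, abs_neg, abs_of_nonneg (by positivity), div_lt_iff₀ a5]
  have a6 := mul_le_mul_of_nonneg_left a1 (by positivity : 0 ≤ ε / (2 * p))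
  have a7 : ε / (2 * p) * (p * (ASx k p Ω N).ncard) = ε * (ASx k p Ω N).ncard / 2 := by field_simp
  have a8 : ε * c / (2 * p) * X = ε / (2 * p) * (c * X) := by ring
  linarith only [a2, a6, a7, a8, hε, a5, mul_pos hε a5]

end Pool.Agent.ASel
end
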