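import Pool.Agent.Work.MP_60d5ce_nt.AG.FNd
import Pool.Agent.Work.MP_60d5ce_nt.AS.SFam
import Mathlib
import Pool.Agent.Work.MP_60d5ce_nt.AS.WMain

-- merged part: Pool.Agent.Work.MP_60d5ce_nt.AG.FRep
section
/-!
# Classes of a lattice as families of cocycles  (AS, function field side)

PLAN.  `k2_eqv`, `eqv_k2`: `σ * γ g` and `γ (g + ρ)` differ by an automorphism fixing all `w l` (note `γ g` maps such automorphisms to such by conjugation, `exists_rho`).  `approx`: `Eqv.poly` over `Lv v` gives coefficients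
`c v m ∈ Lv v`; `pf_many` for each `m`; `eqv_mon`.  `eqv_near`: let `H` be the subgroup of the `ρ` that come from a local automorphism `τ ρ`; with `o g = Quotient.out (mk g)` put `y' g = τ (g - o g) (y (o g))`.
`exists_repF`: take `Rep u a w`; `T` the finite set of the `v ∈ InU` where some `γ g a`, `γ g w` is not integral (`fin_nonint`); for `v ∈ T` use `LatD.good` with `j = (emb v).comp (γ g)`; `τ (y g) - y (g + ρ)` is integral by `wp_int`;
`eqv_near`, `approx` give `Y`; replace `(a, w)` by `(a - ℘ Y, w + φ Y ϖ)` (`LatD.cob` with `-Y 0`); the local components come from `LatD.na` and `eqv_of_wp` (`na_root`); `D1_eq_zero`, `LatD.act`.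
`repF_zero`: `LatD.uniq`, `wp_int`, `wp_fix_zero`.  `repF_ker`: `LatD.cob`, `LatD.ker`.
-/

set_option linter.unusedSectionVars false

namespace Pool.Agent.ASel

open Polynomial Pool.Agent.Smith Finset

variable {p : ℕ} {k : Type} [Field k] [Fintype k] [hp : Fact p.Prime] [CharP k p] {ι : Type}
  {A F b : k[X]} {n0 : ℕ} {ϖ : RatFunc k} {ε : ℤ} {Φ : ASF p k ι}

theorem FRep_same {F M : Type} [Field F] [Field M] [Algebra F M] {w : ι → M} {x : M}
    (hx : ∀ τ : M ≃ₐ[F] M, (∀ l, τ (w l) = w l) → τ x = x) {σ σ' : M ≃ₐ[F] M}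
    (h : ∀ l, σ (w l) = σ' (w l)) : σ x = σ' x :=
  σ'.symm_apply_eq.1 (hx (σ'⁻¹ * σ) fun l => σ'.symm_apply_eq.2 (h l))

theorem FRep_neg {M : Type} [Field M] [CharP M p] (y : M) : (-y) ^ p = -y ^ p := by
  rw [neg_pow, neg_one_pow_char, neg_one_mul]

/-- the valuation ring -/
def FRep_O (v : Pl k) : Subring (Lb v) where
  carrier := {x | nm v x ≤ 1}
  mul_mem' ha hb := (map_mul (nm v) _ _).trans_le (mul_le_one₀ ha (apply_nonneg _ _) hb)
  one_mem' := (map_one (nm v)).le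
  add_mem' ha hb := (nm_na v _ _).trans (max_le ha hb)
  zero_mem' := (map_zero (nm v)).trans_le zero_le_one
  neg_mem' {x} ha := ((nm v).map_neg x).trans_le ha

theorem FRep_phi {v : Pl k} {a y : Lb v} (ha : nm v a = 1) (hy : y ∈ FRep_O v) :
    y ^ p / a ∈ FRep_O v := by
  rw [div_eq_mul_inv]
  exact mul_mem (pow_mem hy p) (show nm v a⁻¹ ≤ 1 by rw [map_inv₀, ha, inv_one])

theorem FRep_S0 {v : Pl k} (hv : InU F b v) : ¬ InS0 F v := fun h =>
  h.elim hv.1 fun h => hv.2 (h.mul_right b)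

theorem FRep_eqv {y : (ι → ZMod p) → Kb k} (hy : y ∈ Eqv p (RatFunc k) Φ.w) (A : k[X]) :
    (fun g => y g ^ p / pk _ A) ∈ Eqv p (RatFunc k) Φ.w := by
  have h := Eqv.mul (Eqv.pow hy p) (Eqv.alg (pk (RatFunc k) A)⁻¹)
  simp only [map_inv₀, ← div_eq_mul_inv] at h
  exact h

theorem FRep_pk (v : Pl k) (τ : Lb v ≃ₐ[Lv v] Lb v) (A : k[X]) : τ (pk _ A) = pk _ A := by
  rw [← alg_pk, τ.commutes]

theorem FRep_ne {M : Type} [Field M] {a : M} (h : ∀ t : M, t ^ (p - 1) ≠ a) : a ≠ 0 := fun e =>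
  h 0 (by rw [e, zero_pow (Nat.sub_pos_of_lt hp.out.one_lt).ne'])

theorem k2_eqv {x : Kb k} (hx : Φ.K2 x) : (fun g => Φ.γ g x) ∈ Eqv p (RatFunc k) Φ.w :=
  ⟨fun _ => om_act _ hx.1, fun σ ρ h g => FRep_same hx.2 (σ := σ * Φ.γ g) fun l => by
    rw [AlgEquiv.mul_apply, Φ.γ_w, Φ.γ_w, map_add, h, map_natCast, Pi.add_apply, FEq_add,
      add_right_comm, add_assoc]⟩

theorem eqv_k2 {f : (ι → ZMod p) → Kb k} (hf : f ∈ Eqv p (RatFunc k) Φ.w) (g : ι → ZMod p) :
    Φ.K2 (f g) ∧ ∀ h, Φ.γ h (f g) = f (g + h) :=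
  ⟨⟨hf.1 g, Eqv.fix hf g⟩, fun h => hf.2 _ h (Φ.γ_w h) g⟩

theorem eqv_near {v : Pl k} {w : ι → Lb v} (hw : ASr p (Lv v) w) (y : (ι → ZMod p) → Lb v)
    (h1 : ∀ g, y g ∈ Om (Lv v) (Lb v) ∧
      ∀ τ : Lb v ≃ₐ[Lv v] Lb v, (∀ l, τ (w l) = w l) → τ (y g) = y g)
    (h2 : ∀ (τ : Lb v ≃ₐ[Lv v] Lb v) (ρ : ι → ZMod p), (∀ l, τ (w l) = w l + ((ρ l).val : Lb v)) →
      ∀ g, nm v (τ (y g) - y (g + ρ)) ≤ 1) :
    ∃ y' ∈ Eqv p (Lv v) w, ∀ g, nm v (y' g - y g) ≤ 1 := by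
  let s : Setoid (ι → ZMod p) :=
    ⟨fun g g' => ∃ τ : Lb v ≃ₐ[Lv v] Lb v, ∀ l, τ (w l + ((g l).val : Lb v)) = w l + (g' l).val,
      fun _ => ⟨1, fun _ => rfl⟩, fun ⟨τ, h⟩ => ⟨τ.symm, fun l => τ.symm_apply_eq.2 (h l).symm⟩,
      fun ⟨τ, h⟩ ⟨τ', h'⟩ => ⟨τ' * τ, fun l => by rw [AlgEquiv.mul_apply, h, h']⟩⟩
  choose τ hτ using fun g => (Quotient.mk_out (s := s) g : ∃ τ : Lb v ≃ₐ[Lv v] Lb v, _)
  refine ⟨fun g => τ g (y (Quotient.mk s g).out), ⟨fun g => om_act _ (h1 _).1, fun σ ρ h g => ?_⟩,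
    fun g => ?_⟩
  · have e : ∀ l, σ (w l + ((g l).val : Lb v)) = w l + ((g + ρ) l).val := fun l => by
      rw [map_add, h, map_natCast, Pi.add_apply, FEq_add, add_right_comm, add_assoc]
    have e' : Quotient.mk s g = Quotient.mk s (g + ρ) := Quotient.sound ⟨σ, e⟩
    show (σ * τ g) _ = τ (g + ρ) (y (Quotient.mk s (g + ρ)).out)
    rw [← e']
    refine FRep_same (h1 _).2 fun l => ?_
    have e1 := ((congrArg σ (hτ g l)).trans (e l)).trans (hτ (g + ρ) l).symm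
    rw [← e', map_add, map_add, map_add, map_natCast, map_natCast, map_natCast] at e1
    exact add_right_cancel e1
  · have e := h2 (τ g) (g - (Quotient.mk s g).out) (fun l => ?_) (Quotient.mk s g).out
    · rwa [add_sub_cancel] at e
    · have e1 := hτ g l
      rw [map_add, map_natCast] at e1
      rw [eq_sub_of_add_eq e1, Pi.sub_apply, FEq_val, FEq_val, FEq_val, map_sub, add_sub_assoc]

variable [Fintype ι]

theorem approx (T : Finset (Pl k)) (y : ∀ v : Pl k, (ι → ZMod p) → Lb v)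
    (hy : ∀ v ∈ T, y v ∈ Eqv p (Lv v) fun l => emb v (Φ.w l)) :
    ∃ Y ∈ Eqv p (RatFunc k) Φ.w, ∀ v, (∀ l, nm v (emb v (Φ.w l)) ≤ 1) → ∀ g,
      (v ∈ T → nm v (emb v (Y g) - y v g) ≤ 1) ∧ (v ∉ T → nm v (emb v (Y g)) ≤ 1) := by
  classical
  choose! c hc using fun v hv => Eqv.poly (Φ.asr.emb v) (hy v hv)
  choose e e1 e2 _ using fun m => pf_many T fun v => c v m
  refine ⟨∑ m : ι → Fin p, fun g => algebraMap _ _ (e m) *
    ∏ l, (Φ.w l + ((g l).val : Kb k)) ^ (m l : ℕ), sum_mem fun m _ =>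
      Eqv.mul (Eqv.alg _) (eqv_mon Φ.asr _), fun v hv g => ?_⟩
  have h1 : ∀ m : ι → Fin p, ∏ l, (emb v (Φ.w l) + ((g l).val : Lb v)) ^ (m l : ℕ) ∈ FRep_O v :=
    fun m => prod_mem fun l _ => pow_mem (add_mem (hv l) (natCast_mem _ _)) _
  simp only [Finset.sum_apply, map_sum, map_mul, map_prod, map_pow, map_add, map_natCast, emb_algK]
  refine ⟨fun h => ?_, fun h => ?_⟩
  · rw [hc v h g, ← Finset.sum_sub_distrib]
    refine (FRep_O v).sum_mem fun m _ => ?_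
    rw [← sub_mul, ← map_sub]
    exact mul_mem ((nm_alg v _).trans_le ((norm_sub_rev _ _).trans_le (e1 m v h))) (h1 m)
  · exact (FRep_O v).sum_mem fun m _ =>
      mul_mem (((nm_alg v _).trans (norm_alg v _)).trans_le (e2 m v h)) (h1 m)

/-- the family `z` of cocycles represents the class of `u` -/
def RepF (L : LatD A F b n0 Φ ϖ ε) (D : LtD p A F b n0 Φ.d ϖ ε) (u : L.M)
    (z : (ι → ZMod p) → W1 k) : Prop :=
  z ∈ C1 A F b Φ ∧ (∀ g, D1 D (z g) = 0) ∧ L.Rep u (z 0).1 (z 0).2.1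

variable {L : LatD A F b n0 Φ ϖ ε} {D : LtD p A F b n0 Φ.d ϖ ε}

theorem RepF.sub {u u' : L.M} {z z' : (ι → ZMod p) → W1 k} (h : RepF L D u z) (h' : RepF L D u' z') :
    RepF L D (u - u') (z - z') :=
  ⟨sub_mem h.1 h'.1, fun g => by rw [Pi.sub_apply, map_sub, h.2.1, h'.2.1, sub_zero],
    L.sub h.2.2 h'.2.2⟩

theorem RepF.shift {u : L.M} {z : (ι → ZMod p) → W1 k} (h : RepF L D u z) (g : ι → ZMod p) :
    RepF L D (L.ac (Φ.γ g) u) fun g' => z (g' + g) := by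
  obtain ⟨⟨h1, h2, h3⟩, h4, h5⟩ := h
  refine ⟨⟨⟨Eqv.shift h1.1 g, fun v hv _ => h1.2 v hv _⟩, ⟨Eqv.shift h2.1 g,
    fun v hv _ => h2.2 v hv _⟩, fun v => ⟨Eqv.shift (h3 v).1 g, fun hv _ => (h3 v).2 hv _⟩⟩,
    fun _ => h4 _, ?_⟩
  have e := L.act (Φ.γ g) h5
  rwa [(eqv_k2 h1.1 0).2 g, (eqv_k2 h2.1 0).2 g] at e

theorem RepF.sigma {u : L.M} {z : (ι → ZMod p) → W1 k} (h : RepF L D u z) :
    RepF L D (L.ac Φ.σ0 u) z := by
  refine ⟨h.1, h.2.1, ?_⟩
  have e := L.act Φ.σ0 h.2.2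
  rwa [Eqv.fix h.1.1.1 0 _ Φ.σ_w, Eqv.fix h.1.2.1.1 0 _ Φ.σ_w] at e

variable (hT : Ty p A F ϖ ε) (hS : Stg A F b Φ)
include hT hS

theorem exists_repF (hD : ∀ u a w, L.Rep u a w → ∀ v, InS p A F b v →
    (rt v (emb v a), rt v (emb v w)) ∈ D.Lt v) (u : L.M) : ∃ z, RepF L D u z := by
  classical
  obtain ⟨a, w, h⟩ := L.ex u
  have ha := k2_eqv (L.mem h).1
  have hw := k2_eqv (L.mem h).2
  have hA : ∀ v, InU F b v → nm v (pk (Lb v) A) = 1 := fun v hv => nm_pk_one hT.dvd (FRep_S0 hv)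
  choose! y y1 y2 y3 using fun v (hv : InU F b v) g =>
    L.good (L.act (Φ.γ g) h) v hv.1 hv.2 (emb v)
  choose! y' y4 y5 using fun v (hv : InU F b v) =>
    eqv_near (Φ.asr.emb v) (y v) (y1 v hv) fun τ ρ hρ g => wp_int (p := p) (nm_na v) (hA v hv) (by
      have e := (Eqv.emb v ha).2 τ ρ hρ g
      have e1 : τ (emb v (Φ.γ g a) - (y v g ^ p / pk _ A - y v g)) ∈ FRep_O v :=
        (nm_iso v τ _).trans_le (y2 v hv g)
      have e2 := (FRep_O v).sub_mem (y2 v hv (g + ρ)) e1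
      rw [map_sub, map_sub, map_div₀, map_pow, FRep_pk, e, sub_sub_sub_cancel_left] at e2
      rwa [Wp_sub])
  have fin : {v | InU F b v ∧ ∃ g, 1 < nm v (emb v (Φ.γ g a)) ∨
      1 < nm v (emb v (Φ.γ g w))}.Finite :=
    (Set.finite_iUnion fun g => (fin_nonint (Φ.γ g a)).union (fin_nonint (Φ.γ g w))).subset
      fun v hv => Set.mem_iUnion.2 hv.2
  obtain ⟨Y, Y1, Y2⟩ := approx (Φ := Φ) fin.toFinset y' fun v hv => y4 v (fin.mem_toFinset.1 hv).1
  have int : ∀ v, InU F b v → ∀ g, emb v (Φ.γ g a - (Y g ^ p / pk _ A - Y g)) ∈ FRep_O v ∧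
      emb v (Φ.γ g w + Y g ^ p / pk _ A * algebraMap _ _ ϖ) ∈ FRep_O v := fun v hv g => by
    have h0 := Y2 v (fun l => root_le (Φ.hw l) le_rfl
      (hS.h_int l v (Or.inr fun c => hv.2 (c.mul_left F)))) g
    have hϖ : algebraMap (RatFunc k) (Lb v) ϖ ∈ FRep_O v :=
      (nm_algK v ϖ).trans_le (hT.int v (FRep_S0 hv))
    simp only [map_sub, map_add, map_mul, map_div₀, map_pow, emb_pk, AlgHom.commutes]
    by_cases c : v ∈ fin.toFinset
    · have e : emb v (Y g) - y v g ∈ FRep_O v := by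
        rw [← sub_add_sub_cancel _ (y' v g)]
        exact add_mem (h0.1 c) (y5 v hv g)
      have e1 := FRep_phi (p := p) (hA v hv) e
      have e2 := (FRep_O v).sub_mem (y2 v hv g) (sub_mem e1 e)
      have e3 := (FRep_O v).add_mem (y3 v hv g) (mul_mem e1 hϖ)
      rw [Wp_sub, sub_sub, add_sub_cancel] at e2
      rw [sub_pow_char, sub_div, sub_mul, add_assoc, add_sub_cancel] at e3
      exact ⟨e2, e3⟩
    · have e := h0.2 c
      have e1 := FRep_phi (p := p) (hA v hv) e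
      have e2 := not_or.1 fun c' => c (fin.mem_toFinset.2 ⟨hv, g, c'⟩)
      exact ⟨sub_mem (not_lt.1 e2.1) (sub_mem e1 e), add_mem (not_lt.1 e2.2) (mul_mem e1 hϖ)⟩
  have rep : ∀ g, L.Rep (L.ac (Φ.γ g) u) (Φ.γ g a - (Y g ^ p / pk _ A - Y g))
      (Φ.γ g w + Y g ^ p / pk _ A * algebraMap _ _ ϖ) := fun g => by
    have e := L.cob (L.act (Φ.γ g) h) (eqv_k2 (neg_mem Y1) g).1
    rwa [Pi.neg_apply, FRep_neg, neg_div, ← neg_sub', ← sub_eq_add_neg, neg_mul,
      sub_neg_eq_add] at e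
  have ha' := sub_mem ha (sub_mem (FRep_eqv Y1 A) Y1)
  have hw' := add_mem hw (Eqv.mul (FRep_eqv Y1 A) (Eqv.alg ϖ))
  choose! n n1 n2 using fun v (hv : InNa p A b v) g => L.na (rep g) v hv.1 hv.2.1 hv.2.2 (emb v)
  have hz : (fun g => (Φ.γ g a - (Y g ^ p / pk _ A - Y g),
      Φ.γ g w + Y g ^ p / pk _ A * algebraMap _ _ ϖ,
      fun v => if InNa p A b v then n v g else 0)) ∈ C1 A F b Φ := by
    refine ⟨⟨ha', fun v hv g => (int v hv g).1⟩, ⟨hw', fun v hv g => (int v hv g).2⟩,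
      fun v => ⟨?_, fun hv g => if_neg hv⟩⟩
    by_cases hv : InNa p A b v
    · simp only [if_pos hv]
      exact eqv_of_wp (Φ.asr.emb v) (FRep_ne (na_root hT.dvd hS.cop hv)) (na_root hT.dvd hS.cop hv)
        (Eqv.emb v ha') (fun g => (n1 v hv g).2) fun g => by rw [alg_pk]; exact n2 v hv g
    · simp only [if_neg hv]
      exact zero_mem _
  refine ⟨_, hz, fun g => (D1_eq_zero (C1_spl hS hz g)).2 ⟨L.coc (rep g), hD _ _ _ (rep g),
    fun v hv => ?_⟩, ?_⟩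
  · simp only [if_pos hv]
    exact n2 v hv g
  · have e := rep 0
    rwa [L.ac_triv _ u (Φ.γ_w0 0) fun l => by simp [Φ.γ_w]] at e

theorem repF_zero {z : (ι → ZMod p) → W1 k} (h : RepF L D 0 z) :
    ∃ y ∈ C0 F b Φ, ∀ g, z g = D0 p A b ϖ (y g) := by
  classical
  obtain ⟨hz, h4, h5⟩ := h
  obtain ⟨y, y1, y2, y3⟩ := L.uniq h5
  have e1 : ∀ g, (z g).1 = Φ.γ g y ^ p / pk _ A - Φ.γ g y := fun g => by
    have e := (eqv_k2 hz.1.1 0).2 g
    rw [zero_add, y2, map_sub, map_div₀, map_pow] at e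
    exact e.symm.trans (congrArg (_ / · - _) ((Φ.γ g).commutes _))
  have e2 : ∀ g, (z g).2.1 = -(Φ.γ g y ^ p / pk _ A * algebraMap _ _ ϖ) := fun g => by
    have e := (eqv_k2 hz.2.1.1 0).2 g
    rw [zero_add, y3, map_neg, map_mul, map_div₀, map_pow, AlgEquiv.commutes] at e
    exact e.symm.trans (congrArg (-(_ / · * _)) ((Φ.γ g).commutes _))
  have e3 : ∀ v g, emb v (z g).1 = emb v (Φ.γ g y) ^ p / pk _ A - emb v (Φ.γ g y) := fun v g => by
    rw [e1, map_sub, map_div₀, map_pow, emb_pk]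
  refine ⟨_, ⟨k2_eqv y1, fun v hv g => wp_int (p := p) (nm_na v) (nm_pk_one hT.dvd (FRep_S0 hv))
    (e3 v g ▸ hz.1.2 v hv g)⟩, fun g => Prod.ext (e1 g) (Prod.ext (e2 g) (funext fun v => ?_))⟩
  show _ = if InNa p A b v then emb v (Φ.γ g y) else 0
  split_ifs with hv
  · refine sub_eq_zero.1 (wp_fix_zero (Φ.asr.emb v) (FRep_ne (na_root hT.dvd hS.cop hv))
      (na_root hT.dvd hS.cop hv) (Eqv.fix (sub_mem (hz.2.2 v).1 (Eqv.emb v (k2_eqv y1))) g) ?_)
    rw [alg_pk, Wp_sub, ← e3, ← ((D1_eq_zero (C1_spl hS hz g)).1 (h4 g)).2.2 v hv, sub_self]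
  · exact (hz.2.2 v).2 hv g

theorem repF_ker {u : L.M} {y : (ι → ZMod p) → Kb k} (hy : y ∈ C0 F b Φ)
    (h : RepF L D u fun g => D0 p A b ϖ (y g)) : ∃ u', u = L.ac Φ.σ0 u' - u' := by
  have e : L.Rep u (y 0 ^ p / pk _ A - y 0 + _) (-(y 0 ^ p / pk _ A * algebraMap _ _ ϖ) - _) :=
    L.cob h.2.2 (eqv_k2 (neg_mem hy.1) 0).1
  rw [Pi.neg_apply, FRep_neg, neg_div, ← neg_sub', add_neg_cancel, neg_mul, sub_self] at e
  exact L.ker e

/-- goodness does not depend on the representative -/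
theorem repF_good {u : L.M} {a w : Kb k} (h : L.Rep u a w)
    (h1 : ∀ y, Φ.K2 y → a ≠ y ^ p / pk _ A - y) (h2 : ϖ = 0 → w ≠ 0)
    {z : (ι → ZMod p) → W1 k} (hz : RepF L D u z) {y : (ι → ZMod p) → Kb k} (hy : y ∈ C0 F b Φ)
    {x : W1 k} (hx : z 0 = D0 p A b ϖ (y 0) + x) :
    (∀ y0 : RatFunc k, x.1 ≠ algebraMap _ _ (y0 ^ p / pk _ A - y0)) ∧ (ϖ = 0 → x.2.1 ≠ 0) := by
  have e := L.sub h hz.2.2
  rw [sub_self, hx] at e
  obtain ⟨y1, k1, k2, k3⟩ := L.uniq e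
  have k2' : a - (y 0 ^ p / pk _ A - y 0 + x.1) = _ := k2
  have k3' : w - (-(y 0 ^ p / pk _ A * algebraMap _ _ ϖ) + x.2.1) = _ := k3
  refine ⟨fun y0 c => h1 (y1 + y 0 + algebraMap _ _ y0) ⟨add_mem (add_mem k1.1 (hy.1.1 0))
    (om_alg y0), fun σ hσ => ?_⟩ ?_, fun c c' => h2 c ?_⟩
  · rw [map_add, map_add, k1.2 σ hσ, Eqv.fix hy.1 0 σ hσ, σ.commutes]
  · rw [c, map_sub, map_div₀, map_pow] at k2'
    rw [Wp_add, Wp_add, ← k2', add_assoc]
    exact (sub_add_cancel _ _).symm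
  · simpa [c, c'] using k3'

end Pool.Agent.ASel
end

-- merged part: Pool.Agent.Work.MP_60d5ce_nt.AG.FLb
section
/-!
# The bad lines and the class map  (AS, function field side)

PLAN.  `bd_zero`: `y` is regular at `InU` (`wp_int`), the third components of `z` and `D0 y` lie in `Lv v` (`Eqv.const`) and solve the same equation (`D1_eq_zero`, `C1_spl`, `wp_fix_zero`, `na_root`).
`exists_bad`: the pairs `(κ, c')` with the three equations of `Bd` form a submodule `Γ`; the projection to `κ` is injective on `Γ` (`bd_zero`, `h3`), `Bad` is the image under the second projection.  If `c'` lies on both lines, with `κ, y` and `κ', y'`, then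
`(κ - κ') a ∈ ℘ k(t)` gives `κ = κ'` (multiply by the inverse), `y = y'` (`Ty.nr`), `2 κ w = 0`; one of the two signs is `1`, so `2 κ ϖ = 0`; `Gd` gives `κ = 0` (`Ty.five`).
`exists_j`: `j u = J z` for a chosen `RepF u z` (`exists_repF`); independent of the choice by `RepF.sub`, `repF_zero`.
-/

set_option linter.unusedSectionVars false

namespace Pool.Agent.ASel

open Polynomial Pool.Agent.Smith Finset

variable {p : ℕ} {k : Type} [Field k] [Fintype k] [hp : Fact p.Prime] [CharP k p] {ι : Type}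
  [Fintype ι] {A F b : k[X]} {n0 : ℕ} {ϖ : RatFunc k} {ε : ℤ} {Φ : ASF p k ι}
  (hT : Ty p A F ϖ ε) (hS : Stg A F b Φ)
include hT hS

theorem bd_zero {D : LtD p A F b n0 Φ.d ϖ ε} {z : W1 k} (h1 : (fun _ => z) ∈ C1 A F b Φ)
    (h2 : D1 D z = 0) {y : RatFunc k} (ha : z.1 = algebraMap _ _ (y ^ p / pk _ A - y))
    (hw : z.2.1 = -algebraMap _ _ (y ^ p / pk _ A * ϖ)) :
    (fun _ => algebraMap _ _ y) ∈ C0 F b Φ ∧ z = D0 p A b ϖ (algebraMap _ _ y) := by
  classical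
  have e1 : z.1 = algebraMap _ _ y ^ p / pk _ A - algebraMap (RatFunc k) (Kb k) y := by
    rw [ha, map_sub, map_div₀, map_pow]
    rfl
  have e2 : z.2.1 = -(algebraMap (RatFunc k) (Kb k) y ^ p / pk _ A * algebraMap _ _ ϖ) := by
    rw [hw, map_mul, map_div₀, map_pow]
    rfl
  have e3 : ∀ v, emb v z.1 = emb v (algebraMap (RatFunc k) (Kb k) y) ^ p / pk _ A -
      emb v (algebraMap (RatFunc k) (Kb k) y) := fun v => by
    rw [e1, map_sub, map_div₀, map_pow, emb_pk]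
  refine ⟨⟨Eqv.alg y, fun v hv g => wp_int (p := p) (nm_na v) (nm_pk_one hT.dvd (FRep_S0 hv))
    (e3 v ▸ h1.1.2 v hv g)⟩, Prod.ext e1 (Prod.ext e2 (funext fun v => ?_))⟩
  show _ = if InNa p A b v then emb v (algebraMap (RatFunc k) (Kb k) y) else 0
  split_ifs with hv
  · refine sub_eq_zero.1 (wp_fix_zero (Φ.asr.emb v) (FRep_ne (na_root hT.dvd hS.cop hv))
      (na_root hT.dvd hS.cop hv) (Eqv.fix (sub_mem (h1.2.2 v).1 (Eqv.emb v (Eqv.alg y))) 0) ?_)
    rw [alg_pk, Wp_sub, ← e3, ← ((D1_eq_zero (C1_spl hS h1 0)).1 h2).2.2 v hv, sub_self]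
  · exact (h1.2.2 v).2 hv 0

variable (p) in
/-- the three equations of `Bd` -/
def FLb_R (A : k[X]) (ϖ : RatFunc k) (s : ℤ) (a w : Kb k) (κ : ZMod p) (x : W1 k) : Prop :=
  ∃ y : RatFunc k, x.1 = κ.val * a + algebraMap _ _ (y ^ p / pk _ A - y) ∧
    x.2.1 = -(s * κ.val * w) - algebraMap _ _ (y ^ p / pk _ A * ϖ) ∧
      (κ.val : RatFunc k) * (1 + s) * ϖ = 0

omit hT hS in
theorem FLb_val {M : Type} [Field M] [CharP M p] (x y : ZMod p) :
    ((x - y).val : M) = x.val - y.val := by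
  simp only [FEq_val, map_sub]

omit hT hS in
theorem FLb_sub {s : ℤ} {a w : Kb k} {κ κ' : ZMod p} {x x' : W1 k} (h : FLb_R p A ϖ s a w κ x)
    (h' : FLb_R p A ϖ s a w κ' x') : FLb_R p A ϖ s a w (κ - κ') (x - x') := by
  obtain ⟨y, h1, h2, h3⟩ := h
  obtain ⟨y', k1, k2, k3⟩ := h'
  refine ⟨y - y', ?_, ?_, ?_⟩
  · rw [Prod.fst_sub, h1, k1, Wp_sub, map_sub (algebraMap _ _) (_ - y), FLb_val]
    ring
  · rw [Prod.snd_sub, Prod.fst_sub, h2, k2, sub_pow_char, sub_div, sub_mul, map_sub, FLb_val]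
    ring
  · rw [FLb_val]
    linear_combination h3 - k3

omit hS in
theorem FLb_both {s : ℤ} (hs : s * s = 1) {a w : Kb k} (hg : Gd p A ϖ a w) {κ κ' : ZMod p}
    {x : W1 k} (h : FLb_R p A ϖ s a w κ x) (h' : FLb_R p A ϖ (-s) a w κ' x) : κ = 0 := by
  obtain ⟨y, h1, h2, h3⟩ := h
  obtain ⟨y', k1, k2, k3⟩ := h'
  have e : ((κ - κ').val : Kb k) * a = algebraMap _ _ ((y' - y) ^ p / pk _ A - (y' - y)) := by
    rw [Wp_sub, map_sub (algebraMap _ _) (_ - y'), FLb_val]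
    linear_combination k1 - h1
  obtain rfl : κ = κ' := by
    refine sub_eq_zero.1 (by_contra fun h0 => hg.1 (((κ - κ')⁻¹.val : RatFunc k) * (y' - y)) ?_)
    have e1 : (((κ - κ')⁻¹).val : Kb k) * (κ - κ').val = 1 := by
      rw [FEq_val, FEq_val, ← map_mul, inv_mul_cancel₀ h0, map_one]
    rw [mul_pow, FEq_frob, mul_div_assoc, ← mul_sub, map_mul, ← e, map_natCast, ← mul_assoc, e1,
      one_mul]
  rw [sub_self, ZMod.val_zero, Nat.cast_zero, zero_mul, eq_comm, _root_.map_eq_zero] at e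
  obtain rfl : y' = y := by
    refine sub_eq_zero.1 (by_contra fun h0 => hT.nr (y' - y) ?_)
    have a0 : pk (RatFunc k) A ≠ 0 := FRep_ne hT.nr
    rw [sub_eq_zero, div_eq_iff a0, Wp_pow] at e
    exact mul_left_cancel₀ h0 e
  by_contra h0
  have two : ∀ (M : Type) [Field M] [CharP M p], (2 : M) * κ.val ≠ 0 := fun M _ _ => by
    refine mul_ne_zero (fun h2 => ?_) ?_
    · have := Nat.le_of_dvd two_pos ((CharP.cast_eq_zero_iff M p 2).1 (by exact_mod_cast h2))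
      have := hT.five
      omega
    · rw [FEq_val]
      exact (_root_.map_ne_zero _).2 h0
  have e1 : ϖ = 0 := (mul_eq_zero.1 (by
    push_cast at k3
    linear_combination h3 + k3)).resolve_left (two (RatFunc k))
  have e2 : ((s : Kb k)) * s = 1 := by exact_mod_cast congrArg (Int.cast : ℤ → Kb k) hs
  refine hg.2 e1 ((mul_eq_zero.1 ?_).resolve_left (two (Kb k)))
  rw [Int.cast_neg] at k2
  linear_combination (s : Kb k) * h2 - (s : Kb k) * k2 - 2 * κ.val * w * e2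

theorem exists_bad {D : LtD p A F b n0 Φ.d ϖ ε} {r : ℕ} (N : (Fin r → ZMod p) →+ W1 k)
    (h1 : ∀ c, (fun _ => N c) ∈ C1 A F b Φ) (h2 : ∀ c, D1 D (N c) = 0)
    (h3 : ∀ c y, (fun _ => y) ∈ C0 F b Φ → N c = D0 p A b ϖ y → c = 0) :
    ∃ Bad : ℕ → (Fin r → ZMod p) → Submodule (ZMod p) (Fin r → ZMod p),
      (∀ n c c', c' ∈ Bad n c ↔
        Bd p A ϖ (ε * (-1) ^ n) (N c).1 (N c).2.1 (N c').1 (N c').2.1) ∧
      (∀ n c, Module.finrank (ZMod p) (Bad n c) ≤ 1) ∧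
      ∀ n c, Gd p A ϖ (N c).1 (N c).2.1 → Bad n c ⊓ Bad (n + 1) c = ⊥ := by
  have z0 : ∀ s a w c', FLb_R p A ϖ s a w 0 (N c') → c' = 0 := by
    rintro s a w c' ⟨y, k1, k2, -⟩
    rw [ZMod.val_zero, Nat.cast_zero] at k1 k2
    rw [zero_mul, zero_add] at k1
    rw [mul_zero, zero_mul, neg_zero, zero_sub] at k2
    obtain ⟨k3, k4⟩ := bd_zero hT hS (h1 c') (h2 c') k1 k2
    exact h3 c' _ k3 k4
  obtain ⟨Γ, hΓ⟩ : ∃ Γ : ℤ → (Fin r → ZMod p) → Submodule (ZMod p) (ZMod p × (Fin r → ZMod p)),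
      ∀ s c x, x ∈ Γ s c ↔ FLb_R p A ϖ s (N c).1 (N c).2.1 x.1 (N x.2) := by
    refine ⟨fun s c => AddSubgroup.toZModSubmodule p (AddSubgroup.ofSub
      {x | FLb_R p A ϖ s (N c).1 (N c).2.1 x.1 (N x.2)} ⟨0, 0, ?_⟩ fun x hx y hy => ?_),
      fun s c x => Iff.rfl⟩
    · simp [hp.out.ne_zero]
    · have := FLb_sub hx hy
      rwa [← map_sub, sub_eq_add_neg, sub_eq_add_neg] at this
  refine ⟨fun n c => (Γ (ε * (-1) ^ n) c).map (LinearMap.snd _ _ _), fun n c c' => ?_,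
    fun n c => ?_, fun n c hg => ?_⟩
  · constructor
    · rintro ⟨x, hx, rfl⟩
      exact ⟨x.1, (hΓ _ _ _).1 hx⟩
    · rintro ⟨κ, h⟩
      exact ⟨(κ, c'), (hΓ _ _ _).2 h, rfl⟩
  · refine (Submodule.finrank_map_le _ _).trans ((LinearMap.finrank_le_finrank_of_injective
      (f := (LinearMap.fst _ _ _).comp (Γ (ε * (-1) ^ n) c).subtype) ?_).trans_eq
        (Module.finrank_self _))
    refine (injective_iff_map_eq_zero _).2 fun x hx => Subtype.ext (Prod.ext hx ?_)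
    have h4 := (hΓ _ _ _).1 x.2
    have h5 : x.1.1 = 0 := hx
    rw [h5] at h4
    exact z0 _ _ _ _ h4
  · refine eq_bot_iff.2 ?_
    rintro c' ⟨⟨x, hx, rfl⟩, x', hx', e⟩
    have h4 := (hΓ _ _ _).1 hx
    have h5 := (hΓ _ _ _).1 hx'
    have e' : x'.2 = x.2 := e
    rw [e', pow_succ, mul_neg_one, mul_neg] at h5
    have h6 : ε * (-1) ^ n * (ε * (-1) ^ n) = 1 := by
      rcases hT.sgn with h | h <;> rcases neg_one_pow_eq_or ℤ n with h' | h' <;> simp [h, h']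
    rw [FLb_both hT h6 hg h4 h5] at h4
    exact z0 _ _ _ _ h4

theorem exists_j {L : LatD A F b n0 Φ ϖ ε} {D : LtD p A F b n0 Φ.d ϖ ε}
    (hD : ∀ u a w, L.Rep u a w → ∀ v, InS p A F b v → (rt v (emb v a), rt v (emb v w)) ∈ D.Lt v)
    {V : Type} [AddCommGroup V] (J : ((ι → ZMod p) → W1 k) →+ V)
    (hJ : ∀ y ∈ C0 F b Φ, J (fun g => D0 p A b ϖ (y g)) = 0) :
    ∃ j : L.M →+ V, ∀ u z, RepF L D u z → j u = J z := by
  have key : ∀ u z z', RepF L D u z → RepF L D u z' → J z = J z' := fun u z z' h h' => by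
    have h1 := h.sub h'
    rw [sub_self] at h1
    obtain ⟨y, h2, h3⟩ := repF_zero hT hS h1
    rw [← sub_eq_zero, ← map_sub, funext h3]
    exact hJ y h2
  choose z hz using exists_repF hT hS hD
  refine ⟨AddMonoidHom.ofMapSub (f := fun u => J (z u)) fun u u' => ?_,
    fun u z' h => key u _ _ (hz u) h⟩
  rw [← map_sub]
  exact key _ _ _ (hz _) ((hz u).sub (hz u'))

end Pool.Agent.ASel
end

-- merged part: Pool.Agent.Work.MP_60d5ce_nt.AG.FLt
section
/-!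
# Local conditions attached to a lattice  (AS, function field side)

PLAN.  `Lt v` is the subgroup generated by (1) the coboundaries, (2) if `InS v`, the pairs `x` with image `(emb v a, emb v w)`, `Rep u a w`, (3) the pairs of `hi0` (if `InS0 v`) and of `hi1` (if `InAn v`).
All generators are cocycles (`cob_coc` over `Lv v` with `S = ⊤`, `LatD.coc`, `emb_cB`, `alg_cL`).  `thL` is biadditive and `thL x' x = ε • thL x x'`; a coboundary is orthogonal to every cocycle (`res_wp`);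
(2) with (2) is `LatD.iso`; (2) with (3): `et0`, `et1`, `res_wp`, `res_small`; (3) with (3): `thL = 0`.  `InS0` and `InAn` exclude each other (`not_S0_of_dvd`).  Over `ZMod p` choose a projection `P` onto `Lt v`
and a projection `PZ` onto the cocycles (`Submodule.exists_isCompl`, `LinearMap.exists_leftInverse_of_injective`), `Q = (1 - P) ∘ PZ`.
Elements of `K2` lie in `Lv v` at the places `InS` (`Stg.split`, `root_split`, `exists_rst`, `om_fix`).
-/

set_option linter.unusedSectionVars false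

namespace Pool.Agent.ASel

open Polynomial Pool.Agent.Smith Finset

variable {p : ℕ} {k : Type} [Field k] [Fintype k] [hp : Fact p.Prime] [CharP k p] {ι : Type}
  {A F b : k[X]} {n0 : ℕ} {ϖ : RatFunc k} {ε : ℤ} {Φ : ASF p k ι}

theorem FLt_proj {V : Type} [AddCommGroup V] [Module (ZMod p) V] (H : AddSubgroup V) :
    ∃ P : V →+ V, (∀ x, P x ∈ H) ∧ ∀ x ∈ H, P x = x := by
  obtain ⟨g, hg⟩ := (AddSubgroup.toZModSubmodule p H).subtype.exists_leftInverse_of_injective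
    (Submodule.ker_subtype _)
  exact ⟨((AddSubgroup.toZModSubmodule p H).subtype.comp g).toAddMonoidHom, fun x => (g x).2,
    fun x hx => congrArg Subtype.val (LinearMap.congr_fun hg ⟨x, hx⟩)⟩

theorem FLt_split (hS : Stg A F b Φ) {v : Pl k} (hv : InS p A F b v) {x : Kb k} (hx : Φ.K2 x) :
    algebraMap _ _ (rt v (emb v x)) = emb v x := by
  obtain ⟨ρ, hρ⟩ := exists_rst v (emb v)
  obtain ⟨a, ha⟩ := om_fix (emb_om v hx.1) fun τ => by
    rw [← hρ, hx.2 _ fun l => (emb v).injective ?_]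
    obtain ⟨s, h1, h2⟩ := hS.split l v hv
    obtain ⟨s', -, h3⟩ := root_split (p := p) (W := emb v (Φ.w l)) (s := s)
      (by rw [h2, ← emb_algK, ← Φ.hw, map_sub, map_pow]) h1
    exact (hρ τ _).trans (h3 ▸ τ.commutes s')
  rw [← ha, rt_alg]

/-- the generators -/
def FLt_G (L : LatD A F b n0 Φ ϖ ε) (v : Pl k) : Set (Lv v × Lv v) :=
  {x | (∃ y, x = (y ^ p / pk _ A - y, -(y ^ p / pk _ A * algebraMap _ _ ϖ))) ∨
    (InS p A F b v ∧ ∃ u a w, L.Rep u a w ∧ algebraMap _ _ x.1 = emb v a ∧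
      algebraMap _ _ x.2 = emb v w) ∨
    x.1 = 0 ∧ cL p v (x.2 / pk _ A) = x.2 ∧ (InS0 F v ∧ ‖uL v * x.2‖ * 2 ^ n0 < 1 ∨
      InAn p A b v ∧ ‖uL v * x.2‖ < 1 ∧
        ∀ t : Lv v, t ^ p / pk _ A - t = 0 → res p v (t * algebraMap _ _ Φ.d * x.2) = 0)}

theorem FLt_rel (L : LatD A F b n0 Φ ϖ ε) {v : Pl k} {B : ℝ} (hB : 0 ≤ B) {c : Lv v}
    (h : ∀ u a w, L.Rep u a w → ∃ y t : Lv v, t ^ p / pk _ A - t = 0 ∧
      nm v (emb v a - algebraMap _ _ (y ^ p / pk _ A - y + t * c)) ≤ B) :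
    ∀ x ∈ AddSubgroup.closure (FLt_G L v), ∃ y t : Lv v, t ^ p / pk _ A - t = 0 ∧
      ‖x.1 - (y ^ p / pk _ A - y + t * c)‖ ≤ B := by
  have h0 : (0 : Lv v) ^ p / pk _ A - 0 = 0 := by simp [hp.out.ne_zero]
  intro x hx
  induction hx using AddSubgroup.closure_induction with
  | mem x hx =>
    rcases hx with ⟨y, rfl⟩ | ⟨-, u, a, w, h1, h2, -⟩ | ⟨h1, -⟩
    · exact ⟨y, 0, h0, by simpa using hB⟩
    · obtain ⟨y, t, h3, h4⟩ := h u a w h1
      exact ⟨y, t, h3, by rwa [← h2, ← map_sub, nm_alg] at h4⟩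
    · exact ⟨0, 0, h0, by simpa [h0, h1] using hB⟩
  | zero => exact ⟨0, 0, h0, by simpa [h0] using hB⟩
  | add x x' _ _ h1 h2 =>
    obtain ⟨y, t, h3, h4⟩ := h1
    obtain ⟨y', t', h5, h6⟩ := h2
    refine ⟨y + y', t + t', by rw [Wp_add, h3, h5, add_zero], le_of_eq_of_le ?_ (Wp_add_le h4 h6)⟩
    rw [Wp_add, Prod.fst_add]
    exact congrArg _ (by ring)
  | neg x _ h1 =>
    obtain ⟨y, t, h3, h4⟩ := h1
    refine ⟨0 - y, 0 - t, by rw [Wp_sub, h3, h0, sub_zero], le_of_eq_of_le ?_ h4⟩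
    rw [Wp_sub, h0, Prod.fst_neg, ← norm_neg]
    exact congrArg _ (by ring)

theorem FLt_rel0 (L : LatD A F b n0 Φ ϖ ε) {v : Pl k} (hv : InS0 F v) :
    ∀ x ∈ AddSubgroup.closure (FLt_G L v), ∃ y : Lv v, ‖x.1 - (y ^ p / pk _ A - y)‖ ≤ 2 ^ n0 := by
  intro x hx
  obtain ⟨y, t, -, h⟩ := FLt_rel L (c := 0) (B := 2 ^ n0) (by positivity) (fun u a w h =>
    (L.et0 h v hv (emb v)).elim fun y hy => ⟨y, 0, by simp [hp.out.ne_zero], by
      rwa [mul_zero, add_zero]⟩) x hx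
  exact ⟨y, by rwa [mul_zero, add_zero] at h⟩

theorem FLt_rel1 (L : LatD A F b n0 Φ ϖ ε) {v : Pl k} (hv : InAn p A b v) :
    ∀ x ∈ AddSubgroup.closure (FLt_G L v), ∃ y t : Lv v, t ^ p / pk _ A - t = 0 ∧
      ‖x.1 - (y ^ p / pk _ A - y + t * algebraMap _ _ Φ.d)‖ ≤ 1 :=
  FLt_rel L zero_le_one fun _ _ _ h => L.et1 h v hv.1 hv.2.1 hv.2.2 (emb v)

variable (p A ϖ) in
/-- the local differential as an additive map -/
noncomputable def FLt_d (v : Pl k) : Lv v × Lv v →+ Lv v :=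
  AddMonoidHom.mk' (dL p A ϖ v) fun x y => by
    simp only [dL, Prod.fst_add, Prod.snd_add, add_div, map_add]
    ring

variable (p ϖ ε) in
/-- the pairing as an additive map -/
noncomputable def FLt_b (v : Pl k) (x' : Lv v × Lv v) : Lv v × Lv v →+ ZMod p :=
  (res p v).comp (AddMonoidHom.mk' (fun x => thL ϖ ε v x x') fun x y => by
    simp only [thL, Prod.fst_add, Prod.snd_add, zsmul_eq_mul]
    ring)

section
variable (hT : Ty p A F ϖ ε)
include hT

theorem FLt_A (v : Pl k) : pk (Lv v) A ≠ 0 :=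
  (_root_.map_ne_zero (algebraMap _ (Lv v))).2
    (RatFunc.algebraMap_ne_zero (ne_zero_of_dvd_ne_zero hT.F_ne hT.dvd))

theorem FLt_eps (v : Pl k) : ε • algebraMap _ (Lv v) ϖ = algebraMap _ _ ϖ := by
  rw [← map_zsmul, hT.eps]

theorem FLt_coc (L : LatD A F b n0 Φ ϖ ε) (v : Pl k) :
    AddSubgroup.closure (FLt_G L v) ≤ (FLt_d p A ϖ v).ker := by
  refine (AddSubgroup.closure_le _).2 fun x hx => show dL p A ϖ v x = 0 from ?_
  rcases hx with ⟨y, rfl⟩ | ⟨-, u, a, w, h1, h2, h3⟩ | ⟨h1, h2, -⟩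
  · refine cob_coc (cL p v) ⊤ (fun y _ f _ => cL_frob v y f) trivial (FLt_A hT v) trivial ?_
      (FLt_eps hT v) trivial
    have := congrArg (algebraMap _ (Lv v)) hT.car
    rwa [alg_cK, map_div₀, map_pow] at this
  · apply (algebraMap _ (Lb v)).injective
    have := congrArg (emb v) (L.coc h1)
    rw [map_add, map_sub, map_mul, emb_cB v (x := w / pk _ A) (div_mem (L.mem h1).2.1 (om_alg _)),
      map_div₀, emb_pk, emb_algK] at this
    rw [dL, map_add, map_sub, map_mul, alg_cL, map_div₀, alg_pk, h2, h3, this, map_zero, map_zero]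
  · rw [dL, h1, h2, sub_self, zero_mul, add_zero]

theorem FLt_sym {v : Pl k} {x x' : Lv v × Lv v} (h : res p v (thL ϖ ε v x x') = 0) :
    res p v (thL ϖ ε v x' x) = 0 := by
  have e := FLt_eps hT v
  have : thL ϖ ε v x' x = ε • thL ϖ ε v x x' := by
    have e2 : (ε : Lv v) * ε = 1 := by rcases hT.sgn with h | h <;> simp [h]
    simp only [thL, zsmul_eq_mul] at e ⊢
    linear_combination -x.1 * x'.1 * e - x'.1 * x.2 * e2
  rw [this, map_zsmul, h, smul_zero]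

theorem FLt_iso (L : LatD A F b n0 Φ ϖ ε) (v : Pl k) : ∀ x ∈ AddSubgroup.closure (FLt_G L v),
    ∀ x' ∈ AddSubgroup.closure (FLt_G L v), res p v (thL ϖ ε v x x') = 0 := by
  have k1 : ∀ (y : Lv v), ∀ x' ∈ FLt_G L v, res p v (thL ϖ ε v
      (y ^ p / pk _ A - y, -(y ^ p / pk _ A * algebraMap _ _ ϖ)) x') = 0 := fun y x' hx' => by
    have h1 : dL p A ϖ v x' = 0 := FLt_coc hT L v (AddSubgroup.subset_closure hx')
    have e := FLt_eps hT v
    have h2 : thL ϖ ε v (y ^ p / pk _ A - y, -(y ^ p / pk _ A * algebraMap _ _ ϖ)) x' =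
        (y ^ p / pk _ A - y) * x'.2 + y * (x'.2 - cL p v (x'.2 / pk _ A)) := by
      simp only [thL, dL, zsmul_eq_mul] at e h1 ⊢
      linear_combination -(x'.1 * (y ^ p / pk _ A)) * e - y * h1
    rw [h2, map_add, res_wp v (FLt_A hT v), neg_add_cancel]
  have k3 : ∀ x ∈ FLt_G L v, ∀ x' : Lv v × Lv v, x'.1 = 0 ∧ cL p v (x'.2 / pk _ A) = x'.2 ∧
      (InS0 F v ∧ ‖uL v * x'.2‖ * 2 ^ n0 < 1 ∨ InAn p A b v ∧ ‖uL v * x'.2‖ < 1 ∧
        ∀ t : Lv v, t ^ p / pk _ A - t = 0 → res p v (t * algebraMap _ _ Φ.d * x'.2) = 0) →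
      res p v (thL ϖ ε v x x') = 0 := by
    rintro x hx ⟨_, w⟩ ⟨rfl, h1, h2⟩
    have h3 : ∀ y c : Lv v, ‖uL v * w‖ * ‖x.1 - (y ^ p / pk _ A - y + c)‖ < 1 →
        res p v (c * w) = 0 → res p v (thL ϖ ε v x (0, w)) = 0 := fun y c h h' => by
      have : thL ϖ ε v x (0, w) = (x.1 - (y ^ p / pk _ A - y + c)) * w +
          (y ^ p / pk _ A - y) * w + c * w := by
        simp only [thL, zsmul_eq_mul]
        ring
      rw [this, map_add, map_add, h', res_wp v (FLt_A hT v), show cL p v (w / pk _ A) = w from h1,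
        res_small (by rwa [mul_left_comm, norm_mul, mul_comm])]
      simp
    rcases h2 with ⟨h4, h5⟩ | ⟨h4, h5, h6⟩
    · obtain ⟨y, hy⟩ := FLt_rel0 L h4 x (AddSubgroup.subset_closure hx)
      refine h3 y 0 (lt_of_le_of_lt ?_ h5) (by simp)
      rw [add_zero]
      gcongr
    · obtain ⟨y, t, ht, hy⟩ := FLt_rel1 L h4 x (AddSubgroup.subset_closure hx)
      exact h3 y _ ((mul_le_of_le_one_right (norm_nonneg _) hy).trans_lt h5) (h6 t ht)
  have k2 : ∀ x' ∈ FLt_G L v, AddSubgroup.closure (FLt_G L v) ≤ (FLt_b p ϖ ε v x').ker := by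
    refine fun x' hx' => (AddSubgroup.closure_le _).2 fun x hx =>
      show res p v (thL ϖ ε v x x') = 0 from ?_
    rcases id hx' with ⟨y, rfl⟩ | ⟨hv, u', a', w', h1, h2, h3⟩ | h
    · exact FLt_sym hT (k1 y x hx)
    · rcases id hx with ⟨y, rfl⟩ | ⟨-, u, a, w, h4, h5, h6⟩ | h
      · exact k1 y x' hx'
      · refine L.iso h4 h1 v hv (emb v) _ ?_
        simp only [thL, map_add, map_mul, map_zsmul, h2, h3, h5, h6, emb_algK]
      · exact FLt_sym hT (k3 x' hx' x h)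
    · exact k3 x hx x' h
  exact fun x hx x' hx' => FLt_sym hT ((AddSubgroup.closure_le (FLt_b p ϖ ε v x).ker).2
    (fun z hz => FLt_sym hT (k2 z hz hx)) hx')

end

theorem exists_LtD (hT : Ty p A F ϖ ε) (hS : Stg A F b Φ) (L : LatD A F b n0 Φ ϖ ε) :
    ∃ D : LtD p A F b n0 Φ.d ϖ ε, ∀ u a w, L.Rep u a w → ∀ v, InS p A F b v →
      (rt v (emb v a), rt v (emb v w)) ∈ D.Lt v := by
  choose P hP hP' using fun v => FLt_proj (p := p) (AddSubgroup.closure (FLt_G L v))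
  choose Z hZ hZ' using fun v => FLt_proj (p := p) (FLt_d p A ϖ v).ker
  have hQ : ∀ v x, Z v x - P v (Z v x) ∈ (FLt_d p A ϖ v).ker := fun v x =>
    sub_mem (hZ v x) (FLt_coc hT L v (hP v _))
  refine ⟨{ Lt := fun v => AddSubgroup.closure (FLt_G L v)
            P := P
            Q := fun v => Z v - (P v).comp (Z v)
            P_mem := hP
            P_id := hP'
            Q_coc := hQ
            Q_Q := fun v x => ?_
            Q_iff := fun v x hx => ?_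
            coc := FLt_coc hT L
            cob := fun v y => AddSubgroup.subset_closure (Or.inl ⟨y, rfl⟩)
            iso := FLt_iso hT L
            rel0 := fun v => FLt_rel0 L
            rel1 := fun v => FLt_rel1 L
            hi0 := fun v h1 w h2 h3 =>
              AddSubgroup.subset_closure (Or.inr (Or.inr ⟨rfl, h2, Or.inl ⟨h1, h3⟩⟩))
            hi1 := fun v h1 w h2 h3 h4 =>
              AddSubgroup.subset_closure (Or.inr (Or.inr ⟨rfl, h2, Or.inr ⟨h1, h3, h4⟩⟩)) },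
    fun u a w h v hv => AddSubgroup.subset_closure (Or.inr (Or.inl
      ⟨hv, u, a, w, h, FLt_split hS hv (L.mem h).1, FLt_split hS hv (L.mem h).2⟩))⟩
  · simp only [AddMonoidHom.sub_apply, AddMonoidHom.comp_apply]
    rw [hZ' v _ (hQ v x), map_sub (P v), hP' v _ (hP v _), sub_self, sub_zero]
  · rw [AddMonoidHom.sub_apply, AddMonoidHom.comp_apply, hZ' v x hx, sub_eq_zero]
    exact ⟨fun h => h ▸ hP v x, fun h => (hP' v x h).symm⟩

end Pool.Agent.ASel
end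

-- merged part: Pool.Agent.Work.MP_60d5ce_nt.AS.FCov
section
/-!
# Finite covers of subgroups; a counting lemma  (AS, function field side)

PLAN.  `cov_graph`: for each `t ∈ T` that is hit choose a pair of `Γ` above it.  `few_marked'`: for fixed `w` the group `E` acts on `Z w - e0`; the pairing
`V × E → ZMod p` has left kernel in `V0`, so the common kernel `E0` of the `T w v` has `card E0 * card V ≤ card V0 * card E`
(the map `V → Dual E` has image with at least `card V / card V0` elements, and `card E0 * card (image) = card E`).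
`card_ker_ge`: the image of `ψ` lies in the orthogonal of the image of `ρ`, which has `p ^ card κ / card C` elements.
-/

set_option linter.unusedSectionVars false

namespace Pool.Agent.ASel

variable {V V' : Type} [AddCommGroup V] [AddCommGroup V']

/-- `X` is covered by at most `n` translates of `Y` -/
def Cov (X Y : Set V) (n : ℕ) : Prop :=
  ∃ T : Finset V, T.card ≤ n ∧ ∀ x ∈ X, ∃ t ∈ T, x - t ∈ Y

theorem Cov.mono {X X' Y Y' : Set V} {n n' : ℕ} (h : Cov X Y n) (hX : X' ⊆ X) (hY : Y ⊆ Y')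
    (hn : n ≤ n') : Cov X' Y' n' :=
  h.imp fun _ k => ⟨k.1.trans hn, fun x hx => (k.2 x (hX hx)).imp fun _ a => ⟨a.1, hY a.2⟩⟩

theorem Cov.trans {X Y Z : Set V} {n n' : ℕ} (h : Cov X Y n) (h' : Cov Y Z n') :
    Cov X Z (n * n') := by
  classical
  obtain ⟨T, a, b⟩ := h
  obtain ⟨T', a', b'⟩ := h'
  refine ⟨(T ×ˢ T').image fun t => t.1 + t.2, Finset.card_image_le.trans ?_, fun x hx => ?_⟩
  · rw [Finset.card_product]
    exact Nat.mul_le_mul a a'
  · obtain ⟨t, t1, t2⟩ := b x hx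
    obtain ⟨u, u1, u2⟩ := b' _ t2
    exact ⟨_, Finset.mem_image_of_mem _ (Finset.mk_mem_product t1 u1), by rwa [← sub_sub]⟩

theorem cov_self {X Y : Set V} (h : X ⊆ Y) : Cov X Y 1 :=
  ⟨{0}, by simp, fun x hx => ⟨0, by simp, by simpa using h hx⟩⟩

lemma FCov_pick {A B : Type} (T : Finset A) (r : A → B → Prop) : ∃ T' : Finset B, T'.card ≤ T.card ∧
    (∀ b ∈ T', ∃ a, r a b) ∧ ∀ a ∈ T, ∀ b, r a b → ∃ b ∈ T', r a b := by
  classical
  refine ⟨(T.subtype fun a => ∃ b, r a b).image fun a => a.2.choose, Finset.card_image_le.trans ?_,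
    fun b hb => ?_, fun a ha b h => ⟨_, Finset.mem_image_of_mem _
      (Finset.mem_subtype.2 ha : (⟨a, b, h⟩ : {a // ∃ b, r a b}) ∈ _), Exists.choose_spec ⟨b, h⟩⟩⟩
  · rw [Finset.card_subtype]
    exact Finset.card_filter_le _ _
  · obtain ⟨a, -, rfl⟩ := Finset.mem_image.1 hb
    exact ⟨a, a.2.choose_spec⟩

/-- the translates can be taken from `X` -/
theorem Cov.inner {X : Set V} {Y : AddSubgroup V} {n : ℕ} (h : Cov X Y n) :
    ∃ T : Finset V, T.card ≤ n ∧ (∀ t ∈ T, t ∈ X) ∧ ∀ x ∈ X, ∃ t ∈ T, x - t ∈ Y := by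
  obtain ⟨T, a, b⟩ := h
  obtain ⟨T', a', b', c⟩ := FCov_pick T fun t x => x ∈ X ∧ x - t ∈ Y
  refine ⟨T', a'.trans a, fun t ht => (b' t ht).elim fun _ k => k.1, fun x hx => ?_⟩
  obtain ⟨t, t1, t2⟩ := b x hx
  obtain ⟨u, u1, -, u2⟩ := c t t1 x ⟨hx, t2⟩
  exact ⟨u, u1, sub_sub_sub_cancel_right x u t ▸ Y.sub_mem t2 u2⟩

theorem cov_graph (Γ : AddSubgroup (V × V')) {X : Set V} {X' : Set V'} {Y' : AddSubgroup V'} {n : ℕ}
    (hX : ∀ x ∈ X, ∃ x' ∈ X', (x, x') ∈ Γ) (h : Cov X' Y' n) :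
    Cov X {x | ∃ y' ∈ Y', (x, y') ∈ Γ} n := by
  obtain ⟨T, a, b⟩ := h
  obtain ⟨T', a', -, c⟩ := FCov_pick T fun t x => ∃ x', (x, x') ∈ Γ ∧ x' - t ∈ Y'
  refine ⟨T', a'.trans a, fun x hx => ?_⟩
  obtain ⟨x', x1, x2⟩ := hX x hx
  obtain ⟨t, t1, t2⟩ := b x' x1
  obtain ⟨u, u1, u', u2, u3⟩ := c t t1 x ⟨x', x2, t2⟩
  exact ⟨u, u1, x' - u', sub_sub_sub_cancel_right x' u' t ▸ Y'.sub_mem t2 u3, Γ.sub_mem x2 u2⟩

theorem cov_pi {κ : Type} {U : κ → Type} [∀ v, AddCommGroup (U v)] (S : Finset κ)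
    (X Y : ∀ v, Set (U v)) (n : κ → ℕ) (h : ∀ v ∈ S, Cov (X v) (Y v) (n v)) :
    Cov {x : ∀ v, U v | ∀ v ∈ S, x v ∈ X v} {x | ∀ v ∈ S, x v ∈ Y v} (∏ v ∈ S, n v) := by
  classical
  choose! T a b using h
  refine ⟨(S.pi T).image fun f v => if h : v ∈ S then f v h else 0, Finset.card_image_le.trans ?_,
    fun x hx => ?_⟩
  · rw [Finset.card_pi]
    exact Finset.prod_le_prod' a
  · choose t t1 t2 using fun v hv => b v hv (x v) (hx v hv)
    refine ⟨_, Finset.mem_image_of_mem _ (Finset.mem_pi.2 t1), fun v hv => ?_⟩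
    rw [Pi.sub_apply, dif_pos hv]
    exact t2 v hv

theorem Cov.card_le {X : Set V} {Y : Set V} {n : ℕ} (h : Cov X Y n) (hY : Y.Finite) :
    X.Finite ∧ X.ncard ≤ n * Y.ncard := by
  obtain ⟨T, a, b⟩ := h
  have s : X ⊆ ⋃ t ∈ T, (· + t) '' Y := fun x hx => (b x hx).elim fun t k =>
    Set.mem_biUnion (Finset.mem_coe.2 k.1) ⟨_, k.2, sub_add_cancel x t⟩
  have f := T.finite_toSet.biUnion fun t _ => hY.image (· + t)
  refine ⟨f.subset s, (Set.ncard_le_ncard s f).trans ((Finset.set_ncard_biUnion_le _ _).trans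
    ((Finset.sum_le_card_nsmul _ _ _ fun t _ => Set.ncard_image_le hY).trans ?_))⟩
  exact Nat.mul_le_mul_right _ a

/-- cokernel and kernel of an endomorphism of a finite group -/
theorem cov_coker (X : AddSubgroup V) (hX : (X : Set V).Finite) (φ : V →+ V) (hφ : ∀ x ∈ X, φ x ∈ X) :
    Cov X (φ '' X) {x | x ∈ X ∧ φ x = 0}.ncard := by
  classical
  have : Finite X := hX
  let f : X →+ X := (φ.comp X.subtype).codRestrict X fun x => hφ x x.2
  have := Fintype.ofFinite (X ⧸ f.range)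
  refine ⟨Finset.univ.image fun q : X ⧸ f.range => (q.out : V), Finset.card_image_le.trans
    (le_of_eq ?_), fun x hx => ⟨_, Finset.mem_image_of_mem _
      (Finset.mem_univ ((⟨x, hx⟩ : X) : X ⧸ f.range)), ?_⟩⟩
  · have a := AddSubgroup.card_eq_card_quotient_mul_card_addSubgroup f.range
    have b := AddSubgroup.card_eq_card_quotient_mul_card_addSubgroup f.ker
    rw [Nat.card_congr (QuotientAddGroup.quotientKerEquivRange f).toEquiv, a, mul_comm] at b
    rw [Finset.card_univ, ← Nat.card_eq_fintype_card, mul_left_cancel₀ Nat.card_pos.ne' b,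
      ← SetLike.coe_sort_coe, Nat.card_coe_set_eq,
      ← Set.ncard_image_of_injective _ Subtype.val_injective]
    refine congrArg _ (Set.ext fun x => ⟨?_, fun k => ⟨⟨x, k.1⟩, Subtype.ext k.2, rfl⟩⟩)
    rintro ⟨y, k, rfl⟩
    exact ⟨y.2, congrArg Subtype.val k⟩
  · obtain ⟨y, hy⟩ := QuotientAddGroup.eq_iff_sub_mem.1
      (QuotientAddGroup.out_eq' ((⟨x, hx⟩ : X) : X ⧸ f.range)).symm
    exact ⟨y, y.2, congrArg Subtype.val hy⟩

variable {p : ℕ} [Fact p.Prime]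

lemma FCov_dual {A B : Type} [AddCommGroup A] [AddCommGroup B] [Finite A] [Finite B]
    (β : A → B → ZMod p) (h1 : ∀ a a' b, β (a + a') b = β a b + β a' b)
    (h2 : ∀ a b b', β a (b + b') = β a b + β a b') :
    {a | ∀ b, β a b = 0}.ncard * Nat.card B = {b | ∀ a, β a b = 0}.ncard * Nat.card A := by
  classical
  have : NeZero p := ⟨(Fact.out : p.Prime).ne_zero⟩
  have k : ∀ {A B : Type} [Fintype A] [AddCommGroup B] [Fintype B] (β : A → B → ZMod p),
      (∀ a b b', β a (b + b') = β a b + β a b') → ∑ a, ∑ b, ZMod.stdAddChar (β a b) =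
        ({a | ∀ b, β a b = 0}.ncard * Nat.card B : ℕ) := by
    intro A B _ _ _ β h
    have e : ∀ a, ∑ b, ZMod.stdAddChar (β a b) =
        if ∀ b, β a b = 0 then (Fintype.card B : ℂ) else 0 := fun a => by
      refine (AddChar.sum_eq_ite (ZMod.stdAddChar.compAddMonoidHom
        (AddMonoidHom.mk' (β a) (h a)))).trans (if_congr ?_ rfl rfl)
      rw [AddChar.eq_zero_iff]
      exact forall_congr' fun b => ZMod.injective_stdAddChar.eq_iff' (AddChar.map_zero_eq_one _)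
    rw [Finset.sum_congr rfl fun a _ => e a, ← Finset.sum_filter, Finset.sum_const, nsmul_eq_mul,
      Set.ncard_eq_toFinset_card', Set.toFinset_ofPred, Nat.card_eq_fintype_card, Nat.cast_mul]
  have := Fintype.ofFinite A
  have := Fintype.ofFinite B
  exact_mod_cast (k β h2).symm.trans (Finset.sum_comm.trans
    (k (fun b a => β a b) fun b a a' => h1 a a' b))

theorem few_marked' {E : Type} [AddCommGroup E] [Module (ZMod p) E] [Fintype E] (C : Set V')
    (hC : C.Finite) (X X0 : AddSubgroup V) (hX : (X : Set V).Finite) (h0 : X0 ≤ X) (Z : V' → Set E)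
    (T : V' → V → E → ZMod p)
    (h1 : ∀ w ∈ C, ∀ v ∈ X, ∀ v' ∈ X, ∀ e, T w (v + v') e = T w v e + T w v' e)
    (h2 : ∀ w ∈ C, ∀ v ∈ X, ∀ e e', T w v (e + e') = T w v e + T w v e')
    (hT : ∀ w ∈ C, ∀ v ∈ X, (∀ e, T w v e = 0) → v ∈ X0)
    (hZ : ∀ w ∈ C, ∀ e ∈ Z w, ∀ e' ∈ Z w, ∀ v ∈ X, T w v (e - e') = 0) :
    {e | ∃ w ∈ C, e ∈ Z w}.ncard * Nat.card X ≤ C.ncard * Nat.card X0 * Fintype.card E := by
  have : Finite X := hX
  have f0 : (X0 : Set V).Finite := hX.subset h0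
  have k : ∀ w ∈ hC.toFinset, (Z w).ncard * Nat.card X ≤ Nat.card X0 * Fintype.card E := by
    intro w hw
    rw [Set.Finite.mem_toFinset] at hw
    rcases (Z w).eq_empty_or_nonempty with k | ⟨e0, k⟩
    · simp [k]
    have d := FCov_dual (fun (v : X) e => T w v e) (fun a a' => h1 w hw _ a.2 _ a'.2)
      fun a => h2 w hw _ a.2
    refine (Nat.mul_le_mul_right _ (Set.ncard_le_ncard_of_injOn (· - e0) (fun e he => ?_)
      sub_left_injective.injOn)).trans (d.symm.trans_le (Nat.mul_le_mul ?_ Nat.card_eq_fintype_card.le))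
    · exact fun v => hZ w hw e he e0 k v v.2
    · exact Set.ncard_le_ncard_of_injOn Subtype.val (fun v hv => hT w hw v v.2 hv)
        Subtype.val_injective.injOn f0
  have s : {e | ∃ w ∈ C, e ∈ Z w} = ⋃ w ∈ hC.toFinset, Z w := by ext; simp
  rw [s, Set.ncard_eq_toFinset_card C hC, mul_assoc]
  refine (Nat.mul_le_mul_right _ (Finset.set_ncard_biUnion_le _ _)).trans ?_
  rw [Finset.sum_mul]
  exact Finset.sum_le_card_nsmul _ _ _ k

theorem card_ker_ge {κ : Type} [Fintype κ] [Finite V] (ψ : V →+ (κ → ZMod p)) (C : AddSubgroup V')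
    (ρ : C →+ (κ → ZMod p)) (hρ : Function.Injective ρ) (h : ∀ v w, ∑ i, ψ v i * ρ w i = 0) :
    Nat.card V * Nat.card C ≤ Nat.card ψ.ker * p ^ Fintype.card κ := by
  classical
  have : NeZero p := ⟨(Fact.out : p.Prime).ne_zero⟩
  have := Finite.of_injective _ hρ
  have d := FCov_dual (fun (w : C) (y : κ → ZMod p) => ∑ i, y i * ρ w i)
    (fun a a' b => by simp [mul_add, Finset.sum_add_distrib])
    fun a b b' => by simp [add_mul, Finset.sum_add_distrib]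
  have e : {w : C | ∀ y : κ → ZMod p, ∑ i, y i * ρ w i = 0} = {0} :=
    Set.eq_singleton_iff_unique_mem.2 ⟨by simp, fun w hw => hρ (funext fun i => by
      simpa [Pi.single_apply] using hw (Pi.single i 1))⟩
  rw [e, Set.ncard_singleton, one_mul, Nat.card_fun, Nat.card_zmod, Nat.card_eq_fintype_card] at d
  rw [d, AddSubgroup.card_eq_card_quotient_mul_card_addSubgroup ψ.ker, mul_comm _ (Nat.card ψ.ker),
    Nat.card_congr (QuotientAddGroup.quotientKerEquivRange ψ).toEquiv, mul_assoc]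
  refine Nat.mul_le_mul_left _ (Nat.mul_le_mul_right _ (Set.ncard_le_ncard ?_))
  rintro _ ⟨v, rfl⟩
  exact h v

end Pool.Agent.ASel
end

-- merged part: Pool.Agent.Work.MP_60d5ce_nt.AG.FLc
section
/-!
# Local cocycles with integral first component  (AS, function field side)

PLAN.  Two steps (`Cov.trans`, or by hand with `Cov.inner`, `cov_graph`): the first component modulo `℘ (Lv v)`, then, after subtracting a coboundary (`LtD.cob`, `cob_coc`), a pair `(0, w)` with `w` fixed by `C (· / A)`.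
At `InS0`: the unit ball modulo the ball of radius `2⁻¹ ^ (natDegree A + 1)` (`card_ball'`, `wp_small`, `‖A‖ ≥ 2⁻¹ ^ natDegree A`); fixed forms have `‖uL v * w‖ ≤ 2 ^ natDegree A` (`ca_bound`), rescale by a power of `uL v` (`av_uu`) and use `card_ball'`, `LtD.hi0`; `pdg v ≤ natDegree F + 1`.
At `InAn`: `wp_coker`; `ca_anom` (`p` classes), then the additive map `w ↦ res (t * d * w)` for `t ^ (p - 1) = A` (`p` values; all roots of `t ^ p / A = t` are multiples, `wp_ker`), `LtD.hi1`.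
-/

set_option linter.unusedSectionVars false

namespace Pool.Agent.ASel

open Polynomial Pool.Agent.Smith Finset

variable {p : ℕ} {k : Type} [Field k] [Fintype k] [hp : Fact p.Prime] [CharP k p]
  {A F : k[X]} {ϖ : RatFunc k} {ε : ℤ}

lemma FLc_cov {V τ : Type} [AddCommGroup V] {X Y : Set V} (T : Finset τ) (r : τ → V → Prop)
    (h1 : ∀ x ∈ X, ∃ t ∈ T, r t x)
    (h2 : ∀ t, ∀ x ∈ X, ∀ x' ∈ X, r t x → r t x' → x - x' ∈ Y) : Cov X Y T.card := by
  obtain ⟨T', a, -, c⟩ := FCov_pick T fun t x => x ∈ X ∧ r t x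
  refine ⟨T', a, fun x hx => ?_⟩
  obtain ⟨t, ht, hr⟩ := h1 x hx
  obtain ⟨u, u1, u2, u3⟩ := c t ht x ⟨hx, hr⟩
  exact ⟨u, u1, h2 t x hx u u2 hr u3⟩

lemma FLc_ball (v : Pl k) (B : ℝ) {r : ℝ} (hr : 0 < r) : ∃ (C : ℕ) (T : Finset (Lv v)),
    T.card ≤ Fintype.card k ^ C ∧ ∀ x : Lv v, ‖x‖ ≤ B → ∃ t ∈ T, ‖x - t‖ < r := by
  classical
  obtain ⟨s, hs⟩ := NormedField.exists_lt_norm (Lv v) (max B 0)
  have s0 : 0 < ‖s‖ := (le_max_right _ _).trans_lt hs
  obtain ⟨n, hn⟩ := exists_pow_lt_of_lt_one (div_pos hr s0) (by norm_num : (2⁻¹ : ℝ) < 1)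
  obtain ⟨T, a, b⟩ := card_ball' v n
  refine ⟨_, T.image (s * ·), card_image_le.trans a, fun x hx => ?_⟩
  obtain ⟨y, hy, -, h⟩ := b (x / s) (by
    rw [norm_div, div_le_one s0]
    exact hx.trans ((le_max_left _ _).trans hs.le))
  refine ⟨s * y, mem_image_of_mem _ hy, ?_⟩
  have e : x - s * y = s * (x / s - y) := by
    rw [mul_sub, mul_div_cancel₀ _ (norm_pos_iff.1 s0)]
  rw [e, norm_mul, ← lt_div_iff₀' s0]
  exact h.trans_lt hn

lemma FLc_dL (v : Pl k) (x x' : Lv v × Lv v) :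
    dL p A ϖ v (x - x') = dL p A ϖ v x - dL p A ϖ v x' := by
  simp only [dL, Prod.fst_sub, Prod.snd_sub, sub_div, map_sub]
  ring

lemma FLc_two {n0 N : ℕ} {b : k[X]} {d : RatFunc k} (D : LtD p A F b n0 d ϖ ε) (v : Pl k)
    (h : Cov {w : Lv v | cL p v (w / pk _ A) = w} {w | (0, w) ∈ D.Lt v} N) :
    Cov {x : Lv v × Lv v | dL p A ϖ v x = 0 ∧ ∃ y, y ^ p / pk _ A - y = x.1} (D.Lt v) N := by
  classical
  obtain ⟨T, a, c⟩ := h
  refine ⟨T.image fun t => (0, t), card_image_le.trans a, ?_⟩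
  rintro x ⟨hx, y, hy⟩
  have e := FLc_dL (p := p) (A := A) (ϖ := ϖ) v x
    (y ^ p / pk _ A - y, -(y ^ p / pk _ A * algebraMap _ _ ϖ))
  rw [hx, D.coc v _ (D.cob v y), sub_zero, dL, Prod.fst_sub, hy, sub_self, zero_mul, add_zero,
    sub_eq_zero] at e
  obtain ⟨t, t1, t2⟩ := c _ e.symm
  refine ⟨_, mem_image_of_mem _ t1, ?_⟩
  have f := (D.Lt v).add_mem (D.cob v y) t2
  have g : x - (0, t) = (y ^ p / pk _ A - y, -(y ^ p / pk _ A * algebraMap _ _ ϖ)) +
      (0, (x - (x.1, -(y ^ p / pk _ A * algebraMap _ _ ϖ))).2 - t) := by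
    refine Prod.ext ?_ ?_
    · simp only [Prod.fst_sub, Prod.fst_add, hy, sub_zero, add_zero]
    · simp only [Prod.snd_sub, Prod.snd_add]
      ring
  rw [SetLike.mem_coe, g]
  exact f

lemma FLc_fix {v : Pl k} {a w w' : Lv v} (h : cL p v (w / a) = w) (h' : cL p v (w' / a) = w') :
    cL p v ((w - w') / a) = w - w' := by
  rw [sub_div, map_sub, h, h']

lemma FLc_lt {v : Pl k} {a a' t : Lv v} {r : ℝ} (h : ‖a - t‖ < r) (h' : ‖a' - t‖ < r) :
    ‖a - a'‖ < r := by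
  rw [← sub_sub_sub_cancel_right a a' t]
  exact Wp_sub_lt h h'

lemma FLc_A (hT : Ty p A F ϖ ε) (v : Pl k) : pk (Lv v) A ≠ 0 := by
  have hA : A ≠ 0 := fun e => hT.F_ne (zero_dvd_iff.1 (e ▸ hT.dvd))
  exact (_root_.map_ne_zero (algebraMap (RatFunc k) (Lv v))).2
    ((map_ne_zero_iff _ (IsFractionRing.injective k[X] (RatFunc k))).2 hA)

lemma FLc_one (hT : Ty p A F ϖ ε) (n0 : ℕ) (v : Pl k) (hv : InS0 F v) : ∃ C : ℕ,
    ∀ {b : k[X]} {d : RatFunc k} (D : LtD p A F b n0 d ϖ ε),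
      Cov {x : Lv v × Lv v | dL p A ϖ v x = 0 ∧ ‖x.1‖ ≤ 1} (D.Lt v) (Fintype.card k ^ C) := by
  have hA := FLc_A hT v
  obtain ⟨C, T, a, c⟩ := FLc_ball v 1 (lt_min one_pos (norm_pos_iff.2 hA))
  obtain ⟨C', T', a', c'⟩ := FLc_ball v (max 1 ‖pk (Lv v) A‖⁻¹)
    (by positivity : (0 : ℝ) < (2 ^ n0)⁻¹)
  refine ⟨C + C', fun D => ?_⟩
  rw [pow_add]
  refine ((FLc_cov T (fun t x => ‖x.1 - t‖ < min 1 ‖pk (Lv v) A‖) (fun x hx => c _ hx.2) ?_).trans
    (FLc_two D v (FLc_cov T' (fun t w => ‖uL v * w - t‖ < (2 ^ n0)⁻¹) (fun w hw => c' _ ?_)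
      ?_))).mono subset_rfl subset_rfl (Nat.mul_le_mul a a')
  · intro t x hx x' hx' h h'
    have e := FLc_lt h h'
    refine ⟨by rw [FLc_dL, hx.1, hx'.1, sub_zero], ?_⟩
    obtain ⟨y, -, hy⟩ := wp_small (p := p) (A := pk (Lv v) A) (a := x.1 - x'.1)
      ((pow_le_of_le_one (norm_nonneg _) (e.le.trans (min_le_left _ _))
        (Nat.sub_ne_zero_of_lt hp.out.one_lt)).trans_lt (e.trans_le (min_le_right _ _)))
    exact ⟨y, hy⟩
  · refine ca_bound (p := p) hA (le_max_left _ _) (le_max_right _ _) ?_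
    rw [hw, sub_self, mul_zero, norm_zero]
    exact zero_le_one.trans (le_max_left _ _)
  · intro t w hw w' hw' h h'
    refine D.hi0 v hv _ (FLc_fix hw hw') ?_
    rw [mul_sub, ← lt_div_iff₀ (by positivity), one_div]
    exact FLc_lt h h'

theorem cov_Lt0 (hT : Ty p A F ϖ ε) (n0 : ℕ) : ∃ C : ℕ, ∀ {b : k[X]} {d : RatFunc k}
    (D : LtD p A F b n0 d ϖ ε) (v : Pl k), InS0 F v →
      Cov {x : Lv v × Lv v | dL p A ϖ v x = 0 ∧ ‖x.1‖ ≤ 1} (D.Lt v) (Fintype.card k ^ C) := by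
  classical
  choose! C hC using FLc_one hT n0
  refine ⟨(insert none (fac' F)).sup C, fun D v hv => (hC v hv D).mono subset_rfl subset_rfl
    (Nat.pow_le_pow_right Fintype.card_pos (le_sup ?_))⟩
  rw [mem_insert, mem_fac' hT.F_ne]
  unfold InS0 at hv
  tauto

theorem cov_Lt1 (hT : Ty p A F ϖ ε) {n0 : ℕ} {b : k[X]} (hc : IsCoprime b F) {d : RatFunc k}
    (D : LtD p A F b n0 d ϖ ε) {v : Pl k} (hv : InAn p A b v) :
    Cov {x : Lv v × Lv v | dL p A ϖ v x = 0 ∧ ‖x.1‖ ≤ 1} (D.Lt v) (p ^ 3) := by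
  have hA := norm_pk_one hT.dvd (not_S0_of_dvd hc hv.1 hv.2.1)
  obtain ⟨o, -, ho⟩ := wp_coker (p := p) hA
  obtain ⟨t, ht⟩ := an_root hT.dvd hc hv
  have t0 : t ≠ 0 := fun e => FLc_A hT v (by
    rw [← ht, e, zero_pow (Nat.sub_ne_zero_of_lt hp.out.one_lt)])
  have : NeZero p := ⟨hp.out.ne_zero⟩
  refine ((FLc_cov (range p) (fun m x => ∃ y, x.1 = y ^ p / pk (Lv v) A - y + m * o)
    (fun x hx => ?_) ?_).trans (FLc_two D v (FLc_cov (range p ×ˢ (univ : Finset (ZMod p)))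
      (fun m w => ‖uL v * w - m.1 / t‖ < 1 ∧ res p v (t * algebraMap _ _ d * w) = m.2)
      (fun w hw => ?_) ?_))).mono subset_rfl subset_rfl (le_of_eq ?_)
  · obtain ⟨m, y, -, e⟩ := ho _ hx.2
    exact ⟨m % p, mem_range.2 (Nat.mod_lt _ hp.out.pos), y, by rwa [← CharP.cast_eq_mod]⟩
  · rintro m x hx x' hx' ⟨y, h⟩ ⟨y', h'⟩
    refine ⟨by rw [FLc_dL, hx.1, hx'.1, sub_zero], y - y', ?_⟩
    rw [Wp_sub, Prod.fst_sub, h, h']
    ring
  · obtain ⟨m, e⟩ := ca_anom (p := p) (w := w) hA ht (by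
      rw [hw, sub_self, mul_zero, norm_zero]
      exact one_pos)
    exact ⟨(m % p, _), mem_product.2 ⟨mem_range.2 (Nat.mod_lt _ hp.out.pos), mem_univ _⟩,
      by rwa [← CharP.cast_eq_mod], rfl⟩
  · rintro m w hw w' hw' ⟨h, e⟩ ⟨h', e'⟩
    refine D.hi1 v hv _ (FLc_fix hw hw') (by rw [mul_sub]; exact FLc_lt h h') fun s hs => ?_
    obtain ⟨n, rfl⟩ := wp_ker ht t0 hs
    rw [mul_assoc, mul_assoc, ← nsmul_eq_mul, map_nsmul, ← mul_assoc, mul_sub, map_sub, e, e',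
      sub_self, smul_zero]
  · rw [card_product, card_range, card_univ, ZMod.card]
    ring

end Pool.Agent.ASel
end

-- merged part: Pool.Agent.Work.MP_60d5ce_nt.AG.FFix
section
/-!
# Counting fixed forms and normalised cocycles  (AS, function field side)

PLAN.  `card_fix`: `card_bounded` with `S = Sf p A F b`.  At `InS0`: `ca_bound` (`‖A‖⁻¹ ≤ 2 ^ natDegree A`, `av_uu`), `card_ball`, `sum_pdg_fac'`; at `InAn`: `ca_anom`, `an_root`, the `p` points `m / t / uL v` (`int_iff`); at `InNa`: `ca_na`, `na_root`.  `p ≤ card k`.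
`card_a`: `card_bounded` with `S = Sf ∪ Med`; at `InAn` the points `t * d`, `t ^ p / A = t` (at most `p` roots).  `card_F0`: `Eq1.lower` puts both components in `k(t)`; the first lies in the set of `card_a`, and two second components with the same first component differ by a fixed form (`alg_cKB`).
`card_Fj`: `card_dev`.  `cov_cok`: let `V` be the group of the `f` regular at `InU`, `‖uL v * f‖ ≤ 2 ^ natDegree A` at `InS0`, `≤ 1` at the primes of `b`; it is finite (`card_bounded`), stable under `φ = 1 - C (· / A)` (`norm_car`, `cL_int`), and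
`C (· / A)` strictly decreases every `‖uL v * f‖` above the bound, so (induction on a bound `2 ^ N` for all `v ∈ insert none (fac' (F * b))`, `norm_disc`) every regular `f` is in `V + φ (regular)`; `cov_coker`, `card_fix`.
-/

set_option linter.unusedSectionVars false

namespace Pool.Agent.ASel

open Polynomial Pool.Agent.Smith Finset

variable {p : ℕ} {k : Type} [Field k] [Fintype k] [hp : Fact p.Prime] [CharP k p] {A F : k[X]}

theorem FFix_p : p ≤ Fintype.card k := by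
  obtain ⟨n, -, e⟩ := FiniteField.card k p
  exact e ▸ Nat.le_self_pow n.pos.ne' p

theorem FFix_R {M : Type} [Field M] [CharP M p] (f : M → M) : ∃ R : Finset M,
    R.card ≤ Fintype.card k ∧ ∀ m : ℕ, f m ∈ R := by
  classical
  refine ⟨(range p).image fun m : ℕ => f m, card_image_le.trans ((card_range p).trans_le FFix_p),
    fun m => mem_image.2 ⟨m % p, mem_range.2 (Nat.mod_lt _ hp.out.pos), ?_⟩⟩
  rw [← CharP.cast_eq_mod M p m]

theorem FFix_inv (hA : A ≠ 0) (v : Pl k) : (av v (pk _ A))⁻¹ ≤ 2 ^ A.natDegree := by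
  change (av v (algebraMap k[X] _ A))⁻¹ ≤ _
  by_cases hv : v = none
  · rw [hv, av_inf hA]
    exact (inv_le_one_of_one_le₀ (one_le_pow₀ one_le_two)).trans (one_le_pow₀ one_le_two)
  · rw [av_poly_eq hv hA, inv_pow, inv_inv]
    have := natDegree_le_of_dvd (pow_multiplicity_dvd (plp v) A) hA
    rw [natDegree_pow, PF_deg hv] at this
    exact pow_le_pow_right₀ one_le_two ((Nat.le_mul_of_pos_right _ (pdg_pos v)).trans this)

theorem FFix_ne (hA : A ≠ 0) (v : Pl k) : pk (Lv v) A ≠ 0 :=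
  (_root_.map_ne_zero (algebraMap (RatFunc k) (Lv v))).2 (PF_ne hA)

theorem FFix_count (hF : F ≠ 0) {b : k[X]} (hb : b ≠ 0) (n : ℕ) (Med : Finset (Pl k))
    (R : ∀ v : Pl k, Finset (Lv v)) (hR : ∀ v, (R v).card ≤ Fintype.card k) :
    ∃ T : Finset (RatFunc k), T.card ≤ Fintype.card k ^
      (1 + n * (1 + F.natDegree + ∑ v ∈ Med, pdg v) + (fac' b).card) ∧ ∀ a : RatFunc k,
      (∀ v, InS0 F v ∨ v ∈ Med → av v a ≤ 2 ^ n) →
      (∀ v, InAn p A b v → ∃ x ∈ R v, ‖algebraMap _ _ a - x‖ ≤ 1) →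
      (∀ v, ¬ InS p A F b v → v ∉ Med → av v a ≤ 1) → a ∈ T := by
  classical
  choose B b1 b2 using fun v : Pl k => card_ball v n
  obtain ⟨S, hS⟩ : ∃ S, S = insert none (fac' F) ∪ Med := ⟨_, rfl⟩
  have mS : ∀ v, v ∈ S ↔ InS0 F v ∨ v ∈ Med := fun v => by
    simp only [hS, InS0, mem_union, mem_insert, mem_fac' hF]
    tauto
  obtain ⟨T, t1, t2⟩ := card_bounded (S ∪ (Sf p A F b \ S)) fun v => if v ∈ S then B v else R v
  refine ⟨T, t1.trans ?_, fun a h1 h2 h3 => t2 a (fun v hv => ?_) fun v hv => ?_⟩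
  · have e1 : ∑ v ∈ S, pdg v ≤ 1 + F.natDegree + ∑ v ∈ Med, pdg v := by
      have i1 := sum_union_inter (s₁ := insert none (fac' F)) (s₂ := Med) (f := pdg)
      have i2 := sum_pdg_fac' (f := F)
      rw [sum_insert fun h => ((mem_fac' hF).1 h).1 rfl, ← hS] at i1
      have i3 : pdg (none : Pl k) = 1 := rfl
      omega
    have e2 : (Sf p A F b \ S).card ≤ (fac' b).card := card_le_card fun v hv => by
      obtain ⟨i1, i2⟩ := mem_sdiff.1 hv
      rcases inS_iff.1 ((mem_Sf hF hb).1 i1) with i3 | i3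
      · exact absurd ((mS v).2 (Or.inl i3)) i2
      · exact (mem_fac' hb).2 ⟨i3.1, i3.2.1⟩
    rw [prod_union disjoint_sdiff, pow_add, pow_add, pow_one, mul_assoc]
    refine Nat.mul_le_mul_left _ (Nat.mul_le_mul ?_ ?_)
    · refine (prod_le_prod' fun v hv => (congrArg card (if_pos hv)).trans_le (b1 v)).trans ?_
      rw [prod_pow_eq_pow_sum, ← mul_sum]
      exact Nat.pow_le_pow_right Fintype.card_pos (Nat.mul_le_mul_left _ e1)
    · exact (prod_le_pow_card _ _ _ fun v hv =>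
        (congrArg card (if_neg (mem_sdiff.1 hv).2)).trans_le (hR v)).trans
        (Nat.pow_le_pow_right Fintype.card_pos e2)
  · by_cases h : v ∈ S
    · rw [if_pos h]
      exact b2 v _ ((norm_alg v a).trans_le (h1 v ((mS v).1 h)))
    · rw [if_neg h]
      rcases inS_iff.1 ((mem_Sf hF hb).1 (mem_sdiff.1 ((mem_union.1 hv).resolve_left h)).1)
        with i3 | i3
      · exact absurd ((mS v).2 (Or.inl i3)) h
      · exact h2 v i3
  · rw [union_sdiff_self_eq_union, mem_union, not_or, mem_Sf hF hb, mS, not_or] at hv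
    exact h3 v hv.2 hv.1.2

theorem card_fix (hF : F ≠ 0) (hA : A ∣ F) : ∃ C : ℕ, ∀ b : k[X], b ≠ 0 → IsCoprime b F →
    ∃ T : Finset (RatFunc k), T.card ≤ Fintype.card k ^ (C * ((fac' b).card + 1)) ∧
      ∀ w : RatFunc k, cK p (w / pk _ A) = w → (∀ v, InU F b v → av v w ≤ 1) → w ∈ T := by
  have A0 : A ≠ 0 := ne_zero_of_dvd_ne_zero hF hA
  refine ⟨1 + (A.natDegree + 1) * (1 + F.natDegree), fun b hb hc => ?_⟩
  choose! t ht using fun (v : Pl k) (hv : InAn p A b v) => an_root hA hc hv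
  choose R r1 r2 using fun v : Pl k => FFix_R (k := k) (p := p) fun m : Lv v => m / t v / uL v
  obtain ⟨T, t1, t2⟩ := FFix_count (p := p) (A := A) hF hb (A.natDegree + 1) ∅ R r1
  refine ⟨T, t1.trans (Nat.pow_le_pow_right Fintype.card_pos ?_), fun w hw hi => ?_⟩
  · rw [sum_empty, add_zero]
    nlinarith [Nat.zero_le ((A.natDegree + 1) * (1 + F.natDegree) * (fac' b).card)]
  have z : ∀ v : Pl k, ‖uL v * (algebraMap (RatFunc k) (Lv v) w -
      cL p v (algebraMap (RatFunc k) (Lv v) w / pk (Lv v) A))‖ = 0 := fun v => by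
    have := congrArg (algebraMap _ (Lv v)) hw
    rw [alg_cK, map_div₀] at this
    exact (congrArg (‖uL v * ·‖) (sub_eq_zero.2 this.symm)).trans (by rw [mul_zero, norm_zero])
  refine t2 w (fun v _ => ?_) (fun v hv => ?_) fun v hv _ => ?_
  · have h1 := ca_bound (FFix_ne A0 v)
      (one_le_pow₀ one_le_two) ((congrArg _ (norm_alg v _)).trans_le (FFix_inv A0 v))
      ((z v).trans_le (by positivity))
    have h2 := (av v).nonneg w
    have h3 : (0 : ℝ) < 2 ^ A.natDegree := by positivity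
    rw [norm_mul, Wp_uL, norm_alg] at h1
    rw [pow_succ]
    split_ifs at h1 <;> linarith
  · obtain ⟨m, hm⟩ := ca_anom (norm_pk_one hA (not_S0_of_dvd hc hv.1 hv.2.1)) (ht v hv)
      ((z v).trans_lt one_pos)
    refine ⟨_, r2 v m, (int_iff hv.1 _).1 ?_⟩
    rwa [mul_sub, mul_div_cancel₀ _ (Wp_uL0 v)]
  · by_cases h1 : InNa p A b v
    · exact (norm_alg v w).symm.trans_le ((int_iff h1.1 _).1 (ca_na (norm_pk_one hA
        (not_S0_of_dvd hc h1.1 h1.2.1)) (na_root hA hc h1) ((z v).trans_lt one_pos)))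
    · exact hi v (inU_iff.2 ⟨hv, h1⟩)

theorem FFix_car (hA : A ≠ 0) {S : Finset (Pl k)} (hS : ∀ v ∉ S, v ≠ none → ¬ plp v ∣ A) {N : ℕ}
    {f : RatFunc k} (hf : f ∈ Hasse_V S (A.natDegree + N + 1)) :
    cK p (f / pk _ A) ∈ Hasse_V S (A.natDegree + N) := by
  refine ⟨fun v hv => ?_, fun v h1 h2 => ?_⟩
  · have h3 := ResS_car (p := p) v (f / pk _ A)
    rw [← mul_div_assoc, map_div₀ (av v), div_eq_mul_inv (av v _)] at h3
    have h4 := h3.trans (mul_le_mul (hf.1 v hv) (FFix_inv hA v) (by positivity) (by positivity))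
    by_cases f0 : uu v * cK p (f / pk _ A) = 0
    · rw [f0, map_zero]
      positivity
    obtain ⟨n, hn⟩ := av_disc v _ f0
    rw [hn, ← pow_add, ← zpow_natCast, ← zpow_natCast, ← zpow_mul,
      zpow_le_zpow_iff_right₀ one_lt_two] at h4
    rw [hn, ← zpow_natCast, zpow_le_zpow_iff_right₀ one_lt_two]
    have h5 : (2 : ℤ) ≤ p := by exact_mod_cast hp.out.two_le
    by_contra h6
    have : n * 2 ≤ n * p := mul_le_mul_of_nonneg_left h5 (by omega)
    omega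
  · rw [← norm_alg, alg_cK]
    refine cL_int h2 ?_
    rw [norm_alg, map_div₀, show av v (pk _ A) = 1 from PF_one h2 (hS v h1 h2), div_one]
    exact hf.2 v h1 h2

theorem cov_cok (hF : F ≠ 0) (hA : A ∣ F) : ∃ C : ℕ, ∀ b : k[X], b ≠ 0 → IsCoprime b F →
    Cov {f : RatFunc k | ∀ v, InU F b v → av v f ≤ 1}
      {f | ∃ w : RatFunc k, (∀ v, InU F b v → av v w ≤ 1) ∧ f = w - cK p (w / pk _ A)}
      (Fintype.card k ^ (C * ((fac' b).card + 1))) := by
  have A0 : A ≠ 0 := ne_zero_of_dvd_ne_zero hF hA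
  obtain ⟨C, hC⟩ := card_fix (p := p) hF hA
  refine ⟨C, fun b hb hc => ?_⟩
  obtain ⟨T, t1, t2⟩ := hC b hb hc
  have hFb := mul_ne_zero hF hb
  have hU : ∀ {n f}, f ∈ Hasse_V (fac' (F * b)) n → ∀ v, InU F b v → av v f ≤ 1 :=
    fun hf v hv => hf.2 v (fun h => hv.2 ((mem_fac' hFb).1 h).2) hv.1
  have hS : ∀ v ∉ fac' (F * b), v ≠ none → ¬ plp v ∣ A := fun v h1 h2 h3 =>
    h1 ((mem_fac' hFb).2 ⟨h2, (h3.trans hA).mul_right b⟩)
  have mono : ∀ {n n' f}, n ≤ n' → f ∈ Hasse_V (fac' (F * b)) n → f ∈ Hasse_V (fac' (F * b)) n' :=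
    fun h hf => ⟨fun v hv => (hf.1 v hv).trans (pow_le_pow_right₀ one_le_two h), hf.2⟩
  obtain ⟨φ, hφ⟩ : ∃ φ : RatFunc k →+ RatFunc k, ∀ w, φ w = w - cK p (w / pk _ A) :=
    ⟨AddMonoidHom.mk' (fun w => w - cK p (w / pk _ A)) fun x y => by
      rw [add_div, map_add, add_sub_add_comm], fun _ => rfl⟩
  have key : ∀ N, ∀ f ∈ Hasse_V (fac' (F * b)) (A.natDegree + N),
      ∃ w, (∀ v, InU F b v → av v w ≤ 1) ∧ f - φ w ∈ Hasse_V (fac' (F * b)) A.natDegree := by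
    intro N
    induction N with
    | zero => exact fun f hf => ⟨0, fun v _ => by simp, by rwa [map_zero, sub_zero]⟩
    | succ N ih =>
      intro f hf
      obtain ⟨w, w1, w2⟩ := ih _ (FFix_car (p := p) A0 hS hf)
      refine ⟨f + w, fun v hv => Hasse_add (hU hf v hv) (w1 v hv), ?_⟩
      rwa [map_add, ← sub_sub, hφ f, sub_sub_cancel]
  obtain ⟨Z, z1, z2⟩ := cov_coker (Hasse_V (fac' (F * b)) A.natDegree)
    (Set.finite_coe_iff.1 (Hasse_fin _ _)) φ fun f hf => hφ f ▸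
      sub_mem hf (FFix_car (N := 0) A0 hS (mono (Nat.le_succ _) hf))
  refine ⟨Z, z1.trans (((Set.ncard_le_ncard (fun f hf => ?_) T.finite_toSet).trans_eq
    (Set.ncard_coe_finset T)).trans t1), fun f hf => ?_⟩
  · exact t2 f (sub_eq_zero.1 ((hφ f).symm.trans hf.2)).symm (hU hf.1)
  · obtain ⟨B, hB⟩ := ((insert none (fac' (F * b)) : Set (Pl k)).toFinite.image
      fun v => av v (uu v * f)).bddAbove
    obtain ⟨n, hn⟩ := pow_unbounded_of_one_lt B (one_lt_two (α := ℝ))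
    obtain ⟨w, w1, w2⟩ := key n f (mono (Nat.le_add_left _ _)
      ⟨fun v hv => (hB (Set.mem_image_of_mem _ hv.symm)).trans hn.le,
        fun v h1 h2 => hf v ⟨h2, fun h => h1 ((mem_fac' hFb).2 ⟨h2, h⟩)⟩⟩)
    obtain ⟨t, h1, u, h2, h3⟩ := z2 _ w2
    refine ⟨t, h1, u + w, fun v hv => Hasse_add (hU h2 v hv) (w1 v hv), ?_⟩
    rw [← hφ, map_add, h3]
    ring

theorem card_a (hF : F ≠ 0) (hA : A ∣ F) (n1 K : ℕ) : ∃ C : ℕ, ∀ (b : k[X]) (d : RatFunc k)
    (Med : Finset (Pl k)) (Y : ℕ), b ≠ 0 → IsCoprime b F → Med.card ≤ K → (∀ v ∈ Med, pdg v ≤ Y) →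
    (fac' b).card ≤ Y → 1 ≤ Y → ∃ T : Finset (RatFunc k), T.card ≤ Fintype.card k ^ (C * Y) ∧
      ∀ a : RatFunc k, (∀ v, av v a ≤ 2 ^ n1 ∧ (InAn p A b v → ∃ t : Lv v, t ^ p / pk _ A - t = 0 ∧
        ‖algebraMap _ _ a - t * algebraMap _ _ d‖ ≤ 1) ∧
        (¬ InS p A F b v → v ∉ Med → av v a ≤ 1)) → a ∈ T := by
  have A0 : A ≠ 0 := ne_zero_of_dvd_ne_zero hF hA
  refine ⟨1 + n1 * (1 + F.natDegree + K) + 1, fun b d Med Y hb hc h1 h2 h3 h4 => ?_⟩
  choose! t ht using fun (v : Pl k) (hv : InAn p A b v) => an_root hA hc hv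
  choose R r1 r2 using fun v : Pl k =>
    FFix_R (k := k) (p := p) fun m : Lv v => m * t v * algebraMap _ _ d
  obtain ⟨T, t1, t2⟩ := FFix_count (p := p) (A := A) hF hb n1 Med R r1
  refine ⟨T, t1.trans (Nat.pow_le_pow_right Fintype.card_pos ?_), fun a ha =>
    t2 a (fun v _ => (ha v).1) (fun v hv => ?_) fun v => (ha v).2.2⟩
  · have i1 : ∑ v ∈ Med, pdg v ≤ K * Y :=
      (sum_le_card_nsmul _ _ _ h2).trans (Nat.mul_le_mul_right _ h1)
    have i2 : 1 + F.natDegree + ∑ v ∈ Med, pdg v ≤ (1 + F.natDegree + K) * Y := by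
      nlinarith [Nat.le_mul_of_pos_right (1 + F.natDegree) h4]
    nlinarith [Nat.mul_le_mul_left n1 i2]
  · obtain ⟨s, s1, s2⟩ := (ha v).2.1 hv
    obtain ⟨m, rfl⟩ := wp_ker (ht v hv) (fun e => FFix_ne A0 v
      ((ht v hv).symm.trans (by rw [e, zero_pow (Nat.sub_ne_zero_of_lt hp.out.one_lt)]))) s1
    exact ⟨_, r2 v m, s2⟩

theorem card_F0 (hF : F ≠ 0) (hA : A ∣ F) (n1 K : ℕ) : ∃ C : ℕ, ∀ (b : k[X]) (d ϖ : RatFunc k)
    (Med : Finset (Pl k)) (Y : ℕ), b ≠ 0 → IsCoprime b F → Med.card ≤ K → (∀ v ∈ Med, pdg v ≤ Y) →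
    (fac' b).card ≤ Y → 1 ≤ Y → ∃ T : Finset (Kb k × Kb k), T.card ≤ Fintype.card k ^ (C * Y) ∧
      ∀ (n : ℕ) (W : Fin n → Kb k), ASr p (RatFunc k) W → ∀ x ∈ Fj p A F b d ϖ Med n1 W, ∀ I,
        (∀ J, J ⊂ I → x J = 0) → x I ∈ T := by
  classical
  obtain ⟨C1, c1⟩ := card_a (p := p) hF hA n1 K
  obtain ⟨C2, c2⟩ := card_fix (p := p) hF hA
  refine ⟨C1 + C2 * 2, fun b d ϖ Med Y hb hc h1 h2 h3 h4 => ?_⟩
  obtain ⟨T1, a1, a2⟩ := c1 b d Med Y hb hc h1 h2 h3 h4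
  obtain ⟨T2, b1, b2⟩ := c2 b hb hc
  choose! u hu using fun (a : RatFunc k) (h : ∃ w : RatFunc k,
    w - cK p (w / pk (RatFunc k) A) + a * ϖ = 0 ∧ ∀ v, InU F b v → av v w ≤ 1) => h
  refine ⟨(T1 ×ˢ T2).image fun y => (algebraMap _ _ y.1, algebraMap _ _ (u y.1 + y.2)),
    card_image_le.trans ?_, fun n W hW x hx I hI => ?_⟩
  · rw [card_product, add_mul, pow_add]
    refine Nat.mul_le_mul a1 (b1.trans (Nat.pow_le_pow_right Fintype.card_pos ?_))
    rw [mul_assoc]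
    exact Nat.mul_le_mul_left _ (by omega)
  obtain ⟨a, ea⟩ := Eq1.lower hW hx.1 I fun J hJ => congrArg Prod.fst (hI J hJ)
  obtain ⟨w, ew⟩ := Eq1.lower hW hx.2.1 I fun J hJ => congrArg Prod.snd (hI J hJ)
  obtain ⟨x1, x2⟩ := hx.2.2 I
  have n0 : ∀ v (y : RatFunc k), nm v (emb v (algebraMap _ _ y)) = av v y := fun v y => by
    rw [AlgHom.commutes, nm_algK]
  simp only [← ea, ← ew, n0] at x1 x2
  have e1 : w - cK p (w / pk _ A) + a * ϖ = 0 := (algebraMap _ (Kb k)).injective (by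
    rw [map_add, map_sub, alg_cKB, map_div₀, map_mul, map_zero]
    exact x1)
  obtain ⟨u1, u2⟩ := hu a ⟨w, e1, fun v => (x2 v).1⟩
  refine mem_image.2 ⟨(a, w - u a), mem_product.2 ⟨a2 a fun v => ⟨(x2 v).2.1, fun hv => ?_,
    (x2 v).2.2.2⟩, b2 _ ?_ fun v hv => Hasse_sub ((x2 v).1 hv) (u2 v hv)⟩,
    Prod.ext ea (by rw [← ew, add_sub_cancel])⟩
  · obtain ⟨t, t1, t2⟩ := (x2 v).2.2.1 hv
    refine ⟨t, t1, ?_⟩
    rwa [emb_algK, ← map_sub, nm_alg] at t2
  · rw [sub_div, map_sub]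
    linear_combination u1 - e1

theorem card_Fj (hF : F ≠ 0) (hA : A ∣ F) (n1 K : ℕ) : ∃ C : ℕ, ∀ (b : k[X]) (d ϖ : RatFunc k)
    (Med : Finset (Pl k)) (Y : ℕ), b ≠ 0 → IsCoprime b F → Med.card ≤ K → (∀ v ∈ Med, pdg v ≤ Y) →
    (fac' b).card ≤ Y → 1 ≤ Y → ∀ n ≤ K, ∀ W : Fin n → Kb k, ASr p (RatFunc k) W →
      {x | x ∈ Fj p A F b d ϖ Med n1 W}.Finite ∧
        {x | x ∈ Fj p A F b d ϖ Med n1 W}.ncard ≤ Fintype.card k ^ (C * Y) := by
  obtain ⟨C, hC⟩ := card_F0 (p := p) hF hA n1 K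
  refine ⟨C * 2 ^ K, fun b d ϖ Med Y hb hc h1 h2 h3 h4 n hn W hW => ?_⟩
  obtain ⟨T, t1, t2⟩ := hC b d ϖ Med Y hb hc h1 h2 h3 h4
  obtain ⟨f1, f2⟩ := card_dev _ T (t2 n W hW)
  refine ⟨f1, f2.trans ((Nat.pow_le_pow_left t1 _).trans ?_)⟩
  rw [← pow_mul, mul_right_comm]
  exact Nat.pow_le_pow_right Fintype.card_pos (Nat.mul_le_mul_right _
    (Nat.mul_le_mul_left _ (Nat.pow_le_pow_right two_pos hn)))

end Pool.Agent.ASel
end

-- merged part: Pool.Agent.Work.MP_60d5ce_nt.AG.FH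
section
/-!
# The cohomology of the complex of invariants is small  (AS, function field side)

PLAN.  Constant families have values in `k(t)`, `Lv v` (`Eqv.const`, `ASr.emb`), and conversely (`Eqv.alg`).  `card k = p ^ f` (`FiniteField.card`).
`coh1`: `exists_norm` with `n = 0`, `b' = b`, `d' = d`, `Med = ∅`, `x = fun _ => z` (`C1_spl`); `card_F0` (with `Y = card + 1`) bounds the first two components of `z - D0 y`, and they determine the third: the solution of `℘ y = a` in `Lv v` is unique at `InNa` (`wp_ker`, `na_root`, or `wp_fix_zero`).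
`coh2`: let `Y` be the subgroup of the `D1 D x`, `x` constant cochain; show `Cov X Y n` and use `Cov.inner`.  (1) `pf_many`, `wp_surj` kill the third component by some `(a, 0, y)`.  (2) `cov_cok` and `(0, w, 0)` kill the first component up to a small set.
(3) for `(0, q, 0)`, `Q q = q`, so `q v` is a cocycle (`Q_coc`): choose `a` with `a - (q v).1` integral on `Sf`, integral elsewhere; up to a small set (`cov_graph` with `cov_cok`) `a ϖ = -(w - C (w / A))`, then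
`(0, q, 0) - D1 (a, w, y) = (0, Q (q - (a, w)), 0)` and `q v - (a, w)` is a cocycle with integral first component: `cov_pi`, `cov_Lt0`, `cov_Lt1`, `Q_iff`.
-/

set_option linter.unusedSectionVars false

namespace Pool.Agent.ASel

open Polynomial Pool.Agent.Smith Finset

variable {p : ℕ} {k : Type} [Field k] [Fintype k] [hp : Fact p.Prime] [CharP k p]
  {A F : k[X]} {ϖ : RatFunc k} {ε : ℤ}

section aux

open scoped Classical

variable {ι : Type} [Fintype ι] {b : k[X]} {Φ : ASF p k ι} {n0 : ℕ} {d : RatFunc k}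

/-- the functions that are regular at the unramified places -/
def FH_R (F b : k[X]) : AddSubgroup (RatFunc k) where
  carrier := {f | ∀ v, InU F b v → av v f ≤ 1}
  zero_mem' v _ := by simp
  add_mem' ha hb v hv := Hasse_add (ha v hv) (hb v hv)
  neg_mem' ha v hv := by
    rw [AbsoluteValue.map_neg]
    exact ha v hv

variable (p) in
/-- the operator on forms -/
noncomputable def FH_phi (A : k[X]) : RatFunc k →+ RatFunc k :=
  AddMonoidHom.mk' (fun w => w - cK p (w / pk _ A)) fun x y => by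
    rw [add_div, map_add, add_sub_add_comm]

theorem FH_alg {a : RatFunc k} (h : a ∈ FH_R F b) : (fun _ => algebraMap _ _ a) ∈ C0 F b Φ :=
  ⟨Eqv.alg a, fun v hv _ => by
    rw [emb_algK, nm_alg, norm_alg]
    exact h v hv⟩

theorem FH_const {x : Kb k} (h : (fun _ => x) ∈ C0 F b Φ) :
    ∃ a ∈ FH_R F b, algebraMap _ _ a = x := by
  obtain ⟨a, rfl⟩ := Eqv.const Φ.asr h.1
  refine ⟨a, fun v hv => ?_, rfl⟩
  have := h.2 v hv 0
  rwa [emb_algK, nm_alg, norm_alg] at this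

variable (p) in
/-- a constant cochain -/
noncomputable def FH_x (A b : k[X]) (a w : RatFunc k) (u : ∀ v : Pl k, Lv v) : W1 k :=
  (algebraMap _ _ a, algebraMap _ _ w, fun v => if InNa p A b v then algebraMap _ _ (u v) else 0)

theorem FH_mem {a w : RatFunc k} (ha : a ∈ FH_R F b) (hw : w ∈ FH_R F b) (u : ∀ v : Pl k, Lv v) :
    (fun _ => FH_x p A b a w u) ∈ C1 A F b Φ := by
  refine ⟨FH_alg ha, FH_alg hw, fun v => ⟨?_, fun h _ => if_neg h⟩⟩
  change (fun _ => if InNa p A b v then algebraMap _ _ (u v) else 0) ∈ _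
  split_ifs
  exacts [Eqv.alg _, zero_mem _]

theorem FH_D1 (D : LtD p A F b n0 d ϖ ε) (a w : RatFunc k) (u : ∀ v : Pl k, Lv v) :
    (D1 D (FH_x p A b a w u)).1 = algebraMap _ _ (FH_phi p A w + a * ϖ) ∧
    (∀ v, (D1 D (FH_x p A b a w u)).2.1 v =
      if InS p A F b v then D.Q v (algebraMap _ _ a, algebraMap _ _ w) else 0) ∧
    ∀ v, (D1 D (FH_x p A b a w u)).2.2 v = if InNa p A b v then
      algebraMap (Lv v) _ (algebraMap _ _ a - (u v ^ p / pk _ A - u v)) else 0 := by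
  refine ⟨?_, fun v => ?_, fun v => ?_⟩
  · change algebraMap _ _ w - cB p (algebraMap _ _ w / algebraMap _ _ (pk (RatFunc k) A)) +
      algebraMap _ _ a * algebraMap _ _ ϖ = algebraMap _ _ (w - cK p (w / pk _ A) + a * ϖ)
    rw [← map_div₀, ← alg_cKB, map_add, map_sub, map_mul]
  · change (if InS p A F b v then D.Q v (rt v (emb v (algebraMap _ _ a)),
      rt v (emb v (algebraMap _ _ w))) else 0) = _
    rw [emb_algK, emb_algK, rt_alg, rt_alg]
  · change (if InNa p A b v then emb v (algebraMap _ _ a) -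
      ((if InNa p A b v then algebraMap _ _ (u v) else 0) ^ p / pk _ A -
        if InNa p A b v then algebraMap _ _ (u v) else 0) else 0) = _
    split_ifs
    · rw [emb_algK, map_sub, map_sub, map_div₀, map_pow, alg_pk]
    · rfl

/-- the elements that can be moved into `X` by a constant coboundary -/
def FH_P (D : LtD p A F b n0 d ϖ ε) (Φ : ASF p k ι) (X : Set (W2 k)) : Set (W2 k) :=
  {y | ∃ x, (fun _ => x) ∈ C1 A F b Φ ∧ y - D1 D x ∈ X}

theorem FH_up {D : LtD p A F b n0 d ϖ ε} {X Z : Set (W2 k)} {m : ℕ} (h : Cov X (FH_P D Φ Z) m) :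
    Cov (FH_P D Φ X) (FH_P D Φ Z) m := by
  obtain ⟨T, a, c⟩ := h
  refine ⟨T, a, fun y ⟨x, x1, x2⟩ => ?_⟩
  obtain ⟨t, t1, x', t2, t3⟩ := c _ x2
  refine ⟨t, t1, x + x', add_mem x1 t2, ?_⟩
  rw [map_add, show y - t - (D1 D x + D1 D x') = y - D1 D x - t - D1 D x' by abel]
  exact t3

theorem FH_cok {N : ℕ} (h : Cov {f : RatFunc k | ∀ v, InU F b v → av v f ≤ 1}
    {f | ∃ w : RatFunc k, (∀ v, InU F b v → av v w ≤ 1) ∧ f = w - cK p (w / pk _ A)} N) :
    Cov (FH_R F b : Set (RatFunc k)) ((FH_R F b).map (FH_phi p A)) N :=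
  h.mono le_rfl (fun _ ⟨w, h1, h2⟩ => ⟨w, h1, h2.symm⟩) le_rfl

variable (hT : Ty p A F ϖ ε) (hS : Stg A F b Φ)
include hT hS

theorem FH_third {D : LtD p A F b n0 d ϖ ε} {z : W1 k} (h1 : (fun _ => z) ∈ C1 A F b Φ)
    (h2 : D1 D z = 0) (h3 : z.1 = 0) : z.2.2 = 0 := by
  funext v
  by_cases hv : InNa p A b v
  · have e := ((D1_eq_zero (C1_spl hS h1 0)).1 h2).2.2 v hv
    rw [h3, map_zero, ← alg_pk] at e
    exact wp_fix_zero (ASr.emb v Φ.asr) (FC_pk hS hT _) (na_root hT.dvd hS.cop hv)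
      (Eqv.fix (h1.2.2 v).1 0) e.symm
  · exact (h1.2.2 v).2 hv 0

theorem FH_sol (c : ∀ v : Pl k, Lv v) (hc : ∀ v, InNa p A b v → ‖c v‖ ≤ 1) :
    ∃ u : ∀ v : Pl k, Lv v, ∀ v, InNa p A b v → u v ^ p / pk _ A - u v = c v := by
  have : ∀ v, ∃ u : Lv v, InNa p A b v → u ^ p / pk _ A - u = c v := fun v => by
    by_cases hv : InNa p A b v
    · obtain ⟨u, -, hu⟩ := wp_surj (norm_pk_one hT.dvd (not_S0_of_dvd hS.cop hv.1 hv.2.1))
        (na_root hT.dvd hS.cop hv) (hc v hv)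
      exact ⟨u, fun _ => hu⟩
    · exact ⟨0, fun h => (hv h).elim⟩
  exact ⟨fun v => (this v).choose, fun v => (this v).choose_spec⟩

theorem FH_sub (D : LtD p A F b n0 d ϖ ε) {y : W2 k} (hy : (fun _ => y) ∈ C2 D Φ) {x : W1 k}
    (hx : (fun _ => x) ∈ C1 A F b Φ) : (fun _ => y - D1 D x) ∈ C2 D Φ :=
  sub_mem hy (D1_mem hS hT D _ hx)

theorem FH_s1 (D : LtD p A F b n0 d ϖ ε) {y : W2 k} (hy : (fun _ => y) ∈ C2 D Φ) :
    y ∈ FH_P D Φ {y | (fun _ => y) ∈ C2 D Φ ∧ y.2.2 = 0} := by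
  choose s hs using fun v => Eqv.const (ASr.emb v Φ.asr) (hy.2.2 v).1
  obtain ⟨a, a1, a2, -⟩ := pf_many (Nf p A b) s
  obtain ⟨u, hu⟩ := FH_sol hT hS (fun v => algebraMap _ _ a - s v) fun v hv => by
    rw [norm_sub_rev]
    exact a1 v ((mem_Nf hS.b_ne).2 hv)
  have hx := FH_mem (Φ := Φ) (A := A) (a := a)
    (fun v hv => a2 v fun h => (inU_iff.1 hv).2 ((mem_Nf hS.b_ne).1 h)) (zero_mem (FH_R F b)) u
  refine ⟨_, hx, FH_sub hT hS D hy hx, funext fun v => ?_⟩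
  change y.2.2 v - (D1 D _).2.2 v = 0
  rw [(FH_D1 D a 0 u).2.2 v]
  split_ifs with h
  · rw [hu v h, sub_sub_cancel, hs, sub_self]
  · exact (sub_zero _).trans ((hy.2.2 v).2 h 0)

theorem FH_s2 (D : LtD p A F b n0 d ϖ ε) {N : ℕ}
    (h : Cov (FH_R F b : Set (RatFunc k)) ((FH_R F b).map (FH_phi p A)) N) :
    Cov {y | (fun _ => y) ∈ C2 D Φ ∧ y.2.2 = 0}
      (FH_P D Φ {y | (fun _ => y) ∈ C2 D Φ ∧ y.2.2 = 0 ∧ y.1 = 0}) N := by
  let Γ : AddSubgroup (W2 k × RatFunc k) :=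
    { carrier := {z | (fun _ => z.1) ∈ C2 D Φ ∧ z.1.2.2 = 0 ∧ z.1.1 = algebraMap _ _ z.2}
      zero_mem' := ⟨zero_mem _, rfl, (map_zero _).symm⟩
      add_mem' := fun ha hb => ⟨add_mem ha.1 hb.1, (congrArg₂ (· + ·) ha.2.1 hb.2.1).trans (add_zero 0),
        (congrArg₂ (· + ·) ha.2.2 hb.2.2).trans (map_add _ _ _).symm⟩
      neg_mem' := fun ha => ⟨neg_mem ha.1, (congrArg (- ·) ha.2.1).trans neg_zero,
        (congrArg (- ·) ha.2.2).trans (map_neg _ _).symm⟩ }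
  refine (cov_graph Γ (fun y hy => ?_) h).mono le_rfl ?_ le_rfl
  · obtain ⟨a, a1, a2⟩ := FH_const hy.1.1
    exact ⟨a, a1, hy.1, hy.2, a2.symm⟩
  rintro y ⟨_, ⟨w, hw, rfl⟩, y1, y2, y3⟩
  have hx := FH_mem (Φ := Φ) (A := A) (zero_mem (FH_R F b)) hw 0
  refine ⟨_, hx, FH_sub hT hS D y1 hx, funext fun v => ?_, ?_⟩
  · change y.2.2 v - (D1 D _).2.2 v = 0
    rw [(FH_D1 D 0 w 0).2.2 v, show y.2.2 = 0 from y2]
    simp [hp.out.ne_zero]
  · change y.1 - (D1 D _).1 = 0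
    rw [(FH_D1 D 0 w 0).1, zero_mul, add_zero, show y.1 = _ from y3, sub_self]

theorem FH_s3 (D : LtD p A F b n0 d ϖ ε) {N : ℕ}
    (h : Cov (FH_R F b : Set (RatFunc k)) ((FH_R F b).map (FH_phi p A)) N) :
    Cov {y | (fun _ => y) ∈ C2 D Φ ∧ y.2.2 = 0 ∧ y.1 = 0}
      (FH_P D Φ {y | ∃ r : ∀ v : Pl k, Lv v × Lv v,
        (∀ v ∈ Sf p A F b, dL p A ϖ v (r v) = 0 ∧ ‖(r v).1‖ ≤ 1) ∧
          y = (0, fun v => if InS p A F b v then D.Q v (r v) else 0, 0)}) N := by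
  let Γ : AddSubgroup (W2 k × RatFunc k) :=
    { carrier := {z | (fun _ => z.1) ∈ C2 D Φ ∧ z.1.2.2 = 0 ∧ z.1.1 = 0 ∧ ∃ a : RatFunc k,
        (∀ v ∈ Sf p A F b, ‖(z.1.2.1 v).1 - algebraMap _ _ a‖ ≤ 1) ∧ (∀ v ∉ Sf p A F b, av v a ≤ 1) ∧
          z.2 = -(a * ϖ)}
      zero_mem' := ⟨zero_mem _, rfl, rfl, 0, fun v _ => by simp, fun v _ => by simp, by simp⟩
      add_mem' := by
        rintro z z' ⟨a1, a2, a3, a, a4, a5, a6⟩ ⟨b1, b2, b3, a', b4, b5, b6⟩
        refine ⟨add_mem a1 b1, (congrArg₂ (· + ·) a2 b2).trans (add_zero 0),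
          (congrArg₂ (· + ·) a3 b3).trans (add_zero 0), a + a', fun v hv => ?_,
          fun v hv => Hasse_add (a5 v hv) (b5 v hv), by rw [Prod.snd_add, a6, b6, add_mul, neg_add]⟩
        have := PF_add (a4 v hv) (b4 v hv)
        rwa [← add_sub_add_comm, ← map_add] at this
      neg_mem' := by
        rintro z ⟨a1, a2, a3, a, a4, a5, a6⟩
        refine ⟨neg_mem a1, (congrArg (- ·) a2).trans neg_zero, (congrArg (- ·) a3).trans neg_zero, -a,
          fun v hv => ?_, fun v hv => by rw [AbsoluteValue.map_neg]; exact a5 v hv,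
          by rw [Prod.snd_neg, a6, neg_mul]⟩
        have := a4 v hv
        rwa [← norm_neg, neg_sub', ← map_neg] at this }
  have mS := fun v => mem_Sf (p := p) (A := A) (v := v) hT.F_ne hS.b_ne
  have hR : ∀ {a : RatFunc k}, (∀ v ∉ Sf p A F b, av v a ≤ 1) → a ∈ FH_R F b := fun ha v hv =>
    ha v fun h => (inU_iff.1 hv).1 ((mS v).1 h)
  refine (cov_graph Γ (fun y hy => ?_) h).mono le_rfl ?_ le_rfl
  · obtain ⟨a, a1, a2, -⟩ := pf_many (Sf p A F b) fun v => (y.2.1 v).1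
    refine ⟨_, neg_mem (fun v hv => ?_ : a * ϖ ∈ FH_R F b), hy.1, hy.2.1, hy.2.2, a, a1, a2, rfl⟩
    rw [map_mul]
    exact mul_le_one₀ (hR a2 v hv) ((av v).nonneg _)
      (hT.int v fun h => (inU_iff (p := p) (A := A).1 hv).1 (Or.inl h))
  rintro y ⟨_, ⟨w, hw, rfl⟩, y1, y2, y3, a, a1, a2, a3⟩
  have e : FH_phi p A w + a * ϖ = 0 := by rw [show FH_phi p A w = _ from a3, neg_add_cancel]
  obtain ⟨u, hu⟩ := FH_sol hT hS (fun v => algebraMap _ _ a) fun v hv => by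
    rw [norm_alg]
    exact a2 v fun h => hv.not_S hS.cop ((mS v).1 h)
  refine ⟨_, FH_mem (hR a2) hw u, fun v => y.2.1 v - (algebraMap _ _ a, algebraMap _ _ w),
    fun v hv => ⟨?_, a1 v hv⟩, Prod.ext ?_ (Prod.ext (funext fun v => ?_) (funext fun v => ?_))⟩
  · have e1 := D.Q_coc v (y.2.1 v)
    have e2 := congrArg (algebraMap _ (Lv v)) e
    rw [(y1.2.1 0 v).1] at e1
    change algebraMap _ (Lv v) (w - cK p (w / pk _ A) + a * ϖ) = _ at e2
    rw [map_add, map_sub, map_mul, alg_cK, map_div₀, FHat_pk, map_zero] at e2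
    simp only [dL, Prod.fst_sub, Prod.snd_sub, sub_div, map_sub] at e1 ⊢
    linear_combination e1 - e2
  · change y.1 - (D1 D _).1 = 0
    rw [(FH_D1 D a w u).1, e, map_zero, show y.1 = 0 from y3, sub_self]
  · change y.2.1 v - (D1 D _).2.1 v = if InS p A F b v then D.Q v (y.2.1 v - _) else 0
    rw [(FH_D1 D a w u).2.1 v]
    split_ifs with h
    · rw [map_sub, (y1.2.1 0 v).1]
    · rw [(y1.2.1 0 v).2 h, sub_zero]
  · change y.2.2 v - (D1 D _).2.2 v = 0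
    rw [(FH_D1 D a w u).2.2 v, show y.2.2 = 0 from y2]
    split_ifs with h
    · rw [hu v h, sub_self, map_zero, Pi.zero_apply, sub_zero]
    · exact sub_zero _

theorem FH_s4 (D : LtD p A F b n0 d ϖ ε) (n : Pl k → ℕ) (h : ∀ v ∈ Sf p A F b,
    Cov {x : Lv v × Lv v | dL p A ϖ v x = 0 ∧ ‖x.1‖ ≤ 1} (D.Lt v) (n v)) :
    Cov {y : W2 k | ∃ r : ∀ v : Pl k, Lv v × Lv v,
        (∀ v ∈ Sf p A F b, dL p A ϖ v (r v) = 0 ∧ ‖(r v).1‖ ≤ 1) ∧
          y = (0, fun v => if InS p A F b v then D.Q v (r v) else 0, 0)} (FH_P D Φ {0})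
      (∏ v ∈ Sf p A F b, n v) := by
  obtain ⟨T, a, c⟩ := cov_pi _ _ _ n h
  refine ⟨T.image fun r => (0, fun v => if InS p A F b v then D.Q v (r v) else 0, 0),
    card_image_le.trans a, ?_⟩
  rintro _ ⟨r, hr, rfl⟩
  obtain ⟨t, t1, t2⟩ := c r hr
  refine ⟨_, mem_image_of_mem _ t1, 0, zero_mem _, ?_⟩
  rw [map_zero, sub_zero, Set.mem_singleton_iff, sub_eq_zero]
  refine Prod.ext rfl (Prod.ext (funext fun v => ?_) rfl)
  refine ite_congr rfl (fun hv => ?_) fun _ => rfl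
  have m := t2 v ((mem_Sf hT.F_ne hS.b_ne).2 hv)
  rw [← sub_eq_zero, ← map_sub]
  exact (D.Q_iff v _ (D.coc v _ m)).2 m

end aux

theorem coh1 (hT : Ty p A F ϖ ε) (n0 : ℕ) : ∃ C : ℕ, ∀ {ι : Type} [Fintype ι] {b : k[X]}
    {Φ : ASF p k ι}, Stg A F b Φ → ∀ D : LtD p A F b n0 Φ.d ϖ ε,
    ∃ T : Finset (W1 k), T.card ≤ p ^ (C * ((fac' b).card + 1)) ∧
      ∀ z, (fun _ => z) ∈ C1 A F b Φ → D1 D z = 0 →
        ∃ y, (fun _ => y) ∈ C0 F b Φ ∧ z - D0 p A b ϖ y ∈ T := by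
  classical
  obtain ⟨n1, H1⟩ := exists_norm hT n0 0
  obtain ⟨C, H2⟩ := card_F0 (p := p) hT.F_ne hT.dvd n1 0
  obtain ⟨f, -, hf⟩ := FiniteField.card k p
  refine ⟨f * C, fun {ι} _ b Φ hS D => ?_⟩
  obtain ⟨T, T1, T2⟩ := H2 b Φ.d ϖ ∅ ((fac' b).card + 1) hS.b_ne hS.cop (by simp) (by simp)
    (Nat.le_succ _) (Nat.le_add_left _ _)
  obtain ⟨T', a1, -, a3⟩ := FCov_pick T fun t (z : W1 k) =>
    (fun _ => z) ∈ C1 A F b Φ ∧ D1 D z = 0 ∧ (z.1, z.2.1) = t
  refine ⟨T', a1.trans (by rwa [hf, ← pow_mul, ← mul_assoc] at T1), fun z z1 z2 => ?_⟩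
  have hW : ASr p (RatFunc k) (Fin.elim0 : Fin 0 → Kb k) := fun i => i.elim0
  have E : ∀ {L M : Type} [Field L] [Field M] [Algebra L M] {W : Fin 0 → M} {x : M},
      (∃ a : L, algebraMap L M a = x) → (fun _ => x) ∈ Eq1 p L W := by
    rintro L M _ _ _ W _ ⟨a, rfl⟩
    exact FNorm_eq1 (fun i => i.elim0) fun _ => a
  obtain ⟨Y, Y1, Y2, Y3, -⟩ := H1 (d' := Φ.d) D ∅ (W := Fin.elim0) (h := Fin.elim0) (x := fun _ => z)
    hS.b_ne hS.cop dvd_rfl (fun v hv =>
      ⟨hv, (hS.d_lt v (not_S0_of_dvd hS.cop hv.1 hv.2.1)).le, by simp⟩) (by simp) le_rfl (fun i => i.elim0)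
    (fun i => i.elim0) (fun i => i.elim0) ⟨E (Eqv.const Φ.asr z1.1.1), E (Eqv.const Φ.asr z1.2.1.1),
      fun v => E (Eqv.const (ASr.emb v Φ.asr) (z1.2.2 v).1),
      fun v hv _ => ⟨z1.1.2 v hv 0, z1.2.1.2 v hv 0⟩, fun _ => C1_spl hS z1 0⟩ fun _ => z2
  have n : ∀ {M : Type} [Zero M] (x : Finset (Fin 0) → M), ∀ J, J ⊂ ∅ → x J = 0 :=
    fun _ J hJ => (not_ssubset_empty J hJ).elim
  obtain ⟨y, hy⟩ := Eq1.lower hW Y1 ∅ (n _)
  have y1 : (fun _ => Y ∅) ∈ C0 F b Φ := ⟨hy ▸ Eqv.alg y, fun v hv _ => Y2 v hv ∅⟩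
  have m1 : (fun _ => z - D0 p A b ϖ (Y ∅)) ∈ C1 A F b Φ := sub_mem z1 (D0_mem hS hT _ y1)
  have m2 : D1 D (z - D0 p A b ϖ (Y ∅)) = 0 := by rw [map_sub, z2, D1_D0 hS hT D _ y1 0, sub_zero]
  obtain ⟨z', b1, b2, b3, b4⟩ := a3 _ (T2 0 _ hW _ Y3 ∅ (n _)) _
    ⟨m1, m2, Prod.ext rfl (sub_neg_eq_add _ _)⟩
  have c1 : z'.1 = (z - D0 p A b ϖ (Y ∅)).1 := (Prod.ext_iff.1 b4).1
  have c2 : z'.2.1 = (z - D0 p A b ϖ (Y ∅)).2.1 :=
    (Prod.ext_iff.1 b4).2.trans (sub_neg_eq_add _ _).symm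
  have c3 := FH_third hT hS (z := z' - (z - D0 p A b ϖ (Y ∅))) (sub_mem b2 m1)
    (by rw [map_sub, b3, m2, sub_zero]) (sub_eq_zero.2 c1)
  exact ⟨_, y1, Prod.ext c1 (Prod.ext c2 (sub_eq_zero.1 c3)) ▸ b1⟩

theorem coh2 (hT : Ty p A F ϖ ε) (n0 : ℕ) : ∃ C : ℕ, ∀ {ι : Type} [Fintype ι] {b : k[X]}
    {Φ : ASF p k ι}, Stg A F b Φ → ∀ D : LtD p A F b n0 Φ.d ϖ ε,
    ∃ T : Finset (W2 k), T.card ≤ p ^ (C * ((fac' b).card + 1)) ∧
      ∀ y, (fun _ => y) ∈ C2 D Φ → ∃ x, (fun _ => x) ∈ C1 A F b Φ ∧ y - D1 D x ∈ T := by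
  classical
  obtain ⟨C1, H1⟩ := cov_cok (p := p) hT.F_ne hT.dvd
  obtain ⟨C0, H0⟩ := cov_Lt0 hT n0
  obtain ⟨f, -, hf⟩ := FiniteField.card k p
  refine ⟨f * C1 + (f * C1 + (f * C0 * (insert none (fac' F)).card + 3)), fun {ι} _ b Φ hS D => ?_⟩
  have h := FH_cok (H1 b hS.b_ne hS.cop)
  have mS := fun v => mem_Sf (p := p) (A := A) (v := v) hT.F_ne hS.b_ne
  obtain ⟨T, T1, T2⟩ := FH_up ((FH_s2 hT hS D h).trans (FH_up ((FH_s3 hT hS D h).trans (FH_up
    (FH_s4 hT hS D (fun v => if InS0 F v then Fintype.card k ^ C0 else p ^ 3) fun v hv => by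
      split_ifs with h0
      exacts [H0 D v h0, cov_Lt1 hT hS.cop D ((inS_iff.1 ((mS v).1 hv)).resolve_left h0)])))))
  refine ⟨T, T1.trans ?_, fun y hy => ?_⟩
  · have c1 : ((Sf p A F b).filter (InS0 F)).card ≤ (insert none (fac' F)).card :=
      card_le_card fun v hv => by
        rw [mem_insert, mem_fac' hT.F_ne]
        have := (mem_filter.1 hv).2
        unfold InS0 at this
        tauto
    have c2 : ((Sf p A F b).filter fun v => ¬ InS0 F v).card ≤ (fac' b).card :=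
      card_le_card fun v hv => by
        have := (inS_iff.1 ((mS v).1 (mem_filter.1 hv).1)).resolve_left (mem_filter.1 hv).2
        exact (mem_fac' hS.b_ne).2 ⟨this.1, this.2.1⟩
    rw [prod_ite, prod_const, prod_const, hf]
    simp only [← pow_mul, ← pow_add]
    refine Nat.pow_le_pow_right hp.out.pos ?_
    have := Nat.mul_le_mul_left (f * C0) c1
    nlinarith [Nat.zero_le (f * C0 * (insert none (fac' F)).card * (fac' b).card)]
  · obtain ⟨t, t1, x, x1, x2⟩ := T2 y (FH_s1 hT hS D hy)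
    rw [Set.mem_singleton_iff, sub_right_comm, sub_eq_zero] at x2
    exact ⟨x, x1, x2 ▸ t1⟩

end Pool.Agent.ASel
end

-- merged part: Pool.Agent.Work.MP_60d5ce_nt.AG.FT1
section
/-!
# The top coefficient of the pairing  (AS, function field side)

PLAN.  Let `Θ ∈ k(t)` be the element with image `thT a1 w1 a' w'` (`Eq1.tp_mem`); it is regular at `InU` (`tp_le`, `Ty.int`), so `∑ v ∈ Sf ∪ Nf, res Θ = 0` (`res_sum`, `int_iff`, `inU_iff`).
At `v ∈ Sf`: the terms with `D.P` vanish by `LtD.iso` (`D1_eq_zero`), `∑ (-1) ^ card * thL (lc (xc I)) (lc (x' Iᶜ))` has the image `thT (a1 - WJ a) … = Θ - s θ` (`thT_eq_sum`, `thT_sub_mul`,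
`map_thT`, injectivity of `algebraMap`; `xc I ∈ SplG` because `emb v WJ` is in `Lv v`).  At `v ∈ Nf`: `res ∘ rt` is additive, the signed sum is the left side of `na_id` (with `C = cM p v`, `S = Om`), and `z` is the image of some `z0 ∈ Lv v`
(`Eq1.tp_mem` over `Lv v`, `Eq1.phi`, `Eq1.mul_alg`, `Eq1.emb`), so `rt` gives `Θ + h ξ - (z0 - cL z0)` (`alg_cL`, `rt_alg`, `res_car`).
-/

set_option linter.unusedSectionVars false

namespace Pool.Agent.ASel

open Polynomial Pool.Agent.Smith Finset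

variable {p : ℕ} {k : Type} [Field k] [Fintype k] [hp : Fact p.Prime] [CharP k p]
  {A F b : k[X]} {n0 : ℕ} {d ϖ : RatFunc k} {ε : ℤ}

theorem FT1_th {K M : Type} [Field K] [Field M] [Algebra K M] [CharP K p] [CharP M p]
    [IsAlgClosure K M] {n : ℕ} {W : Fin n → M} (hW : ASr p K W) (ε : ℤ) (ϖ : K)
    {a w a' w' : Finset (Fin n) → M} (ha : a ∈ Eq1 p K W) (hw : w ∈ Eq1 p K W)
    (ha' : a' ∈ Eq1 p K W) (hw' : w' ∈ Eq1 p K W) :
    ∃ Θ : K, algebraMap K M Θ = thT ε (algebraMap K M ϖ) a w a' w' := by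
  obtain ⟨t1, h1⟩ := Eq1.tp_mem hW ha hw'
  obtain ⟨t2, h2⟩ := Eq1.tp_mem hW hw ha'
  obtain ⟨t3, h3⟩ := Eq1.tp_mem hW ha ha'
  exact ⟨t1 + ε • t2 + t3 * ϖ, by rw [map_add, map_add, map_zsmul, map_mul, h1, h2, h3, thT]⟩

theorem FT1_sgn {M : Type} [Field M] (r : M →+ ZMod p) (c : ℕ) (t : M) :
    (-1) ^ c * r t = r ((-1) ^ c * t) := by
  rcases Nat.even_or_odd c with h | h <;> simp [h.neg_one_pow]

theorem FT1_alg (v : Pl k) (a : RatFunc k) :
    algebraMap (Lv v) (Lb v) (algebraMap _ _ a) = algebraMap (RatFunc k) (Lb v) a :=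
  (emb_algK v a).symm.trans ((emb v).commutes a)

theorem FT1_emb (v : Pl k) {n : ℕ} (a w a' w' : Finset (Fin n) → Kb k) :
    emb v (thT ε (algebraMap _ _ ϖ) a w a' w') = thT ε (algebraMap (RatFunc k) _ ϖ)
      (fun I => emb v (a I)) (fun I => emb v (w I)) (fun I => emb v (a' I)) fun I => emb v (w' I) :=
  (emb v).commutes ϖ ▸ map_thT (emb v : Kb k →+* Lb v) ε _ a w a' w'

theorem FT1_le (hT : Ty p A F ϖ ε) {n : ℕ} {W : Fin n → Kb k} {x x' : Finset (Fin n) → W1 k}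
    (hx : Cn p A F b W x) (hx' : Cn p A F b W x') {θ : RatFunc k}
    (hθ : algebraMap _ _ θ = thT ε (algebraMap _ _ ϖ) (fun I => (x I).1) (fun I => (x I).2.1)
      (fun I => (x' I).1) fun I => (x' I).2.1) {v : Pl k} (hv : InU F b v) : av v θ ≤ 1 := by
  have h1 := tp_le (nm_na v) (fun I => (hx.int v hv I).1) fun I => (hx'.int v hv I).2
  have h2 := tp_le (nm_na v) (fun I => (hx.int v hv I).2) fun I => (hx'.int v hv I).1
  have h3 := tp_le (nm_na v) (fun I => (hx.int v hv I).1) fun I => (hx'.int v hv I).1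
  have h4 := hT.int v fun h => (inU_iff (p := p) (A := A)).1 hv |>.1 (Or.inl h)
  rw [one_mul] at h1 h2 h3
  rw [← nm_algK, ← (emb v).commutes, hθ, FT1_emb, thT]
  refine (nm_na v _ _).trans (max_le ((nm_na v _ _).trans (max_le h1 ?_)) ?_)
  · rcases hT.sgn with h | h <;> simpa [h] using h2
  · rw [map_mul, nm_algK]
    exact mul_le_one₀ h3 (AbsoluteValue.nonneg _ _) h4

theorem FT1_loc {v : Pl k} {n : ℕ} {x x' : Finset (Fin n) → W1 k}
    (hx : ∀ I, algebraMap _ _ (lc v (x I)).1 = emb v (x I).1 ∧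
      algebraMap _ _ (lc v (x I)).2 = emb v (x I).2.1)
    (hx' : ∀ I, algebraMap _ _ (lc v (x' I)).1 = emb v (x' I).1 ∧
      algebraMap _ _ (lc v (x' I)).2 = emb v (x' I).2.1) {t : Lv v}
    (ht : algebraMap _ _ t = emb v (thT ε (algebraMap _ _ ϖ) (fun I => (x I).1)
      (fun I => (x I).2.1) (fun I => (x' I).1) fun I => (x' I).2.1)) :
    ∑ I : Finset (Fin n), (-1) ^ I.card * res p v (thL ϖ ε v (lc v (x I)) (lc v (x' Iᶜ))) =
      res p v t := by
  simp only [FT1_sgn, ← map_sum]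
  refine congrArg _ ((algebraMap (Lv v) (Lb v)).injective ?_)
  rw [ht, FT1_emb, thT_eq_sum]
  simp only [thL, map_sum, map_mul, map_add, map_pow, map_neg, map_one, map_zsmul, hx, hx', FT1_alg]

theorem FT1_d1 (v : Pl k) {x : W1 k} (hx : x.2.1 ∈ Om (RatFunc k) (Kb k)) :
    emb v (d1B p A ϖ x) = emb v x.2.1 - cM p v (emb v x.2.1 / pk _ A) +
      emb v x.1 * algebraMap (RatFunc k) _ ϖ := by
  rw [d1B, map_add, map_sub, map_mul, emb_cB v (x := x.2.1 / pk _ A) (div_mem hx (om_alg _)),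
    map_div₀, emb_pk, (emb v).commutes]

theorem FT1_coc {D : LtD p A F b n0 d ϖ ε} {x : W1 k} (hx : x ∈ SplG p A F b) (h : D1 D x = 0)
    {v : Pl k} (hv : InNa p A b v) : emb v x.1 = x.2.2 v ^ p / pk _ A - x.2.2 v ∧
      emb v x.2.1 - cM p v (emb v x.2.1 / pk _ A) +
        (x.2.2 v ^ p / pk _ A - x.2.2 v) * algebraMap (RatFunc k) _ ϖ = 0 := by
  obtain ⟨h1, -, h2⟩ := (D1_eq_zero hx).1 h
  exact ⟨h2 v hv, by rw [← h2 v hv, ← FT1_d1 v hx.2.1, h1, map_zero]⟩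

theorem FT1_hyp (hT : Ty p A F ϖ ε) (hc : IsCoprime b F) {v : Pl k} (hv : InNa p A b v) :
    pk (Lb v) A ∈ Om (Lv v) (Lb v) ∧ pk (Lb v) A ≠ 0 ∧
      algebraMap (RatFunc k) (Lb v) ϖ ∈ Om (Lv v) (Lb v) ∧
      cM p v (algebraMap (RatFunc k) _ ϖ / pk _ A ^ 2) = algebraMap (RatFunc k) _ ϖ ∧
      ε • algebraMap (RatFunc k) (Lb v) ϖ = algebraMap (RatFunc k) _ ϖ := by
  refine ⟨alg_pk v A ▸ om_alg _, fun h => ?_, FT1_alg v ϖ ▸ om_alg _, ?_,
    by rw [← map_zsmul, hT.eps]⟩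
  · have := nm_pk_one hT.dvd (not_S0_of_dvd hc hv.1 hv.2.1)
    simp [h] at this
  · have := alg_cL (p := p) v (algebraMap _ _ (ϖ / pk _ A ^ 2))
    rw [← alg_cK, hT.car, FT1_alg, FT1_alg, map_div₀, map_pow] at this
    exact this.symm

theorem FT1_phi {v : Pl k} {n : ℕ} {W : Fin n → Lb v} {y : Finset (Fin n) → Lb v}
    (hy : y ∈ Eq1 p (Lv v) W) : (fun I => y I ^ p / pk _ A) ∈ Eq1 p (Lv v) W :=
  alg_pk v A ▸ Eq1.phi hy _

theorem top_formula (hT : Ty p A F ϖ ε) (hb : b ≠ 0) (hc : IsCoprime b F) (D : LtD p A F b n0 d ϖ ε)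
    {n : ℕ} {W : Fin n → Kb k} (hW : ASr p (RatFunc k) W) {x x' x1 xc : Finset (Fin n) → W1 k}
    (hx : Cn p A F b W x) (cx : ∀ I, D1 D (x I) = 0) (hx' : Cn p A F b W x')
    (cx' : ∀ I, D1 D (x' I) = 0) (hx1 : Cn p A F b W x1) {WJ : Kb k} {h : RatFunc k}
    (hJ : WJ ^ p - WJ = algebraMap _ _ h) (s : ∀ v : Pl k, Lv v)
    (hs : ∀ v, InS p A F b v → algebraMap _ _ (s v) = emb v WJ)
    (hxc : ∀ I, (xc I).1 = (x1 I).1 - WJ * (x I).1 ∧ (xc I).2.1 = (x1 I).2.1 - WJ * (x I).2.1 ∧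
      ∀ v, (xc I).2.2 v = (x1 I).2.2 v - emb v WJ * (x I).2.2 v) {θ : RatFunc k}
    (hθ : algebraMap _ _ θ = thT ε (algebraMap _ _ ϖ) (fun I => (x I).1) (fun I => (x I).2.1)
      (fun I => (x' I).1) fun I => (x' I).2.1) (ξ : ∀ v : Pl k, Lv v)
    (hξ : ∀ v, InNa p A b v → algebraMap _ _ (ξ v) =
      xiT p (pk (Lb v) A) ε (algebraMap (RatFunc k) _ ϖ) (fun I => (x I).2.2 v)
        (fun I => emb v (x I).2.1) (fun I => (x' I).2.2 v) fun I => emb v (x' I).2.1) :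
    -∑ I : Finset (Fin n), (-1) ^ I.card * bW D (xc I) (x' Iᶜ) =
      ∑ v ∈ Sf p A F b, res p v (s v * algebraMap _ _ θ) -
        ∑ v ∈ Nf p A b, res p v (algebraMap _ _ h * ξ v) := by
  classical
  obtain ⟨Θ, hΘ⟩ := FT1_th hW ε ϖ hx1.a_eq hx1.w_eq hx'.a_eq hx'.w_eq
  have hWJ : WJ ∈ Om (RatFunc k) (Kb k) :=
    om_wp (p := p) (one_mem _) one_ne_zero (om_alg h) (by rw [div_one, hJ])
  have h0 := res_sum (p := p) Θ (Sf p A F b ∪ Nf p A b) fun v hv => by
    rw [mem_union, not_or, mem_Sf hT.F_ne hb, mem_Nf hb, ← inU_iff] at hv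
    have := (int_iff hv.1 (algebraMap _ _ Θ)).2 ((norm_alg v Θ).trans_le (FT1_le hT hx1 hx' hΘ hv))
    rwa [uL, ← map_mul, norm_alg] at this
  rw [sum_union (disjoint_left.2 fun v h1 h2 =>
    ((mem_Nf hb).1 h2).not_S hc ((mem_Sf hT.F_ne hb).1 h1))] at h0
  have hS : ∀ v ∈ Sf p A F b, ∑ I : Finset (Fin n), (-1) ^ I.card * res p v (thL ϖ ε v
      (lc v (xc I) - D.P v (lc v (xc I))) (lc v (x' Iᶜ))) =
      res p v (algebraMap _ _ Θ) - res p v (s v * algebraMap _ _ θ) := fun v hv => by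
    rw [mem_Sf hT.F_ne hb] at hv
    have e : ∀ {X X1 : Kb k}, algebraMap _ _ (rt v (emb v X)) = emb v X →
        algebraMap _ _ (rt v (emb v X1)) = emb v X1 →
        algebraMap _ _ (rt v (emb v (X1 - WJ * X))) = emb v (X1 - WJ * X) := fun h1 h2 => by
      rw [map_sub (emb v), map_mul, ← h1, ← h2, ← hs v hv, ← map_mul, ← map_sub, rt_alg]
    rw [← map_sub, ← FT1_loc (ϖ := ϖ) (ε := ε) (x := xc) (fun I => by
      simp only [lc, (hxc I).1, (hxc I).2.1]
      exact ⟨e ((hx.spl I).2.2 v hv).1 ((hx1.spl I).2.2 v hv).1,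
        e ((hx.spl I).2.2 v hv).2 ((hx1.spl I).2.2 v hv).2⟩) (fun I => (hx'.spl I).2.2 v hv) (by
      simp only [hxc, thT_sub_mul]
      rw [← hΘ, ← hθ, map_sub, map_sub, map_mul, map_mul, hs v hv, emb_algK, emb_algK])]
    refine sum_congr rfl fun I _ => congrArg _ ?_
    rw [← sub_zero (res p v (thL ϖ ε v (lc v (xc I)) _)), ← D.iso v _ (D.P_mem v (lc v (xc I))) _
      (((D1_eq_zero (hx'.spl Iᶜ)).1 (cx' Iᶜ)).2.1 v hv), ← map_sub]
    refine congrArg _ ?_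
    simp only [thL, Prod.fst_sub, Prod.snd_sub, zsmul_eq_mul]
    ring
  have hN : ∀ v ∈ Nf p A b, ∑ I : Finset (Fin n), (-1) ^ I.card * res p v (rt v
      ((emb v (xc I).1 - ((xc I).2.2 v ^ p / pk _ A - (xc I).2.2 v)) *
        (emb v (x' Iᶜ).2.1 + (x' Iᶜ).2.2 v ^ p / pk _ A * algebraMap (RatFunc k) _ ϖ) -
        ε • (emb v (d1B p A ϖ (xc I)) * (x' Iᶜ).2.2 v))) =
      res p v (algebraMap _ _ Θ) + res p v (algebraMap _ _ h * ξ v) := fun v hv => by
    rw [mem_Nf hb] at hv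
    obtain ⟨a1, a2, a3, a4, a5⟩ := FT1_hyp hT hc hv
    have c := fun I => FT1_coc (hx.spl I) (cx I) hv
    have c' := fun I => FT1_coc (hx'.spl I) (cx' I) hv
    have y' := FT1_phi (A := A) (hx'.y_eq v)
    obtain ⟨t1, e1⟩ := Eq1.tp_mem (hW.emb v) (FT1_phi (A := A) (hx1.y_eq v))
      (add_mem (Eq1.emb v hx'.w_eq) (Eq1.mul_alg y' (algebraMap _ _ ϖ)))
    obtain ⟨t2, e2⟩ := Eq1.tp_mem (hW.emb v) (Eq1.emb v hx1.w_eq) y'
    obtain ⟨t3, e3⟩ := Eq1.tp_mem (hW.emb v) (Eq1.emb v hx.w_eq) y'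
    have key := na_id (cM p v) _ (cM_frob v) a1 a2 a3 a4 a5 (hx.y_eq v).1 (Eq1.emb v hx.w_eq).1
      (hx'.y_eq v).1 (Eq1.emb v hx'.w_eq).1 (Eq1.emb v hx1.a_eq).1 (Eq1.emb v hx1.w_eq).1
      (hx1.y_eq v).1 (fun I => (c I).2) (fun I => (c' I).2) (emb_om v hWJ)
      (h0 := algebraMap (RatFunc k) _ h) (by rw [← map_pow, ← map_sub, hJ, (emb v).commutes])
      (algebraMap _ _ (t1 + ε • t2 + algebraMap _ _ h * ε • t3)) (by
        rw [map_add, map_add, map_mul, map_zsmul, map_zsmul, e1, e2, e3, FT1_alg, FT1_alg]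
        rfl)
    simp only [← fun I => (c' I).1] at key
    rw [← FT1_emb, ← hΘ, emb_algK, ← hξ v hv, ← alg_cL, ← FT1_alg v h, ← map_mul, ← map_add,
      ← map_sub, ← map_sub] at key
    have k2 := congrArg (fun X => res p v (rt v X)) key
    simp only [rt_alg] at k2
    rw [map_sub (res p v) (_ + _), map_sub (res p v) _ (cL p v _), res_car, sub_self, sub_zero,
      map_add (res p v)] at k2
    rw [← k2]
    refine (sum_congr rfl fun I _ => FT1_sgn ((res p v).comp (rt v)) _ _).trans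
      ((map_sum ((res p v).comp (rt v)) _ _).symm.trans (congrArg ((res p v).comp (rt v)) ?_))
    simp only [tp, zsmul_eq_mul, mul_sum, ← sum_sub_distrib]
    refine sum_congr rfl fun I _ => ?_
    rw [FT1_d1 v ((hxc I).2.1 ▸ sub_mem (hx1.spl I).2.1 (mul_mem hWJ (hx.spl I).2.1)),
      (hxc I).1, (hxc I).2.1, (hxc I).2.2, map_sub (emb v), map_sub (emb v), map_mul (emb v),
      map_mul (emb v), (c I).1]
    ring
  change -∑ I : Finset (Fin n), (-1) ^ I.card * bWf D (xc I) (x' Iᶜ) = _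
  simp only [bWf, mul_add (_ : ZMod p), mul_sum, sum_add_distrib]
  rw [sum_comm, sum_congr rfl hS, sum_comm, sum_congr rfl hN, sum_sub_distrib, sum_add_distrib]
  linear_combination -h0

/-- the data that enter the formula exist and satisfy the hypotheses of the reciprocity law -/
theorem top_data (hT : Ty p A F ϖ ε) (hb : b ≠ 0) (hc : IsCoprime b F) (D : LtD p A F b n0 d ϖ ε)
    {n : ℕ} {W : Fin n → Kb k} (hW : ASr p (RatFunc k) W) {x x' : Finset (Fin n) → W1 k}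
    (hx : Cn p A F b W x) (cx : ∀ I, D1 D (x I) = 0) (hx' : Cn p A F b W x')
    (cx' : ∀ I, D1 D (x' I) = 0) : ∃ (θ : RatFunc k) (ξ : ∀ v : Pl k, Lv v),
      algebraMap _ _ θ = thT ε (algebraMap _ _ ϖ) (fun I => (x I).1) (fun I => (x I).2.1)
        (fun I => (x' I).1) (fun I => (x' I).2.1) ∧
      (∀ v, InNa p A b v → algebraMap _ _ (ξ v) =
        xiT p (pk (Lb v) A) ε (algebraMap (RatFunc k) _ ϖ) (fun I => (x I).2.2 v)
          (fun I => emb v (x I).2.1) (fun I => (x' I).2.2 v) fun I => emb v (x' I).2.1) ∧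
      (∀ v, InS p A F b v → res p v (algebraMap _ _ θ) = 0) ∧
      (∀ v, InNa p A b v → ξ v - cL p v (ξ v) = algebraMap _ _ θ) ∧
      ∀ v, InU F b v → av v θ ≤ 1 := by
  obtain ⟨θ, hθ⟩ := FT1_th hW ε ϖ hx.a_eq hx.w_eq hx'.a_eq hx'.w_eq
  choose ξ hξ using fun v => FT1_th (hW.emb v) ε (algebraMap _ _ ϖ) (FT1_phi (A := A) (hx.y_eq v))
    (Eq1.emb v hx.w_eq) (FT1_phi (A := A) (hx'.y_eq v)) (Eq1.emb v hx'.w_eq)
  simp only [FT1_alg] at hξ
  refine ⟨θ, ξ, hθ, fun v _ => hξ v, fun v hv => ?_, fun v hv => ?_,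
    fun v hv => FT1_le hT hx hx' hθ hv⟩
  · rw [← FT1_loc (ϖ := ϖ) (ε := ε) (fun I => (hx.spl I).2.2 v hv) (fun I => (hx'.spl I).2.2 v hv)
      (by rw [← hθ, emb_algK])]
    refine sum_eq_zero fun I _ => ?_
    rw [D.iso v _ (((D1_eq_zero (hx.spl I)).1 (cx I)).2.1 v hv) _
      (((D1_eq_zero (hx'.spl Iᶜ)).1 (cx' Iᶜ)).2.1 v hv), mul_zero]
  · obtain ⟨a1, a2, a3, a4, a5⟩ := FT1_hyp hT hc hv
    have c := fun I => FT1_coc (hx.spl I) (cx I) hv
    have c' := fun I => FT1_coc (hx'.spl I) (cx' I) hv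
    have key := xi_car (cM p v) _ (cM_frob v) a1 a2 a3 a4 a5 (hx.y_eq v).1 (Eq1.emb v hx.w_eq).1
      (hx'.y_eq v).1 (Eq1.emb v hx'.w_eq).1 (fun I => (c I).2) fun I => (c' I).2
    simp only [← fun I => (c I).1, ← fun I => (c' I).1] at key
    refine (algebraMap (Lv v) (Lb v)).injective ?_
    rw [map_sub, alg_cL, hξ, ← emb_algK, hθ, FT1_emb]
    exact key

end Pool.Agent.ASel
end

-- merged part: Pool.Agent.Work.MP_60d5ce_nt.AG.FRec
section
/-!
# The reciprocity law for the triple symbol  (AS, function field side)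

PLAN.  `hasse'` gives `η0` with `η0 - C η0 = θ`, `η0 - ξ v` integral on `Nf`, `η0` integral on `InU` (residues of `θ` vanish everywhere: `res_car`, `res_int`).  For `h = c / P` and any `s` with `s ^ p - s = h` on `Sf`:
`res (s θ) = res (s η0) - res (s ^ p η0) = - res (h η0)` (`cL_frob`, `res_car`, `alg_cK`), `res_sum` for `h η0`, and `res_int` at the primes of `Nf` other than `P`, so the displayed sum is `res_P (h (η0 - ξ P))`.
The functional `c ↦ res_P (c / P * f)`, `f = η0 - ξ P`, on the `ZMod p`-space of the `c` of small degree vanishes on the common kernel of the functionals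
`c ↦ res_v (c / P / u_v)`, `v ∈ Sf` finite, so is a combination of them (`mem_span_of_iInf_ker_le_ker`); `res_v (h / u_v) = - res_P (h / u_v)` (`res_sum`: `1 / uu v = P_v' / P_v` is regular at the other finite
places, `h / uu v` is regular at infinity); `res_nd_pol`; `η = η0 + ∑ m v / uu v` (`car_inv_uu`).
-/

set_option linter.unusedSectionVars false

namespace Pool.Agent.ASel

open Polynomial Pool.Agent.Smith Finset

variable {p : ℕ} {k : Type} [Field k] [Fintype k] [hp : Fact p.Prime] [CharP k p] {A F b : k[X]}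

theorem FRec_span0 {V ι : Type} [AddCommGroup V] [Module (ZMod p) V] (S : Finset ι)
    (L : ι → V →+ ZMod p) (K : V →+ ZMod p) (h : ∀ x, (∀ i ∈ S, L i x = 0) → K x = 0) :
    ∃ m : ι → ℕ, ∀ x, K x = ∑ i ∈ S, m i • L i x := by
  classical
  have h0 := mem_span_of_iInf_ker_le_ker (𝕜 := ZMod p) (E := V)
    (L := fun i : S => (L i).toZModLinearMap p) (K := K.toZModLinearMap p) fun x hx =>
      h x fun i hi => (Submodule.mem_iInf _).1 hx ⟨i, hi⟩
  rw [Submodule.mem_span_range_iff_exists_fun] at h0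
  obtain ⟨c, hc⟩ := h0
  refine ⟨fun i => if hi : i ∈ S then (c ⟨i, hi⟩).val else 0, fun x => ?_⟩
  have h1 := LinearMap.congr_fun hc x
  rw [LinearMap.sum_apply] at h1
  rw [← Finset.sum_coe_sort]
  refine h1.symm.trans (Finset.sum_congr rfl fun i _ => ?_)
  beta_reduce
  rw [dif_pos i.2, nsmul_eq_mul, ZMod.natCast_zmod_val]
  rfl

theorem FRec_span {V ι : Type} [AddCommGroup V] (hV : ∀ x : V, p • x = 0) (S : Finset ι)
    (L : ι → V →+ ZMod p) (K : V →+ ZMod p) (h : ∀ x, (∀ i ∈ S, L i x = 0) → K x = 0) :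
    ∃ m : ι → ℕ, ∀ x, K x = ∑ i ∈ S, m i • L i x :=
  @FRec_span0 p hp V ι _ (AddCommGroup.zmodModule hV) S L K h

theorem FRec_fin {v : Pl k} (hv : v ≠ none) {x y : RatFunc k} (hx : av v x ≤ 1) (hy : av v y ≤ 1) :
    av v (uu v * (x * y)) < 1 := by
  rw [map_mul, map_mul, av_uu, if_neg hv]
  have := mul_le_one₀ hx ((av v).nonneg _) hy
  linarith

theorem FRec_two {P v : Pl k} (hP : P ≠ none) (hv : v ≠ none) (hne : v ≠ P) {c : k[X]}
    (hc : c.degree < (plp P).degree) :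
    res p v (algebraMap _ _ (pk (RatFunc k) c / pk _ (plp P)) / uL v) +
      res p P (algebraMap _ _ (pk (RatFunc k) c / pk _ (plp P) * (((1 : ℕ) : RatFunc k) / uu v))) = 0 := by
  classical
  obtain ⟨a1, a2, -⟩ := Hasse_frac hP hc
  obtain ⟨b1, b2⟩ := Hasse_uu hv 1
  have h := res_sum (p := p) (pk (RatFunc k) c / pk _ (plp P) * (((1 : ℕ) : RatFunc k) / uu v)) {v, P}
    fun w hw => by
      rw [mem_insert, mem_singleton, not_or] at hw
      by_cases h0 : w = none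
      · subst h0
        rw [map_mul, map_mul, av_uu, if_pos rfl]
        have := mul_le_mul a2 b2 ((av _).nonneg _) (by norm_num)
        change 2 * (av none (algebraMap k[X] (RatFunc k) c / algebraMap k[X] _ (plp P)) * _) < 1
        linarith
      · exact FRec_fin h0 (a1 w h0 hw.2) (b1 w h0 hw.1)
  rw [sum_pair hne] at h
  rwa [map_mul (algebraMap (RatFunc k) (Lv v)),
    map_div₀ (algebraMap (RatFunc k) (Lv v)) ((1 : ℕ) : RatFunc k), map_natCast, Nat.cast_one (R := Lv v),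
    mul_one_div] at h

theorem FRec_as {v : Pl k} {η θ h : RatFunc k} (hη : η - cK p η = θ) {s : Lv v}
    (hs : s ^ p - s = algebraMap _ _ h) :
    res p v (s * algebraMap _ _ θ) = -res p v (algebraMap _ _ (h * η)) := by
  rw [← hη, map_sub, mul_sub, alg_cK, ← cL_frob, map_sub, res_car,
    map_mul (algebraMap (RatFunc k) (Lv v)), ← hs, sub_mul, map_sub, neg_sub]

theorem detect (hF : F ≠ 0) (hb : b ≠ 0) (hc : IsCoprime b F) {θ : RatFunc k} (ξ : ∀ v : Pl k, Lv v)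
    (h1 : ∀ v, InS p A F b v → res p v (algebraMap _ _ θ) = 0)
    (h2 : ∀ v, InNa p A b v → ξ v - cL p v (ξ v) = algebraMap _ _ θ)
    (h3 : ∀ v, InU F b v → av v θ ≤ 1) {P : Pl k} (hP : InNa p A b P)
    (H : ∀ c : k[X], c.degree < (plp P).degree →
      (∀ v, InS p A F b v → v ≠ none →
        res p v (algebraMap _ _ (pk (RatFunc k) c / pk _ (plp P)) / uL v) = 0) →
      ∃ s : ∀ v : Pl k, Lv v, (∀ v, InS p A F b v →
          s v ^ p - s v = algebraMap _ _ (pk (RatFunc k) c / pk _ (plp P))) ∧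
        ∑ v ∈ Sf p A F b, res p v (s v * algebraMap _ _ θ) -
          ∑ v ∈ Nf p A b, res p v (algebraMap _ _ (pk (RatFunc k) c / pk _ (plp P)) * ξ v) = 0) :
    ∃ η : RatFunc k, η - cK p η = θ ∧ (∀ v, InU F b v → av v η ≤ 1) ∧
      ‖algebraMap _ _ η - ξ P‖ < 1 := by
  classical
  have hU : ∀ v, v ∉ Sf p A F b → v ∉ Nf p A b → InU F b v := fun v a1 a2 =>
    inU_iff.2 ⟨fun h => a1 ((mem_Sf hF hb).2 h), fun h => a2 ((mem_Nf hb).2 h)⟩
  have hres : ∀ v : Pl k, res p v (algebraMap _ _ θ) = 0 := fun v => by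
    by_cases a1 : InS p A F b v
    · exact h1 v a1
    by_cases a2 : InNa p A b v
    · rw [← h2 v a2, map_sub, res_car, sub_self]
    · have a3 : InU F b v := inU_iff.2 ⟨a1, a2⟩
      exact res_int a3.1 (by rw [norm_alg]; exact h3 v a3)
  obtain ⟨η, e1, e2, e3⟩ := hasse' hres (Sf p A F b) (Nf p A b)
    (fun h => ((mem_Nf hb).1 h).1 rfl) (fun v a1 a2 _ => h3 v (hU v a1 a2)) ξ
    fun v hv => h2 v ((mem_Nf hb).1 hv)
  have hPN : P ∈ Nf p A b := (mem_Nf hb).2 hP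
  have hdis : Disjoint (Sf p A F b) (Nf p A b) := disjoint_left.2 fun v a1 a2 =>
    ((mem_Nf hb).1 a2).not_S hc ((mem_Sf hF hb).1 a1)
  have hPS : P ∉ (Sf p A F b).erase none := fun h =>
    disjoint_left.1 hdis (mem_of_mem_erase h) hPN
  have key : ∀ c : k[X], c.degree < (plp P).degree → (∀ v ∈ (Sf p A F b).erase none,
      res p v (algebraMap _ _ (pk (RatFunc k) c / pk _ (plp P)) / uL v) = 0) →
      res p P (algebraMap _ _ (pk (RatFunc k) c / pk _ (plp P)) * (algebraMap _ _ η - ξ P)) = 0 := by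
    intro c hd h0
    obtain ⟨s, s1, s2⟩ := H c hd fun v a1 a2 => h0 v (mem_erase.2 ⟨a2, (mem_Sf hF hb).2 a1⟩)
    obtain ⟨a1, -, -⟩ := Hasse_frac hP.1 hd
    have k1 := res_sum (p := p) (pk (RatFunc k) c / pk _ (plp P) * η) (Sf p A F b ∪ Nf p A b)
      fun v hv => by
        rw [mem_union, not_or] at hv
        have h0 := (hU v hv.1 hv.2).1
        exact FRec_fin h0 (a1 v h0 fun e => hv.2 (e ▸ hPN)) (e3 v hv.1 hv.2 h0)
    rw [sum_union hdis] at k1
    rw [sum_congr rfl fun v hv => FRec_as e1 (s1 v ((mem_Sf hF hb).1 hv)), sum_neg_distrib,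
      neg_eq_of_add_eq_zero_right k1, ← sum_sub_distrib, sum_eq_single_of_mem P hPN] at s2
    · rwa [mul_sub, map_sub, ← map_mul]
    · intro v hv hne
      have h0 := ((mem_Nf hb).1 hv).1
      rw [← map_sub, map_mul, ← mul_sub]
      refine res_int h0 ?_
      rw [norm_mul, norm_alg]
      exact mul_le_one₀ (a1 v h0 hne) (norm_nonneg _) (e2 v hv)
  have hdeg : ∀ c : k[X], c ∈ degreeLT k (plp P).natDegree ↔ c.degree < (plp P).degree := fun c => by
    rw [mem_degreeLT, degree_eq_natDegree (PF_monic P).ne_zero]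
  obtain ⟨m, hm⟩ := FRec_span (p := p) (V := degreeLT k (plp P).natDegree)
    (fun x => Subtype.ext (by simp)) ((Sf p A F b).erase none)
    (fun v => AddMonoidHom.mk' (fun c =>
      res p v (algebraMap _ _ (pk (RatFunc k) c.1 / pk _ (plp P)) / uL v)) fun x y => by
        simp only [Submodule.coe_add, map_add, add_div])
    (AddMonoidHom.mk' (fun c => res p P (algebraMap _ _ (pk (RatFunc k) c.1 / pk _ (plp P)) *
      (algebraMap _ _ η - ξ P))) fun x y => by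
        simp only [Submodule.coe_add, map_add, add_div, add_mul])
    fun x hx => key x.1 ((hdeg _).1 x.2) hx
  have h0 : none ∉ (Sf p A F b).erase none := notMem_erase _ _
  refine ⟨η + ∑ v ∈ (Sf p A F b).erase none, (m v : RatFunc k) / uu v, ?_, fun v hv => ?_, ?_⟩
  · rw [map_add, Hasse_fix, add_sub_add_right_eq_sub, e1]
  · obtain ⟨a1, a2⟩ := (inU_iff (p := p) (A := A)).1 hv
    have a3 : v ∉ Sf p A F b := fun h => a1 ((mem_Sf hF hb).1 h)
    exact Hasse_add (e3 v a3 (fun h => a2 ((mem_Nf hb).1 h)) hv.1)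
      (Hasse_off h0 m hv.1 fun h => a3 (mem_of_mem_erase h))
  · rw [map_add, add_sub_right_comm]
    refine res_nd_pol (p := p) hP.1
      (PF_add (e2 P hPN) (by rw [norm_alg]; exact Hasse_off h0 m hP.1 hPS)) fun c hd => ?_
    have e4 : pk (Lv P) c / pk (Lv P) (plp P) =
        algebraMap _ _ (pk (RatFunc k) c / pk _ (plp P)) := by
      rw [map_div₀]
      rfl
    have k1 := hm ⟨c, (hdeg c).2 hd⟩
    simp only [AddMonoidHom.mk'_apply] at k1
    rw [e4, mul_add, map_add, k1, ← map_mul, mul_sum, map_sum, map_sum, ← sum_add_distrib]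
    refine sum_eq_zero fun v hv => ?_
    have k2 := FRec_two (p := p) hP.1 (mem_erase.1 hv).1 (fun e => hPS (e ▸ hv)) hd
    have e5 : pk (RatFunc k) c / pk _ (plp P) * ((m v : RatFunc k) / uu v) =
        m v • (pk (RatFunc k) c / pk _ (plp P) * (((1 : ℕ) : RatFunc k) / uu v)) := by
      rw [nsmul_eq_mul]
      push_cast
      ring
    rw [e5, map_nsmul, map_nsmul, ← nsmul_add, k2, nsmul_zero]

end Pool.Agent.ASel
end

-- merged part: Pool.Agent.Work.MP_60d5ce_nt.AG.FNm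
section
/-!
# The top coefficient does not vanish at a good prime  (AS, function field side)

PLAN.  `nd_bad`: `exists_norm` (with `b = b' * plp P`, `Med = univ.image vv`, `av_pol`) gives `Y`, `Y'` and normalised `xn`, `xn'`.  Let `ρ ∈ k(t)` have the image `tp (φ Y) w' + ε • tp wn (φ Y')` (`Eq1.tp_mem`, `Eq1.phi`); by `xi_gauge`
`Ξ (y + Y, w, y' + Y', w') = Ξ (y, wn, y', wn') + ρ` for all `y`, `y'`.  With solutions from `exists_sol`, `xi_car` (for `cB`, `S = Om`) applied to both gives `ρ - C ρ = θ - θn`, so `η - ρ` is a primitive for `xn`, `xn'`.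
`ρ` is regular at `InU F b` (`tp_le`); at `P` apply `xi_gauge` in `Lb P` to `y = (x I).2.2 P - emb P (Y I)`, which is integral, so `η - ρ` is integral at `P`; `sol_lift`, `map_xiT`.
`nd_main`: `cn_mom`, `top_data`; if all sums vanish then `mul_WW`, `mom_mul` (or `map_mom`), `top_formula` (with `xc = mom χ (prg eJ • X)`, `x1 = mom χ X1`, `s v = rt v (emb v (WW Φ eJ))`, `WW_split`, `WW_pow`) and `Su.big` give the hypothesis of `detect`;
`nondeg` (with `indep_pol`, `Su.hinj`, `mom_empty`) gives the last hypothesis of `nd_bad`.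
-/

set_option linter.unusedSectionVars false

namespace Pool.Agent.ASel

open Polynomial Pool.Agent.Smith Finset
open scoped Classical

variable {p : ℕ} {k : Type} [Field k] [Fintype k] [hp : Fact p.Prime] [CharP k p]
  {A F : k[X]} {ϖ : RatFunc k} {ε : ℤ}

theorem FNm_gauge {M : Type} [Field M] [CharP M p] {n : ℕ} {A ϖ : M} (hε : ε • ϖ = ϖ)
    (y w y' w' Y Y' : Finset (Fin n) → M) :
    xiT p A ε ϖ (y + Y) w (y' + Y') w' = xiT p A ε ϖ y (fun I => w I + Y I ^ p / A * ϖ) y'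
      (fun I => w' I + Y' I ^ p / A * ϖ) +
        xiT p A ε 0 Y (fun I => w I + Y I ^ p / A * ϖ) Y' w' := by
  have h := xi_gauge (p := p) (A := A) hε y (fun I => w I + Y I ^ p / A * ϖ) y'
    (fun I => w' I + Y' I ^ p / A * ϖ) Y Y'
  simp only [add_sub_cancel_right] at h
  rw [h, xiT, xiT, mul_zero, add_zero]

theorem FNm_le {M : Type} [Field M] {ν : AbsoluteValue M ℝ} (hν : IsNonarchimedean ν) {n : ℕ}
    {A ϖ : M} (hA : ν A = 1) (hϖ : ν ϖ ≤ 1) (hε : ε = 1 ∨ ε = -1) {y w y' w' : Finset (Fin n) → M}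
    (hy : ∀ I, ν (y I) ≤ 1) (hw : ∀ I, ν (w I) ≤ 1) (hy' : ∀ I, ν (y' I) ≤ 1)
    (hw' : ∀ I, ν (w' I) ≤ 1) : ν (xiT p A ε ϖ y w y' w') ≤ 1 := by
  have e : ∀ {y : Finset (Fin n) → M}, (∀ I, ν (y I) ≤ 1) → ∀ I, ν (y I ^ p / A) ≤ 1 :=
    fun h I => by
      rw [map_div₀, map_pow, hA, div_one]
      exact pow_le_one₀ (ν.nonneg _) (h I)
  have h1 := tp_le hν (e hy) hw'
  have h2 := tp_le hν hw (e hy')
  have h3 := tp_le hν (e hy) (e hy')
  rw [one_mul] at h1 h2 h3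
  refine LocA_add_le hν (LocA_add_le hν h1 ?_) ?_
  · rcases hε with h | h <;> simpa [h] using h2
  · rw [map_mul]
    exact mul_le_one₀ h3 (ν.nonneg _) hϖ

theorem FNm_emb (v : Pl k) (ϖ : RatFunc k) {n : ℕ} (y w y' w' : Finset (Fin n) → Kb k) :
    emb v (xiT p (pk _ A) ε (algebraMap _ _ ϖ) y w y' w') =
      xiT p (pk _ A) ε (algebraMap (RatFunc k) _ ϖ) (fun I => emb v (y I)) (fun I => emb v (w I))
        (fun I => emb v (y' I)) fun I => emb v (w' I) :=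
  (emb v).commutes ϖ ▸ emb_pk v A ▸ map_xiT (emb v : Kb k →+* Lb v) p _ ε _ y w y' w'

theorem FNm_car (hT : Ty p A F ϖ ε) {n : ℕ} {a w a' w' y y' : Finset (Fin n) → Kb k}
    (ha : ∀ I, a I ∈ Om (RatFunc k) (Kb k)) (hw : ∀ I, w I ∈ Om (RatFunc k) (Kb k))
    (ha' : ∀ I, a' I ∈ Om (RatFunc k) (Kb k)) (hw' : ∀ I, w' I ∈ Om (RatFunc k) (Kb k))
    (hy : Sol p A a y) (hy' : Sol p A a' y')
    (h : ∀ I, w I - cB p (w I / pk _ A) + a I * algebraMap _ _ ϖ = 0)
    (h' : ∀ I, w' I - cB p (w' I / pk _ A) + a' I * algebraMap _ _ ϖ = 0) :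
    xiT p (pk _ A) ε (algebraMap _ _ ϖ) y w y' w' -
      cB p (xiT p (pk _ A) ε (algebraMap _ _ ϖ) y w y' w') = thT ε (algebraMap _ _ ϖ) a w a' w' := by
  have hA := ne_zero_of_dvd_ne_zero hT.F_ne hT.dvd
  have hc := alg_cKB (p := p) (ϖ / pk _ A ^ 2)
  rw [hT.car, map_div₀, map_pow] at hc
  have o := hy.om hA ha
  have o' := hy'.om hA ha'
  obtain rfl := funext hy
  obtain rfl := funext hy'
  exact xi_car (cB p) _ cB_frob (om_alg _) ((_root_.map_ne_zero (algebraMap (RatFunc k) _)).2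
    (RatFunc.algebraMap_ne_zero hA)) (om_alg _) hc.symm (by rw [← map_zsmul, hT.eps]) o hw o' hw' h h'

theorem FNm_sol {n : ℕ} {a y Y : Finset (Fin n) → Kb k}
    (h : Sol p A (fun I => a I - (Y I ^ p / pk _ A - Y I)) y) : Sol p A a (y + Y) := fun I => by
  rw [Pi.add_apply, Wp_add, h I, sub_add_cancel]

theorem nd_bad (hT : Ty p A F ϖ ε) (n0 K : ℕ) : ∃ n1 : ℕ, ∀ {ι : Type} [Fintype ι] {b' : k[X]}
    {P : Pl k} {d' : RatFunc k} {vv : Fin K → Pl k} {Φ : ASF p k ι}, Su A F b' P d' vv Φ →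
    ∀ (D : LtD p A F (b' * plp P) n0 Φ.d ϖ ε) {n : ℕ} (hn : n ≤ K) {W : Fin n → Kb k}
      {c : Fin n → k[X]} {x x' : Finset (Fin n) → W1 k} {θ η : RatFunc k} {ξ : Lv P},
    (∀ i, (c i).degree < (plp (vv (i.castLE hn))).degree ∧
      W i ^ p - W i = algebraMap _ _ (pol (c i) (vv (i.castLE hn)))) →
    (∀ i v, InS p A F (b' * plp P) v → ∃ s : Lv v, algebraMap _ _ s = emb v (W i)) →
    Cn p A F (b' * plp P) W x → (∀ I, D1 D (x I) = 0) →
    Cn p A F (b' * plp P) W x' → (∀ I, D1 D (x' I) = 0) →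
    algebraMap _ _ θ = thT ε (algebraMap _ _ ϖ) (fun I => (x I).1) (fun I => (x I).2.1)
      (fun I => (x' I).1) (fun I => (x' I).2.1) →
    algebraMap _ _ ξ = xiT p (pk (Lb P) A) ε (algebraMap (RatFunc k) _ ϖ) (fun I => (x I).2.2 P)
      (fun I => emb P (x I).2.1) (fun I => (x' I).2.2 P) (fun I => emb P (x' I).2.1) →
    η - cK p η = θ → (∀ v, InU F (b' * plp P) v → av v η ≤ 1) → ‖algebraMap _ _ η - ξ‖ < 1 →
    (∀ (y y' : Finset (Fin n) → Kb k) (η0 : RatFunc k), Sol p A (fun I => (x I).1) y →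
      Sol p A (fun I => (x' I).1) y' → algebraMap _ _ η0 ≠ xiT p (pk (Kb k) A) ε (algebraMap _ _ ϖ) y
        (fun I => (x I).2.1) y' fun I => (x' I).2.1) →
    P ∈ BadS p A F b' d' ϖ ε n1 vv := by
  obtain ⟨n1, h1⟩ := exists_norm hT n0 K
  refine ⟨n1, ?_⟩
  intro ι _ b' P d' vv Φ hS D n hn W c x x' θ η ξ hW hs hx cx hx' cx' hθ hξ hη iη nη hd
  have hA := ne_zero_of_dvd_ne_zero hT.F_ne hT.dvd
  have N := fun {x : Finset (Fin n) → W1 k} => h1 D (univ.image vv) (x := x) hS.stg.b_ne hS.stg.cop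
    (dvd_mul_right _ _) (fun _ => hS.an_near) (fun v hv => by
      obtain ⟨i, -, rfl⟩ := mem_image.1 hv
      exact hS.vv_na i) hn (fun i => (hW i).2) (fun i v =>
      ⟨(av_pol (hS.vv_na _).1 (hW i).1).1 v, fun hv => (av_pol (hS.vv_na _).1 (hW i).1).2.1 v
        fun e => hv (mem_image.2 ⟨_, mem_univ _, e.symm⟩)⟩) hs
  obtain ⟨Y, mY, iY, fY, nY⟩ := N hx cx
  obtain ⟨Y', mY', iY', fY', nY'⟩ := N hx' cx'
  have hP : P ∉ univ.image vv := fun h => by
    obtain ⟨i, -, e⟩ := mem_image.1 h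
    exact hS.vv_ne i e
  have uP : InU F b' P := hS.U_iff.2 (Or.inr rfl)
  have n0 : ∀ {v : Pl k}, InU F b' v → ¬ InS0 F v := fun hv h =>
    (inU_iff (p := p) (A := A)).1 hv |>.1 (Or.inl h)
  obtain ⟨ρ, hρ⟩ := FT1_th (fun i => ⟨_, (hW i).2⟩) ε 0 (Eq1.phi mY (pk _ A)) fY.2.1
    (Eq1.phi mY' (pk _ A)) hx'.w_eq
  change _ = xiT p (pk _ A) ε (algebraMap _ _ (0 : RatFunc k)) Y _ Y' _ at hρ
  have G := fun y y' => FNm_gauge (p := p) (A := pk (Kb k) A) (ε := ε) (ϖ := algebraMap _ _ ϖ)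
    (by rw [← map_zsmul, hT.eps]) y (fun I => (x I).2.1) y' (fun I => (x' I).2.1) Y Y'
  rw [← map_zero (algebraMap (RatFunc k) (Kb k)), ← hρ] at G
  have q := fun I => FT1_coc (hx.spl I) (cx I) hS.P_na
  have q' := fun I => FT1_coc (hx'.spl I) (cx' I) hS.P_na
  obtain ⟨z, sz, ez⟩ := sol_lift (p := p) hA (a := fun I => (x I).1 - (Y I ^ p / pk _ A - Y I))
    (v := P) (z := fun I => (x I).2.2 P - emb P (Y I)) fun I => by
      rw [Wp_sub, map_sub, (q I).1, map_sub, map_div₀, map_pow, emb_pk]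
  obtain ⟨z', sz', ez'⟩ := sol_lift (p := p) hA (a := fun I => (x' I).1 - (Y' I ^ p / pk _ A - Y' I))
    (v := P) (z := fun I => (x' I).2.2 P - emb P (Y' I)) fun I => by
      rw [Wp_sub, map_sub, (q' I).1, map_sub, map_div₀, map_pow, emb_pk]
  have E : ∀ y y', dif p A ϖ ε (fun I => ((x I).1 - (Y I ^ p / pk _ A - Y I),
      (x I).2.1 + Y I ^ p / pk _ A * algebraMap _ _ ϖ)) (fun I => ((x' I).1 - (Y' I ^ p / pk _ A - Y' I),
      (x' I).2.1 + Y' I ^ p / pk _ A * algebraMap _ _ ϖ)) (η - ρ) y y' = algebraMap _ _ η -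
      xiT p (pk _ A) ε (algebraMap _ _ ϖ) (y + Y) (fun I => (x I).2.1) (y' + Y')
        fun I => (x' I).2.1 := fun y y' => by
    rw [G, dif, map_sub, sub_sub, add_comm]
  have Z := (congrArg (fun t => nm P (emb P t)) (E z z')).trans_lt (by
    rw [map_sub, FNm_emb, emb_algK]
    simp only [Pi.add_apply, map_add, ez, ez', sub_add_cancel]
    rwa [← hξ, ← map_sub, nm_alg])
  refine ⟨n, hn, W, c, hW, _, fY, _, fY', η - ρ, ⟨?_, fun v hv => ?_, fun y y' hy hy' => ?_⟩,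
    uP, z, z', sz, sz', Z⟩
  · have e1 := FNm_car hT hx.a_eq.1 hx.w_eq.1 hx'.a_eq.1 hx'.w_eq.1 (FNm_sol sz) (FNm_sol sz')
      (fun I => ((D1_eq_zero (hx.spl I)).1 (cx I)).1) fun I => ((D1_eq_zero (hx'.spl I)).1 (cx' I)).1
    have e2 := FNm_car hT fY.1.1 fY.2.1.1 fY'.1.1 fY'.2.1.1 sz sz' (fun I => (fY.2.2 I).1)
      fun I => (fY'.2.2 I).1
    rw [G, ← hθ, ← hη, map_add, ← alg_cKB] at e1
    rw [← e2]
    simp only [map_sub] at e1 ⊢
    linear_combination -e1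
  · rcases hS.U_iff.1 hv with h | rfl
    · refine Hasse_sub (iη v h) ?_
      rw [← nm_algK, ← (emb v).commutes, hρ, FNm_emb]
      exact FNm_le (nm_na v) (nm_pk_one hT.dvd (n0 hv)) (by simp) hT.sgn (iY v h)
        (fun I => ((fY.2.2 I).2 v).1 hv) (iY' v h) fun I => (hx'.int v h I).2
    · rw [dif, map_sub, FNm_emb, AlgHom.commutes] at Z
      rw [← nm_algK]
      exact LocA_le (nm_na v) (FNm_le (nm_na v) (nm_pk_one hT.dvd (n0 hv))
        ((nm_algK v ϖ).trans_le (hT.int v (n0 hv))) hT.sgn (fun I => ez I ▸ nY v hS.P_na hP I)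
        (fun I => ((fY.2.2 I).2 v).1 hv) (fun I => ez' I ▸ nY' v hS.P_na hP I)
        fun I => ((fY'.2.2 I).2 v).1 hv) Z
  · rw [E]
    exact sub_ne_zero.2 (hd _ _ η (FNm_sol hy) (FNm_sol hy'))

theorem FNm_mom {n : ℕ} {G V M : Type} [AddCommGroup G] [Fintype G] [AddCommGroup V]
    [Module (ZMod p) V] [CommRing M] [Algebra (ZMod p) M] (φ : V →+ M) (χ : Fin n → G →+ ZMod p)
    {f f1 f0 : G → V} {s : M} (h : ∀ g, φ (f g) = φ (f1 g) - s * φ (f0 g)) (I : Finset (Fin n)) :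
    φ (mom χ f I) = φ (mom χ f1 I) - s * φ (mom χ f0 I) := by
  simp only [map_mom, h]
  simp only [mom, smul_sub, sum_sub_distrib, mul_sum, mul_smul_comm]

theorem nd_main (hT : Ty p A F ϖ ε) (n0 K : ℕ) : ∃ n1 : ℕ, ∀ {ι : Type} [Fintype ι] {b' : k[X]}
    {P : Pl k} {d' : RatFunc k} {vv : Fin K → Pl k} {Φ : ASF p k ι}, Su A F b' P d' vv Φ →
    P ∉ BadS p A F b' d' ϖ ε n1 vv →
    ∀ (D : LtD p A F (b' * plp P) n0 Φ.d ϖ ε) {n : ℕ} (hn : n ≤ K), 0 < n →
    ∀ e : Fin n → ι → ZMod p, (∀ i, e i ∈ Blk Φ (vv (i.castLE hn)) ∧ e i ≠ 0) →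
    ∀ X ∈ C1 A F (b' * plp P) Φ, ∀ X' ∈ C1 A F (b' * plp P) Φ,
    (∀ I, D1 D (mom (fun i => prg p (e i)) X I) = 0) →
    (∀ I, D1 D (mom (fun i => prg p (e i)) X' I) = 0) →
    Gd p A ϖ (∑ g, X g).1 (∑ g, X g).2.1 →
    ¬ Bd p A ϖ (ε * (-1) ^ n) (∑ g, X g).1 (∑ g, X g).2.1 (∑ g, X' g).1 (∑ g, X' g).2.1 →
    ∃ eJ : ι → ZMod p, ∑ I : Finset (Fin n), (-1) ^ I.card *
      bW D (mom (fun i => prg p (e i)) (fun g => prg p eJ g • X g) I)
        (mom (fun i => prg p (e i)) X' Iᶜ) ≠ 0 := by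
  obtain ⟨n1, h1⟩ := nd_bad hT n0 K
  refine ⟨n1, ?_⟩
  intro ι _ b' P d' vv Φ hS hP D n hn h0 e he X hX X' hX' cx cx' hg hb
  by_contra! H
  choose c hc ec using fun i => (he i).1
  have hW : ∀ i, WW Φ (e i) ^ p - WW Φ (e i) = algebraMap _ _ (pol (c i) (vv (i.castLE hn))) :=
    fun i => ec i ▸ WW_pow Φ (e i)
  have hx := cn_mom hS.stg e hX
  have hx' := cn_mom hS.stg e hX'
  obtain ⟨θ, ξ, hθ, hξ, a1, a2, a3⟩ := top_data hT hS.stg.b_ne hS.stg.cop D
    (fun i => ⟨_, hW i⟩) hx cx hx' cx'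
  obtain ⟨η, b1, b2, b3⟩ := detect hT.F_ne hS.stg.b_ne hS.stg.cop ξ a1 a2 a3 hS.P_na
    fun c0 hc0 hr => by
      obtain ⟨eJ, hJ⟩ := hS.big c0 hc0 hr
      obtain ⟨X1, hX1, hm⟩ := mul_WW hS.stg eJ hX
      have hs : ∀ v, InS p A F (b' * plp P) v →
          algebraMap _ _ (rt v (emb v (WW Φ eJ))) = emb v (WW Φ eJ) := fun v hv => by
        obtain ⟨s, -, h⟩ := WW_split hS.stg eJ hv
        rw [← h, rt_alg]
      have hp := hJ ▸ WW_pow Φ eJ
      have T := top_formula hT hS.stg.b_ne hS.stg.cop D (fun i => ⟨_, hW i⟩) hx cx hx' cx'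
        (cn_mom hS.stg e hX1) hp _ hs (xc := mom (fun i => prg p (e i)) fun g => prg p eJ g • X g)
        (fun I => ⟨by exact FNm_mom (V := W1 k) (AddMonoidHom.fst _ _) _ (fun g => (hm g).1) I,
          FNm_mom (V := W1 k) ((AddMonoidHom.fst _ _).comp (AddMonoidHom.snd _ _)) _
            (fun g => (hm g).2.1) I,
          fun v => FNm_mom (V := W1 k) ((Pi.evalAddMonoidHom (fun v : Pl k => Lb v) v).comp
            ((AddMonoidHom.snd _ _).comp (AddMonoidHom.snd _ _))) _ (fun g => (hm g).2.2 v) I⟩) hθ ξ hξ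
      rw [H, neg_zero] at T
      refine ⟨_, fun v hv => (algebraMap (Lv v) (Lb v)).injective ?_, T.symm⟩
      rw [map_sub, map_pow, hs v hv, ← map_pow, ← map_sub, hp, emb_algK, pol]
  refine hP (h1 hS D hn (fun i => ⟨hc i, hW i⟩) (fun i v hv => ?_) hx cx hx' cx' hθ (hξ P hS.P_na)
    b1 b2 b3 fun y y' η0 hy hy' h => hb ?_)
  · obtain ⟨s, -, h⟩ := WW_split hS.stg (e i) hv
    exact ⟨s, h⟩
  · rw [← mom_empty (fun i => prg p (e i)) X] at hg ⊢
    rw [← mom_empty (fun i => prg p (e i)) X']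
    exact nondeg hT h0 hW (indep_pol (hS.inj.comp (Fin.castLE_injective hn))
      (fun i => (hS.vv_na _).1) hc fun i h => (he i).2 (hS.hinj _ (by simp [ec, h, pol])))
      hx.a_eq hx.w_eq hx'.a_eq hx'.w_eq hy hy' hg h

end Pool.Agent.ASel
end

-- merged part: Pool.Agent.Work.MP_60d5ce_nt.AG.FLat
section
/-!
# Few characters carry a good eigenvector  (AS, function field side)

PLAN.  `exists_LtD`, `min_model` (with `hig0`, `hig1`, `hig2`, `D0_mem`, `D1_mem`, `D1_D0`, `D0_inj`, `coh1`, `coh2`, `Su.card_fac`) give `x`, `J`, `ρ`, `dd`.  Apply `ASW.few_good` with `E = G = ι → ZMod p`, `pr g e = prg p e g`, `T = Fin r × Fin r'`,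
`Eb i = if h : i < 2 * s + 1 then Blk Φ (vv ⟨i, h⟩) else ⊥` (`Su.dim`, `card (fac' (F * b')) ≤ natDegree F + m`), `σ = L.ac Φ.σ0`, `act g = L.ac (Φ.γ g)`, `j` from `exists_j`, `Bb l i g = ∑ g', bW D (x i (g' - g)) (x l g')`,
`N c = ∑ i, c i • ∑ g, x i g`, `Good = {c | Gd (N c).1 (N c).2.1}`, `Bad` from `exists_bad`.  `D1 (N c) = 0`: sum the formula for `D1 (x i g)` over `g`.  The family `fun _ => N c` is in `C1` (`Hig.shift`, sum of the translates).
`j (act g u) = J (z (· + g))` (`RepF.shift`); the relation `∑ Bb * j = 0` is `bW_coc` for the cocycles `z g' - D0 (y g')` (`C1_spl`, `D1_D0`); the kernel statement is `repF_ker`; for an eigenvector `j (act g u) = j u` (`RepF.sigma`), so `z 0 = D0 (y 0) + N (j u)`, `repF_good`.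
The last hypothesis: `top … = ∑ g, (∑ g', bW (X (g' - g)) (X' g')) * …` for `X = ∑ i, c i • x i`, `X' = ∑ l, c' l • x l`; `top_eq`; `mom χ X I` is a cocycle (`map_mom`, `mom_sum`, `mom_conv`), `cn_mom`, `bW_coc`; `nd_main`.
-/

set_option linter.unusedSectionVars false

namespace Pool.Agent.ASel

open Polynomial Pool.Agent.Smith Finset

variable {p : ℕ} {k : Type} [Field k] [Fintype k] [hp : Fact p.Prime] [CharP k p]
  {A F : k[X]} {ϖ : RatFunc k} {ε : ℤ}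

theorem FLat_fac {f g : k[X]} (hf : f ≠ 0) (hg : g ≠ 0) :
    (fac' (f * g)).card ≤ f.natDegree + (fac' g).card := by
  classical
  refine (card_le_card (t := fac' f ∪ fac' g) fun v hv => ?_).trans ((card_union_le _ _).trans
    (Nat.add_le_add_right (le_trans ?_ sum_pdg_fac') _))
  · obtain ⟨a, b⟩ := (mem_fac' (mul_ne_zero hf hg)).1 hv
    exact mem_union.2 (((PF_irr a).prime.dvd_mul.1 b).imp (fun c => (mem_fac' hf).2 ⟨a, c⟩)
      fun c => (mem_fac' hg).2 ⟨a, c⟩)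
  · rw [card_eq_sum_ones]
    exact sum_le_sum fun v _ => pdg_pos v

/-- the pairing as a linear form in the character -/
def FLat_pr {ι : Type} [Fintype ι] (g : ι → ZMod p) : (ι → ZMod p) →ₗ[ZMod p] ZMod p where
  toFun e := prg p e g
  map_add' e e' := by simp [prg, add_mul, sum_add_distrib]
  map_smul' c e := by simp [prg, mul_sum, mul_assoc]

section abs

variable {G V V' : Type} [AddCommGroup G] [Fintype G] [AddCommGroup V] [Module (ZMod p) V]
  [AddCommGroup V'] [Module (ZMod p) V'] {r r' : ℕ}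

/-- the norm of a linear combination -/
def FLat_N (x : Fin r → G → V) : (Fin r → ZMod p) →+ V where
  toFun c := ∑ g, ∑ i, c i • x i g
  map_zero' := by simp
  map_add' c c' := by simp [add_smul, sum_add_distrib]

theorem FLat_mem {C : AddSubgroup (G → V)} {x : Fin r → G → V} (hx : ∀ i, x i ∈ C)
    (c : Fin r → ZMod p) : (fun g => ∑ i, c i • x i g) ∈ C := by
  have := sum_mem (t := univ) fun i _ => ZMod.smul_mem (hx i) (c i)
  rwa [show ∑ i, c i • x i = fun g => ∑ i, c i • x i g from funext fun g => by simp] at this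

theorem FLat_const {C : AddSubgroup (G → V)} {t : G → V →+ V} (h : Hig C t) {f : G → V}
    (hf : f ∈ C) : (fun _ => ∑ g, f g) ∈ C := by
  have := sum_mem (t := univ) fun a _ => h.shift f hf a
  rwa [show (∑ a, fun g => f (g + a)) = fun _ => ∑ g, f g from funext fun g => by
    rw [Finset.sum_apply]
    exact Equiv.sum_comp (Equiv.addLeft g) f] at this

theorem FLat_coc (D : V →+ V') {x : Fin r → G → V} {ρ : Fin r' → G → V'}
    {dd : Fin r → Fin r' → G → ZMod p} (h : ∀ i g, D (x i g) = ∑ t, ∑ h, dd i t h • ρ t (g - h))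
    {n : ℕ} (χ : Fin n → G →+ ZMod p)
    (hd : ∀ i t (I : Finset (Fin n)), ∑ g, dd i t g * ∏ i ∈ I, χ i g = 0) (c : Fin r → ZMod p)
    (I : Finset (Fin n)) : D (mom χ (fun g => ∑ i, c i • x i g) I) = 0 := by
  rw [mom_sum, map_sum]
  refine sum_eq_zero fun i _ => ?_
  have := mom_sum univ χ (fun _ => 1) (fun t g => ∑ h, dd i t h • ρ t (g - h)) I
  simp only [one_smul, mom_conv χ _ _ (hd i _), sum_const_zero] at this
  rw [ZMod.map_smul, map_mom]
  simp only [h]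
  rw [this, smul_zero]

theorem FLat_bil (β : V →+ V →+ ZMod p) (x : Fin r → V) (c : Fin r → ZMod p) (y : V) :
    β (∑ i, c i • x i) y = ∑ i, c i * β (x i) y ∧ β y (∑ i, c i • x i) = ∑ i, c i * β y (x i) :=
  ⟨(map_sum (β.flip y) _ _).trans (sum_congr rfl fun i _ => ZMod.map_smul (β.flip y) _ _),
    (map_sum (β y) _ _).trans (sum_congr rfl fun i _ => ZMod.map_smul (β y) _ _)⟩

theorem FLat_rel (β : V →+ V →+ ZMod p) (x : Fin r → G → V) (m : G → Fin r → ZMod p) (y : G → V) :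
    ∑ i, ∑ g, (∑ g', β (x i (g' - g)) (y g')) * m g i =
      ∑ g', β (∑ i, ∑ g, m g i • x i (g' - g)) (y g') := by
  have e : ∀ (c : ZMod p) (a b : V), β (c • a) b = c * β a b := fun c a b =>
    ZMod.map_smul (β.flip b) c a
  simp only [map_sum, AddMonoidHom.finsetSum_apply, e, sum_mul]
  rw [sum_comm (s := (univ : Finset G))]
  refine sum_congr rfl fun i _ => ?_
  rw [sum_comm]
  exact sum_congr rfl fun g' _ => sum_congr rfl fun g _ => mul_comm _ _

theorem FLat_top {E : Type} [AddCommGroup E] [Module (ZMod p) E] (pr : G → E →ₗ[ZMod p] ZMod p)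
    (β : V →+ V →+ ZMod p) (x : Fin r → G → V) (c c' : Fin r → ZMod p) {n : ℕ} (h : Fin n → E)
    (hJ : E) : ASW.top pr (fun l i g => ∑ g', β (x i (g' - g)) (x l g')) c' c h hJ =
      ∑ g, (∑ g', β (∑ i, c i • x i (g' - g)) (∑ i, c' i • x i g')) *
        ((∏ s, pr g (h s)) * pr g hJ) := by
  simp only [ASW.top, (FLat_bil _ _ _ _).1, (FLat_bil _ _ _ _).2]
  rw [sum_comm, sum_congr rfl fun i _ => sum_comm, sum_comm]
  refine sum_congr rfl fun g _ => ?_
  simp only [← sum_mul]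
  congr 1
  rw [sum_comm (s := (univ : Finset G))]
  refine sum_congr rfl fun i _ => ?_
  simp only [mul_sum, sum_mul]
  rw [sum_comm]
  exact sum_congr rfl fun g' _ => sum_congr rfl fun l _ => by ring

end abs

theorem lat_bound (hT : Ty p A F ϖ ε) (n0 s : ℕ) {δ : ℝ} (hδ : 0 < δ) : ∃ a m0 n1 : ℕ, 1 ≤ a ∧
    ∀ m ≥ m0, ∀ {ι : Type} [Fintype ι] {b' : k[X]} {P : Pl k} {d' : RatFunc k}
      {vv : Fin (2 * s + 1) → Pl k} {Φ : ASF p k ι}, Su A F b' P d' vv Φ → (fac' b').card ≤ m →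
      (∀ i, m ^ a ≤ pdg (vv i)) → P ∉ BadS p A F b' d' ϖ ε n1 vv →
      ∀ L : LatD A F (b' * plp P) n0 Φ ϖ ε,
        ({e | L.GoodEig e}.ncard : ℝ) ≤ ((p : ℝ) / p ^ s + δ) * p ^ Fintype.card ι := by
  classical
  obtain ⟨c1, H1⟩ := coh1 hT n0
  obtain ⟨c2, H2⟩ := coh2 hT n0
  obtain ⟨n1, H3⟩ := nd_main hT n0 (2 * s + 1)
  obtain ⟨a, m0, ha, H⟩ := ASW.few_good (p := p) s (3 * c1 + 3 * c2 + F.natDegree + 1) hδ
  refine ⟨a, max m0 1, n1, ha, ?_⟩
  intro m hm ι _ b' P d' vv Φ hS hb hv hP L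
  have m1 : 1 ≤ m := (le_max_right _ _).trans hm
  have hs := hS.stg
  obtain ⟨D, hD⟩ := exists_LtD hT hs L
  obtain ⟨r, r', x, J, ρ, dd, r1, r2, hx, hd, hd0, hz, hJ, hc⟩ := min_model (p := p)
    (fun g => by ext l; simp) (hig0 hs) (hig1 hs) (hig2 hs D) _ _ (D0_mem hs hT) (D1_mem hs hT D)
    (D1_D0 hs hT D) (D0_inj hs hT) (H1 hs D) (H2 hs D)
  obtain ⟨j, hj⟩ := exists_j hT hs hD J hJ
  obtain ⟨Bad, b1, b2, b3⟩ := exists_bad hT hs (D := D) (FLat_N x)
    (fun c => FLat_const (hig1 hs) (FLat_mem hx c))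
    (fun c => by
      have := FLat_coc (D1 D) hd (n := 0) (fun i => i.elim0)
        (fun i t I => by simpa [eq_empty_of_isEmpty I] using hd0 i t) c ∅
      rwa [mom_empty] at this)
    fun c y hy e => hc c y hy (by
      rw [← e]
      simp only [smul_sum]
      exact sum_comm)
  have hf := hS.card_fac
  have q1 : r ≤ (3 * c1 + 3 * c2 + F.natDegree + 1) * m := r1.trans (by nlinarith)
  have q2 : r' ≤ (3 * c1 + 3 * c2 + F.natDegree + 1) * m := r2.trans (by nlinarith)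
  have sg : ∀ u, j (L.ac Φ.σ0 u) = j u := fun u => by
    obtain ⟨z, h⟩ := exists_repF hT hs hD u
    rw [hj _ _ h.sigma, hj _ _ h]
  have key : ∀ u, ∃ z, RepF L D u z ∧ ∃ y ∈ C0 F (b' * plp P) Φ, ∀ g, z g =
      D0 p A (b' * plp P) ϖ (y g) + ∑ i, ∑ h, j (L.ac (Φ.γ h) u) i • x i (g - h) := fun u => by
    obtain ⟨z, h⟩ := exists_repF hT hs hD u
    simp only [fun g => hj _ _ (h.shift g)]
    exact ⟨z, h, hz z h.1 h.2.1⟩
  have := H m ((le_max_left _ _).trans hm) r (ι → ZMod p) (ι → ZMod p) (Fin r × Fin r') L.M FLat_pr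
    (fun i => if h : i < 2 * s + 1 then Blk Φ (vv ⟨i, h⟩) else ⊥) (L.ac Φ.σ0) (fun g => L.ac (Φ.γ g))
    j (fun l i g => ∑ g', bW D (x i (g' - g)) (x l g')) (fun t => dd t.1 t.2)
    {c | Gd p A ϖ (FLat_N x c).1 (FLat_N x c).2.1} Bad q1
    (by rw [Fintype.card_prod, Fintype.card_fin, Fintype.card_fin, sq]; exact Nat.mul_le_mul q1 q2)
    (fun i hi => by
      have := FLat_fac hT.F_ne hS.b'_ne
      rw [dif_pos hi]
      exact (hv _).trans ((hS.dim _).trans (Nat.add_le_add_left (by nlinarith) _)))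
    (fun g u => L.comm _ _ u) L.norm L.tf sg
    (fun u h => by
      obtain ⟨z, h1, y, hy, e⟩ := key u
      simp only [h, Pi.zero_apply, zero_smul, sum_const_zero, add_zero] at e
      exact repF_ker hT hs hy (funext e ▸ h1))
    (fun u l => by
      obtain ⟨z, h1, y, hy, e⟩ := key u
      rw [FLat_rel (bW D) x (fun g => j (L.ac (Φ.γ g) u))]
      refine sum_eq_zero fun g _ => ?_
      rw [← sub_eq_iff_eq_add'.2 (e g)]
      exact bW_coc hT.F_ne hs.b_ne (sub_mem (C1_spl hs h1.1 g) (C1_spl hs (D0_mem hs hT y hy) g))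
        (by rw [map_sub, h1.2.1, D1_D0 hs hT D y hy, sub_zero]) _)
    (fun t => hd0 _ _) (fun h => h.1 0 (by simp [hp.out.ne_zero])) (fun n c _ => b2 n c)
    (fun n c h => b3 n c h) fun n n1 hn h h1 h2 h3 c hc c' hc' => by
      have cc := FLat_coc (D1 D) hd (fun i => prg p (h i)) fun i t => h3 (i, t)
      obtain ⟨eJ, e⟩ := H3 hS hP D hn n1 h
        (fun i => ⟨(dif_pos (i.2.trans_le hn) ▸ h1 i :), h2 i⟩) _ (FLat_mem hx c) _
        (FLat_mem hx c') (cc c) (cc c') hc fun e => hc' ((b1 _ _ _).2 e)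
      refine ⟨eJ, fun e' => e ?_⟩
      rw [FLat_top] at e'
      have := (top_eq (fun i => prg p (h i)) (prg p eJ) (bW D) (fun g => ∑ i, c i • x i g)
        fun g => ∑ i, c' i • x i g).symm.trans e'
      simpa only [fun I => bW_coc hT.F_ne hs.b_ne ((cn_mom hs h (FLat_mem hx c)).spl I) (cc c I),
        zero_sub, mul_neg, sum_neg_distrib, neg_eq_zero] using this
  rw [Fintype.card_fun, ZMod.card, Nat.cast_pow] at this
  refine le_trans (Nat.cast_le.2 (Set.ncard_le_ncard ?_)) this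
  rintro e ⟨u, a, w, h1, h2, h3, h4⟩
  refine ⟨u, h1, ?_⟩
  obtain ⟨z, h5, y, hy, e⟩ := key u
  have it : ∀ n, j ((L.ac Φ.σ0)^[n] u) = j u := fun n => by
    induction n with
    | zero => rfl
    | succ n ih => rw [Function.iterate_succ_apply', sg, ih]
  refine repF_good hT hs h2 h3 h4 h5 hy ((e 0).trans (congrArg _ ?_))
  simp only [h1, it]
  rw [sum_comm]
  exact Equiv.sum_comp (Equiv.subLeft 0) fun g => ∑ i, j u i • x i g

end Pool.Agent.ASel
end

-- merged part: Pool.Agent.Work.MP_60d5ce_nt.AG.FTi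
section
/-!
# Tightness: the pairing  (AS, function field side)

`AA`: test elements, `Cc`: leading coefficients, `TT`: the triple pairing.

PLAN.  `sl_spec`: `wp_surj`, `na_root`, `norm_pk_one`; the solution in `Lv v` is unique (a nonzero `z` with `z ^ p / A = z` has `z ^ (p - 1) = A`).  `res_AA`: at `InS0`, `v ≠ v0`: `ca_bound` (`‖A‖⁻¹ ≤ 2 ^ natDegree A`), `res_small`; at `v0`: `res_int`; at `InAn`: `res_wp`.
`mem_Cc`: `β - C (β / A) = -2 C (d α / A)`, so `res_wp` with `y = t` gives `2 res (t d α) = 0` (`cL_frob`, `res_car`); with `s = emb v (WW Φ e)` in `Lv v` (`WW_split`, `WW_pow`) `t * hh e = ℘ (t s)`.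
`TT_zero`: `h = hh (e - e') = de e - de e'`, `Δ = β - β'` has `Δ - C (Δ / A) = -2 C (h α / A)`; `res_sum` for `a Δ` over `Sf ∪ Nf`.  At `Nf`: `res (a Δ) = 2 res (h φ(y) α)` (`res_wp`).  At `Sf`, `h = s ^ p - s`: `ω = Δ + 2 s α` is fixed by `C (· / A)`, and
`γ'' = γ + β s + α s ^ 2 - γ'` has `C ((γ'' - d' ω) / A) = γ''`, `d' = de e'`, because `γ'' - d' ω = (γ - d β + d ^ 2 α) + s ^ p (β - 2 d α) + (s ^ 2) ^ p α - (γ' - d' β' + d' ^ 2 α)`, `d = de e`; so `res (t d' ω) = 0`, and `res_AA` gives `res (a ω) = 0`.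
-/

set_option linter.unusedSectionVars false

namespace Pool.Agent.ASel

open Polynomial Pool.Agent.Smith Finset
open scoped Classical

noncomputable section

variable {p : ℕ} {k : Type} [Field k] [Fintype k] [hp : Fact p.Prime] [CharP k p] {ι : Type}

theorem FTi_neg {M : Type} [Field M] [CharP M p] (A y : M) :
    (-y) ^ p / A - -y = -(y ^ p / A - y) := by
  rw [neg_pow, neg_one_pow_char]
  ring

theorem FTi_fix {v : Pl k} {A ω : Lv v} (hA : A ≠ 0) (h : cL p v (ω / A) = ω) (y : Lv v) :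
    res p v ((y ^ p / A - y) * ω) = 0 := by
  rw [res_wp v hA, h, sub_self, mul_zero, map_zero, neg_zero]

theorem FTi_car {v : Pl k} (A y x : Lv v) :
    res p v (y * cL p v (x / A)) = res p v (y ^ p / A * x) := by
  rw [← cL_frob, res_car, div_mul_eq_mul_div, mul_div_assoc]

theorem FTi_tors {v : Pl k} {A t x y : Lv v} (ht : t ^ p / A - t = 0)
    (h : cL p v ((y - x) / A) = y) : res p v (t * x) = 0 := by
  have h1 := FTi_car (p := p) A t (y - x)
  rwa [h, sub_eq_zero.1 ht, mul_sub, map_sub, eq_comm, sub_eq_self] at h1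

theorem FTi_loc {A : k[X]} (v : Pl k) {x y : RatFunc k} (h : cK p (x / pk _ A) = y) :
    cL p v (algebraMap _ _ x / pk _ A) = algebraMap _ _ y := by
  rw [← h, alg_cK, map_div₀ (algebraMap _ (Lv v))]
  rfl

theorem FTi_inv {A : k[X]} (hA : A ≠ 0) (v : Pl k) : ‖pk (Lv v) A‖⁻¹ ≤ 2 ^ A.natDegree := by
  rw [show ‖pk (Lv v) A‖ = av v (algebraMap k[X] _ A) from norm_alg v _]
  by_cases hv : v = none
  · subst hv
    rw [av_inf hA]
    exact (inv_le_one_of_one_le₀ (one_le_pow₀ one_le_two)).trans (one_le_pow₀ one_le_two)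
  · rw [av_poly_eq hv hA, ← inv_pow, inv_inv]
    refine pow_le_pow_right₀ one_le_two ?_
    have h1 := natDegree_le_of_dvd (pow_multiplicity_dvd (plp v) A) hA
    rw [natDegree_pow] at h1
    exact (Nat.le_mul_of_pos_right _ (PF_irr hv).natDegree_pos).trans h1

variable (p) in
/-- test elements -/
def AA (A F b : k[X]) (v0 : Pl k) (Mx : ℕ) (d : RatFunc k) : AddSubgroup (RatFunc k) where
  carrier := {a | av v0 a ≤ 2 ^ Mx ∧ ∀ v, (InS0 F v → v ≠ v0 → av v a * 2 ^ A.natDegree < 1) ∧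
    (InAn p A b v → ∃ y t : Lv v, ‖y‖ ≤ 1 ∧ t ^ p / pk _ A - t = 0 ∧
      algebraMap _ _ a = y ^ p / pk _ A - y + t * algebraMap _ _ d) ∧
    (¬ InS p A F b v → av v a ≤ 1)}
  zero_mem' := ⟨by simp, fun v => ⟨fun _ _ => by simp, fun _ =>
    ⟨0, 0, by simp, by simp [hp.out.ne_zero], by simp [hp.out.ne_zero]⟩, fun _ => by simp⟩⟩
  add_mem' {x y} hx hy := ⟨Hasse_add hx.1 hy.1, fun v => ⟨fun h h' => by
      refine (mul_le_mul_of_nonneg_right (av_na v x y) (by positivity)).trans_lt ?_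
      rw [max_mul_of_nonneg _ _ (by positivity)]
      exact max_lt ((hx.2 v).1 h h') ((hy.2 v).1 h h'), fun h => by
      obtain ⟨y1, t1, a1, a2, a3⟩ := (hx.2 v).2.1 h
      obtain ⟨y2, t2, b1, b2, b3⟩ := (hy.2 v).2.1 h
      refine ⟨y1 + y2, t1 + t2, PF_add a1 b1, by rw [Wp_add, a2, b2, add_zero], ?_⟩
      rw [map_add, a3, b3, Wp_add]
      ring, fun h => Hasse_add ((hx.2 v).2.2 h) ((hy.2 v).2.2 h)⟩⟩
  neg_mem' {x} hx := ⟨((av v0).map_neg x).trans_le hx.1, fun v => ⟨fun h h' => by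
      rw [(av v).map_neg]
      exact (hx.2 v).1 h h', fun h => by
      obtain ⟨y1, t1, a1, a2, a3⟩ := (hx.2 v).2.1 h
      refine ⟨-y1, -t1, by rwa [norm_neg], by rw [FTi_neg, a2, neg_zero], ?_⟩
      rw [map_neg, a3, FTi_neg]
      ring, fun h => ((av v).map_neg x).trans_le ((hx.2 v).2.2 h)⟩⟩

variable (p) in
/-- trivial test elements -/
def AA0 (A F b : k[X]) (v0 : Pl k) (Mx : ℕ) (d : RatFunc k) : AddSubgroup (RatFunc k) where
  carrier := {a | a ∈ AA p A F b v0 Mx d ∧ ∃ y : RatFunc k, a = y ^ p / pk _ A - y}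
  zero_mem' := ⟨zero_mem _, 0, by simp [hp.out.ne_zero]⟩
  add_mem' := fun ⟨a1, y, a2⟩ ⟨b1, z, b2⟩ => ⟨add_mem a1 b1, y + z, by rw [Wp_add, ← a2, ← b2]⟩
  neg_mem' := fun ⟨a1, y, a2⟩ => ⟨neg_mem a1, -y, by rw [FTi_neg, ← a2]⟩

variable (p) in
/-- leading coefficients -/
def Cc (A F b : k[X]) (v0 : Pl k) (Mx : ℕ) (d : RatFunc k) : AddSubgroup (RatFunc k) where
  carrier := {α | cK p (α / pk _ A) = α ∧ av v0 α ≤ 2⁻¹ ^ Mx ∧ ∀ v, (InU F b v → av v α ≤ 1) ∧
    (InAn p A b v → ∀ t : Lv v, t ^ p / pk _ A - t = 0 →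
      res p v (t * algebraMap _ _ d * algebraMap _ _ α) = 0)}
  zero_mem' := ⟨by simp, by simp, fun v => ⟨fun _ => by simp, fun _ _ _ => by simp⟩⟩
  add_mem' {x y} hx hy := ⟨by rw [add_div, map_add, hx.1, hy.1], Hasse_add hx.2.1 hy.2.1, fun v =>
    ⟨fun h => Hasse_add ((hx.2.2 v).1 h) ((hy.2.2 v).1 h), fun h t ht => by
      rw [map_add, mul_add, map_add, (hx.2.2 v).2 h t ht, (hy.2.2 v).2 h t ht, add_zero]⟩⟩
  neg_mem' {x} hx := ⟨by rw [neg_div, map_neg, hx.1], ((av v0).map_neg x).trans_le hx.2.1, fun v =>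
    ⟨fun h => ((av v).map_neg x).trans_le ((hx.2.2 v).1 h), fun h t ht => by
      rw [map_neg, mul_neg, map_neg, (hx.2.2 v).2 h t ht, neg_zero]⟩⟩

variable (p) in
/-- a fixed quadratic form with leading coefficient `α` -/
def TgD (A F b : k[X]) (v0 : Pl k) (Mx : ℕ) (d α : RatFunc k) : Prop :=
  ∃ β γ : RatFunc k, cK p (α / pk _ A) = α ∧ cK p ((β - 2 * d * α) / pk _ A) = β ∧
    cK p ((γ - d * β + d ^ 2 * α) / pk _ A) = γ ∧
    (∀ v, v ≠ none → ¬ plp v ∣ F * b → av v α ≤ 1 ∧ av v β ≤ 1) ∧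
    av v0 α ≤ 2⁻¹ ^ Mx ∧ av v0 β ≤ 2⁻¹ ^ Mx

variable (p) in
/-- a local solution of `℘ y = a` -/
def sl (A : k[X]) (v : Pl k) (a : RatFunc k) : Lv v :=
  if h : ∃ y : Lv v, y ^ p / pk _ A - y = algebraMap _ _ a then h.choose else 0

variable {A F b : k[X]} {v0 : Pl k} {Mx : ℕ}

theorem sl_spec (hA : A ∣ F) (hc : IsCoprime b F) {v : Pl k} (hv : InNa p A b v) {a : RatFunc k}
    (ha : av v a ≤ 1) : ‖sl p A v a‖ ≤ 1 ∧ sl p A v a ^ p / pk _ A - sl p A v a = algebraMap _ _ a := by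
  have h1 := norm_pk_one hA (not_S0_of_dvd hc hv.1 hv.2.1)
  have h2 : ‖algebraMap _ (Lv v) a‖ ≤ 1 := (norm_alg v a).trans_le ha
  obtain ⟨y, -, hy⟩ := wp_surj h1 (na_root hA hc hv) h2
  have h3 : sl p A v a ^ p / pk _ A - sl p A v a = algebraMap _ _ a := by
    rw [sl, dif_pos ⟨y, hy⟩]
    exact Exists.choose_spec (⟨y, hy⟩ : ∃ y : Lv v, y ^ p / pk _ A - y = algebraMap _ _ a)
  exact ⟨wp_int (p := p) (Wp_na v) h1 ((congrArg norm h3).trans_le h2), h3⟩

theorem sl_add (hA : A ∣ F) (hc : IsCoprime b F) {v : Pl k} (hv : InNa p A b v) {a a' : RatFunc k}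
    (ha : av v a ≤ 1) (ha' : av v a' ≤ 1) : sl p A v (a + a') = sl p A v a + sl p A v a' := by
  have h1 := norm_pk_one hA (not_S0_of_dvd hc hv.1 hv.2.1)
  have h0 : pk (Lv v) A ≠ 0 := fun e => by simp [e] at h1
  have h2 := Wp_sub (p := p) (pk (Lv v) A) (sl p A v (a + a')) (sl p A v a + sl p A v a')
  rw [Wp_add, (sl_spec hA hc hv ha).2, (sl_spec hA hc hv ha').2,
    (sl_spec hA hc hv (Hasse_add ha ha')).2, map_add, sub_self, sub_eq_zero, div_eq_iff h0,
    Wp_pow] at h2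
  exact by_contra fun e => na_root hA hc hv _ (mul_left_cancel₀ (sub_ne_zero.2 e) h2)

theorem FTi_res {v : Pl k} {M : ℕ} {x y : Lv v} (hx : ‖x‖ ≤ 2 ^ M) (hy : ‖y‖ ≤ 2⁻¹ ^ (M + 2)) :
    res p v (x * y) = 0 := by
  have h1 : ‖uL v‖ ≤ 2 := by
    rw [Wp_uL]
    split_ifs <;> norm_num
  have h2 : ‖x * y‖ ≤ 2⁻¹ ^ 2 := by
    rw [norm_mul]
    refine (mul_le_mul hx hy (norm_nonneg _) (by positivity)).trans_eq ?_
    rw [pow_add, ← mul_assoc, ← mul_pow, mul_inv_cancel₀ two_ne_zero, one_pow, one_mul]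
  refine res_small ?_
  rw [norm_mul]
  exact (mul_le_mul h1 h2 (norm_nonneg _) zero_le_two).trans_lt (by norm_num)

theorem res_AA (hF : F ≠ 0) (hA : A ∣ F) {d a : RatFunc k}
    (ha : a ∈ AA p A F b v0 Mx d) {v : Pl k} (hv : InS p A F b v) {ω : Lv v}
    (h1 : cL p v (ω / pk _ A) = ω) (h2 : v = v0 → ‖ω‖ ≤ 2⁻¹ ^ (Mx + 2))
    (h3 : InAn p A b v → ∀ t : Lv v, t ^ p / pk _ A - t = 0 → res p v (t * algebraMap _ _ d * ω) = 0) :
    res p v (algebraMap _ _ a * ω) = 0 := by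
  have A0 := ne_zero_of_dvd_ne_zero hF hA
  rcases inS_iff.1 hv with h | h
  · by_cases e : v = v0
    · subst e
      exact FTi_res ((norm_alg _ _).trans_le ha.1) (h2 rfl)
    · have h4 := ca_bound (p := p) (w := ω) (FB_pk A0 _) (one_le_pow₀ one_le_two) (FTi_inv A0 v) (by
        rw [h1, sub_self, mul_zero, norm_zero]
        positivity)
      refine res_small ?_
      rw [mul_left_comm, norm_mul, norm_alg]
      exact (mul_le_mul_of_nonneg_left h4 ((av v).nonneg _)).trans_lt ((ha.2 v).1 h e)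
  · obtain ⟨y, t, -, a2, a3⟩ := (ha.2 v).2.1 h
    rw [a3, add_mul, map_add, FTi_fix (FB_pk A0 _) h1, h3 h t a2, add_zero]

variable [Fintype ι]

/-- the triple pairing -/
def TT (A F b : k[X]) (Φ : ASF p k ι) (α a : RatFunc k) (e : ι → ZMod p) : ZMod p :=
  ∑ v ∈ Sf p A F b, res p v (rt v (emb v (WW Φ e)) * algebraMap _ _ (a * α)) -
    ∑ v ∈ Nf p A b, res p v (algebraMap _ _ (hh Φ e) * (sl p A v a ^ p / pk _ A * algebraMap _ _ α))

variable {Φ : ASF p k ι}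

theorem TT_add_e (α a : RatFunc k) (e e' : ι → ZMod p) :
    TT A F b Φ α a (e + e') = TT A F b Φ α a e + TT A F b Φ α a e' := by
  simp only [TT, WW_add, hh_add, map_add, add_mul, sum_add_distrib]
  ring

variable (hT : Ty p A F 0 1) (hS : Stg A F b Φ)
include hT hS

theorem TT_add_a (α : RatFunc k) {a a' : RatFunc k} (ha : a ∈ AA p A F b v0 Mx Φ.d)
    (ha' : a' ∈ AA p A F b v0 Mx Φ.d) (e : ι → ZMod p) :
    TT A F b Φ α (a + a') e = TT A F b Φ α a e + TT A F b Φ α a' e := by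
  rw [TT, TT, TT, ← add_sub_add_comm, ← sum_add_distrib, ← sum_add_distrib]
  refine congrArg₂ _ (sum_congr rfl fun v _ => ?_) (sum_congr rfl fun v hv => ?_)
  · rw [add_mul, map_add, mul_add, map_add]
  · have h := (mem_Nf hS.b_ne).1 hv
    rw [sl_add hT.dvd hS.cop h ((ha.2 v).2.2 (h.not_S hS.cop)) ((ha'.2 v).2.2 (h.not_S hS.cop)),
      add_pow_char, add_div, add_mul, mul_add, map_add]

theorem FTi_two {x : ZMod p} (h : x + x = 0) : x = 0 := by
  rw [← two_mul] at h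
  refine (mul_eq_zero.1 h).resolve_left fun e => ?_
  have h1 := Nat.le_of_dvd two_pos ((ZMod.natCast_eq_zero_iff 2 p).1 (by exact_mod_cast e))
  have h2 := hT.five
  omega

theorem FTi_split (e : ι → ZMod p) {v : Pl k} (hv : InS p A F b v) : ∃ s : Lv v, ‖s‖ ≤ 1 ∧
    rt v (emb v (WW Φ e)) = s ∧ s ^ p - s = algebraMap _ _ (hh Φ e) := by
  obtain ⟨s, h1, h2⟩ := WW_split hS e hv
  refine ⟨s, h1, by rw [← h2, rt_alg], (algebraMap _ (Lb v)).injective ?_⟩
  rw [map_sub, map_pow, h2, ← map_pow, ← map_sub, WW_pow, emb_algK]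

theorem FTi_de (e : ι → ZMod p) {v : Pl k} (hv : InS p A F b v) {t ω : Lv v}
    (ht : t ^ p / pk _ A - t = 0) (h : cL p v (ω / pk _ A) = ω)
    (h1 : res p v (t * (algebraMap _ _ (Φ.de e) * ω)) = 0) :
    res p v (t * algebraMap _ _ Φ.d * ω) = 0 := by
  obtain ⟨s, -, -, hs⟩ := FTi_split hT hS e hv
  have h2 := FTi_fix (FC_pk hS hT _) h (t * s)
  rw [mul_pow, mul_div_right_comm, sub_eq_zero.1 ht, ← mul_sub, hs] at h2
  rwa [show Φ.de e = Φ.d + hh Φ e from rfl, map_add, ← mul_assoc, mul_add, add_mul, map_add, h2,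
    add_zero] at h1

theorem mem_Cc {α : RatFunc k} {e : ι → ZMod p} (h : TgD p A F b v0 Mx (Φ.de e) α) :
    α ∈ Cc p A F b v0 Mx Φ.d := by
  obtain ⟨β, γ, h1, h2, -, h4, h5, -⟩ := h
  refine ⟨h1, h5, fun v => ⟨fun hv => (h4 v hv.1 hv.2).1, fun hv t ht =>
    FTi_de hT hS e (inS_iff.2 (Or.inr hv)) ht (FTi_loc v h1) (FTi_two hT hS ?_)⟩⟩
  have h6 := FTi_loc v h2
  rw [map_sub, map_mul, map_mul, map_ofNat] at h6
  rw [← map_add, ← FTi_tors ht h6]
  exact congrArg _ (by ring)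

theorem TT_zero {α a : RatFunc k} {e e' : ι → ZMod p}
    (h : TgD p A F b v0 (Mx + 2) (Φ.de e) α) (h' : TgD p A F b v0 (Mx + 2) (Φ.de e') α)
    (ha : a ∈ AA p A F b v0 Mx Φ.d) : TT A F b Φ α a (e - e') = 0 := by
  obtain ⟨β, γ, h1, h2, h3, h4, h5, h6⟩ := h
  obtain ⟨β', γ', -, g2, g3, g4, -, g6⟩ := h'
  have hd : hh Φ (e - e') = Φ.de e - Φ.de e' := by
    have := hh_add Φ (e - e') e'
    rw [sub_add_cancel] at this
    rw [show Φ.de e = Φ.d + hh Φ e from rfl, show Φ.de e' = Φ.d + hh Φ e' from rfl, this]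
    ring
  have hΔ : cK p ((β - β' - 2 * hh Φ (e - e') * α) / pk _ A) = β - β' := by
    rw [hd, show β - β' - 2 * (Φ.de e - Φ.de e') * α =
      β - 2 * Φ.de e * α - (β' - 2 * Φ.de e' * α) by ring, sub_div, map_sub, h2, g2]
  have hs := res_sum (p := p) (a * (β - β')) (Sf p A F b ∪ Nf p A b) fun v hv => by
    rw [mem_union, mem_Sf hT.F_ne hS.b_ne, mem_Nf hS.b_ne, not_or] at hv
    have hu := inU_iff.2 hv
    rw [map_mul, map_mul, av_uu, if_neg hu.1]
    have := mul_le_one₀ ((ha.2 v).2.2 hv.1) ((av v).nonneg _)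
      (Hasse_sub (h4 v hu.1 hu.2).2 (g4 v hu.1 hu.2).2)
    linarith
  rw [sum_union (disjoint_left.2 fun v a1 a2 =>
    ((mem_Nf hS.b_ne).1 a2).not_S hS.cop ((mem_Sf hT.F_ne hS.b_ne).1 a1))] at hs
  refine FTi_two hT hS ?_
  rw [TT, ← add_sub_add_comm, ← sum_add_distrib, ← sum_add_distrib, ← neg_eq_zero, neg_sub,
    sub_eq_neg_add, ← sum_neg_distrib, ← hs]
  refine congrArg₂ _ (sum_congr rfl fun v hv => ?_) (sum_congr rfl fun v hv => ?_)
  · have hv' := (mem_Sf hT.F_ne hS.b_ne).1 hv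
    obtain ⟨s, s1, s2, s3⟩ := FTi_split hT hS (e - e') hv'
    have l1 := FTi_loc v h1
    have l2 := FTi_loc v h2
    have l3 := FTi_loc v h3
    have l4 := FTi_loc v g3
    have l5 := FTi_loc v hΔ
    rw [hd] at s3 l5
    simp only [map_sub, map_add, map_mul, map_pow, map_ofNat] at l2 l3 l4 l5 s3
    have n1 : v = v0 → ‖algebraMap _ (Lv v) α‖ ≤ 2⁻¹ ^ (Mx + 2) ∧
        ‖algebraMap _ (Lv v) β‖ ≤ 2⁻¹ ^ (Mx + 2) ∧ ‖algebraMap _ (Lv v) β'‖ ≤ 2⁻¹ ^ (Mx + 2) := by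
      rintro rfl
      simp only [norm_alg]
      exact ⟨h5, h6, g6⟩
    rw [s2, map_mul (algebraMap _ (Lv v)), map_mul (algebraMap _ (Lv v)),
      map_sub (algebraMap _ (Lv v))]
    generalize algebraMap _ (Lv v) α = α at *
    generalize algebraMap _ (Lv v) β = β at *
    generalize algebraMap _ (Lv v) β' = β' at *
    generalize algebraMap _ (Lv v) γ = γ at *
    generalize algebraMap _ (Lv v) γ' = γ' at *
    have sp := eq_add_of_sub_eq s3
    have o1 : cL p v ((β - β' + (s * α + s * α)) / pk _ A) = β - β' + (s * α + s * α) := by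
      rw [show (β - β' + (s * α + s * α)) / pk _ A = (β - β' - 2 * (algebraMap _ _ (Φ.de e) -
        algebraMap _ _ (Φ.de e')) * α) / pk _ A + (s ^ p * (α / pk _ A) + s ^ p * (α / pk _ A)) by
          rw [sp]; ring, map_add, map_add, l5, cL_frob, l1]
    have o2 := res_AA hT.F_ne hT.dvd ha hv' o1 (fun e0 => by
      have := (norm_mul s α).trans_le ((mul_le_of_le_one_left (norm_nonneg _) s1).trans (n1 e0).1)
      exact PF_add (PF_sub (n1 e0).2.1 (n1 e0).2.2) (PF_add this this)) fun _ t ht =>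
      FTi_de hT hS e' hv' ht o1 (FTi_tors (y := γ + s * β + s ^ 2 * α - γ') ht (by
        rw [show (γ + s * β + s ^ 2 * α - γ' - algebraMap _ _ (Φ.de e') * (β - β' + (s * α + s * α))) /
          pk _ A = (γ - algebraMap _ _ (Φ.de e) * β + algebraMap _ _ (Φ.de e) ^ 2 * α) / pk _ A +
            s ^ p * ((β - 2 * algebraMap _ _ (Φ.de e) * α) / pk _ A) + (s ^ 2) ^ p * (α / pk _ A) -
            (γ' - algebraMap _ _ (Φ.de e') * β' + algebraMap _ _ (Φ.de e') ^ 2 * α) / pk _ A by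
          rw [← pow_mul, mul_comm 2 p, pow_mul, sp]; ring, map_sub, map_add, map_add, l3, l4,
          cL_frob, cL_frob, l2, l1]))
    rw [mul_add, map_add, mul_add, map_add] at o2
    rw [mul_left_comm]
    linear_combination -o2
  · have hv' := (mem_Nf hS.b_ne).1 hv
    have l5 := FTi_loc v hΔ
    have y1 := (sl_spec hT.dvd hS.cop hv' ((ha.2 v).2.2 (hv'.not_S hS.cop))).2
    rw [map_sub, sub_div, map_sub, map_mul, map_mul, map_ofNat, sub_eq_iff_eq_add'] at l5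
    rw [map_mul (algebraMap _ (Lv v)), ← y1, res_wp v (FC_pk hS hT _), ← map_neg, ← mul_neg,
      neg_sub, l5, add_sub_cancel_right, FTi_car, ← map_add]
    exact congrArg _ (by ring)

end

end Pool.Agent.ASel
end

-- merged part: Pool.Agent.Work.MP_60d5ce_nt.AG.FTc
section
/-!
# Tightness: counting  (AS, function field side)

PLAN.  `Cc_fin`: `card_fix`.  `AA_fin`: `card_bounded` (or `card_a`).  `AA0_le`: count the `y` with `card_bounded`, `S = insert none (fac' F)`: `y` is integral outside `InS0` (`wp_int`; at `InAn` `℘ (y - y_v) = t d` has norm `≤ 2 < 2 ^ p`, `wp_norm`, `norm_disc`),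
`‖y‖ ≤ 2 ^ natDegree A` at `InS0`, `v ≠ v0` (`wp_le`), and `‖y‖ ≤ 2 ^ M` at `v0` (`wp_norm`, `‖A‖ ≤ 1`).
`AA_ge`: let `κ` be the set of the places `InAn`, `t v ^ (p - 1) = A` (`an_root`, a unit).  `V1`: pairs `(a, μ)`, `μ : κ → ZMod p`, `a - μ v * t v * d` integral at `κ`, `av v0 a ≤ 2 ^ Mx`, `a` integral elsewhere; `V ≤ V1`: moreover small at `InS0`, `v ≠ v0`.
`card V1 ≥ p ^ card κ * q ^ (Mx * pdg v0)` (`pf_many` for each `μ`, plus `c / plp v0 ^ Mx`, `deg c < Mx * pdg v0`); `card V1 ≤ q ^ c * card V` (`card_ball'`, `cov_pi`, `cov_graph`, `Cov.card_le`, or the index of a kernel).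
`ψ (a, μ) v = res ((a - μ t d) / (t * uL v))`; `ρ α v = m` with `‖uL v * α - m / t‖ < 1` (`ca_anom`, unique and additive by `fp_small`); `∑ ψ ρ = ∑ res (a α) = 0` (`res_sum`; argue as in `res_AA` at `InS0`; `ca_na` at `InNa`);
`ρ` is injective for large `Mx` (`prod_formula`, `ca_bound`); `card_ker_ge`; `ker ψ → AA`, `(a, μ) ↦ a` (`as_solve`: `t (s ^ p - s) = ℘ (t s)`) is injective because `d` has a pole.
-/

set_option linter.unusedSectionVars false

namespace Pool.Agent.ASel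

open Polynomial Pool.Agent.Smith Finset

variable {p : ℕ} {k : Type} [Field k] [Fintype k] [hp : Fact p.Prime] [CharP k p] {A F : k[X]}
  {v0 : Pl k} (hF : F ≠ 0) (hA : A ∣ F) (h1 : InS0 F v0)

theorem FTc_fib {G X Y : Type} [AddCommGroup G] [Finite Y] (V : AddSubgroup G) [Finite V]
    (e : X → G) (he : Function.Injective e) (f : X → Y)
    (h : ∀ x x', f x = f x' → e x - e x' ∈ V) : Nat.card X ≤ Nat.card Y * Nat.card V := by
  rcases isEmpty_or_nonempty X with hX | hX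
  · simp
  rw [← Nat.card_prod]
  refine Nat.card_le_card_of_injective (fun x => (f x, (⟨e x - e (Function.invFun f (f x)),
    h _ _ (Function.invFun_eq ⟨x, rfl⟩).symm⟩ : V))) fun x x' hx => he ?_
  have h1 : f x = f x' := congrArg Prod.fst hx
  have h2 : e x - e (Function.invFun f (f x)) = e x' - e (Function.invFun f (f x')) :=
    congrArg (fun z : Y × V => (z.2 : G)) hx
  rwa [h1, sub_left_inj] at h2

theorem FTc_root {v : Pl k} {B y : Lv v} (h0 : B ≠ 0) (hB : ‖B‖ ≤ 1) {M : ℕ}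
    (h : ‖y ^ p / B - y‖ < 2 ^ (p * (M + 1))) : ‖y‖ ≤ 2 ^ M := by
  by_contra hc
  have h1 : (2 : ℝ) ^ (M + 1) ≤ ‖y‖ := not_lt.1 fun e => hc (by
    have := Wp_half (n := M) (x := y) (by exact_mod_cast e)
    exact_mod_cast this)
  have h2 : 1 < ‖y‖ := (one_lt_pow₀ one_lt_two M.succ_ne_zero).trans_le h1
  have h3 : ‖y ^ p / B - y‖ = ‖y‖ ^ p / ‖B‖ := wp_norm (p := p) (Wp_na v) h0
    (hB.trans_lt (one_lt_pow₀ h2 (Nat.sub_ne_zero_of_lt hp.out.one_lt)))
  rw [h3, mul_comm, pow_mul] at h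
  have h4 := pow_le_pow_left₀ (by positivity) h1 p
  have h5 : ‖y‖ ^ p ≤ ‖y‖ ^ p / ‖B‖ := le_div_self (by positivity) (norm_pos_iff.2 h0) hB
  linarith

theorem FTc_root2 {v : Pl k} {B y : Lv v} (h0 : B ≠ 0) {n M : ℕ} (hB : ‖B‖ ≤ 2 ^ n)
    (h : ‖y ^ p / B - y‖ ≤ 2 ^ (p * M)) : ‖y‖ ≤ 2 ^ (M + n) := by
  by_contra hc
  have h1 := not_le.1 hc
  have h2 : 1 ≤ ‖y‖ := (one_le_pow₀ one_le_two).trans h1.le
  have h3 : ‖y ^ p / B - y‖ = ‖y‖ ^ p / ‖B‖ := wp_norm (p := p) (Wp_na v) h0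
    (((hB.trans (pow_le_pow_right₀ one_le_two (Nat.le_add_left n M))).trans_lt h1).trans_le
      (le_self_pow₀ h2 (Nat.sub_ne_zero_of_lt hp.out.one_lt)))
  rw [h3, div_le_iff₀ (norm_pos_iff.2 h0)] at h
  have h4 := pow_lt_pow_left₀ h1 (by positivity) hp.out.ne_zero
  have h5 := h.trans (mul_le_mul_of_nonneg_left hB (by positivity))
  rw [← pow_add] at h5
  rw [← pow_mul] at h4
  refine (h4.trans_le h5).not_ge (pow_le_pow_right₀ one_le_two ?_)
  rw [add_mul, mul_comm p]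
  exact Nat.add_le_add_left (Nat.le_mul_of_pos_right _ hp.out.pos) _

theorem FTc_pk {A : k[X]} (hA : A ≠ 0) (v : Pl k) : ‖pk (Lv v) A‖ ≤ 2 ^ A.natDegree := by
  refine (norm_alg v _).trans_le ?_
  by_cases hv : v = none
  · subst hv
    exact (av_inf hA).le
  · exact (av_poly_le hv A).trans (one_le_pow₀ one_le_two)

theorem FTc_int {v : Pl k} {B y : Lv v} (hB : ‖B‖ = 1) (hy : ‖y‖ ≤ 1) : ‖y ^ p / B - y‖ ≤ 1 := by
  refine PF_sub ?_ hy
  rw [norm_div, norm_pow, hB, div_one]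
  exact pow_le_one₀ (norm_nonneg _) hy

theorem FTc_zero {v : Pl k} {μ : ZMod p} (h : ‖algebraMap (ZMod p) (Lv v) μ‖ < 1) : μ = 0 := by
  refine (algebraMap (ZMod p) (Lv v)).injective ?_
  rw [← ZMod.natCast_zmod_val μ, map_natCast] at h ⊢
  have := fp_small (p := p) (Wp_na v) (l := 1) (m := μ.val) (map_one _) (by rwa [mul_one])
  rwa [mul_one, ← map_zero (algebraMap (ZMod p) (Lv v))] at this

theorem FTc_res (v : Pl k) (μ : ZMod p) (z : Lv v) :
    res p v (algebraMap (ZMod p) (Lv v) μ * z) = μ * res p v z := by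
  rw [← ZMod.natCast_zmod_val μ, map_natCast, ← nsmul_eq_mul, map_nsmul, nsmul_eq_mul]

theorem FTc_tors {v : Pl k} {B t : Lv v} (h0 : B ≠ 0) (ht : t ^ (p - 1) = B) (μ : ZMod p) :
    (algebraMap (ZMod p) (Lv v) μ * t) ^ p / B - algebraMap (ZMod p) (Lv v) μ * t = 0 := by
  rw [mul_pow, ← map_pow, ZMod.pow_card, Wp_pow t, ht, ← mul_assoc, mul_div_cancel_right₀ _ h0,
    sub_self]

theorem FTc_pole (M : ℕ) {c : k[X]} (hc : c ∈ degreeLT k (M * pdg v0)) :
    av v0 (pk _ c / pk _ (plp v0 ^ M)) ≤ 2 ^ M ∧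
      ∀ v, v ≠ v0 → av v (pk _ c / pk _ (plp v0 ^ M)) ≤ 1 := by
  change av v0 (algebraMap k[X] _ c / algebraMap k[X] _ _) ≤ _ ∧
    ∀ v, v ≠ v0 → av v (algebraMap k[X] _ c / algebraMap k[X] _ _) ≤ 1
  by_cases h0 : v0 = none
  · subst h0
    rw [show plp (none : Pl k) = 1 from rfl, one_pow, map_one, div_one]
    refine ⟨?_, fun v hv => av_poly_le hv c⟩
    by_cases c0 : c = 0
    · rw [c0, map_zero, map_zero]
      positivity
    rw [av_inf c0]
    refine pow_le_pow_right₀ one_le_two ?_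
    have := (natDegree_lt_iff_degree_lt c0).2 (mem_degreeLT.1 hc)
    rw [show pdg (none : Pl k) = 1 from rfl, mul_one] at this
    exact this.le
  refine ⟨?_, fun v hv => ?_⟩
  · rw [map_div₀, map_pow, map_pow, av_plp h0, inv_pow, div_inv_eq_mul]
    exact mul_le_of_le_one_left (by positivity) (av_poly_le h0 c)
  · by_cases e : v = none
    · subst e
      refine (PF_inf ?_).le
      rw [degree_eq_natDegree ((PF_monic v0).pow M).ne_zero, natDegree_pow, PF_deg h0]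
      exact mem_degreeLT.1 hc
    · rw [map_div₀, map_pow, map_pow, PF_one e fun h => hv (PF_inj e h0 h), one_pow, div_one]
      exact av_poly_le e c

variable (p) in
/-- pairs of a function and the classes of its polar parts -/
noncomputable def FTc_V (F : k[X]) (v0 : Pl k) (Mx n : ℕ) (K : Finset (Pl k)) (u : ∀ v : Pl k, Lv v) :
    AddSubgroup (RatFunc k × (K → ZMod p)) where
  carrier := {x | av v0 x.1 ≤ 2 ^ Mx ∧
    (∀ v : K, ‖algebraMap _ (Lv v.1) x.1 - algebraMap (ZMod p) _ (x.2 v) * u v.1‖ ≤ 1) ∧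
    (∀ v ∉ K, ¬ InS0 F v → av v x.1 ≤ 1) ∧ ∀ v, InS0 F v → v ≠ v0 → av v x.1 ≤ 2⁻¹ ^ n}
  zero_mem' := ⟨by simp, fun v => by simp, fun v _ _ => by simp, fun v _ _ => by simp⟩
  add_mem' {x y} hx hy := ⟨Hasse_add hx.1 hy.1, fun v => by
      rw [Prod.fst_add, Prod.snd_add, Pi.add_apply, map_add, map_add, add_mul, add_sub_add_comm]
      exact PF_add (hx.2.1 v) (hy.2.1 v),
    fun v a b => Hasse_add (hx.2.2.1 v a b) (hy.2.2.1 v a b),
    fun v a b => Hasse_add (hx.2.2.2 v a b) (hy.2.2.2 v a b)⟩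
  neg_mem' {x} hx := ⟨((av v0).map_neg x.1).trans_le hx.1, fun v => by
      rw [Prod.fst_neg, Prod.snd_neg, Pi.neg_apply, map_neg, map_neg, neg_mul, neg_sub_neg,
        norm_sub_rev]
      exact hx.2.1 v,
    fun v a b => ((av v).map_neg x.1).trans_le (hx.2.2.1 v a b),
    fun v a b => ((av v).map_neg x.1).trans_le (hx.2.2.2 v a b)⟩

theorem FTc_low (hF : F ≠ 0) (h1 : InS0 F v0) (n : ℕ) : ∃ N : ℕ, ∀ (Mx : ℕ)
    (K : Finset (Pl k)) (u : ∀ v : Pl k, Lv v), (∀ v ∈ K, ¬ InS0 F v) →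
    Finite (FTc_V p F v0 Mx n K u) →
    p ^ K.card * Fintype.card k ^ (Mx * pdg v0) ≤ N * Nat.card (FTc_V p F v0 Mx n K u) := by
  classical
  choose T _ t2 using fun v : Pl k => card_ball' v n
  refine ⟨Nat.card (∀ v : (insert none (fac' F)).erase v0, T v), fun Mx K u hK hV => ?_⟩
  have hv0 : v0 ∉ K := fun e => hK v0 e h1
  choose y y1 y2 _ using fun μ : K → ZMod p => pf_many K fun v =>
    if h : v ∈ K then algebraMap (ZMod p) _ (μ ⟨v, h⟩) * u v else 0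
  have mS : ∀ v, v ∈ (insert none (fac' F)).erase v0 ↔ v ≠ v0 ∧ InS0 F v := fun v => by
    simp only [InS0, mem_erase, mem_insert, mem_fac' hF]
    tauto
  obtain ⟨e, he⟩ : ∃ e : (K → ZMod p) × degreeLT k (Mx * pdg v0) → RatFunc k × (K → ZMod p),
      ∀ x, e x = (y x.1 + pk _ x.2.1 / pk _ (plp v0 ^ Mx), x.1) := ⟨_, fun _ => rfl⟩
  have m1 : ∀ x, e x ∈ FTc_V p F v0 Mx 0 K u := fun x => by
    obtain ⟨z1, z2⟩ := FTc_pole Mx x.2.2
    rw [he]
    refine ⟨Hasse_add ((y2 _ v0 hv0).trans (one_le_pow₀ one_le_two)) z1, fun v => ?_,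
      fun v a b => Hasse_add (y2 _ v a) (z2 v fun e => b (e ▸ h1)),
      fun v a b => Hasse_add ((y2 _ v fun e => hK v e a).trans_eq (pow_zero _).symm)
        ((z2 v b).trans_eq (pow_zero _).symm)⟩
    have a := y1 x.1 v v.2
    rw [dif_pos v.2, norm_sub_rev] at a
    rw [map_add, add_sub_right_comm]
    exact PF_add a ((norm_alg _ _).trans_le (z2 v fun e => hv0 (e ▸ v.2)))
  choose f f1 _ f3 using fun (x : (K → ZMod p) × degreeLT k (Mx * pdg v0))
    (v : (insert none (fac' F)).erase v0) => t2 v (algebraMap _ _ (e x).1) ((norm_alg _ _).trans_le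
      (((m1 x).2.2.2 v ((mS v).1 v.2).2 ((mS v).1 v.2).1).trans_eq (pow_zero _)))
  refine le_trans (le_of_eq ?_) (FTc_fib (FTc_V p F v0 Mx n K u) e (fun x x' h => ?_)
    (fun x (v : (insert none (fac' F)).erase v0) => (⟨f x v, f1 x v⟩ : T v)) fun x x' h => ?_)
  · rw [Nat.card_prod, Nat.card_fun, Nat.card_zmod, Nat.card_eq_fintype_card (α := K),
      Fintype.card_coe, Nat.card_congr (degreeLTEquiv k _).toEquiv, Nat.card_fun,
      Nat.card_eq_fintype_card (α := k), Nat.card_fin]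
  · rw [he, he, Prod.mk.injEq] at h
    refine Prod.ext h.2 (Subtype.ext ?_)
    have h2 := h.1
    rw [h.2, add_right_inj, div_left_inj' (FB_pk ((PF_monic v0).pow Mx).ne_zero _)] at h2
    exact RatFunc.algebraMap_injective k h2
  · have m2 := sub_mem (m1 x) (m1 x')
    refine ⟨m2.1, m2.2.1, m2.2.2.1, fun v a b => ?_⟩
    have h2 : f x ⟨v, (mS v).2 ⟨b, a⟩⟩ = f x' ⟨v, (mS v).2 ⟨b, a⟩⟩ :=
      congrArg Subtype.val (congrFun h _)
    have h3 := f3 x ⟨v, (mS v).2 ⟨b, a⟩⟩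
    have h4 := f3 x' ⟨v, (mS v).2 ⟨b, a⟩⟩
    rw [norm_sub_rev, ← h2] at h4
    rw [Prod.fst_sub, ← norm_alg, map_sub]
    exact PF_tri h3 h4

theorem FTc_z {α : RatFunc k} (h : cK p (α / pk _ A) = α) (v : Pl k) :
    ‖uL v * (algebraMap _ _ α - cL p v (algebraMap _ _ α / pk (Lv v) A))‖ = 0 := by
  rw [FTi_loc v h, sub_self, mul_zero, norm_zero]

theorem FTc_bd (hA : A ≠ 0) {α : RatFunc k} (h : cK p (α / pk _ A) = α) (v : Pl k) :
    ‖uL v * algebraMap _ _ α‖ ≤ 2 ^ A.natDegree :=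
  ca_bound (p := p) (FB_pk hA _) (one_le_pow₀ one_le_two) (FTi_inv hA v)
    ((FTc_z h v).trans_le (by positivity))

theorem FTc_off (hA : A ∣ F) {b : k[X]} (hc : IsCoprime b F) {Mx : ℕ} {d α : RatFunc k}
    (h : α ∈ Cc p A F b v0 Mx d) {v : Pl k} (hv : ¬ InS p A F b v) : av v α ≤ 1 := by
  by_cases h1 : InNa p A b v
  · exact (norm_alg v α).symm.trans_le ((int_iff h1.1 _).1 (ca_na (norm_pk_one hA
      (not_S0_of_dvd hc h1.1 h1.2.1)) (na_root hA hc h1) ((FTc_z h.1 v).trans_lt one_pos)))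
  · exact (h.2.2 v).1 (inU_iff.2 ⟨hv, h1⟩)

theorem FTc_van (hF : F ≠ 0) {n Mx : ℕ} (hM : n + n * F.natDegree < Mx)
    {α : RatFunc k} (a0 : av v0 α ≤ 2⁻¹ ^ Mx) (a1 : ∀ v, av v α ≤ 2 ^ n)
    (a2 : ∀ v, ¬ InS0 F v → av v α ≤ 1) : α = 0 := by
  have e := eq_zero_of_small (y := α * algebraMap k[X] _ F ^ n / algebraMap k[X] _ (plp v0) ^ Mx)
    (fun v hv => ?_) ?_
  · have f1 := pow_ne_zero n (PF_ne hF)
    have f2 := pow_ne_zero Mx (PF_ne (PF_monic v0).ne_zero)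
    simpa only [div_eq_zero_iff, mul_eq_zero, f1, f2, or_false] using e
  · rw [map_div₀, map_mul, map_pow, map_pow]
    have b1 := pow_le_one₀ (n := n) ((av v).nonneg _) (av_poly_le hv F)
    by_cases e : v = v0
    · subst e
      rw [av_plp hv, div_le_one (by positivity)]
      exact (mul_le_of_le_one_right ((av v).nonneg _) b1).trans a0
    rw [PF_one (f := plp v0) hv fun h => by
      by_cases h0 : v0 = none
      · subst h0
        exact (PF_irr hv).not_isUnit (isUnit_of_dvd_one h)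
      · exact e (PF_inj hv h0 h), one_pow, div_one]
    by_cases e' : InS0 F v
    · have b2 := pow_le_pow_left₀ ((av v).nonneg _)
        (PF_half' ((av_poly_lt hv F).2 (e'.resolve_left hv))) n
      refine (mul_le_mul (a1 v) b2 (by positivity) (by positivity)).trans_eq ?_
      rw [← mul_pow, mul_inv_cancel₀ two_ne_zero, one_pow]
    · exact mul_le_one₀ (a2 v e') (by positivity) b1
  · rw [map_div₀, map_mul, map_pow, map_pow, av_inf hF, av_inf (PF_monic v0).ne_zero,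
      div_lt_one (by positivity), ← pow_mul, ← pow_mul]
    by_cases h0 : v0 = none
    · subst h0
      refine (mul_le_mul_of_nonneg_right a0 (by positivity)).trans_lt
        (lt_of_lt_of_le ?_ (one_le_pow₀ one_le_two))
      rw [inv_pow, inv_mul_lt_iff₀ (by positivity), mul_one, mul_comm F.natDegree]
      exact pow_lt_pow_right₀ one_lt_two (by omega)
    refine (mul_le_mul_of_nonneg_right (a1 none) (by positivity)).trans_lt ?_
    rw [← pow_add, PF_deg h0]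
    refine pow_lt_pow_right₀ one_lt_two ?_
    rw [mul_comm F.natDegree]
    exact hM.trans_le (Nat.le_mul_of_pos_left _ (pdg_pos v0))

include hF hA h1

theorem Cc_fin {b : k[X]} (hb : b ≠ 0) (hc : IsCoprime b F) (Mx : ℕ) (d : RatFunc k) :
    (Cc p A F b v0 Mx d : Set (RatFunc k)).Finite := by
  obtain ⟨C, hC⟩ := card_fix (p := p) hF hA
  obtain ⟨T, -, t2⟩ := hC b hb hc
  exact T.finite_toSet.subset fun α hα => t2 α hα.1 fun v hv => (hα.2.2 v).1 hv

theorem AA_fin {b : k[X]} (hb : b ≠ 0) (hc : IsCoprime b F) (Mx : ℕ) (d : RatFunc k) :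
    (AA p A F b v0 Mx d : Set (RatFunc k)).Finite := by
  choose! t ht using fun (v : Pl k) (hv : InAn p A b v) => an_root hA hc hv
  choose R r1 r2 using fun v : Pl k => FFix_R (k := k) (p := p)
    fun m : Lv v => m * t v * algebraMap _ _ d
  obtain ⟨T, -, t2⟩ := FFix_count (p := p) (A := A) hF hb Mx ∅ R r1
  refine T.finite_toSet.subset fun a ha => t2 a (fun v hv => ?_) (fun v hv => ?_)
    fun v hv _ => (ha.2 v).2.2 hv
  · by_cases e : v = v0
    · exact e ▸ ha.1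
    · exact ((le_mul_of_one_le_right ((av v).nonneg a) (one_le_pow₀ one_le_two)).trans
        ((ha.2 v).1 (hv.resolve_right (notMem_empty v)) e).le).trans (one_le_pow₀ one_le_two)
  · obtain ⟨y, s, a1, a2, a3⟩ := (ha.2 v).2.1 hv
    have n1 := norm_pk_one hA (not_S0_of_dvd hc hv.1 hv.2.1)
    obtain ⟨m, hm⟩ := wp_ker (ht v hv) (norm_pos_iff.1 (one_pos.trans_eq
      (Wp_one n1 (ht v hv)).symm)) a2
    refine ⟨_, r2 v m, ?_⟩
    rw [a3, hm, add_sub_cancel_right]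
    exact FTc_int n1 a1

theorem AA0_le : ∃ c : ℕ, ∀ (b : k[X]) (d : RatFunc k) (M : ℕ), b ≠ 0 → IsCoprime b F →
    (∀ v, ¬ InS0 F v → av v d < 2 ^ p) →
    Nat.card (AA0 p A F b v0 (p * M) d) ≤ Fintype.card k ^ (c + M * pdg v0) := by
  classical
  have A0 := ne_zero_of_dvd_ne_zero hF hA
  refine ⟨1 + A.natDegree + A.natDegree * pdg v0, fun b d M hb hc hd => ?_⟩
  choose B b1 b2 using fun (v : Pl k) (n : ℕ) => card_ball v n
  obtain ⟨Y, y1, y2⟩ := card_bounded {none, v0} fun v =>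
    B v (if v = v0 then M + A.natDegree else A.natDegree)
  have hs : (AA0 p A F b v0 (p * M) d : Set (RatFunc k)) ⊆
      (Y.image fun y => y ^ p / pk _ A - y : Finset _) := by
    rintro a ⟨ha, y, rfl⟩
    refine mem_coe.2 (mem_image_of_mem _ ?_)
    have e1 : ∀ v : Pl k, algebraMap _ (Lv v) (y ^ p / pk _ A - y) =
        algebraMap _ _ y ^ p / pk _ A - algebraMap _ _ y := fun v => by
      rw [map_sub, map_div₀, map_pow]
      rfl
    have e2 : ∀ (v : Pl k) (n : ℕ), v ≠ none → av v (y ^ p / pk _ A - y) < 2 ^ (p * (n + 1)) →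
        ‖algebraMap _ (Lv v) y‖ ≤ 2 ^ n := fun v n hv h =>
      FTc_root (p := p) (FB_pk A0 _) ((norm_alg v _).trans_le (av_poly_le hv A))
        (by rwa [← e1, norm_alg])
    have e3 : ∀ v, InS0 F v → v ≠ v0 → av v (y ^ p / pk _ A - y) ≤ 1 := fun v a b =>
      (le_mul_of_one_le_right ((av v).nonneg _) (one_le_pow₀ one_le_two)).trans
        ((ha.2 v).1 a b).le
    refine y2 y (fun v hv => b2 v _ _ ?_) fun v hv => ?_
    · split_ifs with e
      · subst e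
        exact FTc_root2 (p := p) (FB_pk A0 _) (FTc_pk A0 v) (by
          rw [← e1, norm_alg]
          exact ha.1)
      · obtain rfl : v = none := (mem_insert.1 hv).resolve_right fun h => e (mem_singleton.1 h)
        rw [norm_alg]
        exact wp_le (p := p) (av_na none) (FB_pk A0 _) (one_le_pow₀ one_le_two) (av_inf A0).le
          ((e3 none (Or.inl rfl) e).trans (one_le_pow₀ one_le_two))
    · rw [mem_insert, mem_singleton, not_or] at hv
      refine (norm_alg v y).symm.trans_le ((e2 v 0 hv.1 ?_).trans_eq (pow_zero _))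
      have o1 : (1 : ℝ) < 2 ^ p := one_lt_pow₀ one_lt_two hp.out.ne_zero
      rw [zero_add, mul_one]
      by_cases hS : InS p A F b v
      · rcases inS_iff.1 hS with h | h
        · exact (e3 v h hv.2).trans_lt o1
        · obtain ⟨z, s, a1, a2, a3⟩ := (ha.2 v).2.1 h
          have n1 := norm_pk_one hA (not_S0_of_dvd hc h.1 h.2.1)
          have n2 : ‖s‖ ≤ 1 := wp_int (p := p) (Wp_na v) n1
            ((congrArg norm a2).trans_le (norm_zero.trans_le zero_le_one))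
          rw [← norm_alg, a3]
          refine Wp_add_lt ((FTc_int n1 a1).trans_lt o1) ?_
          rw [norm_mul, norm_alg]
          exact (mul_le_of_le_one_left ((av v).nonneg _) n2).trans_lt
            (hd v (not_S0_of_dvd hc h.1 h.2.1))
      · exact ((ha.2 v).2.2 hS).trans_lt o1
  refine ((Set.ncard_le_ncard hs (finite_toSet _)).trans_eq (Set.ncard_coe_finset _)).trans
    (card_image_le.trans (y1.trans ?_))
  rw [add_assoc, add_assoc, ← add_mul, add_comm A.natDegree M, pow_add, pow_add, pow_one]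
  refine Nat.mul_le_mul_left _ ?_
  by_cases h0 : none = v0
  · subst h0
    rw [pair_eq_singleton, prod_singleton, if_pos rfl]
    exact (b1 _ _).trans (Nat.le_mul_of_pos_left _ (pow_pos Fintype.card_pos _))
  rw [prod_pair h0, if_neg h0, if_pos rfl]
  exact Nat.mul_le_mul ((b1 _ _).trans_eq (congrArg _ (mul_one _))) (b1 _ _)

theorem AA_ge : ∃ c M0 : ℕ, ∀ (b : k[X]) (d : RatFunc k), ∀ Mx ≥ M0, b ≠ 0 → IsCoprime b F →
    (∀ v, InAn p A b v → 1 < av v d) →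
    Nat.card (Cc p A F b v0 (Mx + 2) d) * Fintype.card k ^ (Mx * pdg v0) ≤
      Fintype.card k ^ c * Nat.card (AA p A F b v0 Mx d) := by
  classical
  have A0 := ne_zero_of_dvd_ne_zero hF hA
  obtain ⟨N, hN⟩ := FTc_low (p := p) hF h1 (A.natDegree + 1)
  refine ⟨N, A.natDegree + 1 + (A.natDegree + 1) * F.natDegree + 1, fun b d Mx hM hb hc hd => ?_⟩
  obtain ⟨K, mK⟩ : ∃ K : Finset (Pl k), ∀ v, v ∈ K ↔ InAn p A b v :=
    ⟨(fac' b).filter fun v => Anom p A (plp v), fun v => by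
      simp only [InAn, mem_filter, mem_fac' hb, and_assoc]⟩
  choose! t ht using fun (v : Pl k) (hv : InAn p A b v) => an_root hA hc hv
  have nS : ∀ v ∈ K, ¬ InS0 F v := fun v hv => not_S0_of_dvd hc ((mK v).1 hv).1 ((mK v).1 hv).2.1
  have oS : ∀ v, ¬ InS p A F b v ↔ v ∉ K ∧ ¬ InS0 F v := fun v => by
    rw [inS_iff, mK, not_or, and_comm]
  have n0 : ∀ v : K, t v.1 ^ (p - 1) = pk _ A := fun v => ht v ((mK v).1 v.2)
  have n1 : ∀ v : K, ‖pk (Lv v.1) A‖ = 1 := fun v => norm_pk_one hA (nS v v.2)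
  have n2 : ∀ v : K, ‖t v.1‖ = 1 := fun v => Wp_one (n1 v) (n0 v)
  have n3 : ∀ v : K, t v.1 ≠ 0 := fun v => norm_pos_iff.1 (one_pos.trans_eq (n2 v).symm)
  have n4 : (2 : ℝ)⁻¹ ^ (A.natDegree + 1) * 2 ^ A.natDegree < 1 := by
    rw [pow_succ', mul_assoc, ← mul_pow, inv_mul_cancel₀ two_ne_zero, one_pow]
    norm_num
  obtain ⟨ψ, hψ⟩ : ∃ ψ : FTc_V p F v0 Mx (A.natDegree + 1) K (fun v => t v * algebraMap _ _ d) →+
      (K → ZMod p), ∀ x v, ψ x v = res p v.1 ((algebraMap _ _ x.1.1 -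
        algebraMap (ZMod p) _ (x.1.2 v) * (t v.1 * algebraMap _ _ d)) / t v.1 / uL v.1) :=
    ⟨AddMonoidHom.mk' (fun x v => res p v.1 ((algebraMap _ _ x.1.1 -
        algebraMap (ZMod p) _ (x.1.2 v) * (t v.1 * algebraMap _ _ d)) / t v.1 / uL v.1))
      fun x y => funext fun v => by
        rw [Pi.add_apply, ← map_add, AddSubgroup.coe_add, Prod.fst_add, Prod.snd_add, Pi.add_apply,
          map_add (algebraMap (RatFunc k) _), map_add (algebraMap (ZMod p) _), add_mul,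
          add_sub_add_comm, add_div, add_div], fun _ _ => rfl⟩
  have ex : ∀ (α : Cc p A F b v0 (Mx + 2) d) (v : K), ∃ μ : ZMod p,
      ‖uL v.1 * algebraMap _ _ α.1 - algebraMap (ZMod p) _ μ / t v.1‖ < 1 := fun α v => by
    obtain ⟨m, hm⟩ := ca_anom (n1 v) (n0 v) ((FTc_z α.2.1 v.1).trans_lt one_pos)
    exact ⟨m, by rwa [map_natCast]⟩
  choose r hr using ex
  obtain ⟨ρ, hρ⟩ : ∃ ρ : Cc p A F b v0 (Mx + 2) d →+ (K → ZMod p), ∀ α, ρ α = r α :=
    ⟨AddMonoidHom.mk' r fun α β => funext fun v => sub_eq_zero.1 (FTc_zero (v := v.1) (by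
      have h := Wp_sub_lt (Wp_add_lt (hr α v) (hr β v)) (hr (α + β) v)
      rwa [AddSubgroup.coe_add, map_add, mul_add, ← add_sub_add_comm, sub_sub_sub_cancel_left,
        ← add_div, ← sub_div, norm_div, n2, div_one, ← map_add, ← map_sub] at h)), fun _ => rfl⟩
  have i1 : Function.Injective ρ := (injective_iff_map_eq_zero ρ).2 fun α hα =>
    Subtype.ext (FTc_van hF ((Nat.lt_of_succ_le hM).trans_le (Nat.le_add_right _ 2)) α.2.2.1 (fun v => by
      have h2 := FTc_bd A0 α.2.1 v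
      have h3 := (av v).nonneg α.1
      have h4 : (0 : ℝ) < 2 ^ A.natDegree := by positivity
      rw [norm_mul, Wp_uL, norm_alg] at h2
      rw [pow_succ]
      split_ifs at h2 <;> linarith) fun v hv => by
      by_cases e : v ∈ K
      · have h2 := hr α ⟨v, e⟩
        rw [← hρ, hα, Pi.zero_apply, map_zero, zero_div, sub_zero] at h2
        exact (norm_alg v _).symm.trans_le ((int_iff ((mK v).1 e).1 _).1 h2)
      · exact FTc_off hA hc α.2 ((oS v).2 ⟨e, hv⟩))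
  have i2 : ∀ x α, ∑ v, ψ x v * ρ α v = 0 := fun x α => by
    have h2 := res_sum (p := p) (x.1.1 * α.1) (Sf p A F b) fun v hv => by
      rw [mem_Sf hF hb] at hv
      rw [map_mul, map_mul, av_uu, if_neg fun e => hv (Or.inl (Or.inl e))]
      have h3 := mul_le_one₀ (x.2.2.2.1 v ((oS v).1 hv).1 ((oS v).1 hv).2) ((av v).nonneg _)
        (FTc_off hA hc α.2 hv)
      linarith
    rw [← sum_subset (s₁ := K) (fun v hv => (mem_Sf hF hb).2 (inS_iff.2 (Or.inr ((mK v).1 hv))))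
      fun v hv hv' => ?_, ← sum_coe_sort] at h2
    · refine (sum_congr rfl fun v _ => ?_).trans h2
      have h3 := hr α v
      have h4 := x.2.2.1 v
      dsimp only at h4
      have h5 := (α.2.2.2 v).2 ((mK v).1 v.2) _ (FTc_tors (FB_pk A0 _) (n0 v) (x.1.2 v))
      rw [hψ, hρ, map_mul]
      generalize algebraMap (RatFunc k) (Lv v.1) x.1.1 = a at h4 ⊢
      generalize algebraMap (RatFunc k) (Lv v.1) α.1 = w at h3 h5 ⊢
      generalize algebraMap (RatFunc k) (Lv v.1) d = δ at h4 h5 ⊢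
      generalize algebraMap (ZMod p) (Lv v.1) (x.1.2 v) = c at h4 h5 ⊢
      have h6 : a * w = algebraMap (ZMod p) _ (r α v) * ((a - c * (t v.1 * δ)) / t v.1 / uL v.1) +
          (a - c * (t v.1 * δ)) * (uL v.1 * w - algebraMap (ZMod p) _ (r α v) / t v.1) / uL v.1 +
          c * t v.1 * δ * w := by
        have := n3 v
        have := Wp_uL0 v.1
        field_simp
        ring
      rw [h6, map_add, map_add, FTc_res, h5, add_zero, res_small (f := _ * _ / _), add_zero,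
        mul_comm]
      rw [mul_div_cancel₀ _ (Wp_uL0 _), norm_mul]
      exact mul_lt_one_of_nonneg_of_lt_one_right h4 (norm_nonneg _) h3
    · have h3 := (inS_iff.1 ((mem_Sf hF hb).1 hv)).resolve_right fun e => hv' ((mK v).2 e)
      by_cases e : v = v0
      · subst e
        rw [map_mul]
        exact FTi_res ((norm_alg _ _).trans_le x.2.1) ((norm_alg _ _).trans_le α.2.2.1)
      · refine res_small ?_
        rw [map_mul, mul_left_comm, norm_mul, norm_alg]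
        exact (mul_le_mul (x.2.2.2.2 v h3 e) (FTc_bd A0 α.2.1 v) (norm_nonneg _)
          (by positivity)).trans_lt n4
  have i3 : ∀ x : ψ.ker, x.1.1.1 ∈ AA p A F b v0 Mx d := fun ⟨x, hx⟩ => by
    refine ⟨x.2.1, fun v => ⟨fun a b => (mul_le_mul_of_nonneg_right (x.2.2.2.2 v a b)
      (by positivity)).trans_lt n4, fun hv => ?_,
      fun hv => x.2.2.2.1 v ((oS v).1 hv).1 ((oS v).1 hv).2⟩⟩
    lift v to K using (mK v).2 hv
    obtain ⟨s, s1, s2⟩ := as_solve (p := p) (by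
      rw [norm_div, n2, div_one]
      exact x.2.2.1 v) ((hψ x v).symm.trans (congrFun hx v))
    refine ⟨t v.1 * s, _, by rwa [norm_mul, n2, one_mul], FTc_tors (FB_pk A0 _) (n0 v) (x.1.2 v), ?_⟩
    rw [mul_pow, Wp_pow (t v.1), n0, mul_right_comm, mul_div_cancel_right₀ _ (FB_pk A0 _), ← mul_sub,
      s2, mul_div_cancel₀ _ (n3 v), mul_assoc, sub_add_cancel]
  have i4 : Function.Injective fun x : ψ.ker => (⟨_, i3 x⟩ : AA p A F b v0 Mx d) := fun x y h => by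
    have e : x.1.1.1 = y.1.1.1 := congrArg Subtype.val h
    refine Subtype.ext (Subtype.ext (Prod.ext e (funext fun v =>
      sub_eq_zero.1 (FTc_zero (v := v.1) ?_))))
    have h2 := PF_sub (y.1.2.2.1 v) (x.1.2.2.1 v)
    rw [e, sub_sub_sub_cancel_left, ← sub_mul, ← map_sub, norm_mul, norm_mul, n2, one_mul,
      norm_alg] at h2
    have h3 := hd v ((mK v).1 v.2)
    by_contra h4
    linarith [mul_le_mul_of_nonneg_right (not_lt.1 h4) ((av v.1).nonneg d)]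
  have f1 : Finite (AA p A F b v0 Mx d) := (AA_fin hF hA h1 hb hc Mx d).to_subtype
  have f2 : Finite _ := ψ.finite_iff_finite_ker_range.2 ⟨Finite.of_injective _ i4, inferInstance⟩
  have g1 := card_ker_ge ψ _ ρ i1 i2
  have g2 := hN Mx K _ nS f2
  have g3 := Nat.card_le_card_of_injective _ i4
  have g4 : N ≤ Fintype.card k ^ N := (Nat.lt_pow_self Fintype.one_lt_card).le
  rw [Fintype.card_coe] at g1
  refine Nat.le_of_mul_le_mul_left ?_ (pow_pos hp.out.pos K.card)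
  rw [mul_left_comm]
  refine (Nat.mul_le_mul_left _ g2).trans ?_
  rw [mul_left_comm, mul_comm (Nat.card (Cc p A F b v0 (Mx + 2) d)), mul_left_comm (p ^ K.card),
    mul_comm (p ^ K.card)]
  exact Nat.mul_le_mul g4 (g1.trans (Nat.mul_le_mul_right _ g3))

end Pool.Agent.ASel
end

-- merged part: Pool.Agent.Work.MP_60d5ce_nt.AG.FBad
section
/-!
# There are few bad primes  (AS, function field side)

PLAN.  `card_zer`: let `X` be the set of the `dif … y y'`, `y`, `y'` solutions: finite with at most `p ^ (2 * 2 ^ n)` elements (a polynomial of degree `p` has at most `p` roots).  It is stable under `σ`: with `χ` from `exists_rho`,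
`σ (Ξ (y, w, y', w')) = Ξ (σ y, sh (-χ) w, …) = Ξ (sh χ (σ y), w, …)` (`map_xiT`, `xiT_sh`, `sh_sh`) and `sh χ (σ y)` solves the same equations (`map_sh` for the Frobenius).  Sizes: choose `N` with `av v ϖ ≤ 2 ^ N` (`fin_poles`), `‖A‖, ‖A‖⁻¹ ≤ 2 ^ N` for all `v`;
`wp_le` bounds `y`, `w_le` bounds `w`, `tp_le` bounds `Ξ` and `θ`, `ca_bound` with `A = 1` bounds `η` (`alg_cK`); at `InU F b` everything is integral (`wp_int`).  `emb_conj` reduces any embedding to `emb v`.  `zero_count` with `F * b` for every finite subset of `Zer`.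
`card_prim`: two primitives differ by a fixed form: `cK_fixed` with `S = fac' (F * b)`.  `bad_card`: `BadS` is a finite union over `n ≤ K`, `c` (`ASW.ncard_lt`-type count, `natDegree (plp v) = pdg v`), `W` (at most `p` roots each), `x`, `x'` (`card_Fj`), `η` (`card_prim`) of sets `Zer`; `av_pol`.
-/

set_option linter.unusedSectionVars false

namespace Pool.Agent.ASel

open Polynomial Pool.Agent.Smith Finset

variable {p : ℕ} {k : Type} [Field k] [Fintype k] [hp : Fact p.Prime] [CharP k p]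
  {A F : k[X]} {ϖ : RatFunc k} {ε : ℤ}

theorem FBad_fin {α : Type} {S : Set α} {m : ℕ} (h : ∀ Z : Finset α, ↑Z ⊆ S → Z.card ≤ m) :
    S.Finite ∧ S.ncard ≤ m := by
  have h1 : S.Finite := by
    by_contra hc
    obtain ⟨Z, h1, h2⟩ := Set.Infinite.exists_subset_card_eq hc (m + 1)
    have := h Z h1
    omega
  exact ⟨h1, by rw [Set.ncard_eq_toFinset_card S h1]; exact h _ (by simp)⟩

theorem FBad_sub {α : Type} {S : Set α} {m : ℕ} (T : Finset α) (h : S ⊆ T) (hm : T.card ≤ m) :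
    S.Finite ∧ S.ncard ≤ m :=
  FBad_fin fun _ hZ => (card_le_card (coe_subset.1 (hZ.trans h))).trans hm

theorem FBad_mono {α : Type} {S S' : Set α} {m m' : ℕ} (h : S'.Finite ∧ S'.ncard ≤ m') (hs : S ⊆ S')
    (hm : m' ≤ m) : S.Finite ∧ S.ncard ≤ m :=
  ⟨h.1.subset hs, ((Set.ncard_le_ncard hs h.1).trans h.2).trans hm⟩

theorem FBad_union {α β : Type} {S : α → Prop} {T : α → β → Prop} {m n : ℕ}
    (hS : {a | S a}.Finite ∧ {a | S a}.ncard ≤ m)
    (hT : ∀ a, S a → {b | T a b}.Finite ∧ {b | T a b}.ncard ≤ n) :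
    {b | ∃ a, S a ∧ T a b}.Finite ∧ {b | ∃ a, S a ∧ T a b}.ncard ≤ m * n := by
  classical
  choose! U h1 h2 using fun a (ha : S a) => (⟨(hT a ha).1.toFinset, fun b hb => by simpa using hb,
    by rw [← Set.ncard_eq_toFinset_card _ (hT a ha).1]; exact (hT a ha).2⟩ :
      ∃ U : Finset β, (∀ b, T a b → b ∈ U) ∧ U.card ≤ n)
  refine FBad_sub (hS.1.toFinset.biUnion U) (fun b ⟨a, ha, hb⟩ => ?_) ?_
  · exact mem_coe.2 (mem_biUnion.2 ⟨a, by simpa using ha, h1 a ha b hb⟩)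
  · refine (card_biUnion_le_card_mul _ _ n fun a ha => h2 a (by simpa using ha)).trans ?_
    rw [← Set.ncard_eq_toFinset_card _ hS.1]
    exact Nat.mul_le_mul_right _ hS.2

theorem FBad_union' {α β : Type} {S : α → Prop} {T : ∀ a, S a → β → Prop} {m n : ℕ}
    (hS : {a | S a}.Finite ∧ {a | S a}.ncard ≤ m)
    (hT : ∀ a (h : S a), {b | T a h b}.Finite ∧ {b | T a h b}.ncard ≤ n) :
    {b | ∃ a, ∃ h : S a, T a h b}.Finite ∧ {b | ∃ a, ∃ h : S a, T a h b}.ncard ≤ m * n :=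
  FBad_mono (FBad_union (T := fun a b => ∃ h : S a, T a h b) hS fun a ha =>
    FBad_mono (hT a ha) (fun _ ⟨_, h⟩ => h) le_rfl) (fun _ ⟨a, ha, h⟩ => ⟨a, ha, ha, h⟩) le_rfl

theorem FBad_roots {M : Type} [Field M] {A : M} (hA : A ≠ 0) (a : M) :
    ∃ T : Finset M, T.card ≤ p ∧ ∀ y, y ∈ T ↔ y ^ p / A - y = a := by
  classical
  have h1 : (C A * X + C (A * a) : M[X]).degree < p :=
    degree_linear_le.trans_lt (by exact_mod_cast hp.out.one_lt)
  have h2 := monic_X_pow_sub h1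
  refine ⟨(X ^ p - (C A * X + C (A * a))).roots.toFinset, (Multiset.toFinset_card_le _).trans
    ((card_roots' _).trans ?_), fun y => ?_⟩
  · exact natDegree_le_iff_degree_le.2 ((degree_sub_le _ _).trans (max_le (degree_X_pow_le p) h1.le))
  · rw [Multiset.mem_toFinset, mem_roots h2.ne_zero, IsRoot.def, sub_eq_iff_eq_add, div_eq_iff hA]
    simp only [eval_sub, eval_add, eval_mul, eval_pow, eval_X, eval_C]
    constructor <;> intro h <;> linear_combination h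

theorem FBad_pi {M ι : Type} [Field M] [Fintype ι] {A : M} (hA : A ≠ 0) (a : ι → M) :
    ∃ T : Finset (ι → M), T.card ≤ p ^ Fintype.card ι ∧
      ∀ y, y ∈ T ↔ ∀ i, y i ^ p / A - y i = a i := by
  classical
  choose T h1 h2 using fun i => FBad_roots (p := p) hA (a i)
  refine ⟨Fintype.piFinset T, ?_, fun y => by simp only [Fintype.mem_piFinset, h2]⟩
  rw [Fintype.card_piFinset]
  exact prod_le_pow_card _ _ _ fun i _ => h1 i

theorem FBad_pk {M : Type} [Field M] [Algebra (RatFunc k) M] (hA : A ≠ 0) : pk M A ≠ 0 :=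
  (_root_.map_ne_zero (algebraMap (RatFunc k) M)).2 (PF_ne hA)

theorem FBad_sol {n : ℕ} {W : Fin n → Kb k} {a y : Finset (Fin n) → Kb k}
    (ha : a ∈ Eq1 p (RatFunc k) W) (hy : Sol p A a y) {σ : Gk k} {χ : Fin n → ZMod p}
    (hχ : ∀ i, σ (W i) = W i + ((χ i).val : Kb k)) :
    Sol p A a (sh (fun i => ((χ i).val : Kb k)) fun I => σ (y I)) := fun I => by
  have e1 := map_sh (frobenius (Kb k) p) (fun i => ((χ i).val : Kb k)) (fun I => σ (y I)) I
  simp only [frobenius_def, FEq_frob] at e1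
  have e2 : ((fun J => σ (y J) ^ p * (pk (Kb k) A)⁻¹) - fun J => σ (y J)) =
      sh (-fun i => ((χ i).val : Kb k)) a := funext fun J => by
    have e : σ (pk (Kb k) A) = pk (Kb k) A := σ.commutes _
    refine Eq.trans ?_ (ha.2 σ χ hχ J)
    rw [← hy J, map_sub, map_div₀, map_pow, e, div_eq_mul_inv]
    rfl
  rw [e1, div_eq_mul_inv, ← sh_mul, ← Pi.sub_apply (sh _ _) (sh _ _), ← sh_sub, e2, sh_sh,
    add_neg_cancel, sh_zero]

theorem FBad_act {n : ℕ} {W : Fin n → Kb k} {x x' : Finset (Fin n) → Kb k × Kb k}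
    (hw : (fun I => (x I).2) ∈ Eq1 p (RatFunc k) W) (hw' : (fun I => (x' I).2) ∈ Eq1 p (RatFunc k) W)
    (η : RatFunc k) (y y' : Finset (Fin n) → Kb k) {σ : Gk k} {χ : Fin n → ZMod p}
    (hχ : ∀ i, σ (W i) = W i + ((χ i).val : Kb k)) :
    σ (dif p A ϖ ε x x' η y y') = dif p A ϖ ε x x' η
      (sh (fun i => ((χ i).val : Kb k)) fun I => σ (y I))
      (sh (fun i => ((χ i).val : Kb k)) fun I => σ (y' I)) := by
  have e : σ (pk (Kb k) A) = pk (Kb k) A := σ.commutes _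
  have e1 := map_xiT (σ : Kb k →+* Kb k) p (pk (Kb k) A) ε (algebraMap _ _ ϖ) y (fun I => (x I).2) y'
    fun I => (x' I).2
  simp only [RingHom.coe_coe, e, AlgEquiv.commutes] at e1
  have e2 : (fun I => σ (x I).2) = sh (-fun i => ((χ i).val : Kb k)) fun I => (x I).2 :=
    funext (hw.2 σ χ hχ)
  have e3 : (fun I => σ (x' I).2) = sh (-fun i => ((χ i).val : Kb k)) fun I => (x' I).2 :=
    funext (hw'.2 σ χ hχ)
  rw [dif, dif, map_sub, AlgEquiv.commutes, e1, e2, e3,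
    ← xiT_sh (fun i => ((χ i).val : Kb k)) (fun i => FEq_frob _), sh_sh, sh_sh, add_neg_cancel,
    sh_zero, sh_zero]

theorem FBad_tpm {M : Type} [Field M] {n : ℕ} {S : Subfield M} {f g : Finset (Fin n) → M}
    (hf : ∀ I, f I ∈ S) (hg : ∀ I, g I ∈ S) : tp f g ∈ S :=
  sum_mem fun _ _ => mul_mem (pow_mem (neg_mem (one_mem _)) _) (mul_mem (hf _) (hg _))

theorem FBad_tri {M : Type} [Field M] {w : AbsoluteValue M ℝ} (hw : IsNonarchimedean w) {n : ℕ}
    (hε : ε = 1 ∨ ε = -1) {f g f' g' : Finset (Fin n) → M} {u : M} {D : ℝ} (hD : 1 ≤ D)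
    (h1 : ∀ I, w (f I) ≤ D) (h2 : ∀ I, w (g I) ≤ D) (h3 : ∀ I, w (f' I) ≤ D)
    (h4 : ∀ I, w (g' I) ≤ D) (hu : w u ≤ D) :
    w (tp f g' + ε • tp g f' + tp f f' * u) ≤ D ^ 3 := by
  have h5 : D * D ≤ D ^ 3 := by nlinarith
  refine LocA_add_le hw (LocA_add_le hw ((tp_le hw h1 h4).trans h5) ?_) ?_
  · rcases hε with rfl | rfl
    · rw [one_smul]
      exact (tp_le hw h2 h3).trans h5
    · rw [neg_smul, one_smul, w.map_neg]
      exact (tp_le hw h2 h3).trans h5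
  · rw [map_mul]
    exact (mul_le_mul (tp_le hw h1 h3) hu (w.nonneg _) (by positivity)).trans (le_of_eq (by ring))

theorem FBad_loc {v : Pl k} {D : ℝ} (hD : 1 ≤ D) {n : ℕ} {x x' : Finset (Fin n) → Kb k × Kb k}
    {η : RatFunc k} {y y' : Finset (Fin n) → Kb k} (hε : ε = 1 ∨ ε = -1) (hA0 : A ≠ 0)
    (hA : av v (algebraMap _ _ A) ≤ D) (hϖ : av v ϖ ≤ D)
    (hx : ∀ I, nm v (emb v (x I).1) ≤ D ∧ nm v (emb v (x I).2) ≤ D)
    (hx' : ∀ I, nm v (emb v (x' I).1) ≤ D ∧ nm v (emb v (x' I).2) ≤ D)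
    (hy : Sol p A (fun I => (x I).1) y) (hy' : Sol p A (fun I => (x' I).1) y')
    (hη : algebraMap _ _ (η - cK p η) = thT ε (algebraMap _ _ ϖ) (fun I => (x I).1)
      (fun I => (x I).2) (fun I => (x' I).1) fun I => (x' I).2) :
    av v η ≤ 4 * D ^ 3 ∧ nm v (emb v (dif p A ϖ ε x x' η y y')) ≤ max (av v η) (D ^ 3) := by
  let w : AbsoluteValue (Kb k) ℝ := (nm v).comp (emb v : Kb k →+* Lb v).injective
  have hw : IsNonarchimedean w := fun a b => by
    show nm v (emb v (a + b)) ≤ _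
    rw [map_add]
    exact nm_na v _ _
  have ha : ∀ a, w (algebraMap _ _ a) = av v a := fun a =>
    (congrArg (nm v) ((emb v).commutes a)).trans (nm_algK v a)
  have hs : ∀ {a y : Finset (Fin n) → Kb k}, Sol p A a y → (∀ I, w (a I) ≤ D) → ∀ I,
      w (y I ^ p / pk (Kb k) A) ≤ D := fun {a y} h h1 I => by
    rw [eq_add_of_sub_eq (h I)]
    exact LocA_add_le hw (h1 I) (wp_le hw (FBad_pk hA0) hD ((ha _).trans_le hA) (h I ▸ h1 I))
  have hϖ' := (ha ϖ).trans_le hϖ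
  have h3 : 1 ≤ D ^ 3 := one_le_pow₀ hD
  refine ⟨?_, ?_⟩
  · have h1 : av v (η - cK p η) ≤ D ^ 3 := by
      rw [← ha, hη]
      exact FBad_tri hw hε hD (fun I => (hx I).1) (fun I => (hx I).2) (fun I => (hx' I).1)
        (fun I => (hx' I).2) hϖ'
    have h2 : 2⁻¹ ≤ ‖uL v‖ ∧ ‖uL v‖ ≤ 2 := by
      rw [Wp_uL]
      split_ifs <;> norm_num
    have h4 := ca_bound (p := p) (v := v) (A := 1) (w := algebraMap _ _ η) one_ne_zero
      (B := 2 * D ^ 3) (by linarith) (by rw [norm_one, inv_one]; linarith) (by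
        rw [div_one, ← alg_cK, ← map_sub, norm_mul, norm_alg]
        exact mul_le_mul h2.2 h1 ((av v).nonneg _) zero_le_two)
    rw [norm_mul, norm_alg] at h4
    nlinarith [(av v).nonneg η]
  · show w _ ≤ _
    rw [dif, sub_eq_add_neg]
    refine LocA_add_le hw ((ha η).trans_le (le_max_left _ _)) (le_max_of_le_right ?_)
    rw [w.map_neg]
    exact FBad_tri hw hε hD (hs hy fun I => (hx I).1) (fun I => (hx I).2)
      (hs hy' fun I => (hx' I).1) (fun I => (hx' I).2) hϖ'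

theorem FBad_bd (y : RatFunc k) : ∃ N : ℕ, ∀ v, av v y ≤ 2 ^ N := by
  obtain ⟨M, hM⟩ := ((fin_poles y).image fun v => av v y).bddAbove
  obtain ⟨N, hN⟩ := pow_unbounded_of_one_lt M (one_lt_two (α := ℝ))
  refine ⟨N, fun v => ?_⟩
  by_cases h : 1 < av v y
  · exact (hM ⟨v, h, rfl⟩).trans hN.le
  · exact (not_lt.1 h).trans (one_le_pow₀ one_le_two)

theorem card_zer (hT : Ty p A F ϖ ε) (n1 K : ℕ) : ∃ C : ℕ, ∀ {b : k[X]} {d : RatFunc k}
    {Med : Finset (Pl k)} {n : ℕ} {W : Fin n → Kb k} {h : Fin n → RatFunc k}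
    {x x' : Finset (Fin n) → Kb k × Kb k} {η : RatFunc k}, b ≠ 0 → IsCoprime b F →
    (∀ v ∈ Med, InNa p A b v) → n ≤ K → (∀ i, W i ^ p - W i = algebraMap _ _ (h i)) →
    (∀ i v, av v (h i) ≤ 2) → x ∈ Fj p A F b d ϖ Med n1 W → x' ∈ Fj p A F b d ϖ Med n1 W →
    Prim p A F b ϖ ε x x' η → (Zer p A F b ϖ ε x x' η).Finite ∧
      (Zer p A F b ϖ ε x x' η).ncard ≤ C * (b.natDegree + 1) := by
  classical
  have hA0 : A ≠ 0 := fun h => hT.F_ne (zero_dvd_iff.1 (h ▸ hT.dvd))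
  obtain ⟨N1, b1⟩ := FBad_bd ϖ
  obtain ⟨N2, b2⟩ := FBad_bd (algebraMap k[X] (RatFunc k) A)
  obtain ⟨N3, b3⟩ := FBad_bd (algebraMap k[X] (RatFunc k) A)⁻¹
  set N := N1 + N2 + N3 + n1 + 1 with hN
  have hle : ∀ {m : ℕ}, m ≤ N → (2 : ℝ) ^ m ≤ 2 ^ N := fun h => pow_le_pow_right₀ one_le_two h
  refine ⟨p ^ 2 ^ K * p ^ 2 ^ K * (N * (K + 3) ^ 3 * 3 + 2) * (F.natDegree + 1), ?_⟩
  intro b d Med n W h x x' η hb hco hMed hn hW hh hx hx' hP
  have hB : (2 : ℝ) ≤ 2 ^ N := (pow_one _).symm.trans_le (hle (by omega))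
  have hB1 : (1 : ℝ) ≤ 2 ^ N := one_le_two.trans hB
  have hBD : (2 : ℝ) ^ N ≤ (2 ^ N) ^ (K + 3) ^ 3 := le_self_pow₀ hB1 (by positivity)
  have g1 : ∀ {x}, x ∈ Fj p A F b d ϖ Med n1 W → ∀ v I,
      nm v (emb v (x I).1) ≤ (2 ^ N) ^ (K + 3) ^ 3 ∧
        nm v (emb v (x I).2) ≤ (2 ^ N) ^ (K + 3) ^ 3 := fun {x} hx v I => by
    have h1 : ∀ I, nm v (emb v (x I).1) ≤ 2 ^ N := fun I =>
      ((hx.2.2 I).2 v).2.1.trans (hle (by omega))
    refine ⟨(h1 I).trans hBD, (w_le hW hx.1 hx.2.1 (fun I => (hx.2.2 I).1) hA0 hB ?_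
      (fun i => (hh i v).trans hB) ((b1 v).trans (hle (by omega))) h1 I).trans
        (pow_le_pow_right₀ hB1 (Nat.pow_le_pow_left (by omega) 3))⟩
    have := (b3 v).trans (hle (by omega))
    rwa [map_inv₀, ← norm_alg] at this
  have g2 : ∀ {x}, x ∈ Fj p A F b d ϖ Med n1 W → ∀ v, InU F b v → ∀ I,
      nm v (emb v (x I).1) ≤ 1 ∧ nm v (emb v (x I).2) ≤ 1 := fun {x} hx v hv I =>
    have := (inU_iff (p := p) (A := A)).1 hv
    ⟨((hx.2.2 I).2 v).2.2.2 this.1 fun h => this.2 (hMed v h), ((hx.2.2 I).2 v).1 hv⟩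
  obtain ⟨T, t1, t2⟩ := FBad_pi (p := p) (FBad_pk (M := Kb k) hA0) fun I => (x I).1
  obtain ⟨T', t1', t2'⟩ := FBad_pi (p := p) (FBad_pk (M := Kb k) hA0) fun I => (x' I).1
  have hX : ∀ z, z ∈ (T ×ˢ T').image (fun y => dif p A ϖ ε x x' η y.1 y.2) ↔ ∃ y y',
      Sol p A (fun I => (x I).1) y ∧ Sol p A (fun I => (x' I).1) y' ∧
        dif p A ϖ ε x x' η y y' = z := fun z => by
    simp only [mem_image, mem_product, t2, t2', Prod.exists, Sol, and_assoc]
  have hG : ∀ σ : Gk k, ∀ z ∈ (T ×ˢ T').image (fun y => dif p A ϖ ε x x' η y.1 y.2),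
      σ z ∈ (T ×ˢ T').image (fun y => dif p A ϖ ε x x' η y.1 y.2) := fun σ z hz => by
    obtain ⟨y, y', hy, hy', rfl⟩ := (hX z).1 hz
    obtain ⟨χ, hχ⟩ := exists_rho (fun i => ⟨_, hW i⟩) σ
    exact (hX _).2 ⟨_, _, FBad_sol hx.1 hy hχ, FBad_sol hx'.1 hy' hχ,
      (FBad_act hx.2.1 hx'.2.1 η y y' hχ).symm⟩
  refine FBad_fin fun Z hZ => (zero_count (mul_ne_zero hT.F_ne hb) _ (N * (K + 3) ^ 3 * 3 + 2)
    (fun z hz => ?_) hG (fun v ι z hz => ?_) Z fun v hv => ?_).trans ?_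
  · obtain ⟨y, y', hy, hy', rfl⟩ := (hX z).1 hz
    have o1 := fun I => div_mem (pow_mem (hy.om hA0 hx.1.1 I) p)
      (om_alg (M := Kb k) (algebraMap k[X] (RatFunc k) A))
    have o2 := fun I => div_mem (pow_mem (hy'.om hA0 hx'.1.1 I) p)
      (om_alg (M := Kb k) (algebraMap k[X] (RatFunc k) A))
    exact ⟨hP.2.2 y y' hy hy', sub_mem (om_alg _) (add_mem (add_mem (FBad_tpm o1 hx'.2.1.1)
      (zsmul_mem (FBad_tpm hx.2.1.1 o2) _)) (mul_mem (FBad_tpm o1 o2) (om_alg _)))⟩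
  · obtain ⟨σ, hσ⟩ := emb_conj v (emb v) ι
    obtain ⟨y, y', hy, hy', e⟩ := (hX _).1 (hG σ z hz)
    rw [hσ, ← e]
    refine ⟨?_, fun h1 h2 => ?_⟩
    · obtain ⟨a1, a2⟩ := FBad_loc (hB1.trans hBD) hT.sgn hA0
        (((b2 v).trans (hle (by omega))).trans hBD) (((b1 v).trans (hle (by omega))).trans hBD)
        (g1 hx v) (g1 hx' v) hy hy' hP.1
      have a3 : (0 : ℝ) < ((2 ^ N) ^ (K + 3) ^ 3) ^ 3 := by positivity
      rw [pow_add, pow_mul, pow_mul]
      exact a2.trans (max_le (by linarith) (by linarith))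
    · have h3 : ¬InS0 F v := fun h => h.elim h1 fun h => h2 (h.mul_right _)
      refine (FBad_loc le_rfl hT.sgn hA0 (av_poly_le h1 _) (hT.int v h3) (g2 hx v ⟨h1, h2⟩)
        (g2 hx' v ⟨h1, h2⟩) hy hy' hP.1).2.trans (max_le (hP.2.1 v ⟨h1, h2⟩) (one_pow 3).le)
  · obtain ⟨h1, y, y', hy, hy', h2⟩ := hZ hv
    exact ⟨h1.1, h1.2, emb v, _, (hX _).2 ⟨y, y', hy, hy', rfl⟩, h2⟩
  · rw [Fintype.card_finset, Fintype.card_fin] at t1 t1'
    have a1 : p ^ 2 ^ n ≤ p ^ 2 ^ K :=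
      Nat.pow_le_pow_right hp.out.pos (Nat.pow_le_pow_right two_pos hn)
    rw [mul_assoc (_ * _ * _)]
    refine Nat.mul_le_mul (Nat.mul_le_mul_right _ (card_image_le.trans ?_)) ?_
    · rw [card_product]
      exact Nat.mul_le_mul (t1.trans a1) (t1'.trans a1)
    · have := natDegree_mul_le (p := F) (q := b)
      nlinarith [Nat.zero_le (F.natDegree * b.natDegree)]

theorem card_prim {b : k[X]} (hF : F ≠ 0) (hb : b ≠ 0) {n : ℕ} (x x' : Finset (Fin n) → Kb k × Kb k) :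
    {η | Prim p A F b ϖ ε x x' η}.Finite ∧
      {η | Prim p A F b ϖ ε x x' η}.ncard ≤ p ^ (F.natDegree + (fac' b).card) := by
  classical
  by_cases h0 : ∃ η0, Prim p A F b ϖ ε x x' η0
  swap
  · exact FBad_sub ∅ (fun η h => absurd ⟨η, h⟩ h0) (Nat.zero_le _)
  obtain ⟨η0, h0⟩ := h0
  have hFb := mul_ne_zero hF hb
  refine FBad_sub (univ.image fun m : fac' (F * b) → ZMod p =>
    η0 + ∑ v, ((m v).val : RatFunc k) / uu v.1) (fun η h => ?_) (card_image_le.trans ?_)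
  · have e := (algebraMap (RatFunc k) (Kb k)).injective (h.1.trans h0.1.symm)
    obtain ⟨m, hm⟩ := cK_fixed (p := p) (w := η - η0) (by rw [map_sub]; linear_combination -e)
      (fac' (F * b)) (fun h => ((mem_fac' hFb).1 h).1 rfl) fun v h1 h2 =>
        have : InU F b v := ⟨h2, fun h3 => h1 ((mem_fac' hFb).2 ⟨h2, h3⟩)⟩
        PF_sub' (h.2.1 v this) (h0.2.1 v this)
    refine mem_coe.2 (mem_image.2 ⟨fun v => m v, mem_univ _, ?_⟩)
    rw [sum_coe_sort (fac' (F * b)) fun v => ((m v).val : RatFunc k) / uu v, ← hm, add_sub_cancel]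
  · rw [card_univ, Fintype.card_fun, ZMod.card, Fintype.card_coe]
    refine Nat.pow_le_pow_right hp.out.pos ((card_le_card (t := fac' F ∪ fac' b) fun v hv => ?_).trans
      ((card_union_le _ _).trans (Nat.add_le_add_right ?_ _)))
    · obtain ⟨h1, h2⟩ := (mem_fac' hFb).1 hv
      rw [mem_union, mem_fac' hF, mem_fac' hb]
      exact ((PF_irr h1).prime.dvd_or_dvd h2).imp (fun h => ⟨h1, h⟩) fun h => ⟨h1, h⟩
    · refine le_trans ?_ sum_pdg_fac'
      rw [card_eq_sum_ones]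
      exact sum_le_sum fun v _ => pdg_pos v

theorem FBad_poly (n Y : ℕ) : {c : Fin n → k[X] | ∀ i, (c i).degree < Y}.Finite ∧
    {c : Fin n → k[X] | ∀ i, (c i).degree < Y}.ncard ≤ (Fintype.card k ^ Y) ^ n := by
  classical
  refine FBad_sub (Fintype.piFinset fun _ => univ.image fun a : Fin Y → k =>
    ((degreeLTEquiv k Y).symm a : k[X])) (fun c hc => ?_) ?_
  · refine mem_coe.2 (Fintype.mem_piFinset.2 fun i => mem_image.2
      ⟨degreeLTEquiv k Y ⟨c i, mem_degreeLT.2 (hc i)⟩, mem_univ _, ?_⟩)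
    rw [LinearEquiv.symm_apply_apply]
  · rw [Fintype.card_piFinset, prod_const, card_univ, Fintype.card_fin]
    refine Nat.pow_le_pow_left (card_image_le.trans ?_) _
    rw [card_univ, Fintype.card_fun, Fintype.card_fin]

theorem bad_card (hT : Ty p A F ϖ ε) (n1 K : ℕ) : ∃ C : ℕ, ∀ (b : k[X]) (d : RatFunc k)
    (vv : Fin K → Pl k) (Y : ℕ), b ≠ 0 → IsCoprime b F → (∀ i, InNa p A b (vv i) ∧ pdg (vv i) ≤ Y) →
    (fac' b).card ≤ Y → 1 ≤ Y → (BadS p A F b d ϖ ε n1 vv).Finite ∧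
      (BadS p A F b d ϖ ε n1 vv).ncard ≤ Fintype.card k ^ (C * Y) * (b.natDegree + 1) := by
  classical
  obtain ⟨C1, c1⟩ := card_Fj (p := p) hT.F_ne hT.dvd n1 K
  obtain ⟨C2, c2⟩ := card_zer hT n1 K
  refine ⟨K + 1 + (K + (p ^ K + (C1 + (C1 + (p ^ F.natDegree + p + C2))))),
    fun b d vv Y hb hco hvv hY h1 => ?_⟩
  have hq : 1 < Fintype.card k := Fintype.one_lt_card
  have hm : ∀ m : ℕ, m ≤ Fintype.card k ^ (m * Y) := fun m =>
    (Nat.lt_pow_self hq).le.trans (Nat.pow_le_pow_right hq.le (Nat.le_mul_of_pos_right _ h1))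
  have hMed : ∀ v ∈ univ.image vv, InNa p A b v ∧ pdg v ≤ Y := fun v hv => by
    obtain ⟨i, -, rfl⟩ := mem_image.1 hv
    exact hvv i
  have hF := fun n hn (W : Fin n → Kb k) hW => c1 b d ϖ (univ.image vv) Y hb hco
    (card_image_le.trans (by simp)) (fun v hv => (hMed v hv).2) hY h1 n hn W hW
  refine FBad_mono (FBad_union' (m := K + 1) (n := Fintype.card k ^ (K * Y) *
    (Fintype.card k ^ (p ^ K * Y) * (Fintype.card k ^ (C1 * Y) * (Fintype.card k ^ (C1 * Y) *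
      (p ^ (F.natDegree + (fac' b).card) * (C2 * (b.natDegree + 1)))))))
    (FBad_sub (range (K + 1)) (fun n hn => mem_coe.2 (mem_range.2 (Nat.lt_succ_of_le hn)))
      (card_range _).le) fun n hn => ?_) subset_rfl ?_
  · refine FBad_mono (FBad_union
      (S := fun c : Fin n → k[X] => ∀ i, (c i).degree < (plp (vv (i.castLE hn))).degree)
      (FBad_mono (FBad_poly n Y) (fun c hc i => (hc i).trans_le ?_) ?_) fun c hc =>
        FBad_union (S := fun W : Fin n → Kb k => ∀ i,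
          W i ^ p - W i = algebraMap _ _ (pol (c i) (vv (i.castLE hn)))) ?_ fun W hW =>
          FBad_union (hF n hn W fun i => ⟨_, hW i⟩) fun x hx =>
            FBad_union (hF n hn W fun i => ⟨_, hW i⟩) fun x' hx' =>
              FBad_union (T := fun η P => P ∈ Zer p A F b ϖ ε x x' η)
                (card_prim hT.F_ne hb x x') fun η hη =>
                c2 hb hco (fun v hv => (hMed v hv).1) hn hW
                  (fun i => (av_pol (hvv _).1.1 (hc i)).1) hx hx' hη)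
      (fun P ⟨W, c, h, h'⟩ => ⟨c, fun i => (h i).1, W, fun i => (h i).2, h'⟩) le_rfl
    · refine degree_le_natDegree.trans ?_
      rw [PF_deg (hvv _).1.1]
      exact_mod_cast (hvv _).2
    · rw [← pow_mul, mul_comm]
      exact Nat.pow_le_pow_right hq.le (Nat.mul_le_mul_right _ hn)
    · obtain ⟨T, t1, t2⟩ := FBad_pi (p := p) (one_ne_zero (α := Kb k))
        fun i : Fin n => algebraMap _ _ (pol (c i) (vv (i.castLE hn)))
      refine FBad_sub T (fun W hW => mem_coe.2 ((t2 W).2 fun i => ?_)) (t1.trans (le_trans ?_ (hm _)))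
      · rw [div_one]
        exact hW i
      · rw [Fintype.card_fin]
        exact Nat.pow_le_pow_right hp.out.pos hn
  · have a1 : p ^ (F.natDegree + (fac' b).card) ≤
        Fintype.card k ^ (p ^ F.natDegree * Y) * Fintype.card k ^ (p * Y) := by
      rw [pow_add, pow_mul _ p]
      exact Nat.mul_le_mul (hm _) ((Nat.pow_le_pow_right hp.out.pos hY).trans
        (Nat.pow_le_pow_left (Nat.lt_pow_self hq).le _))
    refine (Nat.mul_le_mul (hm _) (Nat.mul_le_mul_left _ (Nat.mul_le_mul_left _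
      (Nat.mul_le_mul_left _ (Nat.mul_le_mul_left _ (Nat.mul_le_mul a1
        (Nat.mul_le_mul_right _ (hm _)))))))).trans (le_of_eq ?_)
    simp only [add_mul _ _ Y, pow_add, mul_assoc]

end Pool.Agent.ASel
end
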