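import Pool.Agent.Work.MP_60d5ce_nt.AS.FMin

-- merged part: Pool.Agent.Work.MP_60d5ce_nt.AG.FD
section
/-!
# The complex of equivariant families: definitions, functoriality  (AS, function field side)

`emb v` is a fixed embedding of `Kb k` in `Lb v`, `rt v` an additive retraction of `Lb v` onto `Lv v`, `cM p v` the Cartier operator of the separable closure of `Lv v`.
`LtD`: isotropic subgroups `Lt v` of the local cocycles with two projections.  `D0`, `D1` are the pointwise differentials on `Kb k → W1 → W2`, `bW` the pointwise pairing.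

PLAN.  `exists_rt`: `LinearMap.exists_leftInverse_of_injective` over `ZMod p` or `Lv v`.  The compatibilities are `PB.car_map` (`pb_K`, `pb_L`, `sc_Kb`, `sc_Lb`, `om_map`, `om_alg`, `om_act`).
`Eqv.emb`, `Eq1.emb`: `exists_rst`.  `fin_nonint`: outside the poles of the coefficients of the minimal polynomial `x` is integral.
-/

set_option linter.unusedSectionVars false

namespace Pool.Agent.ASel

open Polynomial Pool.Agent.Smith Finset
open scoped Classical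

noncomputable section

variable {k : Type} [Field k]

/-- a fixed embedding in the algebraic closure of the completion -/
def emb (v : Pl k) : Kb k →ₐ[RatFunc k] Lb v := (exists_emb v).some

theorem exists_rt (v : Pl k) : ∃ r : Lb v →+ Lv v, ∀ x, r (algebraMap _ _ x) = x := by
  obtain ⟨r, hr⟩ := (Algebra.linearMap (Lv v) (Lb v)).exists_leftInverse_of_injective
    (LinearMap.ker_eq_bot.2 (algebraMap (Lv v) (Lb v)).injective)
  exact ⟨r.toAddMonoidHom, fun x => LinearMap.congr_fun hr x⟩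

/-- a retraction onto the completion -/
def rt (v : Pl k) : Lb v →+ Lv v := (exists_rt v).choose

theorem rt_alg (v : Pl k) (x : Lv v) : rt v (algebraMap _ _ x) = x := (exists_rt v).choose_spec x

/-- the places where everything is unramified -/
def InU (F b : k[X]) (v : Pl k) : Prop := v ≠ none ∧ ¬ plp v ∣ F * b

theorem emb_algK (v : Pl k) (a : RatFunc k) :
    emb v (algebraMap _ _ a) = algebraMap (Lv v) (Lb v) (algebraMap _ _ a) := by
  exact ((emb v).commutes a).trans (IsScalarTower.algebraMap_apply _ _ _ a)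

theorem emb_pk (v : Pl k) (f : k[X]) : emb v (pk (Kb k) f) = pk (Lb v) f := by
  exact (emb v).commutes _

theorem alg_pk (v : Pl k) (f : k[X]) : algebraMap (Lv v) (Lb v) (pk (Lv v) f) = pk (Lb v) f := by
  exact (IsScalarTower.algebraMap_apply (RatFunc k) (Lv v) (Lb v) _).symm

theorem emb_om (v : Pl k) {x : Kb k} (hx : x ∈ Om (RatFunc k) (Kb k)) :
    emb v x ∈ Om (Lv v) (Lb v) := by
  exact om_map (algebraMap (RatFunc k) (Lv v)) (emb v : Kb k →+* Lb v) (emb_algK v) hx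

theorem fin_nonint (x : Kb k) : {v : Pl k | 1 < nm v (emb v x)}.Finite := by
  have hm := minpoly.monic (Algebra.IsIntegral.isIntegral (R := RatFunc k) x)
  refine ((minpoly (RatFunc k) x).support.finite_toSet.biUnion fun i _ =>
    fin_poles ((minpoly (RatFunc k) x).coeff i)).subset fun v hv => by_contra fun h => ?_
  have hm' := hm.map (algebraMap (RatFunc k) (Lv v))
  refine not_le.2 hv ((nm_eq v _).trans_le ((norm_root_le_spectralValue
    (f := spectralAlgNorm (Lv v) (Lb v)) spectralAlgNorm_isPowMul isNonarchimedean_spectralNorm hm'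
    ?_).trans ((spectralValue_le_one_iff hm').2 fun i => ?_)))
  · rw [aeval_map_algebraMap, aeval_algHom_apply, minpoly.aeval, map_zero]
  · rw [coeff_map, norm_alg]
    refine not_lt.1 fun e => h (Set.mem_biUnion (mem_support_iff.2 fun e0 => ?_) e)
    rw [e0, map_zero] at e
    exact not_lt.2 zero_le_one e

variable (p : ℕ)

/-- the non anomalous primes of `b` -/
def InNa (A b : k[X]) (v : Pl k) : Prop := v ≠ none ∧ plp v ∣ b ∧ ¬ Anom p A (plp v)

/-- the anomalous primes of `b` -/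
def InAn (A b : k[X]) (v : Pl k) : Prop := v ≠ none ∧ plp v ∣ b ∧ Anom p A (plp v)

/-- the finite set of the bad places and the anomalous primes -/
def Sf (A F b : k[X]) : Finset (Pl k) :=
  insert none (fac' F) ∪ (fac' b).filter fun v => Anom p A (plp v)

/-- the finite set of the non anomalous primes -/
def Nf (A b : k[X]) : Finset (Pl k) := (fac' b).filter fun v => ¬ Anom p A (plp v)

variable {p}

theorem mem_Sf {A F b : k[X]} (hF : F ≠ 0) (hb : b ≠ 0) {v : Pl k} :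
    v ∈ Sf p A F b ↔ InS p A F b v := by
  simp only [Sf, InS, InS0, mem_union, mem_insert, mem_filter, mem_fac' hF, mem_fac' hb]
  tauto

theorem mem_Nf {A b : k[X]} (hb : b ≠ 0) {v : Pl k} : v ∈ Nf p A b ↔ InNa p A b v := by
  simp only [Nf, InNa, mem_filter, mem_fac' hb, and_assoc]

theorem inU_iff {A F b : k[X]} {v : Pl k} : InU F b v ↔ ¬ InS p A F b v ∧ ¬ InNa p A b v := by
  unfold InU InS InS0 InNa
  by_cases hv : v = none
  · tauto
  · rw [(PF_irr hv).prime.dvd_mul]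
    tauto

theorem inS_iff {A F b : k[X]} {v : Pl k} : InS p A F b v ↔ InS0 F v ∨ InAn p A b v := by
  unfold InS InS0 InAn
  tauto

theorem not_S0_of_dvd {F b : k[X]} (h : IsCoprime b F) {v : Pl k} (hv : v ≠ none) (hb : plp v ∣ b) :
    ¬ InS0 F v := by
  rintro (e | e)
  exacts [hv e, (PF_irr hv).not_isUnit (h.isUnit_of_dvd' hb e)]

theorem InNa.not_S {A F b : k[X]} (h : IsCoprime b F) {v : Pl k} (hv : InNa p A b v) :
    ¬ InS p A F b v := by
  rintro (e | e)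
  exacts [not_S0_of_dvd h hv.1 hv.2.1 e, hv.2.2 e.2]

theorem norm_pk_one {A F : k[X]} (hA : A ∣ F) {v : Pl k} (hv : ¬ InS0 F v) : ‖pk (Lv v) A‖ = 1 := by
  exact (norm_alg v _).trans (PF_one (fun e => hv (Or.inl e)) fun e => hv (Or.inr (e.trans hA)))

theorem nm_pk_one {A F : k[X]} (hA : A ∣ F) {v : Pl k} (hv : ¬ InS0 F v) :
    nm v (pk (Lb v) A) = 1 := by
  rw [← alg_pk, nm_alg, norm_pk_one hA hv]

theorem Eqv.emb {ι : Type} {w : ι → Kb k} (v : Pl k) {f : (ι → ZMod p) → Kb k}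
    (hf : f ∈ Eqv p (RatFunc k) w) :
    (fun g => emb v (f g)) ∈ Eqv p (Lv v) fun l => emb v (w l) := by
  refine ⟨fun g => emb_om v (hf.1 g), fun σ ρ h g => ?_⟩
  obtain ⟨r, hr⟩ := exists_rst v (ASel.emb v)
  rw [← hr, hf.2 (r σ) ρ (fun l => (ASel.emb v).injective ((hr _ _).trans ((h l).trans
    (by rw [map_add, map_natCast]; rfl)))) g]

theorem Eq1.emb {n : ℕ} {W : Fin n → Kb k} (v : Pl k) {f : Finset (Fin n) → Kb k}
    (hf : f ∈ Eq1 p (RatFunc k) W) :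
    (fun I => emb v (f I)) ∈ Eq1 p (Lv v) fun i => emb v (W i) := by
  refine ⟨fun g => emb_om v (hf.1 g), fun σ ρ h g => ?_⟩
  obtain ⟨r, hr⟩ := exists_rst v (ASel.emb v)
  rw [← hr, hf.2 (r σ) ρ (fun l => (ASel.emb v).injective ((hr _ _).trans ((h l).trans
    (by rw [map_add, map_natCast]; rfl)))) g]
  refine (map_sh (ASel.emb v : Kb k →+* Lb v) _ f g).trans ?_
  simp only [map_neg, map_natCast]
  rfl

theorem ASr.emb {ι : Type} {w : ι → Kb k} (v : Pl k) (h : ASr p (RatFunc k) w) :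
    ASr p (Lv v) fun l => emb v (w l) := by
  intro l
  obtain ⟨a, ha⟩ := h l
  exact ⟨algebraMap _ _ a, by rw [← map_pow, ← map_sub, ha, emb_algK]⟩

theorem ASF.asr {ι : Type} (Φ : ASF p k ι) : ASr p (RatFunc k) Φ.w := fun l => ⟨_, Φ.hw l⟩

variable [Fintype k] [hp : Fact p.Prime] [CharP k p]

variable (p) in
/-- the Cartier operator of the separable closure of the completion -/
def cM (v : Pl k) : Lb v →+ Lb v := car p (Om (Lv v) (Lb v)) (tv k (Lb v))

theorem FD_car {M M' : Type} [Field M] [Field M'] [CharP M p] [CharP M' p] {S : Subfield M} {t : M}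
    (h : PB p S t) (f : M →+* M') {S' : Subfield M'} {t' : M'} (hS : ∀ x ∈ S, f x ∈ S')
    (e : f t = t') (h' : PB p S' t') {x : M} (hx : x ∈ S) :
    f (car p S t x) = car p S' t' (f x) := by
  subst e
  exact h.car_map f hS h' hx

theorem emb_cB (v : Pl k) {x : Kb k} (hx : x ∈ Om (RatFunc k) (Kb k)) :
    emb v (cB p x) = cM p v (emb v x) := by
  exact FD_car sc_Kb.1 (emb v : Kb k →+* Lb v) (fun _ => emb_om v) ((emb v).commutes _)
    (sc_Lb v).1 hx

theorem alg_cL (v : Pl k) (x : Lv v) :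
    algebraMap (Lv v) (Lb v) (cL p v x) = cM p v (algebraMap _ _ x) := by
  exact FD_car (pb_L v) _ (fun x _ => om_alg x)
    (IsScalarTower.algebraMap_apply (RatFunc k) (Lv v) (Lb v) _).symm (sc_Lb v).1 trivial

theorem alg_cKB (x : RatFunc k) :
    algebraMap (RatFunc k) (Kb k) (cK p x) = cB p (algebraMap _ _ x) := by
  exact FD_car pb_K _ (fun x _ => om_alg x) rfl sc_Kb.1 trivial

theorem cB_frob : ∀ y ∈ Om (RatFunc k) (Kb k), ∀ f ∈ Om (RatFunc k) (Kb k),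
    cB p (y ^ p * f) = y * cB p f := by
  exact fun _ hy _ hf => sc_Kb.1.car_frob_mul hy hf

theorem cM_frob (v : Pl k) : ∀ y ∈ Om (Lv v) (Lb v), ∀ f ∈ Om (Lv v) (Lb v),
    cM p v (y ^ p * f) = y * cM p v f := by
  exact fun _ hy _ hf => (sc_Lb v).1.car_frob_mul hy hf

theorem Eqv.cB {ι : Type} {w : ι → Kb k} {f : (ι → ZMod p) → Kb k}
    (hf : f ∈ Eqv p (RatFunc k) w) : (fun g => cB p (f g)) ∈ Eqv p (RatFunc k) w := by
  exact Eqv.car sc_Kb.1 (fun σ => σ.commutes _) hf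

theorem Eq1.cB {n : ℕ} {W : Fin n → Kb k} {f : Finset (Fin n) → Kb k}
    (hf : f ∈ Eq1 p (RatFunc k) W) : (fun I => cB p (f I)) ∈ Eq1 p (RatFunc k) W := by
  exact Eq1.car sc_Kb.1 (fun σ => σ.commutes _) hf

theorem na_root {A F b : k[X]} (hA : A ∣ F) (h : IsCoprime b F) {v : Pl k} (hv : InNa p A b v) :
    ∀ t : Lv v, t ^ (p - 1) ≠ pk (Lv v) A := by
  exact fun t ht => hv.2.2 ((anom_iff hv.1 fun e =>
    not_S0_of_dvd h hv.1 hv.2.1 (Or.inr (e.trans hA))).2 ⟨t, ht⟩)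

theorem an_root {A F b : k[X]} (hA : A ∣ F) (h : IsCoprime b F) {v : Pl k} (hv : InAn p A b v) :
    ∃ t : Lv v, t ^ (p - 1) = pk (Lv v) A := by
  exact (anom_iff hv.1 fun e => not_S0_of_dvd h hv.1 hv.2.1 (Or.inr (e.trans hA))).1 hv.2.2

/-- a root of `x ^ p - x = h` with a local solution lies in the completion -/
theorem root_split {v : Pl k} {W : Lb v} {s : Lv v}
    (h : W ^ p - W = algebraMap _ _ (s ^ p - s)) (hs : ‖s‖ ≤ 1) :
    ∃ s' : Lv v, ‖s'‖ ≤ 1 ∧ algebraMap _ _ s' = W := by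
  obtain ⟨m, hm⟩ := Wp_fix (p := p) (x := W - algebraMap _ _ s) (by
    rw [map_sub, map_pow] at h
    rw [sub_pow_char]
    linear_combination h)
  exact ⟨s + m, PF_add hs (IsUltrametricDist.norm_natCast_le_one _ m),
    by rw [map_add, map_natCast, ← hm, add_sub_cancel]⟩

theorem root_le {v : Pl k} {W : Kb k} {h : RatFunc k} (hW : W ^ p - W = algebraMap _ _ h) {B : ℝ}
    (hB : 1 ≤ B) (hh : av v h ≤ B) : nm v (emb v W) ≤ B := by
  refine wp_le (p := p) (nm_na v) one_ne_zero hB (by rwa [map_one]) ?_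
  rwa [div_one, ← map_pow, ← map_sub, hW, AlgHom.commutes, nm_algK]

variable (p) in
/-- the three types of complexes -/
structure Ty (A F : k[X]) (ϖ : RatFunc k) (ε : ℤ) : Prop where
  five : 5 ≤ p
  F_ne : F ≠ 0
  dvd : A ∣ F
  nr : ∀ t : RatFunc k, t ^ (p - 1) ≠ pk _ A
  car : cK p (ϖ / pk _ A ^ 2) = ϖ
  int : ∀ v, ¬ InS0 F v → av v ϖ ≤ 1
  sgn : ε = 1 ∨ ε = -1
  eps : ε • ϖ = ϖ

variable (p) in
/-- the local differential -/
def dL (A : k[X]) (ϖ : RatFunc k) (v : Pl k) (x : Lv v × Lv v) : Lv v :=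
  x.2 - cL p v (x.2 / pk _ A) + x.1 * algebraMap _ _ ϖ

/-- the local cup product -/
def thL (ϖ : RatFunc k) (ε : ℤ) (v : Pl k) (x x' : Lv v × Lv v) : Lv v :=
  x.1 * x'.2 + ε • (x'.1 * x.2) + x.1 * x'.1 * algebraMap _ _ ϖ

variable (p) in
/-- local conditions -/
structure LtD (A F b : k[X]) (n0 : ℕ) (d ϖ : RatFunc k) (ε : ℤ) where
  Lt : ∀ v : Pl k, AddSubgroup (Lv v × Lv v)
  P : ∀ v : Pl k, Lv v × Lv v →+ Lv v × Lv v
  Q : ∀ v : Pl k, Lv v × Lv v →+ Lv v × Lv v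
  P_mem : ∀ v x, P v x ∈ Lt v
  P_id : ∀ v, ∀ x ∈ Lt v, P v x = x
  Q_coc : ∀ v x, dL p A ϖ v (Q v x) = 0
  Q_Q : ∀ v x, Q v (Q v x) = Q v x
  Q_iff : ∀ v x, dL p A ϖ v x = 0 → (Q v x = 0 ↔ x ∈ Lt v)
  coc : ∀ v, ∀ x ∈ Lt v, dL p A ϖ v x = 0
  cob : ∀ v (y : Lv v), (y ^ p / pk _ A - y, -(y ^ p / pk _ A * algebraMap _ _ ϖ)) ∈ Lt v
  iso : ∀ v, ∀ x ∈ Lt v, ∀ x' ∈ Lt v, res p v (thL ϖ ε v x x') = 0
  rel0 : ∀ v, InS0 F v → ∀ x ∈ Lt v, ∃ y : Lv v, ‖x.1 - (y ^ p / pk _ A - y)‖ ≤ 2 ^ n0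
  rel1 : ∀ v, InAn p A b v → ∀ x ∈ Lt v, ∃ y t : Lv v, t ^ p / pk _ A - t = 0 ∧
    ‖x.1 - (y ^ p / pk _ A - y + t * algebraMap _ _ d)‖ ≤ 1
  hi0 : ∀ v, InS0 F v → ∀ w : Lv v, cL p v (w / pk _ A) = w → ‖uL v * w‖ * 2 ^ n0 < 1 →
    (0, w) ∈ Lt v
  hi1 : ∀ v, InAn p A b v → ∀ w : Lv v, cL p v (w / pk _ A) = w → ‖uL v * w‖ < 1 →
    (∀ t : Lv v, t ^ p / pk _ A - t = 0 → res p v (t * algebraMap _ _ d * w) = 0) → (0, w) ∈ Lt v

variable (k) in
/-- values of the cochains of degree one -/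
abbrev W1 : Type := Kb k × Kb k × ∀ v : Pl k, Lb v

variable (k) in
/-- values of the cochains of degree two -/
abbrev W2 : Type := Kb k × (∀ v : Pl k, Lv v × Lv v) × ∀ v : Pl k, Lb v

variable (p) in
/-- the first differential -/
def D0f (A b : k[X]) (ϖ : RatFunc k) (y : Kb k) : W1 k :=
  (y ^ p / pk _ A - y, -(y ^ p / pk _ A * algebraMap _ _ ϖ),
    fun v => if InNa p A b v then emb v y else 0)

variable (p) in
/-- the global part of the second differential -/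
def d1B (A : k[X]) (ϖ : RatFunc k) (x : W1 k) : Kb k :=
  x.2.1 - cB p (x.2.1 / pk _ A) + x.1 * algebraMap _ _ ϖ

/-- localisation at a split place -/
def lc (v : Pl k) (x : W1 k) : Lv v × Lv v := (rt v (emb v x.1), rt v (emb v x.2.1))

variable {A F b : k[X]} {n0 : ℕ} {d ϖ : RatFunc k} {ε : ℤ}

/-- the second differential -/
def D1f (D : LtD p A F b n0 d ϖ ε) (x : W1 k) : W2 k :=
  (d1B p A ϖ x, fun v => if InS p A F b v then D.Q v (lc v x) else 0,
    fun v => if InNa p A b v then emb v x.1 - (x.2.2 v ^ p / pk _ A - x.2.2 v) else 0)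

/-- the pointwise pairing -/
def bWf (D : LtD p A F b n0 d ϖ ε) (x x' : W1 k) : ZMod p :=
  ∑ v ∈ Sf p A F b, res p v (thL ϖ ε v (lc v x - D.P v (lc v x)) (lc v x')) +
    ∑ v ∈ Nf p A b, res p v (rt v ((emb v x.1 - (x.2.2 v ^ p / pk _ A - x.2.2 v)) *
      (emb v x'.2.1 + x'.2.2 v ^ p / pk _ A * algebraMap (RatFunc k) _ ϖ) -
        ε • (emb v (d1B p A ϖ x) * x'.2.2 v)))

theorem D0f_add (y y' : Kb k) : D0f p A b ϖ (y + y') = D0f p A b ϖ y + D0f p A b ϖ y' := by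
  refine Prod.ext (Wp_add _ _ _) (Prod.ext ?_ (funext fun v => ?_))
  · simp only [D0f, Prod.snd_add, Prod.fst_add, add_pow_char]
    ring
  · simp only [D0f, Prod.snd_add, Pi.add_apply, map_add, ite_add_ite, add_zero]

theorem FD_d1B (x x' : W1 k) : d1B p A ϖ (x + x') = d1B p A ϖ x + d1B p A ϖ x' := by
  simp only [d1B, Prod.fst_add, Prod.snd_add, add_div, map_add]
  ring

theorem FD_lc (v : Pl k) (x x' : W1 k) : lc v (x + x') = lc v x + lc v x' := by
  simp only [lc, Prod.fst_add, Prod.snd_add, map_add, Prod.mk_add_mk]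

theorem D1f_add (D : LtD p A F b n0 d ϖ ε) (x x' : W1 k) : D1f D (x + x') = D1f D x + D1f D x' := by
  refine Prod.ext (FD_d1B x x') (Prod.ext (funext fun v => ?_) (funext fun v => ?_))
  · simp only [D1f, Prod.snd_add, Prod.fst_add, Pi.add_apply, FD_lc, map_add, ite_add_ite, add_zero]
  · simp only [D1f, Prod.snd_add, Prod.fst_add, Pi.add_apply, map_add, ite_add_ite, add_zero, Wp_add,
      add_sub_add_comm]

theorem bWf_add_left (D : LtD p A F b n0 d ϖ ε) (x y x' : W1 k) :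
    bWf D (x + y) x' = bWf D x x' + bWf D y x' := by
  rw [bWf, bWf, bWf, add_add_add_comm, ← sum_add_distrib, ← sum_add_distrib]
  refine congrArg₂ _ (sum_congr rfl fun v _ => ?_) (sum_congr rfl fun v _ => ?_)
  · rw [← map_add, FD_lc, map_add (D.P v)]
    refine congrArg _ ?_
    simp only [thL, Prod.fst_add, Prod.snd_add, Prod.fst_sub, Prod.snd_sub, zsmul_eq_mul]
    ring
  · rw [← map_add, ← map_add]
    refine congrArg _ (congrArg _ ?_)
    simp only [FD_d1B, Prod.fst_add, Prod.snd_add, Pi.add_apply, map_add, Wp_add, zsmul_eq_mul]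
    ring

theorem bWf_add_right (D : LtD p A F b n0 d ϖ ε) (x x' y' : W1 k) :
    bWf D x (x' + y') = bWf D x x' + bWf D x y' := by
  rw [bWf, bWf, bWf, add_add_add_comm, ← sum_add_distrib, ← sum_add_distrib]
  refine congrArg₂ _ (sum_congr rfl fun v _ => ?_) (sum_congr rfl fun v _ => ?_)
  · rw [← map_add, FD_lc]
    refine congrArg _ ?_
    simp only [thL, Prod.fst_add, Prod.snd_add, zsmul_eq_mul]
    ring
  · rw [← map_add, ← map_add]
    refine congrArg _ (congrArg _ ?_)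
    simp only [Prod.fst_add, Prod.snd_add, Pi.add_apply, map_add, add_pow_char, zsmul_eq_mul]
    ring

variable (p) in
/-- the first differential as an additive map -/
def D0 (A b : k[X]) (ϖ : RatFunc k) : Kb k →+ W1 k := AddMonoidHom.mk' (D0f p A b ϖ) D0f_add

/-- the second differential as an additive map -/
def D1 (D : LtD p A F b n0 d ϖ ε) : W1 k →+ W2 k := AddMonoidHom.mk' (D1f D) (D1f_add D)

/-- the pairing as a biadditive map -/
def bW (D : LtD p A F b n0 d ϖ ε) : W1 k →+ W1 k →+ ZMod p :=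
  AddMonoidHom.mk' (fun x => AddMonoidHom.mk' (bWf D x) (bWf_add_right D x)) fun x y =>
    AddMonoidHom.ext fun x' => bWf_add_left D x y x'

end

end Pool.Agent.ASel
end

-- merged part: Pool.Agent.Work.MP_60d5ce_nt.AG.FC
section
/-!
# The complex of equivariant families  (AS, function field side)

`C0`, `C1`, `C2`: families on the group `ι → ZMod p`, regular at the places `InU`.  `SplG`: values that are separable and lie in the completions at the places `InS`.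
`Cn`: cochains indexed by subsets.

PLAN.  `th` is integral where the `w l` are (`root_le`, `Stg.h_int`), `sum_th`, `th_mem`, `Eqv.emb`.  `C0_split`: `root_split` and `Stg.split` put `emb v (w l)` in `Lv v`, so every local automorphism
fixes them (`Eqv.fix`, `om_fix`).  `D1_mem`: integrality of `cB (w / A)` at `InU v`: by `Eqv.poly` over `Lv v`... simplest: the local family `emb v ∘ w / A` is fixed by `I0 p v` (the `emb v (w l)` are: `i0_small`, `fp_small`),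
`C (x) ^ p = - der ^ (p-1) x` or the expansion in the `p`-basis as in `i0_der`; see `i0_car` below (prove it as `i0_der` in `LocI.lean`).  `D1_D0`: `cob_coc`, `LtD.cob`, `LtD.Q_iff`.
`D0_inj`: `Eqv.const`, `wp_ker`, `Ty.nr`.  `cn_mom`: `mom_mem`, `map_mom` for the projections and `emb v`, `smul_val`.
-/

set_option linter.unusedSectionVars false

namespace Pool.Agent.ASel

open Polynomial Pool.Agent.Smith Finset
open scoped Classical

noncomputable section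

variable {p : ℕ} {k : Type} [Field k] [Fintype k] [hp : Fact p.Prime] [CharP k p] {ι : Type}
  {A F b : k[X]} {n0 : ℕ} {d ϖ : RatFunc k} {ε : ℤ}

theorem i0_car {v : Pl k} (hv : v ≠ none) {x : Lb v} (hx : x ∈ Om (Lv v) (Lb v))
    (h : ∀ τ ∈ I0 p v, τ x = x) (h1 : nm v x ≤ 1) : nm v (cM p v x) ≤ 1 := by
  have B := (sc_Lb (p := p) v).1
  have mK : ∀ a : RatFunc k, algebraMap _ (Lb v) a ∈ Om (Lv v) (Lb v) := fun a =>
    om_alg (algebraMap _ (Lv v) a)
  have fK : ∀ (τ : Lb v ≃ₐ[Lv v] Lb v) (a : RatFunc k), τ (algebraMap _ (Lb v) a) =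
      algebraMap _ (Lb v) a := fun τ a => τ.commutes (algebraMap _ (Lv v) a)
  have d1 := (pb_K (k := k) (p := p)).der_map (algebraMap _ (Lb v)) (fun a _ => mK a) B
    (x := algebraMap k[X] _ (plp v)) trivial
  have n1 : nm v (der p (Om (Lv v) (Lb v)) (tv k (Lb v)) (pk (Lb v) (plp v))) = 1 := by
    refine (congrArg _ d1.symm).trans ?_
    rw [nm_algK, der_poly]
    refine (av_poly_le hv _).eq_of_not_lt fun l => ?_
    obtain _ | P := v
    · exact hv rfl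
    exact P.2.2.not_isUnit ((PerfectField.separable_of_irreducible P.2.2).isUnit_of_dvd' dvd_rfl
      ((av_poly_lt hv _).1 l))
  have n0 := (nm v).ne_zero_iff.1 (n1.trans_ne one_ne_zero)
  have mP : pk (Lb v) (plp v) ∈ Om (Lv v) (Lb v) := mK _
  have B' := B.change mP n0
  have nπ : nm v (pk (Lb v) (plp v)) = 2⁻¹ := (nm_algK v _).trans (av_plp hv)
  have hf := div_mem hx (B.der_mem mP)
  rw [← div_mul_cancel₀ x n0, cM, B.car_change mP n0 hf, map_mul, n1, mul_one]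
  obtain ⟨c, hc, e⟩ := B'.2.2 _ hf
  have hd : ∀ i < p, c i ≠ 0 → ∃ n : ℤ, nm v (c i) = 2 ^ n := fun i hi =>
    i0_disc (hc i) fun τ hτ => sub_eq_zero.1 (B'.uniq (c := fun i => τ (c i) - c i)
      (fun i => sub_mem (om_act τ (hc i)) (hc i)) (by
        have e1 : τ (pk (Lb v) (plp v)) = pk (Lb v) (plp v) := fK τ _
        have e2 := congrArg τ e
        have e3 : τ (der p (Om (Lv v) (Lb v)) (tv k (Lb v)) (pk (Lb v) (plp v))) =
            der p (Om (Lv v) (Lb v)) (tv k (Lb v)) (pk (Lb v) (plp v)) :=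
          (congrArg τ d1.symm).trans ((fK τ _).trans d1)
        rw [map_div₀, h τ hτ, e3, e] at e2
        simp only [map_sum, map_mul, map_pow, e1] at e2
        simp only [sub_pow_char, sub_mul, Finset.sum_sub_distrib]
        exact sub_eq_zero.2 e2.symm) i hi)
  have hi : p - 1 < p := Nat.sub_lt hp.out.pos one_pos
  have m := LocI_max (nm_na v) nπ hd _ hi
  rw [← e, map_div₀, n1, div_one, map_mul, map_pow, map_pow, nπ] at m
  rw [e, (B'.PBc_spec hc).2]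
  by_cases c0 : c (p - 1) = 0
  · simp [c0]
  obtain ⟨n, e⟩ := hd _ hi c0
  have m := m.trans h1
  rw [e, inv_pow, mul_inv_le_iff₀ (by positivity), one_mul, ← zpow_natCast, ← zpow_natCast,
    ← zpow_mul, zpow_le_zpow_iff_right₀ one_lt_two] at m
  refine e ▸ zpow_le_one_of_nonpos₀ one_le_two ?_
  by_contra q
  have : (p : ℤ) ≤ n * p := le_mul_of_one_le_left (by positivity) (by omega)
  omega

/-- global families, regular at the unramified places -/
def C0 (F b : k[X]) (Φ : ASF p k ι) : AddSubgroup ((ι → ZMod p) → Kb k) where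
  carrier := {f | f ∈ Eqv p (RatFunc k) Φ.w ∧ ∀ v, InU F b v → ∀ g, nm v (emb v (f g)) ≤ 1}
  zero_mem' := ⟨zero_mem _, fun v _ g => by simp⟩
  add_mem' ha hb := ⟨add_mem ha.1 hb.1, fun v hv g => by
    rw [Pi.add_apply, map_add]
    exact LocA_add_le (nm_na v) (ha.2 v hv g) (hb.2 v hv g)⟩
  neg_mem' ha := ⟨neg_mem ha.1, fun v hv g => by
    rw [Pi.neg_apply, map_neg, AbsoluteValue.map_neg]
    exact ha.2 v hv g⟩

/-- local families at the non anomalous primes -/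
def CN (A b : k[X]) (Φ : ASF p k ι) : AddSubgroup ((ι → ZMod p) → ∀ v : Pl k, Lb v) where
  carrier := {y | ∀ v, (fun g => y g v) ∈ Eqv p (Lv v) (fun l => emb v (Φ.w l)) ∧
    (¬ InNa p A b v → ∀ g, y g v = 0)}
  zero_mem' v := ⟨zero_mem _, fun _ _ => rfl⟩
  add_mem' ha hb v := ⟨add_mem (ha v).1 (hb v).1, fun h g => by
    rw [Pi.add_apply, Pi.add_apply, (ha v).2 h, (hb v).2 h, add_zero]⟩
  neg_mem' ha v := ⟨neg_mem (ha v).1, fun h g => by
    rw [Pi.neg_apply, Pi.neg_apply, (ha v).2 h, neg_zero]⟩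

/-- cochains of degree one -/
def C1 (A F b : k[X]) (Φ : ASF p k ι) : AddSubgroup ((ι → ZMod p) → W1 k) where
  carrier := {x | (fun g => (x g).1) ∈ C0 F b Φ ∧ (fun g => (x g).2.1) ∈ C0 F b Φ ∧
    (fun g => (x g).2.2) ∈ CN A b Φ}
  zero_mem' := ⟨zero_mem _, zero_mem _, zero_mem _⟩
  add_mem' ha hb := ⟨add_mem ha.1 hb.1, add_mem ha.2.1 hb.2.1, add_mem ha.2.2 hb.2.2⟩
  neg_mem' ha := ⟨neg_mem ha.1, neg_mem ha.2.1, neg_mem ha.2.2⟩

/-- cochains of degree two -/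
def C2 (D : LtD p A F b n0 d ϖ ε) (Φ : ASF p k ι) : AddSubgroup ((ι → ZMod p) → W2 k) where
  carrier := {x | (fun g => (x g).1) ∈ C0 F b Φ ∧
    (∀ g v, D.Q v ((x g).2.1 v) = (x g).2.1 v ∧ (¬ InS p A F b v → (x g).2.1 v = 0)) ∧
    (fun g => (x g).2.2) ∈ CN A b Φ}
  zero_mem' := ⟨zero_mem _, fun _ _ => ⟨map_zero _, fun _ => rfl⟩, zero_mem _⟩
  add_mem' ha hb := ⟨add_mem ha.1 hb.1, fun g v =>
    ⟨(map_add _ _ _).trans (congrArg₂ (· + ·) (ha.2.1 g v).1 (hb.2.1 g v).1), fun h =>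
      (congrArg₂ (· + ·) ((ha.2.1 g v).2 h) ((hb.2.1 g v).2 h)).trans (add_zero 0)⟩,
    add_mem ha.2.2 hb.2.2⟩
  neg_mem' ha := ⟨neg_mem ha.1, fun g v => ⟨(map_neg _ _).trans (congrArg (- ·) (ha.2.1 g v).1),
    fun h => (congrArg (- ·) ((ha.2.1 g v).2 h)).trans neg_zero⟩, neg_mem ha.2.2⟩

variable (p) in
/-- values that lie in the completions at the split places -/
def SplG (A F b : k[X]) : AddSubgroup (W1 k) where
  carrier := {x | x.1 ∈ Om (RatFunc k) (Kb k) ∧ x.2.1 ∈ Om (RatFunc k) (Kb k) ∧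
    ∀ v, InS p A F b v → algebraMap _ _ (lc v x).1 = emb v x.1 ∧
      algebraMap _ _ (lc v x).2 = emb v x.2.1}
  zero_mem' := ⟨zero_mem _, zero_mem _, fun v _ => by simp [lc]⟩
  add_mem' ha hb := ⟨add_mem ha.1 hb.1, add_mem ha.2.1 hb.2.1, fun v hv => by
    have a := ha.2.2 v hv
    have b := hb.2.2 v hv
    simp only [lc, Prod.fst_add, Prod.snd_add, map_add] at a b ⊢
    exact ⟨by rw [a.1, b.1], by rw [a.2, b.2]⟩⟩
  neg_mem' ha := ⟨neg_mem ha.1, neg_mem ha.2.1, fun v hv => by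
    have a := ha.2.2 v hv
    simp only [lc, Prod.fst_neg, Prod.snd_neg, map_neg] at a ⊢
    exact ⟨by rw [a.1], by rw [a.2]⟩⟩

variable (p) in
/-- cochains indexed by subsets -/
structure Cn (A F b : k[X]) {n : ℕ} (W : Fin n → Kb k) (x : Finset (Fin n) → W1 k) : Prop where
  a_eq : (fun I => (x I).1) ∈ Eq1 p (RatFunc k) W
  w_eq : (fun I => (x I).2.1) ∈ Eq1 p (RatFunc k) W
  y_eq : ∀ v, (fun I => (x I).2.2 v) ∈ Eq1 p (Lv v) fun i => emb v (W i)
  int : ∀ v, InU F b v → ∀ I, nm v (emb v (x I).1) ≤ 1 ∧ nm v (emb v (x I).2.1) ≤ 1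
  spl : ∀ I, x I ∈ SplG p A F b

theorem FC_dL {x : W1 k} (hx : x ∈ SplG p A F b) {v : Pl k} (hv : InS p A F b v)
    (h : d1B p A ϖ x = 0) : dL p A ϖ v (lc v x) = 0 := by
  have := congrArg (emb v) h
  rw [d1B, map_add, map_sub, emb_cB v (x := _ / pk _ A) (div_mem hx.2.1 (om_alg _)), map_mul, map_div₀, emb_pk,
    emb_algK, ← (hx.2.2 v hv).1, ← (hx.2.2 v hv).2, ← alg_pk, ← map_div₀, ← alg_cL, ← map_mul,
    ← map_sub, ← map_add, map_zero] at this
  exact (_root_.map_eq_zero _).1 this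

theorem D1_eq_zero {D : LtD p A F b n0 d ϖ ε} {x : W1 k} (hx : x ∈ SplG p A F b) : D1 D x = 0 ↔
    d1B p A ϖ x = 0 ∧ (∀ v, InS p A F b v → lc v x ∈ D.Lt v) ∧
      ∀ v, InNa p A b v → emb v x.1 = x.2.2 v ^ p / pk _ A - x.2.2 v := by
  change D1f D x = 0 ↔ _
  simp only [D1f, Prod.mk_eq_zero, funext_iff, Pi.zero_apply, ite_eq_right_iff, sub_eq_zero]
  exact and_congr_right fun h => and_congr_left' (forall₂_congr fun v hv =>
    D.Q_iff v _ (FC_dL hx hv h))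

theorem bW_coc {D : LtD p A F b n0 d ϖ ε} (hF : F ≠ 0) (hb : b ≠ 0) {x : W1 k}
    (hx : x ∈ SplG p A F b) (h : D1 D x = 0) (x' : W1 k) : bW D x x' = 0 := by
  obtain ⟨h1, h2, h3⟩ := (D1_eq_zero hx).1 h
  change bWf D x x' = 0
  rw [bWf, sum_eq_zero fun v hv => ?_, sum_eq_zero fun v hv => ?_, add_zero]
  · simp [h1, h3 v ((mem_Nf hb).1 hv)]
  · simp [D.P_id v _ (h2 v ((mem_Sf hF hb).1 hv)), thL]

variable [Fintype ι]

/-- the member of the linear family with coordinates `e` -/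
def hh (Φ : ASF p k ι) (e : ι → ZMod p) : RatFunc k := ∑ l, ((e l).val : RatFunc k) * Φ.h l

/-- its Artin-Schreier root -/
def WW (Φ : ASF p k ι) (e : ι → ZMod p) : Kb k := ∑ l, ((e l).val : Kb k) * Φ.w l

theorem hh_add (Φ : ASF p k ι) (e e' : ι → ZMod p) : hh Φ (e + e') = hh Φ e + hh Φ e' := by
  simp only [hh, Pi.add_apply, FEq_add, add_mul, sum_add_distrib]

theorem hh_smul (Φ : ASF p k ι) (c : ZMod p) (e : ι → ZMod p) :
    hh Φ (c • e) = (c.val : RatFunc k) * hh Φ e := by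
  simp only [hh, Pi.smul_apply, smul_eq_mul, FEq_val, map_mul, mul_sum, mul_assoc]

theorem WW_add (Φ : ASF p k ι) (e e' : ι → ZMod p) : WW Φ (e + e') = WW Φ e + WW Φ e' := by
  simp only [WW, Pi.add_apply, FEq_add, add_mul, sum_add_distrib]

theorem WW_pow (Φ : ASF p k ι) (e : ι → ZMod p) :
    WW Φ e ^ p - WW Φ e = algebraMap _ _ (hh Φ e) := by
  simp only [WW, hh, sum_pow_char, mul_pow, FEq_frob, map_sum, map_mul, map_natCast, ← Φ.hw,
    mul_sub, sum_sub_distrib]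

/-- multiplication by the family of sum one -/
def t0 (Φ : ASF p k ι) (g : ι → ZMod p) : Kb k →+ Kb k := AddMonoidHom.mulLeft (th p Φ.w g)

/-- the same on local families -/
def tN (Φ : ASF p k ι) (g : ι → ZMod p) : (∀ v : Pl k, Lb v) →+ ∀ v : Pl k, Lb v :=
  AddMonoidHom.pi fun v =>
    (AddMonoidHom.mulLeft (emb v (th p Φ.w g))).comp (Pi.evalAddMonoidHom (fun v : Pl k => Lb v) v)

/-- the same in degree one -/
def t1 (Φ : ASF p k ι) (g : ι → ZMod p) : W1 k →+ W1 k :=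
  (t0 Φ g).prodMap ((t0 Φ g).prodMap (tN Φ g))

/-- the same in degree two -/
def t2 (Φ : ASF p k ι) (g : ι → ZMod p) : W2 k →+ W2 k :=
  (t0 Φ g).prodMap ((if g = 0 then AddMonoidHom.id _ else 0).prodMap (tN Φ g))

variable {Φ : ASF p k ι}

theorem FC_mul0 {a f : (ι → ZMod p) → Kb k} (ha : a ∈ C0 F b Φ) (hf : f ∈ C0 F b Φ) :
    (fun g => a g * f g) ∈ C0 F b Φ :=
  ⟨Eqv.mul ha.1 hf.1, fun v hv g => by
    rw [map_mul, map_mul]
    exact mul_le_one₀ (ha.2 v hv g) ((nm v).nonneg _) (hf.2 v hv g)⟩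

theorem FC_mulN {a : (ι → ZMod p) → Kb k} {y : (ι → ZMod p) → ∀ v : Pl k, Lb v} (ha : a ∈ C0 F b Φ)
    (hy : y ∈ CN A b Φ) : (fun g v => emb v (a g) * y g v) ∈ CN A b Φ := fun v =>
  ⟨Eqv.mul (Eqv.emb v ha.1) (hy v).1, fun h g => by simp only [(hy v).2 h g, mul_zero]⟩

theorem FC_sh0 {f : (ι → ZMod p) → Kb k} (hf : f ∈ C0 F b Φ) (h : ι → ZMod p) :
    (fun g => f (g + h)) ∈ C0 F b Φ := ⟨Eqv.shift hf.1 h, fun v hv _ => hf.2 v hv _⟩

theorem FC_shN {y : (ι → ZMod p) → ∀ v : Pl k, Lb v} (hy : y ∈ CN A b Φ) (h : ι → ZMod p) :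
    (fun g => y (g + h)) ∈ CN A b Φ := fun v => ⟨Eqv.shift (hy v).1 h, fun h' _ => (hy v).2 h' _⟩

theorem FC_s0 (Φ : ASF p k ι) (x : Kb k) : ∑ g, t0 Φ g x = x := by
  change ∑ g, th p Φ.w g * x = x
  rw [← sum_mul, sum_th, one_mul]

theorem FC_sN (Φ : ASF p k ι) (x : ∀ v : Pl k, Lb v) : ∑ g, tN Φ g x = x := funext fun v => by
  rw [Finset.sum_apply]
  change ∑ g, emb v (th p Φ.w g) * x v = x v
  rw [← sum_mul, ← map_sum, sum_th, map_one, one_mul]

theorem FC_nat (v : Pl k) (m : ℕ) : nm v (emb v m) ≤ 1 := by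
  rw [map_natCast]
  exact (nm_na v).apply_natCast_le_one

theorem FC_alg {a : RatFunc k} (h : ∀ v, ¬ InS0 F v → av v a ≤ 1) :
    (fun _ => algebraMap _ _ a) ∈ C0 F b Φ :=
  ⟨Eqv.alg a, fun v hv _ => by
    rw [emb_algK, nm_alg, norm_alg]
    exact h v fun h' => (inU_iff (p := p) (A := 0)).1 hv |>.1 (Or.inl h')⟩

theorem FC_div (hA : A ∣ F) {f : (ι → ZMod p) → Kb k} (hf : f ∈ C0 F b Φ) :
    (fun g => f g / pk _ A) ∈ C0 F b Φ := by
  have := FC_mul0 hf (FC_alg (a := (pk _ A)⁻¹) fun v hv => by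
    rw [map_inv₀, ← norm_alg]
    exact inv_le_one_of_one_le₀ (norm_pk_one hA hv).ge)
  simp only [map_inv₀, ← div_eq_mul_inv] at this
  exact this

theorem FC_pow {f : (ι → ZMod p) → Kb k} (hf : f ∈ C0 F b Φ) (n : ℕ) :
    (fun g => f g ^ n) ∈ C0 F b Φ :=
  ⟨Eqv.pow hf.1 n, fun v hv g => by
    rw [map_pow, map_pow]
    exact pow_le_one₀ ((nm v).nonneg _) (hf.2 v hv g)⟩

theorem FC_mom {n : ℕ} (χ : Fin n → (ι → ZMod p) →+ ZMod p) {f : (ι → ZMod p) → Kb k}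
    (hf : f ∈ C0 F b Φ) {v : Pl k} (hv : InU F b v) (I : Finset (Fin n)) :
    nm v (emb v (mom χ f I)) ≤ 1 := by
  rw [mom, map_sum]
  refine LocA_sum_le (nm_na v) _ _ fun g _ => ?_
  rw [smul_val, map_mul, map_mul]
  exact mul_le_one₀ (FC_nat v _) ((nm v).nonneg _) (hf.2 v hv g)

variable (hS : Stg A F b Φ)
include hS

theorem FC_w {v : Pl k} (hv : InU F b v) (l : ι) : nm v (emb v (Φ.w l)) ≤ 1 :=
  root_le (Φ.hw l) le_rfl (hS.h_int l v (Or.inr fun h => hv.2 (h.mul_left F)))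

theorem FC_th : th p Φ.w ∈ C0 F b Φ :=
  ⟨th_mem Φ.asr, fun v hv g => by
    simp only [th, map_prod, map_neg, map_pow, AbsoluteValue.map_neg, map_add]
    exact prod_le_one (fun _ _ => pow_nonneg ((nm v).nonneg _) _) fun l _ =>
      pow_le_one₀ ((nm v).nonneg _) (LocA_add_le (nm_na v) (FC_w hS hv l) (FC_nat v _))⟩

theorem FC_car {f : (ι → ZMod p) → Kb k} (hf : f ∈ C0 F b Φ) : (fun g => cB p (f g)) ∈ C0 F b Φ :=
  ⟨Eqv.cB hf.1, fun v hv g => by
    rw [emb_cB v (hf.1.1 g)]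
    refine i0_car hv.1 (emb_om v (hf.1.1 g)) (fun τ hτ => Eqv.fix (Eqv.emb v hf.1) g τ fun l => ?_)
      (hf.2 v hv g)
    obtain ⟨ρ, hρ⟩ := exists_rho (ASr.emb v Φ.asr) τ
    have h := i0_small hτ (FC_w hS hv l)
    rw [hρ, add_sub_cancel_left, ← mul_one ((ρ l).val : Lb v)] at h
    have := fp_small (p := p) (nm_na v) (map_one _) h
    rw [hρ, ← mul_one ((ρ l).val : Lb v), this, add_zero]⟩

theorem FC_split {v : Pl k} (hv : InS p A F b v) (l : ι) :
    ∃ s : Lv v, ‖s‖ ≤ 1 ∧ algebraMap _ _ s = emb v (Φ.w l) := by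
  obtain ⟨s, h1, h2⟩ := hS.split l v hv
  exact root_split (by rw [h2, ← emb_algK, ← Φ.hw, map_sub, map_pow]) h1

theorem hh_int (e : ι → ZMod p) {v : Pl k} (hv : v = none ∨ ¬ plp v ∣ b) : av v (hh Φ e) ≤ 1 :=
  LocA_sum_le (av_na v) _ _ fun l _ => (Hasse_nat v _ _).trans (hS.h_int l v hv)

theorem WW_split (e : ι → ZMod p) {v : Pl k} (hv : InS p A F b v) :
    ∃ s : Lv v, ‖s‖ ≤ 1 ∧ algebraMap _ _ s = emb v (WW Φ e) := by
  choose s h1 h2 using FC_split hS hv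
  refine ⟨∑ l, ((e l).val : Lv v) * s l, LocA_sum_le (Wp_na v) _ _ fun l _ => ?_, by
    simp only [WW, map_sum, map_mul, map_natCast, h2]⟩
  exact (norm_mul _ _).trans_le
    (mul_le_one₀ (IsUltrametricDist.norm_natCast_le_one _ _) (norm_nonneg _) (h1 l))

theorem eqv_split {f : (ι → ZMod p) → Kb k} (hf : f ∈ Eqv p (RatFunc k) Φ.w) {v : Pl k}
    (hv : InS p A F b v) (g : ι → ZMod p) : algebraMap _ _ (rt v (emb v (f g))) = emb v (f g) := by
  obtain ⟨a, ha⟩ := om_fix (emb_om v (hf.1 g)) fun τ => Eqv.fix (Eqv.emb v hf) g τ fun l => by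
    obtain ⟨s, -, h⟩ := FC_split hS hv l
    rw [← h, τ.commutes]
  rw [← ha, rt_alg]

theorem C1_spl {x : (ι → ZMod p) → W1 k} (hx : x ∈ C1 A F b Φ) (g : ι → ZMod p) :
    x g ∈ SplG p A F b :=
  ⟨hx.1.1.1 g, hx.2.1.1.1 g, fun _ hv => ⟨eqv_split hS hx.1.1 hv g, eqv_split hS hx.2.1.1 hv g⟩⟩

theorem hig0 : Hig (C0 F b Φ) (t0 Φ) :=
  ⟨fun _ => FC_sh0, fun _ => FC_mul0 (FC_th hS), FC_s0 Φ⟩

theorem hig1 : Hig (C1 A F b Φ) (t1 Φ) :=
  ⟨fun _ hf h => ⟨FC_sh0 hf.1 h, FC_sh0 hf.2.1 h, FC_shN hf.2.2 h⟩, fun _ hf =>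
    ⟨FC_mul0 (FC_th hS) hf.1, FC_mul0 (FC_th hS) hf.2.1, FC_mulN (FC_th hS) hf.2.2⟩, fun x =>
    Prod.ext (Prod.fst_sum.trans (FC_s0 Φ _)) (Prod.snd_sum.trans
      (Prod.ext (Prod.fst_sum.trans (FC_s0 Φ _)) (Prod.snd_sum.trans (FC_sN Φ _))))⟩

theorem hig2 (D : LtD p A F b n0 d ϖ ε) : Hig (C2 D Φ) (t2 Φ) := by
  have e : ∀ g (x : W2 k), (t2 Φ g x).2.1 = if g = 0 then x.2.1 else 0 := fun g _ => by
    by_cases h : g = 0 <;> simp [t2, h]
  refine ⟨fun _ hf h => ⟨FC_sh0 hf.1 h, fun g => hf.2.1 _, FC_shN hf.2.2 h⟩, fun f hf =>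
    ⟨FC_mul0 (FC_th hS) hf.1, fun g v => ?_, FC_mulN (FC_th hS) hf.2.2⟩, fun x =>
    Prod.ext (Prod.fst_sum.trans (FC_s0 Φ _)) (Prod.snd_sum.trans
      (Prod.ext (Prod.fst_sum.trans ?_) (Prod.snd_sum.trans (FC_sN Φ _))))⟩
  · rw [e]
    split_ifs
    exacts [hf.2.1 g v, ⟨map_zero _, fun _ => rfl⟩]
  · simp only [e, sum_ite_eq', mem_univ, if_true]

theorem cn_mom {n : ℕ} (e : Fin n → ι → ZMod p) {x : (ι → ZMod p) → W1 k} (hx : x ∈ C1 A F b Φ) :
    Cn p A F b (fun i => WW Φ (e i)) (mom (fun i => prg p (e i)) x) := by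
  have e1 := map_mom (AddMonoidHom.fst _ _) (fun i => prg p (e i)) x
  have e2 := map_mom ((AddMonoidHom.fst _ _).comp (AddMonoidHom.snd _ _)) (fun i => prg p (e i)) x
  refine ⟨funext e1 ▸ mom_mem Φ.asr e hx.1.1, funext e2 ▸ mom_mem Φ.asr e hx.2.1.1, fun v => ?_,
    fun v hv I => ⟨(congrArg (fun z => nm v (emb v z)) (e1 I)).trans_le (FC_mom _ hx.1 hv I),
      (congrArg (fun z => nm v (emb v z)) (e2 I)).trans_le (FC_mom _ hx.2.1 hv I)⟩,
    fun I => sum_mem fun g _ => ZMod.smul_mem (C1_spl hS hx g) _⟩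
  have e3 := map_mom ((Pi.evalAddMonoidHom (fun v : Pl k => Lb v) v).comp
    ((AddMonoidHom.snd _ _).comp (AddMonoidHom.snd _ _))) (fun i => prg p (e i)) x
  simp only [WW, map_sum, map_mul, map_natCast]
  exact funext e3 ▸ mom_mem (ASr.emb v Φ.asr) e (hx.2.2 v).1

/-- multiplication of a family by the conjugates of `WW Φ e` -/
theorem mul_WW (e : ι → ZMod p) {x : (ι → ZMod p) → W1 k} (hx : x ∈ C1 A F b Φ) :
    ∃ x1 ∈ C1 A F b Φ, ∀ g, (prg p e g • x g).1 = (x1 g).1 - WW Φ e * (x g).1 ∧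
      (prg p e g • x g).2.1 = (x1 g).2.1 - WW Φ e * (x g).2.1 ∧
      ∀ v, (prg p e g • x g).2.2 v = (x1 g).2.2 v - emb v (WW Φ e) * (x g).2.2 v := by
  have ha : (fun g => WW Φ e + ((prg p e g).val : Kb k)) ∈ C0 F b Φ :=
    ⟨eqv_lin Φ.asr e, fun v hv g => by
      rw [map_add]
      exact LocA_add_le (nm_na v) (root_le (WW_pow Φ e) le_rfl
        (hh_int hS e (Or.inr fun h => hv.2 (h.mul_left F)))) (FC_nat v _)⟩
  refine ⟨fun g => (_, _, _), ⟨FC_mul0 ha hx.1, FC_mul0 ha hx.2.1, FC_mulN ha hx.2.2⟩,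
    fun g => ⟨?_, ?_, fun v => ?_⟩⟩ <;>
  simp only [Prod.smul_fst, Prod.smul_snd, Pi.smul_apply, add_mul, add_sub_cancel_left,
    map_add, map_natCast] <;> exact smul_val _ _

variable (hT : Ty p A F ϖ ε)
include hT

theorem FC_pk (M : Type) [Field M] [Algebra (RatFunc k) M] : pk M A ≠ 0 :=
  (_root_.map_ne_zero (algebraMap (RatFunc k) M)).2 (RatFunc.algebraMap_ne_zero (ne_zero_of_dvd_ne_zero hT.F_ne hT.dvd))

theorem D0_mem : ∀ f ∈ C0 F b Φ, (fun g => D0 p A b ϖ (f g)) ∈ C1 A F b Φ := fun f hf => by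
  have h := FC_div hT.dvd (FC_pow hf p)
  refine ⟨sub_mem h hf, neg_mem (FC_mul0 h (FC_alg hT.int)), fun v => ⟨?_, fun h _ => if_neg h⟩⟩
  change (fun g => if InNa p A b v then emb v (f g) else 0) ∈ _
  split_ifs
  exacts [Eqv.emb v hf.1, zero_mem _]

theorem D1_mem (D : LtD p A F b n0 d ϖ ε) :
    ∀ f ∈ C1 A F b Φ, (fun g => D1 D (f g)) ∈ C2 D Φ := fun f hf => by
  refine ⟨add_mem (sub_mem hf.2.1 (FC_car hS (FC_div hT.dvd hf.2.1))) (FC_mul0 hf.1 (FC_alg hT.int)),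
    fun g v => ⟨?_, fun h => if_neg h⟩, fun v => ⟨?_, fun h _ => if_neg h⟩⟩
  · change D.Q v (if InS p A F b v then _ else 0) = if InS p A F b v then _ else 0
    split_ifs
    exacts [D.Q_Q v _, map_zero _]
  · change (fun g => if InNa p A b v then emb v (f g).1 - ((f g).2.2 v ^ p / pk _ A - (f g).2.2 v)
      else 0) ∈ _
    split_ifs
    · have := Eqv.mul (Eqv.pow (hf.2.2 v).1 p) (Eqv.alg (pk (Lv v) A)⁻¹)
      simp only [map_inv₀, alg_pk, ← div_eq_mul_inv] at this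
      exact sub_mem (Eqv.emb v hf.1.1) (sub_mem this (hf.2.2 v).1)
    · exact zero_mem _

theorem D1_D0 (D : LtD p A F b n0 d ϖ ε) : ∀ f ∈ C0 F b Φ, ∀ g, D1 D (D0 p A b ϖ (f g)) = 0 := fun f hf g => by
  refine (D1_eq_zero (C1_spl hS (D0_mem hS hT f hf) g)).2 ⟨?_, fun v hv => ?_, fun v hv => ?_⟩
  · refine cob_coc (cB p) _ cB_frob (om_alg _) (FC_pk hS hT _) (om_alg _) ?_
      (by rw [← map_zsmul, hT.eps]) (hf.1.1 g)
    have := alg_cKB (p := p) (ϖ / pk _ A ^ 2)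
    rw [hT.car, map_div₀, map_pow] at this
    exact this.symm
  · have e := eqv_split hS hf.1 hv g
    have := D.cob v (rt v (emb v (f g)))
    rw [← rt_alg v (_ - _), ← rt_alg v (-_), map_neg, map_sub, map_mul, map_div₀, map_pow, e, alg_pk,
      ← emb_algK, ← emb_pk, ← map_pow, ← map_div₀, ← map_sub, ← map_mul, ← map_neg] at this
    exact this
  · change emb v (f g ^ p / pk _ A - f g) = (if InNa p A b v then emb v (f g) else 0) ^ p / pk _ A -
      if InNa p A b v then emb v (f g) else 0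
    rw [if_pos hv, map_sub, map_div₀, map_pow, emb_pk]

theorem D0_inj : ∀ y, (fun _ => y) ∈ C0 F b Φ → D0 p A b ϖ y = 0 → y = 0 := fun _ hy h =>
  wp_fix_zero Φ.asr (FC_pk hS hT _) hT.nr (Eqv.fix hy.1 0) (congrArg Prod.fst h)

end

end Pool.Agent.ASel
end

-- merged part: Pool.Agent.Work.MP_60d5ce_nt.AG.FB
section
/-!
# Normalised cocycles, bad primes, the standing situation  (AS, function field side)

`Fj`: the finite group of normalised cocycles indexed by subsets; it does not depend on the large prime.  `BadS`: the primes at which a nonzero element `η - Ξ (y, y')` vanishes.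
`Bd`: the line of the classes that are orthogonal to a given class.  `Su`: the family `Φ` over `b = b' * P`.

PLAN.  Closure properties (`nm_na`, `add_pow_char`, `hh_add`, `hh_smul`).  `Su.b'_ne` etc.: `Stg.b_ne`, `IsCoprime.of_mul_left_left`; `plp` of a finite place is monic irreducible, two finite places with `plp v ∣ plp P` are equal.
`av_pol`: `av_poly_le`, `av_plp`, `av_poly_lt`, `av_inf`.  `exists_sol`: `IsAlgClosed.exists_root`; `sol_lift`: `wp_ker` with the image of a root of `l ^ (p - 1) = A`.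
-/

set_option linter.unusedSectionVars false

namespace Pool.Agent.ASel

open Polynomial Pool.Agent.Smith Finset
open scoped Classical

noncomputable section

variable {p : ℕ} {k : Type} [Field k] [Fintype k] [hp : Fact p.Prime] [CharP k p] {ι : Type}

variable (p) in
/-- normalised cocycles -/
def Fj (A F b : k[X]) (d ϖ : RatFunc k) (Med : Finset (Pl k)) (n1 : ℕ) {n : ℕ} (W : Fin n → Kb k) :
    AddSubgroup (Finset (Fin n) → Kb k × Kb k) where
  carrier := {x | (fun I => (x I).1) ∈ Eq1 p (RatFunc k) W ∧ (fun I => (x I).2) ∈ Eq1 p (RatFunc k) W ∧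
    ∀ I, (x I).2 - cB p ((x I).2 / pk _ A) + (x I).1 * algebraMap _ _ ϖ = 0 ∧ ∀ v,
      (InU F b v → nm v (emb v (x I).2) ≤ 1) ∧ nm v (emb v (x I).1) ≤ 2 ^ n1 ∧
      (InAn p A b v → ∃ t : Lv v, t ^ p / pk _ A - t = 0 ∧
        nm v (emb v (x I).1 - algebraMap _ _ (t * algebraMap _ _ d)) ≤ 1) ∧
      (¬ InS p A F b v → v ∉ Med → nm v (emb v (x I).1) ≤ 1)}
  zero_mem' := ⟨zero_mem _, zero_mem _, fun I => ⟨by simp, fun v =>
    ⟨fun _ => by simp, by simp, fun _ => ⟨0, by simp [hp.out.ne_zero], by simp⟩, fun _ _ => by simp⟩⟩⟩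
  add_mem' {x y} hx hy := ⟨add_mem hx.1 hy.1, add_mem hx.2.1 hy.2.1, fun I => by
    obtain ⟨a1, a2⟩ := hx.2.2 I
    obtain ⟨b1, b2⟩ := hy.2.2 I
    simp only [Pi.add_apply, Prod.fst_add, Prod.snd_add, add_div, map_add]
    refine ⟨by linear_combination a1 + b1, fun v => ⟨fun h => LocA_add_le (nm_na v) ((a2 v).1 h)
      ((b2 v).1 h), LocA_add_le (nm_na v) (a2 v).2.1 (b2 v).2.1, fun h => ?_, fun h h' =>
        LocA_add_le (nm_na v) ((a2 v).2.2.2 h h') ((b2 v).2.2.2 h h')⟩⟩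
    obtain ⟨t, t1, t2⟩ := (a2 v).2.2.1 h
    obtain ⟨u, u1, u2⟩ := (b2 v).2.2.1 h
    refine ⟨t + u, by rw [Wp_add, t1, u1, add_zero], ?_⟩
    rw [add_mul, map_add, add_sub_add_comm]
    exact LocA_add_le (nm_na v) t2 u2⟩
  neg_mem' {x} hx := ⟨neg_mem hx.1, neg_mem hx.2.1, fun I => by
    obtain ⟨a1, a2⟩ := hx.2.2 I
    simp only [Pi.neg_apply, Prod.fst_neg, Prod.snd_neg, neg_div, map_neg, AbsoluteValue.map_neg]
    refine ⟨by linear_combination -a1, fun v => ⟨(a2 v).1, (a2 v).2.1, fun h => ?_, (a2 v).2.2.2⟩⟩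
    obtain ⟨t, t1, t2⟩ := (a2 v).2.2.1 h
    refine ⟨0 - t, by rw [Wp_sub, t1, zero_pow hp.out.ne_zero, zero_div, sub_zero, sub_zero], ?_⟩
    rwa [zero_sub, neg_mul, map_neg, ← neg_sub', AbsoluteValue.map_neg]⟩

variable (p) in
/-- `y` solves `℘ y = a` -/
def Sol (A : k[X]) {n : ℕ} (a y : Finset (Fin n) → Kb k) : Prop :=
  ∀ I, y I ^ p / pk _ A - y I = a I

variable (p) in
/-- the difference of `η` and the primitive attached to `y`, `y'` -/
def dif (A : k[X]) (ϖ : RatFunc k) (ε : ℤ) {n : ℕ} (x x' : Finset (Fin n) → Kb k × Kb k)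
    (η : RatFunc k) (y y' : Finset (Fin n) → Kb k) : Kb k :=
  algebraMap _ _ η - xiT p (pk (Kb k) A) ε (algebraMap _ _ ϖ) y (fun I => (x I).2) y' fun I => (x' I).2

variable (p) in
/-- `η` is a primitive of the cup product, regular outside `F b`, not of the form `Ξ (y, y')` -/
def Prim (A F b : k[X]) (ϖ : RatFunc k) (ε : ℤ) {n : ℕ} (x x' : Finset (Fin n) → Kb k × Kb k)
    (η : RatFunc k) : Prop :=
  algebraMap _ _ (η - cK p η) = thT ε (algebraMap _ _ ϖ) (fun I => (x I).1) (fun I => (x I).2)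
      (fun I => (x' I).1) (fun I => (x' I).2) ∧ (∀ v, InU F b v → av v η ≤ 1) ∧
    ∀ y y', Sol p A (fun I => (x I).1) y → Sol p A (fun I => (x' I).1) y' →
      dif p A ϖ ε x x' η y y' ≠ 0

variable (p) in
/-- the zeros of the differences -/
def Zer (A F b : k[X]) (ϖ : RatFunc k) (ε : ℤ) {n : ℕ} (x x' : Finset (Fin n) → Kb k × Kb k)
    (η : RatFunc k) : Set (Pl k) :=
  {P | InU F b P ∧ ∃ y y', Sol p A (fun I => (x I).1) y ∧ Sol p A (fun I => (x' I).1) y' ∧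
    nm P (emb P (dif p A ϖ ε x x' η y y')) < 1}

/-- a simple polar part -/
def pol (c : k[X]) (v : Pl k) : RatFunc k := pk (RatFunc k) c / pk _ (plp v)

variable (p) in
/-- the bad primes -/
def BadS (A F b : k[X]) (d ϖ : RatFunc k) (ε : ℤ) (n1 : ℕ) {K : ℕ} (vv : Fin K → Pl k) : Set (Pl k) :=
  {P | ∃ (n : ℕ) (hn : n ≤ K) (W : Fin n → Kb k) (c : Fin n → k[X]),
    (∀ i, (c i).degree < (plp (vv (i.castLE hn))).degree ∧
      W i ^ p - W i = algebraMap _ _ (pol (c i) (vv (i.castLE hn)))) ∧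
    ∃ x ∈ Fj p A F b d ϖ (univ.image vv) n1 W, ∃ x' ∈ Fj p A F b d ϖ (univ.image vv) n1 W,
      ∃ η, Prim p A F b ϖ ε x x' η ∧ P ∈ Zer p A F b ϖ ε x x' η}

variable (p) in
/-- the class of `(a', w')` lies on the line attached to `(a, w)` and the sign `s` -/
def Bd (A : k[X]) (ϖ : RatFunc k) (s : ℤ) (a w a' w' : Kb k) : Prop :=
  ∃ (κ : ZMod p) (y : RatFunc k), a' = κ.val * a + algebraMap _ _ (y ^ p / pk _ A - y) ∧
    w' = -(s * κ.val * w) - algebraMap _ _ (y ^ p / pk _ A * ϖ) ∧ (κ.val : RatFunc k) * (1 + s) * ϖ = 0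

variable (p) in
/-- good classes -/
def Gd (A : k[X]) (ϖ : RatFunc k) (a w : Kb k) : Prop :=
  (∀ y : RatFunc k, a ≠ algebraMap _ _ (y ^ p / pk _ A - y)) ∧ (ϖ = 0 → w ≠ 0)

theorem av_pol {c : k[X]} {P : Pl k} (hP : P ≠ none) (hc : c.degree < (plp P).degree) :
    (∀ v, av v (pol c P) ≤ 2) ∧ (∀ v, v ≠ P → av v (pol c P) ≤ 1) ∧ av (none : Pl k) (pol c P) < 1 ∧
      (c ≠ 0 → 1 < av P (pol c P)) := by
  obtain ⟨h1, h2, h3⟩ := Hasse_frac hP hc
  have h4 : av (none : Pl k) (pol c P) < 1 := lt_of_le_of_lt h2 (by norm_num)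
  have h5 : ∀ v, v ≠ P → av v (pol c P) ≤ 1 := fun v hv => by
    by_cases h : v = none
    · exact h ▸ h4.le
    · exact h1 v h hv
  refine ⟨fun v => ?_, h5, h4, fun h0 => ?_⟩
  · by_cases h : v = P
    · exact h ▸ h3
    · exact (h5 v h).trans one_le_two
  · change 1 < av P (algebraMap k[X] (RatFunc k) c / algebraMap k[X] _ (plp P))
    rw [map_div₀, av_plp hP, PF_one hP (not_dvd_of_degree_lt h0 hc)]
    norm_num

theorem FB_pk {A : k[X]} (hA : A ≠ 0) (M : Type) [Field M] [Algebra (RatFunc k) M] : pk M A ≠ 0 :=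
  (_root_.map_ne_zero (algebraMap (RatFunc k) M)).2 (RatFunc.algebraMap_ne_zero hA)

theorem FB_root {M : Type} [Field M] [IsAlgClosed M] {A : M} (hA : A ≠ 0) (a : M) :
    ∃ y, y ^ p / A - y = a := by
  have h : (C A * X + C (A * a) : M[X]).degree < (X ^ p : M[X]).degree := by
    rw [degree_X_pow]
    exact degree_linear_le.trans_lt (by exact_mod_cast hp.out.one_lt)
  obtain ⟨y, hy⟩ := IsAlgClosed.exists_root (X ^ p - (C A * X + C (A * a)) : M[X]) (by
    rw [degree_sub_eq_left_of_degree_lt h, degree_X_pow]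
    exact_mod_cast hp.out.ne_zero)
  simp only [IsRoot.def, eval_sub, eval_add, eval_mul, eval_pow, eval_X, eval_C] at hy
  refine ⟨y, ?_⟩
  rw [sub_eq_zero.1 hy]
  field_simp
  ring

theorem exists_sol {A : k[X]} (hA : A ≠ 0) {n : ℕ} (a : Finset (Fin n) → Kb k) :
    ∃ y, Sol p A a y := by
  choose y hy using fun I => FB_root (p := p) (FB_pk hA (Kb k)) (a I)
  exact ⟨y, hy⟩

theorem Sol.om {A : k[X]} (hA : A ≠ 0) {n : ℕ} {a y : Finset (Fin n) → Kb k} (h : Sol p A a y)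
    (ha : ∀ I, a I ∈ Om (RatFunc k) (Kb k)) (I : Finset (Fin n)) : y I ∈ Om (RatFunc k) (Kb k) :=
  om_wp (om_alg _) (FB_pk hA _) (ha I) (h I)

/-- local solutions come from global ones -/
theorem sol_lift {A : k[X]} (hA : A ≠ 0) {n : ℕ} {a : Finset (Fin n) → Kb k} {v : Pl k}
    {z : Finset (Fin n) → Lb v} (h : ∀ I, emb v (a I) = z I ^ p / pk _ A - z I) :
    ∃ y, Sol p A a y ∧ ∀ I, emb v (y I) = z I := by
  obtain ⟨y, hy⟩ := exists_sol (p := p) hA a
  have hp1 : 0 < p - 1 := Nat.sub_pos_of_lt hp.out.one_lt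
  obtain ⟨l, hl⟩ := IsAlgClosed.exists_pow_nat_eq (pk (Kb k) A) hp1
  have l0 : l ≠ 0 := fun e => FB_pk hA _ (by rw [← hl, e, zero_pow hp1.ne'])
  have key : ∀ I, ∃ m : ℕ, z I - emb v (y I) = m * emb v l := fun I =>
    wp_ker (p := p) (A := pk _ A) (by rw [← map_pow, hl, emb_pk]) ((_root_.map_ne_zero _).2 l0) (by
      rw [Wp_sub, ← h I, ← hy I, map_sub, map_div₀, map_pow, emb_pk, sub_self])
  choose m hm using key
  refine ⟨fun I => y I + m I * l, fun I => ?_, fun I => ?_⟩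
  · rw [Wp_add, hy I, mul_pow, FEq_frob, Wp_pow l, hl, ← mul_assoc,
      mul_div_cancel_right₀ _ (FB_pk hA _), sub_self, add_zero]
  · rw [map_add, map_mul, map_natCast, ← hm, add_sub_cancel]

variable [Fintype ι]

/-- the members of the family with a single pole -/
def Blk (Φ : ASF p k ι) (v : Pl k) : Submodule (ZMod p) (ι → ZMod p) where
  carrier := {e | ∃ c : k[X], c.degree < (plp v).degree ∧ hh Φ e = pol c v}
  zero_mem' := ⟨0, by simpa [bot_lt_iff_ne_bot] using (PF_monic v).ne_zero, by simp [hh, pol]⟩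
  add_mem' := by
    rintro e e' ⟨c, h1, h2⟩ ⟨c', h3, h4⟩
    exact ⟨c + c', (degree_add_le _ _).trans_lt (max_lt h1 h3), by
      rw [hh_add, h2, h4, pol, pol, pol, map_add, add_div]⟩
  smul_mem' := by
    rintro m e ⟨c, h1, h2⟩
    exact ⟨m.val • c, (degree_smul_le _ _).trans_lt h1, by
      rw [hh_smul, h2, pol, pol, map_nsmul, nsmul_eq_mul, mul_div_assoc]⟩

/-- the standing situation -/
structure Su (A F b' : k[X]) (P : Pl k) (d' : RatFunc k) {K : ℕ} (vv : Fin K → Pl k)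
    (Φ : ASF p k ι) : Prop where
  stg : Stg A F (b' * plp P) Φ
  P_na : InNa p A (b' * plp P) P
  P_not : ¬ plp P ∣ b'
  inj : Function.Injective vv
  vv_na : ∀ i, InNa p A b' (vv i)
  near : ∀ v, v ≠ P → av v (Φ.d - d') ≤ 1
  pole : ∀ v, InAn p A b' v → 1 < av v Φ.d
  hinj : ∀ e, hh Φ e = 0 → e = 0
  big : ∀ c : k[X], c.degree < (plp P).degree → (∀ v, InS p A F (b' * plp P) v → v ≠ none →
    res p v (algebraMap _ _ (pol c P) / uL v) = 0) → ∃ e, hh Φ e = pol c P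
  dim : ∀ i, pdg (vv i) ≤ Module.finrank (ZMod p) (Blk Φ (vv i)) + (fac' (F * b')).card

namespace Su

variable {A F b' : k[X]} {P : Pl k} {d' : RatFunc k} {K : ℕ} {vv : Fin K → Pl k} {Φ : ASF p k ι}
  (h : Su A F b' P d' vv Φ)
include h

theorem b'_ne : b' ≠ 0 := left_ne_zero_of_mul h.stg.b_ne

theorem cop : IsCoprime b' F := h.stg.cop.of_mul_left_left

theorem FB_dvd {v : Pl k} (hv : v ≠ none) (f : k[X]) : plp v ∣ f * plp P ↔ plp v ∣ f ∨ v = P := by
  rw [(PF_irr hv).prime.dvd_mul]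
  exact or_congr_right ⟨PF_inj hv h.P_na.1, fun e => e ▸ dvd_rfl⟩

theorem an_iff {v : Pl k} : InAn p A (b' * plp P) v ↔ InAn p A b' v :=
  ⟨fun ⟨a, b, c⟩ => ⟨a, ((h.FB_dvd a _).1 b).resolve_right fun e => h.P_na.2.2 (e ▸ c), c⟩,
    fun ⟨a, b, c⟩ => ⟨a, b.mul_right _, c⟩⟩

theorem na_iff {v : Pl k} : InNa p A (b' * plp P) v ↔ InNa p A b' v ∨ v = P :=
  ⟨fun ⟨a, b, c⟩ => ((h.FB_dvd a _).1 b).imp_left fun e => ⟨a, e, c⟩,
    fun e => e.elim (fun ⟨a, b, c⟩ => ⟨a, b.mul_right _, c⟩) fun e => e ▸ h.P_na⟩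

theorem S_iff {v : Pl k} : InS p A F (b' * plp P) v ↔ InS p A F b' v := by
  rw [inS_iff, inS_iff, h.an_iff]

theorem U_iff {v : Pl k} : InU F b' v ↔ InU F (b' * plp P) v ∨ v = P := by
  refine ⟨fun ⟨a, b⟩ => or_iff_not_imp_right.2 fun e => ⟨a, fun c => ?_⟩, fun e => e.elim
    (fun ⟨a, b⟩ => ⟨a, fun c => b ((c.mul_right _).trans (mul_assoc F b' (plp P)).dvd)⟩) fun e => ?_⟩
  · exact ((h.FB_dvd a _).1 (c.trans (mul_assoc F b' (plp P)).symm.dvd)).elim b e
  · subst e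
    exact ⟨h.P_na.1, fun c => ((PF_irr h.P_na.1).prime.dvd_mul.1 c).elim
      (fun c => not_S0_of_dvd h.stg.cop h.P_na.1 h.P_na.2.1 (Or.inr c)) h.P_not⟩

theorem an_near {v : Pl k} (hv : InAn p A (b' * plp P) v) :
    InAn p A b' v ∧ av v d' ≤ 2 ^ p ∧ av v (Φ.d - d') ≤ 1 := by
  have h1 := h.near v fun e => h.P_na.2.2 (e ▸ hv.2.2)
  refine ⟨h.an_iff.1 hv, ?_, h1⟩
  have := Hasse_sub (h.stg.d_lt v (not_S0_of_dvd h.stg.cop hv.1 hv.2.1)).le
    (h1.trans (one_le_pow₀ one_le_two))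
  rwa [sub_sub_cancel] at this

theorem card_fac : (fac' (b' * plp P)).card ≤ (fac' b').card + 1 := by
  refine (card_le_card fun v hv => ?_).trans (card_insert_le P _)
  obtain ⟨a, b⟩ := (mem_fac' h.stg.b_ne).1 hv
  exact mem_insert.2 (((h.FB_dvd a _).1 b).symm.imp_right fun c => (mem_fac' h.b'_ne).2 ⟨a, c⟩)

theorem vv_ne (i : Fin K) : vv i ≠ P := fun e => h.P_not (e ▸ (h.vv_na i).2.1)

end Su

end

end Pool.Agent.ASel
end

-- merged part: Pool.Agent.Work.MP_60d5ce_nt.AG.FHat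
section
/-!
# Bounds for the second component of a cocycle  (AS, function field side)

PLAN.  `hat_eq`: the image of `sh h w0 I` is `sh (W ^ p) w I` (`map_sh`, `sh_sh`); `alg_cKB`, `car_sh` (with `cB_frob`, `S = (Om _ _).toSubring`), `sh_mul`, `sh_add`.
`hat_le`: strong induction on `I`, with the bound `B ^ (1 + I.card * (n + 1))`: `sh_eq`, `norm_car`, `ca_bound`.  `hat_int`: the same with `cL_int`, `ca_na`, `int_iff`.
`w_le`, `w_int`: `Eq1.hat`, `hat_eq`, `alg_cK`, `root_le`, `sh_le` in both directions (`w = sh (-W) (sh W w)`), `av_uu`.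
`approx1`: `Eq1.hat` over `Lv v`, `pf_many` for each `I`, `Eq1.unhat`, `map_sh`, `sh_le`.
-/

set_option linter.unusedSectionVars false

namespace Pool.Agent.ASel

open Polynomial Pool.Agent.Smith Finset

variable {p : ℕ} {k : Type} [Field k] [Fintype k] [hp : Fact p.Prime] [CharP k p] {A : k[X]}
  {ϖ : RatFunc k} {n : ℕ}

theorem FHat_eq {v : Pl k} {A : Lv v} {h : Fin n → Lv v} {f g : Finset (Fin n) → Lv v}
    {I : Finset (Fin n)} (H : cL p v (sh h f I / A) = f I + g I) : f I - cL p v (f I / A) =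
      cL p v ((∑ J ∈ I.ssubsets, (∏ i ∈ I \ J, h i) * f J) / A) - g I := by
  rw [sh_eq, add_div, map_add] at H
  linear_combination -H

theorem FHat_prod {v : Pl k} {B : ℝ} (hB : 1 ≤ B) {h : Fin n → Lv v} (hh : ∀ i, ‖h i‖ ≤ B)
    (J : Finset (Fin n)) : ‖∏ i ∈ J, h i‖ ≤ B ^ n := by
  rw [norm_prod]
  refine (prod_le_prod (fun i _ => norm_nonneg _) fun i _ => hh i).trans
    ((prod_const B).trans_le (pow_le_pow_right₀ hB ?_))
  simpa using card_le_univ J

theorem FHat_car {v : Pl k} {B : ℝ} (hB : 1 ≤ B) {x : Lv v} (hx : ‖uL v * x‖ ≤ B) :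
    ‖uL v * cL p v x‖ ≤ B := by
  refine not_lt.1 fun h => ?_
  have h1 : ‖uL v * cL p v x‖ ^ p ≤ _ := norm_car v x
  exact not_lt.2 (h1.trans hx) (h.trans_le (le_self_pow₀ (hB.trans h.le) hp.out.ne_zero))

theorem FHat_pk (M : Type) [Field M] [Algebra (RatFunc k) M] (f : k[X]) :
    algebraMap (RatFunc k) M (pk (RatFunc k) f) = pk M f := rfl

theorem hat_le {v : Pl k} {A : Lv v} (hA : A ≠ 0) {B : ℝ} (hB : 1 ≤ B) (hAB : ‖A‖⁻¹ ≤ B)
    {h : Fin n → Lv v} (hh : ∀ i, ‖h i‖ ≤ B) {f g : Finset (Fin n) → Lv v}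
    (hg : ∀ I, ‖uL v * g I‖ ≤ B) (H : ∀ I, cL p v (sh h f I / A) = f I + g I) (I : Finset (Fin n)) :
    ‖uL v * f I‖ ≤ B ^ (n + 1) ^ 2 := by
  have key : ∀ I : Finset (Fin n), ‖uL v * f I‖ ≤ B ^ (1 + I.card * (n + 1)) := fun I => by
    induction I using Finset.strongInduction with
    | H I ih =>
      have h1 : 1 ≤ B ^ (1 + I.card * (n + 1)) := one_le_pow₀ hB
      have h2 : B ≤ B ^ (1 + I.card * (n + 1)) := le_self_pow₀ hB (by omega)
      refine ca_bound (p := p) hA h1 (hAB.trans h2) ?_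
      rw [FHat_eq (H I), mul_sub]
      refine PF_sub (FHat_car h1 ?_) ((hg I).trans h2)
      rw [sum_div, mul_sum]
      refine IsUltrametricDist.norm_sum_le_of_forall_le_of_nonneg (by positivity) fun J hJ => ?_
      have hJ' := mem_ssubsets.1 hJ
      have h3 : J.card + 1 ≤ I.card := card_lt_card hJ'
      rw [show uL v * ((∏ i ∈ I \ J, h i) * f J / A) = (∏ i ∈ I \ J, h i) * (uL v * f J) * A⁻¹ by
        ring, norm_mul, norm_mul, norm_inv]
      refine (mul_le_mul (mul_le_mul (FHat_prod hB hh _) (ih J hJ') (norm_nonneg _) (by positivity))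
        hAB (by positivity) (by positivity)).trans ?_
      rw [← pow_add, ← pow_succ]
      refine pow_le_pow_right₀ hB ?_
      nlinarith [Nat.mul_le_mul_right (n + 1) h3]
  refine (key I).trans (pow_le_pow_right₀ hB ?_)
  have h3 : I.card ≤ n := by simpa using card_le_univ I
  nlinarith [Nat.mul_le_mul_right (n + 1) h3]

theorem hat_int {v : Pl k} (hv : v ≠ none) {A : Lv v} (hA : ‖A‖ = 1) (hn : ∀ t : Lv v, t ^ (p - 1) ≠ A)
    {h : Fin n → Lv v} (hh : ∀ i, ‖h i‖ ≤ 1) {f g : Finset (Fin n) → Lv v}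
    (hg : ∀ I, ‖g I‖ ≤ 1) (H : ∀ I, cL p v (sh h f I / A) = f I + g I) (I : Finset (Fin n)) :
    ‖f I‖ ≤ 1 := by
  induction I using Finset.strongInduction with
  | H I ih =>
    refine (int_iff hv _).1 (ca_na (p := p) hA hn ((int_iff hv _).2 ?_))
    rw [FHat_eq (H I)]
    refine PF_sub (cL_int hv ?_) (hg I)
    rw [norm_div, hA, div_one]
    refine IsUltrametricDist.norm_sum_le_of_forall_le_of_nonneg zero_le_one fun J hJ => ?_
    rw [norm_mul]
    exact mul_le_one₀ ((FHat_prod le_rfl hh _).trans_eq (one_pow n)) (norm_nonneg _)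
      (ih J (mem_ssubsets.1 hJ))

theorem FHat_back {M : Type} [Field M] (W : Fin n → M) (f : Finset (Fin n) → M) :
    sh (-W) (sh W f) = f := by
  rw [sh_sh, neg_add_cancel, sh_zero]

theorem FHat_emb (v : Pl k) (c : Fin n → Kb k) (f : Finset (Fin n) → Kb k) (I : Finset (Fin n)) :
    emb v (sh c f I) = sh (fun i => emb v (c i)) (fun J => emb v (f J)) I :=
  map_sh (emb v : Kb k →+* Lb v) c f I

theorem approx1 {W : Fin n → Kb k} (hW : ASr p (RatFunc k) W) (T : Finset (Pl k))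
    (y : ∀ v : Pl k, Finset (Fin n) → Lb v)
    (hy : ∀ v ∈ T, y v ∈ Eq1 p (Lv v) fun i => emb v (W i)) :
    ∃ Y ∈ Eq1 p (RatFunc k) W, ∀ (v : Pl k) (B : ℝ), 1 ≤ B → (∀ i, nm v (emb v (W i)) ≤ B) → ∀ I,
      (v ∈ T → nm v (y v I - emb v (Y I)) ≤ B ^ n) ∧ (v ∉ T → nm v (emb v (Y I)) ≤ B ^ n) := by
  have h1 : ∀ v : Pl k, ∃ y0 : Finset (Fin n) → Lv v, v ∈ T →
      ∀ I, algebraMap _ (Lb v) (y0 I) = sh (fun i => emb v (W i)) (y v) I := fun v => by
    by_cases hv : v ∈ T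
    · exact (Eq1.hat (hW.emb v) (hy v hv)).imp fun _ h _ => h
    · exact ⟨0, fun h => absurd h hv⟩
  choose y0 h0 using h1
  choose Y0 h2 h3 _ using fun I => pf_many T fun v => y0 v I
  refine ⟨_, Eq1.unhat hW Y0, fun v B hB hb I => ?_⟩
  have h4 : ∀ i, nm v ((-fun i => emb v (W i)) i) ≤ B := fun i => by
    rw [Pi.neg_apply, (nm v).map_neg]
    exact hb i
  have e : emb v (sh (-W) (fun I => algebraMap (RatFunc k) (Kb k) (Y0 I)) I) =
      sh (-fun i => emb v (W i)) (fun J => algebraMap (Lv v) (Lb v) (algebraMap _ _ (Y0 J))) I := by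
    rw [FHat_emb]
    simp only [Pi.neg_apply, map_neg, emb_algK]
    rfl
  rw [e]
  refine ⟨fun hv => ?_, fun hv => ?_⟩
  · rw [← congrFun (FHat_back (fun i => emb v (W i)) (y v)) I, ← funext (h0 v hv), ← Pi.sub_apply,
      ← sh_sub, ← mul_one (B ^ n)]
    refine sh_le (nm_na v) hB h4 (fun J => ?_) I
    rw [Pi.sub_apply, ← map_sub, nm_alg]
    exact h2 J v hv
  · rw [← mul_one (B ^ n)]
    refine sh_le (nm_na v) hB h4 (fun J => ?_) I
    rw [nm_alg, norm_alg]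
    exact h3 J v hv

variable {W : Fin n → Kb k} {h : Fin n → RatFunc k}
  (hW : ∀ i, W i ^ p - W i = algebraMap _ _ (h i)) {a w : Finset (Fin n) → Kb k}
  (ha : a ∈ Eq1 p (RatFunc k) W) (hw : w ∈ Eq1 p (RatFunc k) W)
  (hc : ∀ I, w I - cB p (w I / pk _ A) + a I * algebraMap _ _ ϖ = 0)
include hW ha hw hc

theorem hat_eq {a0 w0 : Finset (Fin n) → RatFunc k} (ha0 : ∀ I, algebraMap _ _ (a0 I) = sh W a I)
    (hw0 : ∀ I, algebraMap _ _ (w0 I) = sh W w I) (I : Finset (Fin n)) :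
    cK p (sh h w0 I / pk _ A) = w0 I + a0 I * ϖ := by
  have hs : ASr p (RatFunc k) W := fun i => ⟨h i, hW i⟩
  have e1 : algebraMap _ (Kb k) (sh h w0 I) = sh (fun i => W i ^ p) w I := by
    rw [map_sh, funext hw0, sh_sh]
    exact congrArg (sh · w I) (funext fun i => by rw [Pi.add_apply, ← hW, sub_add_cancel])
  have e2 : (fun J => cB p (w J * (pk (Kb k) A)⁻¹)) = w + fun J => a J * algebraMap _ _ ϖ :=
    funext fun J => by
      rw [← div_eq_mul_inv, Pi.add_apply]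
      linear_combination -hc J
  have hA : pk (Kb k) A ∈ Om (RatFunc k) (Kb k) := om_alg _
  refine (algebraMap _ (Kb k)).injective ?_
  rw [alg_cKB, map_div₀, FHat_pk, e1, div_eq_mul_inv, ← sh_mul,
    car_sh (cB p) (Om (RatFunc k) (Kb k)).toSubring cB_frob hs.mem
      fun J => (Om (RatFunc k) (Kb k)).mul_mem (hw.1 J) (inv_mem (hA : pk (Kb k) A ∈ _)), e2, sh_add, Pi.add_apply, sh_mul, map_add,
    map_mul, ha0, hw0]

theorem FHat_loc (v : Pl k) {B : ℝ} (hB : 1 ≤ B) (hh : ∀ i, av v (h i) ≤ B)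
    (h1 : ∀ I, nm v (emb v (a I)) ≤ B) : ∃ f g : Finset (Fin n) → Lv v,
      (∀ I, ‖g I‖ ≤ B ^ n * B) ∧
      (∀ I, cL p v (sh (fun i => algebraMap _ (Lv v) (h i)) f I / pk (Lv v) A) =
        f I + g I * algebraMap _ _ ϖ) ∧
      ∀ C : ℝ, (∀ I, ‖f I‖ ≤ C) → ∀ I, nm v (emb v (w I)) ≤ B ^ n * C := by
  have hs : ASr p (RatFunc k) W := fun i => ⟨h i, hW i⟩
  obtain ⟨a0, ha0⟩ := Eq1.hat hs ha
  obtain ⟨w0, hw0⟩ := Eq1.hat hs hw
  have hb : ∀ i, nm v (emb v (W i)) ≤ B := fun i => root_le (hW i) hB (hh i)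
  refine ⟨fun I => algebraMap _ _ (w0 I), fun I => algebraMap _ _ (a0 I), fun I => ?_, fun I => ?_,
    fun C hC I => ?_⟩
  · rw [← nm_alg, ← emb_algK, ha0, FHat_emb]
    exact sh_le (nm_na v) hB hb h1 I
  · rw [← map_sh, ← FHat_pk, ← map_div₀, ← alg_cK, hat_eq hW ha hw hc ha0 hw0, map_add, map_mul]
  · rw [← congrFun (FHat_back W w) I, ← funext hw0, FHat_emb]
    refine sh_le (nm_na v) hB (fun i => ?_) (fun J => ?_) I
    · rw [Pi.neg_apply, map_neg, (nm v).map_neg]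
      exact hb i
    · rw [emb_algK, nm_alg]
      exact hC J

theorem w_le (hA : A ≠ 0) {v : Pl k} {B : ℝ} (hB : 2 ≤ B) (hAB : ‖pk (Lv v) A‖⁻¹ ≤ B)
    (hh : ∀ i, av v (h i) ≤ B) (hϖ : av v ϖ ≤ B) (h1 : ∀ I, nm v (emb v (a I)) ≤ B)
    (I : Finset (Fin n)) : nm v (emb v (w I)) ≤ B ^ (n + 3) ^ 3 := by
  have hB1 : 1 ≤ B := one_le_two.trans hB
  obtain ⟨f, g, h2, h3, h4⟩ := FHat_loc hW ha hw hc v hB1 hh h1
  have u1 : ‖uL v‖ ≤ B ∧ ‖uL v‖⁻¹ ≤ B := by
    rw [Wp_uL]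
    split_ifs
    · exact ⟨hB, by linarith⟩
    · exact ⟨by linarith, by rwa [inv_inv]⟩
  have hA' : pk (Lv v) A ≠ 0 := fun e => hA (RatFunc.algebraMap_injective k (by
    rw [map_zero]
    exact (algebraMap (RatFunc k) (Lv v)).injective (e.trans (map_zero _).symm)))
  have h5 : B ≤ B ^ (n + 3) := le_self_pow₀ hB1 (by omega)
  have h6 := hat_le (p := p) hA' (hB1.trans h5) (hAB.trans h5)
    (h := fun i => algebraMap _ (Lv v) (h i)) (fun i => ((norm_alg v _).trans_le (hh i)).trans h5)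
    (g := fun I => g I * algebraMap _ _ ϖ) (fun I => by
      rw [norm_mul, norm_mul, norm_alg]
      refine (mul_le_mul u1.1 (mul_le_mul (h2 I) hϖ ((av v).nonneg _) (by positivity))
        (by positivity) (by positivity)).trans_eq ?_
      ring) h3
  refine (h4 (B * (B ^ (n + 3)) ^ (n + 1) ^ 2) (fun J => ?_) I).trans ?_
  · rw [← inv_mul_cancel_left₀ (Wp_uL0 v) (f J), norm_mul, norm_inv]
    exact mul_le_mul u1.2 (h6 J) (norm_nonneg _) (by positivity)
  · rw [← pow_mul, ← pow_succ', ← pow_add]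
    refine pow_le_pow_right₀ hB1 ?_
    nlinarith [Nat.zero_le (n ^ 2), Nat.zero_le n]

theorem w_int {v : Pl k} (hv : v ≠ none) (hA : ‖pk (Lv v) A‖ = 1)
    (hn : ∀ t : Lv v, t ^ (p - 1) ≠ pk (Lv v) A) (hh : ∀ i, av v (h i) ≤ 1) (hϖ : av v ϖ ≤ 1)
    (h1 : ∀ I, nm v (emb v (a I)) ≤ 1) (I : Finset (Fin n)) : nm v (emb v (w I)) ≤ 1 := by
  obtain ⟨f, g, h2, h3, h4⟩ := FHat_loc hW ha hw hc v le_rfl hh h1
  have h6 := hat_int (p := p) hv hA hn (h := fun i => algebraMap _ (Lv v) (h i))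
    (fun i => (norm_alg v _).trans_le (hh i)) (g := fun I => g I * algebraMap _ _ ϖ) (fun I => by
      rw [norm_mul, norm_alg]
      exact mul_le_one₀ ((h2 I).trans_eq (by simp)) ((av v).nonneg _) hϖ) h3
  simpa using h4 1 h6 I

end Pool.Agent.ASel
end

-- merged part: Pool.Agent.Work.MP_60d5ce_nt.AG.FNorm
section
/-!
# Normalisation of cocycles  (AS, function field side)

PLAN.  `D1_eq_zero` describes the cocycles.  For `v ∈ Sf` let `y v I` be the image of the element `y` of `LtD.rel0`, `LtD.rel1` for `lc v (x I)`; every family with values in `Lv v` is in `Eq1` there, because the `emb v (W i)` are in `Lv v`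
(so `χ = 0`; `sh_zero`).  For `v ∈ Nf` let `y v I = (x I).2.2 v`.  `approx1` with `T = Sf ∪ Nf` gives `Y`; `root_le` bounds `W` by `2` everywhere and by `1` outside `Med`.
`a - ℘ Y = (a - ℘ y) + ℘ (y - Y)`; `nm (℘ z) ≤ max (nm z ^ p / nm A) (nm z)`; `‖A‖⁻¹ ≤ 2 ^ natDegree A` at every place (`av_poly_eq`, `av_inf`), `nm_pk_one` outside `InS0`; take `n1 = n0 + natDegree A + K * p + p`.
A solution `t` of `t ^ p / A = t` is integral (`wp_int`).  The new second component is regular at `InU F b` directly, and at the places of `InU F b'` that divide `b` (they are `InNa` and not in `Med`) by `w_int`, `na_root`.  Cocycle: `cob_coc`.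
-/

set_option linter.unusedSectionVars false

namespace Pool.Agent.ASel

open Polynomial Pool.Agent.Smith Finset

variable {p : ℕ} {k : Type} [Field k] [Fintype k] [hp : Fact p.Prime] [CharP k p]
  {A F : k[X]} {ϖ : RatFunc k} {ε : ℤ}

theorem FNorm_eq1 {F M : Type} [Field F] [Field M] [Algebra F M] {n : ℕ} {W : Fin n → M}
    (h : ∀ i, ∃ s : F, algebraMap F M s = W i) (f : Finset (Fin n) → F) :
    (fun I => algebraMap F M (f I)) ∈ Eq1 p F W :=
  ⟨fun _ => om_alg _, fun σ χ hχ I => by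
    have e : (fun i => -((χ i).val : M)) = 0 := funext fun i => by
      obtain ⟨s, hs⟩ := h i
      have := hχ i
      rw [← hs, σ.commutes, left_eq_add] at this
      rw [this, neg_zero, Pi.zero_apply]
    rw [e, sh_zero, σ.commutes]⟩

theorem FNorm_sub {v : Pl k} {x y : Lb v} {B : ℝ} (hx : nm v x ≤ B) (hy : nm v y ≤ B) :
    nm v (x - y) ≤ B := by
  rw [sub_eq_add_neg]
  exact LocA_add_le (nm_na v) hx (by rwa [AbsoluteValue.map_neg])

theorem FNorm_wp {v : Pl k} {a z : Lb v} {B C : ℝ} (hB : 1 ≤ B) (hC : 1 ≤ C) (ha : (nm v a)⁻¹ ≤ C)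
    (hz : nm v z ≤ B) : nm v (z ^ p / a) ≤ B ^ p * C ∧ nm v (z ^ p / a - z) ≤ B ^ p * C := by
  have h : nm v (z ^ p / a) ≤ B ^ p * C := by
    rw [map_div₀, map_pow, div_eq_mul_inv]
    exact mul_le_mul (pow_le_pow_left₀ ((nm v).nonneg _) hz p) ha (inv_nonneg.2 ((nm v).nonneg _))
      (by positivity)
  exact ⟨h, FNorm_sub h (hz.trans ((le_self_pow₀ hB hp.out.ne_zero).trans
    (le_mul_of_one_le_right (by positivity) hC)))⟩

theorem FNorm_inv (hA : A ≠ 0) (v : Pl k) : (nm v (pk (Lb v) A))⁻¹ ≤ 2 ^ A.natDegree := by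
  rw [show nm v (pk (Lb v) A) = _ from nm_algK v _]
  by_cases hv : v = none
  · rw [hv, av_inf hA]
    exact (inv_le_one_of_one_le₀ (one_le_pow₀ one_le_two)).trans (one_le_pow₀ one_le_two)
  rw [av_poly_eq hv hA, inv_pow, inv_inv]
  refine pow_le_pow_right₀ one_le_two ?_
  have := natDegree_le_of_dvd (pow_multiplicity_dvd (plp v) A) hA
  rw [natDegree_pow] at this
  exact (Nat.le_mul_of_pos_right _ (PF_irr hv).natDegree_pos).trans this

theorem FNorm_cob (hT : Ty p A F ϖ ε) {y : Kb k} (hy : y ∈ Om (RatFunc k) (Kb k)) :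
    -(y ^ p / pk _ A * algebraMap _ _ ϖ) - cB p (-(y ^ p / pk _ A * algebraMap _ _ ϖ) / pk _ A) +
      (y ^ p / pk _ A - y) * algebraMap _ _ ϖ = 0 := by
  refine cob_coc (cB p) _ cB_frob (om_alg _) ((_root_.map_ne_zero (algebraMap (RatFunc k) _)).2
    (PF_ne (ne_zero_of_dvd_ne_zero hT.F_ne hT.dvd))) (om_alg _) ?_ (by rw [← map_zsmul, hT.eps]) hy
  have := alg_cKB (p := p) (ϖ / pk _ A ^ 2)
  rw [hT.car, map_div₀, map_pow] at this
  exact this.symm

theorem exists_norm (hT : Ty p A F ϖ ε) (n0 K : ℕ) : ∃ n1 : ℕ, ∀ {b b' : k[X]} {d d' : RatFunc k}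
    (D : LtD p A F b n0 d ϖ ε) (Med : Finset (Pl k)) {n : ℕ} {W : Fin n → Kb k} {h : Fin n → RatFunc k}
    {x : Finset (Fin n) → W1 k}, b ≠ 0 → IsCoprime b F → b' ∣ b →
    (∀ v, InAn p A b v → InAn p A b' v ∧ av v d' ≤ 2 ^ p ∧ av v (d - d') ≤ 1) →
    (∀ v ∈ Med, InNa p A b' v) → n ≤ K → (∀ i, W i ^ p - W i = algebraMap _ _ (h i)) →
    (∀ i v, av v (h i) ≤ 2 ∧ (v ∉ Med → av v (h i) ≤ 1)) →
    (∀ i v, InS p A F b v → ∃ s : Lv v, algebraMap _ _ s = emb v (W i)) →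
    Cn p A F b W x → (∀ I, D1 D (x I) = 0) →
    ∃ Y ∈ Eq1 p (RatFunc k) W, (∀ v, InU F b v → ∀ I, nm v (emb v (Y I)) ≤ 1) ∧
      (fun I => ((x I).1 - (Y I ^ p / pk _ A - Y I),
        (x I).2.1 + Y I ^ p / pk _ A * algebraMap _ _ ϖ)) ∈ Fj p A F b' d' ϖ Med n1 W ∧
      ∀ v, InNa p A b v → v ∉ Med → ∀ I, nm v ((x I).2.2 v - emb v (Y I)) ≤ 1 := by
  classical
  refine ⟨n0 + A.natDegree + K * p + p, fun {b b' d d'} D Med {n W h x} hb hc hb' han hM hn hW hh hs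
    hx h0 => ?_⟩
  have hA := ne_zero_of_dvd_ne_zero hT.F_ne hT.dvd
  have c := fun I => (D1_eq_zero (hx.spl I)).1 (h0 I)
  have nS : ∀ v, InAn p A b v → ¬ InS0 F v := fun v hv => not_S0_of_dvd hc hv.1 hv.2.1
  have L : ∀ v, ∃ y ∈ Eq1 p (Lv v) fun i => emb v (W i),
      (InS0 F v → ∀ I, nm v (emb v (x I).1 - (y I ^ p / pk _ A - y I)) ≤ 2 ^ n0) ∧
      (InAn p A b v → ∀ I, ∃ t : Lv v, t ^ p / pk _ A - t = 0 ∧ nm v (emb v (x I).1 -
        (y I ^ p / pk _ A - y I + algebraMap _ _ (t * algebraMap _ _ d))) ≤ 1) ∧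
      (InNa p A b v → ∀ I, y I = (x I).2.2 v) := fun v => by
    by_cases h1 : InS0 F v
    · choose y hy using fun I => D.rel0 v h1 _ ((c I).2.1 v (Or.inl h1))
      refine ⟨_, FNorm_eq1 (fun i => hs i v (Or.inl h1)) y, fun _ I => ?_,
        fun h => (nS v h h1).elim, fun h => (h.not_S hc (Or.inl h1)).elim⟩
      rw [← ((hx.spl I).2.2 v (Or.inl h1)).1, ← alg_pk, ← map_pow, ← map_div₀, ← map_sub, ← map_sub,
        nm_alg]
      exact hy I
    by_cases h2 : InAn p A b v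
    · have h3 := inS_iff.2 (Or.inr h2 : InS0 F v ∨ _)
      choose y t ht hy using fun I => D.rel1 v h2 _ ((c I).2.1 v h3)
      refine ⟨_, FNorm_eq1 (fun i => hs i v h3) y, fun h => (h1 h).elim, fun _ I => ⟨t I, ht I, ?_⟩,
        fun h => (h.not_S hc h3).elim⟩
      rw [← ((hx.spl I).2.2 v h3).1, ← alg_pk, ← map_pow, ← map_div₀, ← map_sub, ← map_add,
        ← map_sub, nm_alg]
      exact hy I
    · exact ⟨_, hx.y_eq v, fun h => (h1 h).elim, fun h => (h2 h).elim, fun _ _ => rfl⟩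
  choose y y1 y2 y3 y4 using L
  obtain ⟨Y, hY, H⟩ := approx1 (fun i => ⟨_, hW i⟩) (Sf p A F b ∪ Nf p A b) y fun v _ => y1 v
  have mT : ∀ v, v ∈ Sf p A F b ∪ Nf p A b ↔ InS p A F b v ∨ InNa p A b v := fun v => by
    rw [mem_union, mem_Sf hT.F_ne hb, mem_Nf hb]
  have nM : ∀ v, ¬ InNa p A b v → v ∉ Med := fun v h hv =>
    h ⟨(hM v hv).1, (hM v hv).2.1.trans hb', (hM v hv).2.2⟩
  have H1 := fun v hv I => one_pow n (M := ℝ) ▸
    H v 1 le_rfl (fun i => root_le (hW i) le_rfl ((hh i v).2 hv)) I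
  have HS : ∀ v, InS p A F b v → ∀ I, nm v (y v I - emb v (Y I)) ≤ 1 := fun v hv I =>
    (H1 v (nM v fun h => h.not_S hc hv) I).1 ((mT v).2 (Or.inl hv))
  have HU : ∀ v, InU F b v → ∀ I, nm v (emb v (Y I)) ≤ 1 := fun v hv I =>
    (H1 v (nM v (inU_iff.1 hv).2) I).2 fun h => ((mT v).1 h).elim (inU_iff.1 hv).1 (inU_iff.1 hv).2
  have w1 : ∀ v, ¬ InS0 F v → ∀ {z : Lb v}, nm v z ≤ 1 →
      nm v (z ^ p / pk _ A) ≤ 1 ∧ nm v (z ^ p / pk _ A - z) ≤ 1 := fun v hv z hz => by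
    simpa using FNorm_wp (p := p) le_rfl le_rfl (by rw [nm_pk_one hT.dvd hv, inv_one]) hz
  have e1 : ∀ v I, emb v ((x I).1 - (Y I ^ p / pk _ A - Y I)) =
      emb v (x I).1 - (y v I ^ p / pk _ A - y v I) +
        ((y v I - emb v (Y I)) ^ p / pk _ A - (y v I - emb v (Y I))) := fun v I => by
    rw [Wp_sub, map_sub, map_sub, map_div₀, map_pow, emb_pk, sub_add_sub_cancel]
  have e2 : ∀ v, InNa p A b v → ∀ I, emb v ((x I).1 - (Y I ^ p / pk _ A - Y I)) =
      (y v I - emb v (Y I)) ^ p / pk _ A - (y v I - emb v (Y I)) := fun v hv I => by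
    rw [e1, (c I).2.2 v hv, y4 v hv, sub_self, zero_add]
  have b1 : ∀ v, ¬ InS p A F b v → v ∉ Med → ∀ I,
      nm v (emb v ((x I).1 - (Y I ^ p / pk _ A - Y I))) ≤ 1 := fun v hv hm I => by
    by_cases h : InNa p A b v
    · exact e2 v h I ▸ (w1 v (fun h => hv (Or.inl h)) ((H1 v hm I).1 ((mT v).2 (Or.inr h)))).2
    · have hu := inU_iff.2 ⟨hv, h⟩
      rw [map_sub (emb v), map_sub (emb v), map_div₀ (emb v), map_pow (emb v), emb_pk]
      exact FNorm_sub (hx.int v hu I).1 (w1 v (fun h => hv (Or.inl h)) (HU v hu I)).2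
  have b2 : ∀ v, InAn p A b v → ∀ I, ∃ t : Lv v, t ^ p / pk _ A - t = 0 ∧ ‖t‖ ≤ 1 ∧
      nm v (emb v ((x I).1 - (Y I ^ p / pk _ A - Y I)) -
        algebraMap _ _ (t * algebraMap _ _ d')) ≤ 1 := fun v hv I => by
    obtain ⟨t, t1, t2⟩ := y3 v hv I
    have t3 : ‖t‖ ≤ 1 := wp_int (p := p) (Wp_na v) (norm_pk_one hT.dvd (nS v hv))
      (by rw [t1, map_zero]; exact zero_le_one)
    have t4 : nm v (algebraMap (Lv v) _ (t * algebraMap _ _ (d - d'))) ≤ 1 := by
      rw [nm_alg, norm_mul, norm_alg]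
      exact mul_le_one₀ t3 ((av v).nonneg _) (han v hv).2.2
    refine ⟨t, t1, t3, le_of_eq_of_le (congrArg _ ?_) (LocA_add_le (nm_na v) (LocA_add_le (nm_na v)
      t2 t4) (w1 v (nS v hv) (HS v (inS_iff.2 (Or.inr hv)) I)).2)⟩
    rw [e1, map_sub, mul_sub, map_sub]
    ring
  have nb : ∀ v, ¬ InS p A F b' v → ¬ InS p A F b v := fun v hv h =>
    hv (inS_iff.2 ((inS_iff.1 h).imp_right fun h => (han v h).1))
  have ph := Eq1.phi hY (algebraMap k[X] _ A)
  have m1 := sub_mem hx.a_eq (sub_mem ph hY)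
  have m2 := add_mem hx.w_eq (Eq1.mul_alg ph ϖ)
  have cc : ∀ I, (x I).2.1 + Y I ^ p / pk _ A * algebraMap _ _ ϖ -
      cB p (((x I).2.1 + Y I ^ p / pk _ A * algebraMap _ _ ϖ) / pk _ A) +
        ((x I).1 - (Y I ^ p / pk _ A - Y I)) * algebraMap _ _ ϖ = 0 := fun I => by
    have a2 := FNorm_cob hT (hY.1 I)
    have a3 := (c I).1
    rw [neg_div, map_neg] at a2
    rw [d1B] at a3
    rw [add_div, map_add]
    linear_combination a3 - a2
  have pw : ∀ m, m ≤ n0 + A.natDegree + K * p + p → (2 : ℝ) ^ m ≤ 2 ^ (n0 + A.natDegree + K * p + p) :=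
    fun m => pow_le_pow_right₀ one_le_two
  refine ⟨Y, hY, HU, ⟨m1, m2, fun I => ⟨cc I, fun v => ⟨fun hv => ?_, ?_, fun hv => ?_,
    fun hv hm => b1 v (nb v hv) hm I⟩⟩⟩, fun v hv hm I =>
      y4 v hv I ▸ (H1 v hm I).1 ((mT v).2 (Or.inr hv))⟩
  · obtain ⟨a1, a2⟩ := (inU_iff (p := p) (A := A)).1 hv
    have a3 : v ∉ Med := fun h => a2 (hM v h)
    have a4 : ¬ InS0 F v := fun h => a1 (Or.inl h)
    by_cases h : InNa p A b v
    · exact w_int hW m1 m2 cc hv.1 (norm_pk_one hT.dvd a4) (na_root hT.dvd hc h)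
        (fun i => (hh i v).2 a3) (hT.int v a4) (b1 v (nb v a1) a3) I
    · have hu := inU_iff.2 ⟨nb v a1, h⟩
      rw [map_add, map_mul, map_div₀, map_pow, emb_pk, emb_algK]
      refine LocA_add_le (nm_na v) (hx.int v hu I).2 ?_
      rw [map_mul, nm_alg, norm_alg]
      exact mul_le_one₀ (w1 v a4 (HU v hu I)).1 ((av v).nonneg _) (hT.int v a4)
  · by_cases h1 : InS0 F v
    · refine e1 v I ▸ LocA_add_le (nm_na v) ((y2 v h1 I).trans (pw _ (by omega))) ?_
      refine (FNorm_wp le_rfl (one_le_pow₀ one_le_two) (FNorm_inv hA v)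
        (HS v (Or.inl h1) I)).2.trans ?_
      rw [one_pow, one_mul]
      exact pw _ (by omega)
    by_cases h2 : InAn p A b v
    · obtain ⟨t, -, t2, t3⟩ := b2 v h2 I
      rw [← sub_add_cancel (emb v _) (algebraMap (Lv v) _ (t * algebraMap _ _ d'))]
      refine LocA_add_le (nm_na v) (t3.trans (one_le_pow₀ one_le_two)) ?_
      rw [nm_alg, norm_mul, norm_alg]
      exact (mul_le_of_le_one_left ((av v).nonneg _) t2).trans ((han v h2).2.1.trans
        (pw _ (by omega)))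
    have h3 : ¬ InS p A F b v := fun h => (inS_iff.1 h).elim h1 h2
    by_cases h4 : InNa p A b v
    · refine e2 v h4 I ▸ (FNorm_wp (one_le_pow₀ one_le_two) le_rfl
        (by rw [nm_pk_one hT.dvd h1, inv_one]) ((H v 2 one_le_two (fun i =>
          root_le (hW i) one_le_two (hh i v).1) I).1 ((mT v).2 (Or.inr h4)))).2.trans ?_
      rw [mul_one, ← pow_mul]
      exact pw _ (by nlinarith [Nat.mul_le_mul_right p hn])
    · exact (b1 v h3 (nM v h4) I).trans (one_le_pow₀ one_le_two)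
  · obtain ⟨t, t1, -, t3⟩ := b2 v ⟨hv.1, hv.2.1.trans hb', hv.2.2⟩ I
    exact ⟨t, t1, t3⟩

end Pool.Agent.ASel
end

-- merged part: Pool.Agent.Work.MP_60d5ce_nt.AG.FNd
section
/-!
# Nondegeneracy of the triple symbol  (AS, function field side)

PLAN.  `as_zero`: a pole of `y` gives `av v (y ^ p - y) = av v y ^ p ≥ 2 ^ p` (`wp_norm` with `A = 1`, `av_disc`), so `y` is a polynomial (`liouville`), constant by `av_inf`, and a nonzero constant has `av none = 1`.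
`indep_pol`: `av_pol`, `as_zero`, then look at the place `vv i`.  `sah_fix`: `sah` with `H = ⊤`: `wp_ker`; the commutator of two automorphisms fixes `l` and the `W i` (`exists_rho`); `move_root`; `om_fix`, `om_wp`.
`nondeg`: let `l ^ (p - 1) = A`, `Γ` the group of the automorphisms that fix `l` and all `W i`; it fixes `a, w, a', w'` (`sh_zero`), and `σ y I - y I ∈ ℕ * l` (`wp_ker`).  `V = {(σ y - y, σ y' - y') | σ ∈ Γ}` is an additive subgroup (`Γ` fixes these differences).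
It is stable under `sh (single i 1)`: take `γ` from `as_surj` with `g = single i 1` and `γ' = γ ^ (p - 1)`; `γ'` fixes `l`, `γ' (W j) = W j - single i 1 j`, so `γ' a = sh (single i 1) a`, `γ' y - sh (single i 1) y` has values in `ℕ * l`, and for `σ' ∈ Γ`,
`σ = γ'⁻¹ σ' γ' ∈ Γ` has `σ y - y = γ' (σ y - y) = sh (single i 1) (σ' y - y)`.  `dl_mem`, `map_xiT`, `xi_dl` give `τ σ * Ω' + s * τ' σ * Ω = 0` on `Γ`, `τ σ = σ (y ∅) - y ∅`, `Ω = w ∅ + φ (y ∅) ϖ`, `s = ε (-1) ^ n`.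
By `sah_fix` some `τ σ1 ≠ 0`; `κ = τ' σ1 / τ σ1 ∈ ZMod p`, `Ω' = -s κ Ω`, `Ω ≠ 0` (`Eq1.lower`: the values at `∅` are in `k(t)`), so `y' ∅ - κ y ∅` is fixed by `Γ`; `sah_fix` gives `y' ∅ - κ y ∅ = y1 + m l`.
Apply `σ1` to `w' ∅ + s κ w ∅ + φ y1 ϖ + m l ϖ = - κ (1 + s) φ (y ∅) ϖ`, then an automorphism that moves `l`.
-/

set_option linter.unusedSectionVars false

namespace Pool.Agent.ASel

open Polynomial Pool.Agent.Smith Finset

variable {p : ℕ} {k : Type} [Field k] [Fintype k] [hp : Fact p.Prime] [CharP k p]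
  {A F : k[X]} {ϖ : RatFunc k} {ε : ℤ} {n : ℕ}

theorem as_zero {g y : RatFunc k} (h1 : ∀ v, av v g ≤ 2) (h2 : av (none : Pl k) g < 1)
    (h : y ^ p - y = g) : g = 0 := by
  refine eq_zero_of_small (fun v _ => ?_) h2
  have hy : av v y ≤ 1 := not_lt.1 fun hy => by
    have e := wp_norm (p := p) (av_na v) (A := 1) (y := y) one_ne_zero (by
      rw [map_one]
      exact one_lt_pow₀ hy (Nat.sub_ne_zero_of_lt hp.out.one_lt))
    rw [div_one, map_one, div_one, h] at e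
    obtain ⟨m, hm⟩ := av_disc v y fun h0 => by
      rw [h0, map_zero] at hy
      linarith
    have h3 : (2 : ℝ) ≤ av v y := by
      rw [hm] at hy ⊢
      exact (zpow_one _).symm.trans_le
        (zpow_le_zpow_right₀ one_le_two ((one_lt_zpow_iff_right₀ one_lt_two).1 hy))
    have h4 := (pow_le_pow_left₀ zero_le_two h3 2).trans (pow_le_pow_right₀ hy.le hp.out.two_le)
    linarith [h1 v]
  rw [← h]
  refine PF_sub' ?_ hy
  rw [map_pow]
  exact pow_le_one₀ (AbsoluteValue.nonneg _ _) hy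

theorem indep_pol {vv : Fin n → Pl k} (hi : Function.Injective vv) (h0 : ∀ i, vv i ≠ none)
    {c : Fin n → k[X]} (hc : ∀ i, (c i).degree < (plp (vv i)).degree) (hc0 : ∀ i, c i ≠ 0)
    (e : Fin n → ZMod p) (y : RatFunc k)
    (h : y ^ p - y = ∑ i, ((e i).val : RatFunc k) * pol (c i) (vv i)) : e = 0 := by
  have key : ∀ v i (B : ℝ), av v (pol (c i) (vv i)) ≤ B →
      av v (((e i).val : RatFunc k) * pol (c i) (vv i)) ≤ B := fun v i B hB => by
    rw [map_mul]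
    exact (mul_le_of_le_one_left (AbsoluteValue.nonneg _ _) (av_na v).apply_natCast_le_one).trans hB
  have h1 := as_zero (fun v => PF_sum zero_le_two fun i _ => key v i _ ((av_pol (h0 i) (hc i)).1 v))
    ((PF_sum (by norm_num) fun i _ => key none i _
      (PF_half' (av_pol (h0 i) (hc i)).2.2.1)).trans_lt two_inv_lt_one) h
  funext i
  by_contra hne
  have h2 : ((e i).val : k) ≠ 0 := fun h2 => hne ((ZMod.val_eq_zero _).1
    (Nat.eq_zero_of_dvd_of_lt ((CharP.cast_eq_zero_iff k p _).1 h2) (ZMod.val_lt _)))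
  have h3 := av_const (vv i) h2
  rw [map_natCast] at h3
  rw [← add_sum_erase _ _ (mem_univ i), add_eq_zero_iff_eq_neg] at h1
  have h4 := congrArg (av (vv i)) h1
  rw [map_mul, h3, one_mul, AbsoluteValue.map_neg] at h4
  refine not_le.2 ((av_pol (h0 i) (hc i)).2.2.2 (hc0 i)) (h4.trans_le (PF_sum zero_le_one
    fun j hj => key _ j _ ((av_pol (h0 j) (hc j)).2.1 _ fun e => ?_)))
  exact ne_of_mem_erase hj (hi e).symm

theorem FNd_A (hT : Ty p A F ϖ ε) : pk (RatFunc k) A ≠ 0 ∧ pk (Kb k) A ≠ 0 :=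
  have h : pk (RatFunc k) A ≠ 0 := PF_ne (ne_zero_of_dvd_ne_zero hT.F_ne hT.dvd)
  ⟨h, (map_ne_zero (algebraMap (RatFunc k) (Kb k))).2 h⟩

theorem FNd_l (hT : Ty p A F ϖ ε) {l : Kb k} (hl : l ^ (p - 1) = pk _ A) : l ≠ 0 := fun h =>
  (FNd_A hT).2 (by rw [← hl, h, zero_pow (Nat.sub_ne_zero_of_lt hp.out.one_lt)])

theorem FNd_phi (hT : Ty p A F ϖ ε) {l : Kb k} (hl : l ^ (p - 1) = pk _ A) (m : ℕ) :
    ((m : Kb k) * l) ^ p / pk _ A = m * l := by
  rw [mul_pow, FEq_frob, Wp_pow (p := p) l, hl, ← mul_assoc, mul_div_cancel_right₀ _ (FNd_A hT).2]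

theorem FNd_pk (σ : Gk k) : σ (pk _ A) = pk _ A := σ.commutes _

theorem FNd_act (hT : Ty p A F ϖ ε) {l : Kb k} (hl : l ^ (p - 1) = pk _ A) (σ : Gk k) :
    ∃ m : ℕ, σ l = m * l := by
  refine wp_ker hl (FNd_l hT hl) ?_
  have := congrArg σ (FNd_phi hT hl 1)
  rwa [Nat.cast_one, one_mul, map_div₀, map_pow, FNd_pk, ← sub_eq_zero] at this

theorem sah_fix (hT : Ty p A F ϖ ε) {W : Fin n → Kb k} (hW : ASr p (RatFunc k) W) {l y : Kb k}
    (hl : l ^ (p - 1) = pk _ A) {a : RatFunc k} (hy : y ^ p / pk _ A - y = algebraMap _ _ a)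
    (h : ∀ σ : Gk k, σ l = l → (∀ i, σ (W i) = W i) → σ y = y) :
    ∃ (m : ℕ) (y1 : RatFunc k), y = algebraMap _ _ y1 + m * l := by
  have key : ∀ (σ τ : Gk k) (x : Kb k), (τ⁻¹ * σ) x = x ↔ σ x = τ x := fun σ τ x => by
    rw [AlgEquiv.mul_apply, AlgEquiv.aut_inv, AlgEquiv.symm_apply_eq]
  have hA := (FNd_A hT).2
  obtain ⟨m, hm⟩ := sah p (⊤ : Subgroup (Gk k)) (l := l) (y := y) (fun σ _ => FNd_act hT hl σ)
    (fun σ _ => wp_ker hl (FNd_l hT hl) (by
      have := congrArg σ hy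
      rw [map_sub, map_div₀, map_pow, FNd_pk, σ.commutes] at this
      rw [Wp_sub, this, hy, sub_self]))
    (fun σ _ τ _ => (key _ _ _).1 (h _ ((key _ _ _).2 (by
      obtain ⟨m, hm⟩ := FNd_act hT hl σ
      obtain ⟨m', hm'⟩ := FNd_act hT hl τ
      simp only [AlgEquiv.mul_apply, hm, hm', map_mul, map_natCast]
      ring)) fun i => (key _ _ _).2 (by
      obtain ⟨r, hr⟩ := exists_rho hW σ
      obtain ⟨r', hr'⟩ := exists_rho hW τ
      simp only [AlgEquiv.mul_apply, hr, hr', map_add, map_natCast]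
      ring)))
    ((move_root hW hl (FNd_A hT).1 hT.nr).imp fun γ hγ => ⟨trivial, hγ.2⟩)
  obtain ⟨y1, hy1⟩ := om_fix (sub_mem (om_wp (om_alg _) hA (om_alg a) hy)
    (om_wp (om_alg _) hA (zero_mem _) (sub_eq_zero.2 (FNd_phi hT hl m)))) fun σ => hm σ trivial
  exact ⟨m, y1, by rw [hy1, sub_add_cancel]⟩

theorem FNd_dif (hT : Ty p A F ϖ ε) {l : Kb k} (hl : l ^ (p - 1) = pk _ A) {W : Fin n → Kb k}
    {a y : Finset (Fin n) → Kb k} (ha : a ∈ Eq1 p (RatFunc k) W) (hy : Sol p A a y) {σ : Gk k}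
    {χ : Fin n → ZMod p} (hσ : ∀ i, σ (W i) = W i + ((χ i).val : Kb k)) (I : Finset (Fin n)) :
    ∃ m : ℕ, σ (y I) - sh (fun i => -((χ i).val : Kb k)) y I = m * l := by
  refine wp_ker hl (FNd_l hT hl) ?_
  have h1 := congrArg σ (hy I)
  rw [map_sub, map_div₀, map_pow, FNd_pk, ha.2 σ χ hσ] at h1
  have h2 := map_sh (frobenius (Kb k) p) (fun i => -((χ i).val : Kb k)) y I
  simp only [frobenius_def, FEq_neg] at h2
  rw [Wp_sub, h1, h2, div_eq_mul_inv, ← sh_mul, ← Pi.sub_apply (sh _ _) (sh _ y), ← sh_sub,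
    sub_eq_zero]
  congr 1
  funext J
  rw [← hy J, div_eq_mul_inv]
  rfl

theorem FNd_fix {W : Fin n → Kb k} {a : Finset (Fin n) → Kb k} (ha : a ∈ Eq1 p (RatFunc k) W)
    {σ : Gk k} (hσ : ∀ i, σ (W i) = W i) (I : Finset (Fin n)) : σ (a I) = a I := by
  rw [ha.2 σ 0 (by simpa using hσ)]
  simp only [Pi.zero_apply, ZMod.val_zero, Nat.cast_zero, neg_zero]
  exact congrFun (sh_zero a) I

theorem FNd_dif0 (hT : Ty p A F ϖ ε) {l : Kb k} (hl : l ^ (p - 1) = pk _ A) {W : Fin n → Kb k}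
    {a y : Finset (Fin n) → Kb k} (ha : a ∈ Eq1 p (RatFunc k) W) (hy : Sol p A a y) {σ : Gk k}
    (hσ : ∀ i, σ (W i) = W i) (I : Finset (Fin n)) : ∃ m : ℕ, σ (y I) - y I = m * l := by
  have h := FNd_dif hT hl ha hy (σ := σ) (χ := 0) (by simpa using hσ) I
  simp only [Pi.zero_apply, ZMod.val_zero, Nat.cast_zero, neg_zero] at h
  rwa [show sh (fun _ => (0 : Kb k)) y = y from sh_zero y] at h

theorem FNd_sh (hT : Ty p A F ϖ ε) {l : Kb k} (hl : l ^ (p - 1) = pk _ A) {W : Fin n → Kb k}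
    {a y : Finset (Fin n) → Kb k} (ha : a ∈ Eq1 p (RatFunc k) W) (hy : Sol p A a y) {γ σ τ : Gk k}
    {χ : Fin n → ZMod p} (hγ : ∀ i, γ (W i) = W i + ((χ i).val : Kb k)) {m : ℕ} (hm : γ l = m * l)
    (h1 : τ l = l) (h2 : ∀ i, σ (W i) = W i) (e : ∀ x, γ (σ x) = τ (γ x)) :
    sh (fun i => -((χ i).val : Kb k)) (fun I => τ (y I) - y I) = m • fun I => σ (y I) - y I := by
  funext I
  obtain ⟨m1, e1⟩ := FNd_dif hT hl ha hy hγ I
  obtain ⟨m2, e2⟩ := FNd_dif0 hT hl ha hy h2 I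
  have e3 := congrArg γ e2
  have e4 := congrArg τ e1
  have e5 := map_sh (τ : Kb k →+* Kb k) (fun i => -((χ i).val : Kb k)) y I
  simp only [map_neg, map_natCast, RingHom.coe_coe] at e5
  rw [map_sub, map_mul, map_natCast, hm, e] at e3
  rw [map_sub, map_mul, map_natCast, h1, e5] at e4
  refine (congrFun (sh_sub _ (fun I => τ (y I)) y) I).trans ?_
  rw [Pi.sub_apply, Pi.smul_apply, nsmul_eq_mul, e2]
  linear_combination e3 + e1 - e4

/-- the differences under the automorphisms that fix `l` and the roots -/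
theorem FNd_top (hT : Ty p A F ϖ ε) {l : Kb k} (hl : l ^ (p - 1) = pk _ A) {W : Fin n → Kb k}
    {h : Fin n → RatFunc k} (hW : ∀ i, W i ^ p - W i = algebraMap _ _ (h i))
    (hi : ∀ (e : Fin n → ZMod p) (y : RatFunc k),
      y ^ p - y = ∑ i, ((e i).val : RatFunc k) * h i → e = 0)
    {a a' y y' : Finset (Fin n) → Kb k} (ha : a ∈ Eq1 p (RatFunc k) W)
    (ha' : a' ∈ Eq1 p (RatFunc k) W) (hy : Sol p A a y) (hy' : Sol p A a' y') {σ : Gk k}
    (h1 : σ l = l) (h2 : ∀ i, σ (W i) = W i) : ∃ ρ : Gk k, (∀ i, ρ (W i) = W i) ∧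
      (fun I => ρ (y I)) = y + dl n (σ (y ∅) - y ∅) ∧
      (fun I => ρ (y' I)) = y' + dl n (σ (y' ∅) - y' ∅) := by
  have fx : ∀ {a y : Finset (Fin n) → Kb k}, a ∈ Eq1 p (RatFunc k) W → Sol p A a y → ∀ {σ τ : Gk k},
      σ l = l → (∀ i, τ (W i) = W i) → ∀ I, σ (τ (y I)) - σ (y I) = τ (y I) - y I :=
    fun ha hy σ τ h1 h2 I => by
      obtain ⟨m, hm⟩ := FNd_dif0 hT hl ha hy h2 I
      rw [← map_sub, hm, map_mul, map_natCast, h1]
  let V : AddSubgroup ((Finset (Fin n) → Kb k) × (Finset (Fin n) → Kb k)) :=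
    { carrier := {x | ∃ σ : Gk k, σ l = l ∧ (∀ i, σ (W i) = W i) ∧
        x = (fun I => σ (y I) - y I, fun I => σ (y' I) - y' I)}
      zero_mem' := ⟨1, rfl, fun _ => rfl, Prod.ext (funext fun _ => (sub_self _).symm)
        (funext fun _ => (sub_self _).symm)⟩
      add_mem' := by
        rintro _ _ ⟨σ, s1, s2, rfl⟩ ⟨τ, t1, t2, rfl⟩
        refine ⟨σ * τ, by rw [AlgEquiv.mul_apply, t1, s1],
          fun i => by rw [AlgEquiv.mul_apply, t2, s2],
          Prod.ext (funext fun I => ?_) (funext fun I => ?_)⟩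
        · show σ (y I) - y I + (τ (y I) - y I) = σ (τ (y I)) - y I
          linear_combination -fx ha hy s1 t2 I
        · show σ (y' I) - y' I + (τ (y' I) - y' I) = σ (τ (y' I)) - y' I
          linear_combination -fx ha' hy' s1 t2 I
      neg_mem' := by
        rintro _ ⟨σ, s1, s2, rfl⟩
        have t1 : σ.symm l = l := σ.symm_apply_eq.2 s1.symm
        refine ⟨σ.symm, t1, fun i => σ.symm_apply_eq.2 (s2 i).symm,
          Prod.ext (funext fun I => ?_) (funext fun I => ?_)⟩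
        · have := fx ha hy t1 s2 I
          rw [σ.symm_apply_apply] at this
          show -(σ (y I) - y I) = σ.symm (y I) - y I
          linear_combination this
        · have := fx ha' hy' t1 s2 I
          rw [σ.symm_apply_apply] at this
          show -(σ (y' I) - y' I) = σ.symm (y' I) - y' I
          linear_combination this }
  obtain ⟨ρ, -, r2, r3⟩ := dl_mem V (x := (fun I => σ (y I) - y I, fun I => σ (y' I) - y' I)) (by
    rintro i _ ⟨τ, t1, t2, rfl⟩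
    obtain ⟨γ, hγ⟩ := as_surj h W hW hi (-Pi.single i 1)
    obtain ⟨m, hm⟩ := FNd_act hT hl γ
    have hc : (fun j => -(((-Pi.single i 1 : Fin n → ZMod p) j).val : Kb k)) = Pi.single i 1 :=
      funext fun j => by
        rw [FEq_val, Pi.neg_apply, map_neg, neg_neg]
        by_cases e : j = i
        · rw [e, Pi.single_eq_same, Pi.single_eq_same, map_one]
        · rw [Pi.single_eq_of_ne e, Pi.single_eq_of_ne e, map_zero]
    have e : ∀ x, γ ((γ⁻¹ * τ * γ) x) = τ (γ x) := fun x => γ.apply_symm_apply _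
    have s2 : ∀ j, (γ⁻¹ * τ * γ) (W j) = W j := fun j => γ.injective (by
      rw [e, hγ, map_add, map_natCast, t2])
    rw [← hc, FNd_sh hT hl ha hy hγ hm t1 s2 e, FNd_sh hT hl ha' hy' hγ hm t1 s2 e]
    exact V.nsmul_mem (x := (_, _)) ⟨γ⁻¹ * τ * γ, γ.injective (by
      rw [e, hm, map_mul, map_natCast, t1]), s2, rfl⟩ m) ⟨σ, h1, h2, rfl⟩
  exact ⟨ρ, r2, eq_add_of_sub_eq' (congrArg Prod.fst r3).symm,
    eq_add_of_sub_eq' (congrArg Prod.snd r3).symm⟩

theorem nondeg (hT : Ty p A F ϖ ε) (hn : 0 < n) {W : Fin n → Kb k} {h : Fin n → RatFunc k}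
    (hW : ∀ i, W i ^ p - W i = algebraMap _ _ (h i))
    (hi : ∀ (e : Fin n → ZMod p) (y : RatFunc k),
      y ^ p - y = ∑ i, ((e i).val : RatFunc k) * h i → e = 0)
    {a w a' w' y y' : Finset (Fin n) → Kb k} (ha : a ∈ Eq1 p (RatFunc k) W)
    (hw : w ∈ Eq1 p (RatFunc k) W) (ha' : a' ∈ Eq1 p (RatFunc k) W) (hw' : w' ∈ Eq1 p (RatFunc k) W)
    (hy : Sol p A a y) (hy' : Sol p A a' y') (hg : Gd p A ϖ (a ∅) (w ∅)) {η : RatFunc k}
    (hη : algebraMap _ _ η = xiT p (pk (Kb k) A) ε (algebraMap _ _ ϖ) y w y' w') :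
    Bd p A ϖ (ε * (-1) ^ n) (a ∅) (w ∅) (a' ∅) (w' ∅) := by
  obtain ⟨l, hl⟩ := IsAlgClosed.exists_pow_nat_eq (pk (Kb k) A) (Nat.sub_pos_of_lt hp.out.one_lt)
  have hWr : ASr p (RatFunc k) W := fun i => ⟨h i, hW i⟩
  have hphi := FNd_phi hT hl
  have low : ∀ {f : Finset (Fin n) → Kb k}, f ∈ Eq1 p (RatFunc k) W →
      ∃ f0 : RatFunc k, algebraMap _ _ f0 = f ∅ := fun hf =>
    Eq1.lower hWr hf ∅ fun J hJ => absurd hJ (not_ssubset_empty J)
  obtain ⟨a0, ea⟩ := low ha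
  obtain ⟨a0', ea'⟩ := low ha'
  obtain ⟨w0, ew⟩ := low hw
  obtain ⟨w0', ew'⟩ := low hw'
  have alg : ∀ z : RatFunc k, algebraMap _ (Kb k) (z ^ p / pk _ A) =
      algebraMap _ _ z ^ p / pk _ A := fun z => by
    rw [map_div₀, map_pow]
    rfl
  generalize hs : ε * (-1) ^ n = s
  have s1 : (s : Kb k) * s = 1 := by
    have : s * s = 1 := by
      rw [← hs, mul_mul_mul_comm, ← mul_pow]
      rcases hT.sgn with e | e <;> simp [e]
    exact_mod_cast congrArg (Int.cast : ℤ → Kb k) this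
  have key : ∀ σ : Gk k, σ l = l → (∀ i, σ (W i) = W i) →
      (σ (y ∅) - y ∅) * (w' ∅ + y' ∅ ^ p / pk _ A * algebraMap _ _ ϖ) +
        s * ((σ (y' ∅) - y' ∅) * (w ∅ + y ∅ ^ p / pk _ A * algebraMap _ _ ϖ)) = 0 := by
    intro σ h1 h2
    obtain ⟨ρ, r1, r2, r3⟩ := FNd_top hT hl hW hi ha ha' hy hy' h1 h2
    obtain ⟨m, hm⟩ := FNd_dif0 hT hl ha hy h2 ∅
    obtain ⟨m', hm'⟩ := FNd_dif0 hT hl ha' hy' h2 ∅
    have e1 := map_xiT (ρ : Kb k →+* Kb k) p (pk (Kb k) A) ε (algebraMap _ _ ϖ) y w y' w'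
    simp only [RingHom.coe_coe, ← hη, AlgEquiv.commutes, FNd_pk, FNd_fix hw r1, FNd_fix hw' r1]
      at e1
    rw [r2, r3, xi_dl (by rw [← map_zsmul, hT.eps]) hn y w y' w' (by rw [hm, hphi])
      (by rw [hm', hphi]), ← hη, left_eq_add, zsmul_eq_mul] at e1
    have e2 : ((-1 : Kb k) ^ n) * (-1) ^ n = 1 := by rw [← mul_pow, neg_mul_neg, one_mul, one_pow]
    rw [← hs]
    push_cast
    linear_combination (-1) ^ n * e1 - (σ (y ∅) - y ∅) *
      (w' ∅ + y' ∅ ^ p / pk _ A * algebraMap _ _ ϖ) * e2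
  have mv : ∀ {a y : Finset (Fin n) → Kb k}, a ∈ Eq1 p (RatFunc k) W → Sol p A a y → ∀ σ : Gk k,
      (∀ i, σ (W i) = W i) → σ (y ∅ ^ p / pk _ A) = y ∅ ^ p / pk _ A + (σ (y ∅) - y ∅) :=
    fun ha hy σ h2 => by
      have e1 := congrArg σ (hy ∅)
      rw [map_sub, FNd_fix ha h2, ← hy ∅] at e1
      linear_combination e1
  obtain ⟨σ1, t1, t2, t3⟩ : ∃ σ : Gk k, σ l = l ∧ (∀ i, σ (W i) = W i) ∧ σ (y ∅) ≠ y ∅ := by
    by_contra hc
    push Not at hc
    obtain ⟨m, y1, e⟩ := sah_fix hT hWr hl ((hy ∅).trans ea.symm) hc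
    refine hg.1 y1 ?_
    rw [← hy ∅, e, Wp_add, hphi, sub_self, add_zero, map_sub, alg]
  replace t3 := sub_ne_zero.2 t3
  obtain ⟨m1, e1⟩ := FNd_dif0 hT hl ha hy t2 ∅
  obtain ⟨m2, e2⟩ := FNd_dif0 hT hl ha' hy' t2 ∅
  obtain ⟨κ, hκ⟩ : ∃ κ : ZMod p, σ1 (y' ∅) - y' ∅ = κ.val * (σ1 (y ∅) - y ∅) := by
    refine ⟨(m2 : ZMod p) / m1, ?_⟩
    rw [FEq_val, map_div₀, map_natCast, map_natCast, e2, e1, ← mul_assoc,
      div_mul_cancel₀ _ (left_ne_zero_of_mul (e1 ▸ t3))]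
  have hΩ : w' ∅ + y' ∅ ^ p / pk _ A * algebraMap _ _ ϖ =
      -(s * κ.val * (w ∅ + y ∅ ^ p / pk _ A * algebraMap _ _ ϖ)) := by
    refine mul_left_cancel₀ t3 ?_
    have := key σ1 t1 t2
    rw [hκ] at this
    linear_combination this
  have hΩ0 : w ∅ + y ∅ ^ p / pk _ A * algebraMap _ _ ϖ ≠ 0 := fun h0 => by
    have h1 := congrArg σ1 h0
    rw [map_add, map_mul, mv ha hy σ1 t2, FNd_fix hw t2, σ1.commutes, map_zero] at h1
    have h2 : algebraMap _ (Kb k) ϖ = 0 := mul_left_cancel₀ t3 (by linear_combination h1 - h0)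
    rw [h2, mul_zero, add_zero] at h0
    exact hg.2 ((map_eq_zero _).1 h2) h0
  have hz : (y' ∅ - κ.val * y ∅) ^ p / pk _ A = y' ∅ ^ p / pk _ A - κ.val * (y ∅ ^ p / pk _ A) := by
    rw [sub_pow_char, mul_pow, FEq_frob]
    ring
  obtain ⟨m, y1, e⟩ := sah_fix hT hWr hl (y := y' ∅ - κ.val * y ∅) (a := a0' - κ.val * a0) (by
    rw [hz, map_sub, map_mul, map_natCast, ea, ea', ← hy ∅, ← hy' ∅]
    ring) fun σ h1 h2 => by
      have e3 := key σ h1 h2
      rw [hΩ] at e3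
      rw [map_sub, map_mul, map_natCast]
      refine mul_right_cancel₀ hΩ0 ?_
      linear_combination s * e3 - (σ (y' ∅) - y' ∅ - κ.val * (σ (y ∅) - y ∅)) *
        (w ∅ + y ∅ ^ p / pk _ A * algebraMap _ _ ϖ) * s1
  rw [e, add_pow_char, add_div, hphi] at hz
  have h3 : (κ.val : Kb k) * (1 + s) * algebraMap _ _ ϖ = 0 := by
    have h1 := congrArg σ1 hΩ
    simp only [map_add, map_mul, map_neg, map_intCast, map_natCast, mv ha hy σ1 t2,
      mv ha' hy' σ1 t2, FNd_fix hw t2, FNd_fix hw' t2, AlgEquiv.commutes, hκ] at h1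
    exact mul_left_cancel₀ t3 (by linear_combination h1 - hΩ)
  have h4 : w' ∅ + s * κ.val * w ∅ + algebraMap _ _ (y1 ^ p / pk _ A * ϖ) +
      m * algebraMap _ _ ϖ * l = 0 := by
    rw [map_mul, alg]
    linear_combination hΩ + algebraMap _ (Kb k) ϖ * hz - y ∅ ^ p / pk _ A * h3
  obtain ⟨δ, -, hδ⟩ := move_root hWr hl (FNd_A hT).1 hT.nr
  have h5 : (m : Kb k) * algebraMap _ _ ϖ = 0 := by
    have h1 := congrArg δ h4
    rw [← ew, ← ew'] at h1 h4
    simp only [map_add, map_mul δ, map_intCast, map_natCast, AlgEquiv.commutes, map_zero] at h1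
    exact mul_right_cancel₀ (sub_ne_zero.2 hδ) (by linear_combination h1 - h4)
  refine ⟨κ, y1, ?_, ?_, (algebraMap _ (Kb k)).injective ?_⟩
  · rw [map_sub, alg, ← hy ∅, ← hy' ∅]
    linear_combination -hz - e
  · linear_combination h4 - l * h5
  · simpa only [map_mul, map_add, map_one, map_intCast, map_natCast, map_zero] using h3

end Pool.Agent.ASel
end
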