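import Pool.Agent.Work.MP_60d5ce_nt.AG.FNd
import Pool.Agent.Work.MP_60d5ce_nt.AS.SFam

/-!
# Construction of the family  (AS, function field side)

PLAN.  `spl_dim`: `Spl` is the image under the injective map `c ↦ pol c v` of the kernel of a `ZMod p`-linear map from `degreeLT k (pdg v)` (at least `p ^ pdg v` elements) to `S → ZMod p`; count elements (`Module.card_eq_pow_finrank`, `card_eq_card_quotient_mul_card_addSubgroup`).
`spl_split`: `av_pol`, `as_solve`, at infinity `res_small`.  `exists_asf`: roots by `IsAlgClosed.exists_root`; `as_surj` for the index type `Option ι`.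
`exists_su`: `E = (⨆ i : Fin K, Spl (vv i.castSucc)) ⊔ Spl P`, a finite `ZMod p`-space; `h l` a basis (`Module.finBasis`), so `hh Φ e = ∑ e l • h l` is a bijection onto `E` (`smul_val`); every member `g` of `E` is `nu / (b' * plp P)` with `deg nu` small,
has `av v g ≤ 2`, `av none g < 1`, is integral outside `b' * plp P` and at the spare prime `vv (last K)`, where `d` has a pole; so `as_zero` gives the hypothesis of `exists_asf`.  `av v d ≤ 2` because `b' * plp P` is squarefree (`av_poly_eq`); `d - a' / b' = pol a'' P`.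
`Ari.ty`: `av_disc`, `av_poly_eq`, `p - 1` is even.  `om_eq`: `Set.ncard` of the image under `plp`.
-/

set_option linter.unusedSectionVars false

namespace Pool.Agent.ASel

open Polynomial Pool.Agent.Smith Finset

noncomputable section

variable {p : ℕ} {k : Type} [Field k] [Fintype k] [hp : Fact p.Prime] [CharP k p] {A F : k[X]}

variable (p) in
/-- polar parts at `v` that split at the places `InS` -/
def Spl (A F b : k[X]) (v : Pl k) : Submodule (ZMod p) (RatFunc k) where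
  carrier := {h | (∃ c : k[X], c.degree < (plp v).degree ∧ h = pol c v) ∧
    ∀ u, InS p A F b u → u ≠ none → res p u (algebraMap _ _ h / uL u) = 0}
  zero_mem' := ⟨⟨0, by simpa [bot_lt_iff_ne_bot] using (PF_monic v).ne_zero, by simp [pol]⟩,
    fun u _ _ => by simp⟩
  add_mem' := by
    rintro g g' ⟨⟨c, h1, h2⟩, h3⟩ ⟨⟨c', k1, k2⟩, k3⟩
    exact ⟨⟨c + c', (degree_add_le _ _).trans_lt (max_lt h1 k1), by
      rw [h2, k2, pol, pol, pol, map_add, add_div]⟩, fun u a b => by
      rw [map_add, add_div, map_add, h3 u a b, k3 u a b, add_zero]⟩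
  smul_mem' := by
    rintro m g ⟨⟨c, h1, h2⟩, h3⟩
    exact ⟨⟨m.val • c, (degree_smul_le _ _).trans_lt h1, by
      rw [smul_val, h2, pol, pol, map_nsmul, nsmul_eq_mul, mul_div_assoc]⟩, fun u a b => by
      rw [smul_val, ← nsmul_eq_mul, map_nsmul, smul_div_assoc, map_nsmul, h3 u a b, smul_zero]⟩

theorem spl_fin (b : k[X]) (v : Pl k) : Finite (Spl p A F b v) := by
  have h : (Spl p A F b v : Set (RatFunc k)).Finite :=
    ((ASW.fin_lt (k := k) (plp v).natDegree).image fun c => pol c v).subset fun g hg => by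
      obtain ⟨⟨c, h1, rfl⟩, -⟩ := hg
      exact ⟨c, degree_eq_natDegree (PF_monic v).ne_zero ▸ h1, rfl⟩
  exact h.to_subtype

theorem FSet_pol_add (c c' : k[X]) (v : Pl k) : pol (c + c') v = pol c v + pol c' v := by
  rw [pol, pol, pol, map_add, add_div]

theorem FSet_pol_inj {c c' : k[X]} {v : Pl k} (h : pol c v = pol c' v) : c = c' :=
  IsFractionRing.injective k[X] (RatFunc k)
    ((div_left_inj' (FB_pk (PF_monic v).ne_zero (RatFunc k))).1 h)

theorem spl_dim {b : k[X]} {v : Pl k} (hv : v ≠ none) (S : Finset (Pl k))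
    (hS : ∀ u, InS p A F b u → u ≠ none → u ∈ S) :
    pdg v ≤ Module.finrank (ZMod p) (Spl p A F b v) + S.card := by
  have := spl_fin (p := p) (A := A) (F := F) b v
  let φ : degreeLT k (pdg v) →+ (S → ZMod p) := AddMonoidHom.mk'
    (fun c u => res p u.1 (algebraMap _ _ (pol c.1 v) / uL u.1)) fun c c' => funext fun u => by
      rw [Submodule.coe_add, FSet_pol_add, map_add, add_div, map_add, Pi.add_apply]
  have hd : (plp v).degree = pdg v := by
    rw [degree_eq_natDegree (PF_monic v).ne_zero, PF_deg hv]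
  have h1 : Nat.card φ.ker ≤ Nat.card (Spl p A F b v) := by
    refine Nat.card_le_card_of_injective (fun c => ⟨pol c.1 v,
      ⟨c.1, hd ▸ mem_degreeLT.1 c.1.2, rfl⟩, fun u hu h0 => congrFun c.2 ⟨u, hS u hu h0⟩⟩) ?_
    intro c c' e
    exact Subtype.ext (Subtype.ext (FSet_pol_inj (congrArg Subtype.val e)))
  have h2 : φ.ker.index ≤ p ^ S.card := by
    rw [AddSubgroup.index_ker]
    refine (AddSubgroup.card_le_card_addGroup _).trans_eq ?_
    rw [Nat.card_fun, Nat.card_zmod, Nat.card_eq_fintype_card, Fintype.card_coe]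
  have h3 : Nat.card (degreeLT k (pdg v)) = Fintype.card k ^ pdg v := by
    rw [Nat.card_congr (degreeLTEquiv k _).toEquiv, Nat.card_fun, Nat.card_eq_fintype_card,
      Nat.card_eq_fintype_card, Fintype.card_fin]
  have h4 : p ≤ Fintype.card k := by
    obtain ⟨n, -, hn⟩ := FiniteField.card k p
    rw [hn]
    exact Nat.le_self_pow n.ne_zero p
  rw [Module.natCard_eq_pow_finrank (K := ZMod p) (V := Spl p A F b v), Nat.card_zmod] at h1
  refine (Nat.pow_le_pow_iff_right hp.out.one_lt).1 ((Nat.pow_le_pow_left h4 _).trans ?_)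
  rw [← h3, ← φ.ker.card_mul_index, pow_add]
  exact Nat.mul_le_mul h1 h2

theorem spl_split {b : k[X]} {v : Pl k} (hv : ¬ InS p A F b v) {h : RatFunc k}
    (hh : h ∈ Spl p A F b v) {u : Pl k} (hu : InS p A F b u) :
    ∃ s : Lv u, ‖s‖ ≤ 1 ∧ s ^ p - s = algebraMap _ _ h := by
  obtain ⟨⟨c, h1, rfl⟩, h2⟩ := hh
  obtain ⟨-, a2, a3, -⟩ := av_pol (fun e => hv (Or.inl (Or.inl e))) h1
  refine as_solve (by
    rw [norm_alg]
    exact a2 u fun e => hv (e ▸ hu)) ?_
  by_cases e : u = none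
  · subst e
    refine res_small ?_
    rwa [mul_div_cancel₀ _ (Wp_uL0 _), norm_alg]
  · exact h2 u hu e

theorem exists_asf {ι : Type} [Fintype ι] (d : RatFunc k) (h : ι → RatFunc k)
    (hi : ∀ (e0 : ZMod p) (e : ι → ZMod p) (y : RatFunc k),
      y ^ p - y = (e0.val : RatFunc k) * d + ∑ l, ((e l).val : RatFunc k) * h l → e0 = 0 ∧ e = 0) :
    ∃ Φ : ASF p k ι, Φ.d = d ∧ Φ.h = h := by
  have r : ∀ a : RatFunc k, ∃ w : Kb k, w ^ p - w = algebraMap _ _ a := fun a => by
    simpa using FB_root (p := p) (one_ne_zero (α := Kb k)) (algebraMap _ _ a)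
  choose w hw using r
  have s := as_surj (p := p) (ι := Option ι) (fun o => o.elim d h) (fun o => w (o.elim d h))
    (fun o => hw _) fun e y hy => by
      rw [Fintype.sum_option] at hy
      obtain ⟨h1, h2⟩ := hi (e none) (fun l => e (some l)) y hy
      funext o
      cases o
      exacts [h1, congrFun h2 _]
  choose σ hσ using s
  refine ⟨⟨d, h, w d, fun l => w (h l), hw d, fun l => hw _, σ fun o => o.elim 1 fun _ => 0,
    fun g => σ fun o => o.elim 0 g, ?_, fun l => ?_, fun g => ?_, fun g l => hσ _ (some l)⟩, rfl, rfl⟩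
  · simpa [ZMod.val_one] using hσ (fun o => o.elim 1 fun _ => 0) none
  · simpa using hσ (fun o => o.elim 1 fun _ => 0) (some l)
  · simpa using hσ (fun o => o.elim 0 g) none

theorem FSet_frac {a b : k[X]} (hs : Squarefree b) (hd : a.degree < b.degree) :
    (∀ v : Pl k, av v (algebraMap k[X] (RatFunc k) a / algebraMap k[X] _ b) ≤ 2) ∧
    av (none : Pl k) (algebraMap k[X] (RatFunc k) a / algebraMap k[X] _ b) < 1 ∧
    ∀ v : Pl k, v = none ∨ ¬ plp v ∣ b →
      av v (algebraMap k[X] (RatFunc k) a / algebraMap k[X] _ b) ≤ 1 := by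
  have h1 : ∀ v : Pl k, v = none ∨ ¬ plp v ∣ b →
      av v (algebraMap k[X] (RatFunc k) a / algebraMap k[X] _ b) ≤ 1 := fun v hv => by
    by_cases e : v = none
    · exact e ▸ (PF_inf hd).le
    · rw [map_div₀, PF_one e (hv.resolve_left e), div_one]
      exact av_poly_le e a
  refine ⟨fun v => ?_, PF_inf hd, h1⟩
  by_cases hv : v = none ∨ ¬ plp v ∣ b
  · exact (h1 v hv).trans one_le_two
  · obtain ⟨e, c, rfl⟩ : v ≠ none ∧ plp v ∣ b := by tauto
    rw [map_div₀, map_mul, map_mul, av_plp e, PF_one e fun hc =>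
      (PF_irr e).not_isUnit (hs _ (mul_dvd_mul_left _ hc)), mul_one, div_inv_eq_mul]
    have := av_poly_le e a
    linarith

theorem FSet_pole {a b : k[X]} (hc : IsCoprime a b) (hb : b ≠ 0) {v : Pl k} (hv : v ≠ none)
    (h : plp v ∣ b) : 1 < av v (algebraMap k[X] (RatFunc k) a / algebraMap k[X] _ b) := by
  rw [map_div₀, PF_one hv fun h' => (PF_irr hv).not_isUnit (hc.isUnit_of_dvd' h' h)]
  exact one_lt_one_div ((av v).pos (PF_ne hb)) ((av_poly_lt hv b).2 h)

theorem FSet_two {v : Pl k} {y : RatFunc k} (h : av v (y ^ p - y) < 2 ^ p) :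
    av v (y ^ p - y) ≤ 1 := by
  have hy : ‖algebraMap _ (Lv v) y‖ ≤ 1 := not_lt.1 fun hy => by
    have e := wp_norm (p := p) (av_na v) (A := 1) (y := y) one_ne_zero (by
      rw [map_one]
      exact one_lt_pow₀ (norm_alg v y ▸ hy) (Nat.sub_ne_zero_of_lt hp.out.one_lt))
    rw [div_one, map_one, div_one] at e
    have h3 : (2 : ℝ) ≤ ‖algebraMap _ (Lv v) y‖ := not_lt.1 fun h3 =>
      hy.not_ge (by simpa using Wp_half (n := 0) (by simpa using h3))
    rw [norm_alg] at h3
    exact (e ▸ h).not_ge (pow_le_pow_left₀ zero_le_two h3 p)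
  rw [norm_alg] at hy
  refine Hasse_sub ?_ hy
  rw [map_pow]
  exact pow_le_one₀ ((av v).nonneg _) hy

theorem FSet_gt {v : Pl k} {x y : RatFunc k} (hx : 1 < av v x) (hy : av v y ≤ 1) :
    1 < av v (x + y) := not_le.1 fun h => by
  have := Hasse_sub h hy
  rw [add_sub_cancel_right] at this
  exact hx.not_ge this

variable (p A F) in
/-- the properties of the members of the family -/
def FSet_G (b c : k[X]) (hc : c ≠ 0) (u0 : Pl k) : AddSubmonoid (RatFunc k) where
  carrier := {g | (∃ ν : k[X], ν.degree < c.degree ∧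
    g = algebraMap k[X] (RatFunc k) ν / algebraMap k[X] _ c) ∧ av u0 g ≤ 1 ∧
    ∀ u, InS p A F b u → ∃ s : Lv u, ‖s‖ ≤ 1 ∧ s ^ p - s = algebraMap _ _ g}
  zero_mem' := ⟨⟨0, by simpa [bot_lt_iff_ne_bot] using hc, by simp⟩, by simp,
    fun u _ => ⟨0, by simp, by simp [hp.out.ne_zero]⟩⟩
  add_mem' := by
    rintro g g' ⟨⟨c, h1, h2⟩, h3, h4⟩ ⟨⟨c', k1, k2⟩, k3, k4⟩
    refine ⟨⟨c + c', (degree_add_le _ _).trans_lt (max_lt h1 k1), by
      rw [h2, k2, map_add, add_div]⟩, Hasse_add h3 k3, fun u hu => ?_⟩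
    obtain ⟨s, s1, s2⟩ := h4 u hu
    obtain ⟨t, t1, t2⟩ := k4 u hu
    exact ⟨s + t, PF_add s1 t1, by rw [add_pow_char, map_add, ← s2, ← t2, add_sub_add_comm]⟩

variable (p A F) in
/-- the same as a subspace -/
def FSet_H (b c : k[X]) (hc : c ≠ 0) (u0 : Pl k) : Submodule (ZMod p) (RatFunc k) where
  toAddSubmonoid := FSet_G p A F b c hc u0
  smul_mem' m x hx := by
    rw [smul_val, ← nsmul_eq_mul]
    exact nsmul_mem (S := FSet_G p A F b c hc u0) hx _

theorem FSet_le {b c : k[X]} (hb : c ≠ 0) (hc : IsCoprime b F) {v u0 : Pl k} (hv : InNa p A b v)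
    (hd : plp v ∣ c) (h0 : u0 ≠ v) : Spl p A F b v ≤ FSet_H p A F b c hb u0 := fun g hg => by
  have hs := fun u => spl_split (u := u) (hv.not_S hc) hg
  obtain ⟨⟨c, h1, rfl⟩, -⟩ := hg
  obtain ⟨m, rfl⟩ := hd
  have hm := right_ne_zero_of_mul hb
  refine ⟨⟨c * m, ?_, ?_⟩, (av_pol hv.1 h1).2.1 u0 h0, hs⟩
  · rw [degree_mul, degree_mul]
    exact WithBot.add_lt_add_right (degree_ne_bot.2 hm) h1
  · rw [map_mul, map_mul, mul_div_mul_right _ _ (PF_ne hm)]
    rfl

theorem exists_su (hF : 1 ≤ F.natDegree) {K : ℕ} {b' R : k[X]} {d0 : RatFunc k} (hR : R ≠ 0)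
    (hRF : IsCoprime R F) (g1 : ∀ v, av v d0 ≤ 2 ^ F.natDegree)
    (g2 : ∀ v, ¬ InS0 F v → av v d0 < 2 ^ p ∧ (1 < av v d0 ↔ plp v ∣ R))
    (hs : Squarefree b') (hc : IsCoprime b' (F * R))
    {vv : Fin (K + 1) → Pl k} (hi : Function.Injective vv) (hv : ∀ i, InNa p A b' (vv i)) {P : Pl k}
    (h0 : P ≠ none) (h1 : ¬ plp P ∣ b') (h2 : IsCoprime (plp P) (F * R)) (h3 : ¬ Anom p A (plp P)) :
    ∃ (n : ℕ) (nu : (Fin n → ZMod p) →+ k[X]), Function.Injective nu ∧
      (∀ e, (nu e).degree < (b' * plp P).degree) ∧ ∀ a' a'' : k[X], a'.degree < b'.degree →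
        a''.degree < (plp P).degree → IsCoprime (a' * plp P + a'' * b') (b' * plp P) →
        ∃ Φ : ASF p k (Fin n), Su A F (R * b') P (d0 + pk _ a' / pk _ b')
            (fun i : Fin K => vv i.castSucc) Φ ∧
          ∀ e, Φ.de e = d0 + algebraMap k[X] (RatFunc k) (a' * plp P + a'' * b' + nu e) /
            algebraMap k[X] _ (b' * plp P) := by
  have F0 : F ≠ 0 := fun e => by simp [e] at hF
  have hb' := hs.ne_zero
  have hP := (PF_monic P).ne_zero
  have hb := mul_ne_zero hb' hP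
  have sq : Squarefree (b' * plp P) := squarefree_mul_iff.2
    ⟨((PF_irr h0).isRelPrime_iff_not_dvd.2 h1).symm, hs, (PF_irr h0).squarefree⟩
  have cp : IsCoprime (b' * plp P) (F * R) := hc.mul_left h2
  have cop : IsCoprime (R * b' * plp P) F := by
    rw [mul_assoc]
    exact hRF.mul_left cp.of_mul_right_left
  have dv : b' * plp P ∣ R * b' * plp P := by
    rw [mul_assoc]
    exact dvd_mul_left _ _
  have na : ∀ i, InNa p A (R * b' * plp P) (vv i) := fun i =>
    ⟨(hv i).1, ((hv i).2.1.mul_right _).trans dv, (hv i).2.2⟩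
  have naP : InNa p A (R * b' * plp P) P := ⟨h0, dvd_mul_left _ _, h3⟩
  have nR : ∀ v : Pl k, v ≠ none → plp v ∣ b' * plp P → ¬ plp v ∣ R := fun v a b c =>
    (PF_irr a).not_isUnit (cp.of_mul_right_right.isUnit_of_dvd' b c)
  have g3 : ∀ v : Pl k, v ≠ none → plp v ∣ b' * plp P → av v d0 ≤ 1 := fun v a b => not_lt.1 fun c =>
    nR v a b ((g2 v (not_S0_of_dvd cp.of_mul_right_left a b)).2.1 c)
  have h1' : ¬ plp P ∣ R * b' := fun c => ((PF_irr h0).prime.dvd_mul.1 c).elim
    (nR P h0 (dvd_mul_left _ _)) h1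
  have o2 : (2 : ℝ) < 2 ^ p := lt_self_pow₀ one_lt_two hp.out.one_lt
  have fin : ∀ v, Module.Finite (ZMod p) (Spl p A F (R * b' * plp P) v) := fun v =>
    have := spl_fin (p := p) (A := A) (F := F) (R * b' * plp P) v
    Module.Finite.of_finite
  obtain ⟨E, hE⟩ : ∃ E, E = (⨆ i : Fin K, Spl p A F (R * b' * plp P) (vv i.castSucc)) ⊔
    Spl p A F (R * b' * plp P) P := ⟨_, rfl⟩
  have fE : Module.Finite (ZMod p) E := hE ▸ inferInstance
  have le : E ≤ FSet_H p A F (R * b' * plp P) (b' * plp P) hb (vv (Fin.last K)) := hE ▸ sup_le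
    (iSup_le fun i => FSet_le hb cop (na _) ((hv _).2.1.mul_right _)
      fun e => (Fin.castSucc_ne_last i) (hi e).symm)
    (FSet_le hb cop naP (dvd_mul_left _ _) fun e => h1 (e ▸ (hv _).2.1))
  let β := Module.finBasis (ZMod p) E
  let H : (Fin (Module.finrank (ZMod p) E) → ZMod p) →ₗ[ZMod p] RatFunc k :=
    E.subtype ∘ₗ β.equivFun.symm.toLinearMap
  have H1 : ∀ e, H e ∈ E := fun e => (β.equivFun.symm e).2
  have H2 : Function.Injective H := Subtype.val_injective.comp β.equivFun.symm.injective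
  have H3 : ∀ g ∈ E, ∃ e, H e = g := fun g hg =>
    ⟨β.equivFun ⟨g, hg⟩, congrArg Subtype.val (β.equivFun.symm_apply_apply _)⟩
  have H4 : ∀ e, ∑ l, ((e l).val : RatFunc k) * (β l : RatFunc k) = H e := fun e => by
    change _ = ((β.equivFun.symm e : E) : RatFunc k)
    rw [Module.Basis.equivFun_symm_apply, Submodule.coe_sum]
    exact sum_congr rfl fun l _ => (smul_val _ _).symm
  choose nu n1 n2 using fun e => (le (H1 e)).1
  refine ⟨_, AddMonoidHom.mk' nu fun e e' => ?_, fun e e' h => H2 ?_, n1,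
    fun a' a'' d1 d2 d3 => ?_⟩
  · refine IsFractionRing.injective k[X] (RatFunc k) ((div_left_inj' (PF_ne hb)).1 ?_)
    rw [map_add, add_div, ← n2, ← n2, ← n2, map_add]
  · rw [n2, n2]
    exact congrArg (fun c => algebraMap k[X] (RatFunc k) c / algebraMap k[X] _ (b' * plp P)) h
  have da : (a' * plp P + a'' * b').degree < (b' * plp P).degree := by
    refine (degree_add_le _ _).trans_lt (max_lt ?_ ?_)
    · rw [degree_mul, degree_mul]
      exact WithBot.add_lt_add_right (degree_ne_bot.2 hP) d1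
    · rw [mul_comm b', degree_mul, degree_mul]
      exact WithBot.add_lt_add_right (degree_ne_bot.2 hb') d2
  have fr := FSet_frac sq da
  have pl : ∀ v : Pl k, v ≠ none → plp v ∣ b' * plp P → 1 < av v (d0 +
      algebraMap k[X] (RatFunc k) (a' * plp P + a'' * b') / algebraMap k[X] _ (b' * plp P)) :=
    fun v a b => by
      rw [add_comm d0]
      exact FSet_gt (FSet_pole d3 hb a b) (g3 v a b)
  obtain ⟨Φ, f1, f2⟩ := exists_asf (p := p)
    (d0 + algebraMap k[X] (RatFunc k) (a' * plp P + a'' * b') / algebraMap k[X] _ (b' * plp P))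
    (fun l => (β l : RatFunc k)) fun e0 e y hy => by
      rw [H4] at hy
      have e1 : e0 = 0 := by
        by_contra c
        have c1 : ((e0.val : ℕ) : k) ≠ 0 := fun c1 => c ((ZMod.val_eq_zero e0).1
          (Nat.eq_zero_of_dvd_of_lt ((CharP.cast_eq_zero_iff k p _).1 c1) (ZMod.val_lt e0)))
        have c2 := (le (H1 e)).2.1
        have c3 := (hv (Fin.last K)).2.1.mul_right (plp P)
        have c4 : ∀ x, av (vv (Fin.last K)) ((e0.val : RatFunc k) * x) = av (vv (Fin.last K)) x :=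
          fun x => by rw [map_mul, ← map_natCast (algebraMap k (RatFunc k)), av_const _ c1, one_mul]
        have c5 := FSet_two (p := p) (v := vv (Fin.last K)) (y := y) (hy ▸ (Hasse_add ((c4 _).trans_le
          (Hasse_add ((g3 _ (hv _).1 c3).trans one_le_two) (fr.1 _))) (c2.trans one_le_two)).trans_lt o2)
        rw [hy] at c5
        exact (FSet_gt ((pl _ (hv _).1 c3).trans_eq (c4 _).symm) c2).not_ge c5
      rw [e1, ZMod.val_zero, Nat.cast_zero, zero_mul, zero_add] at hy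
      have fe := FSet_frac sq (n1 e)
      rw [← n2] at fe
      exact ⟨e1, H2 ((as_zero fe.1 fe.2.1 hy).trans (map_zero H).symm)⟩
  have f3 : ∀ e, hh Φ e = H e := fun e => by rw [hh, f2, H4]
  refine ⟨Φ, ⟨⟨mul_ne_zero (mul_ne_zero hR hb') hP, cop, fun v => f1 ▸ Hasse_add (g1 v)
      ((fr.1 v).trans (le_self_pow₀ one_le_two (by omega))), fun v a => f1 ▸ (av_na v _ _).trans_lt
      (max_lt (g2 v a).1 ((fr.1 v).trans_lt o2)), fun v a b => f1 ▸ Hasse_add
      (not_lt.1 fun c => b ((((g2 v a).2.1 c).mul_right _).mul_right _))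
      (fr.2.2 v (Or.inr fun c => b (c.trans dv))), fun l v hv' => ?_, fun l v hv' => ?_⟩, naP, h1',
    hi.comp (Fin.castSucc_injective K), fun i => ⟨(hv _).1, (hv _).2.1.mul_left _, (hv _).2.2⟩,
    fun v hv' => ?_, fun v hv' => f1 ▸ ?_,
    fun e he => H2 ((f3 e).symm.trans (he.trans (map_zero H).symm)), fun c c1 c2 => ?_,
    fun i => ?_⟩, fun e => ?_⟩
  · obtain ⟨⟨ν, v1, v2⟩, -⟩ := le (β l).2
    rw [f2]
    exact (congrArg (av v) v2).trans_le ((FSet_frac sq v1).2.2 v
      (hv'.imp_right fun a b => a (b.trans dv)))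
  · rw [f2]
    exact (le (β l).2).2.2 v hv'
  · have e : Φ.d - (d0 + pk _ a' / pk _ b') = pol a'' P := by
      have q1 := PF_ne hb'
      have q2 := PF_ne hP
      change _ - (d0 + algebraMap k[X] (RatFunc k) a' / algebraMap k[X] _ b') =
        algebraMap k[X] (RatFunc k) a'' / algebraMap k[X] _ (plp P)
      rw [f1, map_add, map_mul, map_mul, map_mul]
      field_simp
      ring
    rw [e]
    exact (av_pol h0 d2).2.1 v hv'
  · rcases (PF_irr hv'.1).prime.dvd_mul.1 hv'.2.1 with c | c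
    · exact FSet_gt ((g2 v (not_S0_of_dvd hRF hv'.1 c)).2.2 c)
        (fr.2.2 v (Or.inr fun a => nR v hv'.1 a c))
    · exact pl v hv'.1 (c.mul_right _)
  · obtain ⟨e, he⟩ := H3 (pol c P) (hE ▸ Submodule.mem_sup_right ⟨⟨c, c1, rfl⟩, c2⟩)
    exact ⟨e, (f3 e).trans he⟩
  · refine (spl_dim (p := p) (A := A) (F := F) (b := R * b' * plp P) (na _).1 (fac' (F * (R * b')))
      fun u hu u0 => (mem_fac' (mul_ne_zero F0 (mul_ne_zero hR hb'))).2 ⟨u0, ?_⟩).trans
        (Nat.add_le_add_right ?_ _)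
    · rcases hu with (hu | hu) | ⟨u1, u2⟩
      · exact absurd hu u0
      · exact hu.mul_right _
      · refine (((PF_irr u0).prime.dvd_mul.1 u1).resolve_right fun u3 => h3 ?_).mul_left _
        exact PF_inj u0 h0 u3 ▸ u2
    · refine (Submodule.finrank_mono fun g hg => ?_).trans (Submodule.finrank_map_le H _)
      obtain ⟨e, he⟩ := H3 g (hE ▸ Submodule.mem_sup_left (Submodule.mem_iSup_of_mem i hg))
      obtain ⟨c, c1, c2⟩ := hg.1
      exact ⟨e, ⟨c, c1, (f3 e).trans (he.trans c2)⟩, he⟩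
  · rw [ASF.de, f1, f2, H4, n2, map_add _ _ (AddMonoidHom.mk' nu _ e), add_div, add_assoc]
    rfl

theorem Ari.ty {v0 : Pl k} {ϖ0 : RatFunc k} (h : Ari p A F v0 ϖ0) {ϖ : RatFunc k} {ε : ℤ}
    (h1 : (ϖ = ϖ0 ∧ ε = 1) ∨ (ϖ = 0 ∧ (ε = 1 ∨ ε = -1))) : Ty p A F ϖ ε := by
  refine ⟨h.five, h.F_ne, h.dvd, h.nr, ?_, fun v hv => ?_, ?_, ?_⟩
  · rcases h1 with ⟨rfl, -⟩ | ⟨rfl, -⟩
    · exact h.car_ϖ
    · simp
  · rcases h1 with ⟨rfl, -⟩ | ⟨rfl, -⟩
    · exact h.ϖ_int v hv
    · simp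
  · tauto
  · rcases h1 with ⟨-, rfl⟩ | ⟨rfl, -⟩ <;> simp

theorem om_eq {b : k[X]} (hb : b ≠ 0) : ASW.om b = (fac' b).card := by
  rw [ASW.om, ← Set.ncard_coe_finset, ← Set.InjOn.ncard_image (f := plp) fun v hv v' hv' e =>
    PF_inj ((mem_fac' hb).1 hv).1 ((mem_fac' hb).1 hv').1 (e ▸ dvd_rfl)]
  refine congrArg Set.ncard (Set.ext fun P => ⟨fun h => ?_, ?_⟩)
  · exact ⟨some ⟨P, h.1⟩, (mem_fac' hb).2 ⟨Option.some_ne_none _, h.2⟩, rfl⟩
  · rintro ⟨v, hv, rfl⟩
    obtain ⟨v1, v2⟩ := (mem_fac' hb).1 hv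
    exact ⟨⟨PF_monic v, PF_irr v1⟩, v2⟩

end

end Pool.Agent.ASel
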