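import Pool.Agent.Work.MP_60d5ce_nt.AS.EllU
import Pool.Agent.Work.MP_60d5ce_nt.AS.EllA
import Pool.Agent.Work.MP_60d5ce_nt.AS.SFam
import Pool.Agent.Work.MP_60d5ce_nt.AS.EllL
import Pool.Agent.Work.MP_60d5ce_nt.AS.FMin
import Pool.Agent.Work.MP_60d5ce_nt.Asc.Basic

-- merged part: Pool.Agent.Work.MP_60d5ce_nt.AS.EllM
section
/-!
# No point of order `p` over the separable closure (plan in the header of `EllL.lean`)
-/

namespace Pool.Agent.ASel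

open WeierstrassCurve WeierstrassCurve.Affine Polynomial Pool.Agent.Quad
open scoped Classical

/-- numerator of Manin's function -/
def EllM_n {M : Type} [Field M] (a b da db x dx : M) : M :=
  (4 * a ^ 3 + 27 * b ^ 2) * dx + da * (-9 * b * x ^ 2 - 2 * a ^ 2 * x - 6 * a * b) +
    db * (6 * a * x ^ 2 - 9 * b * x + 4 * a ^ 2)

theorem EllM_id {M : Type} [Field M] (x1 x2 x3 l n d1 d2 d3 dl dn a b da db : M)
    (h3 : x3 = l ^ 2 - x1 - x2) (hd3 : d3 = 2 * l * dl - d1 - d2)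
    (ha : a = x1 * x2 + x1 * x3 + x2 * x3 + 2 * l * n) (hb : b = n ^ 2 - x1 * x2 * x3)
    (hda : da = d1 * (x2 + x3) + d2 * (x1 + x3) + d3 * (x1 + x2) + 2 * (l * dn + n * dl))
    (hdb : db = 2 * n * dn - (d1 * x2 * x3 + d2 * x1 * x3 + d3 * x1 * x2)) :
    EllM_n a b da db x1 d1 * (l * x2 + n) * (l * x3 + n) +
      EllM_n a b da db x2 d2 * (l * x1 + n) * (l * x3 + n) +
      EllM_n a b da db x3 d3 * (l * x1 + n) * (l * x2 + n) +
      3 * (3 * b * da - 2 * a * db) * l * (l * x1 + n) * (l * x2 + n) * (l * x3 + n) = 0 := by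
  subst hda hdb ha hb hd3 h3
  unfold EllM_n
  ring

variable {p : ℕ} [hp : Fact p.Prime] {M : Type} [Field M] [CharP M p]

theorem EllM_two {S : Subfield M} {t : M} (h : PB p S t) {x : M} :
    der p S t (2 * x) = 2 * der p S t x := by
  rw [two_mul, map_add, two_mul]

theorem EllM_key {S : Subfield M} {t : M} (h : PB p S t) {x1 x2 l n a b : M} (h1 : x1 ∈ S)
    (h2 : x2 ∈ S) (hl : l ∈ S) (hn : n ∈ S)
    (ha : a = x1 * x2 + x1 * (l ^ 2 - x1 - x2) + x2 * (l ^ 2 - x1 - x2) + 2 * l * n)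
    (hb : b = n ^ 2 - x1 * x2 * (l ^ 2 - x1 - x2)) (y1 : l * x1 + n ≠ 0) (y2 : l * x2 + n ≠ 0)
    (y3 : l * (l ^ 2 - x1 - x2) + n ≠ 0) :
    EllM_n a b (der p S t a) (der p S t b) (l ^ 2 - x1 - x2) (der p S t (l ^ 2 - x1 - x2)) /
        (-(l * (l ^ 2 - x1 - x2) + n)) =
      EllM_n a b (der p S t a) (der p S t b) x1 (der p S t x1) / (l * x1 + n) +
      EllM_n a b (der p S t a) (der p S t b) x2 (der p S t x2) / (l * x2 + n) +
      3 * (3 * b * der p S t a - 2 * a * der p S t b) * l := by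
  obtain ⟨x3, h3⟩ : ∃ x3, x3 = l ^ 2 - x1 - x2 := ⟨_, rfl⟩
  have m3 : x3 ∈ S := h3 ▸ S.sub_mem (S.sub_mem (S.pow_mem hl 2) h1) h2
  rw [← h3] at ha hb y3 ⊢
  have hd3 : der p S t x3 = 2 * l * der p S t l - der p S t x1 - der p S t x2 := by
    rw [h3, map_sub, map_sub, sq, h.der_mul hl hl]
    ring
  have hda : der p S t a = der p S t x1 * (x2 + x3) + der p S t x2 * (x1 + x3) +
      der p S t x3 * (x1 + x2) + 2 * (l * der p S t n + n * der p S t l) := by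
    rw [ha, map_add, map_add, map_add, mul_assoc, EllM_two h, h.der_mul h1 h2, h.der_mul h1 m3,
      h.der_mul h2 m3, h.der_mul hl hn]
    ring
  have hdb : der p S t b = 2 * n * der p S t n - (der p S t x1 * x2 * x3 +
      der p S t x2 * x1 * x3 + der p S t x3 * x1 * x2) := by
    rw [hb, map_sub, sq, h.der_mul hn hn, h.der_mul (S.mul_mem h1 h2) m3, h.der_mul h1 h2]
    ring
  have key := EllM_id x1 x2 x3 l n _ _ _ _ _ a b _ _ h3 hd3 ha hb hda hdb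
  have y3' : -(l * x3 + n) ≠ 0 := neg_ne_zero.2 y3
  rw [div_add_div _ _ y1 y2, div_add' _ _ _ (mul_ne_zero y1 y2), div_eq_div_iff y3' (mul_ne_zero y1 y2)]
  linear_combination key

/-- Manin's function -/
noncomputable def EllM_m (p : ℕ) [Fact p.Prime] [CharP M p] (S : Subfield M) (t : M) {W : Affine M}
    (P : W.Point) : M :=
  EllM_n W.a₄ W.a₆ (der p S t W.a₄) (der p S t W.a₆) (xc P) (der p S t (xc P)) / yc P

theorem EllM_add {W : Affine M} (h : SW W) {S : Subfield M} {t : M} (hS : PB p S t)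
    (h4 : W.a₄ ∈ S) {P Q : W.Point} (hP : xc P ∈ S ∧ yc P ∈ S) (hQ : xc Q ∈ S ∧ yc Q ∈ S)
    (o1 : 2 • P = 0 → P = 0) (o2 : 2 • Q = 0 → Q = 0) (o3 : 2 • (P + Q) = 0 → P + Q = 0) :
    EllM_m p S t (P + Q) = EllM_m p S t P + EllM_m p S t Q +
      3 * (3 * W.a₆ * der p S t W.a₄ - 2 * W.a₄ * der p S t W.a₆) * slp P Q := by
  have z0 : EllM_m p S t (0 : W.Point) = 0 := div_zero _
  rcases P with _ | ⟨x1, y1, n1⟩
  · rw [← Point.zero_def, zero_add, z0]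
    have : slp (0 : W.Point) Q = 0 := by cases Q <;> rfl
    rw [this]
    ring
  rcases Q with _ | ⟨x2, y2, n2⟩
  · rw [← Point.zero_def, add_zero, z0]
    have : slp (Point.some x1 y1 n1 : W.Point) 0 = 0 := rfl
    rw [this]
    ring
  have hy1 : y1 ≠ 0 := fun h0 => Point.some_ne_zero _ (o1 ((h.two_smul_zero n1).2 h0))
  have hy2 : y2 ≠ 0 := fun h0 => Point.some_ne_zero _ (o2 ((h.two_smul_zero n2).2 h0))
  have e1 := h.eqn n1
  have e2 := h.eqn n2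
  obtain ⟨mx1, my1⟩ : x1 ∈ S ∧ y1 ∈ S := hP
  obtain ⟨mx2, my2⟩ : x2 ∈ S ∧ y2 ∈ S := hQ
  have hs : slp (Point.some x1 y1 n1 : W.Point) (Point.some x2 y2 n2) = W.slope x1 x2 y1 y2 := rfl
  by_cases hx : x1 = x2
  · subst hx
    by_cases hy : y1 = W.negY x1 y2
    · rw [Point.add_of_Y_eq rfl hy, z0, hs, slope_of_Y_eq rfl hy]
      rw [h.negY_eq] at hy
      subst hy
      simp only [EllM_m, xc, yc, div_neg]
      ring
    · have hyy : y2 = y1 := by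
        rw [h.negY_eq] at hy
        have : (y1 + y2) * (y2 - y1) = 0 := by linear_combination e2 - e1
        rcases mul_eq_zero.1 this with h0 | h0
        · exact absurd (by linear_combination h0) hy
        · linear_combination h0
      subst hyy
      obtain ⟨l, hl, n3, h3⟩ := h.EllA_dbl n2 hy2
      have h2y : 2 * y2 ≠ 0 := mul_ne_zero h.two hy2
      have hl' : l = (3 * x1 ^ 2 + W.a₄) / (2 * y2) := by rw [eq_div_iff h2y, hl]
      have hsl : W.slope x1 x1 y2 y2 = l := by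
        rw [slope_of_Y_ne rfl hy, h.negY_eq, h.a1, h.a2, hl']
        ring
      have ml : l ∈ S := hl' ▸ S.div_mem (S.add_mem (S.mul_mem (ofNat_mem S 3) (S.pow_mem mx1 2)) h4)
        (S.mul_mem (ofNat_mem S 2) my2)
      rw [two_smul] at h3
      rw [h3] at o3 ⊢
      have hy3 : l * (x1 - (l ^ 2 - 2 * x1)) - y2 ≠ 0 := fun h0 =>
        Point.some_ne_zero _ (o3 ((h.two_smul_zero n3).2 h0))
      have k := EllM_key hS (a := W.a₄) (b := W.a₆) (n := y2 - l * x1) mx1 mx1 ml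
        (S.sub_mem my2 (S.mul_mem ml mx1)) (by linear_combination -hl)
        (by linear_combination -e1 + x1 * hl) (by simpa using hy2) (by simpa using hy2)
        (fun h0 => hy3 (by linear_combination -h0))
      rw [hs, hsl]
      simp only [EllM_m, xc, yc]
      rw [show l ^ 2 - 2 * x1 = l ^ 2 - x1 - x1 by ring,
        show l * (x1 - (l ^ 2 - x1 - x1)) - y2 = -(l * (l ^ 2 - x1 - x1) + (y2 - l * x1)) by ring, k,
        show l * x1 + (y2 - l * x1) = y2 by ring]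
  · obtain ⟨l, hl, n3, h3⟩ := h.EllA_add n1 n2 hx
    have hx' : x1 - x2 ≠ 0 := sub_ne_zero.2 hx
    have hl' : l = (y1 - y2) / (x1 - x2) := by rw [eq_div_iff hx', hl]
    have hsl : W.slope x1 x2 y1 y2 = l := by rw [slope_of_X_ne hx, hl']
    have ml : l ∈ S := hl' ▸ S.div_mem (S.sub_mem my1 my2) (S.sub_mem mx1 mx2)
    rw [h3] at o3 ⊢
    have hy3 : l * (x1 - (l ^ 2 - x1 - x2)) - y1 ≠ 0 := fun h0 =>
      Point.some_ne_zero _ (o3 ((h.two_smul_zero n3).2 h0))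
    have q2 : l * x2 + (y1 - l * x1) = y2 := by linear_combination -hl
    have ha : W.a₄ = x1 * x2 + x1 * (l ^ 2 - x1 - x2) + x2 * (l ^ 2 - x1 - x2) +
        2 * l * (y1 - l * x1) := by
      refine mul_left_cancel₀ hx' ?_
      rw [← q2] at e2
      linear_combination e2 - e1
    have k := EllM_key hS (a := W.a₄) (b := W.a₆) (n := y1 - l * x1) mx1 mx2 ml
      (S.sub_mem my1 (S.mul_mem ml mx1)) ha
      (by linear_combination -e1 - x1 * ha) (by simpa using hy1) (by rw [q2]; exact hy2)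
      (fun h0 => hy3 (by linear_combination -h0))
    rw [hs, hsl]
    simp only [EllM_m, xc, yc]
    rw [show l * (x1 - (l ^ 2 - x1 - x2)) - y1 = -(l * (l ^ 2 - x1 - x2) + (y1 - l * x1)) by ring, k,
      show l * x1 + (y1 - l * x1) = y1 by ring, q2]

variable [IsAlgClosed M] {W : Affine M} {A : M}

namespace Ord

variable (h : Ord p W A) {S : Subfield M} {t : M} (hS : SC p S t) (h4 : W.a₄ ∈ S) (h6 : W.a₆ ∈ S)
include h hS h4 h6

theorem manin (hκ : 2 * W.a₄ * der p S t W.a₆ ≠ 3 * der p S t W.a₄ * W.a₆) {P : W.Point}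
    (hP : p • P = 0) (h0 : P ∈ Lev p S W 0) : P = 0 := by
  by_contra hne
  have hodd : Odd p := hp.out.odd_of_ne_two fun h2 => h.sw.two (by
    have := CharP.cast_eq_zero M p
    rw [h2] at this
    exact_mod_cast this)
  have o : ∀ Q : W.Point, p • Q = 0 → 2 • Q = 0 → Q = 0 := fun Q h1 h2 => by
    obtain ⟨k, hk⟩ := hodd
    rw [hk, add_smul, one_smul, mul_comm, mul_smul, h2, smul_zero, zero_add] at h1
    exact h1
  have mem : ∀ Q : W.Point, p • Q = 0 → xc Q ∈ S ∧ yc Q ∈ S := fun Q hQ => by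
    obtain ⟨m, rfl⟩ := h.tors_cyc hne hP hQ
    simpa using (mem_lev h.sw h4).1 (AddSubgroup.nsmul_mem _ h0 m)
  set T := h.tors_fin.toFinset with hT
  have mT : ∀ Q, Q ∈ T ↔ p • Q = 0 := fun Q => by simp [hT]
  have hc : (T.card : M) = 0 := by
    have h1 : T.card = p := by
      rw [← h.tors_card, hT, ← Set.ncard_eq_toFinset_card _ h.tors_fin]
      rfl
    rw [h1, CharP.cast_eq_zero]
  have s1 : ∑ Q ∈ T, EllM_m p S t (P + Q) = ∑ Q ∈ T, EllM_m p S t Q := by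
    refine Finset.sum_bij' (fun Q _ => P + Q) (fun Q _ => -P + Q) ?_ ?_ ?_ ?_ ?_
    · intro Q hQ
      rw [mT] at hQ ⊢
      rw [smul_add, hP, hQ, add_zero]
    · intro Q hQ
      rw [mT] at hQ ⊢
      rw [smul_add, smul_neg, hP, hQ, neg_zero, add_zero]
    · intro Q _
      simp
    · intro Q _
      simp
    · intro Q _
      rfl
  have s2 : zz p P = ∑ Q ∈ T, slp P Q := finsum_mem_eq_finite_toFinset_sum _ h.tors_fin
  have s3 : ∑ Q ∈ T, EllM_m p S t (P + Q) = ∑ Q ∈ T, (EllM_m p S t P + EllM_m p S t Q +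
      3 * (3 * W.a₆ * der p S t W.a₄ - 2 * W.a₄ * der p S t W.a₆) * slp P Q) :=
    Finset.sum_congr rfl fun Q hQ => by
      rw [mT] at hQ
      exact EllM_add h.sw hS.1 h4 (mem P hP) (mem Q hQ) (o P hP) (o Q hQ)
        (o _ (by rw [smul_add, hP, hQ, add_zero]))
  rw [s1, Finset.sum_add_distrib, Finset.sum_add_distrib, Finset.sum_const, nsmul_eq_mul, hc,
    ← Finset.mul_sum, ← s2] at s3
  have s4 : 3 * (3 * W.a₆ * der p S t W.a₄ - 2 * W.a₄ * der p S t W.a₆) * zz p P = 0 := by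
    linear_combination -s3
  refine mul_ne_zero (mul_ne_zero h.sw.three fun h1 => hκ ?_) (h.lam_ne hne hP) s4
  linear_combination -h1

end Ord

end Pool.Agent.ASel
end

-- merged part: Pool.Agent.Work.MP_60d5ce_nt.AS.EllO
section
/-!
# A nonzero Hasse invariant gives a point of order `p`

Let `p = 2 m + 1`, `f = X ^ 3 + a X + b`.  The operator `s ↦ (2 s' f + s f')'` preserves the polynomials of degree `< m`.
Let `s` be an eigenvector, `U = 2 s' f + s f'`, `U' = c s`.  If `c = 0` then `U` is a constant `κ`, and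
`2 (s f ^ (m+1))' = κ f ^ m` gives `κ A = 0`, while `κ = 0` gives `(s ^ 2 f)' = 0`, which is impossible.  So `c ≠ 0`, and
`N = U ^ 2 - 2 c s ^ 2 f` has `N' = 0` and odd degree `≤ p`, so `N = α (X - x) ^ p`.  One has `U(x) ≠ 0`, and `N` is the norm of
`g = U + ν s Y`, `ν ^ 2 = 2 c`; hence `(g) = m_P ^ p` for a point `P` over `x`.
-/

namespace Pool.Agent.ASel

open WeierstrassCurve WeierstrassCurve.Affine Pool.Agent.Quad Polynomial
open scoped Classical Polynomial.Bivariate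

section

variable {p : ℕ} [hp : Fact p.Prime] {M : Type} [Field M] [CharP M p]

theorem EllO_frob {q : M[X]} (h0 : derivative q = 0) (hd : q.natDegree < 2 * p) :
    ∃ α β : M, q = C α * X ^ p + C β := by
  have h1 := expand_contract p h0 hp.out.ne_zero
  have h2 : (contract p q).natDegree ≤ 1 := by
    rw [← h1, natDegree_expand] at hd
    exact Nat.lt_succ_iff.1 (Nat.lt_of_mul_lt_mul_right hd)
  refine ⟨(contract p q).coeff 1, (contract p q).coeff 0, ?_⟩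
  conv_lhs => rw [← h1, eq_X_add_C_of_natDegree_le_one h2]
  simp

theorem EllO_ker {f s : M[X]} {e1 e2 : M} (he : e1 ≠ e2) (h1 : f.eval e1 = 0) (h2 : f.eval e2 = 0)
    (hf : f ≠ 0) (hd : (s ^ 2 * f).natDegree < 2 * p)
    (h : 2 * derivative s * f + s * derivative f = 0) : s = 0 := by
  obtain ⟨α, β, hq⟩ := EllO_frob (q := s ^ 2 * f) (by
    rw [derivative_mul, derivative_sq, map_ofNat]
    linear_combination s * h) hd
  have h3 := congrArg (eval e1) hq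
  have h4 := congrArg (eval e2) hq
  simp only [eval_mul, eval_add, eval_pow, eval_C, eval_X, h1, h2, mul_zero] at h3 h4
  have h5 : α * (e1 - e2) ^ p = 0 := by
    rw [sub_pow_char]
    linear_combination h4 - h3
  have h6 : α = 0 := (mul_eq_zero.1 h5).resolve_right (pow_ne_zero _ (sub_ne_zero.2 he))
  have h7 : β = 0 := by simpa [h6] using h3.symm
  simpa [h6, h7, hf] using hq

omit hp in
theorem EllO_im {m : ℕ} (hm : p = 2 * m + 1) {f r : M[X]} {κ : M}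
    (h : 2 * derivative r * f + r * derivative f = C κ) : κ * (f ^ m).coeff (2 * m) = 0 := by
  have h0 : (2 * m + 1 : M) = 0 := by exact_mod_cast hm ▸ CharP.cast_eq_zero M p
  have h1 : (2 * m + 1 : M[X]) = 0 := by simpa [map_ofNat] using congrArg C h0
  have h2 : derivative (2 * r * f ^ (m + 1)) = C κ * f ^ m := by
    rw [← h]
    simp only [derivative_mul, derivative_pow_succ, derivative_ofNat, map_add, map_natCast, map_one]
    linear_combination r * f ^ m * derivative f * h1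
  rw [← coeff_C_mul, ← h2, coeff_derivative]
  push_cast
  rw [h0, mul_zero]

theorem EllO_deg {m : ℕ} (hm : p = 2 * m + 1) (a b : M) {s : M[X]} (hs : ∀ j, m ≤ j → s.coeff j = 0) :
    (2 * derivative s * (X ^ 3 + C a * X + C b) +
      s * derivative (X ^ 3 + C a * X + C b)).natDegree ≤ m := by
  have h0 : (2 * m + 1 : M) = 0 := by exact_mod_cast hm ▸ CharP.cast_eq_zero M p
  have h1 : 1 ≤ m := by
    have := hp.out.two_le
    omega
  have h2 : ∀ k, (X * derivative s).coeff k = k * s.coeff k := by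
    rintro (_ | k)
    · simp
    · rw [coeff_X_mul, coeff_derivative]
      push_cast
      ring
  have h3 : 2 * derivative s * (X ^ 3 + C a * X + C b) + s * derivative (X ^ 3 + C a * X + C b) =
      X ^ 2 * (C 2 * (X * derivative s) + C 3 * s) + C (2 * a) * (X * derivative s) +
        C (2 * b) * derivative s + C a * s := by
    simp only [derivative_add, derivative_mul, derivative_C, derivative_X, derivative_X_pow, map_mul,
      map_ofNat, Nat.cast_ofNat]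
    ring
  rw [h3, natDegree_le_iff_coeff_eq_zero]
  intro N hN
  obtain ⟨k, rfl⟩ : ∃ k, N = k + 2 := ⟨N - 2, by omega⟩
  simp only [coeff_add, coeff_X_pow_mul, coeff_C_mul, h2, coeff_derivative]
  rw [hs (k + 2) (by omega), hs (k + 2 + 1) (by omega)]
  rcases Nat.lt_or_ge k m with h4 | h4
  · obtain rfl : m = k + 1 := by omega
    push_cast at h0
    linear_combination s.coeff k * h0
  · simp [hs k h4]

theorem EllO_eig [IsAlgClosed M] {m : ℕ} (hm : p = 2 * m + 1) (a b : M) : ∃ (s : M[X]) (c : M),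
    s ≠ 0 ∧ (∀ j, m ≤ j → s.coeff j = 0) ∧ derivative (2 * derivative s * (X ^ 3 + C a * X + C b) +
      s * derivative (X ^ 3 + C a * X + C b)) = C c * s := by
  have h1 : 1 ≤ m := by
    have := hp.out.two_le
    omega
  let f : M[X] := X ^ 3 + C a * X + C b
  let T : M[X] →ₗ[M] M[X] := derivative ∘ₗ
    (LinearMap.mulRight M f ∘ₗ LinearMap.mulLeft M 2 ∘ₗ derivative + LinearMap.mulRight M (derivative f))
  have hT : ∀ s, T s = derivative (2 * derivative s * f + s * derivative f) := fun _ => by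
    simp only [T, LinearMap.comp_apply, LinearMap.add_apply, LinearMap.mulRight_apply,
      LinearMap.mulLeft_apply]
  have hmem : ∀ s : M[X], s ∈ degreeLT M m ↔ ∀ j, m ≤ j → s.coeff j = 0 := fun s => by
    rw [mem_degreeLT, degree_lt_iff_coeff_zero]
  have hV : ∀ s ∈ degreeLT M m, T s ∈ degreeLT M m := by
    intro s hs
    rw [hmem] at hs ⊢
    intro j hj
    rw [hT, coeff_derivative,
      natDegree_le_iff_coeff_eq_zero.1 (EllO_deg hm a b hs) (j + 1) (by omega), zero_mul]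
  have : Nontrivial (degreeLT M m) := ⟨⟨⟨1, (hmem 1).2 fun j hj => by
    rw [coeff_one, if_neg (by omega)]⟩, 0, by simp⟩⟩
  obtain ⟨c, hc⟩ := Module.End.exists_eigenvalue (T.restrict hV)
  obtain ⟨s, hs⟩ := hc.exists_hasEigenvector
  refine ⟨s, c, fun h => hs.2 (Subtype.ext h), (hmem _).1 s.2, ?_⟩
  rw [← hT, ← LinearMap.coe_restrict_apply hV, hs.apply_eq_smul, Submodule.coe_smul, smul_eq_C_mul]

omit hp in
theorem EllO_ne {m : ℕ} (hm : p = 2 * m + 1) {f s U : M[X]} {c α x : M} (hc : 2 * c ≠ 0) (hs : s ≠ 0)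
    (hU : derivative U = C c * s) (hd : U.natDegree ≤ m)
    (hN : U ^ 2 - C (2 * c) * s ^ 2 * f = C α * (X - C x) ^ p)
    (hf : f.eval x = 0 → (derivative f).eval x ≠ 0) : U.eval x ≠ 0 := by
  intro h0
  have hc0 : c ≠ 0 := right_ne_zero_of_mul hc
  have hU0 : U ≠ 0 := by
    rintro rfl
    exact mul_ne_zero (C_ne_zero.2 hc0) hs (by simpa using hU.symm)
  obtain ⟨V, hV, hV'⟩ := exists_eq_pow_rootMultiplicity_mul_and_not_dvd U hU0 x
  have h1 : 0 < rootMultiplicity x U := (rootMultiplicity_pos hU0).2 h0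
  have h2 : rootMultiplicity x U ≤ m := by
    have := natDegree_le_of_dvd (pow_rootMultiplicity_dvd U x) hU0
    rw [natDegree_pow, natDegree_X_sub_C, mul_one] at this
    exact this.trans hd
  obtain ⟨k, hk⟩ : ∃ k, rootMultiplicity x U = k + 1 := ⟨_, (Nat.succ_pred_eq_of_pos h1).symm⟩
  rw [hk] at hV h2
  obtain ⟨j, rfl⟩ : ∃ j, m = k + 1 + j := ⟨m - (k + 1), by omega⟩
  have h3 : ((k + 1 : ℕ) : M) ≠ 0 := fun h =>
    absurd (Nat.le_of_dvd (by omega) ((CharP.cast_eq_zero_iff M p _).1 h)) (by omega)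
  set S : M[X] := C ((k + 1 : ℕ) : M) * V + (X - C x) * derivative V with hS
  have h4 : C c * s = (X - C x) ^ k * S := by
    rw [← hU, hV, hS]
    simp only [derivative_mul, derivative_pow_succ, derivative_X_sub_C, Nat.cast_add, Nat.cast_one]
    ring
  have h5 : C (2 * c) * S ^ 2 * f =
      (X - C x) ^ 2 * (C c ^ 2 * (V ^ 2 - C α * (X - C x) ^ (2 * j + 1))) := by
    refine mul_left_cancel₀ (pow_ne_zero (2 * k) (X_sub_C_ne_zero x)) ?_
    rw [hm, hV] at hN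
    linear_combination (-C c ^ 2) * hN - C (2 * c) * f * (C c * s + (X - C x) ^ k * S) * h4
  have h6 : S.eval x ≠ 0 := by
    rw [hS]
    simpa [-Nat.cast_add] using ⟨h3, fun h => hV' (dvd_iff_isRoot.2 h)⟩
  have h7 : f.eval x = 0 := by simpa [hc, h6] using congrArg (eval x) h5
  have h8 := congrArg (fun q => eval x (derivative q)) h5
  simp only [derivative_mul, derivative_sq, eval_add, eval_mul, eval_pow, eval_C, eval_sub, eval_X,
    sub_self, h7] at h8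
  exact mul_ne_zero (mul_ne_zero hc (pow_ne_zero 2 h6)) (hf h7) (by simpa using h8)

end

theorem EllO_cop {M : Type} [Field M] {W : Affine M} {u v : M[X]} {x y : M}
    (h : u.eval x + v.eval x * y ≠ 0) :
    IsCoprime (CoordinateRing.XYIdeal W x (C y))
      (Ideal.span {CoordinateRing.mk W (C u + C v * Y)}) := by
  rw [Ideal.isCoprime_iff_sup_eq]
  have h1 : CoordinateRing.mk W (C (C (u.eval x + v.eval x * y)) - (C u + C v * Y)) ∈
      CoordinateRing.XYIdeal W x (C y) := by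
    simp only [CoordinateRing.XYIdeal, CoordinateRing.XClass, CoordinateRing.YClass, ← Set.image_pair,
      ← Ideal.map_span]
    exact Ideal.mem_map_of_mem _ (mem_span_C_X_sub_C_X_sub_C_iff_eval_eval_eq_zero.2 (by simp))
  refine Ideal.eq_top_of_isUnit_mem _ ?_ (((h.isUnit.map C).map C).map (CoordinateRing.mk W))
  have h2 := Submodule.add_mem_sup h1 (Ideal.mem_span_singleton_self
    (CoordinateRing.mk W (C u + C v * Y)))
  rwa [← map_add, sub_add_cancel] at h2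

theorem ord_exists {p : ℕ} [Fact p.Prime] {M : Type} [Field M] [CharP M p] [IsAlgClosed M]
    {W : Affine M} (h : SW W) (hA : hasseInv p W.a₄ W.a₆ ≠ 0) :
    ∃ t : W.Point, t ≠ 0 ∧ p • t = 0 := by
  have hp : p.Prime := Fact.out
  obtain ⟨m, hm⟩ : ∃ m, p = 2 * m + 1 := hp.odd_of_ne_two (by
    rintro rfl
    exact h.two (by exact_mod_cast CharP.cast_eq_zero M 2))
  have hm1 : 1 ≤ m := by
    have := hp.two_le
    omega
  obtain ⟨s, c, hs, hs', hU⟩ := EllO_eig hm W.a₄ W.a₆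
  have hd := EllO_deg hm W.a₄ W.a₆ hs'
  obtain ⟨e1, e2, e3, he⟩ := h.exists_rt
  set f : M[X] := X ^ 3 + C W.a₄ * X + C W.a₆ with hf
  have hfe : ∀ x, f.eval x = x ^ 3 + W.a₄ * x + W.a₆ := fun x => by simp [hf]
  have hf3 : f.natDegree = 3 := by
    rw [hf]
    compute_degree!
  have hf0 : f ≠ 0 := fun h0 => by simp [h0] at hf3
  have hsd : s.natDegree < m := by
    rw [natDegree_lt_iff_degree_lt hs, degree_lt_iff_coeff_zero]
    exact hs'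
  have hsf : (s ^ 2 * f).natDegree = 2 * s.natDegree + 3 := by
    rw [natDegree_mul (pow_ne_zero _ hs) hf0, natDegree_pow, hf3]
  set U := 2 * derivative s * f + s * derivative f with hUd
  have hc : c ≠ 0 := by
    rintro rfl
    obtain ⟨α, β, hq⟩ := EllO_frob (p := p) (q := U) (by simpa using hU) (by omega)
    have h1 : α = 0 := by
      have h2 := natDegree_le_iff_coeff_eq_zero.1 hd p (by omega)
      rw [hq] at h2
      simpa [coeff_C, hp.ne_zero] using h2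
    rw [h1, C_0, zero_mul, zero_add] at hq
    have h3 := EllO_im hm hq
    have h4 : hasseInv p W.a₄ W.a₆ = (f ^ m).coeff (2 * m) := by
      rw [hasseInv, show p - 1 = 2 * m by omega, Nat.mul_div_cancel_left _ two_pos]
    have h5 : β = 0 := (mul_eq_zero.1 h3).resolve_right (h4 ▸ hA)
    exact hs (EllO_ker (p := p) he.ne12 (by rw [hfe, he.root]) (by rw [hfe, he.swap12.root]) hf0
      (by omega) (by rw [← hUd, hq, h5, C_0]))
  have hc2 : 2 * c ≠ 0 := mul_ne_zero h.two hc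
  have hcd : (C (2 * c) * s ^ 2 * f).natDegree = 2 * s.natDegree + 3 := by
    rw [mul_assoc, natDegree_C_mul hc2, hsf]
  obtain ⟨α, β, hN⟩ := EllO_frob (p := p) (q := U ^ 2 - C (2 * c) * s ^ 2 * f) (by
    simp only [derivative_sub, derivative_mul, derivative_sq, derivative_C, hU, map_mul, map_ofNat,
      derivative_ofNat]
    rw [hUd]
    ring) ((natDegree_sub_le _ _).trans_lt (by rw [hcd, natDegree_pow]; omega))
  have hα : α ≠ 0 := by
    rintro rfl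
    have h1 : C (2 * c) * s ^ 2 * f = U ^ 2 - C β := by linear_combination -hN - C_0 (R := M) * X ^ p
    rw [h1, natDegree_sub_C, natDegree_pow] at hcd
    omega
  obtain ⟨x, hx⟩ := IsAlgClosed.exists_pow_nat_eq (-β / α) hp.pos
  have hN' : U ^ 2 - C (2 * c) * s ^ 2 * f = C α * (X - C x) ^ p := by
    rw [hN, sub_pow_char, ← C_pow, hx, mul_sub, ← C_mul, mul_div_cancel₀ _ hα, C_neg, sub_neg_eq_add]
  have hUx := EllO_ne hm hc2 hs hU hd hN' fun h1 h2 => h.disc (by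
    rw [hfe] at h1
    have h3 : (2 + 1) * x ^ 2 + W.a₄ = 0 := by simpa [hf] using h2
    linear_combination (27 * W.a₆ - 18 * W.a₄ * x) * h1 +
      (6 * W.a₄ * x ^ 2 - 9 * W.a₆ * x + 4 * W.a₄ ^ 2) * h3)
  obtain ⟨ν, hν⟩ := IsAlgClosed.exists_pow_nat_eq (2 * c) two_pos
  have h1 : U.eval x ^ 2 = (ν * s.eval x) ^ 2 * f.eval x := by
    have := congrArg (eval x) hN'
    simp only [eval_sub, eval_mul, eval_pow, eval_C, eval_X, sub_self, zero_pow hp.ne_zero] at this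
    rw [mul_pow, hν]
    linear_combination this
  have h2 : ν * s.eval x ≠ 0 := fun h0 => hUx (by simpa [h0] using h1)
  obtain ⟨y, hy⟩ : ∃ y, U.eval x = -(ν * s.eval x * y) := 
    ⟨-U.eval x / (ν * s.eval x), by rw [mul_div_cancel₀ _ h2, neg_neg]⟩
  have hn : W.Nonsingular x y := h.nonsing (by
    rw [← hfe]
    refine mul_left_cancel₀ (pow_ne_zero 2 h2) ?_
    rw [← h1, hy]
    ring)
  have h2U : 2 * U.eval x ≠ 0 := mul_ne_zero h.two hUx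
  have c1 := EllO_cop (W := W) (u := U) (v := -(C ν * s)) (x := x) (y := y) (by
    rw [show U.eval x + (-(C ν * s)).eval x * y = 2 * U.eval x by simp [hy]; ring]
    exact h2U)
  have c2 := EllO_cop (W := W) (u := U) (v := C ν * s) (x := x) (y := W.negY x y) (by
    rw [show U.eval x + (C ν * s).eval x * W.negY x y = 2 * U.eval x by rw [h.negY_eq]; simp [hy]; ring]
    exact h2U)
  have hg : CoordinateRing.mk W (C U + C (C ν * s) * Y) * CoordinateRing.mk W (C U + C (-(C ν * s)) * Y) =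
      CoordinateRing.mk W (C (C α)) * CoordinateRing.XClass W x ^ p := by
    rw [CoordinateRing.XClass, ← map_pow, ← map_mul, ← map_mul, ← C_pow, ← C_mul, ← hN', ← hν]
    refine AdjoinRoot.mk_eq_mk.2 ⟨-C (C ν * s) ^ 2, ?_⟩
    simp only [polynomial, h.a1, h.a2, h.a3, hf, map_add, map_sub, map_mul, map_pow, map_neg, map_zero]
    ring
  have hI : CoordinateRing.XYIdeal W x (C y) ^ p * CoordinateRing.XYIdeal W x (C (W.negY x y)) ^ p =
      Ideal.span {CoordinateRing.mk W (C U + C (C ν * s) * Y)} *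
        Ideal.span {CoordinateRing.mk W (C U + C (-(C ν * s)) * Y)} := by
    rw [← mul_pow, mul_comm, CoordinateRing.XYIdeal_neg_mul hn, Ideal.span_singleton_mul_span_singleton,
      hg, Ideal.span_singleton_mul_left_unit (((hα.isUnit.map C).map C).map _), CoordinateRing.XIdeal,
      Ideal.span_singleton_pow]
  have hJ : CoordinateRing.XYIdeal W x (C y) ^ p =
      Ideal.span {CoordinateRing.mk W (C U + C (C ν * s) * Y)} :=
    le_antisymm (Ideal.le_of_dvd (c2.pow_left.symm.dvd_of_dvd_mul_right ⟨_, hI⟩))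
      (Ideal.le_of_dvd (c1.pow_left.dvd_of_dvd_mul_right ⟨_, hI.symm⟩))
  refine ⟨.some x y hn, Point.some_ne_zero hn, (Point.toClass_eq_zero _).1 ?_⟩
  rw [map_nsmul, Point.toClass_some]
  change ClassGroup.mk W.FunctionField (CoordinateRing.XYIdeal' (W := W) hn) ^ p = 1
  rw [← map_pow]
  refine (ClassGroup.mk_eq_one_of_coe_ideal (I' := CoordinateRing.XYIdeal W x (C y) ^ p) (by
    rw [Units.val_pow_eq_pow_val, CoordinateRing.XYIdeal'_eq, FractionalIdeal.coeIdeal_pow])).2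
    ⟨_, fun h0 => ?_, hJ⟩
  rw [h0, zero_mul] at hg
  exact mul_ne_zero (((hα.isUnit.map C).map C).map (CoordinateRing.mk W)).ne_zero
    (pow_ne_zero _ (CoordinateRing.XClass_ne_zero x)) hg.symm

end Pool.Agent.ASel
end

-- merged part: Pool.Agent.Work.MP_60d5ce_nt.AG.SelD
section
/-!
# Selmer groups of the Frobenius twists of `E`, inside `E(Kb)`

`Zs H n`: pairs `(ξ, Q)`, `ξ` a smooth cocycle on `H` with values of level `n`, `ξ - ∂ Q` killed by a power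
of `p`, `ξ` locally split by points of level `n`.  `Bs H n`: the pairs `(∂ P, P + t)`.  `Amb H n` is the
quotient of all pairs by `Bs H n`, `Sel H n` the image of `Zs H n`.  `Kap s a w`: the cocycle `(a, w)`
represents the `p`-torsion class `s`.

PLAN.  `ord_Kb`: `ord_exists` with `sc_Kb`, `der_poly`, `PB.der_map`; `hasseInv` commutes with ring maps.
`ord_Lb`: `Cmp.ord` along `exists_emb`.  Closure properties: two local splittings along the same `j`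
add up; for `cj γ` use the embedding `j ∘ γ`.  `exists_vp0`: `Ord.exists_vp`; `ϖ = bk 1 t / zz t` is fixed by
every `σ` (`σ t` is again of order `p`, `Cmp.bk_eq`, `zz_map`), `om_fix`.  `lev0_tors`: `Ord.manin`,
induction on `n`.
-/

namespace Pool.Agent.ASel

open Polynomial Pool.Agent.Smith Pool.Agent.ShaAsc WeierstrassCurve WeierstrassCurve.Affine
open scoped Classical

noncomputable section

variable {k : Type} [Field k]

/-- the curve `y ^ 2 = x ^ 3 + a4 x + a6` over `k(t)` -/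
def Ew (a4 a6 : k[X]) : WeierstrassCurve (RatFunc k) :=
  ⟨0, 0, 0, algebraMap k[X] _ a4, algebraMap k[X] _ a6⟩

/-- the curve over an extension field -/
abbrev Wm (a4 a6 : k[X]) (M : Type) [Field M] [Algebra (RatFunc k) M] : Affine M :=
  (Ew a4 a6).toAffine.baseChange M

/-- the discriminant -/
def Dc (a4 a6 : k[X]) : k[X] := 4 * a4 ^ 3 + 27 * a6 ^ 2

/-- hypotheses on the curve -/
structure Hy (p : ℕ) (a4 a6 : k[X]) : Prop where
  five : 5 ≤ p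
  disc : Dc a4 a6 ≠ 0
  kap : 2 * a4 * derivative a6 ≠ 3 * derivative a4 * a6
  nsq : ∀ y : RatFunc k, y ^ (p - 1) ≠ pk _ (hasseInv p a4 a6)

variable (a4 a6 : k[X])

/-- points over the algebraic closure -/
abbrev EK : Type := Pts (Ew a4 a6) (Kb k)

/-- the map on points induced by an embedding -/
def em {v : Pl k} (j : Kb k →ₐ[RatFunc k] Lb v) : EK a4 a6 →+ Pts (Ew a4 a6) (Lb v) :=
  Point.map (W' := (Ew a4 a6).toAffine) j

/-- conjugation of pairs -/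
def cj (γ : Gk k) : (Gk k → EK a4 a6) × EK a4 a6 →+ (Gk k → EK a4 a6) × EK a4 a6 where
  toFun x := (fun σ => act _ γ (x.1 (γ⁻¹ * σ * γ)), act _ γ x.2)
  map_zero' := by ext <;> simp
  map_add' x y := by ext <;> simp

variable {a4 a6}

/-- separable elements fixed by `H` -/
def KH (H : Subgroup (Gk k)) (x : Kb k) : Prop := x ∈ Om (RatFunc k) (Kb k) ∧ ∀ σ ∈ H, σ x = x

/-- local separable elements fixed by the decomposition group in `H` -/
def LH (H : Subgroup (Gk k)) (v : Pl k) (j : Kb k →ₐ[RatFunc k] Lb v) (y : Lb v) : Prop :=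
  y ∈ Om (Lv v) (Lb v) ∧ ∀ τ : Lb v ≃ₐ[Lv v] Lb v, ∀ σ ∈ H, (∀ x, j (σ x) = τ (j x)) → τ y = y

variable (p : ℕ) [Fintype k] [hp : Fact p.Prime] [CharP k p] (a4 a6)

/-- global points of level `n` -/
abbrev LG (n : ℕ) : AddSubgroup (EK a4 a6) := Lev p (Om (RatFunc k) (Kb k)) (Wm a4 a6 (Kb k)) n

/-- local points of level `n` -/
abbrev LL (v : Pl k) (n : ℕ) : AddSubgroup (Pts (Ew a4 a6) (Lb v)) :=
  Lev p (Om (Lv v) (Lb v)) (Wm a4 a6 (Lb v)) n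

/-- the global differential of level `n` -/
abbrev bG (n : ℕ) (Q : EK a4 a6) : Kb k :=
  bk p (Om (RatFunc k) (Kb k)) (tv k (Kb k)) (pk _ (hasseInv p a4 a6)) n Q

/-- the local differential of level `n` -/
abbrev bL (v : Pl k) (n : ℕ) (Q : Pts (Ew a4 a6) (Lb v)) : Lb v :=
  bk p (Om (Lv v) (Lb v)) (tv k (Lb v)) (pk _ (hasseInv p a4 a6)) n Q

/-- the conditions on Selmer pairs -/
def IsZ (H : Subgroup (Gk k)) (n : ℕ) (x : (Gk k → EK a4 a6) × EK a4 a6) : Prop :=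
  (∀ σ ∈ H, x.1 σ ∈ LG a4 a6 p n) ∧
  (∀ σ ∈ H, ∀ τ ∈ H, x.1 (σ * τ) = x.1 σ + act _ σ (x.1 τ)) ∧
  (∃ X : Finset (Kb k), ∀ σ ∈ H, (∀ y ∈ X, σ y = y) → x.1 σ = 0) ∧
  (∃ m : ℕ, ∀ σ ∈ H, p ^ m • (x.1 σ - (act _ σ x.2 - x.2)) = 0) ∧
  ∀ (v : Pl k) (j : Kb k →ₐ[RatFunc k] Lb v), ∃ R ∈ LL a4 a6 p v n,
    ∀ τ : Lb v ≃ₐ[Lv v] Lb v, ∀ σ ∈ H, (∀ y, j (σ y) = τ (j y)) →
      em a4 a6 j (x.1 σ) = act _ τ R - R

/-- the conditions on trivial pairs -/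
def IsB (H : Subgroup (Gk k)) (n : ℕ) (x : (Gk k → EK a4 a6) × EK a4 a6) : Prop :=
  ∃ P ∈ LG a4 a6 p n, (∀ σ ∈ H, x.1 σ = act _ σ P - P) ∧ ∃ m : ℕ, p ^ m • (x.2 - P) = 0

variable {p a4 a6}

theorem IsZ.sub {H : Subgroup (Gk k)} {n : ℕ} {x y : (Gk k → EK a4 a6) × EK a4 a6}
    (hx : IsZ a4 a6 p H n x) (hy : IsZ a4 a6 p H n y) : IsZ a4 a6 p H n (x - y) := by
  obtain ⟨a1, a2, ⟨X, a3⟩, ⟨m, a4'⟩, a5⟩ := hx
  obtain ⟨b1, b2, ⟨Y, b3⟩, ⟨m', b4⟩, b5⟩ := hy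
  refine ⟨fun σ hσ => sub_mem (a1 σ hσ) (b1 σ hσ), fun σ hσ τ hτ => ?_, ⟨X ∪ Y, fun σ hσ e => ?_⟩,
    ⟨m + m', fun σ hσ => ?_⟩, fun v j => ?_⟩
  · simp only [Prod.fst_sub, Pi.sub_apply, map_sub, a2 σ hσ τ hτ, b2 σ hσ τ hτ]
    abel
  · simp only [Prod.fst_sub, Pi.sub_apply]
    rw [a3 σ hσ fun y hy => e y (Finset.mem_union_left _ hy),
      b3 σ hσ fun y hy => e y (Finset.mem_union_right _ hy), sub_zero]
  · have e : (x - y).1 σ - (act _ σ (x - y).2 - (x - y).2) =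
        (x.1 σ - (act _ σ x.2 - x.2)) - (y.1 σ - (act _ σ y.2 - y.2)) := by
      simp only [Prod.fst_sub, Prod.snd_sub, Pi.sub_apply, map_sub]
      abel
    rw [e, smul_sub, pow_add, mul_smul, mul_smul, b4 σ hσ, smul_comm, a4' σ hσ, smul_zero,
      smul_zero, sub_zero]
  · obtain ⟨R, r1, r2⟩ := a5 v j
    obtain ⟨R', s1, s2⟩ := b5 v j
    refine ⟨R - R', sub_mem r1 s1, fun τ σ hσ e => ?_⟩
    simp only [Prod.fst_sub, Pi.sub_apply, map_sub, r2 τ σ hσ e, s2 τ σ hσ e]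
    abel

theorem isZ_zero (H : Subgroup (Gk k)) (n : ℕ) : IsZ a4 a6 p H n 0 :=
  ⟨fun _ _ => zero_mem _, fun _ _ _ _ => by simp, ⟨∅, fun _ _ _ => rfl⟩, ⟨0, fun _ _ => by simp⟩,
    fun _ _ => ⟨0, zero_mem _, fun _ _ _ _ => by simp⟩⟩

theorem IsB.sub {H : Subgroup (Gk k)} {n : ℕ} {x y : (Gk k → EK a4 a6) × EK a4 a6}
    (hx : IsB a4 a6 p H n x) (hy : IsB a4 a6 p H n y) : IsB a4 a6 p H n (x - y) := by
  obtain ⟨P, a1, a2, m, a3⟩ := hx
  obtain ⟨Q, b1, b2, m', b3⟩ := hy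
  refine ⟨P - Q, sub_mem a1 b1, fun σ hσ => ?_, m + m', ?_⟩
  · simp only [Prod.fst_sub, Pi.sub_apply, map_sub, a2 σ hσ, b2 σ hσ]
    abel
  · have e : (x - y).2 - (P - Q) = (x.2 - P) - (y.2 - Q) := by
      simp only [Prod.snd_sub]
      abel
    rw [e, smul_sub, pow_add, mul_smul, mul_smul, b3, smul_comm, a3, smul_zero, smul_zero, sub_zero]

theorem isB_zero (H : Subgroup (Gk k)) (n : ℕ) : IsB a4 a6 p H n 0 :=
  ⟨0, zero_mem _, fun _ _ => by simp, 0, by simp⟩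

variable (p a4 a6)

/-- Selmer pairs -/
def Zs (H : Subgroup (Gk k)) (n : ℕ) : AddSubgroup ((Gk k → EK a4 a6) × EK a4 a6) :=
  AddSubgroup.ofSub {x | IsZ a4 a6 p H n x} ⟨0, isZ_zero H n⟩ fun _ hx _ hy => IsZ.sub hx hy

/-- trivial pairs -/
def Bs (H : Subgroup (Gk k)) (n : ℕ) : AddSubgroup ((Gk k → EK a4 a6) × EK a4 a6) :=
  AddSubgroup.ofSub {x | IsB a4 a6 p H n x} ⟨0, isB_zero H n⟩ fun _ hx _ hy => IsB.sub hx hy

/-- all pairs modulo trivial pairs -/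
abbrev Amb (H : Subgroup (Gk k)) (n : ℕ) : Type := ((Gk k → EK a4 a6) × EK a4 a6) ⧸ Bs a4 a6 p H n

/-- the Selmer group of level `n` -/
def Sel (H : Subgroup (Gk k)) (n : ℕ) : AddSubgroup (Amb a4 a6 p H n) :=
  (Zs a4 a6 p H n).map (QuotientAddGroup.mk' _)

/-- the constant `ϖ` of level zero -/
def vp0 : RatFunc k := Classical.epsilon fun ϖ => ∀ P : EK a4 a6, p • P = 0 →
  bG a4 a6 p 1 P = zz p P * algebraMap _ _ ϖ

/-- the constant `ϖ` of level `n` -/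
def vpk (n : ℕ) : RatFunc k := if n = 0 then vp0 a4 a6 p else 0

/-- `(a, w)` represents the class `s` -/
def Kap (H : Subgroup (Gk k)) (n : ℕ) (s : Amb a4 a6 p H n) (a w : Kb k) : Prop :=
  ∃ (x : (Gk k → EK a4 a6) × EK a4 a6) (Q : EK a4 a6) (z : Kb k), (x : Amb a4 a6 p H n) = s ∧
    IsZ a4 a6 p H n x ∧ Q ∈ LG a4 a6 p (n + 1) ∧ (∃ m : ℕ, p ^ m • (x.2 - Q) = 0) ∧
    (∀ σ ∈ H, p • (x.1 σ - (act _ σ Q - Q)) = 0) ∧ z ∈ Om (RatFunc k) (Kb k) ∧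
    (∀ σ ∈ H, σ z - z = -zz p (x.1 σ - (act _ σ Q - Q))) ∧
    a = z ^ p / pk _ (hasseInv p a4 a6) - z ∧
    w = bG a4 a6 p (n + 1) Q - z ^ p / pk _ (hasseInv p a4 a6) * algebraMap _ _ (vpk a4 a6 p n)

/-- open subgroups that fix no point of order `p` -/
structure Opn (H : Subgroup (Gk k)) : Prop where
  opn : ∃ X : Finset (Kb k), ∀ σ : Gk k, (∀ y ∈ X, σ y = y) → σ ∈ H
  noT : ∀ t : EK a4 a6, p • t = 0 → (∀ σ ∈ H, act _ σ t = t) → t = 0

variable {p a4 a6}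

theorem mem_Zs {H : Subgroup (Gk k)} {n : ℕ} {x : (Gk k → EK a4 a6) × EK a4 a6} :
    x ∈ Zs a4 a6 p H n ↔ IsZ a4 a6 p H n x := Iff.rfl

theorem mem_Bs {H : Subgroup (Gk k)} {n : ℕ} {x : (Gk k → EK a4 a6) × EK a4 a6} :
    x ∈ Bs a4 a6 p H n ↔ IsB a4 a6 p H n x := Iff.rfl

theorem cmp_act (σ : Gk k) : Cmp (act (Ew a4 a6) σ) (σ : Kb k →+* Kb k) :=
  cmp_map (Ew a4 a6) σ.toAlgHom

theorem cmp_actL {v : Pl k} (τ : Lb v ≃ₐ[Lv v] Lb v) :
    Cmp (act (Ew a4 a6) τ) (τ : Lb v →+* Lb v) :=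
  ⟨WeierstrassCurve.map_baseChange (Ew a4 a6) τ.toAlgHom, fun _ _ _ => ⟨_, rfl⟩⟩

theorem cmp_em {v : Pl k} (j : Kb k →ₐ[RatFunc k] Lb v) :
    Cmp (em a4 a6 j) (j : Kb k →+* Lb v) :=
  cmp_map (Ew a4 a6) j

theorem em_act {v : Pl k} (j : Kb k →ₐ[RatFunc k] Lb v) {σ : Gk k} {τ : Lb v ≃ₐ[Lv v] Lb v}
    (h : ∀ y, j (σ y) = τ (j y)) (P : EK a4 a6) :
    em a4 a6 j (act _ σ P) = act _ τ (em a4 a6 j P) :=
  map_act j h P

theorem Wm_a4 (M : Type) [Field M] [Algebra (RatFunc k) M] : (Wm a4 a6 M).a₄ = pk M a4 := rfl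

theorem Wm_a6 (M : Type) [Field M] [Algebra (RatFunc k) M] : (Wm a4 a6 M).a₆ = pk M a6 := rfl

theorem SelD_omL (v : Pl k) (a : RatFunc k) : algebraMap _ (Lb v) a ∈ Om (Lv v) (Lb v) :=
  om_alg (algebraMap _ (Lv v) a)

theorem SelD_lev {M M' : Type} [Field M] [Field M'] [CharP M p] [CharP M' p] {W : Affine M}
    {W' : Affine M'} {s : W.Point →+ W'.Point} {f : M →+* M'} (h : Cmp s f) {S : Subfield M}
    {S' : Subfield M'} (hS : ∀ x ∈ S, f x ∈ S')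
    (hW : W.a₁ ∈ S ∧ W.a₂ ∈ S ∧ W.a₃ ∈ S ∧ W.a₄ ∈ S) {n : ℕ} {P : W.Point}
    (hP : P ∈ Lev p S W n) : s P ∈ Lev p S' W' n := by
  intro _
  rw [h.xc_eq, h.yc_eq, ← map_pow, ← map_pow]
  exact (hP hW).imp (hS _) (hS _)

theorem SelD_emom {v : Pl k} (j : Kb k →ₐ[RatFunc k] Lb v) {x : Kb k}
    (hx : x ∈ Om (RatFunc k) (Kb k)) : j x ∈ Om (Lv v) (Lb v) :=
  om_map (algebraMap (RatFunc k) (Lv v)) (j : Kb k →+* Lb v) (fun a => j.commutes a) hx

theorem pk_om (f : k[X]) : pk (Kb k) f ∈ Om (RatFunc k) (Kb k) := om_alg _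

theorem pk_omL (v : Pl k) (f : k[X]) : pk (Lb v) f ∈ Om (Lv v) (Lb v) := SelD_omL v _

theorem lg_act {n : ℕ} (σ : Gk k) {P : EK a4 a6} (hP : P ∈ LG a4 a6 p n) :
    act _ σ P ∈ LG a4 a6 p n :=
  SelD_lev (cmp_act σ) (fun _ hx => om_act σ hx) ⟨om_alg _, om_alg _, om_alg _, om_alg _⟩ hP

theorem ll_act {n : ℕ} {v : Pl k} (τ : Lb v ≃ₐ[Lv v] Lb v) {P : Pts (Ew a4 a6) (Lb v)}
    (hP : P ∈ LL a4 a6 p v n) : act _ τ P ∈ LL a4 a6 p v n :=
  SelD_lev (cmp_actL τ) (fun _ hx => om_act τ hx)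
    ⟨SelD_omL v _, SelD_omL v _, SelD_omL v _, SelD_omL v _⟩ hP

theorem ll_em {n : ℕ} {v : Pl k} (j : Kb k →ₐ[RatFunc k] Lb v) {P : EK a4 a6}
    (hP : P ∈ LG a4 a6 p n) : em a4 a6 j P ∈ LL a4 a6 p v n :=
  SelD_lev (cmp_em j) (fun _ hx => SelD_emom j hx) ⟨om_alg _, om_alg _, om_alg _, om_alg _⟩ hP

theorem IsB.isZ {H : Subgroup (Gk k)} {n : ℕ} {x : (Gk k → EK a4 a6) × EK a4 a6}
    (hx : IsB a4 a6 p H n x) : IsZ a4 a6 p H n x := by
  obtain ⟨P, a1, a2, m, a3⟩ := hx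
  obtain ⟨X, hX⟩ := act_fix (K := RatFunc k) P
  refine ⟨fun σ hσ => ?_, fun σ hσ τ hτ => ?_, ⟨X, fun σ hσ e => ?_⟩, ⟨m, fun σ hσ => ?_⟩,
    fun v j => ⟨em a4 a6 j P, ll_em j a1, fun τ σ hσ e => ?_⟩⟩
  · rw [a2 σ hσ]
    exact sub_mem (lg_act σ a1) a1
  · rw [a2 _ (mul_mem hσ hτ), a2 σ hσ, a2 τ hτ, act_mul, map_sub]
    abel
  · rw [a2 σ hσ, hX σ e, sub_self]
  · have e : x.1 σ - (act _ σ x.2 - x.2) = (x.2 - P) - act _ σ (x.2 - P) := by
      rw [a2 σ hσ, map_sub]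
      abel
    rw [e, smul_sub, ← map_nsmul, a3, map_zero, sub_zero]
  · rw [a2 σ hσ, map_sub, em_act j e]

theorem SelD_cj (γ σ : Gk k) (Q : EK a4 a6) :
    act _ γ (act _ (γ⁻¹ * σ * γ) Q) = act _ σ (act _ γ Q) := by
  rw [← act_mul, ← act_mul, ← mul_assoc, ← mul_assoc, mul_inv_cancel, one_mul]

theorem IsZ.cj {H : Subgroup (Gk k)} [H.Normal] {n : ℕ} {x : (Gk k → EK a4 a6) × EK a4 a6}
    (hx : IsZ a4 a6 p H n x) (γ : Gk k) : IsZ a4 a6 p H n (cj a4 a6 γ x) := by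
  obtain ⟨a1, a2, ⟨X, a3⟩, ⟨m, a4'⟩, a5⟩ := hx
  have c : ∀ σ ∈ H, γ⁻¹ * σ * γ ∈ H := fun σ hσ => Subgroup.Normal.conj_mem' inferInstance σ hσ γ
  refine ⟨fun σ hσ => lg_act γ (a1 _ (c σ hσ)), fun σ hσ τ hτ => ?_,
    ⟨X.image γ, fun σ hσ e => ?_⟩, ⟨m, fun σ hσ => ?_⟩, fun v j => ?_⟩
  · change act _ γ (x.1 (γ⁻¹ * (σ * τ) * γ)) =
      act _ γ (x.1 (γ⁻¹ * σ * γ)) + act _ σ (act _ γ (x.1 (γ⁻¹ * τ * γ)))
    rw [show γ⁻¹ * (σ * τ) * γ = (γ⁻¹ * σ * γ) * (γ⁻¹ * τ * γ) by group,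
      a2 _ (c σ hσ) _ (c τ hτ), map_add, SelD_cj]
  · change act _ γ (x.1 (γ⁻¹ * σ * γ)) = 0
    rw [a3 _ (c σ hσ) fun y hy => ?_, map_zero]
    rw [AlgEquiv.mul_apply, AlgEquiv.mul_apply, e _ (Finset.mem_image_of_mem _ hy),
      ← AlgEquiv.mul_apply, inv_mul_cancel, AlgEquiv.one_apply]
  · change p ^ m • (act _ γ (x.1 (γ⁻¹ * σ * γ)) - (act _ σ (act _ γ x.2) - act _ γ x.2)) = 0
    rw [← SelD_cj, ← map_sub, ← map_sub, ← map_nsmul, a4' _ (c σ hσ), map_zero]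
  · obtain ⟨R, r1, r2⟩ := a5 v (j.comp γ.toAlgHom)
    refine ⟨R, r1, fun τ σ hσ e => ?_⟩
    rw [← r2 τ _ (c σ hσ) fun y => ?_]
    · exact map_act_eq j (j.comp γ.toAlgHom) (fun _ => rfl) _
    · change j (γ ((γ⁻¹ * σ * γ) y)) = τ (j (γ y))
      rw [← e, ← AlgEquiv.mul_apply, ← mul_assoc, ← mul_assoc, mul_inv_cancel, one_mul,
        AlgEquiv.mul_apply]

theorem IsB.cj {H : Subgroup (Gk k)} [H.Normal] {n : ℕ} {x : (Gk k → EK a4 a6) × EK a4 a6}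
    (hx : IsB a4 a6 p H n x) (γ : Gk k) : IsB a4 a6 p H n (cj a4 a6 γ x) := by
  obtain ⟨P, a1, a2, m, a3⟩ := hx
  have c : ∀ σ ∈ H, γ⁻¹ * σ * γ ∈ H := fun σ hσ => Subgroup.Normal.conj_mem' inferInstance σ hσ γ
  refine ⟨act _ γ P, lg_act γ a1, fun σ hσ => ?_, m, ?_⟩
  · change act _ γ (x.1 (γ⁻¹ * σ * γ)) = _
    rw [a2 _ (c σ hσ), map_sub, SelD_cj]
  · change p ^ m • (act _ γ x.2 - act _ γ P) = 0
    rw [← map_sub, ← map_nsmul, a3, map_zero]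

theorem IsZ.mono {H H' : Subgroup (Gk k)} (h : H' ≤ H) {n : ℕ} {x : (Gk k → EK a4 a6) × EK a4 a6}
    (hx : IsZ a4 a6 p H n x) : IsZ a4 a6 p H' n x := by
  obtain ⟨a1, a2, ⟨X, a3⟩, ⟨m, a4'⟩, a5⟩ := hx
  refine ⟨fun σ hσ => a1 σ (h hσ), fun σ hσ τ hτ => a2 σ (h hσ) τ (h hτ),
    ⟨X, fun σ hσ => a3 σ (h hσ)⟩, ⟨m, fun σ hσ => a4' σ (h hσ)⟩, fun v j => ?_⟩
  obtain ⟨R, r1, r2⟩ := a5 v j
  exact ⟨R, r1, fun τ σ hσ => r2 τ σ (h hσ)⟩

theorem IsB.mono {H H' : Subgroup (Gk k)} (h : H' ≤ H) {n : ℕ} {x : (Gk k → EK a4 a6) × EK a4 a6}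
    (hx : IsB a4 a6 p H n x) : IsB a4 a6 p H' n x := by
  obtain ⟨P, a1, a2, a3⟩ := hx
  exact ⟨P, a1, fun σ hσ => a2 σ (h hσ), a3⟩

theorem IsZ.up {H : Subgroup (Gk k)} {n : ℕ} {x : (Gk k → EK a4 a6) × EK a4 a6}
    (hx : IsZ a4 a6 p H n x) : IsZ a4 a6 p H (n + 1) x := by
  obtain ⟨a1, a2, a3, a4', a5⟩ := hx
  refine ⟨fun σ hσ => lev_mono n (a1 σ hσ), a2, a3, a4', fun v j => ?_⟩
  obtain ⟨R, r1, r2⟩ := a5 v j
  exact ⟨R, lev_mono n r1, r2⟩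

theorem IsB.up {H : Subgroup (Gk k)} {n : ℕ} {x : (Gk k → EK a4 a6) × EK a4 a6}
    (hx : IsB a4 a6 p H n x) : IsB a4 a6 p H (n + 1) x := by
  obtain ⟨P, a1, a2⟩ := hx
  exact ⟨P, lev_mono n a1, a2⟩

theorem SelD_hasse {R R' : Type} [CommRing R] [CommRing R'] (p : ℕ) (f : R →+* R') (a b : R) :
    f (hasseInv p a b) = hasseInv p (f a) (f b) := by
  unfold hasseInv
  rw [← Polynomial.coeff_map]
  simp

theorem SelD_inj (M : Type) [Field M] [Algebra (RatFunc k) M] :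
    Function.Injective (pk (k := k) M) :=
  (algebraMap (RatFunc k) M).injective.comp (IsFractionRing.injective k[X] (RatFunc k))

theorem SelD_der (f : k[X]) : der p (Om (RatFunc k) (Kb k)) (tv k (Kb k)) (pk (Kb k) f) =
    pk (Kb k) (derivative f) := by
  have d1 := (pb_K (k := k) (p := p)).der_map (algebraMap _ (Kb k)) (fun a _ => om_alg a)
    (sc_Kb (p := p)).1 (x := algebraMap k[X] _ f) trivial
  rw [der_poly] at d1
  exact d1.symm

theorem SelD_as {y : Kb k} {d : RatFunc k} (h : y ^ p - y = algebraMap _ _ d) (σ : Gk k) :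
    ∃ c : ℕ, σ y = y + c := by
  have e : (σ y - y) ^ p = σ y - y := by
    have e1 := congrArg σ h
    rw [map_sub, map_pow, AlgEquiv.commutes] at e1
    rw [sub_pow_char]
    linear_combination e1 - h
  obtain ⟨c, hc⟩ := Wp_fix e
  exact ⟨c, by rw [← hc, add_sub_cancel]⟩

namespace Hy

variable (h : Hy p a4 a6)
include h

theorem SelD_A : hasseInv p a4 a6 ≠ 0 := fun e => h.nsq 0 (by
  rw [e, map_zero, zero_pow (Nat.sub_ne_zero_of_lt hp.out.one_lt)])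

theorem ord_Kb : Ord p (Wm a4 a6 (Kb k)) (pk _ (hasseInv p a4 a6)) := by
  have sw : Quad.SW (Wm a4 a6 (Kb k)) := by
    refine ⟨map_zero (algebraMap (RatFunc k) (Kb k)), map_zero (algebraMap (RatFunc k) (Kb k)),
      map_zero (algebraMap (RatFunc k) (Kb k)), fun e => h.disc (SelD_inj (Kb k) ?_), fun e => ?_⟩
    · rw [Wm_a4, Wm_a6] at e
      rw [map_zero, ← e, Dc, map_add, map_mul, map_mul, map_pow, map_pow, map_ofNat, map_ofNat]
    · have e1 : p ∣ 2 * 3 := (CharP.cast_eq_zero_iff (Kb k) p 6).1 (by exact_mod_cast e)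
      have := h.five
      rcases (Nat.Prime.dvd_mul hp.out).1 e1 with e2 | e2
      · have := Nat.le_of_dvd two_pos e2
        omega
      · have := Nat.le_of_dvd three_pos e2
        omega
  have hA : pk (Kb k) (hasseInv p a4 a6) =
      hasseInv p (Wm a4 a6 (Kb k)).a₄ (Wm a4 a6 (Kb k)).a₆ := SelD_hasse p _ a4 a6
  refine ⟨sw, hA, ord_exists sw fun e => h.SelD_A (SelD_inj (Kb k) ?_)⟩
  rw [hA, e, map_zero]

theorem ord_Lb (v : Pl k) : Ord p (Wm a4 a6 (Lb v)) (pk _ (hasseInv p a4 a6)) := by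
  obtain ⟨j⟩ := exists_emb v
  have e : (j : Kb k →+* Lb v) (pk _ (hasseInv p a4 a6)) = pk _ (hasseInv p a4 a6) := j.commutes _
  exact e ▸ (cmp_em j).ord h.ord_Kb

theorem A_ne : hasseInv p a4 a6 ≠ 0 := h.SelD_A

theorem lev0_tors {P : EK a4 a6} (hP : P ∈ LG a4 a6 p 0) {m : ℕ} (hm : p ^ m • P = 0) : P = 0 := by
  induction m with
  | zero => simpa using hm
  | succ m ih =>
    refine ih (h.ord_Kb.manin sc_Kb (pk_om a4) (pk_om a6) (fun e => h.kap (SelD_inj (Kb k) ?_)) ?_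
      (nsmul_mem hP _))
    · rw [Wm_a4, Wm_a6, SelD_der, SelD_der] at e
      rw [map_mul, map_mul, map_mul, map_mul, map_ofNat, map_ofNat, e]
    · rw [← mul_smul, ← pow_succ', hm]

theorem SelD_bact (σ : Gk k) {n : ℕ} {P : EK a4 a6} (hP : P ∈ LG a4 a6 p n) :
    bG a4 a6 p n (act _ σ P) = σ (bG a4 a6 p n P) := by
  have e1 : (σ : Kb k →+* Kb k) (tv k (Kb k)) = tv k (Kb k) := σ.commutes _
  have e2 : (σ : Kb k →+* Kb k) (pk _ (hasseInv p a4 a6)) = pk _ (hasseInv p a4 a6) := σ.commutes _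
  have e := (cmp_act σ).bk_eq h.ord_Kb.sw (fun _ hx => om_act σ hx) (pk_om a4) (sc_Kb (p := p)).1
    (e1.symm ▸ (sc_Kb (p := p)).1) (pk _ (hasseInv p a4 a6)) hP
  rw [e1, e2] at e
  exact e

theorem SelD_bem {v : Pl k} (j : Kb k →ₐ[RatFunc k] Lb v) {n : ℕ} {P : EK a4 a6}
    (hP : P ∈ LG a4 a6 p n) : bL a4 a6 p v n (em a4 a6 j P) = j (bG a4 a6 p n P) := by
  have e1 : (j : Kb k →+* Lb v) (tv k (Kb k)) = tv k (Lb v) := j.commutes _
  have e2 : (j : Kb k →+* Lb v) (pk _ (hasseInv p a4 a6)) = pk _ (hasseInv p a4 a6) := j.commutes _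
  have e := (cmp_em j).bk_eq h.ord_Kb.sw (fun _ hx => SelD_emom j hx) (pk_om a4) (sc_Kb (p := p)).1
    (e1.symm ▸ (sc_Lb (p := p) v).1) (pk _ (hasseInv p a4 a6)) hP
  rw [e1, e2] at e
  exact e

theorem SelD_vp0 : ∃ ϖ : RatFunc k, ∀ P : EK a4 a6, p • P = 0 →
    bG a4 a6 p 1 P = zz p P * algebraMap _ _ ϖ := by
  have o := h.ord_Kb
  obtain ⟨ϖ, h1, h2⟩ := o.exists_vp sc_Kb (pk_om a4) (pk_om a6) 0
  obtain ⟨t, t0, t1⟩ := o.ex
  obtain ⟨a, rfl⟩ := om_fix h1 fun σ => by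
    have e1 := h.SelD_bact σ (o.tors_lev sc_Kb (pk_om a4) (pk_om a6) t1)
    have e2 : zz p (act (Ew a4 a6) σ t) = σ (zz p t) := o.zz_map (cmp_act σ) t
    have e3 : bG a4 a6 p 1 (act _ σ t) = _ := h2 _ (by rw [← map_nsmul, t1, map_zero])
    have e4 : bG a4 a6 p 1 t = _ := h2 t t1
    rw [e3, e4, e2, map_mul] at e1
    exact (mul_left_cancel₀ ((_root_.map_ne_zero σ).2 (o.lam_ne t0 t1)) e1).symm
  exact ⟨a, h2⟩

theorem vpk_spec (n : ℕ) {P : EK a4 a6} (hP : p • P = 0) :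
    bG a4 a6 p (n + 1) P = zz p P * algebraMap _ _ (vpk a4 a6 p n) := by
  rcases n with _ | n
  · exact Classical.epsilon_spec h.SelD_vp0 P hP
  · have o := h.ord_Kb
    rw [vpk, if_neg n.succ_ne_zero, map_zero, mul_zero]
    exact (o.bk_eq_zero sc_Kb (pk_om a4) (pk_om a6)
      (o.EllR_tors sc_Kb (pk_om a4) (pk_om a6) _ hP)).2
      (o.EllR_tors sc_Kb (pk_om a4) (pk_om a6) _ hP)

theorem vpk_specL (n : ℕ) (v : Pl k) {P : Pts (Ew a4 a6) (Lb v)} (hP : p • P = 0) :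
    bL a4 a6 p v (n + 1) P = zz p P * algebraMap _ _ (vpk a4 a6 p n) := by
  have o := h.ord_Kb
  obtain ⟨j⟩ := exists_emb v
  obtain ⟨t, rfl⟩ := o.tors_surj (cmp_em j) 1 (t' := P) (by rw [pow_one, hP])
  have ht : p • t = 0 := (cmp_em j).inj (by rw [map_nsmul, hP, map_zero])
  have e2 : zz p (em a4 a6 j t) = j (zz p t) := o.zz_map (cmp_em j) t
  rw [h.SelD_bem j (o.EllR_tors sc_Kb (pk_om a4) (pk_om a6) _ ht), h.vpk_spec n ht, map_mul, e2,
    AlgHom.commutes]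

theorem vp0_ne : vp0 a4 a6 p ≠ 0 := fun e => by
  have o := h.ord_Kb
  obtain ⟨t, t0, t1⟩ := o.ex
  have e1 := h.vpk_spec 0 t1
  rw [vpk, if_pos rfl, e, map_zero, mul_zero] at e1
  exact t0 (h.lev0_tors ((o.bk_eq_zero sc_Kb (pk_om a4) (pk_om a6)
    (o.EllR_tors sc_Kb (pk_om a4) (pk_om a6) _ t1)).1 e1) (m := 1) (by rw [pow_one, t1]))

theorem exists_lev (P : EK a4 a6) : ∃ n, P ∈ LG a4 a6 p n := by
  obtain ⟨n, hn⟩ := om_exists_pow p (F := RatFunc k) (Quad.xc P)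
  exact ⟨n, h.ord_Kb.lev_of_x sc_Kb (pk_om a4) (pk_om a6) hn⟩

theorem isZ_down {H : Subgroup (Gk k)} {n : ℕ} {x : (Gk k → EK a4 a6) × EK a4 a6}
    (hx : IsZ a4 a6 p H (n + 1) x) : IsZ a4 a6 p H n (p • x) := by
  obtain ⟨a1, a2, ⟨X, a3⟩, ⟨m, a4'⟩, a5⟩ := hx
  refine ⟨fun σ hσ => h.ord_Kb.p_lev sc_Kb (pk_om a4) (pk_om a6) (a1 σ hσ), fun σ hσ τ hτ => ?_,
    ⟨X, fun σ hσ e => ?_⟩, ⟨m, fun σ hσ => ?_⟩, fun v j => ?_⟩
  · change p • x.1 (σ * τ) = p • x.1 σ + act _ σ (p • x.1 τ)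
    rw [a2 σ hσ τ hτ, map_nsmul, smul_add]
  · change p • x.1 σ = 0
    rw [a3 σ hσ e, smul_zero]
  · change p ^ m • (p • x.1 σ - (act _ σ (p • x.2) - p • x.2)) = 0
    rw [map_nsmul, ← smul_sub, ← smul_sub, smul_comm, a4' σ hσ, smul_zero]
  · obtain ⟨R, r1, r2⟩ := a5 v j
    refine ⟨p • R, (h.ord_Lb v).p_lev (sc_Lb v) (pk_omL v a4) (pk_omL v a6) r1,
      fun τ σ hσ e => ?_⟩
    change em a4 a6 j (p • x.1 σ) = _
    rw [map_nsmul, r2 τ σ hσ e, map_nsmul, smul_sub]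

theorem isB_down {H : Subgroup (Gk k)} {n : ℕ} {x : (Gk k → EK a4 a6) × EK a4 a6}
    (hx : IsB a4 a6 p H (n + 1) x) : IsB a4 a6 p H n (p • x) := by
  obtain ⟨P, a1, a2, m, a3⟩ := hx
  refine ⟨p • P, h.ord_Kb.p_lev sc_Kb (pk_om a4) (pk_om a6) a1, fun σ hσ => ?_, m, ?_⟩
  · change p • x.1 σ = _
    rw [a2 σ hσ, map_nsmul, smul_sub]
  · change p ^ m • (p • x.2 - p • P) = 0
    rw [← smul_sub, smul_comm, a3, smul_zero]

/-- the fixer of finitely many Artin-Schreier roots is open and fixes no point of order `p` -/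
theorem opn {H : Subgroup (Gk k)} (X : Finset (Kb k))
    (hX : ∀ y ∈ X, ∃ d : RatFunc k, y ^ p - y = algebraMap _ _ d)
    (hH : ∀ σ : Gk k, (∀ y ∈ X, σ y = y) → σ ∈ H) : Opn a4 a6 p H := by
  refine ⟨⟨X, hH⟩, fun t t1 ht => ?_⟩
  by_contra t0
  have o := h.ord_Kb
  obtain ⟨a, ha⟩ := om_fix (o.zz_tors_mem sc_Kb (pk_om a4) (pk_om a6) t1) fun σ => by
    obtain ⟨m, hm⟩ := o.tors_cyc t0 t1 (t := act _ σ t) (by rw [← map_nsmul, t1, map_zero])
    have e1 : σ (zz p t) = m * zz p t := by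
      rw [← o.zz_nsmul t1, ← hm]
      exact (o.zz_map (cmp_act σ) t).symm
    have e2 : ∀ i : ℕ, (σ ^ i) (zz p t) = m ^ i * zz p t := fun i => by
      induction i with
      | zero => simp
      | succ i ih =>
        rw [pow_succ, AlgEquiv.mul_apply, e1, map_mul, map_natCast, ih]
        ring
    have e3 : σ ^ p ∈ H := hH _ fun y hy => by
      obtain ⟨d, hd⟩ := hX y hy
      obtain ⟨c, hc⟩ := SelD_as hd σ
      have e4 : ∀ i : ℕ, (σ ^ i) y = y + i * c := fun i => by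
        induction i with
        | zero => simp
        | succ i ih =>
          rw [pow_succ, AlgEquiv.mul_apply, hc, map_add, map_natCast, ih]
          push_cast
          ring
      rw [e4, CharP.cast_eq_zero, zero_mul, add_zero]
    have e5 : (σ ^ p) (zz p t) = zz p t := by
      conv_rhs => rw [← ht _ e3]
      exact (o.zz_map (cmp_act (σ ^ p)) t).symm
    have e6 : (m : Kb k) ^ p = m := map_natCast (frobenius (Kb k) p) m
    rw [e2, e6] at e5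
    rw [e1, e5]
  refine h.nsq a ((algebraMap (RatFunc k) (Kb k)).injective ?_)
  rw [map_pow, ha, o.lam_pow t0 t1]
  rfl

end Hy

variable (p a4 a6)

/-- the action on classes -/
def acA (H : Subgroup (Gk k)) [H.Normal] (n : ℕ) (γ : Gk k) :
    Amb a4 a6 p H n →+ Amb a4 a6 p H n :=
  QuotientAddGroup.map _ _ (cj a4 a6 γ) fun _ hx => IsB.cj hx γ

/-- Frobenius -/
def Fm (H : Subgroup (Gk k)) (n : ℕ) : Amb a4 a6 p H n →+ Amb a4 a6 p H (n + 1) :=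
  QuotientAddGroup.map _ _ (AddMonoidHom.id _) fun _ hx => IsB.up hx

/-- restriction -/
def Rm {H H' : Subgroup (Gk k)} (h : H' ≤ H) (n : ℕ) : Amb a4 a6 p H n →+ Amb a4 a6 p H' n :=
  QuotientAddGroup.map _ _ (AddMonoidHom.id _) fun _ hx => IsB.mono h hx

variable {p a4 a6}

/-- Verschiebung -/
def Vm (h : Hy p a4 a6) (H : Subgroup (Gk k)) (n : ℕ) :
    Amb a4 a6 p H (n + 1) →+ Amb a4 a6 p H n :=
  QuotientAddGroup.map _ _ (nsmulAddMonoidHom p) fun _ hx => h.isB_down hx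

theorem stab_normal {δ : Kb k} {d : RatFunc k} (h : δ ^ p - δ = algebraMap _ _ d) :
    (MulAction.stabilizer (Gk k) δ).Normal := by
  refine ⟨fun σ hσ g => ?_⟩
  obtain ⟨c, hc⟩ := SelD_as h g⁻¹
  have e : σ δ = δ := hσ
  change g (σ (g⁻¹ δ)) = δ
  rw [hc, map_add, map_natCast, e, ← hc, ← AlgEquiv.mul_apply, mul_inv_cancel, AlgEquiv.one_apply]

variable (p a4 a6) in
/-- the part of the Tate module of the Selmer group over `K(δ)` killed by the norm is nonzero -/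
def BadD (d : RatFunc k) : Prop :=
  ∃ (δ : Kb k) (h : δ ^ p - δ = algebraMap _ _ d) (σ0 : Gk k)
    (u : ℕ → Amb a4 a6 p (MulAction.stabilizer (Gk k) δ) 0), σ0 δ = δ + 1 ∧ u ≠ 0 ∧ u 0 = 0 ∧
    ∀ n, u n ∈ Sel a4 a6 p _ 0 ∧ p • u (n + 1) = u n ∧
      ∑ i ∈ Finset.range p, (@acA _ _ a4 a6 p _ _ _ _ (stab_normal h) 0 σ0)^[i] (u n) = 0

end

end Pool.Agent.ASel
end

-- merged part: Pool.Agent.Work.MP_60d5ce_nt.AG.SelK
section
/-!
# The map `κ` on `p`-torsion Selmer classes: global properties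

PLAN (`A` the Hasse invariant, `℘ y = y ^ p / A - y`, `λ = zz`, `τ σ = ξ σ - (σ Q - Q)`).
`kap_ex`: `p (ξ, Q') = (∂ P, P + t)`; `T_∞` is divisible, so there is `Q` with `p Q = P`, `Q' - Q ∈ T_∞`
(`divp`: `Q = Q' - t'`, `p t' = t`), `Q` has level `n + 1` (`lev_of_p`); `σ ↦ -λ (τ σ)` is a smooth cocycle with
separable values, `h90`.  `kap_mem`: `σ (z ^ p / A) - z ^ p / A = -λ τ` as `λ ^ p / A = λ` (`lam_pow`), and
`σ b Q - b Q = b (ξ σ) - b (τ σ) = -λ(τ) ϖ` (`bk_add`, `bk_eq_zero`, `vpk_spec`).  `kap_uniq`: `ξ = ∂ P`,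
`t = Q - P ∈ T_∞`, `p t` is fixed by `H`, so `p t = 0` (`noT`, induction on the order), `y = z - λ t`.
`kap_ker`: `z = λ t` (`wp_ker`, `tors_cyc`, `zz_nsmul`), `ξ = ∂ (Q - t)` (`lam_ne`), `b (Q - t) = 0`.
`kap_coc`: `car_bk`, `car_vp`, `car_frob_mul`.  `kap_F`: same `Q`, `z`.  `kap_V`: new `Q` is `p Q`, `z = 0`, `vbeta`.
`acA_triv`: the difference is `(∂ (ξ γ), γ Q - Q)`.  `amb0_eq`: `lev0_tors`.  `sel_prim`: `exists_lev`, `p_lev`.
-/

namespace Pool.Agent.ASel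

open Polynomial Pool.Agent.Smith Pool.Agent.ShaAsc
open scoped Classical

variable {k : Type} [Field k] {p : ℕ} [Fintype k] [hp : Fact p.Prime] [CharP k p] {a4 a6 : k[X]}
  {H : Subgroup (Gk k)} {n : ℕ}

theorem SelK_eq {x y : (Gk k → EK a4 a6) × EK a4 a6} :
    (x : Amb a4 a6 p H n) = y ↔ IsB a4 a6 p H n (x - y) := QuotientAddGroup.eq_iff_sub_mem

theorem SelK_zero {x : (Gk k → EK a4 a6) × EK a4 a6} :
    (x : Amb a4 a6 p H n) = 0 ↔ IsB a4 a6 p H n x := QuotientAddGroup.eq_zero_iff x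

omit [Fintype k] hp [CharP k p] in
theorem SelK_add {G : Type} [AddCommGroup G] {u v : G} {a b : ℕ} (hu : p ^ a • u = 0)
    (hv : p ^ b • v = 0) : p ^ (a + b) • (u + v) = 0 := by
  rw [smul_add, pow_add, mul_smul _ _ v, hv, mul_comm, mul_smul, hu, smul_zero, smul_zero, add_zero]

omit [Fintype k] hp [CharP k p] in
theorem SelK_sub {G : Type} [AddCommGroup G] {u v : G} {a b : ℕ} (hu : p ^ a • u = 0)
    (hv : p ^ b • v = 0) : p ^ (a + b) • (u - v) = 0 := by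
  rw [sub_eq_add_neg]
  exact SelK_add hu (by rw [smul_neg, hv, neg_zero])

omit [Fintype k] in
theorem SelK_pk (σ : Gk k) (f : k[X]) : σ (pk (Kb k) f) = pk (Kb k) f := σ.commutes _

theorem SelK_zz (h : Hy p a4 a6) (σ : Gk k) (Q : EK a4 a6) : zz p (act _ σ Q) = σ (zz p Q) :=
  h.ord_Kb.zz_map (cmp_act σ) Q

theorem SelK_bG (h : Hy p a4 a6) (σ : Gk k) {Q : EK a4 a6} (hQ : Q ∈ LG a4 a6 p n) :
    bG a4 a6 p n (act _ σ Q) = σ (bG a4 a6 p n Q) := by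
  have e : (σ : Kb k →+* Kb k) (tv k (Kb k)) = tv k (Kb k) := σ.commutes _
  have h1 := (cmp_act σ).bk_eq h.ord_Kb.sw (S' := Om (RatFunc k) (Kb k)) (fun _ => om_act σ)
    (pk_om a4) sc_Kb.1 (e.symm ▸ sc_Kb.1) (pk _ (hasseInv p a4 a6)) hQ
  rw [e, show (σ : Kb k →+* Kb k) (pk _ (hasseInv p a4 a6)) = _ from SelK_pk σ _] at h1
  exact h1

theorem acA_mul [H.Normal] (σ τ : Gk k) (s : Amb a4 a6 p H n) :
    acA a4 a6 p H n (σ * τ) s = acA a4 a6 p H n σ (acA a4 a6 p H n τ s) := by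
  obtain ⟨x, rfl⟩ := QuotientAddGroup.mk_surjective s
  refine congrArg (QuotientAddGroup.mk (s := Bs a4 a6 p H n))
    (?_ : cj a4 a6 (σ * τ) x = cj a4 a6 σ (cj a4 a6 τ x))
  refine Prod.ext (funext fun ρ => ?_) (act_mul σ τ _)
  change act _ (σ * τ) (x.1 _) = act _ σ (act _ τ (x.1 _))
  rw [act_mul, mul_inv_rev]
  simp only [mul_assoc]

theorem acA_mem [H.Normal] (σ : Gk k) {s : Amb a4 a6 p H n} (hs : s ∈ Sel a4 a6 p H n) :
    acA a4 a6 p H n σ s ∈ Sel a4 a6 p H n := by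
  obtain ⟨x, hx, rfl⟩ := hs
  exact ⟨_, IsZ.cj hx σ, rfl⟩

theorem acA_triv [H.Normal] {σ : Gk k} (hσ : σ ∈ H) {s : Amb a4 a6 p H n}
    (hs : s ∈ Sel a4 a6 p H n) : acA a4 a6 p H n σ s = s := by
  obtain ⟨x, ⟨h1, h2, -, ⟨m, h4⟩, -⟩, rfl⟩ := hs
  refine SelK_eq.2 (⟨x.1 σ, h1 σ hσ, fun ρ hρ => ?_, m, ?_⟩ :
    IsB a4 a6 p H n (cj a4 a6 σ x - x))
  · have e1 := h2 σ hσ (σ⁻¹ * ρ * σ) (mul_mem (mul_mem (inv_mem hσ) hρ) hσ)
    rw [← mul_assoc, mul_inv_cancel_left, h2 ρ hρ σ hσ] at e1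
    change act _ σ (x.1 (σ⁻¹ * ρ * σ)) - x.1 ρ = _
    rw [sub_eq_sub_iff_add_eq_add, add_comm, ← e1, add_comm]
  · change p ^ m • (act _ σ x.2 - x.2 - x.1 σ) = 0
    rw [← neg_sub, smul_neg, h4 σ hσ, neg_zero]

theorem Fm_mem {s : Amb a4 a6 p H n} (hs : s ∈ Sel a4 a6 p H n) :
    Fm a4 a6 p H n s ∈ Sel a4 a6 p H (n + 1) := by
  obtain ⟨x, hx, rfl⟩ := hs
  exact ⟨x, IsZ.up hx, rfl⟩

theorem Fm_acA [H.Normal] (σ : Gk k) (s : Amb a4 a6 p H n) :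
    Fm a4 a6 p H n (acA a4 a6 p H n σ s) = acA a4 a6 p H (n + 1) σ (Fm a4 a6 p H n s) := by
  obtain ⟨x, rfl⟩ := QuotientAddGroup.mk_surjective s
  simp only [Fm, acA, QuotientAddGroup.map_mk, AddMonoidHom.id_apply]

theorem Rm_mem {H' : Subgroup (Gk k)} (hH : H' ≤ H) {s : Amb a4 a6 p H n}
    (hs : s ∈ Sel a4 a6 p H n) : Rm a4 a6 p hH n s ∈ Sel a4 a6 p H' n := by
  obtain ⟨x, hx, rfl⟩ := hs
  exact ⟨x, IsZ.mono hH hx, rfl⟩

theorem Rm_acA {H' : Subgroup (Gk k)} [H.Normal] [H'.Normal] (hH : H' ≤ H) (σ : Gk k)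
    (s : Amb a4 a6 p H n) :
    Rm a4 a6 p hH n (acA a4 a6 p H n σ s) = acA a4 a6 p H' n σ (Rm a4 a6 p hH n s) := by
  obtain ⟨x, rfl⟩ := QuotientAddGroup.mk_surjective s
  simp only [Rm, acA, QuotientAddGroup.map_mk, AddMonoidHom.id_apply]

theorem Kap.act [H.Normal] (h : Hy p a4 a6) {s : Amb a4 a6 p H n} {a w : Kb k}
    (hs : Kap a4 a6 p H n s a w) (σ : Gk k) :
    Kap a4 a6 p H n (acA a4 a6 p H n σ s) (σ a) (σ w) := by
  obtain ⟨x, Q, z, rfl, hx, hQ, ⟨m, hm⟩, hτ, hz, hzz, rfl, rfl⟩ := hs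
  have hc : ∀ ρ ∈ H, σ⁻¹ * ρ * σ ∈ H := fun ρ hρ =>
    Subgroup.Normal.conj_mem' inferInstance ρ hρ σ
  have e : ∀ ρ : Gk k, (cj a4 a6 σ x).1 ρ -
      (ShaAsc.act _ ρ (ShaAsc.act _ σ Q) - ShaAsc.act _ σ Q) =
      ShaAsc.act _ σ (x.1 (σ⁻¹ * ρ * σ) - (ShaAsc.act _ (σ⁻¹ * ρ * σ) Q - Q)) := by
    intro ρ
    rw [map_sub, map_sub, ← act_mul, ← act_mul, ← mul_assoc, mul_inv_cancel_left]
    rfl
  refine ⟨cj a4 a6 σ x, ShaAsc.act _ σ Q, σ z, rfl, hx.cj σ, lg_act σ hQ, ⟨m, ?_⟩,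
    fun ρ hρ => ?_, om_act σ hz, fun ρ hρ => ?_, ?_, ?_⟩
  · change p ^ m • (ShaAsc.act _ σ x.2 - ShaAsc.act _ σ Q) = 0
    rw [← map_sub, ← map_nsmul, hm, map_zero]
  · rw [e, ← map_nsmul, hτ _ (hc ρ hρ), map_zero]
  · rw [e, SelK_zz h, ← map_neg, ← hzz _ (hc ρ hρ), map_sub]
    simp
  · rw [map_sub, map_div₀, map_pow, SelK_pk]
  · rw [map_sub, map_mul, map_div₀, map_pow, SelK_pk, SelK_bG h σ hQ, σ.commutes]

namespace Hy

variable (h : Hy p a4 a6)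
include h

theorem SelK_A : pk (Kb k) (hasseInv p a4 a6) ≠ 0 := h.ord_Kb.A_ne

theorem SelK_lam {t : EK a4 a6} (ht : p • t = 0) :
    zz p t ^ p / pk _ (hasseInv p a4 a6) = zz p t := by
  rw [h.ord_Kb.EllR_lam ht, mul_div_cancel_left₀ _ h.SelK_A]

theorem SelK_zsub (u : EK a4 a6) {t : EK a4 a6} (ht : p • t = 0) :
    zz p (u - t) = zz p u - zz p t := by
  rw [eq_sub_iff_add_eq, ← h.ord_Kb.zz_add_tors _ ht, sub_add_cancel]

theorem SelK_zom {t : EK a4 a6} (ht : p • t = 0) : zz p t ∈ Om (RatFunc k) (Kb k) :=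
  h.ord_Kb.zz_tors_mem sc_Kb (pk_om a4) (pk_om a6) ht

theorem SelK_tl {t : EK a4 a6} (ht : p • t = 0) : t ∈ LG a4 a6 p (n + 1) :=
  h.ord_Kb.EllR_tors sc_Kb (pk_om a4) (pk_om a6) n ht

theorem SelK_bsub {Q Q' : EK a4 a6} (hQ : Q ∈ LG a4 a6 p (n + 1)) (hQ' : Q' ∈ LG a4 a6 p (n + 1)) :
    bG a4 a6 p (n + 1) (Q - Q') = bG a4 a6 p (n + 1) Q - bG a4 a6 p (n + 1) Q' := by
  rw [eq_sub_iff_add_eq, ← h.ord_Kb.bk_add sc_Kb (pk_om a4) (pk_om a6) (sub_mem hQ hQ') hQ',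
    sub_add_cancel]

theorem SelK_b0 {P : EK a4 a6} (hP : P ∈ LG a4 a6 p n) : bG a4 a6 p (n + 1) P = 0 :=
  (h.ord_Kb.bk_eq_zero sc_Kb (pk_om a4) (pk_om a6) (lev_mono n hP)).2 hP

theorem SelK_plev {P : EK a4 a6} (hP : P ∈ LG a4 a6 p n) : p ^ n • P ∈ LG a4 a6 p 0 := by
  induction n generalizing P with
  | zero => rwa [pow_zero, one_smul]
  | succ n ih =>
    rw [pow_succ, mul_smul]
    exact ih (h.ord_Kb.p_lev sc_Kb (pk_om a4) (pk_om a6) hP)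

omit h in
theorem SelK_noT (hH : Opn a4 a6 p H) {u : EK a4 a6} (hu : ∀ σ ∈ H, act _ σ u = u) {m : ℕ}
    (hm : p ^ m • u = 0) : u = 0 := by
  induction m with
  | zero => rwa [pow_zero, one_smul] at hm
  | succ m ih =>
    refine ih (hH.noT _ (by rwa [← mul_smul, ← pow_succ']) fun σ hσ => ?_)
    rw [map_nsmul, hu σ hσ]

theorem Vm_mem {s : Amb a4 a6 p H (n + 1)} (hs : s ∈ Sel a4 a6 p H (n + 1)) :
    Vm h H n s ∈ Sel a4 a6 p H n := by
  obtain ⟨x, hx, rfl⟩ := hs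
  exact ⟨p • x, h.isZ_down hx, rfl⟩

theorem Vm_acA [H.Normal] (σ : Gk k) (s : Amb a4 a6 p H (n + 1)) :
    Vm h H n (acA a4 a6 p H (n + 1) σ s) = acA a4 a6 p H n σ (Vm h H n s) := by
  obtain ⟨x, rfl⟩ := QuotientAddGroup.mk_surjective s
  exact congrArg (QuotientAddGroup.mk (s := Bs a4 a6 p H n)) (map_nsmul (cj a4 a6 σ) p x).symm

theorem Fm_Vm (s : Amb a4 a6 p H (n + 1)) : Fm a4 a6 p H n (Vm h H n s) = p • s := by
  obtain ⟨x, rfl⟩ := QuotientAddGroup.mk_surjective s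
  rfl

theorem Vm_Fm (s : Amb a4 a6 p H n) : Vm h H n (Fm a4 a6 p H n s) = p • s := by
  obtain ⟨x, rfl⟩ := QuotientAddGroup.mk_surjective s
  rfl

theorem sel_prim {s : Amb a4 a6 p H 0} (hs : s ∈ Sel a4 a6 p H 0) : ∃ m : ℕ, p ^ m • s = 0 := by
  obtain ⟨x, ⟨-, -, -, ⟨m, hm⟩, -⟩, rfl⟩ := hs
  obtain ⟨n, hn⟩ := h.exists_lev x.2
  refine ⟨m + n, SelK_zero.2 (⟨p ^ (m + n) • x.2, ?_, fun σ hσ => ?_, 0, ?_⟩ :
    IsB a4 a6 p H 0 (p ^ (m + n) • x))⟩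
  · rw [pow_add, mul_smul]
    exact nsmul_mem (h.SelK_plev hn) _
  · change p ^ (m + n) • x.1 σ = _
    rw [map_nsmul, ← smul_sub, ← sub_eq_zero, ← smul_sub, pow_add, mul_comm, mul_smul, hm σ hσ,
      smul_zero]
  · change p ^ 0 • (p ^ (m + n) • x.2 - _) = 0
    rw [sub_self, smul_zero]

theorem amb0_eq {x y : (Gk k → EK a4 a6) × EK a4 a6} (hx : IsZ a4 a6 p H 0 x)
    (hy : IsZ a4 a6 p H 0 y) {P : EK a4 a6} (hP : P ∈ LG a4 a6 p 0) {m : ℕ}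
    (hm : p ^ m • (x.2 - y.2 - P) = 0) : (x : Amb a4 a6 p H 0) = y := by
  obtain ⟨h1, -, -, ⟨a, ha⟩, -⟩ := hx.sub hy
  refine SelK_eq.2 ⟨P, hP, fun σ hσ => ?_, m, hm⟩
  have e : p ^ m • act _ σ (x.2 - y.2 - P) = 0 := by rw [← map_nsmul, hm, map_zero]
  have h2 := SelK_add (ha σ hσ) (SelK_sub e hm)
  refine sub_eq_zero.1 (h.lev0_tors (sub_mem (h1 σ hσ) (sub_mem (lg_act σ hP) hP))
    (m := a + (m + m)) ?_)
  rw [← h2, Prod.snd_sub, map_sub _ _ P]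
  congr 1
  abel

theorem Rm_inj {H' : Subgroup (Gk k)} (hH : H' ≤ H) {s : Amb a4 a6 p H 0}
    (hs : s ∈ Sel a4 a6 p H 0) (h0 : Rm a4 a6 p hH 0 s = 0) : s = 0 := by
  obtain ⟨x, hx, rfl⟩ := hs
  obtain ⟨P, hP, -, m, hm⟩ := SelK_zero.1 (show (x : Amb a4 a6 p H' 0) = 0 from h0)
  exact h.amb0_eq hx (isZ_zero H 0) hP (m := m) (by rwa [Prod.snd_zero, sub_zero])

theorem kap_ex (hH : Opn a4 a6 p H) {s : Amb a4 a6 p H n} (hs : s ∈ Sel a4 a6 p H n)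
    (h0 : p • s = 0) : ∃ a w, Kap a4 a6 p H n s a w := by
  obtain ⟨x, hx, rfl⟩ := hs
  obtain ⟨P, hP, h1, m, hm⟩ :=
    SelK_zero.1 (show ((p • x : (Gk k → EK a4 a6) × EK a4 a6) : Amb a4 a6 p H n) = 0 from h0)
  obtain ⟨Q, rfl⟩ := h.ord_Kb.divp P
  have hτ : ∀ σ ∈ H, p • (x.1 σ - (act _ σ Q - Q)) = 0 := fun σ hσ => by
    rw [smul_sub, smul_sub, ← map_nsmul, ← h1 σ hσ]
    exact sub_self _
  obtain ⟨X1, hX1⟩ := hH.opn
  obtain ⟨X2, hX2⟩ := hx.2.2.1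
  obtain ⟨X3, hX3⟩ := act_fix (K := RatFunc k) Q
  obtain ⟨z, hz, hzz⟩ := h90 p H (fun σ => -zz p (x.1 σ - (act _ σ Q - Q)))
    (fun σ hσ => neg_mem (h.SelK_zom (hτ σ hσ))) (fun σ hσ τ hτ' => by
      have e : p • act _ σ (x.1 τ - (act _ τ Q - Q)) = 0 := by
        rw [← map_nsmul, hτ τ hτ', map_zero]
      rw [map_neg, ← SelK_zz h, ← neg_add, ← h.ord_Kb.zz_add_tors _ e, hx.2.1 σ hσ τ hτ', act_mul,
        map_sub, map_sub]
      congr 2
      abel) (X1 ∪ X2 ∪ X3) fun σ hσ => by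
      have h2 := hX1 σ fun y hy => hσ y (by simp [hy])
      refine ⟨h2, ?_⟩
      rw [hX2 σ h2 fun y hy => hσ y (by simp [hy]), hX3 σ fun y hy => hσ y (by simp [hy]),
        sub_self, sub_self, h.ord_Kb.zz_zero, neg_zero]
  refine ⟨_, _, x, Q, z, rfl, hx, h.ord_Kb.lev_of_p sc_Kb (pk_om a4) (pk_om a6) hP, ⟨m + 1, ?_⟩,
    hτ, hz, hzz, rfl, rfl⟩
  rw [pow_succ, mul_smul, smul_sub]
  exact hm

theorem kap_mem {s : Amb a4 a6 p H n} {a w : Kb k} (hs : Kap a4 a6 p H n s a w) :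
    KH H a ∧ KH H w := by
  obtain ⟨x, Q, z, -, hx, hQ, -, hτ, hz, hzz, rfl, rfl⟩ := hs
  have h1 := div_mem (pow_mem hz p) (pk_om (hasseInv p a4 a6))
  have h2 : ∀ σ ∈ H, σ (z ^ p / pk _ (hasseInv p a4 a6)) =
      z ^ p / pk _ (hasseInv p a4 a6) - zz p (x.1 σ - (act _ σ Q - Q)) := fun σ hσ => by
    rw [map_div₀, map_pow, SelK_pk, eq_add_of_sub_eq (hzz σ hσ), neg_add_eq_sub, sub_pow_char,
      sub_div, h.SelK_lam (hτ σ hσ)]
  refine ⟨⟨sub_mem h1 hz, fun σ hσ => ?_⟩, sub_mem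
    (h.ord_Kb.bk_mem sc_Kb (pk_om a4) (pk_om a6) hQ) (mul_mem h1 (om_alg _)), fun σ hσ => ?_⟩
  · rw [map_sub, h2 σ hσ, eq_add_of_sub_eq (hzz σ hσ)]
    ring
  · have h3 := h.vpk_spec n (hτ σ hσ)
    rw [h.SelK_bsub (lev_mono n (hx.1 σ hσ)) (sub_mem (lg_act σ hQ) hQ), h.SelK_b0 (hx.1 σ hσ),
      h.SelK_bsub (lg_act σ hQ) hQ, SelK_bG h σ hQ] at h3
    rw [map_sub, map_mul, h2 σ hσ, σ.commutes]
    linear_combination -h3

theorem kap_zero : Kap a4 a6 p H n 0 0 0 := by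
  refine ⟨0, 0, 0, rfl, isZ_zero H n, zero_mem _, ⟨0, by simp⟩, fun σ _ => by simp, zero_mem _,
    fun σ _ => ?_, by simp [hp.out.ne_zero], ?_⟩
  · simp [h.ord_Kb.zz_zero]
  · rw [h.SelK_b0 (zero_mem _)]
    simp [hp.out.ne_zero]

theorem kap_sub {s s' : Amb a4 a6 p H n} {a w a' w' : Kb k} (hs : Kap a4 a6 p H n s a w)
    (hs' : Kap a4 a6 p H n s' a' w') : Kap a4 a6 p H n (s - s') (a - a') (w - w') := by
  obtain ⟨x, Q, z, rfl, hx, hQ, ⟨m, hm⟩, hτ, hz, hzz, rfl, rfl⟩ := hs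
  obtain ⟨x', Q', z', rfl, hx', hQ', ⟨m', hm'⟩, hτ', hz', hzz', rfl, rfl⟩ := hs'
  have e : ∀ σ : Gk k, (x - x').1 σ - (act _ σ (Q - Q') - (Q - Q')) =
      x.1 σ - (act _ σ Q - Q) - (x'.1 σ - (act _ σ Q' - Q')) := fun σ => by
    rw [map_sub, Prod.fst_sub, Pi.sub_apply]
    abel
  refine ⟨x - x', Q - Q', z - z', rfl, hx.sub hx', sub_mem hQ hQ', ⟨m + m', ?_⟩, fun σ hσ => ?_,
    sub_mem hz hz', fun σ hσ => ?_, ?_, ?_⟩
  · rw [← SelK_sub hm hm', Prod.snd_sub]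
    congr 1
    abel
  · rw [e, smul_sub, hτ σ hσ, hτ' σ hσ, sub_self]
  · rw [e, h.SelK_zsub _ (hτ' σ hσ), map_sub]
    linear_combination hzz σ hσ - hzz' σ hσ
  · rw [sub_pow_char]
    ring
  · rw [sub_pow_char, h.SelK_bsub hQ hQ']
    ring

theorem kap_cob {s : Amb a4 a6 p H n} {a w y : Kb k} (hs : Kap a4 a6 p H n s a w) (hy : KH H y) :
    Kap a4 a6 p H n s (a + (y ^ p / pk _ (hasseInv p a4 a6) - y))
      (w - y ^ p / pk _ (hasseInv p a4 a6) * algebraMap _ _ (vpk a4 a6 p n)) := by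
  obtain ⟨x, Q, z, rfl, hx, hQ, hm, hτ, hz, hzz, rfl, rfl⟩ := hs
  refine ⟨x, Q, z + y, rfl, hx, hQ, hm, hτ, add_mem hz hy.1, fun σ hσ => ?_, ?_, ?_⟩
  · rw [map_add, hy.2 σ hσ, ← hzz σ hσ]
    ring
  · rw [add_pow_char]
    ring
  · rw [add_pow_char]
    ring

theorem kap_uniq (hH : Opn a4 a6 p H) {a w : Kb k} (hs : Kap a4 a6 p H n 0 a w) :
    ∃ y, KH H y ∧ a = y ^ p / pk _ (hasseInv p a4 a6) - y ∧
      w = -(y ^ p / pk _ (hasseInv p a4 a6) * algebraMap _ _ (vpk a4 a6 p n)) := by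
  obtain ⟨x, Q, z, h0, -, hQ, ⟨m, hm⟩, hτ, hz, hzz, rfl, rfl⟩ := hs
  obtain ⟨P, hP, h1, m', hm'⟩ := SelK_zero.1 h0
  have e : ∀ σ ∈ H, x.1 σ - (act _ σ Q - Q) = Q - P - act _ σ (Q - P) := fun σ hσ => by
    rw [h1 σ hσ, map_sub]
    abel
  have ht : p • (Q - P) = 0 := by
    refine SelK_noT hH (fun σ hσ => ?_) (m := m' + m) ?_
    · have := hτ σ hσ
      rw [e σ hσ, smul_sub, sub_eq_zero] at this
      rw [map_nsmul, ← this]
    · rw [smul_comm, show Q - P = x.2 - P - (x.2 - Q) by abel, SelK_sub hm' hm, smul_zero]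
  have h2 := h.vpk_spec n ht
  rw [h.SelK_bsub hQ (lev_mono n hP), h.SelK_b0 hP, sub_zero] at h2
  refine ⟨z - zz p (Q - P), ⟨sub_mem hz (h.SelK_zom ht), fun σ hσ => ?_⟩, ?_, ?_⟩
  · have h3 := hzz σ hσ
    rw [e σ hσ, h.SelK_zsub _ (by rw [← map_nsmul, ht, map_zero]), SelK_zz h] at h3
    rw [map_sub]
    linear_combination h3
  · rw [sub_pow_char, sub_div, h.SelK_lam ht]
    ring
  · rw [sub_pow_char, sub_div, h.SelK_lam ht, h2]
    ring

theorem kap_ker {s : Amb a4 a6 p H n} (hs : Kap a4 a6 p H n s 0 0) : s = 0 := by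
  obtain ⟨x, Q, z, rfl, -, hQ, ⟨m, hm⟩, hτ, -, hzz, ha, hw⟩ := hs
  obtain ⟨t0, h0, h1⟩ := h.ord_Kb.ex
  obtain ⟨j, hj⟩ := wp_ker (h.ord_Kb.lam_pow h0 h1) (h.ord_Kb.lam_ne h0 h1) ha.symm
  rw [← h.ord_Kb.zz_nsmul h1] at hj
  have ht : p • j • t0 = 0 := by rw [smul_comm, h1, smul_zero]
  generalize j • t0 = t at hj ht
  subst hj
  refine SelK_zero.2 ⟨Q - t, ?_, fun σ hσ => ?_, m + 1, ?_⟩
  · refine (h.ord_Kb.bk_eq_zero sc_Kb (pk_om a4) (pk_om a6) (sub_mem hQ (h.SelK_tl ht))).1 ?_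
    rw [h.SelK_lam ht, ← h.vpk_spec n ht, ← h.SelK_bsub hQ (h.SelK_tl ht)] at hw
    exact hw.symm
  · have h2 : p • act _ σ t = 0 := by rw [← map_nsmul, ht, map_zero]
    have e : x.1 σ - (act _ σ (Q - t) - (Q - t)) = x.1 σ - (act _ σ Q - Q) + act _ σ t - t := by
      rw [map_sub]
      abel
    rw [← sub_eq_zero, e]
    by_contra h3
    refine h.ord_Kb.lam_ne h3 (by rw [smul_sub, smul_add, hτ σ hσ, h2, ht]; simp) ?_
    rw [h.SelK_zsub _ ht, h.ord_Kb.zz_add_tors _ h2, SelK_zz h]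
    linear_combination hzz σ hσ
  · rw [show x.2 - (Q - t) = x.2 - Q + t by abel]
    exact SelK_add hm (by rwa [pow_one])

theorem kap_coc {s : Amb a4 a6 p H n} {a w : Kb k} (hs : Kap a4 a6 p H n s a w) :
    w - cB p (w / pk _ (hasseInv p a4 a6)) + a * algebraMap _ _ (vpk a4 a6 p n) = 0 := by
  obtain ⟨x, Q, z, -, -, hQ, -, -, hz, -, rfl, rfl⟩ := hs
  have h1 := h.ord_Kb.car_bk sc_Kb (pk_om a4) (pk_om a6) hQ
  have h2 := h.ord_Kb.car_vp sc_Kb (pk_om a4) (pk_om a6) fun P => h.vpk_spec n (P := P)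
  have h3 := sc_Kb.1.car_frob_mul (p := p) hz
    (div_mem (om_alg (vpk a4 a6 p n)) (pow_mem (pk_om (hasseInv p a4 a6)) 2))
  rw [sub_div, map_sub, show z ^ p / pk _ (hasseInv p a4 a6) * algebraMap _ _ (vpk a4 a6 p n) /
    pk _ (hasseInv p a4 a6) = z ^ p * (algebraMap _ _ (vpk a4 a6 p n) /
      pk _ (hasseInv p a4 a6) ^ 2) by ring, cB, h1, h3, h2]
  ring

theorem kap_F {s : Amb a4 a6 p H n} {a w : Kb k} (hs : Kap a4 a6 p H n s a w) :
    Kap a4 a6 p H (n + 1) (Fm a4 a6 p H n s) a 0 := by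
  obtain ⟨x, Q, z, rfl, hx, hQ, hm, hτ, hz, hzz, ha, -⟩ := hs
  refine ⟨x, Q, z, rfl, hx.up, lev_mono _ hQ, hm, hτ, hz, hzz, ha, ?_⟩
  rw [h.SelK_b0 hQ]
  simp [vpk]

theorem kap_V : ∃ ρ : ℕ, (ρ : Kb k) ≠ 0 ∧ ∀ (H : Subgroup (Gk k)) (n : ℕ)
    (s : Amb a4 a6 p H (n + 1)) (a w : Kb k), Kap a4 a6 p H (n + 1) s a w →
      Kap a4 a6 p H n (Vm h H n s) 0 (ρ * w) := by
  obtain ⟨ρ, h0, hρ⟩ := h.ord_Kb.vbeta sc_Kb (pk_om a4) (pk_om a6)
  refine ⟨ρ, h0, ?_⟩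
  rintro H n s a w ⟨x, Q, z, rfl, hx, hQ, ⟨m, hm⟩, hτ, -, -, -, rfl⟩
  have e : ∀ σ ∈ H, (p • x).1 σ - (act _ σ (p • Q) - p • Q) = 0 := fun σ hσ => by
    rw [← hτ σ hσ, map_nsmul, smul_sub, smul_sub]
    rfl
  refine ⟨p • x, p • Q, 0, rfl, h.isZ_down hx, h.ord_Kb.p_lev sc_Kb (pk_om a4) (pk_om a6) hQ,
    ⟨m, ?_⟩, fun σ hσ => by rw [e σ hσ, smul_zero], zero_mem _, fun σ hσ => ?_,
    by simp [hp.out.ne_zero], ?_⟩
  · rw [Prod.smul_snd, ← smul_sub, smul_comm, hm, smul_zero]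
  · rw [e σ hσ, h.ord_Kb.zz_zero]
    simp
  · rw [bG, bG, hρ n Q hQ]
    simp [vpk, hp.out.ne_zero]

theorem car_vp0 : cK p (vp0 a4 a6 p / pk _ (hasseInv p a4 a6) ^ 2) = vp0 a4 a6 p := by
  refine (algebraMap (RatFunc k) (Kb k)).injective ?_
  rw [cK, pb_K.car_map (algebraMap _ (Kb k)) (fun x _ => om_alg x) sc_Kb.1 trivial, map_div₀,
    map_pow]
  exact h.ord_Kb.car_vp sc_Kb (pk_om a4) (pk_om a6) fun P => h.vpk_spec 0 (P := P)

end Hy

end Pool.Agent.ASel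
end

-- merged part: Pool.Agent.Work.MP_60d5ce_nt.AG.SelL
section
/-!
# The map `κ`: local properties

PLAN.  `kap_loc`: `ξ = ∂ R` locally, `Q1 = j Q - R`, `τ Q1 - Q1 = -j (ξ σ - ∂ Q σ)`; `Z = zk (n+1) Q1` has the same
Galois differences as `j z` (`zk_map`, `zk_add_tors`), `y = j z - Z`; `b Q1 = j (b Q)` as `b R = 0`.
`kap_et0`, `kap_et1`: `Ord.dich` with `ρ` from `exists_rho` (resp. `ρ = 1`, `tors_e1`).  If `Q2 = Q1 + t ∈ E_1`
then `τ Q2 - Q2 ∈ T ∩ E_1 = 0` (`E_1` is a group stable under isometries), `Z = Z(Q2) - λ t`, `℘ (λ t) = 0`, and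
`y + Z(Q2)` is fixed.  Otherwise `|Z| ≤ ρ ^ p ^ (n+1) / |A| ^ uk`.  Only finitely many `v` are in `S0`.
`kap_good`: `Q1` is fixed by `I0`: `λ t` is fixed by `I0` (`i0_small`, `fp_small`, `|λ t| = 1`), so `T` is; in the
second case `τ Z - Z = λ(τ Q1 - Q1)` is small, so zero.  Then `bk_le` with the field of the separable
elements fixed by `I0` (`i0_der`).  `vp_int`: the same with `Q1 = t`.  `kap_tight`: `℘ (y + Z) = 0`, so
`y + Z = λ t` and `Q1 - t` is fixed by the decomposition group, `b (Q1 - t) = j w` as `vpk (n+1) = 0`.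
`kap_iso`: with `Z, b, Z', b'`, first for the representatives `(℘ Z, b - (Z ^ p / A) ϖ)`:
`θ = (1 - C) (θ - rho0)` because `Ξ = φZ w' + φZ' w + φZ φZ' ϖ` has `(1 - C) Ξ = θ` (`car_bk`, `car_vp`) and
`Ξ - θ = Z b' + Z' b - Z Z' ϖ` (`iso_car`); `rho0` is fixed (`rho0_tors` and functoriality).  Changing a
representative by the coboundary of `y` changes `θ` by `(1 - C) (φ y w')`.
-/

namespace Pool.Agent.ASel

open Polynomial Pool.Agent.Smith Pool.Agent.ShaAsc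
open scoped Classical

variable {k : Type} [Field k] {p : ℕ} [Fintype k] [hp : Fact p.Prime] [CharP k p] {a4 a6 : k[X]}
  {H : Subgroup (Gk k)} {n : ℕ}

section gen

open WeierstrassCurve WeierstrassCurve.Affine Pool.Agent.Quad

variable {M : Type} [Field M] [CharP M p] [IsAlgClosed M] {W : Affine M} {A : M}
  {S : Subfield M} {t ϖ : M} {s : W.Point →+ W.Point} {f : M →+* M} {m : ℕ}
  {w : AbsoluteValue M ℝ} {ρ : ℝ}

theorem SelL_zk (hO : Ord p W A) (hc : Cmp s f) (hA : f A = A) (m : ℕ) {Q : W.Point}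
    (hQ : p • (s Q - Q) = 0) : f (zk p A m Q) = zk p A m Q + zz p (s Q - Q) := by
  rw [← hO.zk_map hc, hA, ← hO.zk_add_tors m Q hQ, add_sub_cancel]

theorem SelL_lam (hO : Ord p W A) {P : W.Point} (hP : p • P = 0) : zz p P ^ p / A = zz p P := by
  rw [hO.EllR_lam hP, mul_div_cancel_left₀ _ hO.A_ne]

theorem SelL_small (hO : Ord p W A) (hA : w A = 1) {P : W.Point} (hP : p • P = 0) (h0 : P ≠ 0) :
    w (zz p P) = 1 := by
  have h1 := congrArg w (hO.lam_pow h0 hP)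
  rw [map_pow, hA] at h1
  exact (pow_eq_one_iff_of_nonneg (w.nonneg _) (Nat.sub_ne_zero_of_lt hp.out.one_lt)).1 h1

omit hp [CharP M p] [IsAlgClosed M] in
theorem SelL_tors {Q P : W.Point} (hQ : p • (s Q - Q) = 0) (hP : p • P = 0) :
    p • (s (Q + P) - (Q + P)) = 0 := by
  rw [map_add, add_sub_add_comm, smul_add, hQ, smul_sub, ← map_nsmul, hP, map_zero, sub_self,
    add_zero]

omit hp [CharP M p] [IsAlgClosed M] in
theorem SelL_e1 (hW : SW W) (hs : Sz W w ρ) (hT : ∀ P : W.Point, p • P = 0 → InE1 w ρ P → P = 0)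
    (hc : Cmp s f) (hw : ∀ x, w (f x) = w x) {Q : W.Point} (h1 : InE1 w ρ Q)
    (hQ : p • (s Q - Q) = 0) : s Q - Q = 0 := by
  refine hT _ hQ ?_
  rw [sub_eq_add_neg]
  refine InE1_add hW hs ?_ h1.neg
  rcases Q with _ | ⟨x, y, hn⟩
  · exact (s.map_zero : s .zero = .zero) ▸ h1
  · obtain ⟨h', e⟩ := hc.pt x y hn
    rw [e]
    exact lt_of_lt_of_eq h1 (hw x).symm

omit [IsAlgClosed M] in
theorem SelL_alg (hS : PB p S t) {u u' b b' : M} (hA : A ∈ S) (hu : u ∈ S) (hu' : u' ∈ S)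
    (hb : b ∈ S) (hb' : b' ∈ S) (hϖ : ϖ ∈ S) (h1 : car p S t (b / A) = b)
    (h2 : car p S t (b' / A) = b') (h3 : car p S t (ϖ / A ^ 2) = ϖ) :
    car p S t (u ^ p * (b' / A) + u' ^ p * (b / A) - (u * u') ^ p * (ϖ / A ^ 2)) =
      u * b' + u' * b - u * u' * ϖ := by
  rw [map_sub, map_add, hS.car_frob_mul hu (div_mem hb' hA), hS.car_frob_mul hu' (div_mem hb hA),
    hS.car_frob_mul (mul_mem hu hu') (div_mem hϖ (pow_mem hA 2)), h1, h2, h3]

variable (hO : Ord p W A) (hS : SC p S t) (h4 : W.a₄ ∈ S) (h6 : W.a₆ ∈ S)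
  (hϖ : ∀ P : W.Point, p • P = 0 → bk p S t A (m + 1) P = zz p P * ϖ)
include hO hS h4 h6 hϖ

theorem SelL_add {Q P : W.Point} (hl : Q ∈ Lev p S W (m + 1)) (hP : p • P = 0) :
    bk p S t A (m + 1) (Q + P) = bk p S t A (m + 1) Q + zz p P * ϖ := by
  rw [hO.bk_add hS h4 h6 hl (hO.EllR_tors hS h4 h6 m hP), hϖ _ hP]

variable (hc : Cmp s f) (hA : f A = A) (ht : f t = t) (hf : ∀ x ∈ S, f x ∈ S) (h0 : f ϖ = ϖ)
include hc hA ht hf h0

theorem SelL_bz {Q : W.Point} (hl : Q ∈ Lev p S W (m + 1)) (hQ : p • (s Q - Q) = 0) :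
    f (bk p S t A (m + 1) Q - zk p A (m + 1) Q * ϖ) =
      bk p S t A (m + 1) Q - zk p A (m + 1) Q * ϖ := by
  have e := hc.bk_eq hO.sw hf h4 hS.1 (ht.symm ▸ hS.1) A hl
  rw [ht, hA, ← add_sub_cancel Q (s Q), SelL_add hO hS h4 h6 hϖ hl hQ] at e
  rw [map_sub, map_mul, ← e, SelL_zk hO hc hA _ hQ, h0]
  ring

theorem SelL_rho {Q Q' : W.Point} (hl : Q ∈ Lev p S W (m + 1)) (hl' : Q' ∈ Lev p S W (m + 1))
    (hQ : p • (s Q - Q) = 0) (hQ' : p • (s Q' - Q') = 0) :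
    f (rho0 p S t A (m + 1) ϖ Q Q') = rho0 p S t A (m + 1) ϖ Q Q' := by
  have e := hO.rho0_tors hS h4 h6 hϖ hl hl' hQ hQ'
  have e1 := hc.bk_eq hO.sw hf h4 hS.1 (ht.symm ▸ hS.1) A hl
  have e2 := hc.bk_eq hO.sw hf h4 hS.1 (ht.symm ▸ hS.1) A hl'
  have e3 := hO.zk_map hc (m + 1)
  have e4 := hO.wk_map hc (m + 1)
  rw [ht, hA] at e1 e2
  rw [hA] at e3 e4
  rw [add_sub_cancel, add_sub_cancel] at e
  conv_rhs => rw [← e]
  simp only [rho0, ← map_add s, e1, e2, e3, e4, map_add f, map_sub f, map_mul f, map_div₀,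
    map_pow f, h0, map_ofNat f]

end gen

open Pool.Agent.Quad

omit [Fintype k] in
theorem SelL_fix {v : Pl k} (τ : Lb v ≃ₐ[Lv v] Lb v) (c : RatFunc k) :
    τ (algebraMap (RatFunc k) (Lb v) c) = algebraMap (RatFunc k) (Lb v) c := by
  rw [IsScalarTower.algebraMap_apply (RatFunc k) (Lv v) (Lb v), AlgEquiv.commutes]

omit [Fintype k] in
theorem SelL_om {v : Pl k} (j : Kb k →ₐ[RatFunc k] Lb v) {x : Kb k}
    (hx : x ∈ Om (RatFunc k) (Kb k)) : j x ∈ Om (Lv v) (Lb v) :=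
  om_map (algebraMap (RatFunc k) (Lv v)) (j : Kb k →+* Lb v)
    (fun a => (j.commutes a).trans (IsScalarTower.algebraMap_apply _ (Lv v) _ a)) hx

omit [Fintype k] in
theorem SelL_omK (v : Pl k) (c : RatFunc k) :
    algebraMap (RatFunc k) (Lb v) c ∈ Om (Lv v) (Lb v) := by
  rw [IsScalarTower.algebraMap_apply (RatFunc k) (Lv v) (Lb v)]
  exact om_alg _

omit [Fintype k] in
theorem SelL_pk (v : Pl k) (f : k[X]) : nm v (pk (Lb v) f) = av v (algebraMap k[X] _ f) :=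
  nm_algK v _

omit [Fintype k] in
theorem SelL_S0 {v : Pl k} {f g : k[X]} (hv : ¬ InS0 (f * g) v) :
    nm v (pk (Lb v) f) = 1 ∧ ¬ InS0 g v :=
  ⟨(SelL_pk v f).trans (PF_one (fun e => hv (Or.inl e)) fun e => hv (Or.inr (e.mul_right g))),
    fun e => hv (e.imp_right fun e => e.mul_left f)⟩

omit [Fintype k] in
theorem SelL_kh {v : Pl k} (j : Kb k →ₐ[RatFunc k] Lb v) {x : Kb k} (hx : KH H x) :
    LH H v j (j x) :=
  ⟨SelL_om j hx.1, fun τ σ hσ e => by rw [← e, hx.2 σ hσ]⟩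

namespace Hy

variable (h : Hy p a4 a6)
include h

theorem SelL_sz {v : Pl k} (hv : v ≠ none) : Sz (Wm a4 a6 (Lb v)) (nm v) 1 := by
  obtain ⟨ρ, -, hs, -⟩ := (h.ord_Lb v).exists_rho (nm_na v)
  refine ⟨hs.na, hs.two, hs.three, one_pos, ?_, ?_⟩
  · rw [one_pow, Wm_a4, SelL_pk]
    exact av_poly_le hv _
  · rw [one_pow, Wm_a6, SelL_pk]
    exact av_poly_le hv _

theorem SelL_le {v : Pl k} (hv : ¬ InS0 (Dc a4 a6) v) {Q : Pts (Ew a4 a6) (Lb v)}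
    (hl : Q ∈ LL a4 a6 p v (n + 1)) (hQ : ∀ τ ∈ I0 p v, act _ τ Q = Q) :
    nm v (bL a4 a6 p v (n + 1) Q) ≤ nm v (pk _ (hasseInv p a4 a6)) ^ uk p (n + 1) := by
  have h0 : v ≠ none := fun e => hv (Or.inl e)
  have hO := h.ord_Lb v
  have hm := (mem_lev hO.sw (pk_omL v a4)).1 hl
  refine hO.bk_le (sc_Lb v) (pk_omL v a4) (pk_omL v a6) (h.SelL_sz h0) ?_
    (Om (Lv v) (Lb v) ⊓ (IntermediateField.fixedField (I0 p v)).toSubfield) inf_le_left
    (fun x hx h1 => i0_der h0 hx.1 ((IntermediateField.mem_fixedField_iff _ x).1 hx.2) h1)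
    ⟨hm.1, (IntermediateField.mem_fixedField_iff _ _).2 fun τ hτ => ?_⟩
    ⟨hm.2, (IntermediateField.mem_fixedField_iff _ _).2 fun τ hτ => ?_⟩
  · have e : 4 * (Wm a4 a6 (Lb v)).a₄ ^ 3 + 27 * (Wm a4 a6 (Lb v)).a₆ ^ 2 =
        pk (Lb v) (Dc a4 a6) := by
      simp only [Dc, map_add, map_mul, map_pow, map_ofNat, Wm_a4, Wm_a6]
    rw [e, SelL_pk]
    exact PF_one h0 fun e => hv (Or.inr e)
  · have e := (cmp_actL τ).xc_eq Q
    rw [hQ τ hτ] at e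
    rw [map_pow]
    exact congrArg (· ^ _) e.symm
  · have e := (cmp_actL τ).yc_eq Q
    rw [hQ τ hτ] at e
    rw [map_pow]
    exact congrArg (· ^ _) e.symm

theorem SelL_i0 {v : Pl k} (hA : nm v (pk _ (hasseInv p a4 a6)) = 1) {τ : Lb v ≃ₐ[Lv v] Lb v}
    (hτ : τ ∈ I0 p v) {P : Pts (Ew a4 a6) (Lb v)} (hP : p • P = 0) {Z : Lb v} (hZ : nm v Z ≤ 1)
    (e : τ Z = Z + zz p P) : P = 0 := by
  by_contra h0
  have h1 := i0_small hτ hZ
  rw [e, add_sub_cancel_left, SelL_small (h.ord_Lb v) hA hP h0] at h1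
  exact lt_irrefl _ h1

theorem kap_loc {s : Amb a4 a6 p H n} {a w : Kb k} (hs : Kap a4 a6 p H n s a w) (v : Pl k)
    (j : Kb k →ₐ[RatFunc k] Lb v) : ∃ Q1 ∈ LL a4 a6 p v (n + 1), ∃ y, LH H v j y ∧
      (∀ τ : Lb v ≃ₐ[Lv v] Lb v, ∀ σ ∈ H, (∀ x, j (σ x) = τ (j x)) → p • (act _ τ Q1 - Q1) = 0) ∧
      j a = (y + zk p (pk _ (hasseInv p a4 a6)) (n + 1) Q1) ^ p / pk _ (hasseInv p a4 a6) -
        (y + zk p (pk _ (hasseInv p a4 a6)) (n + 1) Q1) ∧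
      j w = bL a4 a6 p v (n + 1) Q1 - (y + zk p (pk _ (hasseInv p a4 a6)) (n + 1) Q1) ^ p /
        pk _ (hasseInv p a4 a6) * algebraMap (RatFunc k) _ (vpk a4 a6 p n) := by
  obtain ⟨x, Q, z, -, hZ, hQ, -, hτ, hz, hσ, rfl, rfl⟩ := hs
  obtain ⟨R, hR, hx⟩ := hZ.2.2.2.2 v j
  have hO := h.ord_Lb v
  have hj : j (pk _ (hasseInv p a4 a6)) = pk _ (hasseInv p a4 a6) := j.commutes _
  have hR' : R ∈ LL a4 a6 p v (n + 1) := lev_mono n hR
  have hl : em a4 a6 j Q - R ∈ LL a4 a6 p v (n + 1) := sub_mem (ll_em j hQ) hR'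
  have h1 : ∀ τ : Lb v ≃ₐ[Lv v] Lb v, ∀ σ ∈ H, (∀ x, j (σ x) = τ (j x)) →
      act _ τ (em a4 a6 j Q - R) - (em a4 a6 j Q - R) =
        -em a4 a6 j (x.1 σ - (act _ σ Q - Q)) := fun τ σ h2 e => by
    rw [map_sub, map_sub, map_sub, hx τ σ h2 e, em_act j e]
    abel
  have h2 : ∀ τ : Lb v ≃ₐ[Lv v] Lb v, ∀ σ ∈ H, (∀ x, j (σ x) = τ (j x)) →
      p • (act _ τ (em a4 a6 j Q - R) - (em a4 a6 j Q - R)) = 0 := fun τ σ h2 e => by
    rw [h1 τ σ h2 e, smul_neg, ← map_nsmul, hτ σ h2, map_zero, neg_zero]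
  refine ⟨_, hl, j z - zk p (pk _ (hasseInv p a4 a6)) (n + 1) (em a4 a6 j Q - R),
    ⟨sub_mem (SelL_om j hz) (hO.zk_mem (sc_Lb v) (pk_omL v a4) (pk_omL v a6) hl),
      fun τ σ h3 e => ?_⟩, h2, ?_, ?_⟩
  · have e1 := SelL_zk hO (cmp_actL τ) (SelL_fix τ _) (n + 1) (h2 τ σ h3 e)
    rw [h1 τ σ h3 e, hO.zz_neg, h.ord_Kb.zz_map (cmp_em j)] at e1
    have e2 := congrArg j (hσ σ h3)
    rw [map_sub, map_neg, e] at e2
    replace e1 : τ _ = _ + -j _ := e1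
    rw [map_sub]
    linear_combination e2 - e1
  · rw [sub_add_cancel, map_sub, map_div₀, map_pow, hj]
  · have e1 := hO.bk_add (sc_Lb v) (pk_omL v a4) (pk_omL v a6) hl hR'
    have e2 := (cmp_em j).bk_eq h.ord_Kb.sw (fun _ => SelL_om j) (pk_om a4) sc_Kb.1
      ((j.commutes RatFunc.X).symm ▸ (sc_Lb v).1) (pk _ (hasseInv p a4 a6)) hQ
    rw [(hO.bk_eq_zero (sc_Lb v) (pk_omL v a4) (pk_omL v a6) hR').2 hR, sub_add_cancel,
      add_zero] at e1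
    rw [show (j : Kb k →+* Lb v) (tv k _) = tv k _ from j.commutes _,
      show (j : Kb k →+* Lb v) (pk _ _) = pk _ _ from hj, e1] at e2
    rw [sub_add_cancel, map_sub, map_mul, map_div₀, map_pow, hj, j.commutes]
    exact congrArg (· - _) e2.symm

theorem SelL_split {s : Amb a4 a6 p H n} {a w : Kb k} (hs : Kap a4 a6 p H n s a w) (v : Pl k)
    (j : Kb k →ₐ[RatFunc k] Lb v) {ρ : ℝ} (hz : Sz (Wm a4 a6 (Lb v)) (nm v) ρ)
    (hT : ∀ P : Pts (Ew a4 a6) (Lb v), p • P = 0 → InE1 (nm v) ρ P → P = 0) :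
    ∃ Q ∈ LL a4 a6 p v (n + 1), ∃ y Z, LH H v j y ∧
      (∀ τ : Lb v ≃ₐ[Lv v] Lb v, ∀ σ ∈ H, (∀ x, j (σ x) = τ (j x)) →
        p • (act _ τ Q - Q) = 0 ∧ τ Z = Z + zz p (act _ τ Q - Q)) ∧
      j a - (y ^ p / pk _ (hasseInv p a4 a6) - y) = Z ^ p / pk _ (hasseInv p a4 a6) - Z ∧
      j w + y ^ p / pk _ (hasseInv p a4 a6) * algebraMap (RatFunc k) _ (vpk a4 a6 p n) =
        bL a4 a6 p v (n + 1) Q - Z ^ p / pk _ (hasseInv p a4 a6) *
          algebraMap (RatFunc k) _ (vpk a4 a6 p n) ∧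
      nm v Z ≤ ρ ^ p ^ (n + 1) / nm v (pk _ (hasseInv p a4 a6)) ^ uk p (n + 1) := by
  obtain ⟨Q, hl, y, hy, hτ, ha, hw⟩ := h.kap_loc hs v j
  have hO := h.ord_Lb v
  rcases hO.dich hz Q with ⟨P, hP, h1⟩ | h1
  · have hl' := add_mem hl (hO.EllR_tors (sc_Lb v) (pk_omL v a4) (pk_omL v a6) n hP)
    have h2 := fun τ σ h2 e => SelL_e1 hO.sw hz hT (cmp_actL τ) (nm_iso v τ) h1
      (SelL_tors (hτ τ σ h2 e) hP)
    have h3 := SelL_lam hO hP
    refine ⟨Q + P, hl', y + zk p (pk _ (hasseInv p a4 a6)) (n + 1) (Q + P), 0,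
      ⟨add_mem hy.1 (hO.zk_mem (sc_Lb v) (pk_omL v a4) (pk_omL v a6) hl'), fun τ σ h4 e => ?_⟩,
      fun τ σ h4 e => ?_, ?_, ?_, ?_⟩
    · have e1 := SelL_zk hO (cmp_actL τ) (SelL_fix τ _) (n + 1) (SelL_tors (hτ τ σ h4 e) hP)
      rw [h2 τ σ h4 e, hO.zz_zero, add_zero] at e1
      rw [map_add, hy.2 τ σ h4 e]
      exact congrArg (y + ·) e1
    · rw [h2 τ σ h4 e, hO.zz_zero, smul_zero, map_zero, add_zero]
      exact ⟨rfl, rfl⟩
    · rw [ha, hO.zk_add_tors _ Q hP, ← add_assoc, add_pow_char _ (zz p P), add_div, h3,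
        zero_pow hp.out.ne_zero]
      ring
    · rw [hw, hO.zk_add_tors _ Q hP, ← add_assoc, add_pow_char _ (zz p P), add_div, h3,
        zero_pow hp.out.ne_zero, bL, bL,
        SelL_add hO (sc_Lb v) (pk_omL v a4) (pk_omL v a6) (fun _ => h.vpk_specL n v) hl hP]
      ring
    · rw [map_zero]
      have := hz.pos
      positivity
  · refine ⟨Q, hl, y, zk p (pk _ (hasseInv p a4 a6)) (n + 1) Q, hy, fun τ σ h4 e =>
      ⟨hτ τ σ h4 e, SelL_zk hO (cmp_actL τ) (SelL_fix τ _) (n + 1) (hτ τ σ h4 e)⟩, ?_, ?_, ?_⟩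
    · rw [ha, Wp_add, add_sub_cancel_left]
    · rw [hw, add_pow_char]
      ring
    · rw [zk, map_div₀, map_pow, map_pow]
      gcongr

theorem kap_et0 (n : ℕ) : ∃ B : ℕ, ∀ (H : Subgroup (Gk k)) (s : Amb a4 a6 p H n) (a w : Kb k),
    Kap a4 a6 p H n s a w → ∀ v, InS0 (hasseInv p a4 a6 * Dc a4 a6) v →
      ∀ j : Kb k →ₐ[RatFunc k] Lb v, ∃ y, LH H v j y ∧
        nm v (j a - (y ^ p / pk _ (hasseInv p a4 a6) - y)) ≤ 2 ^ B := by
  have hF : hasseInv p a4 a6 * Dc a4 a6 ≠ 0 := mul_ne_zero h.A_ne h.disc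
  choose ρ h1 h2 h3 using fun v : Pl k => (h.ord_Lb v).exists_rho (nm_na v)
  obtain ⟨c, hc⟩ : ∃ c : Pl k → ℝ, ∀ v, c v =
    ρ v ^ p ^ (n + 1) / nm v (pk _ (hasseInv p a4 a6)) ^ uk p (n + 1) := ⟨_, fun _ => rfl⟩
  obtain ⟨C, hC⟩ := (((fin_dvd hF).insert none).image fun v =>
    max (c v ^ p / nm v (pk _ (hasseInv p a4 a6))) (c v)).bddAbove
  obtain ⟨B, hB⟩ := pow_unbounded_of_one_lt C one_lt_two
  refine ⟨B, fun H s a w hs v hv j => ?_⟩
  obtain ⟨Q, -, y, Z, hy, -, ha, -, hZ⟩ := h.SelL_split hs v j (h2 v) (h3 v)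
  rw [← hc] at hZ
  refine ⟨y, hy, le_trans ?_ ((hC ⟨v, ?_, rfl⟩).trans hB.le)⟩
  · rw [ha]
    refine EllB_sub (nm_na v) (le_max_of_le_left ?_) (le_max_of_le_right hZ)
    rw [map_div₀, map_pow]
    gcongr
  · by_cases h0 : v = none
    · exact Or.inl h0
    · exact Or.inr ⟨h0, hv.resolve_left h0⟩

theorem SelL_one {s : Amb a4 a6 p H n} {a w : Kb k} (hs : Kap a4 a6 p H n s a w) {v : Pl k}
    (hv : ¬ InS0 (hasseInv p a4 a6 * Dc a4 a6) v) (j : Kb k →ₐ[RatFunc k] Lb v) :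
    ∃ Q ∈ LL a4 a6 p v (n + 1), ∃ y Z, LH H v j y ∧
      (∀ τ ∈ I0 p v, ∀ σ ∈ H, (∀ x, j (σ x) = τ (j x)) → act _ τ Q = Q) ∧
      nm v (j a - (y ^ p / pk _ (hasseInv p a4 a6) - y)) ≤ 1 ∧
      j w + y ^ p / pk _ (hasseInv p a4 a6) * algebraMap (RatFunc k) _ (vpk a4 a6 p n) =
        bL a4 a6 p v (n + 1) Q - Z * algebraMap (RatFunc k) _ (vpk a4 a6 p n) ∧ nm v Z ≤ 1 := by
  have hz := h.SelL_sz (v := v) fun e => hv (Or.inl e)
  have hA := (SelL_S0 hv).1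
  obtain ⟨Q, hl, y, Z, hy, hτ, ha, hw, hZ⟩ := h.SelL_split hs v j hz
    fun P => (h.ord_Lb v).tors_e1 hz hA
  rw [hA, one_pow, one_pow, div_one] at hZ
  have h1 : nm v (Z ^ p / pk _ (hasseInv p a4 a6)) ≤ 1 := by
    rw [map_div₀, map_pow, hA, div_one]
    exact pow_le_one₀ ((nm v).nonneg _) hZ
  refine ⟨Q, hl, y, _, hy, fun τ h2 σ h3 e => sub_eq_zero.1
    (h.SelL_i0 hA h2 (hτ τ σ h3 e).1 hZ (hτ τ σ h3 e).2), ?_, hw, h1⟩
  rw [ha]
  exact EllB_sub (nm_na v) h1 hZ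

theorem kap_et1 {s : Amb a4 a6 p H n} {a w : Kb k} (hs : Kap a4 a6 p H n s a w) {v : Pl k}
    (hv : ¬ InS0 (hasseInv p a4 a6 * Dc a4 a6) v) (j : Kb k →ₐ[RatFunc k] Lb v) :
    ∃ y, LH H v j y ∧ nm v (j a - (y ^ p / pk _ (hasseInv p a4 a6) - y)) ≤ 1 := by
  obtain ⟨Q, -, y, Z, hy, -, ha, -⟩ := h.SelL_one hs hv j
  exact ⟨y, hy, ha⟩

theorem vp_int {v : Pl k} (hv : ¬ InS0 (hasseInv p a4 a6 * Dc a4 a6) v) :
    av v (vp0 a4 a6 p) ≤ 1 := by
  have hO := h.ord_Lb v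
  obtain ⟨P, h0, hP⟩ := hO.ex
  obtain ⟨hA, hD⟩ := SelL_S0 hv
  have h1 := SelL_small hO hA hP h0
  have h2 := h.SelL_le (n := 0) hD (hO.tors_lev (sc_Lb v) (pk_omL v a4) (pk_omL v a6) hP)
    fun τ hτ => by
      have h3 : p • (act _ τ P - P) = 0 := by
        rw [smul_sub, ← map_nsmul, hP, map_zero, sub_self]
      refine sub_eq_zero.1 (h.SelL_i0 hA hτ h3 h1.le ?_)
      rw [← hO.zz_add_tors P h3, add_sub_cancel]
      exact (hO.zz_map (cmp_actL τ) P).symm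
  rwa [h.vpk_specL 0 v hP, map_mul, h1, hA, one_pow, one_mul, nm_algK] at h2

theorem kap_good {s : Amb a4 a6 p H n} {a w : Kb k} (hs : Kap a4 a6 p H n s a w) {v : Pl k}
    (hv : ¬ InS0 (hasseInv p a4 a6 * Dc a4 a6) v) (j : Kb k →ₐ[RatFunc k] Lb v)
    (hI : ∀ τ ∈ I0 p v, ∃ σ ∈ H, ∀ x, j (σ x) = τ (j x)) :
    ∃ y, LH H v j y ∧ nm v (j a - (y ^ p / pk _ (hasseInv p a4 a6) - y)) ≤ 1 ∧
      nm v (j w + y ^ p / pk _ (hasseInv p a4 a6) * algebraMap (RatFunc k) _ (vpk a4 a6 p n)) ≤ 1 := by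
  obtain ⟨Q, hl, y, Z, hy, hτ, ha, hw, hZ⟩ := h.SelL_one hs hv j
  obtain ⟨hA, hD⟩ := SelL_S0 hv
  have h1 := h.SelL_le hD hl fun τ h1 => (hI τ h1).elim fun σ h2 => hτ τ h1 σ h2.1 h2.2
  rw [hA, one_pow] at h1
  refine ⟨y, hy, ha, ?_⟩
  rw [hw]
  refine EllB_sub (nm_na v) h1 ?_
  rw [map_mul, nm_algK]
  refine mul_le_one₀ hZ ((av v).nonneg _) ?_
  unfold vpk
  split_ifs
  · exact h.vp_int hv
  · rw [map_zero]
    exact zero_le_one

theorem kap_tight {s : Amb a4 a6 p H (n + 1)} {w : Kb k} (hs : Kap a4 a6 p H (n + 1) s 0 w)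
    {v : Pl k} (hv : ¬ InS0 (Dc a4 a6) v) (j : Kb k →ₐ[RatFunc k] Lb v)
    (hI : ∀ τ ∈ I0 p v, ∃ σ ∈ H, ∀ x, j (σ x) = τ (j x)) :
    nm v (j w) ≤ av v (pk _ (hasseInv p a4 a6)) ^ uk p (n + 2) := by
  obtain ⟨Q, hl, y, hy, hτ, ha, hw⟩ := h.kap_loc hs v j
  have hO := h.ord_Lb v
  have h0 : algebraMap (RatFunc k) (Lb v) (vpk a4 a6 p (n + 1)) = 0 := by
    rw [vpk, if_neg n.succ_ne_zero, map_zero]
  obtain ⟨P, h1, hP⟩ := hO.ex
  obtain ⟨m, hm⟩ := wp_ker (hO.lam_pow h1 hP) (hO.lam_ne h1 hP) (ha.symm.trans (map_zero j))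
  have h2 : p • -(m • P) = 0 := by rw [smul_neg, smul_comm, hP, smul_zero, neg_zero]
  have h3 : zk p (pk _ (hasseInv p a4 a6)) (n + 1 + 1) (Q + -(m • P)) = -y := by
    rw [hO.zk_add_tors _ Q h2, hO.zz_neg, hO.zz_nsmul hP, ← hm]
    ring
  have h4 := h.SelL_le hv (add_mem hl (hO.EllR_tors (sc_Lb v) (pk_omL v a4) (pk_omL v a6) _ h2))
    fun τ h4 => by
      obtain ⟨σ, h5, e⟩ := hI τ h4
      have h6 := SelL_tors (hτ τ σ h5 e) h2
      have e1 := SelL_zk hO (cmp_actL τ) (SelL_fix τ _) (n + 1 + 1) h6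
      rw [h3, map_neg, show (τ : Lb v →+* Lb v) y = y from hy.2 τ σ h5 e, left_eq_add] at e1
      exact sub_eq_zero.1 (by_contra fun h7 => hO.lam_ne h7 h6 e1)
  rw [bL, SelL_add hO (sc_Lb v) (pk_omL v a4) (pk_omL v a6) (fun _ => h.vpk_specL (n + 1) v) hl h2,
    h0, mul_zero, add_zero, SelL_pk] at h4
  rw [hw, h0, mul_zero, sub_zero]
  exact h4

theorem kap_iso {s s' : Amb a4 a6 p H n} {a w a' w' : Kb k} (hs : Kap a4 a6 p H n s a w)
    (hs' : Kap a4 a6 p H n s' a' w') (v : Pl k) (j : Kb k →ₐ[RatFunc k] Lb v) :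
    ∃ η, LH H v j η ∧ j (a * w' + a' * w + a * a' * algebraMap _ _ (vpk a4 a6 p n)) =
      η - car p (Om (Lv v) (Lb v)) (tv k (Lb v)) η := by
  obtain ⟨Q, hl, y, hy, hτ, ha, hw⟩ := h.kap_loc hs v j
  obtain ⟨Q', hl', y', hy', hτ', ha', hw'⟩ := h.kap_loc hs' v j
  have hO := h.ord_Lb v
  have hS := sc_Lb (p := p) v
  have h4 := pk_omL v a4
  have h6 := pk_omL v a6
  have hϖ := fun (P : Pts (Ew a4 a6) (Lb v)) (hP : p • P = 0) => h.vpk_specL n v hP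
  have m1 := SelL_kh j (h.kap_mem hs).1
  have m2 := SelL_kh j (h.kap_mem hs).2
  have m3 := SelL_kh j (h.kap_mem hs').1
  have m4 := SelL_kh j (h.kap_mem hs').2
  have mZ := hO.zk_mem hS h4 h6 hl
  have mZ' := hO.zk_mem hS h4 h6 hl'
  have mb := hO.bk_mem hS h4 h6 hl
  have mb' := hO.bk_mem hS h4 h6 hl'
  have mϖ := SelL_omK v (vpk a4 a6 p n)
  have c1 := SelL_alg hS.1 (pk_omL v _) (add_mem hy.1 mZ) (add_mem hy'.1 mZ') mb mb' mϖ
    (hO.car_bk hS h4 h6 hl) (hO.car_bk hS h4 h6 hl') (hO.car_vp hS h4 h6 hϖ)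
  have c2 := hO.iso_car hS h4 h6 hϖ hl hl'
  have mr := hO.rho0_mem hS h4 h6 hϖ hl hl'
  have f1 := fun τ σ h1 e => SelL_bz hO hS h4 h6 hϖ (cmp_actL τ) (SelL_fix τ _) (SelL_fix τ _)
    (fun _ => om_act τ) (SelL_fix τ _) hl (hτ τ σ h1 e)
  have f2 := fun τ σ h1 e => SelL_bz hO hS h4 h6 hϖ (cmp_actL τ) (SelL_fix τ _) (SelL_fix τ _)
    (fun _ => om_act τ) (SelL_fix τ _) hl' (hτ' τ σ h1 e)
  have f3 := fun τ σ h1 e => SelL_rho hO hS h4 h6 hϖ (cmp_actL τ) (SelL_fix τ _) (SelL_fix τ _)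
    (fun _ => om_act τ) (SelL_fix τ _) hl hl' (hτ τ σ h1 e) (hτ' τ σ h1 e)
  have f4 := fun τ : Lb v ≃ₐ[Lv v] Lb v => SelL_fix τ (vpk a4 a6 p n)
  rw [map_add, map_add, map_mul, map_mul, map_mul, map_mul, j.commutes]
  unfold bL at hw hw'
  generalize zk p (pk (Lb v) (hasseInv p a4 a6)) (n + 1) Q = Z at *
  generalize zk p (pk (Lb v) (hasseInv p a4 a6)) (n + 1) Q' = Z' at *
  generalize bk p (Om (Lv v) (Lb v)) (tv k (Lb v)) (pk (Lb v) (hasseInv p a4 a6)) (n + 1) Q = b at *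
  generalize bk p (Om (Lv v) (Lb v)) (tv k (Lb v)) (pk (Lb v) (hasseInv p a4 a6)) (n + 1) Q' = b'
    at *
  generalize rho0 p (Om (Lv v) (Lb v)) (tv k (Lb v)) (pk (Lb v) (hasseInv p a4 a6)) (n + 1)
    (algebraMap (RatFunc k) (Lb v) (vpk a4 a6 p n)) Q Q' = r at *
  generalize algebraMap (RatFunc k) (Lb v) (vpk a4 a6 p n) = ϖ at *
  refine ⟨j a * j w' + j a' * j w + j a * j a' * ϖ + y * (b' - Z' * ϖ) + y' * (b - Z * ϖ) -
    y * y' * ϖ - r, ⟨?_, fun τ σ h1 e => ?_⟩, ?_⟩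
  · exact sub_mem (sub_mem (add_mem (add_mem (add_mem (add_mem (mul_mem m1.1 m4.1)
      (mul_mem m3.1 m2.1)) (mul_mem (mul_mem m1.1 m3.1) mϖ))
      (mul_mem hy.1 (sub_mem mb' (mul_mem mZ' mϖ)))) (mul_mem hy'.1 (sub_mem mb (mul_mem mZ mϖ))))
      (mul_mem (mul_mem hy.1 hy'.1) mϖ)) mr
  · have e1 : τ (b - Z * ϖ) = _ := f1 τ σ h1 e
    have e2 : τ (b' - Z' * ϖ) = _ := f2 τ σ h1 e
    have e3 : τ r = _ := f3 τ σ h1 e
    rw [map_sub, map_sub, map_add, map_add, map_add, map_add, map_mul, map_mul, map_mul, map_mul,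
      map_mul, map_mul, map_mul, map_mul, e1, e2, e3, f4, m1.2 τ σ h1 e, m2.2 τ σ h1 e,
      m3.2 τ σ h1 e, m4.2 τ σ h1 e, hy.2 τ σ h1 e, hy'.2 τ σ h1 e]
  · have e : j a * j w' + j a' * j w + j a * j a' * ϖ + y * (b' - Z' * ϖ) + y' * (b - Z * ϖ) -
        y * y' * ϖ - r = (y + Z) ^ p * (b' / pk _ (hasseInv p a4 a6)) +
        (y' + Z') ^ p * (b / pk _ (hasseInv p a4 a6)) -
        ((y + Z) * (y' + Z')) ^ p * (ϖ / pk _ (hasseInv p a4 a6) ^ 2) -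
        (Z * b' + Z' * b - Z * Z' * ϖ + r) := by
      rw [ha, hw, ha', hw', mul_pow]
      generalize (y + Z) ^ p = u
      generalize (y' + Z') ^ p = u'
      ring
    conv_rhs => rw [e, map_sub, c1, c2, ← e]
    ring

end Hy

end Pool.Agent.ASel
end

-- merged part: Pool.Agent.Work.MP_60d5ce_nt.AG.LatA
section
/-!
# The operator `π = σ0 - 1` on `K1` and on the Tate modules; lattices

`Lat n s` is the group of the `u` with `F u ∈ π ^ s T (n+1)`.  `RepL n s u a w`: there are `u'` with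
`π ^ s u' = F u` and `α, ω ∈ K1` such that `π α` is the first component of `κ u'`, `κ u = (π ^ (s+1) α, π ω)`,
`a = π ^ (p-1) α`, `w = π ^ (p-1) ω`.

PLAN.  Every `σ` moves the roots by elements of `F_p`, so the fixer of the roots is normal with abelian
quotient, and `σ0 ^ p` lies in it.  On `K1`, `π ^ (p-1) = ∑ σ0 ^ i` (characteristic `p`) and
`θ = -w0 ^ (p-1)` has trace one: `k1_tr`: `y = ∑ σ0 ^ i (θ y)`; `k1_h90`: explicit Hilbert 90.
`pi_pow`: `∑_{i<p} (1 + π) ^ i = ∑_{i<p} choose p (i+1) π ^ i = 0`.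
-/

namespace Pool.Agent.ASel

open Polynomial Pool.Agent.Smith

noncomputable section

variable {p : ℕ} {k : Type} [Field k] {ι : Type}

/-- `σ0 - 1` on the algebraic closure -/
def ASF.pi (Φ : ASF p k ι) : Kb k →+ Kb k :=
  (Φ.σ0 : Kb k →+* Kb k).toAddMonoidHom - AddMonoidHom.id _

/-- the constant attached to the lattice `(n, s)` -/
def vps (ϖ0 : RatFunc k) (n s : ℕ) : RatFunc k := if s = 0 then vpn ϖ0 n else 0

variable [Fintype k] [hp : Fact p.Prime] [CharP k p]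

theorem LatA_move {w : Kb k} {a : RatFunc k} (h : w ^ p - w = algebraMap _ _ a) (σ : Gk k) :
    ∃ m : ℕ, σ w = w + m := by
  have e := congrArg σ h
  rw [map_sub, map_pow, σ.commutes, ← h] at e
  obtain ⟨m, hm⟩ := Wp_fix (p := p) (x := σ w - w) (by rw [sub_pow_char]; linear_combination e)
  exact ⟨m, eq_add_of_sub_eq' hm⟩

theorem LatA_cm {w : Kb k} {a : RatFunc k} (h : w ^ p - w = algebraMap _ _ a) (σ τ : Gk k) :
    (σ * τ) w = (τ * σ) w := by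
  obtain ⟨m, hm⟩ := LatA_move h σ
  obtain ⟨n, hn⟩ := LatA_move h τ
  simp only [AlgEquiv.mul_apply, hm, hn, map_add, map_natCast]
  ring

theorem LatA_fix {w : Kb k} {a : RatFunc k} (h : w ^ p - w = algebraMap _ _ a) (σ : Gk k) {τ : Gk k}
    (hτ : τ w = w) : (τ * σ) w = σ w := by
  rw [LatA_cm h, AlgEquiv.mul_apply, hτ]

omit [Fintype k] in
theorem LatA_inv {σ τ : Gk k} {w : Kb k} : (τ⁻¹ * σ) w = w ↔ σ w = τ w := by
  rw [AlgEquiv.mul_apply, AlgEquiv.aut_inv, AlgEquiv.symm_apply_eq]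

omit [Fintype k] in
theorem LatA_sub (P : Gk k → Prop) : ∃ S : IntermediateField (RatFunc k) (Kb k),
    ∀ x, x ∈ S ↔ x ∈ Om (RatFunc k) (Kb k) ∧ ∀ σ, P σ → σ x = x :=
  ⟨(Om (RatFunc k) (Kb k) ⊓ ⨅ σ : {σ // P σ}, RingHom.eqLocusField (σ.1 : Kb k →+* Kb k)
    (RingHom.id _)).toIntermediateField fun a =>
      ⟨om_alg a, Subfield.mem_iInf.2 fun σ => σ.1.commutes a⟩,
    fun _ => and_congr_right fun _ => Subfield.mem_iInf.trans Subtype.forall⟩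

theorem LatA_om {w : Kb k} {a : RatFunc k} (h : w ^ p - w = algebraMap _ _ a) :
    w ∈ Om (RatFunc k) (Kb k) :=
  om_wp (p := p) (one_mem _) one_ne_zero (om_alg a) (by rw [div_one, h])

namespace ASF

variable (Φ : ASF p k ι)

theorem pi_apply (x : Kb k) : Φ.pi x = Φ.σ0 x - x := rfl

theorem move0 (σ : Gk k) : ∃ m : ℕ, σ Φ.w0 = Φ.w0 + m := LatA_move Φ.hw0 σ

theorem move (σ : Gk k) (l : ι) : ∃ m : ℕ, σ (Φ.w l) = Φ.w l + m :=
  LatA_move (Φ.hw l) σ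

theorem LatA_pow0 (m : ℕ) : (Φ.σ0 ^ m) Φ.w0 = Φ.w0 + m := by
  induction m with
  | zero => simp
  | succ m ih =>
    rw [pow_succ', AlgEquiv.mul_apply, ih, map_add, map_natCast, Φ.σ_w0]
    push_cast
    ring

theorem LatA_pow {x : Kb k} (h : Φ.σ0 x = x) (m : ℕ) : (Φ.σ0 ^ m) x = x := by
  induction m with
  | zero => rfl
  | succ m ih => rw [pow_succ, AlgEquiv.mul_apply, h, ih]

/-- binomial coefficients of `w0` -/
def LatA_e (j : ℕ) : Kb k := (∏ i ∈ Finset.range j, (Φ.w0 - i)) / j.factorial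

theorem LatA_e1 {j : ℕ} (hj : j + 1 < p) {z : Kb k} (hz : Φ.pi z = 0) :
    Φ.pi (Φ.LatA_e (j + 1) * z) = Φ.LatA_e j * z := by
  have n : ((j + 1).factorial : Kb k) ≠ 0 := fun h =>
    absurd ((hp.1.dvd_factorial).1 ((CharP.cast_eq_zero_iff _ p _).1 h)) (not_le.2 hj)
  have e : Φ.σ0 (∏ i ∈ Finset.range (j + 1), (Φ.w0 - i)) =
      (∏ i ∈ Finset.range j, (Φ.w0 - i)) * (Φ.w0 + 1) := by
    rw [Finset.prod_range_succ']
    simp [Φ.σ_w0]
  rw [pi_apply, map_mul, show Φ.σ0 z = z from sub_eq_zero.1 hz, LatA_e, map_div₀, map_natCast, e, Finset.prod_range_succ,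
    LatA_e]
  rw [Nat.factorial_succ, Nat.cast_mul] at n ⊢
  have n1 := left_ne_zero_of_mul n
  have n2 := right_ne_zero_of_mul n
  field_simp
  push_cast
  ring

theorem LatA_e2 {j : ℕ} (hj : j < p) {z : Kb k} (hz : Φ.pi z = 0) :
    Φ.pi^[j] (Φ.LatA_e j * z) = z := by
  induction j with
  | zero => simp [LatA_e]
  | succ j ih => rw [Function.iterate_succ_apply, LatA_e1 Φ hj hz, ih (by omega)]

variable {Φ}

theorem K2.k1 {x : Kb k} (h : Φ.K2 x) : Φ.K1 x := ⟨h.1, fun σ _ h2 => h.2 σ h2⟩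

theorem LatA_agree {x : Kb k} (h : Φ.K1 x) {σ τ : Gk k} (h0 : σ Φ.w0 = τ Φ.w0)
    (h1 : ∀ l, σ (Φ.w l) = τ (Φ.w l)) : σ x = τ x :=
  LatA_inv.1 (h.2 _ (LatA_inv.2 h0) fun l => LatA_inv.2 (h1 l))

theorem K1.act {x : Kb k} (h : Φ.K1 x) (σ : Gk k) : Φ.K1 (σ x) :=
  ⟨om_act σ h.1, fun τ h0 h1 => LatA_agree (σ := τ * σ) h (LatA_fix Φ.hw0 σ h0)
    fun l => LatA_fix (Φ.hw l) σ (h1 l)⟩

theorem K2.act {x : Kb k} (h : Φ.K2 x) (σ : Gk k) : Φ.K2 (σ x) :=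
  ⟨om_act σ h.1, fun τ h1 => (LatA_inv (σ := τ * σ)).1
    (h.2 _ fun l => LatA_inv.2 (LatA_fix (Φ.hw l) σ (h1 l)))⟩

theorem K1.comm {x : Kb k} (h : Φ.K1 x) (σ τ : Gk k) : σ (τ x) = τ (σ x) :=
  LatA_agree (σ := σ * τ) (τ := τ * σ) h (LatA_cm Φ.hw0 σ τ) fun l => LatA_cm (Φ.hw l) σ τ

/-- `K1` and `K2` are subfields containing `k(t)` -/
theorem exists_K1 : ∃ S : IntermediateField (RatFunc k) (Kb k), ∀ x, x ∈ S ↔ Φ.K1 x := by
  obtain ⟨S, h⟩ := LatA_sub fun σ : Gk k => σ Φ.w0 = Φ.w0 ∧ ∀ l, σ (Φ.w l) = Φ.w l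
  exact ⟨S, fun x => (h x).trans (and_congr_right fun _ => forall_congr' fun _ => and_imp)⟩

theorem exists_K2 : ∃ S : IntermediateField (RatFunc k) (Kb k), ∀ x, x ∈ S ↔ Φ.K2 x :=
  LatA_sub _

theorem k1_w0 : Φ.K1 Φ.w0 := ⟨LatA_om Φ.hw0, fun _ h _ => h⟩

theorem k2_w (l : ι) : Φ.K2 (Φ.w l) := ⟨LatA_om (Φ.hw l), fun _ h => h l⟩

theorem K1.pi {x : Kb k} (h : Φ.K1 x) (i : ℕ) : Φ.K1 (Φ.pi^[i] x) := by
  obtain ⟨S, hS⟩ := exists_K1 (Φ := Φ)
  induction i with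
  | zero => exact h
  | succ i ih =>
    rw [Function.iterate_succ_apply', pi_apply, ← hS]
    exact sub_mem ((hS _).2 (ih.act _)) ((hS _).2 ih)

theorem K1.k2 {x : Kb k} (h : Φ.K1 x) (h0 : Φ.pi x = 0) : Φ.K2 x :=
  ⟨h.1, fun σ h1 => by
    obtain ⟨m, hm⟩ := Φ.move0 σ
    exact (LatA_agree h (hm.trans (Φ.LatA_pow0 m).symm)
      fun l => (h1 l).trans (Φ.LatA_pow (Φ.σ_w l) m).symm).trans (Φ.LatA_pow (sub_eq_zero.1 h0) m)⟩

theorem K2.pi_eq {x : Kb k} (h : Φ.K2 x) : Φ.pi x = 0 := sub_eq_zero.2 (h.2 _ Φ.σ_w)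

theorem K1.pi_tr {x : Kb k} (h : Φ.K1 x) :
    Φ.pi^[p - 1] x = ∑ i ∈ Finset.range p, (Φ.σ0 ^ i) x := by
  have e : (X - 1 : (RatFunc k)[X]) ^ (p - 1) = ∑ i ∈ Finset.range p, X ^ i :=
    mul_right_cancel₀ (X_sub_C_ne_zero 1) (by
      rw [C_1, geom_sum_mul, pow_sub_one_mul hp.1.ne_zero, sub_pow_char, one_pow])
  have e2 := congrArg (fun f => aeval (Φ.σ0.toLinearMap : Module.End (RatFunc k) (Kb k)) f x) e
  simp only [map_pow, map_sub, map_sum, aeval_X, map_one, LinearMap.sum_apply,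
    Module.End.pow_apply] at e2
  simp only [AlgEquiv.coe_pow]
  exact e2

theorem K1.pi_p {x : Kb k} (h : Φ.K1 x) {i : ℕ} (hi : p ≤ i) : Φ.pi^[i] x = 0 := by
  obtain ⟨j, rfl⟩ : ∃ j, i = j + 1 + (p - 1) := ⟨i - p, by have := hp.1.pos; omega⟩
  have e : (Φ.σ0 ^ p) x = (Φ.σ0 ^ 0) x := LatA_agree h (by rw [LatA_pow0, LatA_pow0]; simp)
    fun l => by rw [Φ.LatA_pow (Φ.σ_w l), Φ.LatA_pow (Φ.σ_w l)]
  rw [Function.iterate_add_apply, Function.iterate_succ_apply, h.pi_tr, map_sum]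
  simp only [pi_apply, ← AlgEquiv.mul_apply, ← pow_succ']
  rw [Finset.sum_range_sub (fun i => (Φ.σ0 ^ i) x), e, sub_self, iterate_map_zero]

theorem LatA_k1 (j : ℕ) {z : Kb k} (hz : Φ.K1 z) : Φ.K1 (Φ.LatA_e j * z) := by
  obtain ⟨S, hS⟩ := exists_K1 (Φ := Φ)
  exact (hS _).1 (mul_mem (div_mem (prod_mem fun i _ => sub_mem ((hS _).2 k1_w0) (natCast_mem S i))
    (natCast_mem S _)) ((hS _).2 hz))

theorem k1_tr {y : Kb k} (h : Φ.K2 y) : ∃ x, Φ.K1 x ∧ y = Φ.pi^[p - 1] x :=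
  ⟨_, LatA_k1 _ h.k1, (Φ.LatA_e2 (Nat.sub_one_lt hp.1.ne_zero) h.pi_eq).symm⟩

theorem k1_h90 {y : Kb k} (h : Φ.K1 y) (h0 : Φ.pi^[p - 1] y = 0) : ∃ x, Φ.K1 x ∧ y = Φ.pi x := by
  obtain ⟨S, hS⟩ := exists_K1 (Φ := Φ)
  have hj := Nat.sub_one_lt hp.1.ne_zero
  generalize p - 1 = j at h0 hj
  induction j generalizing y with
  | zero => exact ⟨0, (hS _).1 (zero_mem S), h0.trans (map_zero _).symm⟩
  | succ j ih =>
    rw [Function.iterate_succ_apply'] at h0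
    obtain ⟨x, h1, h2⟩ := ih ((hS _).1 (sub_mem ((hS _).2 h) ((hS _).2 (LatA_k1 j (h.pi j)))))
      (by rw [iterate_map_sub, Φ.LatA_e2 (by omega) h0, sub_self]) (by omega)
    exact ⟨x + _, (hS _).1 (add_mem ((hS _).2 h1) ((hS _).2 (LatA_k1 (j + 1) (h.pi j)))),
      by rw [map_add, ← h2, Φ.LatA_e1 hj h0, sub_add_cancel]⟩

theorem pi_wp (A : k[X]) (y : Kb k) (i : ℕ) :
    Φ.pi^[i] (y ^ p / pk _ A) = (Φ.pi^[i] y) ^ p / pk _ A :=
  Function.Commute.iterate_left (g := fun y => y ^ p / pk _ A) (fun y => by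
    have e : Φ.σ0 (pk _ A) = pk _ A := Φ.σ0.commutes _
    simp only [pi_apply, map_div₀, map_pow, e, sub_pow_char, sub_div]) i y

theorem pi_mul (a : RatFunc k) (y : Kb k) (i : ℕ) :
    Φ.pi^[i] (y * algebraMap _ _ a) = Φ.pi^[i] y * algebraMap _ _ a :=
  Function.Commute.iterate_left (g := fun y => y * algebraMap _ _ a) (fun y => by
    simp only [pi_apply, map_mul, AlgEquiv.commutes, sub_mul]) i y

theorem act_cB (σ : Gk k) {y : Kb k} (h : y ∈ Om (RatFunc k) (Kb k)) :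
    σ (cB p y) = cB p (σ y) := by
  have e : (σ : Kb k →+* Kb k) (tv k (Kb k)) = tv k (Kb k) := σ.commutes _
  have := (sc_Kb (k := k) (p := p)).1.car_map (σ : Kb k →+* Kb k) (fun _ => om_act σ)
    (e.symm ▸ sc_Kb.1) h
  rwa [e] at this

end ASF

theorem alg_cB (a : RatFunc k) : algebraMap _ (Kb k) (cK p a) = cB p (algebraMap _ _ a) :=
  pb_K.car_map (algebraMap _ (Kb k)) (fun x _ => om_alg x) sc_Kb.1 trivial

namespace TD

variable {A F b : k[X]} {v0 : Pl k} {ϖ0 : RatFunc k} {B : ℕ → ℕ} {Φ : ASF p k ι}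
  (T : TD A F b v0 ϖ0 B Φ)

/-- `σ0 - 1` on the Tate module -/
def pi (n : ℕ) : T.T n →+ T.T n := T.ac n Φ.σ0 - AddMonoidHom.id _

theorem pi_apply (n : ℕ) (u : T.T n) : T.pi n u = T.ac n Φ.σ0 u - u := rfl

theorem iter_sub (n s : ℕ) (u u' : T.T n) :
    (T.pi n)^[s] (u - u') = (T.pi n)^[s] u - (T.pi n)^[s] u' := iterate_map_sub _ _ _ _

theorem iter_zero (n s : ℕ) : (T.pi n)^[s] 0 = 0 := iterate_map_zero _ _

/-- the lattice `(n, s)` -/
def Lat (n s : ℕ) : AddSubgroup (T.T n) :=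
  AddSubgroup.ofSub {u | ∃ u', (T.pi (n + 1))^[s] u' = T.Fr n u} ⟨0, 0, by simp [iter_zero]⟩
    fun _ ⟨x, hx⟩ _ ⟨y, hy⟩ => ⟨x - y, by rw [iter_sub, hx, hy, ← sub_eq_add_neg, map_sub]⟩

/-- the class of `u` modulo `π` in the lattice `(n, s)` -/
def RepL (n s : ℕ) (u : T.T n) (a w : Kb k) : Prop :=
  ∃ (u' : T.T (n + 1)) (α ω w' : Kb k), (T.pi (n + 1))^[s] u' = T.Fr n u ∧ Φ.K1 α ∧ Φ.K1 ω ∧
    T.Kap (n + 1) u' (Φ.pi α) w' ∧ T.Kap n u (Φ.pi^[s + 1] α) (Φ.pi ω) ∧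
    a = Φ.pi^[p - 1] α ∧ w = Φ.pi^[p - 1] ω

theorem mem_Lat {n s : ℕ} {u : T.T n} :
    u ∈ T.Lat n s ↔ ∃ u', (T.pi (n + 1))^[s] u' = T.Fr n u := Iff.rfl

theorem ac_comm (n : ℕ) (σ τ : Gk k) (u : T.T n) :
    T.ac n σ (T.ac n τ u) = T.ac n τ (T.ac n σ u) := by
  rw [← T.ac_mul, ← T.ac_mul, ← mul_inv_cancel_left (τ * σ) (σ * τ), T.ac_mul n (τ * σ),
    T.ac_triv n _ u (LatA_inv.2 (LatA_cm Φ.hw0 σ τ)) fun l => LatA_inv.2 (LatA_cm (Φ.hw l) σ τ)]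

theorem ac_pi (n s : ℕ) (σ : Gk k) (u : T.T n) :
    T.ac n σ ((T.pi n)^[s] u) = (T.pi n)^[s] (T.ac n σ u) :=
  Function.Commute.iterate_right (fun u => by rw [pi_apply, pi_apply, map_sub, ac_comm]) s u

theorem F_pi (n s : ℕ) (u : T.T n) :
    T.Fr n ((T.pi n)^[s] u) = (T.pi (n + 1))^[s] (T.Fr n u) :=
  Function.Semiconj.iterate_right (fun u => by rw [pi_apply, pi_apply, map_sub, T.F_ac]) s u

theorem V_pi (n s : ℕ) (u : T.T (n + 1)) :
    T.Ve n ((T.pi (n + 1))^[s] u) = (T.pi n)^[s] (T.Ve n u) :=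
  Function.Semiconj.iterate_right (fun u => by rw [pi_apply, pi_apply, map_sub, T.V_ac]) s u

theorem pi_inj (n s : ℕ) : Function.Injective (T.pi n)^[s] :=
  Function.Injective.iterate ((injective_iff_map_eq_zero _).2 fun u hu => T.ptf n u (by
    have e := T.norm n u
    simp only [Function.iterate_fixed (sub_eq_zero.1 hu : T.ac n Φ.σ0 u = u)] at e
    simpa using e)) s

theorem F_inj (n : ℕ) : Function.Injective (T.Fr n) :=
  (injective_iff_map_eq_zero _).2 fun u hu => T.ptf n u (by rw [← T.VF, hu, map_zero])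

theorem V_inj (n : ℕ) : Function.Injective (T.Ve n) :=
  (injective_iff_map_eq_zero _).2 fun u hu => T.ptf _ u (by rw [← T.FV, hu, map_zero])

/-- `π ^ (p-1) = -p (1 + ∑ c i π ^ (i+1))` -/
theorem pi_pow : ∃ c : ℕ → ℕ, ∀ n (u : T.T n), (T.pi n)^[p - 1] u =
    -(p • (u + ∑ i ∈ Finset.range p, c i • (T.pi n)^[i + 1] u)) := by
  refine ⟨fun i => p.choose (i + 2) / p, fun n u => ?_⟩
  have h2 := hp.1.two_le
  have e := congrArg (fun f => aeval ((T.pi n).toIntLinearMap : Module.End ℤ (T.T n)) f u)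
    (geom_sum_X_comp_X_add_one_eq_sum (R := ℤ) p)
  have e1 : ⇑((T.pi n).toIntLinearMap + 1 : Module.End ℤ (T.T n)) = T.ac n Φ.σ0 :=
    funext fun x => sub_add_cancel _ _
  simp only [aeval_comp, map_add, map_mul, map_pow, map_sum, aeval_X, map_one, map_natCast,
    LinearMap.sum_apply, Module.End.pow_apply, Module.End.mul_apply, Module.End.natCast_apply, e1,
    T.norm, AddMonoidHom.coe_toIntLinearMap] at e
  have e2 := Finset.sum_range_succ' (fun i => p.choose (i + 1) • (T.pi n)^[i] u) p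
  rw [Finset.sum_range_succ, ← e, Nat.choose_succ_self, zero_smul, add_zero, zero_add,
    Nat.choose_one_right, Function.iterate_zero_apply] at e2
  have e3 : ∀ i ∈ Finset.range p, p.choose (i + 1 + 1) • (T.pi n)^[i + 1] u =
      p • (p.choose (i + 2) / p) • (T.pi n)^[i + 1] u +
        if i = p - 2 then (T.pi n)^[p - 1] u else 0 := fun i _ => by
    rcases lt_trichotomy (i + 2) p with h | h | h
    · rw [if_neg (by omega), add_zero, ← mul_smul,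
        Nat.mul_div_cancel' (hp.1.dvd_choose_self (by omega) h)]
    · rw [if_pos (by omega), show p - 1 = i + 1 by omega, show i + 1 + 1 = p from h,
        Nat.choose_self, Nat.div_eq_of_lt h2, zero_smul, smul_zero, zero_add, one_smul]
    · rw [if_neg (by omega), Nat.choose_eq_zero_of_lt h, Nat.zero_div, zero_smul, smul_zero,
        add_zero]
  rw [Finset.sum_congr rfl e3, Finset.sum_add_distrib, Finset.sum_ite_eq',
    if_pos (Finset.mem_range.2 (by omega)), ← Finset.smul_sum] at e2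
  rw [smul_add, eq_neg_iff_add_eq_zero, e2]
  abel

theorem lat_ac {n s : ℕ} {u : T.T n} (hu : u ∈ T.Lat n s) (σ : Gk k) : T.ac n σ u ∈ T.Lat n s := by
  obtain ⟨u', h⟩ := hu
  exact ⟨T.ac _ σ u', by rw [← ac_pi, h, T.F_ac]⟩

variable {T}

theorem kap_zero (n : ℕ) : T.Kap n 0 0 0 := by
  obtain ⟨a, w, h⟩ := T.ex n 0
  simpa using T.sub h h

theorem LatA_add {n : ℕ} {u u' : T.T n} {a w a' w' : Kb k} (h : T.Kap n u a w)
    (h' : T.Kap n u' a' w') : T.Kap n (u + u') (a + a') (w + w') := by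
  simpa using T.sub h (T.sub (kap_zero n) h')

theorem kap_p (n : ℕ) (u : T.T n) : T.Kap n (p • u) 0 0 := by
  obtain ⟨a, w, h⟩ := T.ex n u
  have e : ∀ m : ℕ, T.Kap n (m • u) (m • a) (m • w) := fun m => by
    induction m with
    | zero => simpa using kap_zero n
    | succ m ih => simpa only [succ_nsmul] using LatA_add ih h
  simpa using e p

theorem kap_add {n : ℕ} {u u' : T.T n} {a w a' w' : Kb k} (h : T.Kap n u a w)
    (h' : T.Kap n u' a' w') : T.Kap n (u + u') (a + a') (w + w') := LatA_add h h'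

theorem kap_pi {n : ℕ} {u : T.T n} {a w : Kb k} (h : T.Kap n u a w) (s : ℕ) :
    T.Kap n ((T.pi n)^[s] u) (Φ.pi^[s] a) (Φ.pi^[s] w) := by
  induction s with
  | zero => exact h
  | succ s ih =>
    simp only [Function.iterate_succ_apply']
    exact T.sub (T.act Φ.σ0 ih) ih

theorem kap_diff {n : ℕ} {u : T.T n} {a w a' w' : Kb k} (h : T.Kap n u a w) (h' : T.Kap n u a' w') :
    ∃ y, Φ.K1 y ∧ a' = a + (y ^ p / pk _ A - y) ∧
      w' = w - y ^ p / pk _ A * algebraMap _ _ (vpn ϖ0 n) := by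
  have e := T.sub h' h
  rw [sub_self, ← smul_zero p] at e
  obtain ⟨y, h1, h2, h3⟩ := T.uniq e
  exact ⟨y, h1, eq_add_of_sub_eq' h2, by linear_combination h3⟩

end TD

end

end Pool.Agent.ASel
end

-- merged part: Pool.Agent.Work.MP_60d5ce_nt.AG.LatE
section
/-!
# Descent of the local conditions from `K1` to `K2`

PLAN.  Let `G2` be the group of the local `τ` that fix the `j (w l)`; `j a` is fixed by `G2` if `a ∈ K2`
(`exists_rst`).  `l2_split`: `j (w l) - s ∈ F_p`, so `G2` is everything, `om_fix`.  `desc_unr`: if `G2` fixes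
`j w0` take `y`; otherwise some `τ ∈ G2` has `τ (j w0) = j w0 + 1`; `y0 = ∑ τ ^ i (θ y)`, `θ = -(j w0) ^ (p-1)` of
trace one and norm `≤ 1`; `y - y0 = ∑ τ ^ i θ (y - τ ^ i y)` and `℘ (τ ^ i y - y)` has norm `≤ C`, `wp_le`.
`desc_anom`, `desc_na`: take `z` with `℘ z = j a` and `l` with `l ^ (p-1) = A`, `nm l = 1`; `f τ = τ z - z ∈ F_p l` on
`G2` (`wp_ker`).  `z - y` is integral (`wp_int`), so for `τ ∈ I0 ∩ G2` fixing `j w0`, `f τ` is small, so zero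
(`i0_small`, `fp_small`); `I0` fixes `l`.  Hence on `I0 ∩ G2`, `f τ = μ (τ w0 - w0) l`.  Anomalous case:
`l ∈ Lv v` (`anom_iff`), `z - μ l w0` is fixed by `I0`, `℘ (l w0) = l d`, `wp_unr`.  Other case: `l ∉ Lv v`, some
`γ` moves `l`, so does `γ ^ p ∈ G2`; conjugating (`i0_normal`) gives `μ (τ w0 - w0) = 0`, so `z` is fixed
by `I0 ∩ G2`, which contains the commutators (`i0_comm`); `sah`.
-/

namespace Pool.Agent.ASel

open Polynomial Pool.Agent.Smith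

variable {p : ℕ} {k : Type} [Field k] {ι : Type} [Fintype k] [hp : Fact p.Prime] [CharP k p]
  {A F b : k[X]} {v0 : Pl k} {ϖ0 : RatFunc k} {B : ℕ → ℕ} {Φ : ASF p k ι}

section abs

variable {K M : Type} [Field K] [Field M] [Algebra K M] {w : AbsoluteValue M ℝ}

theorem LatE_mv [CharP M p] {x : M} {c : K} (h : x ^ p - x = algebraMap K M c) (τ : M ≃ₐ[K] M) :
    ∃ m : ℕ, τ x = x + m := by
  obtain ⟨m, hm⟩ := Wp_fix (p := p) (x := τ x - x) (by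
    have h1 := congrArg τ h
    rw [map_sub, map_pow, AlgEquiv.commutes, ← h] at h1
    rw [sub_pow_char]
    linear_combination h1)
  exact ⟨m, sub_eq_iff_eq_add'.1 hm⟩

theorem LatE_it {τ : M ≃ₐ[K] M} {x c : M} (h : τ x = x + c) (hc : τ c = c) (n : ℕ) :
    (τ ^ n) x = x + n * c := by
  induction n with
  | zero => simp
  | succ n ih =>
    rw [pow_succ', AlgEquiv.mul_apply, ih, map_add, map_mul, map_natCast, h, hc]
    push_cast
    ring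

theorem LatE_nat [CharP M p] (m : ℕ) : (m : M) ^ p = m := by rw [← frobenius_def, map_natCast]

include hp in
variable (p) in
theorem LatE_one [CharP M p] (H : Subgroup (M ≃ₐ[K] M)) {x : M}
    (hx : ∀ τ : M ≃ₐ[K] M, ∃ m : ℕ, τ x = x + m) :
    (∀ τ ∈ H, τ x = x) ∨ ∃ τ ∈ H, τ x = x + 1 := by
  refine or_iff_not_imp_left.2 fun h => ?_
  obtain ⟨τ, h1⟩ := not_forall.1 h
  obtain ⟨h2, h3⟩ := Classical.not_imp.1 h1
  obtain ⟨m, hm⟩ := hx τ
  have h0 : (m : M) ≠ 0 := fun e => h3 (by rw [hm, e, add_zero])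
  refine ⟨τ ^ m ^ (p - 2), pow_mem h2 _, ?_⟩
  rw [LatE_it hm (map_natCast τ m), Nat.cast_pow]
  refine congrArg _ (mul_right_cancel₀ h0 ?_)
  rw [← pow_succ, ← pow_succ, one_mul, show p - 2 + 1 + 1 = p by have := hp.out.two_le; omega]
  exact LatE_nat m

theorem LatE_tr [CharP M p] (x : M) : ∑ i ∈ Finset.range p, (x + i) ^ (p - 1) = -1 := by
  have h1 : ∀ m, ∑ i ∈ Finset.range p, (i : M) ^ m =
      ZMod.castHom (dvd_refl p) M (∑ c : ZMod p, c ^ m) := fun m => by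
    rw [map_sum]
    exact Finset.sum_bij' (fun i _ => (i : ZMod p)) (fun c _ => c.val) (fun _ _ => Finset.mem_univ _)
      (fun c _ => Finset.mem_range.2 c.val_lt)
      (fun i hi => ZMod.val_cast_of_lt (Finset.mem_range.1 hi))
      (fun c _ => ZMod.natCast_zmod_val c) fun i _ => by rw [map_pow, map_natCast]
  have h2 : ∑ c : ZMod p, c ^ (p - 1) = -1 := by
    rw [Finset.sum_congr rfl (g := fun c : ZMod p => 1 - if c = 0 then 1 else 0) fun c _ => by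
      rw [ZMod.pow_card_sub_one]
      by_cases h : c = 0 <;> simp [h]]
    simp
  simp only [add_comm x, add_pow]
  rw [Finset.sum_comm, Finset.sum_range_succ, Finset.sum_eq_zero fun m hm => by
    rw [← Finset.sum_mul, ← Finset.sum_mul, h1, FiniteField.sum_pow_lt_card_sub_one _ _
      (by rw [ZMod.card]; exact Finset.mem_range.1 hm), map_zero, zero_mul, zero_mul]]
  rw [← Finset.sum_mul, ← Finset.sum_mul, h1, h2]
  simp

theorem LatE_key {H : Subgroup (M ≃ₐ[K] M)} {x u : M}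
    (hu : ∀ τ ∈ H, τ x = x → τ u = u) {σ τ : M ≃ₐ[K] M} (hσ : σ ∈ H) (hτ : τ ∈ H)
    (h : σ x = τ x) : σ u = τ u := by
  have h1 := hu (τ⁻¹ * σ) (mul_mem (inv_mem hτ) hσ) (by
    rw [AlgEquiv.mul_apply, h, AlgEquiv.aut_inv, AlgEquiv.symm_apply_apply])
  rwa [AlgEquiv.mul_apply, AlgEquiv.aut_inv, AlgEquiv.symm_apply_eq] at h1

include hp in
variable (p) in
theorem LatE_avg [CharP M p] (hw : IsNonarchimedean w) (hi : ∀ (τ : M ≃ₐ[K] M) x, w (τ x) = w x)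
    (H : Subgroup (M ≃ₐ[K] M)) {x y : M} (hx : ∀ τ : M ≃ₐ[K] M, ∃ m : ℕ, τ x = x + m)
    {r : ℝ} (hx1 : w x ≤ r) (hxo : x ∈ Om K M) (hyo : y ∈ Om K M)
    (hy : ∀ τ ∈ H, τ x = x → τ y = y) {C : ℝ} (hC : 0 ≤ C) (h : ∀ τ ∈ H, w (y - τ y) ≤ C) :
    ∃ y0 ∈ Om K M, (∀ τ ∈ H, τ y0 = y0) ∧ w (y - y0) ≤ r ^ (p - 1) * C := by
  have hr : 0 ≤ r ^ (p - 1) * C := mul_nonneg (pow_nonneg ((w.nonneg x).trans hx1) _) hC
  rcases LatE_one p H hx with h1 | ⟨τ, hτ, h1⟩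
  · exact ⟨y, hyo, fun τ hτ => hy τ hτ (h1 τ hτ), by rwa [sub_self, map_zero]⟩
  have h2 : ∀ n : ℕ, (τ ^ n) x = x + n := fun n => by rw [LatE_it h1 (map_one τ), mul_one]
  obtain ⟨u, hu⟩ : ∃ u, u = -x ^ (p - 1) * y := ⟨_, rfl⟩
  have h3 : ∀ σ ∈ H, σ x = x → σ u = u := fun σ hσ e => by
    rw [hu, map_mul, map_neg, map_pow, e, hy σ hσ e]
  have h4 : ∀ σ ∈ H, σ x = x → σ (∑ i ∈ Finset.range p, (τ ^ i) u) =
      ∑ i ∈ Finset.range p, (τ ^ i) u := fun σ hσ e => by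
    rw [map_sum]
    exact Finset.sum_congr rfl fun i _ => LatE_key h3 (mul_mem hσ (pow_mem hτ i)) (pow_mem hτ i)
      (by rw [AlgEquiv.mul_apply, h2, map_add, e, map_natCast])
  have h5 : τ (∑ i ∈ Finset.range p, (τ ^ i) u) = ∑ i ∈ Finset.range p, (τ ^ i) u + 0 := by
    have e := (Finset.sum_range_succ' (fun i => (τ ^ i) u) p).symm.trans
      (Finset.sum_range_succ (fun i => (τ ^ i) u) p)
    rw [h3 (τ ^ p) (pow_mem hτ p) (by rw [h2, CharP.cast_eq_zero, add_zero]), pow_zero,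
      AlgEquiv.one_apply, add_left_inj] at e
    rw [map_sum, add_zero, ← e]
    exact Finset.sum_congr rfl fun i _ => by rw [pow_succ', AlgEquiv.mul_apply]
  refine ⟨∑ i ∈ Finset.range p, (τ ^ i) u, sum_mem fun i _ => om_act _
    (hu ▸ mul_mem (neg_mem (pow_mem hxo _)) hyo), fun σ hσ => ?_, ?_⟩
  · obtain ⟨m, hm⟩ := hx σ
    rw [LatE_key h4 hσ (pow_mem hτ m) (hm.trans (h2 m).symm), LatE_it h5 (map_zero τ), mul_zero,
      add_zero]
  have e : y - ∑ i ∈ Finset.range p, (τ ^ i) u =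
      ∑ i ∈ Finset.range p, -(τ ^ i) x ^ (p - 1) * (y - (τ ^ i) y) := by
    simp only [mul_sub, Finset.sum_sub_distrib, hu, map_mul, map_neg, map_pow, h2]
    rw [← Finset.sum_mul, Finset.sum_neg_distrib, LatE_tr, neg_neg, one_mul]
  rw [e]
  refine Finset.sum_induction _ (fun a => w a ≤ r ^ (p - 1) * C) (fun _ _ => LocA_add_le hw)
    (by rwa [map_zero]) fun i _ => ?_
  rw [map_mul, w.map_neg, map_pow, hi]
  exact mul_le_mul (pow_le_pow_left₀ (w.nonneg _) hx1 _) (h _ (pow_mem hτ i)) (w.nonneg _)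
    (pow_nonneg ((w.nonneg x).trans hx1) _)

theorem LatE_l [CharP M p] {A : K} {l : M} (hl : l ^ (p - 1) = algebraMap K M A) (h0 : l ≠ 0)
    (τ : M ≃ₐ[K] M) : ∃ m : ℕ, τ l = m * l := by
  refine wp_ker hl h0 ?_
  rw [Wp_pow, ← map_pow, hl, AlgEquiv.commutes, ← hl, mul_div_cancel_right₀ _ (pow_ne_zero _ h0),
    sub_self]

theorem LatE_z [CharP M p] {A : K} {l z : M} (hl : l ^ (p - 1) = algebraMap K M A) (h0 : l ≠ 0)
    {τ : M ≃ₐ[K] M} (h : τ (z ^ p / algebraMap K M A - z) = z ^ p / algebraMap K M A - z) :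
    ∃ m : ℕ, τ z - z = m * l := by
  refine wp_ker hl h0 ?_
  rw [map_sub, map_div₀, map_pow, AlgEquiv.commutes] at h
  rw [Wp_sub, h, sub_self]

theorem LatE_root [IsAlgClosed M] {A : M} (hA : A ≠ 0) (a : M) : ∃ z, z ^ p / A - z = a := by
  have h1 : (X ^ p - (C A * X + C (A * a)) : M[X]).degree = p := by
    rw [degree_sub_eq_left_of_degree_lt, degree_X_pow]
    rw [degree_X_pow]
    exact degree_linear_lt.trans_le (by exact_mod_cast hp.out.two_le)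
  obtain ⟨z, hz⟩ := IsAlgClosed.exists_root _ (h1.trans_ne (by exact_mod_cast hp.out.ne_zero))
  refine ⟨z, ?_⟩
  simp only [IsRoot.def, eval_sub, eval_add, eval_mul, eval_pow, eval_X, eval_C] at hz
  field_simp
  linear_combination hz

theorem LatE_core [CharP M p] (hw : IsNonarchimedean w) (I : Subgroup (M ≃ₐ[K] M))
    (hI : ∀ τ ∈ I, ∀ x, w x ≤ 1 → w (τ x - x) < 1) {A : K} {l x y z : M}
    (hA : w (algebraMap K M A) = 1) (hl : l ^ (p - 1) = algebraMap K M A)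
    (hx : ∀ τ : M ≃ₐ[K] M, ∃ m : ℕ, τ x = x + m) (hy : ∀ τ ∈ I, τ x = x → τ y = y)
    (hz : ∀ τ ∈ I, τ (z ^ p / algebraMap K M A - z) = z ^ p / algebraMap K M A - z)
    (h : w (z ^ p / algebraMap K M A - z - (y ^ p / algebraMap K M A - y)) ≤ 1) :
    (∀ τ ∈ I, τ l = l) ∧ ∃ μ : ℕ, ∀ τ ∈ I, τ z - z = μ * (τ x - x) * l := by
  have l1 : w l = 1 := by
    rw [← hl, map_pow] at hA
    exact (pow_eq_one_iff_of_nonneg (w.nonneg l) (Nat.sub_ne_zero_of_lt hp.out.one_lt)).1 hA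
  have l0 : l ≠ 0 := fun e => by simp [e] at l1
  have h1 : ∀ τ ∈ I, τ l = l := fun τ hτ => by
    obtain ⟨m, hm⟩ := LatE_l hl l0 τ
    have e : τ l - l = (m + (p - 1) : ℕ) * l := by
      rw [hm, Nat.cast_add, Nat.cast_sub hp.out.one_le, CharP.cast_eq_zero M p]
      push_cast
      ring
    exact sub_eq_zero.1 (e.trans (fp_small (p := p) hw l1 (e ▸ hI τ hτ l l1.le)))
  have h2 : ∀ τ ∈ I, τ x = x → τ z = z := fun τ hτ e => by
    obtain ⟨m, hm⟩ := LatE_z hl l0 (hz τ hτ)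
    have h3 := hI τ hτ _ (wp_int hw hA (Wp_sub (p := p) _ z y ▸ h))
    rw [map_sub τ, hy τ hτ e, sub_sub_sub_cancel_right, hm] at h3
    exact sub_eq_zero.1 (hm.trans (fp_small (p := p) hw l1 h3))
  refine ⟨h1, ?_⟩
  rcases LatE_one p I hx with h3 | ⟨σ, hσ, h3⟩
  · exact ⟨0, fun τ hτ => by rw [h2 τ hτ (h3 τ hτ), sub_self, Nat.cast_zero, zero_mul, zero_mul]⟩
  obtain ⟨μ, hμ⟩ := LatE_z hl l0 (hz σ hσ)
  refine ⟨μ, fun τ hτ => ?_⟩
  obtain ⟨n, hn⟩ := hx τ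
  rw [LatE_key h2 hτ (pow_mem hσ n) (by rw [hn, LatE_it h3 (map_one σ), mul_one]),
    LatE_it (sub_eq_iff_eq_add'.1 hμ) (by rw [map_mul, map_natCast, h1 σ hσ]), hn]
  ring

theorem LatE_G (W : ι → M) : ∃ H : Subgroup (M ≃ₐ[K] M), ∀ τ, τ ∈ H ↔ ∀ l, τ (W l) = W l :=
  ⟨⨅ l, MulAction.stabilizer _ (W l), fun _ => Subgroup.mem_iInf⟩

end abs

omit [Fintype k] hp [CharP k p] in
theorem LatE_alg (v : Pl k) (c : RatFunc k) :
    algebraMap (RatFunc k) (Lb v) c = algebraMap (Lv v) (Lb v) (algebraMap _ _ c) :=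
  IsScalarTower.algebraMap_apply _ _ _ c

omit [Fintype k] hp [CharP k p] in
theorem LatE_pk (v : Pl k) (A : k[X]) : pk (Lb v) A = algebraMap (Lv v) (Lb v) (pk _ A) :=
  LatE_alg v _

omit [Fintype k] hp [CharP k p] in
theorem LatE_w0 (Φ : ASF p k ι) {v : Pl k} (j : Kb k →ₐ[RatFunc k] Lb v) :
    j Φ.w0 ^ p - j Φ.w0 = algebraMap (Lv v) (Lb v) (algebraMap _ _ Φ.d) := by
  rw [← map_pow, ← map_sub, Φ.hw0, AlgHom.commutes, LatE_alg]

omit [Fintype k] hp [CharP k p] in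
theorem LatE_w (Φ : ASF p k ι) {v : Pl k} (j : Kb k →ₐ[RatFunc k] Lb v) (l : ι) :
    j (Φ.w l) ^ p - j (Φ.w l) = algebraMap (Lv v) (Lb v) (algebraMap _ _ (Φ.h l)) := by
  rw [← map_pow, ← map_sub, Φ.hw, AlgHom.commutes, LatE_alg]

omit [Fintype k] hp [CharP k p] in
theorem LatE_om {a : Kb k} (ha : a ∈ Om (RatFunc k) (Kb k)) (v : Pl k)
    (j : Kb k →ₐ[RatFunc k] Lb v) : j a ∈ Om (Lv v) (Lb v) :=
  om_map (algebraMap (RatFunc k) (Lv v)) (j : Kb k →+* Lb v)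
    (fun c => (j.commutes c).trans (LatE_alg v c)) ha

omit [Fintype k] hp [CharP k p] in
theorem LatE_unit {v : Pl k} (hv : v ≠ none) (hA : ¬ plp v ∣ A) : ‖pk (Lv v) A‖ = 1 :=
  (norm_alg v _).trans
    (le_antisymm (av_poly_le hv A) (not_lt.1 fun h => hA ((av_poly_lt hv A).1 h)))

omit [Fintype k] in
theorem LatE_split (hS : Stg A F b Φ) {v : Pl k} (hv : InS p A F b v)
    (j : Kb k →ₐ[RatFunc k] Lb v) (τ : Lb v ≃ₐ[Lv v] Lb v) (l : ι) :
    τ (j (Φ.w l)) = j (Φ.w l) := by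
  obtain ⟨s, -, hs⟩ := hS.split l v hv
  obtain ⟨m, hm⟩ := Wp_fix (p := p) (x := j (Φ.w l) - algebraMap (Lv v) (Lb v) s) (by
    have h1 := LatE_w Φ j l
    rw [← hs, map_sub, map_pow] at h1
    rw [sub_pow_char]
    linear_combination h1)
  rw [sub_eq_iff_eq_add.1 hm, map_add, map_natCast, AlgEquiv.commutes]

theorem k2_loc {a : Kb k} (ha : Φ.K2 a) (v : Pl k) (j : Kb k →ₐ[RatFunc k] Lb v) :
    Φ.L2 v j (j a) := by
  obtain ⟨ρ, hρ⟩ := exists_rst v j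
  refine ⟨LatE_om ha.1 v j, fun τ hτ => ?_⟩
  rw [← hρ, ha.2 (ρ τ) fun l => j.injective ((hρ τ _).trans (hτ l))]

theorem k1_loc {a : Kb k} (ha : Φ.K1 a) (v : Pl k) (j : Kb k →ₐ[RatFunc k] Lb v) :
    Φ.L1 v j (j a) := by
  obtain ⟨ρ, hρ⟩ := exists_rst v j
  refine ⟨LatE_om ha.1 v j, fun τ h0 hτ => ?_⟩
  rw [← hρ, ha.2 (ρ τ) (j.injective ((hρ τ _).trans h0))
    fun l => j.injective ((hρ τ _).trans (hτ l))]

theorem l2_split (hS : Stg A F b Φ) {v : Pl k} (hv : InS p A F b v)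
    {j : Kb k →ₐ[RatFunc k] Lb v} {y : Lb v} (hy : Φ.L2 v j y) :
    ∃ y0 : Lv v, algebraMap _ _ y0 = y :=
  om_fix hy.1 fun τ => hy.2 τ (LatE_split hS hv j τ)

theorem desc_bd (hA : A ≠ 0) {v : Pl k} {r : ℝ} (hr : 1 ≤ r) (hd : av v Φ.d ≤ r)
    {j : Kb k →ₐ[RatFunc k] Lb v}
    {a : Kb k} (ha : Φ.K2 a) {y : Lb v} (hy : Φ.L1 v j y) {C : ℝ} (hC : 1 ≤ C)
    (hAC : av v (pk _ A) ≤ C) (h : nm v (j a - (y ^ p / pk _ A - y)) ≤ C) :
    ∃ y0, Φ.L2 v j y0 ∧ nm v (y - y0) ≤ r ^ (p - 1) * C := by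
  obtain ⟨H, hH⟩ := LatE_G (K := Lv v) fun l => j (Φ.w l)
  have h0 : j Φ.w0 ^ p / 1 - j Φ.w0 = _ := (by rw [div_one] : _ = _).trans (LatE_w0 Φ j)
  have hA0 : pk (Lb v) A ≠ 0 :=
    (_root_.map_ne_zero (algebraMap (RatFunc k) (Lb v))).2 (RatFunc.algebraMap_ne_zero hA)
  obtain ⟨y0, h1, h2, h3⟩ := LatE_avg p (nm_na v) (nm_iso v) H (LatE_mv (LatE_w0 Φ j))
    (wp_le (p := p) (nm_na v) one_ne_zero hr ((map_one _).trans_le hr)
      (by rw [h0, nm_alg, norm_alg]; exact hd))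
    (om_wp (one_mem _) one_ne_zero (om_alg _) h0) hy.1
    (fun τ hτ e => hy.2 τ e ((hH τ).1 hτ)) (zero_le_one.trans hC) fun τ hτ => by
      refine wp_le (p := p) (nm_na v) hA0 hC ((nm_algK v _).trans_le hAC) ?_
      have e : (y - τ y) ^ p / pk _ A - (y - τ y) =
          τ (j a - (y ^ p / pk _ A - y)) + -(j a - (y ^ p / pk _ A - y)) := by
        rw [Wp_sub, map_sub, map_sub, map_div₀, map_pow, (k2_loc ha v j).2 τ ((hH τ).1 hτ), LatE_pk,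
          AlgEquiv.commutes]
        ring
      rw [e]
      exact LocA_add_le (nm_na v) ((nm_iso v τ _).trans_le h) (((nm v).map_neg _).trans_le h)
  exact ⟨y0, ⟨h1, fun τ hτ => h2 τ ((hH τ).2 hτ)⟩, h3⟩

theorem desc_unr (hA : A ≠ 0) {v : Pl k} (hd : av v Φ.d ≤ 1) {j : Kb k →ₐ[RatFunc k] Lb v}
    {a : Kb k} (ha : Φ.K2 a) {y : Lb v} (hy : Φ.L1 v j y) {C : ℝ} (hC : 1 ≤ C)
    (hAC : av v (pk _ A) ≤ C) (h : nm v (j a - (y ^ p / pk _ A - y)) ≤ C) :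
    ∃ y0, Φ.L2 v j y0 ∧ nm v (y - y0) ≤ C := by
  simpa only [one_pow, one_mul] using desc_bd hA le_rfl hd ha hy hC hAC h

theorem desc_anom (hS : Stg A F b Φ) (hAF : A ∣ F) {v : Pl k} (hv : v ≠ none) (hb : plp v ∣ b)
    (han : Anom p A (plp v)) {j : Kb k →ₐ[RatFunc k] Lb v} {a : Kb k} (ha : Φ.K2 a) {y : Lb v}
    (hy : Φ.L1 v j y) (h : nm v (j a - (y ^ p / pk _ A - y)) ≤ 1) :
    ∃ y t : Lv v, t ^ p / pk _ A - t = 0 ∧
      nm v (j a - algebraMap _ _ (y ^ p / pk _ A - y + t * algebraMap _ _ Φ.d)) ≤ 1 := by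
  have hin : InS p A F b v := Or.inr ⟨hb, han⟩
  have hA : ¬ plp v ∣ A := fun e => by
    obtain ⟨P, rfl⟩ := Option.ne_none_iff_exists'.1 hv
    exact P.2.2.not_isUnit (hS.cop.isUnit_of_dvd' hb (e.trans hAF))
  have h1 := LatE_unit hv hA
  have h0 : pk (Lv v) A ≠ 0 := fun e => by simp [e] at h1
  obtain ⟨t, ht⟩ := (anom_iff hv hA).1 han
  obtain ⟨a0, ha0⟩ := l2_split hS hin (k2_loc ha v j)
  obtain ⟨z, hz⟩ := LatE_root (p := p) ((_root_.map_ne_zero (algebraMap (Lv v) (Lb v))).2 h0) (j a)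
  obtain ⟨-, μ, hμ⟩ := LatE_core (p := p) (nm_na v) (I0 p v) (fun τ hτ x => i0_small hτ)
    (l := algebraMap _ _ t) (z := z) ((nm_alg v _).trans h1) (by rw [← map_pow, ht])
    (LatE_mv (LatE_w0 Φ j)) (fun τ _ e => hy.2 τ e (LatE_split hS hin j τ))
    (fun τ _ => by rw [hz, ← ha0, AlgEquiv.commutes]) (by rwa [hz, ← LatE_pk])
  have h2 : (μ * t) ^ p / pk (Lv v) A = μ * t := by
    rw [mul_pow, LatE_nat, Wp_pow t, ht, ← mul_assoc, mul_div_cancel_right₀ _ h0]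
  obtain ⟨y0, hy0⟩ := wp_unr (a := a0 - (μ : Lv v) * t * algebraMap _ _ Φ.d) h1
    (z := z - algebraMap _ _ ((μ : Lv v) * t) * j Φ.w0) (fun τ hτ => by
      rw [map_sub, map_mul, AlgEquiv.commutes, map_mul, map_natCast]
      linear_combination hμ τ hτ) (by
      rw [Wp_sub, hz, mul_pow, mul_div_right_comm, ← map_pow, ← map_div₀, h2, ← mul_sub,
        LatE_w0 Φ j, map_sub, ha0, map_mul _ ((μ : Lv v) * t)])
  refine ⟨y0, μ * t, sub_eq_zero.2 h2, ?_⟩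
  rw [← ha0, ← map_sub, nm_alg]
  exact (congrArg _ (by ring)).trans_le hy0

theorem desc_na {v : Pl k} (hv : v ≠ none) (hA : ¬ plp v ∣ A) (han : ¬ Anom p A (plp v))
    {j : Kb k →ₐ[RatFunc k] Lb v} {a : Kb k} (ha : Φ.K2 a) {y : Lb v} (hy : Φ.L1 v j y)
    (h : nm v (j a - (y ^ p / pk _ A - y)) ≤ 1) : ∃ y, Φ.L2 v j y ∧ j a = y ^ p / pk _ A - y := by
  obtain ⟨H, hH⟩ := LatE_G (K := Lv v) fun l => j (Φ.w l)
  have h1 := LatE_unit hv hA
  have h0 : algebraMap (Lv v) (Lb v) (pk _ A) ≠ 0 := (_root_.map_ne_zero _).2 fun e => by simp [e] at h1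
  obtain ⟨l, hl⟩ := IsAlgClosed.exists_pow_nat_eq (algebraMap (Lv v) (Lb v) (pk _ A))
    (Nat.sub_pos_of_lt hp.out.one_lt)
  have l0 : l ≠ 0 := fun e => h0 (by rw [← hl, e, zero_pow (Nat.sub_ne_zero_of_lt hp.out.one_lt)])
  have l1 : ∀ m : ℕ, (m * l) ^ p / algebraMap (Lv v) (Lb v) (pk _ A) - m * l = 0 := fun m => by
    rw [mul_pow, LatE_nat, Wp_pow l, hl, ← mul_assoc, mul_div_cancel_right₀ _ h0, sub_self]
  obtain ⟨z, hz⟩ := LatE_root (p := p) h0 (j a)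
  have hz' : ∀ τ ∈ H, τ (z ^ p / algebraMap (Lv v) (Lb v) (pk _ A) - z) =
      z ^ p / algebraMap (Lv v) (Lb v) (pk _ A) - z := fun τ hτ => by
    rw [hz, (k2_loc ha v j).2 τ ((hH τ).1 hτ)]
  obtain ⟨h2, μ, hμ⟩ := LatE_core (p := p) (nm_na v) (I0 p v ⊓ H) (fun τ hτ x => i0_small hτ.1)
    (z := z) ((nm_alg v _).trans h1) hl (LatE_mv (LatE_w0 Φ j))
    (fun τ hτ e => hy.2 τ e ((hH τ).1 hτ.2)) (fun τ hτ => hz' τ hτ.2) (by rwa [hz, ← LatE_pk])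
  obtain ⟨γ, hγ, hγl⟩ : ∃ γ ∈ H, γ l ≠ l := by
    obtain ⟨γ, hγ⟩ : ∃ γ : Lb v ≃ₐ[Lv v] Lb v, γ l ≠ l := not_forall.1 fun e => by
      obtain ⟨t, ht⟩ := om_fix (om_wp (om_alg _) h0 (zero_mem _) (by simpa using l1 1)) e
      exact han ((anom_iff hv hA).2 ⟨t, (algebraMap (Lv v) (Lb v)).injective
        (by rw [map_pow, ht, hl])⟩)
    obtain ⟨m, hm⟩ := LatE_l hl l0 γ
    have h3 : ∀ n : ℕ, (γ ^ n) l = m ^ n * l := fun n => by
      induction n with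
      | zero => simp
      | succ n ih => rw [pow_succ', AlgEquiv.mul_apply, ih, map_mul, map_pow, map_natCast, hm,
          pow_succ, mul_assoc]
    refine ⟨γ ^ p, (hH _).2 fun i => ?_, by rwa [h3, LatE_nat, ← hm]⟩
    obtain ⟨n, hn⟩ := LatE_mv (LatE_w Φ j i) γ
    rw [LatE_it hn (map_natCast γ n), CharP.cast_eq_zero, zero_mul, add_zero]
  have h4 : ∀ τ ∈ I0 p v ⊓ H, τ z = z := fun τ hτ => by
    have h5 : γ * τ * γ⁻¹ ∈ I0 p v ⊓ H :=
      ⟨(i0_normal v).conj_mem τ hτ.1 γ, H.mul_mem (H.mul_mem hγ hτ.2) (H.inv_mem hγ)⟩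
    have h6 : ∀ x, (γ * τ * γ⁻¹) (γ x) = γ (τ x) := fun x => by
      rw [← AlgEquiv.mul_apply, inv_mul_cancel_right, AlgEquiv.mul_apply]
    have h7 := hμ _ h5
    have h8 := h2 _ h5
    generalize γ * τ * γ⁻¹ = σ at h6 h7 h8
    obtain ⟨c, hc⟩ := LatE_mv (LatE_w0 Φ j) γ
    obtain ⟨n, hn⟩ := LatE_mv (LatE_w0 Φ j) τ
    obtain ⟨m, hm⟩ := LatE_z hl l0 (hz' γ hγ)
    have h9 := hμ τ hτ
    rw [hn, add_sub_cancel_left] at h9
    have e1 := h6 (j Φ.w0)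
    rw [hn, map_add, hc, map_add, map_natCast, map_natCast] at e1
    have e2 := h6 z
    rw [sub_eq_iff_eq_add'.1 h9, map_add, sub_eq_iff_eq_add'.1 hm, map_add, map_mul, map_mul,
      map_mul, map_natCast, map_natCast, map_natCast, h8] at e2
    have e3 : (μ : Lb v) * n = 0 := mul_right_cancel₀ (sub_ne_zero.2 hγl)
      (by linear_combination h7 - e2 + μ * l * e1)
    rw [sub_eq_iff_eq_add'.1 h9, e3, zero_mul, add_zero]
  obtain ⟨m, hm⟩ := sah p H (fun σ _ => LatE_l hl l0 σ) (fun σ hσ => LatE_z hl l0 (hz' σ hσ))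
    (fun σ hσ τ hτ => by
      have h5 := h4 _ ⟨i0_comm σ τ, H.mul_mem (H.inv_mem (H.mul_mem hσ hτ)) (H.mul_mem hτ hσ)⟩
      rw [AlgEquiv.mul_apply, AlgEquiv.aut_inv, AlgEquiv.symm_apply_eq] at h5
      exact h5.symm) ⟨γ, hγ, hγl⟩
  have e : (z - m * l) ^ p / algebraMap (Lv v) (Lb v) (pk _ A) - (z - m * l) = j a := by
    rw [Wp_sub, hz, l1, sub_zero]
  exact ⟨z - m * l, ⟨om_wp (om_alg _) h0 (k2_loc ha v j).1 e, fun τ hτ => hm τ ((hH τ).2 hτ)⟩,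
    by rw [LatE_pk, e]⟩

end Pool.Agent.ASel
end

-- merged part: Pool.Agent.Work.MP_60d5ce_nt.AG.NDer
section
/-!
# Homogeneous bounds for the derivation on (wildly ramified) local fields

PLAN.  `i0_der3`: at a finite place `i0_der2`.  At `∞` repeat the proof of `LocI_der` with the uniformiser
`π = 1 / t` (`PB.change`, `der_change`; `der π = -1 / t ^ 2` has norm `1 / 4 ≤ 1`, `|π| = 1 / 2`, `LocI_max`).
`ram_der`: if all `τ ∈ I0` fix `W` use `i0_der3`.  Otherwise some `τ ∈ I0` has `τ W = W + 1` (every `τ` moves `W` by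
an element of `F_p`, take a power; see `LatE_mv`, `LatE_one`, `LatE_avg` in `AS/LatE.lean`, which may be imported).
The traces `s j = ∑_{i<p} τ ^ i (W ^ j x)` are fixed by `I0` and have norm `≤ r ^ j |x|`, `r = 2 ^ M ≥ |W|` (`wp_le`
with `A = 1`).  As `(τ ^ i W - W) ^ (p-1) = i ^ (p-1)` is `1` for `0 < i < p` and `0` for `i = 0`,
`x = s 0 - ∑_j binom (p-1) j * (-W) ^ (p-1-j) * s j`.  Finally `der W = -der d` (`der_frob`) has norm `≤ 2 r`
(`i0_der3` for `d`), so each term has a derivative of norm `≤ 2 r ^ (p-1) |x|` (`der_mul`, `der_pow`).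
-/

namespace Pool.Agent.ASel

open Polynomial Pool.Agent.Smith

variable {k : Type} [Field k] {p : ℕ} [Fintype k] [hp : Fact p.Prime] [CharP k p]

theorem NDer_abs {K L : Type} [Field K] [Field L] [Algebra K L] [CharP L p] {w : AbsoluteValue L ℝ}
    (hw : IsNonarchimedean w) (hi : ∀ (τ : L ≃ₐ[K] L) x, w (τ x) = w x) (H : Subgroup (L ≃ₐ[K] L))
    {t W : L} (B : PB p (Om K L) t)
    (hD : ∀ y ∈ Om K L, (∀ τ ∈ H, τ y = y) → w (der p (Om K L) t y) ≤ 2 * w y)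
    (hx : ∀ τ : L ≃ₐ[K] L, ∃ m : ℕ, τ W = W + m) (hW : W ∈ Om K L) {r : ℝ} (hr : 1 ≤ r)
    (h1 : w W ≤ r) (h2 : w (der p (Om K L) t W) ≤ 2 * r) {x : L} (hxo : x ∈ Om K L)
    (h : ∀ τ ∈ H, τ W = W → τ x = x) : w (der p (Om K L) t x) ≤ 2 * r ^ p * w x := by
  have hp1 : ∀ a, 1 ≤ r ^ a := fun a => one_le_pow₀ hr
  have mono : ∀ {a b : ℕ} (y : L), a ≤ b → 2 * r ^ a * w y ≤ 2 * r ^ b * w y := fun y l => by
    have := w.nonneg y
    gcongr
  rcases LatE_one p H hx with h0 | ⟨τ, hτ, h0⟩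
  · exact (hD x hxo fun τ hτ => h τ hτ (h0 τ hτ)).trans (by simpa using mono x p.zero_le)
  have h3 : ∀ n : ℕ, (τ ^ n) W = W + n := fun n => by rw [LatE_it h0 (map_one τ), mul_one]
  obtain ⟨T, hT⟩ : ∃ T : ℕ → L → L, ∀ a u, T a u = ∑ i ∈ Finset.range p, (i : L) ^ a * (τ ^ i) u :=
    ⟨_, fun _ _ => rfl⟩
  have To : ∀ a, ∀ u ∈ Om K L, T a u ∈ Om K L := fun a u hu => hT a u ▸ sum_mem fun i _ =>
    mul_mem (pow_mem (natCast_mem _ _) _) (om_act _ hu)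
  have Tn : ∀ a u, w (T a u) ≤ w u := fun a u => by
    rw [hT]
    refine Finset.sum_induction _ (fun y => w y ≤ w u) (fun _ _ => LocA_add_le hw)
      (by rw [map_zero]; exact w.nonneg u) fun i _ => ?_
    rw [map_mul, map_pow, hi]
    exact mul_le_of_le_one_left (w.nonneg u) (pow_le_one₀ (w.nonneg _) hw.apply_natCast_le_one)
  have key : ∀ a, ∀ u ∈ Om K L, (∀ σ ∈ H, σ W = W → σ u = u) →
      w (der p (Om K L) t (T a u)) ≤ 2 * r ^ a * w u := fun a => by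
    induction a with
    | zero =>
      intro u hu hf
      have e0 : T 0 u = ∑ i ∈ Finset.range p, (τ ^ i) u := by simp only [hT, pow_zero, one_mul]
      have h4 : ∀ σ ∈ H, σ W = W → σ (T 0 u) = T 0 u := fun σ hσ e => by
        rw [e0, map_sum]
        exact Finset.sum_congr rfl fun i _ => LatE_key hf (mul_mem hσ (pow_mem hτ i)) (pow_mem hτ i)
          (by rw [AlgEquiv.mul_apply, h3, map_add, e, map_natCast])
      have h5 : τ (T 0 u) = T 0 u + 0 := by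
        have e := (Finset.sum_range_succ' (fun i => (τ ^ i) u) p).symm.trans
          (Finset.sum_range_succ (fun i => (τ ^ i) u) p)
        rw [hf (τ ^ p) (pow_mem hτ p) (by rw [h3, CharP.cast_eq_zero, add_zero]), pow_zero,
          AlgEquiv.one_apply, add_left_inj] at e
        rw [e0, map_sum, add_zero, ← e]
        exact Finset.sum_congr rfl fun i _ => by rw [pow_succ', AlgEquiv.mul_apply]
      refine (hD _ (To 0 u hu) fun σ hσ => ?_).trans (by linarith [Tn 0 u])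
      obtain ⟨m, hm⟩ := hx σ
      rw [LatE_key h4 hσ (pow_mem hτ m) (hm.trans (h3 m).symm), LatE_it h5 (map_zero τ), mul_zero,
        add_zero]
    | succ a ih =>
      intro u hu hf
      have e : T (a + 1) u = T a (W * u) + -(W * T a u) := by
        simp only [hT, map_mul, h3, Finset.mul_sum, ← Finset.sum_neg_distrib, ← Finset.sum_add_distrib]
        exact Finset.sum_congr rfl fun i _ => by ring
      have u0 := w.nonneg u
      have a0 := hp1 a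
      rw [e, map_add, map_neg, B.der_mul hW (To a u hu), pow_succ]
      refine LocA_add_le hw ((ih _ (mul_mem hW hu) fun σ hσ e => by
        rw [map_mul, e, hf σ hσ e]).trans ?_) ((w.map_neg _).trans_le (LocA_add_le hw ?_ ?_))
      · rw [map_mul, ← mul_assoc, ← mul_assoc]
        gcongr
      · rw [map_mul]
        exact (mul_le_mul h1 (ih u hu hf) (w.nonneg _) (by linarith)).trans_eq (by ring)
      · rw [map_mul]
        refine (mul_le_mul (Tn a u) h2 (w.nonneg _) u0).trans ?_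
        nlinarith [mul_nonneg (mul_nonneg (sub_nonneg.2 a0) (zero_le_one.trans hr)) u0]
  have e : x = T 0 x + -T (p - 1) x := by
    have l : p - 1 ≠ 0 := Nat.sub_ne_zero_of_lt hp.out.one_lt
    rw [hT, hT, ← sub_eq_add_neg, ← Finset.sum_sub_distrib,
      Finset.sum_eq_single_of_mem 0 (Finset.mem_range.2 hp.out.pos) fun i hi i0 => ?_]
    · simp [l]
    have h4 : (i : L) ≠ 0 := fun e =>
      i0 (Nat.eq_zero_of_dvd_of_lt ((CharP.cast_eq_zero_iff L p i).1 e) (Finset.mem_range.1 hi))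
    rw [mul_left_cancel₀ h4 ((Wp_pow (p := p) (i : L)).symm.trans
      ((LatE_nat i).trans (mul_one _).symm)), pow_zero, sub_self]
  refine (congrArg (fun y => w (der p (Om K L) t y)) e).trans_le ?_
  simp only [map_add, map_neg]
  exact LocA_add_le hw ((key 0 x hxo h).trans (mono x p.zero_le))
    ((w.map_neg _).trans_le ((key _ x hxo h).trans (mono x (p.sub_le 1))))

theorem i0_der3 (v : Pl k) {x : Lb v} (hx : x ∈ Om (Lv v) (Lb v)) (h : ∀ τ ∈ I0 p v, τ x = x) :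
    nm v (der p (Om (Lv v) (Lb v)) (tv k (Lb v)) x) ≤ 2 * nm v x := by
  by_cases hv : v ≠ none
  · exact i0_der2 hv hx h
  obtain rfl := not_not.1 hv
  have B := (sc_Lb (p := p) (none : Pl k)).1
  have nt : nm (none : Pl k) (tv k _) = 2 := (nm_algK _ _).trans (av_good none).1
  have d1 := B.der_div (one_mem _) B.1
  rw [B.der_one, B.der_t, mul_zero, mul_one, zero_sub] at d1
  have n1 := congrArg (nm none) d1
  rw [map_div₀ (nm none), AbsoluteValue.map_neg, map_one, map_pow, nt] at n1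
  have n0 := (nm none).ne_zero_iff.1 (n1.trans_ne (by norm_num))
  have mP := div_mem (one_mem _) B.1
  have nπ : nm (none : Pl k) (1 / tv k _) = 2⁻¹ := by rw [map_div₀, map_one, nt, one_div]
  have e : ∀ τ : Lb (none : Pl k) ≃ₐ[Lv none] Lb none, τ (1 / tv k _) = 1 / tv k _ := fun τ => by
    rw [map_div₀, map_one, tv, LatE_alg, AlgEquiv.commutes]
  generalize 1 / tv k (Lb (none : Pl k)) = π at n1 n0 mP nπ e
  have B' := B.change mP n0
  rw [B.der_change mP n0 hx, map_mul, n1]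
  refine (mul_le_of_le_one_right ((nm none).nonneg _) (by norm_num)).trans ?_
  obtain ⟨c, hc, rfl⟩ := B'.2.2 x hx
  have hd : ∀ i < p, c i ≠ 0 → ∃ n : ℤ, nm none (c i) = 2 ^ n := fun i hi =>
    i0_disc (hc i) fun τ hτ => sub_eq_zero.1 (B'.uniq (c := fun i => τ (c i) - c i)
      (fun i => sub_mem (om_act τ (hc i)) (hc i)) (by
        have := h τ hτ
        simp only [map_sum, map_mul, map_pow, e] at this
        simp only [sub_pow_char, sub_mul, Finset.sum_sub_distrib]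
        exact sub_eq_zero.2 this) i hi)
  rw [(B'.PB_spec hc).1]
  refine Finset.sum_induction _ (fun y => nm none y ≤ _) (fun _ _ => LocA_add_le (nm_na none))
    (by rw [map_zero]; positivity) fun i hi => ?_
  obtain _ | i := i
  · simp
  have m := LocI_max (nm_na none) nπ hd _ (Finset.mem_range.1 hi)
  rw [pow_succ, ← mul_assoc, map_mul, nπ] at m
  rw [mul_assoc, map_mul, Nat.add_sub_cancel]
  refine (mul_le_of_le_one_left ((nm none).nonneg _) (nm_na none).apply_natCast_le_one).trans ?_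
  linarith

theorem ram_der (v : Pl k) {W : Lb v} {d : RatFunc k} (hW : W ^ p - W = algebraMap _ _ d) {M : ℕ}
    (hd : av v d ≤ 2 ^ M) {x : Lb v} (hx : x ∈ Om (Lv v) (Lb v))
    (h : ∀ τ ∈ I0 p v, τ W = W → τ x = x) :
    nm v (der p (Om (Lv v) (Lb v)) (tv k (Lb v)) x) ≤ 2 ^ (p * M + 1) * nm v x := by
  have B := (sc_Lb (p := p) v).1
  have h0 : W ^ p / 1 - W = _ := (by rw [div_one] : _ = _).trans hW
  have hd' := (nm_algK v d).trans_le hd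
  have mo : algebraMap _ (Lb v) d ∈ Om (Lv v) (Lb v) := om_alg (algebraMap _ (Lv v) d)
  have Wo := om_wp (one_mem _) one_ne_zero mo h0
  have r1 : (1 : ℝ) ≤ 2 ^ M := one_le_pow₀ one_le_two
  have h2 := i0_der3 (p := p) v mo fun τ _ => by rw [LatE_alg, AlgEquiv.commutes]
  rw [← hW, map_sub, B.der_frob Wo, zero_sub, AbsoluteValue.map_neg, hW] at h2
  refine (NDer_abs (nm_na v) (nm_iso v) (I0 p v) B (fun y => i0_der3 v)
    (LatE_mv (hW.trans (LatE_alg v d))) Wo r1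
    (wp_le (p := p) (nm_na v) one_ne_zero r1 ((map_one _).trans_le r1) (h0 ▸ hd'))
    (h2.trans (by linarith)) hx h).trans_eq (by ring)

end Pool.Agent.ASel
end

-- merged part: Pool.Agent.Work.MP_60d5ce_nt.AG.NTi
section
/-!
# Tightness at a potentially supersingular place

PLAN.  `bk_le2` (compare `Ord.bk_le`, `EllL_form`): `(X, Y) = (x, y) ^ p ^ (k+1)` lies on the curve with
coefficients `a', b'` killed by `der`, of size `r = ρ ^ p ^ (k+1)`, `|4 a' ^ 3 + 27 b' ^ 2| = r ^ 12`.  If `|X| > r ^ 2`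
then `|Y| ^ 2 = |X| ^ 3` and `|dX / 2 Y| ≤ c |X| / |Y| ≤ c / r`.  If `|X| ≤ r ^ 2` then `|Y| = r ^ 3`, or
`|3 X ^ 2 + a'| = r ^ 4` (`EllB_disc`) and `dX / 2 Y = dY / (3 X ^ 2 + a')`.
`kap_tight2`: as `kap_tight` (`SelL_le` replaced by `bk_le2` with the field of the separable elements fixed by
`I0 ⊓ stabilizer W`, `ram_der`), `ρ` real with `ρ ^ 12 = |D|` (`|a6| ≤ ρ ^ 6` as `27 a6 ^ 2 = D - 4 a4 ^ 3`),
`p ^ (n+2) = 1 + (p-1) * uk p (n+2)`, `|A| / ρ ^ (p-1) < 1` and `uk p (n+2) ≥ n + 2` tends to infinity.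
-/

namespace Pool.Agent.ASel

open Polynomial Pool.Agent.Smith Pool.Agent.ShaAsc
open scoped Classical

section gen

open WeierstrassCurve WeierstrassCurve.Affine Pool.Agent.Quad

variable {p : ℕ} [hp : Fact p.Prime] {M : Type} [Field M] [CharP M p] [IsAlgClosed M]
  {W : Affine M} {A : M}

omit hp [CharP M p] [IsAlgClosed M] in
theorem NTi_form {w : AbsoluteValue M ℝ} {r c : ℝ} (h : SW W) (hs : Sz W w r)
    (hD : w (4 * W.a₄ ^ 3 + 27 * W.a₆ ^ 2) = r ^ 12) (hc : 0 ≤ c) {x y dx dy : M}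
    (hn : W.Nonsingular x y) (hx : w dx ≤ c * w x) (hy : w dy ≤ c * w y)
    (he : 2 * y * dy = (3 * x ^ 2 + W.a₄) * dx) : w (dx / (2 * y)) * r ≤ c := by
  by_cases h0 : y = 0
  · rw [h0, mul_zero, div_zero, w.map_zero, zero_mul]
    exact hc
  have hy0 := w.pos h0
  have hr := hs.pos
  have h2 : w (2 * y) = w y := by rw [w.map_mul, hs.two, one_mul]
  rw [map_div₀, h2, div_mul_eq_mul_div, div_le_iff₀ hy0]
  have key : w x * r ≤ w y → w dx * r ≤ c * w y := fun h1 =>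
    (mul_le_mul_of_nonneg_right hx hr.le).trans
      (by rw [mul_assoc]; exact mul_le_mul_of_nonneg_left h1 hc)
  rcases le_or_gt (w x) (r ^ 2) with h1 | h1
  · rcases (h.w_y_le hs hn h1).eq_or_lt with h3 | h3
    · refine key ?_
      rw [h3, pow_succ r 2]
      exact mul_le_mul_of_nonneg_right h1 hr.le
    have h4 : r ^ 4 ≤ w (3 * x ^ 2 + W.a₄) := not_lt.1 fun hc => EllB_disc h hs hn h1
      (by rw [hD, h2, pow_add r 3 9]; exact mul_lt_mul_of_pos_right h3 (pow_pos hr 9))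
      (by rw [hD, pow_add r 4 8]; exact mul_lt_mul_of_pos_right hc (pow_pos hr 8))
    have h5 := congrArg w he
    rw [w.map_mul, w.map_mul (3 * x ^ 2 + W.a₄), h2] at h5
    have h6 := mul_le_mul_of_nonneg_right h4 (w.nonneg dx)
    have h7 := mul_le_mul h3.le hy (w.nonneg dy) (pow_pos hr 3).le
    refine le_of_mul_le_mul_left ?_ (pow_pos hr 3)
    linarith
  · refine key (le_of_pow_le_pow_left₀ two_ne_zero hy0.le ?_)
    rw [h.w_y_sq hs hn h1, mul_pow, pow_succ (w x) 2]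
    exact mul_le_mul_of_nonneg_left h1.le (sq_nonneg _)

theorem Ord.bk_le2 (h : Ord p W A) {S : Subfield M} {t : M} (hS : SC p S t) (h4 : W.a₄ ∈ S)
    (h6 : W.a₆ ∈ S) {w : AbsoluteValue M ℝ} {ρ c : ℝ} (hs : Sz W w ρ)
    (hD : w (4 * W.a₄ ^ 3 + 27 * W.a₆ ^ 2) = ρ ^ 12) (hc : 0 ≤ c) (F : Subfield M) (hF : F ≤ S)
    (hd : ∀ x ∈ F, w (der p S t x) ≤ c * w x) {n : ℕ} {Q : W.Point}
    (hx : xc Q ^ p ^ (n + 1) ∈ F) (hy : yc Q ^ p ^ (n + 1) ∈ F) :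
    w (bk p S t A (n + 1) Q) * ρ ^ p ^ (n + 1) ≤ c * w A ^ uk p (n + 1) := by
  rw [bk, mul_div_assoc, w.map_mul, w.map_pow, mul_assoc, mul_comm c]
  refine mul_le_mul_of_nonneg_left ?_ (pow_nonneg (w.nonneg _) _)
  rcases Q with _ | ⟨x, y, hn⟩
  · change w (der p S t (0 ^ _) / _) * _ ≤ c
    rw [zero_pow (pow_ne_zero _ hp.out.ne_zero), map_zero, zero_div, w.map_zero, zero_mul]
    exact hc
  change x ^ _ ∈ F at hx
  change y ^ _ ∈ F at hy
  change w (der p S t (x ^ _) / (2 * y ^ _)) * _ ≤ c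
  have hk : ∀ a ∈ S, der p S t (a ^ p ^ (n + 1)) = 0 := fun a ha => by
    rw [pow_succ, pow_mul]
    exact hS.1.der_frob (S.pow_mem ha _)
  have hφ : ∀ a : M, iterateFrobenius M p (n + 1) a = a ^ p ^ (n + 1) := fun a => rfl
  have e1 := congrArg (iterateFrobenius M p (n + 1)) (h.sw.eqn hn)
  have e2 : w (iterateFrobenius M p (n + 1) (4 * W.a₄ ^ 3 + 27 * W.a₆ ^ 2)) =
      (ρ ^ p ^ (n + 1)) ^ 12 := by
    rw [hφ, w.map_pow, hD, pow_right_comm]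
  simp only [map_add, map_mul, map_pow, map_ofNat] at e1 e2
  simp only [hφ] at e1 e2
  have d4 := hk _ h4
  have d6 := hk _ h6
  have m4 := S.pow_mem h4 (p ^ (n + 1))
  have w4 : w (W.a₄ ^ p ^ (n + 1)) ≤ (ρ ^ p ^ (n + 1)) ^ 4 := by
    rw [w.map_pow, pow_right_comm]
    exact pow_le_pow_left₀ (w.nonneg _) hs.a4 _
  have w6 : w (W.a₆ ^ p ^ (n + 1)) ≤ (ρ ^ p ^ (n + 1)) ^ 6 := by
    rw [w.map_pow, pow_right_comm]
    exact pow_le_pow_left₀ (w.nonneg _) hs.a6 _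
  have hr := pow_pos hs.pos (p ^ (n + 1))
  generalize ρ ^ p ^ (n + 1) = r at *
  generalize W.a₄ ^ p ^ (n + 1) = a at *
  generalize W.a₆ ^ p ^ (n + 1) = b at *
  generalize x ^ p ^ (n + 1) = X at *
  generalize y ^ p ^ (n + 1) = Y at *
  have hsw : SW (⟨0, 0, 0, a, b⟩ : Affine M) :=
    ⟨rfl, rfl, rfl, fun hc => by
      rw [show 4 * a ^ 3 + 27 * b ^ 2 = 0 from hc, w.map_zero] at e2
      exact (pow_pos hr 12).ne e2, h.sw.six⟩
  have hsz : Sz (⟨0, 0, 0, a, b⟩ : Affine M) w r := ⟨hs.na, hs.two, hs.three, hr, w4, w6⟩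
  refine NTi_form hsw hsz e2 hc (hsw.nonsing e1) (hd X hx) (hd Y hy) ?_
  have e3 := congrArg (der p S t) e1
  rw [map_add, map_add, hS.1.der_pow (hF hy), hS.1.der_pow (hF hx), hS.1.der_mul m4 (hF hx), d4,
    d6] at e3
  change 2 * Y * der p S t Y = (3 * X ^ 2 + a) * der p S t X
  push_cast at e3
  linear_combination e3

omit [CharP M p] [IsAlgClosed M] in
theorem NTi_uk (n : ℕ) : p ^ n = (p - 1) * uk p n + 1 ∧ n ≤ uk p n := by
  obtain ⟨q, hq⟩ : ∃ q, p = q + 1 := ⟨p - 1, (Nat.sub_add_cancel hp.out.one_le).symm⟩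
  induction n with
  | zero => simp [uk]
  | succ n ih =>
    rw [EllR_uk, pow_succ, ih.1]
    refine ⟨?_, Nat.succ_le_succ (ih.2.trans (Nat.le_mul_of_pos_right _ hp.out.pos))⟩
    generalize uk p n = u
    rw [hq, Nat.add_sub_cancel]
    ring

end gen

variable {k : Type} [Field k] {p : ℕ} [Fintype k] [hp : Fact p.Prime] [CharP k p] {a4 a6 : k[X]}

theorem Hy.kap_tight2 (h : Hy p a4 a6) {v : Pl k}
    (h1 : av v (pk _ a4) ^ 3 ≤ av v (pk _ (Dc a4 a6)))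
    (h2 : av v (pk _ (hasseInv p a4 a6)) ^ 12 < av v (pk _ (Dc a4 a6)) ^ (p - 1)) (M m : ℕ) :
    ∃ B : ℕ, ∀ n ≥ B, ∀ (H : Subgroup (Gk k)) (s : Amb a4 a6 p H (n + 1)) (w : Kb k),
      Kap a4 a6 p H (n + 1) s 0 w → ∀ (j : Kb k →ₐ[RatFunc k] Lb v) (W : Lb v) (d : RatFunc k),
        W ^ p - W = algebraMap _ _ d → av v d ≤ 2 ^ M →
        (∀ τ ∈ I0 p v, τ W = W → ∃ σ ∈ H, ∀ x, j (σ x) = τ (j x)) → nm v (j w) ≤ 2⁻¹ ^ m := by
  have hO := h.ord_Lb v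
  have na := nm_na v
  have hD0 : 0 < av v (pk _ (Dc a4 a6)) :=
    (av v).pos fun e => h.disc (SelD_inj (RatFunc k) (e.trans (map_zero _).symm))
  obtain ⟨ρ, hρ, eρ⟩ : ∃ ρ : ℝ, 0 < ρ ∧ ρ ^ 12 = av v (pk _ (Dc a4 a6)) :=
    ⟨_, Real.rpow_pos_of_pos hD0 _, Real.rpow_inv_natCast_pow hD0.le (by norm_num)⟩
  have e : 4 * (Wm a4 a6 (Lb v)).a₄ ^ 3 + 27 * (Wm a4 a6 (Lb v)).a₆ ^ 2 =
      pk (Lb v) (Dc a4 a6) := by
    simp only [Dc, map_add, map_mul, map_pow, map_ofNat, Wm_a4, Wm_a6]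
  have hD : nm v (4 * (Wm a4 a6 (Lb v)).a₄ ^ 3 + 27 * (Wm a4 a6 (Lb v)).a₆ ^ 2) = ρ ^ 12 := by
    rw [e, SelL_pk, eρ]
    rfl
  have hs : Quad.Sz (Wm a4 a6 (Lb v)) (nm v) ρ := by
    obtain ⟨_, -, hs, -⟩ := hO.exists_rho na
    have b4 : nm v ((Wm a4 a6 (Lb v)).a₄ ^ 3) ≤ ρ ^ 12 := by
      rw [map_pow, Wm_a4, SelL_pk, eρ]
      exact h1
    have b6 := Quad.EllB_sub na hD.le (Quad.EllB_num na 4 b4)
    rw [add_sub_cancel_left, show (27 : Lb v) = 3 ^ 3 by norm_num, map_mul, map_pow, map_pow,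
      hs.three, one_pow, one_mul, pow_mul ρ 6 2] at b6
    rw [map_pow, pow_mul ρ 4 3] at b4
    exact ⟨na, hs.two, hs.three, hρ, le_of_pow_le_pow_left₀ three_ne_zero (pow_pos hρ 4).le b4,
      le_of_pow_le_pow_left₀ two_ne_zero (pow_pos hρ 6).le b6⟩
  have hA : nm v (pk _ (hasseInv p a4 a6)) < ρ ^ (p - 1) := by
    refine lt_of_pow_lt_pow_left₀ 12 (pow_pos hρ _).le ?_
    rw [pow_right_comm, eρ, SelL_pk]
    exact h2
  have q0 := div_nonneg ((nm v).nonneg (pk _ (hasseInv p a4 a6))) (pow_pos hρ (p - 1)).le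
  have q1 := (div_lt_one (pow_pos hρ (p - 1))).2 hA
  obtain ⟨B, hB⟩ := exists_pow_lt_of_lt_one
    (show (0 : ℝ) < 2⁻¹ ^ m * ρ / 2 ^ (p * M + 1) by positivity) q1
  refine ⟨B, fun n hn H s w hw0 j W d hW hd hI => ?_⟩
  obtain ⟨Q, hl, y, hy, hτ, ha, hw⟩ := h.kap_loc hw0 v j
  have h0 : algebraMap (RatFunc k) (Lb v) (vpk a4 a6 p (n + 1)) = 0 := by
    rw [vpk, if_neg n.succ_ne_zero, map_zero]
  obtain ⟨P, g1, hP⟩ := hO.ex
  obtain ⟨i, hi⟩ := wp_ker (hO.lam_pow g1 hP) (hO.lam_ne g1 hP) (ha.symm.trans (map_zero j))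
  have g2 : p • -(i • P) = 0 := by rw [smul_neg, smul_comm, hP, smul_zero, neg_zero]
  have g3 : zk p (pk _ (hasseInv p a4 a6)) (n + 1 + 1) (Q + -(i • P)) = -y := by
    rw [hO.zk_add_tors _ Q g2, hO.zz_neg, hO.zz_nsmul hP, ← hi]
    ring
  have hQ : ∀ τ ∈ I0 p v ⊓ MulAction.stabilizer _ W, act _ τ (Q + -(i • P)) = Q + -(i • P) :=
    fun τ g4 => by
      obtain ⟨σ, g5, e⟩ := hI τ g4.1 g4.2
      have g6 := SelL_tors (hτ τ σ g5 e) g2
      have e1 := SelL_zk hO (cmp_actL τ) (SelL_fix τ _) (n + 1 + 1) g6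
      rw [g3, map_neg, show (τ : Lb v →+* Lb v) y = y from hy.2 τ σ g5 e, left_eq_add] at e1
      exact sub_eq_zero.1 (by_contra fun g7 => hO.lam_ne g7 g6 e1)
  have hm := (mem_lev hO.sw (pk_omL v a4)).1
    (add_mem hl (hO.EllR_tors (sc_Lb v) (pk_omL v a4) (pk_omL v a6) _ g2))
  have g4 := hO.bk_le2 (sc_Lb v) (pk_omL v a4) (pk_omL v a6) hs hD (c := 2 ^ (p * M + 1))
    (by positivity) (Om (Lv v) (Lb v) ⊓
      (IntermediateField.fixedField (I0 p v ⊓ MulAction.stabilizer _ W)).toSubfield) inf_le_left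
    (fun x hx => ram_der v hW hd hx.1 fun τ g4 g5 =>
      (IntermediateField.mem_fixedField_iff _ x).1 hx.2 τ ⟨g4, g5⟩)
    ⟨hm.1, (IntermediateField.mem_fixedField_iff _ _).2 fun τ g4 => by
      have e := (cmp_actL τ).xc_eq (Q + -(i • P))
      rw [hQ τ g4] at e
      rw [map_pow]
      exact congrArg (· ^ _) e.symm⟩
    ⟨hm.2, (IntermediateField.mem_fixedField_iff _ _).2 fun τ g4 => by
      have e := (cmp_actL τ).yc_eq (Q + -(i • P))
      rw [hQ τ g4] at e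
      rw [map_pow]
      exact congrArg (· ^ _) e.symm⟩
  rw [SelL_add hO (sc_Lb v) (pk_omL v a4) (pk_omL v a6) (fun _ => h.vpk_specL (n + 1) v) hl g2,
    h0, mul_zero, add_zero, (NTi_uk _).1, pow_succ ρ, pow_mul] at g4
  rw [hw, h0, mul_zero, sub_zero]
  have g5 := (pow_le_pow_of_le_one q0 q1.le
    ((hn.trans (Nat.le_add_right n 2)).trans (NTi_uk (p := p) (n + 1 + 1)).2)).trans hB.le
  rw [div_pow, div_le_div_iff₀ (by positivity) (by positivity)] at g5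
  refine le_of_mul_le_mul_right (g4.trans ?_) (by positivity)
  linarith

end Pool.Agent.ASel
end

-- merged part: Pool.Agent.Work.MP_60d5ce_nt.AG.SelT
section
/-!
# The Tate modules of the Selmer groups form Tate data

PLAN.  `H` is the normal subgroup of the `σ` that fix `w0` and all `w l` (`σ w - w ∈ F_p`), `Hy.opn`.
`T n` is the subgroup of the `u : ℕ → Amb H n` with `u 0 = 0`, `u m ∈ Sel`, `p u (m+1) = u m` and
`∑ (acA σ0)^[i] (u m) = 0`; `ac`, `Fr`, `Ve` act on components, `Kap n u a w := Kap H n (u 1) a w`.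
`ptf`: `u m = p u (m+1)`; `sep`: `(p ^ m u') m = u' 0`; `ker`: `kap_ker` and the shift `m ↦ u (m+1)`;
`uniq`: `(p u) 1 = u 0 = 0`.  `noT`: `wp_ker`, the roots are the `zz t` (`lam_pow`, `zz_map`, `lam_ne`).
`LH H v j ↔ Φ.L1 v j` by `exists_rst`.  For `good`, `tight`: if `d`, `h l` are integral at `v` then so
are the roots (`wp_int` with `A = 1`) and `I0` fixes them (`i0_small`, `fp_small`); `v0 ∣ A ∣ F` is prime to
`b`, `av v0 A ≤ 1/2`, `uk p (n+2) ≥ n + 1`.  Last part: `δ - we e ∈ F_p`, so the stabiliser of `δ` is that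
of `we e` and contains `H`; restrict with `Rm` (`Rm_inj`, `Rm_acA`, `acA_triv`: `σ0` of `BadD` and `Φ.σ0`
differ by an element of the stabiliser).
-/

namespace Pool.Agent.ASel

open Polynomial Pool.Agent.Smith

noncomputable section

section Aux

open Pool.Agent.ShaAsc
open scoped Classical

variable {k : Type} [Field k] {p : ℕ} [Fintype k] [hp : Fact p.Prime] [CharP k p] {a4 a6 : k[X]}
  {ι : Type}

/-- the automorphisms that fix all roots -/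
def SelT_H (Φ : ASF p k ι) : Subgroup (Gk k) :=
  MulAction.stabilizer (Gk k) Φ.w0 ⊓ ⨅ l, MulAction.stabilizer (Gk k) (Φ.w l)

omit [Fintype k] hp [CharP k p] in
theorem SelT_mem {Φ : ASF p k ι} {σ : Gk k} :
    σ ∈ SelT_H Φ ↔ σ Φ.w0 = Φ.w0 ∧ ∀ l, σ (Φ.w l) = Φ.w l := by
  simp only [SelT_H, Subgroup.mem_inf, Subgroup.mem_iInf, MulAction.mem_stabilizer_iff,
    AlgEquiv.smul_def]

instance SelT_normal (Φ : ASF p k ι) : (SelT_H Φ).Normal :=
  ⟨fun σ hσ γ => Subgroup.mem_inf.2 ⟨(stab_normal Φ.hw0).conj_mem σ (Subgroup.mem_inf.1 hσ).1 γ,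
    Subgroup.mem_iInf.2 fun l => (stab_normal (Φ.hw l)).conj_mem σ
      (Subgroup.mem_iInf.1 (Subgroup.mem_inf.1 hσ).2 l) γ⟩⟩

omit [Fintype k] in
theorem SelT_diff {δ δ' : Kb k} (h : δ ^ p - δ = δ' ^ p - δ') : ∃ m : ℕ, δ = δ' + m := by
  obtain ⟨m, hm⟩ := Wp_fix (p := p) (x := δ - δ') (by
    rw [sub_pow_char]
    linear_combination h)
  exact ⟨m, by rw [← hm, add_sub_cancel]⟩

omit [Fintype k] in
theorem SelT_mv {δ : Kb k} {d : RatFunc k} (h : δ ^ p - δ = algebraMap _ _ d) (σ : Gk k) :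
    ∃ m : ℕ, σ δ = δ + m :=
  SelT_diff (p := p) (by rw [← map_pow, ← map_sub, h, AlgEquiv.commutes])

omit [Fintype k] in
theorem SelT_comm1 {δ : Kb k} {d : RatFunc k} (h : δ ^ p - δ = algebraMap _ _ d) (σ τ : Gk k) :
    ((τ * σ)⁻¹ * (σ * τ)) δ = δ := by
  obtain ⟨m, hm⟩ := SelT_mv h σ
  obtain ⟨m', hm'⟩ := SelT_mv h τ
  have h1 : (σ * τ) δ = (τ * σ) δ := by
    rw [AlgEquiv.mul_apply, AlgEquiv.mul_apply, hm, hm', map_add, map_add, hm, hm', map_natCast,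
      map_natCast]
    ring
  rw [AlgEquiv.mul_apply, h1, ← AlgEquiv.mul_apply, inv_mul_cancel, AlgEquiv.one_apply]

theorem SelT_ac_eq {H : Subgroup (Gk k)} [H.Normal] {n : ℕ} {σ τ : Gk k} (h : τ⁻¹ * σ ∈ H)
    {s : Amb a4 a6 p H n} (hs : s ∈ Sel a4 a6 p H n) :
    acA a4 a6 p H n σ s = acA a4 a6 p H n τ s := by
  rw [← mul_inv_cancel_left τ σ, acA_mul, acA_triv h hs]

theorem SelT_comm (Φ : ASF p k ι) {n : ℕ} (σ τ : Gk k) {s : Amb a4 a6 p (SelT_H Φ) n}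
    (hs : s ∈ Sel a4 a6 p _ n) :
    acA a4 a6 p _ n σ (acA a4 a6 p _ n τ s) = acA a4 a6 p _ n τ (acA a4 a6 p _ n σ s) := by
  rw [← acA_mul, ← acA_mul]
  exact SelT_ac_eq (SelT_mem.2 ⟨SelT_comm1 Φ.hw0 σ τ, fun l => SelT_comm1 (Φ.hw l) σ τ⟩) hs

theorem SelT_opn (h : Hy p a4 a6) [Fintype ι] (Φ : ASF p k ι) : Opn a4 a6 p (SelT_H Φ) := by
  refine h.opn (insert Φ.w0 (Finset.univ.image Φ.w)) (fun y hy => ?_) fun σ hσ => ?_
  · rcases Finset.mem_insert.1 hy with rfl | hy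
    · exact ⟨_, Φ.hw0⟩
    · obtain ⟨l, -, rfl⟩ := Finset.mem_image.1 hy
      exact ⟨_, Φ.hw l⟩
  · exact SelT_mem.2 ⟨hσ _ (Finset.mem_insert_self _ _), fun l =>
      hσ _ (Finset.mem_insert_of_mem (Finset.mem_image_of_mem _ (Finset.mem_univ l)))⟩

variable (a4 a6 p) in
/-- the part of the Tate module that is killed by the norm -/
def SelT_T (H : Subgroup (Gk k)) [H.Normal] (σ0 : Gk k) (n : ℕ) :
    AddSubgroup (ℕ → Amb a4 a6 p H n) where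
  carrier := {u | u 0 = 0 ∧ ∀ m, u m ∈ Sel a4 a6 p H n ∧ p • u (m + 1) = u m ∧
    ∑ i ∈ Finset.range p, (acA a4 a6 p H n σ0)^[i] (u m) = 0}
  zero_mem' := ⟨rfl, fun _ => ⟨zero_mem _, smul_zero _,
    Finset.sum_eq_zero fun i _ => iterate_map_zero _ i⟩⟩
  add_mem' {u u'} hu hu' := ⟨by rw [Pi.add_apply, hu.1, hu'.1, add_zero], fun m =>
    ⟨add_mem (hu.2 m).1 (hu'.2 m).1,
      (smul_add p (u (m + 1)) (u' (m + 1))).trans (congrArg₂ _ (hu.2 m).2.1 (hu'.2 m).2.1),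
      by simp only [Pi.add_apply, iterate_map_add, Finset.sum_add_distrib, (hu.2 m).2.2,
        (hu'.2 m).2.2, add_zero]⟩⟩
  neg_mem' {u} hu := ⟨by rw [Pi.neg_apply, hu.1, neg_zero], fun m =>
    ⟨neg_mem (hu.2 m).1, (smul_neg p (u (m + 1))).trans (congrArg _ (hu.2 m).2.1),
      by simp only [Pi.neg_apply, iterate_map_neg, Finset.sum_neg_distrib, (hu.2 m).2.2,
        neg_zero]⟩⟩

theorem SelT_iter {H H' : Subgroup (Gk k)} [H.Normal] [H'.Normal] {σ0 σ1 : Gk k} {n n' : ℕ}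
    (g : Amb a4 a6 p H n →+ Amb a4 a6 p H' n')
    (h2 : ∀ s ∈ Sel a4 a6 p H n, g (acA a4 a6 p H n σ0 s) = acA a4 a6 p H' n' σ1 (g s))
    (i : ℕ) : ∀ s ∈ Sel a4 a6 p H n,
      (acA a4 a6 p H' n' σ1)^[i] (g s) = g ((acA a4 a6 p H n σ0)^[i] s) := by
  induction i with
  | zero => exact fun _ _ => rfl
  | succ i ih =>
    intro s hs
    rw [Function.iterate_succ_apply, Function.iterate_succ_apply, ← h2 s hs, ih _ (acA_mem σ0 hs)]

/-- the map induced on Tate modules -/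
def SelT_map {H H' : Subgroup (Gk k)} [H.Normal] [H'.Normal] {σ0 σ1 : Gk k} {n n' : ℕ}
    (g : Amb a4 a6 p H n →+ Amb a4 a6 p H' n')
    (h1 : ∀ s ∈ Sel a4 a6 p H n, g s ∈ Sel a4 a6 p H' n')
    (h2 : ∀ s ∈ Sel a4 a6 p H n, g (acA a4 a6 p H n σ0 s) = acA a4 a6 p H' n' σ1 (g s)) :
    SelT_T p a4 a6 H σ0 n →+ SelT_T p a4 a6 H' σ1 n' where
  toFun u := ⟨fun m => g (u.1 m), (congrArg g u.2.1).trans (map_zero g), fun m =>
    ⟨h1 _ (u.2.2 m).1, (map_nsmul g p _).symm.trans (congrArg g (u.2.2 m).2.1), by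
      rw [Finset.sum_congr rfl fun i _ => SelT_iter g h2 i _ (u.2.2 m).1, ← map_sum, (u.2.2 m).2.2,
        map_zero]⟩⟩
  map_zero' := Subtype.ext (funext fun _ => map_zero g)
  map_add' _ _ := Subtype.ext (funext fun _ => map_add g _ _)

theorem SelT_pow {H : Subgroup (Gk k)} [H.Normal] {σ0 : Gk k} {n : ℕ} (u : SelT_T p a4 a6 H σ0 n)
    (m : ℕ) : p ^ m • u.1 m = 0 := by
  induction m with
  | zero => rw [pow_zero, one_smul, u.2.1]
  | succ m ih => rw [pow_succ, mul_smul, (u.2.2 m).2.1, ih]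

theorem SelT_noT (h : Hy p a4 a6) {H : Subgroup (Gk k)} (hH : Opn a4 a6 p H) {y : Kb k}
    (hy : ∀ σ ∈ H, σ y = y) (h0 : y ^ p / pk _ (hasseInv p a4 a6) - y = 0) : y = 0 := by
  have ho := h.ord_Kb
  obtain ⟨t, t0, ht⟩ := ho.ex
  obtain ⟨m, hm⟩ := wp_ker (ho.lam_pow t0 ht) (ho.lam_ne t0 ht) h0
  rw [← ho.zz_nsmul ht] at hm
  have h1 : p • m • t = 0 := by rw [smul_comm, ht, smul_zero]
  have h2 := hH.noT (m • t) h1 fun σ hσ => by
    by_contra hne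
    have h3 : p • -(m • t) = 0 := by rw [smul_neg, h1, neg_zero]
    have h4 : p • (act (Ew a4 a6) σ (m • t) + -(m • t)) = 0 := by
      rw [smul_add, h3, ← map_nsmul, h1, map_zero, add_zero]
    refine ho.lam_ne (fun e => hne (add_neg_eq_zero.1 e)) h4 ?_
    rw [ho.zz_add_tors _ h3, ho.zz_neg, ho.zz_map (cmp_act σ), ← hm]
    exact add_neg_eq_zero.2 (hy σ hσ)
  rw [hm, h2, ho.zz_zero]

omit [Fintype k] hp [CharP k p] in
theorem SelT_L1 {Φ : ASF p k ι} {v : Pl k} {j : Kb k →ₐ[RatFunc k] Lb v} {y : Lb v}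
    (hy : LH (SelT_H Φ) v j y) : Φ.L1 v j y := by
  obtain ⟨ρ, hρ⟩ := exists_rst v j
  exact ⟨hy.1, fun τ h1 h2 => hy.2 τ (ρ τ) (SelT_mem.2 ⟨j.injective ((hρ τ _).trans h1),
    fun l => j.injective ((hρ τ _).trans (h2 l))⟩) (hρ τ)⟩

theorem SelT_fix {δ : Kb k} {d : RatFunc k} (h : δ ^ p - δ = algebraMap _ _ d) {v : Pl k}
    (hd : av v d ≤ 1) (j : Kb k →ₐ[RatFunc k] Lb v) {τ : Lb v ≃ₐ[Lv v] Lb v} (hτ : τ ∈ I0 p v)
    {σ : Gk k} (hσ : ∀ x, j (σ x) = τ (j x)) : σ δ = δ := by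
  obtain ⟨m, hm⟩ := SelT_mv h σ
  have h1 : nm v (j δ) ≤ 1 := wp_int (p := p) (nm_na v) (map_one _) (by
    rw [div_one, ← map_pow, ← map_sub, h, AlgHom.commutes, nm_algK]
    exact hd)
  have h2 := i0_small hτ h1
  rw [← hσ, hm, map_add, add_sub_cancel_left, map_natCast, ← mul_one (m : Lb v)] at h2
  have h3 := fp_small (p := p) (nm_na v) (map_one _) h2
  rw [mul_one, ← map_natCast j, ← map_zero j] at h3
  rw [hm, j.injective h3, add_zero]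

theorem SelT_I0 {A F b : k[X]} {Φ : ASF p k ι} (hΦ : Stg A F b Φ) {v : Pl k} (h0 : ¬ InS0 F v)
    (hv : ¬ plp v ∣ b) (j : Kb k →ₐ[RatFunc k] Lb v) :
    ∀ τ ∈ I0 p v, ∃ σ ∈ SelT_H Φ, ∀ x, j (σ x) = τ (j x) := by
  obtain ⟨ρ, hρ⟩ := exists_rst v j
  exact fun τ hτ => ⟨ρ τ, SelT_mem.2 ⟨SelT_fix Φ.hw0 (hΦ.d_int v h0 hv) j hτ (hρ τ),
    fun l => SelT_fix (Φ.hw l) (hΦ.h_int l v (Or.inr hv)) j hτ (hρ τ)⟩, hρ τ⟩

theorem SelT_I1 {A F b : k[X]} {Φ : ASF p k ι} (hΦ : Stg A F b Φ) {v : Pl k} (h0 : InS0 F v)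
    (j : Kb k →ₐ[RatFunc k] Lb v) :
    ∀ τ ∈ I0 p v, τ (j Φ.w0) = j Φ.w0 → ∃ σ ∈ SelT_H Φ, ∀ x, j (σ x) = τ (j x) := by
  obtain ⟨ρ, hρ⟩ := exists_rst v j
  have hv : v = none ∨ ¬ plp v ∣ b := or_iff_not_imp_left.2 fun g h =>
    (PF_irr g).not_isUnit (hΦ.cop.isUnit_of_dvd' h (h0.resolve_left g))
  exact fun τ hτ e => ⟨ρ τ, SelT_mem.2 ⟨j.injective ((hρ τ _).trans e),
    fun l => SelT_fix (Φ.hw l) (hΦ.h_int l v hv) j hτ (hρ τ)⟩, hρ τ⟩

omit [Fintype k] in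
theorem SelT_we [Fintype ι] (Φ : ASF p k ι) (e : ι → ZMod p) :
    Φ.we e ^ p - Φ.we e = algebraMap _ _ (Φ.de e) := by
  have h1 : ∀ l, (((e l).val : Kb k) * Φ.w l) ^ p =
      ((e l).val : Kb k) * Φ.w l + algebraMap _ _ (((e l).val : RatFunc k) * Φ.h l) := by
    intro l
    rw [mul_pow, ← frobenius_def, map_natCast, map_mul, map_natCast, ← Φ.hw l]
    ring
  rw [ASF.we, ASF.de, add_pow_char, sum_pow_char, Finset.sum_congr rfl fun l _ => h1 l,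
    Finset.sum_add_distrib, map_add, map_sum, ← Φ.hw0]
  ring

theorem SelT_bad (h : Hy p a4 a6) [Fintype ι] (Φ : ASF p k ι) (e : ι → ZMod p)
    (hb : BadD a4 a6 p (Φ.de e)) : ∃ u : SelT_T p a4 a6 (SelT_H Φ) Φ.σ0 0, u ≠ 0 ∧
      ∀ σ : Gk k, σ (Φ.we e) = Φ.we e → ∀ m, acA a4 a6 p _ 0 σ (u.1 m) = u.1 m := by
  obtain ⟨δ, hδ, σ1, u, h1, h2, h3, h4⟩ := hb
  have hN := stab_normal hδ
  obtain ⟨c, hc⟩ := SelT_diff (p := p) (hδ.trans (SelT_we Φ e).symm)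
  have h5 : ∀ σ : Gk k, σ (Φ.we e) = Φ.we e → σ ∈ MulAction.stabilizer (Gk k) δ := fun σ hσ => by
    rw [MulAction.mem_stabilizer_iff, AlgEquiv.smul_def, hc, map_add, hσ, map_natCast]
  have hle : SelT_H Φ ≤ MulAction.stabilizer (Gk k) δ := fun σ hσ => h5 σ (by
    simp only [ASF.we, map_add, map_sum, map_mul, map_natCast, (SelT_mem.1 hσ).1, (SelT_mem.1 hσ).2])
  have h6 : Φ.σ0 δ = σ1 δ := by
    rw [h1, hc]
    simp only [ASF.we, map_add, map_sum, map_mul, map_natCast, Φ.σ_w0, Φ.σ_w]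
    ring
  have h7 : Φ.σ0⁻¹ * σ1 ∈ MulAction.stabilizer (Gk k) δ := by
    rw [MulAction.mem_stabilizer_iff, AlgEquiv.smul_def, AlgEquiv.mul_apply, ← h6,
      ← AlgEquiv.mul_apply, inv_mul_cancel, AlgEquiv.one_apply]
  refine ⟨SelT_map (σ0 := σ1) (Rm a4 a6 p hle 0) (fun _ hs => Rm_mem hle hs)
    (fun s hs => by rw [SelT_ac_eq h7 hs, Rm_acA]) ⟨u, h3, h4⟩, fun h0 => h2 (funext fun m => ?_),
    fun σ hσ m => ?_⟩
  · exact h.Rm_inj hle (h4 m).1 (congrFun (congrArg Subtype.val h0) m)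
  · change acA a4 a6 p _ 0 σ (Rm a4 a6 p hle 0 (u m)) = Rm a4 a6 p hle 0 (u m)
    rw [← Rm_acA, acA_triv (h5 σ hσ) (h4 m).1]

end Aux

theorem exists_TD {k : Type} [Field k] {p : ℕ} [Fintype k] [Fact p.Prime] [CharP k p]
    {a4 a6 F : k[X]} (h : Hy p a4 a6) (hF : F ≠ 0) (hAF : hasseInv p a4 a6 * Dc a4 a6 ∣ F) {v0 : Pl k}
    (h0 : InS0 F v0) (h1 : av v0 (pk _ a4) ^ 3 ≤ av v0 (pk _ (Dc a4 a6)))
    (h2 : av v0 (pk _ (hasseInv p a4 a6)) ^ 12 < av v0 (pk _ (Dc a4 a6)) ^ (p - 1)) :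
    ∃ B : ℕ → ℕ, ∀ (ι : Type) [Fintype ι] (b : k[X]) (Φ : ASF p k ι),
      Stg (hasseInv p a4 a6) F b Φ →
      ∃ T : TD (hasseInv p a4 a6) F b v0 (vp0 a4 a6 p) B Φ,
        ∀ e, BadD a4 a6 p (Φ.de e) →
          ∃ u : T.T 0, u ≠ 0 ∧ ∀ σ : Gk k, σ (Φ.we e) = Φ.we e → T.ac 0 σ u = u := by
  classical
  obtain ⟨ρ, ρ0, hρ⟩ := h.kap_V
  choose B hB using h.kap_et0
  choose B' hB' using h.kap_tight2 h1 h2 F.natDegree
  have n0 : ∀ {v}, ¬ InS0 F v → ¬ InS0 (hasseInv p a4 a6 * Dc a4 a6) v :=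
    fun hv e => hv (e.imp_right fun e => e.trans hAF)
  refine ⟨fun n => max (B n) (B' n), fun ι _ b Φ hΦ => ?_⟩
  have ho := SelT_opn h Φ
  have K1 : ∀ {x}, KH (SelT_H Φ) x ↔ Φ.K1 x :=
    ⟨fun hx => ⟨hx.1, fun σ e1 e2 => hx.2 σ (SelT_mem.2 ⟨e1, e2⟩)⟩,
      fun hx => ⟨hx.1, fun σ hσ => hx.2 σ (SelT_mem.1 hσ).1 (SelT_mem.1 hσ).2⟩⟩
  let ac : ∀ n, Gk k → SelT_T p a4 a6 (SelT_H Φ) Φ.σ0 n →+ SelT_T p a4 a6 (SelT_H Φ) Φ.σ0 n :=
    fun n σ => SelT_map (acA a4 a6 p _ n σ) (fun _ hs => acA_mem σ hs)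
      fun _ hs => SelT_comm Φ σ Φ.σ0 hs
  refine ⟨{
    T := fun n => SelT_T p a4 a6 (SelT_H Φ) Φ.σ0 n
    grp := fun _ => inferInstance
    ac := ac
    Fr := fun n => SelT_map (Fm a4 a6 p _ n) (fun _ hs => Fm_mem hs) fun s _ => Fm_acA _ s
    Ve := fun n => SelT_map (Vm h _ n) (fun _ hs => h.Vm_mem hs) fun s _ => h.Vm_acA _ s
    Kap := fun n u a w => Kap a4 a6 p _ n (u.1 1) a w
    ρ := ρ
    ρ_ne := ρ0
    ac_mul := fun n σ τ u => Subtype.ext (funext fun m => acA_mul σ τ (u.1 m))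
    ac_triv := fun n σ u e1 e2 =>
      Subtype.ext (funext fun m => acA_triv (SelT_mem.2 ⟨e1, e2⟩) (u.2.2 m).1)
    norm := fun n u => Subtype.ext (funext fun m => ?_)
    FV := fun n u => Subtype.ext (funext fun m => h.Fm_Vm (u.1 m))
    VF := fun n u => Subtype.ext (funext fun m => h.Vm_Fm (u.1 m))
    F_ac := fun n σ u => Subtype.ext (funext fun m => Fm_acA σ (u.1 m))
    V_ac := fun n σ u => Subtype.ext (funext fun m => h.Vm_acA σ (u.1 m))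
    ptf := fun n u hu => Subtype.ext (funext fun m =>
      (u.2.2 m).2.1.symm.trans (congrFun (congrArg Subtype.val hu) (m + 1)))
    sep := fun n u hu => Subtype.ext (funext fun m => ?_)
    ex := fun n u => h.kap_ex ho (u.2.2 1).1 ((u.2.2 0).2.1.trans u.2.1)
    mem := fun hu => ⟨K1.1 (h.kap_mem hu).1, K1.1 (h.kap_mem hu).2⟩
    sub := fun hu hu' => h.kap_sub hu hu'
    act := fun σ hu => Kap.act h hu σ
    cob := fun hu hy => h.kap_cob hu (K1.2 hy)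
    uniq := fun {n u a w} hu => ?_
    ker := fun {n u} hu => ⟨⟨fun m => u.1 (m + 1), h.kap_ker hu, fun m => u.2.2 (m + 1)⟩,
      Subtype.ext (funext fun m => (u.2.2 m).2.1.symm)⟩
    noT := fun y hy e => SelT_noT h ho (K1.2 hy).2 e
    coc := fun hu => h.kap_coc hu
    kF := fun hu => h.kap_F hu
    kV := fun hu => hρ _ _ _ _ _ hu
    et0 := fun {n u a w} hu v hv j => ?_
    et1 := fun hu v hv j => (h.kap_et1 hu (n0 hv) j).imp fun _ hy => ⟨SelT_L1 hy.1, hy.2⟩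
    good := fun hu v hv hd j => (h.kap_good hu (n0 fun e => e.elim hv fun e => hd (e.mul_right b)) j
      (SelT_I0 hΦ (fun e => e.elim hv fun e => hd (e.mul_right b)) (fun e => hd (e.mul_left _)) j)).imp
        fun _ hy => ⟨SelT_L1 hy.1, hy.2⟩
    iso := fun hu hu' v j => (h.kap_iso hu hu' v j).imp fun _ hy => ⟨SelT_L1 hy.1, hy.2⟩
    tight := fun m hm hu j => hB' m _ ((le_max_right _ _).trans hm) _ _ _ hu j (j Φ.w0) Φ.d
      (by rw [← map_pow, ← map_sub, Φ.hw0, j.commutes]) (hΦ.d_le v0) (SelT_I1 hΦ h0 j) },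
    fun e he => ?_⟩
  · have h3 : ∀ (i : ℕ) (u : SelT_T p a4 a6 (SelT_H Φ) Φ.σ0 n),
        ((ac n Φ.σ0)^[i] u).1 m = (acA a4 a6 p _ n Φ.σ0)^[i] (u.1 m) := fun i => by
      induction i with
      | zero => exact fun _ => rfl
      | succ i ih => exact fun u => ih (ac n Φ.σ0 u)
    rw [AddSubgroup.val_finsetSum, Finset.sum_apply, Finset.sum_congr rfl fun i _ => h3 i u]
    exact (u.2.2 m).2.2
  · obtain ⟨u', rfl⟩ := hu m
    exact SelT_pow u' m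
  · have h3 : (p • u).1 1 = 0 := (u.2.2 0).2.1.trans u.2.1
    rw [h3] at hu
    exact (h.kap_uniq ho hu).imp fun _ hy => ⟨K1.1 hy.1, hy.2⟩
  · by_cases e : InS0 (hasseInv p a4 a6 * Dc a4 a6) v
    · exact (hB _ _ _ _ _ hu v e j).imp fun _ hy => ⟨SelT_L1 hy.1,
        hy.2.trans (pow_le_pow_right₀ one_le_two (le_max_left _ _))⟩
    · exact (h.kap_et1 hu e j).imp fun _ hy => ⟨SelT_L1 hy.1, hy.2.trans (one_le_pow₀ one_le_two)⟩
  · exact (SelT_bad h Φ e he).elim fun u hu =>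
      ⟨u, hu.1, fun σ hσ => Subtype.ext (funext (hu.2 σ hσ))⟩

end

end Pool.Agent.ASel
end
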